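import Pool.Agent.Helper204.JS.Defs

set_option linter.unusedSectionVars false

open MvPolynomial Finset

noncomputable section

namespace JSup

variable {K : Type} [Field K] [CharZero K] [Par K]

/-- `Φ̂ f = e_l((Y_0 + α + l + 1) f) + Σ_{l<k<N} e_k f`. -/
def Phat (N l : ℕ) : MvPolynomial ℕ K →ₗ[K] MvPolynomial ℕ K :=
  ee l ∘ₗ (Yop N 0 + ((al : K) + l + 1) • LinearMap.id) + ∑ k ∈ Ioo l N, ee k

theorem Phat_apply (N l : ℕ) (f : MvPolynomial ℕ K) :
    Phat N l f = ee l (Yop N 0 f + ((al : K) + l + 1) • f) + ∑ k ∈ Ioo l N, ee k f := by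
  simp [Phat, LinearMap.sum_apply]

/-- `η̃ = (η_k,…,η_{N-1} | η_0+1,…,η_{k-1}+1)`. -/
def tilde (N k : ℕ) (η : ℕ →₀ ℕ) : ℕ →₀ ℕ :=
  Finsupp.onFinset (range N)
    (fun i => if i < N - k then η (i + k) else if i < N then η (i - (N - k)) + 1 else 0)
    (by
      intro i hi
      simp only [mem_range]
      by_contra h
      apply hi
      have h1 : ¬ i < N - k := by omega
      simp [h1, h])

theorem tilde_apply (N k : ℕ) (η : ℕ →₀ ℕ) (i : ℕ) :
    tilde N k η i = if i < N - k then η (i + k) else if i < N then η (i - (N - k)) + 1 else 0 := rfl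

/-- `i ↦ m+i` for `i<k`, `k+i ↦ i` for `i<m`, identity beyond `k+m`. -/
def rot (k m : ℕ) : Equiv.Perm ℕ where
  toFun i := if i < k then m + i else if i < k + m then i - k else i
  invFun i := if i < m then k + i else if i < k + m then i - m else i
  left_inv i := by
    by_cases h1 : i < k
    · have h2 : ¬ m + i < m := by omega
      have h3 : m + i < k + m := by omega
      simp only [h1, if_true, h2, if_false, h3]; omega
    · by_cases h2 : i < k + m
      · have h3 : i - k < m := by omega
        simp only [h1, if_false, h2, if_true, h3]; omega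
      · have h3 : ¬ i < m := by omega
        simp [h1, h2, h3]
  right_inv i := by
    by_cases h1 : i < m
    · have h2 : ¬ k + i < k := by omega
      have h3 : k + i < k + m := by omega
      simp only [h1, if_true, h2, if_false, h3]; omega
    · by_cases h2 : i < k + m
      · have h3 : i - m < k := by omega
        simp only [h1, if_false, h2, if_true, h3]; omega
      · have h3 : ¬ i < k := by omega
        simp [h1, h2, h3]

theorem rot_apply (k m i : ℕ) : rot k m i = if i < k then m + i else if i < k + m then i - k else i := rfl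

theorem rot_symm_apply (k m i : ℕ) :
    (rot k m).symm i = if i < m then k + i else if i < k + m then i - m else i := rfl

/-- `ω + 1` on the first `k` positions. -/
def addOne (k : ℕ) (ω : ℕ → ℕ) : ℕ → ℕ := fun i => if i < k then ω i + 1 else ω i

/-- the integral form `J` attached to a composition `η`, with `k` bosonic and `m` fermionic parts. -/
def Jraw (N k m : ℕ) (η : ℕ →₀ ℕ) : MvPolynomial ℕ K :=
  symChain N m k ((∏ i ∈ range k, X (m + i)) *
    rename (rot k m) ((cB N η k m : K)⁻¹ • antis k m (Fp N η)))

end JSup
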