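import Pool.Agent.Helper204.JS.Defs

set_option linter.unusedSectionVars false

open MvPolynomial Finset

noncomputable section

namespace JSup
variable {K : Type} [Field K] [CharZero K] [Par K]


theorem IIeq_dd_swap (i j : ℕ) (f : MvPolynomial ℕ K) : dd i j f = - dd j i f := by
  by_cases h : i = j
  · subst h; simp
  · refine dd_unique h ?_
    have h1 := dd_spec j i f
    rw [Equiv.swap_comm i j, ← h1]
    ring

/-- HINT: `Σ_{i<m} Y_i f = α Σ δ_i f + Σ_{j<i<m} x_i ∂_{ij} f + Σ_{i<j<m} x_j ∂_{ij} f + Σ_{i<m≤j<N} x_j ∂_{ij} f -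
(0+1+…+(m-1)) f` and `∂_{ij} = -∂_{ji}` makes the two middle sums cancel. -/
theorem II_eq (N m : ℕ) (hm : m ≤ N) (f : MvPolynomial ℕ K) :
    II N m f = ∑ i ∈ range m, Yop N i f + ((m.choose 2 : ℕ) : K) • f := by
  have hII : II N m f = (al : K) • ∑ i ∈ range m, X i * pderiv i f
      + ∑ i ∈ range m, ∑ j ∈ Ico m N, X j * dd i j f := by
    simp [II, LinearMap.sum_apply]
  have hY : ∑ i ∈ range m, Yop N i f = (al : K) • ∑ i ∈ range m, X i * pderiv i f
      + ∑ i ∈ range m, ∑ j ∈ range i, X i * dd i j f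
      + ∑ i ∈ range m, ∑ j ∈ Ioo i N, X j * dd i j f - ∑ i ∈ range m, (i : K) • f := by
    simp only [Yop_apply, Finset.sum_add_distrib, Finset.sum_sub_distrib, Finset.smul_sum]
  have hsplit : ∑ i ∈ range m, ∑ j ∈ Ioo i N, X j * dd i j f
      = ∑ i ∈ range m, ∑ j ∈ Ioo i m, X j * dd i j f
      + ∑ i ∈ range m, ∑ j ∈ Ico m N, X j * dd i j f := by
    rw [← Finset.sum_add_distrib]
    refine Finset.sum_congr rfl fun i hi => ?_
    have hi' := Finset.mem_range.1 hi
    rw [← Finset.sum_union]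
    · refine Finset.sum_congr ?_ fun _ _ => rfl
      ext k
      simp only [Finset.mem_Ioo, Finset.mem_union, Finset.mem_Ico]
      omega
    · rw [Finset.disjoint_left]
      intro k hk hk'
      simp only [Finset.mem_Ioo, Finset.mem_Ico] at hk hk'
      omega
  have hswap : ∑ i ∈ range m, ∑ j ∈ Ioo i m, X j * dd i j f
      = - ∑ i ∈ range m, ∑ j ∈ range i, X i * dd i j f := by
    rw [Finset.sum_comm' (s' := fun j => range j) (t' := range m)]
    · rw [← Finset.sum_neg_distrib]
      refine Finset.sum_congr rfl fun i hi => ?_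
      rw [← Finset.sum_neg_distrib]
      refine Finset.sum_congr rfl fun j hj => ?_
      rw [IIeq_dd_swap j i f, mul_neg]
    · intro x y
      simp only [Finset.mem_Ioo, Finset.mem_range]
      omega
  have hsum : ∑ i ∈ range m, (i : K) • f = ((m.choose 2 : ℕ) : K) • f := by
    rw [← Finset.sum_smul, ← Nat.cast_sum, Finset.sum_range_id, Nat.choose_two_right]
  rw [hII, hY, hsplit, hswap, hsum]
  abel

end JSup
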