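import Pool.Agent.Helper204.JS.Defs

set_option linter.unusedSectionVars false

open MvPolynomial Finset

noncomputable section

namespace JSup
variable {K : Type} [Field K] [CharZero K] [Par K]


/-- HINT: `dd_unique` after applying `rename σ` to `dd_spec` (for i ≠ j; both sides 0 for i = j);
`σ ∘ swap i j = swap (σ i) (σ j) ∘ σ`. -/
theorem dd_rename (σ : Equiv.Perm ℕ) (i j : ℕ) (f : MvPolynomial ℕ K) :
    rename σ (dd i j f) = dd (σ i) (σ j) (rename σ f) := by
  by_cases h : i = j
  · subst h
    rw [dd_self, dd_self, map_zero]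
  · symm
    apply dd_unique (fun h' => h (σ.injective h'))
    have hcomp : (⇑(Equiv.swap (σ i) (σ j)) ∘ ⇑σ) = (⇑σ ∘ ⇑(Equiv.swap i j)) := by
      funext k
      simp only [Function.comp_apply]
      rw [Equiv.swap_apply_def, Equiv.swap_apply_def]
      simp only [σ.injective.eq_iff]
      split_ifs <;> rfl
    rw [rename_rename, hcomp, ← rename_rename, ← map_sub, ← dd_spec, map_mul, map_sub, rename_X,
      rename_X]

end JSup
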