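import Pool.Agent.Helper204.JS.Defs

set_option linter.unusedSectionVars false

open MvPolynomial Finset

noncomputable section

namespace JSup
variable {K : Type} [Field K] [CharZero K] [Par K]


theorem del_rename (σ : Equiv.Perm ℕ) (i : ℕ) (f : MvPolynomial ℕ K) :
    rename σ (del i f) = del (σ i) (rename σ f) := by
  rw [del_apply, del_apply, map_mul, rename_X, pderiv_rename σ.injective]

end JSup
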