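import Pool.Agent.Helper204.JS.Defs
import Pool.Agent.Helper204.JS.Defs1
import Pool.Agent.Helper204.JS.P_dd_rename
import Pool.Agent.Helper204.JS.P_del_rename

set_option linter.unusedSectionVars false

open MvPolynomial Finset

noncomputable section

namespace JSup
variable {K : Type} [Field K] [CharZero K] [Par K]



theorem IIr_map (s : Finset ℕ) (σ : Equiv.Perm ℕ) (h : ∀ i ∈ s, σ i ∈ s) :
    s.map σ.toEmbedding = s := by
  refine Finset.eq_of_subset_of_card_le ?_ ?_
  · intro x hx
    obtain ⟨i, hi, rfl⟩ := Finset.mem_map.1 hx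
    exact h i hi
  · rw [Finset.card_map]

theorem IIr_sum {A : Type} [AddCommMonoid A] (s : Finset ℕ) (σ : Equiv.Perm ℕ)
    (h : ∀ i ∈ s, σ i ∈ s) (g : ℕ → A) : ∑ i ∈ s, g (σ i) = ∑ i ∈ s, g i := by
  conv_rhs => rw [← IIr_map s σ h]
  rw [Finset.sum_map]
  rfl

/-- HINT: `II N m f = α Σ_{i<m} δ_i f + Σ_{i<m≤j<N} x_j ∂_{ij} f`; `σ` permutes `[0,m)` and `[m,N)`; `dd_rename`, `del_rename`,
reindex the sums. -/
theorem II_rename (N m : ℕ) (hm : m ≤ N) (σ : Equiv.Perm ℕ) (h1 : ∀ i, i < m → σ i < m)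
    (h2 : ∀ i, N ≤ i → σ i = i) (f : MvPolynomial ℕ K) :
    II N m (rename σ f) = rename σ (II N m f) := by
  have hr : ∀ i ∈ range m, σ i ∈ range m := by
    intro i hi
    exact Finset.mem_range.2 (h1 i (Finset.mem_range.1 hi))
  have hI : ∀ j ∈ Ico m N, σ j ∈ Ico m N := by
    intro j hj
    rw [Finset.mem_Ico] at hj ⊢
    constructor
    · by_contra hcon
      have h3 : σ j ∈ (range m).map σ.toEmbedding := by
        rw [IIr_map _ σ hr, Finset.mem_range]; omega
      obtain ⟨i, hi, hij⟩ := Finset.mem_map.1 h3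
      have h4 : i = j := σ.injective hij
      rw [Finset.mem_range] at hi
      omega
    · by_contra hcon
      have h3 := h2 (σ j) (by omega)
      have h4 := σ.injective h3
      omega
  have hII : ∀ g : MvPolynomial ℕ K, II N m g = (al : K) • ∑ i ∈ range m, del i g
      + ∑ i ∈ range m, ∑ j ∈ Ico m N, X j * dd i j g := by
    intro g
    simp [II, LinearMap.sum_apply]
  rw [hII, hII, map_add, map_smul, map_sum, map_sum]
  congr 1
  · congr 1
    rw [← IIr_sum (range m) σ hr]
    exact Finset.sum_congr rfl fun i _ => (del_rename σ i f).symm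
  · rw [← IIr_sum (range m) σ hr]
    refine Finset.sum_congr rfl fun i _ => ?_
    rw [← IIr_sum (Ico m N) σ hI, map_sum]
    refine Finset.sum_congr rfl fun j _ => ?_
    rw [map_mul, rename_X, dd_rename]

end JSup
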