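import Pool.Agent.Helper204.JS.Defs
import Pool.Agent.Helper204.JS.Defs1

set_option linter.unusedSectionVars false

open MvPolynomial Finset

noncomputable section

namespace JSup
variable {K : Type} [Field K] [CharZero K] [Par K]



/-- HINT: `σ * emb a m w = emb b m w * σ`: on `a+i` both give `b + w i`; for `k` outside `[a,a+m)`, `σ k` is outside
`[b,b+m)` (injectivity, `[b,b+m) = σ [a,a+m)`), both give `σ k`. -/
theorem antis_conj (a b m : ℕ) (σ : Equiv.Perm ℕ) (hσ : ∀ i, i < m → σ (a + i) = b + i)
    (f : MvPolynomial ℕ K) : rename σ (antis a m f) = antis b m (rename σ f) := by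
  rw [antis_apply, antis_apply, map_sum]
  refine Finset.sum_congr rfl fun w _ => ?_
  have key : (σ ∘ emb a m w : ℕ → ℕ) = emb b m w ∘ σ := by
    funext k
    by_cases hk : a ≤ k ∧ k < a + m
    · obtain ⟨i, rfl⟩ : ∃ i : Fin m, k = a + i := ⟨⟨k - a, by omega⟩, by
        show k = a + (k - a)
        omega⟩
      simp only [Function.comp]
      rw [emb_in, hσ _ (w i).2, hσ _ i.2, emb_in]
    · have h1 : emb a m w k = k := emb_out _ _ _ _ (by omega)
      have h2 : σ k < b ∨ b + m ≤ σ k := by
        by_contra h
        push Not at h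
        have h3 := hσ (σ k - b) (by omega)
        have h4 : a + (σ k - b) = k := σ.injective (by rw [h3]; omega)
        omega
      simp only [Function.comp]
      rw [h1, emb_out _ _ _ _ h2]
  rw [map_smul, rename_rename, rename_rename, key]

end JSup
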