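import Pool.Agent.Helper204.JS.Defs
import Pool.Agent.Helper204.JS.Defs1

set_option linter.unusedSectionVars false

open MvPolynomial Finset

noncomputable section

namespace JSup
variable {K : Type} [Field K] [CharZero K] [Par K]



theorem antis_mul (a m : ℕ) (g f : MvPolynomial ℕ K)
    (hg : ∀ w : Equiv.Perm (Fin m), rename (emb a m w) g = g) : antis a m (g * f) = g * antis a m f := by
  rw [antis_apply, antis_apply, Finset.mul_sum]
  apply Finset.sum_congr rfl
  intro w _
  rw [map_mul, hg w, mul_smul_comm]

end JSup
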