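import Pool.Agent.Helper204.JS.Defs
import Pool.Agent.Helper204.JS.Defs1

set_option linter.unusedSectionVars false

open MvPolynomial Finset

noncomputable section

namespace JSup
variable {K : Type} [Field K] [CharZero K] [Par K]



theorem tilde_star (N k : ℕ) (hk : k < N) (η : ℕ →₀ ℕ) (hη : ∀ i, N ≤ i → η i = 0) :
    star (N - 1) (tilde N (k + 1) η) = tilde N k η ∧ tilde N (k + 1) η (N - 1) ≠ 0 ∧ tilde N 0 η = η := by
  have hlast : tilde N (k + 1) η (N - 1) = η k + 1 := by
    rw [tilde_apply]
    have h1 : ¬ N - 1 < N - (k + 1) := by omega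
    have h2 : N - 1 < N := by omega
    have h3 : N - 1 - (N - (k + 1)) = k := by omega
    rw [if_neg h1, if_pos h2, h3]
  refine ⟨?_, ?_, ?_⟩
  · ext i
    rw [star_apply]
    by_cases hi : i = 0
    · subst hi
      rw [if_pos rfl, hlast, tilde_apply, if_pos (by omega : 0 < N - k)]
      simp
    · rw [if_neg hi]
      by_cases hi2 : i ≤ N - 1
      · rw [if_pos hi2, tilde_apply, tilde_apply]
        by_cases h1 : i < N - k
        · rw [if_pos h1, if_pos (by omega : i - 1 < N - (k + 1))]
          congr 1
          omega
        · rw [if_neg h1, if_neg (by omega : ¬ i - 1 < N - (k + 1)),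
            if_pos (by omega : i - 1 < N), if_pos (by omega : i < N)]
          congr 2
          omega
      · rw [if_neg hi2, tilde_apply, if_neg (by omega : ¬ i < N - k),
          if_neg (by omega : ¬ i < N)]
  · rw [hlast]
    omega
  · ext i
    rw [tilde_apply]
    by_cases h1 : i < N - 0
    · rw [if_pos h1]
      rfl
    · rw [if_neg h1, if_neg (by omega : ¬ i < N), hη i (by omega)]

end JSup
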