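import Pool.Agent.Helper204.JS.Defs
import Pool.Agent.Helper204.JS.Defs1
import Pool.Agent.Helper204.JS.P_tilde_star

set_option linter.unusedSectionVars false

open MvPolynomial Finset

noncomputable section

namespace JSup
variable {K : Type} [Field K] [CharZero K] [Par K]



/-- HINT: induction on `k`: `Fp_step` at `l = N-1` (`Ioo (N-1) N` is empty): `F_{tilde (k+1)} = (κ + N) e_{N-1} F_{tilde k}`
(`tilde_star`), and `κ + N ≠ 0` because the coefficient of α is `≥ 1` (`Par.indep`). -/
theorem Fp_tilde (N k : ℕ) (hk : k ≤ N) (η : ℕ →₀ ℕ) (hη : ∀ i, N ≤ i → η i = 0) :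
    ∃ c : K, c ≠ 0 ∧ (Fp N (tilde N k η) : MvPolynomial ℕ K)
      = c • ((ee (N - 1) : Module.End K (MvPolynomial ℕ K)) ^ k) (Fp N η) := by
  induction k with
  | zero =>
    have h0 : tilde N 0 η = η := by
      ext i
      rw [tilde_apply]
      by_cases hi : i < N
      · simp [hi]
      · have h1 : ¬ i < N - 0 := by omega
        rw [if_neg h1, if_neg hi, hη i (by omega)]
    exact ⟨1, one_ne_zero, by rw [h0]; simp⟩
  | succ k ih =>
    obtain ⟨c, hc, hF⟩ := ih (by omega)
    obtain ⟨h1, h2, -⟩ := tilde_star N k (by omega) η hη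
    have hz : ∀ j, N - 1 < j → tilde N (k + 1) η j = 0 := by
      intro j hj
      rw [tilde_apply]
      have h3 : ¬ j < N - (k + 1) := by omega
      have h4 : ¬ j < N := by omega
      rw [if_neg h3, if_neg h4]
    have hstep := Fp_step (K := K) N (N - 1) (tilde N (k + 1) η) h2 hz
    rw [h1, Psi_apply] at hstep
    have hI : Ioo (N - 1) N = ∅ := by
      ext j
      simp only [mem_Ioo, notMem_empty, iff_false, not_and, not_lt]
      omega
    rw [hI, sum_empty, add_zero] at hstep
    have hne : (kap (N - 1) (tilde N (k + 1) η) + ((N - 1 : ℕ) : K) + 1 : K) ≠ 0 := by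
      intro h0
      apply h2
      have h5 := Par.indep (K := K) ((tilde N (k + 1) η (N - 1) : ℕ) : ℤ)
        (-(((range (N - 1)).filter (fun j => tilde N (k + 1) η (N - 1) ≤
          tilde N (k + 1) η j)).card : ℤ) + ((N - 1 : ℕ) : ℤ) + 1) (by
          rw [← h0, kap, al]
          push_cast
          ring)
      exact_mod_cast h5
    refine ⟨(kap (N - 1) (tilde N (k + 1) η) + ((N - 1 : ℕ) : K) + 1) * c, mul_ne_zero hne hc, ?_⟩
    rw [hstep, hF, map_smul, smul_smul, pow_succ', Module.End.mul_apply]

end JSup
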