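import Pool.Agent.Helper204.JS.Defs
import Pool.Agent.Helper204.JS.Defs1

set_option linter.unusedSectionVars false

open MvPolynomial Finset

noncomputable section

namespace JSup
variable {K : Type} [Field K] [CharZero K] [Par K]



theorem cyc_pow (l m : ℕ) (hm : m ≤ l + 1) (k : ℕ) :
    ((cyc l) ^ m) k = if k < m then l + 1 - m + k else if k ≤ l then k - m else k := by
  induction m with
  | zero => simp
  | succ m ih =>
    rw [pow_succ', Equiv.Perm.mul_apply, ih (by omega), cyc_apply]
    split_ifs <;> omega

end JSup
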