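import Pool.Agent.Helper204.JS.Defs
import Pool.Agent.Helper204.JS.Defs1
import Pool.Agent.Helper204.JS.P_cyc_pow

set_option linter.unusedSectionVars false

open MvPolynomial Finset

noncomputable section

namespace JSup
variable {K : Type} [Field K] [CharZero K] [Par K]



/-- HINT: induction on `m`; `ee l f = X l * rename (cyc l) f`, `cyc l` maps `i ↦ i-1` for `1 ≤ i ≤ l`. -/
theorem ee_iter (l m : ℕ) (hm : m ≤ l + 1) (f : MvPolynomial ℕ K) :
    ((ee l : Module.End K (MvPolynomial ℕ K)) ^ m) f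
      = (∏ i ∈ Ico (l + 1 - m) (l + 1), X i) * rename ((cyc l) ^ m : Equiv.Perm ℕ) f := by
  induction m with
  | zero =>
    rw [pow_zero, pow_zero, Nat.sub_zero, Ico_self, prod_empty, one_mul]
    show f = rename (id : ℕ → ℕ) f
    rw [rename_id_apply]
  | succ m ih =>
    have ih' := ih (by omega)
    have h1 : ((ee l : Module.End K (MvPolynomial ℕ K)) ^ (m + 1)) f =
        ee l (((ee l : Module.End K (MvPolynomial ℕ K)) ^ m) f) := by
      rw [pow_succ']
      rfl
    rw [h1, ih', ee_apply, map_mul, map_prod, rename_rename]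
    have h2 : ((cyc l : Equiv.Perm ℕ) : ℕ → ℕ) ∘ ((cyc l ^ m : Equiv.Perm ℕ) : ℕ → ℕ) =
        ((cyc l ^ (m + 1) : Equiv.Perm ℕ) : ℕ → ℕ) := by
      rw [pow_succ', Equiv.Perm.coe_mul]
    rw [h2]
    have h3 : ∏ i ∈ Ico (l + 1 - m) (l + 1), (rename (cyc l)) (X i : MvPolynomial ℕ K) =
        ∏ i ∈ Ico (l - m) l, (X i : MvPolynomial ℕ K) := by
      have h4 : ∀ i ∈ Ico (l - m + 1) (l + 1), (rename (cyc l)) (X i : MvPolynomial ℕ K) =
          X (i - 1) := by
        intro i hi
        rw [mem_Ico] at hi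
        rw [rename_X, cyc_apply, if_neg (by omega), if_pos (by omega)]
      rw [show l + 1 - m = l - m + 1 by omega, prod_congr rfl h4,
        ← Finset.prod_Ico_add' (fun i => (X (i - 1) : MvPolynomial ℕ K)) (l - m) l 1]
      rfl
    rw [h3, show l + 1 - (m + 1) = l - m by omega, Finset.prod_Ico_succ_top (by omega)]
    ring

end JSup
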