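import Pool.Agent.Helper204.JS.Defs
import Pool.Agent.Helper204.JS.Defs1
import Pool.Agent.Helper204.JS.P_cyc_pow
import Pool.Agent.Helper204.JS.P_ee_iter
import Pool.Agent.Helper204.JS.P_Fp_tilde

set_option linter.unusedSectionVars false

open MvPolynomial Finset

noncomputable section

namespace JSup
variable {K : Type} [Field K] [CharZero K] [Par K]



/-- HINT: `Fp_tilde`, `ee_iter` (`l = N-1`): `(ee (N-1))^k f = (∏_{i ∈ [N-k,N)} x_i) · rename ((cyc (N-1))^k) f`; apply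
`rename ρ` with `ρ = ((cyc (N-1))^k)⁻¹`, which maps `i ↦ i + k` for `i < N-k`, `N-k+i ↦ i` for `i<k` (`cyc_pow`). -/
theorem prodX_Fp (N k : ℕ) (hk : k ≤ N) (η : ℕ →₀ ℕ) (hη : ∀ i, N ≤ i → η i = 0) :
    ∃ (c : K) (ρ : Equiv.Perm ℕ), (∀ i, i < N - k → ρ i = i + k) ∧ (∀ i, i < k → ρ (N - k + i) = i) ∧
      (∀ i, N ≤ i → ρ i = i) ∧
      (∏ i ∈ range k, X i) * (Fp N η : MvPolynomial ℕ K) = c • rename ρ (Fp N (tilde N k η)) := by
  obtain ⟨c, hc, hF⟩ := Fp_tilde (K := K) N k hk η hη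
  rcases Nat.eq_zero_or_pos k with hk0 | hk0
  · subst hk0
    refine ⟨c⁻¹, 1, ?_, ?_, ?_, ?_⟩
    · intro i _; rfl
    · intro i hi; omega
    · intro i _; rfl
    · rw [hF, pow_zero]
      show _ = c⁻¹ • rename (id : ℕ → ℕ) (c • Fp N η)
      rw [rename_id_apply, smul_smul, inv_mul_cancel₀ hc, one_smul, range_zero, prod_empty, one_mul]
  · have hN : N - 1 + 1 = N := by omega
    have hkl : k ≤ N - 1 + 1 := by omega
    have hσ := cyc_pow (N - 1) k hkl
    rw [hN] at hσ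
    set σ : Equiv.Perm ℕ := (cyc (N - 1)) ^ k with hσd
    have h1 : ∀ i, i < N - k → σ⁻¹ i = i + k := by
      intro i hi
      rw [Equiv.Perm.inv_eq_iff_eq, hσ, if_neg (by omega), if_pos (by omega)]
      omega
    have h2 : ∀ i, i < k → σ⁻¹ (N - k + i) = i := by
      intro i hi
      rw [Equiv.Perm.inv_eq_iff_eq, hσ, if_pos hi]
    have h3 : ∀ i, N ≤ i → σ⁻¹ i = i := by
      intro i hi
      rw [Equiv.Perm.inv_eq_iff_eq, hσ, if_neg (by omega), if_neg (by omega)]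
    refine ⟨c⁻¹, σ⁻¹, h1, h2, h3, ?_⟩
    have hE := ee_iter (N - 1) k hkl (Fp N η : MvPolynomial ℕ K)
    rw [hN] at hE
    have hid : rename (⇑(σ⁻¹)) (rename (⇑σ) (Fp N η : MvPolynomial ℕ K)) = Fp N η := by
      rw [rename_rename]
      have : (⇑(σ⁻¹) ∘ ⇑σ : ℕ → ℕ) = id := by
        funext x
        simp
      rw [this, rename_id_apply]
    have hprod : rename (⇑(σ⁻¹)) (∏ i ∈ Ico (N - k) N, (X i : MvPolynomial ℕ K))
        = ∏ i ∈ range k, X i := by
      rw [map_prod, Finset.prod_Ico_eq_prod_range]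
      have h5 : N - (N - k) = k := by omega
      rw [h5]
      refine Finset.prod_congr rfl (fun i hi => ?_)
      rw [rename_X, h2 i (Finset.mem_range.1 hi)]
    rw [hF, map_smul, smul_smul, inv_mul_cancel₀ hc, one_smul, hE, map_mul, hprod, hid]

end JSup
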