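import Pool.Agent.Helper204.JS.Defs
import Pool.Agent.Helper204.JS.Defs1
import Pool.Agent.Helper204.JS.P_antis_conj
import Pool.Agent.Helper204.JS.P_antis_mul
import Pool.Agent.Helper204.JS.P_prodX_Fp

set_option linter.unusedSectionVars false

open MvPolynomial Finset

noncomputable section

namespace JSup
variable {K : Type} [Field K] [CharZero K] [Par K]



/-- HINT: `(∏_{i<k} x_{m+i}) = rename (rot k m) (∏_{i<k} x_i)`, so the argument of `symChain` is
`rename (rot k m) (c_B⁻¹ • ((∏_{i<k} x_i) * antis k m F_η))`, `= rename rot (c_B⁻¹ • antis k m ((∏ x_i) * F_η))` (`antis_mul`),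
`(∏ x_i) F_η = c • rename ρ F_{η̃}` (`prodX_Fp`), `antis k m (rename ρ g) = rename ρ (antis 0 m g)` (`antis_conj`,
`ρ (0+i) = k+i` for `i < m ≤ N-k`). Take `π = rot k m * ρ`. -/
theorem J_eq (N k m : ℕ) (hN : k + m ≤ N) (η : ℕ →₀ ℕ) (hη : ∀ i, N ≤ i → η i = 0) :
    ∃ (c : K) (π : Equiv.Perm ℕ), (∀ i, i < m → π i = i) ∧ (∀ i, N ≤ i → π i = i) ∧
      (Jraw N k m η : MvPolynomial ℕ K)
        = c • symChain N m k (rename π (antis 0 m (Fp N (tilde N k η)))) := by
  obtain ⟨c, ρ, hρ1, hρ2, hρ3, hρ⟩ := prodX_Fp (K := K) N k (by omega) η hη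
  refine ⟨(cB N η k m : K)⁻¹ * c, rot k m * ρ, ?_, ?_, ?_⟩
  · intro i hi
    rw [Equiv.Perm.mul_apply, hρ1 i (by omega), rot_apply, if_neg (by omega), if_pos (by omega)]
    omega
  · intro i hi
    rw [Equiv.Perm.mul_apply, hρ3 i hi, rot_apply, if_neg (by omega), if_neg (by omega)]
  · have h1 : (∏ i ∈ range k, X (m + i) : MvPolynomial ℕ K)
        = rename (rot k m) (∏ i ∈ range k, X i) := by
      rw [map_prod]
      apply Finset.prod_congr rfl
      intro i hi
      rw [rename_X, rot_apply, if_pos (Finset.mem_range.1 hi)]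
    have h2 : antis k m ((∏ i ∈ range k, X i) * (Fp N η : MvPolynomial ℕ K))
        = (∏ i ∈ range k, X i) * antis k m (Fp N η) := by
      apply antis_mul
      intro w
      rw [map_prod]
      apply Finset.prod_congr rfl
      intro i hi
      rw [rename_X, emb_out k m w i (Or.inl (Finset.mem_range.1 hi))]
    have h3 : rename ρ (antis 0 m (Fp N (tilde N k η) : MvPolynomial ℕ K))
        = antis k m (rename ρ (Fp N (tilde N k η))) := by
      apply antis_conj
      intro i hi
      rw [Nat.zero_add, hρ1 i (by omega), Nat.add_comm]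
    unfold Jraw
    rw [h1, ← map_mul, mul_smul_comm, ← h2, hρ]
    simp only [map_smul]
    rw [← h3, smul_smul, rename_rename]
    rfl

end JSup
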