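import Pool.Agent.Helper204.JS.Defs

set_option linter.unusedSectionVars false

open MvPolynomial Finset

noncomputable section

namespace JSup
variable {K : Type} [Field K] [CharZero K] [Par K]


/-- HINT: for `i ≠ j`; with `D = x_j ∂_{ij} f`, `(x_i - x_j) D = x_j (f - s f)`; apply `δ_i - δ_j` (derivation) to this
identity: `(x_i + x_j) D + (x_i - x_j)(δ_i-δ_j) D = -x_j (f - sf) + x_j ((δ_i-δ_j) f - (δ_i-δ_j)(s f))` and
`(δ_i - δ_j)(s f) = - s((δ_i - δ_j) f)`. -/
theorem TT_spec {i j : ℕ} (h : i ≠ j) (f : MvPolynomial ℕ K) :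
    (X i - X j) ^ 2 * TT i j f = (X i ^ 2 - X j ^ 2) * (del i f - del j f)
      - 2 * X i * X j * (f - rename (Equiv.swap i j) f) := by
  have hinj : Function.Injective (Equiv.swap i j) := (Equiv.swap i j).injective
  have hi : pderiv i (rename (Equiv.swap i j) f) = rename (Equiv.swap i j) (pderiv j f) := by
    have := pderiv_rename hinj j f
    rwa [Equiv.swap_apply_right] at this
  have hj : pderiv j (rename (Equiv.swap i j) f) = rename (Equiv.swap i j) (pderiv i f) := by
    have := pderiv_rename hinj i f
    rwa [Equiv.swap_apply_left] at this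
  have hD := dd_spec i j f
  have hDi : pderiv i ((X i - X j) * dd i j f) = pderiv i (f - rename (Equiv.swap i j) f) := by rw [hD]
  have hDj : pderiv j ((X i - X j) * dd i j f) = pderiv j (f - rename (Equiv.swap i j) f) := by rw [hD]
  have hE := dd_spec i j (X i * pderiv i f - X j * pderiv j f)
  have hs : rename (Equiv.swap i j) (X i * pderiv i f - X j * pderiv j f)
      = X j * rename (Equiv.swap i j) (pderiv i f) - X i * rename (Equiv.swap i j) (pderiv j f) := by
    rw [map_sub, map_mul, map_mul, rename_X, rename_X, Equiv.swap_apply_left, Equiv.swap_apply_right]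
  rw [hs] at hE
  rw [map_sub, hi] at hDi
  rw [map_sub, hj] at hDj
  have p1 : pderiv i ((X i - X j) * dd i j f) = dd i j f + (X i - X j) * pderiv i (dd i j f) := by
    rw [pderiv_mul, map_sub, pderiv_X_self, pderiv_X_of_ne (Ne.symm h)]; ring
  have p2 : pderiv j ((X i - X j) * dd i j f) = - dd i j f + (X i - X j) * pderiv j (dd i j f) := by
    rw [pderiv_mul, map_sub, pderiv_X_self, pderiv_X_of_ne h]; ring
  rw [p1] at hDi
  rw [p2] at hDj
  have hT : TT i j f = (X i * pderiv i (X j * dd i j f) - X j * pderiv j (X j * dd i j f))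
      + X j * dd i j (X i * pderiv i f - X j * pderiv j f) + (X i * pderiv i f - X j * pderiv j f) := by
    simp [TT]
  have p3 : pderiv i (X j * dd i j f) = X j * pderiv i (dd i j f) := by
    rw [pderiv_mul, pderiv_X_of_ne (Ne.symm h)]; ring
  have p4 : pderiv j (X j * dd i j f) = dd i j f + X j * pderiv j (dd i j f) := by
    rw [pderiv_mul, pderiv_X_self]; ring
  rw [hT, p3, p4, del_apply, del_apply]
  generalize dd i j (X i * pderiv i f - X j * pderiv j f) = E at *
  generalize rename (Equiv.swap i j) (pderiv i f) = A at *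
  generalize rename (Equiv.swap i j) (pderiv j f) = B at *
  generalize rename (Equiv.swap i j) f = sf at *
  generalize pderiv i (dd i j f) = P at *
  generalize pderiv j (dd i j f) = Q at *
  generalize dd i j f = D at *
  generalize pderiv i f = u at *
  generalize pderiv j f = v at *
  generalize (X i : MvPolynomial ℕ K) = x at *
  generalize (X j : MvPolynomial ℕ K) = y at *
  linear_combination (x - y) * x * y * hDi - (x - y) * y * y * hDj + (x - y) * y * hE - y * (x+y) * hD - (x-y)*y*hD
end JSup
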