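import Pool.Agent.Helper204.JS.Defs
import Pool.Agent.Helper204.JS.P_dd_rename
import Pool.Agent.Helper204.JS.P_del_rename
import Pool.Agent.Helper204.JS.P_TT_spec

set_option linter.unusedSectionVars false

open MvPolynomial Finset

noncomputable section

namespace JSup
variable {K : Type} [Field K] [CharZero K] [Par K]


theorem mmr_symm {i j : ℕ} (h : i ≠ j) (f : MvPolynomial ℕ K) : TT i j f = TT j i f := by
  apply mul_left_cancel₀ (pow_ne_zero 2 (X_sub_ne (R := K) h))
  rw [TT_spec h]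
  have h2 := TT_spec h.symm f
  have h3 : (X i - X j : MvPolynomial ℕ K) ^ 2 = (X j - X i) ^ 2 := by ring
  rw [h3, h2, Equiv.swap_comm]
  ring

theorem mmr_TT (σ : Equiv.Perm ℕ) (i j : ℕ) (f : MvPolynomial ℕ K) :
    rename σ (TT i j f) = TT (σ i) (σ j) (rename σ f) := by
  simp only [TT, LinearMap.add_apply, LinearMap.sub_apply, LinearMap.comp_apply, mX_apply,
    map_add, map_sub, del_rename, dd_rename, map_mul, rename_X]

theorem mmr_apply (N : ℕ) (f : MvPolynomial ℕ K) : MM N f =
    (al : K) • ∑ i ∈ range N, del i (del i f) + ∑ i ∈ range N, ∑ j ∈ Ioo i N, TT i j f := by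
  unfold MM
  rw [LinearMap.add_apply, LinearMap.smul_apply, LinearMap.sum_apply, LinearMap.sum_apply]
  congr 1
  exact Finset.sum_congr rfl fun i _ => LinearMap.sum_apply _ _ _

theorem mmr_lt {N : ℕ} {σ : Equiv.Perm ℕ} (hσ : ∀ k, N ≤ k → σ k = k) (i : ℕ) :
    i ∈ range N ↔ σ i ∈ range N := by
  simp only [mem_range]
  constructor
  · intro hi
    by_contra hc
    have h1 := hσ (σ i) (not_lt.1 hc)
    have h2 := σ.injective h1
    omega
  · intro hi
    by_contra hc
    have h1 := hσ i (not_lt.1 hc)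
    omega

theorem mmr_two {M : Type} [AddCommGroup M] (N : ℕ) (F : ℕ → ℕ → M)
    (hF : ∀ i j, i ≠ j → F i j = F j i) :
    ∑ i ∈ range N, ∑ j ∈ Ioo i N, F i j + ∑ i ∈ range N, ∑ j ∈ Ioo i N, F i j =
      ∑ i ∈ range N, ∑ j ∈ range N, (if i = j then 0 else F i j) := by
  have h1 : ∑ i ∈ range N, ∑ j ∈ Ioo i N, F i j =
      ∑ i ∈ range N, ∑ j ∈ range N, (if i < j then F i j else 0) := by
    refine Finset.sum_congr rfl fun i _ => ?_
    rw [← Finset.sum_filter]
    refine Finset.sum_congr ?_ fun _ _ => rfl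
    ext j
    simp only [mem_Ioo, mem_filter, mem_range]
    omega
  have h2 : ∑ i ∈ range N, ∑ j ∈ Ioo i N, F i j =
      ∑ i ∈ range N, ∑ j ∈ range N, (if j < i then F i j else 0) := by
    rw [h1, Finset.sum_comm]
    refine Finset.sum_congr rfl fun i _ => Finset.sum_congr rfl fun j _ => ?_
    split_ifs with h
    · exact hF j i (ne_of_lt h)
    · rfl
  conv_lhs =>
    congr
    · rw [h1]
    · rw [h2]
  rw [← Finset.sum_add_distrib]
  refine Finset.sum_congr rfl fun i _ => ?_
  rw [← Finset.sum_add_distrib]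
  refine Finset.sum_congr rfl fun j _ => ?_
  rcases lt_trichotomy i j with h | h | h
  · rw [if_pos h, if_neg (by omega), if_neg (by omega), add_zero]
  · rw [if_neg (by omega), if_neg (by omega), if_pos h, add_zero]
  · rw [if_neg (by omega), if_pos h, if_neg (by omega), zero_add]

theorem mmr_perm {N : ℕ} {σ : Equiv.Perm ℕ} (hσ : ∀ k, N ≤ k → σ k = k)
    (F : ℕ → ℕ → MvPolynomial ℕ K) (hF : ∀ i j, i ≠ j → F i j = F j i) :
    ∑ i ∈ range N, ∑ j ∈ Ioo i N, F (σ i) (σ j) = ∑ i ∈ range N, ∑ j ∈ Ioo i N, F i j := by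
  have e1 := mmr_two N (fun i j => F (σ i) (σ j))
    (fun i j h => hF _ _ (fun h' => h (σ.injective h')))
  have e2 := mmr_two N F hF
  have e3 : ∑ i ∈ range N, ∑ j ∈ range N, (if i = j then 0 else F (σ i) (σ j)) =
      ∑ i ∈ range N, ∑ j ∈ range N, (if i = j then 0 else F i j) := by
    refine Finset.sum_equiv σ (mmr_lt hσ) fun i _ => ?_
    refine Finset.sum_equiv σ (mmr_lt hσ) fun j _ => ?_
    by_cases h : i = j
    · rw [if_pos h, if_pos (by rw [h])]
    · rw [if_neg h, if_neg (fun h' => h (σ.injective h'))]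
  rw [e3, ← e2, ← two_smul K, ← two_smul K] at e1
  have h2 : (2 : K) ≠ 0 := two_ne_zero
  have := congrArg (fun x => (2 : K)⁻¹ • x) e1
  simpa [smul_smul, h2] using this

/-- HINT: `rename σ (TT i j f) = TT (σ i) (σ j) (rename σ f)`, `TT i j = TT j i` (from `TT_spec`, cancel the
square), so the sum over unordered pairs is permuted; same for `Σ δ_i²`. -/
theorem MM_rename (N : ℕ) (σ : Equiv.Perm ℕ) (hσ : ∀ k, N ≤ k → σ k = k) (f : MvPolynomial ℕ K) :
    MM N (rename σ f) = rename σ (MM N f) := by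
  rw [mmr_apply, mmr_apply, map_add, map_smul, map_sum, map_sum]
  have h1 : ∑ i ∈ range N, rename σ (del i (del i f)) =
      ∑ i ∈ range N, del i (del i (rename σ f)) := by
    have h2 : ∀ i ∈ range N, rename σ (del i (del i f)) =
        del (σ i) (del (σ i) (rename σ f)) := fun i _ => by rw [del_rename, del_rename]
    rw [Finset.sum_congr rfl h2]
    exact Finset.sum_equiv σ (mmr_lt hσ) fun i _ => rfl
  have h3 : ∑ i ∈ range N, rename σ (∑ j ∈ Ioo i N, TT i j f) =
      ∑ i ∈ range N, ∑ j ∈ Ioo i N, TT i j (rename σ f) := by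
    have h4 : ∀ i ∈ range N, rename σ (∑ j ∈ Ioo i N, TT i j f) =
        ∑ j ∈ Ioo i N, TT (σ i) (σ j) (rename σ f) := fun i _ => by
      rw [map_sum]
      exact Finset.sum_congr rfl fun j _ => mmr_TT σ i j f
    rw [Finset.sum_congr rfl h4]
    exact mmr_perm hσ (fun i j => TT i j (rename σ f)) (fun i j h => mmr_symm h _)
  rw [h1, h3]

end JSup
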