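import Pool.Agent.Helper204.JS.Defs
import Pool.Agent.Helper204.JS.Defs1
import Pool.Agent.Helper204.JS.P_MM_rename
import Pool.Agent.Helper204.JS.P_II_rename

set_option linter.unusedSectionVars false

open MvPolynomial Finset

noncomputable section

namespace JSup
variable {K : Type} [Field K] [CharZero K] [Par K]



/-- HINT: `antis_apply`, linearity, `MM_rename`, `II_rename`. -/
theorem MI_antis (N m : ℕ) (hm : m ≤ N) (f : MvPolynomial ℕ K) :
    MM N (antis 0 m f) = antis 0 m (MM N f) ∧ II N m (antis 0 m f) = antis 0 m (II N m f) := by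
  have hout : ∀ (w : Equiv.Perm (Fin m)) (k : ℕ), N ≤ k → emb 0 m w k = k := fun w k hk =>
    emb_out 0 m w k (Or.inr (by omega))
  have hin : ∀ (w : Equiv.Perm (Fin m)) (i : ℕ), i < m → emb 0 m w i < m := by
    intro w i hi
    have h1 := emb_in 0 m w ⟨i, hi⟩
    simp only [zero_add] at h1
    rw [h1]
    exact (w ⟨i, hi⟩).2
  constructor
  · rw [antis_apply, antis_apply, map_sum]
    refine Finset.sum_congr rfl fun w _ => ?_
    rw [map_smul, MM_rename N _ (hout w)]
  · rw [antis_apply, antis_apply, map_sum]
    refine Finset.sum_congr rfl fun w _ => ?_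
    rw [map_smul, II_rename N m hm _ (hin w) (hout w)]

end JSup
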