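import Pool.Agent.Helper204.JS.Defs
import Pool.Agent.Helper204.JS.Defs1
import Pool.Agent.Helper204.JS.P_MM_rename
import Pool.Agent.Helper204.JS.P_II_rename

set_option linter.unusedSectionVars false

open MvPolynomial Finset

noncomputable section

namespace JSup
variable {K : Type} [Field K] [CharZero K] [Par K]



/-- HINT: induction on `k`, `symStep_apply`, `MM_rename`, `II_rename` for `swap p j`, `m ≤ p ≤ j < N`. -/
theorem MI_symChain (N m p k : ℕ) (hm : m ≤ p) (hpN : p + k ≤ N) (f : MvPolynomial ℕ K) :
    MM N (symChain N p k f) = symChain N p k (MM N f) ∧ II N m (symChain N p k f) = symChain N p k (II N m f) := by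
  induction k generalizing p with
  | zero => exact ⟨rfl, rfl⟩
  | succ k ih =>
    obtain ⟨ih1, ih2⟩ := ih (p + 1) (by omega) (by omega)
    have hs : ∀ g : MvPolynomial ℕ K, symChain N p (k + 1) g = symStep N p (symChain N (p + 1) k g) :=
      fun g => rfl
    have hA : ∀ g : MvPolynomial ℕ K, MM N (symStep N p g) = symStep N p (MM N g) := by
      intro g
      rw [symStep_apply, symStep_apply, map_sum]
      refine Finset.sum_congr rfl fun j hj => ?_
      rw [Finset.mem_Ico] at hj
      exact MM_rename N (Equiv.swap p j) (fun q hq =>
        Equiv.swap_apply_of_ne_of_ne (by omega) (by omega)) g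
    have hB : ∀ g : MvPolynomial ℕ K, II N m (symStep N p g) = symStep N p (II N m g) := by
      intro g
      rw [symStep_apply, symStep_apply, map_sum]
      refine Finset.sum_congr rfl fun j hj => ?_
      rw [Finset.mem_Ico] at hj
      refine II_rename N m (by omega) (Equiv.swap p j) (fun i hi => ?_) (fun q hq =>
        Equiv.swap_apply_of_ne_of_ne (by omega) (by omega)) g
      rw [Equiv.swap_apply_of_ne_of_ne (by omega) (by omega)]
      exact hi
    constructor
    · rw [hs, hs, hA, ih1]
    · rw [hs, hs, hB, ih2]

end JSup
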