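import Pool.Agent.Helper204.JS.Defs

set_option linter.unusedSectionVars false

open MvPolynomial Finset

noncomputable section

namespace JSup
variable {K : Type} [Field K] [CharZero K] [Par K]


/-- HINT: cancel `(X i - X j)` (`dd_unique`) using `dd_spec`. -/
theorem dd_X_mul {i j : ℕ} (h : i ≠ j) (g : MvPolynomial ℕ K) :
    (∀ k, k ≠ i → k ≠ j → dd i j (X k * g) = X k * dd i j g) ∧
    dd i j (X j * g) = X i * dd i j g - g ∧
    dd i j (X i * g) = X j * dd i j g + g ∧
    dd i j (X i * g) = g + X j * dd i j g ∧
    dd j i g = - dd i j g := by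
  have hsp := dd_spec i j g
  have e3 : dd i j (X i * g) = X j * dd i j g + g := by
    apply dd_unique h
    rw [map_mul, rename_X, Equiv.swap_apply_left]
    linear_combination (X j) * hsp
  refine ⟨?_, ?_, e3, ?_, ?_⟩
  · intro k hi hj
    apply dd_unique h
    rw [map_mul, rename_X, Equiv.swap_apply_of_ne_of_ne hi hj]
    linear_combination (X k) * hsp
  · apply dd_unique h
    rw [map_mul, rename_X, Equiv.swap_apply_right]
    linear_combination (X i) * hsp
  · rw [e3, add_comm]
  · apply dd_unique (Ne.symm h)
    rw [Equiv.swap_comm j i]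
    linear_combination hsp

end JSup
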