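import Pool.Agent.Helper204.JS.Defs
import Pool.Agent.Helper204.JS.P_dd_X_mul
import Pool.Agent.Helper204.JS.P_TT_spec

set_option linter.unusedSectionVars false

open MvPolynomial Finset

noncomputable section

namespace JSup
variable {K : Type} [Field K] [CharZero K] [Par K]


theorem del_X0_zero (f : MvPolynomial ℕ K) : del 0 (X 0 * f) = X 0 * (del 0 f + f) := by
  rw [del_apply, del_apply, (pderiv 0).leibniz, pderiv_X_self]
  simp only [smul_eq_mul]
  ring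

theorem del_X0_ne (i : ℕ) (hi : i ≠ 0) (f : MvPolynomial ℕ K) : del i (X 0 * f) = X 0 * del i f := by
  rw [del_apply, del_apply, (pderiv i).leibniz, pderiv_X_of_ne hi.symm]
  simp only [smul_eq_mul]
  ring

theorem X_sub_sq_ne {i j : ℕ} (h : i ≠ j) : ((X i - X j : MvPolynomial ℕ K)) ^ 2 ≠ 0 :=
  pow_ne_zero 2 (X_sub_ne h)

theorem TT_X0_zero (j : ℕ) (hj : 0 ≠ j) (f : MvPolynomial ℕ K) :
    TT 0 j (X 0 * f) = X 0 * (TT 0 j f + f + 2 * (X j * dd 0 j f)) := by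
  apply mul_left_cancel₀ (X_sub_sq_ne (K := K) hj)
  have e1 := TT_spec hj (X 0 * f)
  have e2 := TT_spec hj f
  have e3 := dd_spec 0 j f
  have e4 : rename (Equiv.swap 0 j) (X 0 * f) = X j * rename (Equiv.swap 0 j) f := by
    rw [map_mul, rename_X, Equiv.swap_apply_left]
  rw [e4, del_X0_zero, del_X0_ne j hj.symm] at e1
  rw [e1]
  have e5 : (X 0 - X j : MvPolynomial ℕ K) ^ 2 * (X 0 * (TT 0 j f + f + 2 * (X j * dd 0 j f)))
      = X 0 * ((X 0 - X j) ^ 2 * TT 0 j f) + X 0 * (X 0 - X j) ^ 2 * f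
        + 2 * X 0 * X j * (X 0 - X j) * ((X 0 - X j) * dd 0 j f) := by ring
  rw [e5, e2, e3]
  ring

theorem TT_X0_ne (i j : ℕ) (hi : i ≠ 0) (hj : j ≠ 0) (hij : i ≠ j) (f : MvPolynomial ℕ K) :
    TT i j (X 0 * f) = X 0 * TT i j f := by
  apply mul_left_cancel₀ (X_sub_sq_ne (K := K) hij)
  have e1 := TT_spec hij (X 0 * f)
  have e2 := TT_spec hij f
  have e4 : rename (Equiv.swap i j) (X 0 * f) = X 0 * rename (Equiv.swap i j) f := by
    rw [map_mul, rename_X, Equiv.swap_apply_of_ne_of_ne hi.symm hj.symm]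
  rw [e4, del_X0_ne i hi, del_X0_ne j hj] at e1
  rw [e1]
  have e5 : (X i - X j : MvPolynomial ℕ K) ^ 2 * (X 0 * TT i j f)
      = X 0 * ((X i - X j) ^ 2 * TT i j f) := by ring
  rw [e5, e2]
  ring

/-- HINT: `δ_0²(x_0 f) = x_0(δ_0² f + 2 δ_0 f + f)`; for `0 < j`: `TT 0 j (x_0 f) = x_0 (TT 0 j f + f + 2 x_j ∂_{0j} f)`
(multiply by `(x_0-x_j)²`, use `TT_spec`, `dd_spec`); for `0 < i < j`: `TT i j (x_0 f) = x_0 TT i j f`. -/
theorem MM_X0 (N : ℕ) (hN : 0 < N) (f : MvPolynomial ℕ K) :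
    MM N (X 0 * f) = X 0 * (MM N f + (2 : K) • Yop N 0 f + ((al : K) + N - 1) • f) := by
  obtain ⟨n, rfl⟩ : ∃ n, N = n + 1 := ⟨N - 1, by omega⟩
  have hM : ∀ g : MvPolynomial ℕ K, MM (n + 1) g = (al : K) • (∑ i ∈ range n, del (i + 1) (del (i + 1) g)
      + del 0 (del 0 g)) + (∑ i ∈ range n, ∑ j ∈ Ioo (i + 1) (n + 1), TT (i + 1) j g
      + ∑ j ∈ Ioo 0 (n + 1), TT 0 j g) := by
    intro g
    rw [MM, LinearMap.add_apply, LinearMap.smul_apply, LinearMap.sum_apply, LinearMap.sum_apply,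
      Finset.sum_range_succ', Finset.sum_range_succ', LinearMap.sum_apply]
    simp only [LinearMap.sum_apply, LinearMap.comp_apply]
  rw [hM (X 0 * f), hM f]
  have h1 : ∑ i ∈ range n, del (i + 1) (del (i + 1) (X 0 * f))
      = X 0 * ∑ i ∈ range n, del (i + 1) (del (i + 1) f) := by
    rw [Finset.mul_sum]
    apply Finset.sum_congr rfl
    intro i _
    rw [del_X0_ne (i + 1) (by omega), del_X0_ne (i + 1) (by omega)]
  have h2 : del 0 (del 0 (X 0 * f)) = X 0 * (del 0 (del 0 f) + 2 * del 0 f + f) := by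
    rw [del_X0_zero, del_X0_zero, map_add]
    ring
  have h3 : ∑ i ∈ range n, ∑ j ∈ Ioo (i + 1) (n + 1), TT (i + 1) j (X 0 * f)
      = X 0 * ∑ i ∈ range n, ∑ j ∈ Ioo (i + 1) (n + 1), TT (i + 1) j f := by
    rw [Finset.mul_sum]
    apply Finset.sum_congr rfl
    intro i _
    rw [Finset.mul_sum]
    apply Finset.sum_congr rfl
    intro j hj
    rw [mem_Ioo] at hj
    rw [TT_X0_ne (i + 1) j (by omega) (by omega) (by omega)]
  have h4 : ∑ j ∈ Ioo 0 (n + 1), TT 0 j (X 0 * f)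
      = X 0 * (∑ j ∈ Ioo 0 (n + 1), TT 0 j f + (n : MvPolynomial ℕ K) * f
        + 2 * ∑ j ∈ Ioo 0 (n + 1), X j * dd 0 j f) := by
    have e : ∑ j ∈ Ioo 0 (n + 1), TT 0 j (X 0 * f)
        = ∑ j ∈ Ioo 0 (n + 1), (X 0 * (TT 0 j f + f + 2 * (X j * dd 0 j f))) := by
      apply Finset.sum_congr rfl
      intro j hj
      rw [mem_Ioo] at hj
      rw [TT_X0_zero j (by omega)]
    rw [e, ← Finset.mul_sum, Finset.sum_add_distrib, Finset.sum_add_distrib, Finset.sum_const,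
      Nat.card_Ioo, ← Finset.mul_sum, nsmul_eq_mul]
    simp
  rw [h1, h2, h3, h4, Yop_apply]
  simp only [MvPolynomial.smul_eq_C_mul, Finset.range_zero, Finset.sum_empty, Nat.cast_zero, map_add, map_sub,
    map_zero, map_one, Nat.cast_add, Nat.cast_one, map_natCast, ← del_apply]
  have hC2 : (C (2 : K) : MvPolynomial ℕ K) = 2 := by
    rw [show (2 : K) = 1 + 1 by norm_num, map_add, map_one]; norm_num
  rw [hC2]
  ring

end JSup
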