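import Pool.Agent.Helper204.JS.Defs
import Pool.Agent.Helper204.JS.P_MM_rename
import Pool.Agent.Helper204.JS.P_MM_X0

set_option linter.unusedSectionVars false

open MvPolynomial Finset

noncomputable section

namespace JSup
variable {K : Type} [Field K] [CharZero K] [Par K]


/-- HINT: `ee j f = rename (cyc j) (X 0 * f)`, `MM_rename`, `MM_X0`. -/
theorem MM_ee (N j : ℕ) (hj : j < N) (f : MvPolynomial ℕ K) :
    MM N (ee j f) = ee j (MM N f + (2 : K) • Yop N 0 f + ((al : K) + N - 1) • f) := by
  have h : ∀ g : MvPolynomial ℕ K, ee j g = rename (cyc j) (X 0 * g) := by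
    intro g
    rw [ee_apply, map_mul, rename_X, cyc_apply, if_pos rfl]
  rw [h, h, MM_rename N (cyc j) _ , MM_X0 N (by omega)]
  intro k hk
  have h1 : k ≠ 0 := by omega
  have h2 : ¬ k ≤ j := by omega
  rw [cyc_apply, if_neg h1, if_neg h2]

end JSup
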