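import Pool.Agent.Helper204.JS.Defs

set_option linter.unusedSectionVars false

open MvPolynomial Finset

noncomputable section

namespace JSup
variable {K : Type} [Field K] [CharZero K] [Par K]


/-- HINT: `cyc j` fixes all `k > j`, so it commutes with `swap i (i+1)` for `i > j`. -/
theorem swap_ee_gt (i j : ℕ) (h : j < i) (f : MvPolynomial ℕ K) :
    rename (Equiv.swap i (i + 1)) (ee j f) = ee j (rename (Equiv.swap i (i + 1)) f) := by
  have hj : Equiv.swap i (i + 1) j = j :=
    Equiv.swap_apply_of_ne_of_ne (by omega) (by omega)
  have hcomp : (⇑(Equiv.swap i (i + 1)) ∘ ⇑(cyc j)) = (⇑(cyc j) ∘ ⇑(Equiv.swap i (i + 1))) := by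
    funext k
    simp only [Function.comp_apply]
    rcases lt_or_ge j k with hk | hk
    · have h1 : cyc j k = k := by
        rw [cyc_apply, if_neg (by omega), if_neg (by omega)]
      have h2 : j < Equiv.swap i (i + 1) k := by
        rw [Equiv.swap_apply_def]
        split_ifs <;> omega
      have h3 : cyc j (Equiv.swap i (i + 1) k) = Equiv.swap i (i + 1) k := by
        rw [cyc_apply, if_neg (by omega), if_neg (by omega)]
      rw [h1, h3]
    · have h1 : Equiv.swap i (i + 1) k = k :=
        Equiv.swap_apply_of_ne_of_ne (by omega) (by omega)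
      have h2 : cyc j k ≤ j := by
        rw [cyc_apply]
        split_ifs <;> omega
      rw [h1]
      exact Equiv.swap_apply_of_ne_of_ne (by omega) (by omega)
  rw [ee_apply, ee_apply, map_mul, rename_X, hj, rename_rename, rename_rename, hcomp]

end JSup
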