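import Pool.Agent.Helper204.JS.Defs

set_option linter.unusedSectionVars false

open MvPolynomial Finset

noncomputable section

namespace JSup
variable {K : Type} [Field K] [CharZero K] [Par K]


/-- HINT: `swap i (i+1) * cyc j = cyc j * swap (i+1) (i+2)` for `i + 1 < j`, and `x_j` is fixed by `swap i (i+1)`. -/
theorem swap_ee_lt (i j : ℕ) (h : i + 1 < j) (f : MvPolynomial ℕ K) :
    rename (Equiv.swap i (i + 1)) (ee j f) = ee j (rename (Equiv.swap (i + 1) (i + 2)) f) := by
  rw [ee_apply, ee_apply, map_mul, rename_X, rename_rename, rename_rename,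
    Equiv.swap_apply_of_ne_of_ne (by omega) (by omega)]
  congr 2
  apply congrArg
  funext k
  simp only [Function.comp_apply, cyc_apply, Equiv.swap_apply_def]
  by_cases h0 : k = 0
  · subst h0; split_ifs <;> omega
  by_cases h1 : k = i + 1
  · subst h1; split_ifs <;> omega
  by_cases h2 : k = i + 2
  · subst h2; split_ifs <;> omega
  by_cases h3 : k ≤ j
  · simp only [h0, h1, h2, h3, if_true, if_false]
    split_ifs <;> omega
  · simp only [h0, h1, h2, h3, if_true, if_false]
    split_ifs <;> omega

end JSup
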