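import Pool.Agent.Helper204.JS.Defs

set_option linter.unusedSectionVars false

open MvPolynomial Finset

namespace JSup
variable {K : Type} [Field K] [CharZero K] [Par K]


theorem cyc_succ (k : ℕ) : cyc (k + 1) = Equiv.swap k (k + 1) * cyc k := by
  apply Equiv.ext
  intro m
  rw [Equiv.Perm.mul_apply, cyc_apply, cyc_apply, Equiv.swap_apply_def]
  split_ifs <;> omega

end JSup
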