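import Pool.Agent.Helper204.JS.Defs
import Pool.Agent.Helper204.JS.P_cyc_succ

set_option linter.unusedSectionVars false

open MvPolynomial Finset

noncomputable section

namespace JSup
variable {K : Type} [Field K] [CharZero K] [Par K]


/-- HINT: `ee k f = X k * rename (cyc k) f` and `cyc (k+1) = swap k (k+1) * cyc k`. -/
theorem swap_ee_succ (k : ℕ) (f : MvPolynomial ℕ K) :
    rename (Equiv.swap k (k + 1)) (ee k f) = ee (k + 1) f := by
  rw [ee_apply, ee_apply, map_mul, rename_X, Equiv.swap_apply_left, rename_rename, cyc_succ]
  rfl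

end JSup
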