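import Pool.Agent.Helper204.JS.Defs

set_option linter.unusedSectionVars false

open MvPolynomial Finset

noncomputable section

namespace JSup
variable {K : Type} [Field K] [CharZero K] [Par K]


theorem emb_swap_adj_aux (a n : ℕ) (i : Fin n) :
    emb a (n+1) (Equiv.swap i.castSucc i.succ) = Equiv.swap (a + (i : ℕ)) (a + (i : ℕ) + 1) := by
  have hi := i.2
  ext k
  by_cases hk : a ≤ k ∧ k < a + (n + 1)
  · obtain ⟨j, rfl⟩ : ∃ j : Fin (n+1), k = a + (j : ℕ) := ⟨⟨k - a, by omega⟩, by simp only; omega⟩
    rw [emb_in, Equiv.swap_apply_def, Equiv.swap_apply_def]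
    have e1 : (j = i.castSucc) ↔ (a + (j:ℕ) = a + (i : ℕ)) := by
      rw [Fin.ext_iff, Fin.val_castSucc]; omega
    have e2 : (j = i.succ) ↔ (a + (j:ℕ) = a + (i : ℕ) + 1) := by
      rw [Fin.ext_iff, Fin.val_succ]; omega
    simp only [e1, e2]
    split_ifs with h1 h2
    · rw [Fin.val_succ]; omega
    · rw [Fin.val_castSucc]
    · rfl
  · rw [emb_out a (n+1) _ k (by omega), Equiv.swap_apply_of_ne_of_ne (by omega) (by omega)]

/-- HINT: the set of `τ : Perm (Fin (b-a))` with `rename (emb a (b-a) τ) f = f` is a submonoid containing the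
adjacent transpositions, hence everything (`Equiv.Perm.mclosure_swap_castSucc_succ`); every `σ` fixing all points
outside `[a,b)` is of the form `emb a (b-a) τ`. For `b ≤ a` such `σ` is the identity. -/
theorem symOn_of_adj (a b : ℕ) (f : MvPolynomial ℕ K)
    (h : ∀ i, a ≤ i → i + 1 < b → rename (Equiv.swap i (i + 1)) f = f) : SymOn a b f := by
  intro σ hσ
  by_cases hab : b ≤ a
  · have h1 : σ = 1 := by
      ext k
      simpa using hσ k (by omega)
    subst h1
    rw [Equiv.Perm.coe_one, rename_id]
    rfl
  · obtain ⟨n, rfl⟩ : ∃ n, b = a + (n + 1) := ⟨b - a - 1, by omega⟩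
    let S : Submonoid (Equiv.Perm (Fin (n+1))) :=
      { carrier := {τ | rename (emb a (n+1) τ) f = f}
        one_mem' := by
          show rename (emb a (n+1) 1) f = f
          rw [map_one, Equiv.Perm.coe_one, rename_id]
          rfl
        mul_mem' := by
          intro τ ρ h1 h2
          have h1' : rename (emb a (n+1) τ) f = f := h1
          have h2' : rename (emb a (n+1) ρ) f = f := h2
          show rename (emb a (n+1) (τ * ρ)) f = f
          rw [map_mul, Equiv.Perm.coe_mul, ← rename_rename, h2', h1'] }
    have hS : S = ⊤ := by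
      rw [eq_top_iff, ← Equiv.Perm.mclosure_swap_castSucc_succ n, Submonoid.closure_le]
      rintro _ ⟨i, rfl⟩
      have hi := i.2
      show rename (emb a (n+1) (Equiv.swap i.castSucc i.succ)) f = f
      rw [emb_swap_adj_aux]
      exact h (a + (i : ℕ)) (by omega) (by omega)
    have hsymm : ∀ k, (k < a ∨ a + (n+1) ≤ k) → σ.symm k = k := by
      intro k hk
      rw [Equiv.symm_apply_eq]; exact (hσ k hk).symm
    have hrange : ∀ (ρ : Equiv.Perm ℕ), (∀ k, (k < a ∨ a + (n+1) ≤ k) → ρ k = k) →
        ∀ k, a ≤ k → k < a + (n+1) → a ≤ ρ k ∧ ρ k < a + (n+1) := by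
      intro ρ hρ k h1 h2
      by_contra hcon
      have h3 : ρ k < a ∨ a + (n+1) ≤ ρ k := by omega
      have h4 := ρ.injective (hρ _ h3)
      omega
    let τ : Equiv.Perm (Fin (n+1)) :=
      { toFun := fun i => ⟨σ (a + (i : ℕ)) - a, by
          have hi := i.2
          have := hrange σ hσ (a + (i : ℕ)) (by omega) (by omega)
          omega⟩
        invFun := fun i => ⟨σ.symm (a + (i : ℕ)) - a, by
          have hi := i.2
          have := hrange σ.symm hsymm (a + (i : ℕ)) (by omega) (by omega)
          omega⟩
        left_inv := by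
          intro i
          have hi := i.2
          have h1 := hrange σ hσ (a + (i : ℕ)) (by omega) (by omega)
          ext
          show σ.symm (a + (σ (a + (i : ℕ)) - a)) - a = (i : ℕ)
          rw [show a + (σ (a + (i : ℕ)) - a) = σ (a + (i : ℕ)) by omega, Equiv.symm_apply_apply]
          omega
        right_inv := by
          intro i
          have hi := i.2
          have h1 := hrange σ.symm hsymm (a + (i : ℕ)) (by omega) (by omega)
          ext
          show σ (a + (σ.symm (a + (i : ℕ)) - a)) - a = (i : ℕ)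
          rw [show a + (σ.symm (a + (i : ℕ)) - a) = σ.symm (a + (i : ℕ)) by omega, Equiv.apply_symm_apply]
          omega }
    have hτ : emb a (n+1) τ = σ := by
      ext k
      by_cases hk : a ≤ k ∧ k < a + (n+1)
      · obtain ⟨j, rfl⟩ : ∃ j : Fin (n+1), k = a + (j:ℕ) := ⟨⟨k-a, by omega⟩, by simp only; omega⟩
        rw [emb_in]
        show a + (σ (a + (j : ℕ)) - a) = σ (a + (j : ℕ))
        have hj := j.2
        have := hrange σ hσ (a + (j : ℕ)) (by omega) (by omega)
        omega
      · rw [emb_out a (n+1) _ k (by omega), hσ k (by omega)]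
    have hmem : τ ∈ S := by rw [hS]; trivial
    rw [← hτ]; exact hmem

end JSup
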