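import Pool.Agent.Helper204.JS.Defs
import Pool.Agent.Helper204.JS.P_swap_ee_succ
import Pool.Agent.Helper204.JS.P_swap_ee_lt
import Pool.Agent.Helper204.JS.P_swap_ee_gt
import Pool.Agent.Helper204.JS.P_symOn_of_adj

set_option linter.unusedSectionVars false

open MvPolynomial Finset

noncomputable section

namespace JSup
variable {K : Type} [Field K] [CharZero K] [Par K]


theorem Fp_sym_mono {a a' b : ℕ} (h : a ≤ a') {f : MvPolynomial ℕ K} (hf : SymOn a b f) :
    SymOn a' b f := by
  intro σ hσ
  apply hf
  intro k hk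
  apply hσ
  omega

theorem Fp_sym_adj {a b : ℕ} {f : MvPolynomial ℕ K} (hf : SymOn a b f) (i : ℕ) (hi : a ≤ i)
    (hi' : i + 1 < b) : rename (Equiv.swap i (i + 1)) f = f := by
  apply hf
  intro k hk
  apply Equiv.swap_apply_of_ne_of_ne <;> omega

theorem Fp_sym_invol (i : ℕ) (f : MvPolynomial ℕ K) :
    rename (Equiv.swap i (i + 1)) (rename (Equiv.swap i (i + 1)) f) = f := by
  rw [rename_rename]
  have h : (⇑(Equiv.swap i (i + 1)) ∘ ⇑(Equiv.swap i (i + 1)) : ℕ → ℕ) = id := by
    funext k
    simp
  rw [h, rename_id_apply]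

/-- HINT: induction along the recursion (`comp_induction`), for all `l` such that all entries after `l` vanish.
`η = 0`: `Fp N 0 = 1`. Step at the last nonzero index `l'` (so `l' ≤ l`): `f = Fp N (star l' η)` is in
`SymOn (l'+1) N` by induction (entries of `star l' η` after `l'` vanish). By `symOn_of_adj` it is enough to treat
`s_i`, `l' < i`, `i+1 < N` (then restrict from `l'+1` to `l+1`): `s_i e_{l'} f = e_{l'} s_i f = e_{l'} f`;
in `Σ_{l'<k<N} e_k f` the terms `k = i, i+1` are exchanged (`swap_ee_succ`), for `k < i` use `swap_ee_gt`, for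
`k > i+1` use `swap_ee_lt` (`s_{i+1} f = f` because `i+1 > l'` and `i + 2 ≤ k < N`). -/
theorem Fp_sym (N l : ℕ) (η : ℕ →₀ ℕ) (h0 : ∀ k, l < k → η k = 0) :
    SymOn (l + 1) N (Fp N η : MvPolynomial ℕ K) := by
  induction η using comp_induction generalizing l with
  | h0 =>
    intro σ _
    rw [Fp_zero, map_one]
  | hs l' η hl' h0' ih =>
    have hll : l' ≤ l := by
      by_contra hcon
      exact hl' (h0 l' (by omega))
    apply Fp_sym_mono (show l' + 1 ≤ l + 1 by omega)
    have hf : SymOn (l' + 1) N (Fp N (star l' η) : MvPolynomial ℕ K) := by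
      apply ih l'
      intro k hk
      rw [star_apply, if_neg (by omega), if_neg (by omega)]
    apply symOn_of_adj
    intro i hi hi'
    rw [Fp_step N l' η hl' h0']
    set f : MvPolynomial ℕ K := Fp N (star l' η) with hfdef
    have hsf := Fp_sym_adj hf i hi hi'
    rw [Psi_apply, map_add, map_smul, map_sum, swap_ee_gt i l' (by omega), hsf]
    congr 1
    apply Finset.sum_equiv (Equiv.swap i (i + 1))
    · intro k
      rw [Finset.mem_Ioo, Finset.mem_Ioo]
      by_cases h1 : k = i
      · subst h1
        rw [Equiv.swap_apply_left]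
        omega
      · by_cases h2 : k = i + 1
        · subst h2
          rw [Equiv.swap_apply_right]
          omega
        · rw [Equiv.swap_apply_of_ne_of_ne h1 h2]
    · intro k hk
      rw [Finset.mem_Ioo] at hk
      by_cases h1 : k = i
      · subst h1
        rw [Equiv.swap_apply_left, swap_ee_succ]
      · by_cases h2 : k = i + 1
        · subst h2
          rw [Equiv.swap_apply_right, ← swap_ee_succ i f, Fp_sym_invol]
        · rw [Equiv.swap_apply_of_ne_of_ne h1 h2]
          rcases Nat.lt_or_ge k i with h3 | h3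
          · rw [swap_ee_gt i k h3, hsf]
          · rw [swap_ee_lt i k (by omega), Fp_sym_adj hf (i + 1) (by omega) (by omega)]

end JSup
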