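import Pool.Agent.Helper204.JS.Defs

set_option linter.unusedSectionVars false

open MvPolynomial Finset

noncomputable section

namespace JSup
variable {K : Type} [Field K] [CharZero K] [Par K]


/-- HINT: for `j < i < N` and `f` symmetric in the positions `> j`: `s_{ij} (cyc_j f) = cyc_i f`, because
`swap i j ∘ cyc j = cyc i ∘ π` with `π` a permutation of the positions in `(j, i]` (`π i = j+1`, `π k = k+1` for
`j < k < i`): `rename π f = f`. -/
theorem ee_sym_swap (N i j : ℕ) (hji : j < i) (hi : i < N) (f : MvPolynomial ℕ K) (hf : SymOn (j + 1) N f) :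
    rename (Equiv.swap i j) (rename (cyc j) f) = rename (cyc i) f := by
  have hπ : ∀ k, (k < j + 1 ∨ N ≤ k) → ((cyc i)⁻¹ * (Equiv.swap i j * cyc j)) k = k := by
    intro k hk
    rw [Equiv.Perm.mul_apply, Equiv.Perm.inv_eq_iff_eq, Equiv.Perm.mul_apply, cyc_apply, cyc_apply]
    by_cases h0 : k = 0
    · subst h0
      rw [if_pos rfl, if_pos rfl, Equiv.swap_apply_right]
    · rw [if_neg h0, if_neg h0]
      by_cases h1 : k ≤ j
      · rw [if_pos h1, if_pos (by omega)]
        exact Equiv.swap_apply_of_ne_of_ne (by omega) (by omega)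
      · rw [if_neg h1]
        have h2 : N ≤ k := by omega
        rw [if_neg (by omega)]
        exact Equiv.swap_apply_of_ne_of_ne (by omega) (by omega)
  have h := hf _ hπ
  rw [rename_rename]
  conv_rhs => rw [← h, rename_rename]
  congr 1
  have h2 : (⇑(Equiv.swap i j) ∘ ⇑(cyc j)) =
      (⇑(cyc i) ∘ ⇑((cyc i)⁻¹ * (Equiv.swap i j * cyc j))) := by
    funext k
    simp only [Function.comp_apply, Equiv.Perm.mul_apply]
    exact ((cyc i).apply_symm_apply _).symm
  rw [h2]

end JSup
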