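import Pool.Agent.Helper204.JS.Defs
import Pool.Agent.Helper204.JS.P_dd_rename
import Pool.Agent.Helper204.JS.P_del_rename
import Pool.Agent.Helper204.JS.P_dd_X_mul
import Pool.Agent.Helper204.JS.P_ee_sym_swap

set_option linter.unusedSectionVars false

open MvPolynomial Finset

noncomputable section

namespace JSup
variable {K : Type} [Field K] [CharZero K] [Par K]


theorem cyc_sum_aux (N j : ℕ) (hj : j < N) (F : ℕ → MvPolynomial ℕ K) :
    ∑ k ∈ Ioo 0 N, F (cyc j k) = ∑ k ∈ range j, F k + ∑ k ∈ Ioo j N, F k := by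
  have hd : Disjoint (range j) (Ioo j N) := by
    rw [Finset.disjoint_left]
    intro a ha hb
    simp only [mem_range, mem_Ioo] at ha hb
    omega
  rw [← Finset.sum_union hd]
  refine Finset.sum_nbij (fun k => cyc j k) ?_ ?_ ?_ ?_
  · intro k hk
    simp only [mem_Ioo, mem_union, mem_range] at hk ⊢
    rw [cyc_apply]
    split_ifs <;> omega
  · intro a _ b _ hab
    exact (cyc j).injective hab
  · intro m hm
    refine ⟨(cyc j).symm m, ?_, Equiv.apply_symm_apply _ _⟩
    simp only [Finset.coe_union, Set.mem_union, Finset.coe_range, Finset.coe_Ioo, Set.mem_Iio, Set.mem_Ioo] at hm ⊢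
    rw [cyc_symm_apply]
    split_ifs <;> omega
  · intro a _
    rfl

/-- HINT: `ee j f = X j * g`, `g = rename (cyc j) f`. `α δ_j(x_j g) = α x_j g + α x_j δ_j g`. For `k < j`:
`x_j ∂_{jk}(x_j g) = x_j g + x_j x_k ∂_{jk} g`. For `k > j`: `x_k ∂_{jk}(x_j g) = x_k g + x_k² ∂_{jk} g =
x_j x_k ∂_{jk} g + x_k s_{jk} g` and `x_k s_{jk} g = ee k f` by `ee_sym_swap`. And
`ee j (Y_0 f) = x_j · rename (cyc j)(α δ_0 f + Σ_{0<k<N} x_k ∂_{0k} f)`, `cyc j` maps `0 ↦ j`, `k ↦ k-1` (1≤k≤j).
The `j` terms `x_j g` cancel with `- j · x_j g`. -/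
theorem Yop_ee_eq (N j : ℕ) (hj : j < N) (f : MvPolynomial ℕ K) (hf : SymOn (j + 1) N f) :
    Yop N j (ee j f) = ee j (Yop N 0 f + (al : K) • f) + ∑ k ∈ Ioo j N, ee k f := by
  obtain ⟨g, hg⟩ : ∃ g, g = rename (cyc j) f := ⟨_, rfl⟩
  have h0 : cyc j 0 = j := by simp [cyc_apply]
  have hR : rename (cyc j) (Yop N 0 f) = (al : K) • (X j * pderiv j g)
      + (∑ k ∈ range j, X k * dd j k g + ∑ k ∈ Ioo j N, X k * dd j k g) := by
    rw [Yop_apply]
    have e1 : rename (cyc j) (X 0 * pderiv 0 f) = X j * pderiv j g := by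
      have := del_rename (cyc j) 0 f
      rw [del_apply, del_apply, h0, ← hg] at this
      exact this
    have e2 : ∀ k, rename (cyc j) (X k * dd 0 k f) = X (cyc j k) * dd j (cyc j k) g := by
      intro k
      rw [map_mul, rename_X, dd_rename, h0, ← hg]
    have e3 := cyc_sum_aux N j hj (fun k => X k * dd j k g)
    rw [← e3]
    simp only [map_add, map_sub, map_smul, map_sum, Finset.range_zero, Finset.sum_empty, Nat.cast_zero,
      zero_smul, sub_zero, add_zero, e1, e2]
  have s1 : ∀ k ∈ range j, X j * dd j k (X j * g) = X j * g + X j * (X k * dd j k g) := by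
    intro k hk
    have hne : j ≠ k := by
      simp only [mem_range] at hk
      omega
    rw [(dd_X_mul hne g).2.2.2.1]
    ring
  have s2 : ∀ k ∈ Ioo j N, X k * dd j k (X j * g) = X j * (X k * dd j k g) + ee k f := by
    intro k hk
    simp only [mem_Ioo] at hk
    have hne : j ≠ k := by omega
    rw [(dd_X_mul hne g).2.2.2.1, ee_apply, ← ee_sym_swap N k j hk.1 hk.2 f hf, ← hg, Equiv.swap_comm k j]
    have h := dd_spec j k g
    linear_combination (-X k : MvPolynomial ℕ K) * h
  have hE : ee j f = X j * g := by rw [ee_apply, hg]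
  have hE2 : ee j (Yop N 0 f + (al : K) • f) = X j * ((al : K) • (X j * pderiv j g)
      + (∑ k ∈ range j, X k * dd j k g + ∑ k ∈ Ioo j N, X k * dd j k g) + (al : K) • g) := by
    rw [ee_apply, map_add, hR, map_smul, ← hg]
  have hp : pderiv j (X j * g) = g + X j * pderiv j g := by
    rw [Derivation.leibniz, pderiv_X_self, smul_eq_mul, smul_eq_mul, mul_one]
    ring
  rw [hE2, hE, Yop_apply, Finset.sum_congr rfl s1, Finset.sum_congr rfl s2, Finset.sum_add_distrib,
    Finset.sum_add_distrib, Finset.sum_const, Finset.card_range, hp, ← Finset.mul_sum, ← Finset.mul_sum,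
    nsmul_eq_mul]
  simp only [MvPolynomial.smul_eq_C_mul]
  have hc : (C (j : K) : MvPolynomial ℕ K) = (j : MvPolynomial ℕ K) := map_natCast _ _
  rw [hc]
  ring

end JSup
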