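import Pool.Agent.Helper204.JS.Defs
import Pool.Agent.Helper204.JS.P_dd_rename
import Pool.Agent.Helper204.JS.P_del_rename
import Pool.Agent.Helper204.JS.P_dd_X_mul

set_option linter.unusedSectionVars false

open MvPolynomial Finset

noncomputable section

namespace JSup
variable {K : Type} [Field K] [CharZero K] [Par K]


theorem Yop_ee_lt (N i j : ℕ) (hij : i < j) (hj : j < N) (f : MvPolynomial ℕ K) :
    Yop N i (ee j f) = ee j (Yop N (i + 1) f) := by
  have hji : j ≠ i := by omega
  have hij' : i ≠ j := by omega
  have hc0 : cyc j 0 = j := by rw [cyc_apply]; simp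
  have hcs : ∀ k, k < j → cyc j (k + 1) = k := by
    intro k hk
    rw [cyc_apply, if_neg (by omega), if_pos (by omega)]; omega
  rw [Yop_apply, ee_apply, ee_apply, Yop_apply]
  set g := rename (cyc j) f with hg
  have hD : rename (cyc j) (X (i + 1) * pderiv (i + 1) f) = X i * pderiv i g := by
    have := del_rename (cyc j) (i + 1) f
    rw [hcs i hij] at this
    simpa using this
  have hdd : ∀ k, rename (cyc j) (dd (i + 1) k f) = dd i (cyc j k) g := by
    intro k
    rw [dd_rename, hcs i hij]
  have hR : rename (cyc j) ((al : K) • (X (i + 1) * pderiv (i + 1) f)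
      + ∑ k ∈ range (i + 1), X (i + 1) * dd (i + 1) k f
      + ∑ k ∈ Ioo (i + 1) N, X k * dd (i + 1) k f - ((i + 1 : ℕ) : K) • f)
      = (al : K) • (X i * pderiv i g) + (∑ k ∈ range i, X i * dd i k g + X i * dd i j g)
        + ∑ k ∈ (Ioo i N).erase j, X k * dd i k g - ((i + 1 : ℕ) : K) • g := by
    rw [map_sub, map_add, map_add, map_smul, map_smul, hD, map_sum, map_sum]
    congr 2
    · congr 1
      rw [Finset.sum_range_succ']
      congr 1
      · apply Finset.sum_congr rfl
        intro k hk
        rw [mem_range] at hk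
        rw [map_mul, rename_X, hdd, hcs i hij, hcs k (by omega)]
      · rw [map_mul, rename_X, hdd, hcs i hij, hc0]
    · have hset : (Ioo i N).erase j = (Ioo (i + 1) N).map (cyc j).toEmbedding := by
        ext k
        simp only [mem_erase, mem_Ioo, Finset.mem_map, Equiv.coe_toEmbedding]
        constructor
        · rintro ⟨h1, h2, h3⟩
          rcases lt_or_ge k j with h | h
          · exact ⟨k + 1, by omega, hcs k h⟩
          · refine ⟨k, by omega, ?_⟩
            rw [cyc_apply, if_neg (by omega), if_neg (by omega)]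
        · rintro ⟨a, ⟨h1, h2⟩, h3⟩
          rw [cyc_apply, if_neg (by omega)] at h3
          split_ifs at h3 with h4 <;> omega
      rw [hset, Finset.sum_map]
      apply Finset.sum_congr rfl
      intro k hk
      rw [map_mul, rename_X, hdd]
      rfl
  rw [hR]
  have h1 : pderiv i (X j * g) = X j * pderiv i g := by
    rw [(pderiv i).leibniz, pderiv_X_of_ne hji]
    simp
  have h2 : ∑ k ∈ range i, X i * dd i k (X j * g) = X j * ∑ k ∈ range i, X i * dd i k g := by
    rw [Finset.mul_sum]
    apply Finset.sum_congr rfl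
    intro k hk
    rw [mem_range] at hk
    rw [(dd_X_mul (by omega : i ≠ k) g).1 j (by omega) (by omega)]
    ring
  have h3 : ∑ k ∈ Ioo i N, X k * dd i k (X j * g)
      = X j * ∑ k ∈ (Ioo i N).erase j, X k * dd i k g + X j * (X i * dd i j g - g) := by
    have hm : j ∈ Ioo i N := mem_Ioo.mpr ⟨hij, hj⟩
    rw [← Finset.sum_erase_add _ _ hm, (dd_X_mul hij' g).2.1, Finset.mul_sum]
    congr 1
    apply Finset.sum_congr rfl
    intro k hk
    rw [mem_erase, mem_Ioo] at hk
    rw [(dd_X_mul (by omega : i ≠ k) g).1 j (by omega) (by omega)]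
    ring
  rw [h1, h2, h3]
  simp only [MvPolynomial.smul_eq_C_mul]
  rw [Nat.cast_add, Nat.cast_one, map_add, map_one]
  ring

end JSup
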