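import Pool.Agent.Helper204.JS.Defs
import Pool.Agent.Helper204.JS.P_dd_rename
import Pool.Agent.Helper204.JS.P_del_rename

set_option linter.unusedSectionVars false

open MvPolynomial Finset

noncomputable section

namespace JSup
variable {K : Type} [Field K] [CharZero K] [Par K]


/-- HINT: `s = swap i (i+1)`; `s Y_{i+1} s = α δ_i + Σ_{j<i} x_i ∂_{ij} + x_i ∂_{i,i+1} + Σ_{j>i+1} x_j ∂_{ij} -
(i+1) = Y_i + (x_i - x_{i+1}) ∂_{i,i+1} - 1 = Y_i - s` (`dd_rename`, `del_rename`, `dd_spec`). -/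
theorem Yop_swap (N i : ℕ) (hi : i + 1 < N) (f : MvPolynomial ℕ K) :
    Yop N i (rename (Equiv.swap i (i + 1)) f) = rename (Equiv.swap i (i + 1)) (Yop N (i + 1) f) + f := by
  obtain ⟨g, hg⟩ : ∃ g, g = rename (Equiv.swap i (i + 1)) f := ⟨_, rfl⟩
  have hgf : rename (Equiv.swap i (i + 1)) g = f := by
    rw [hg, rename_rename]
    have : (⇑(Equiv.swap i (i + 1)) ∘ ⇑(Equiv.swap i (i + 1))) = id := by
      funext k
      simp
    rw [this, rename_id_apply]
  have e1 : Equiv.swap i (i + 1) (i + 1) = i := Equiv.swap_apply_right _ _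
  have e2 : Equiv.swap i (i + 1) i = i + 1 := Equiv.swap_apply_left _ _
  have hdel : rename (Equiv.swap i (i + 1)) (X (i + 1) * pderiv (i + 1) f) = X i * pderiv i g := by
    have h1 := del_rename (Equiv.swap i (i + 1)) (i + 1) f
    rw [e1, del_apply, del_apply, ← hg] at h1
    exact h1
  have hdd : ∀ j, rename (Equiv.swap i (i + 1)) (dd (i + 1) j f) =
      dd i (Equiv.swap i (i + 1) j) g := by
    intro j
    rw [dd_rename, e1, ← hg]
  have hs1 : rename (Equiv.swap i (i + 1)) (∑ j ∈ range (i + 1), X (i + 1) * dd (i + 1) j f) =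
      (∑ j ∈ range i, X i * dd i j g) + X i * dd i (i + 1) g := by
    rw [map_sum, Finset.sum_range_succ]
    congr 1
    · refine Finset.sum_congr rfl fun j hj => ?_
      rw [Finset.mem_range] at hj
      rw [map_mul, rename_X, e1, hdd, Equiv.swap_apply_of_ne_of_ne (by omega) (by omega)]
    · rw [map_mul, rename_X, e1, hdd, e2]
  have hs2 : rename (Equiv.swap i (i + 1)) (∑ j ∈ Ioo (i + 1) N, X j * dd (i + 1) j f) =
      ∑ j ∈ Ioo (i + 1) N, X j * dd i j g := by
    rw [map_sum]
    refine Finset.sum_congr rfl fun j hj => ?_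
    rw [Finset.mem_Ioo] at hj
    rw [map_mul, rename_X, hdd, Equiv.swap_apply_of_ne_of_ne (by omega) (by omega)]
  have hs3 : ∑ j ∈ Ioo i N, X j * dd i j g =
      X (i + 1) * dd i (i + 1) g + ∑ j ∈ Ioo (i + 1) N, X j * dd i j g := by
    have : Ioo i N = insert (i + 1) (Ioo (i + 1) N) := by
      ext k
      simp only [Finset.mem_Ioo, Finset.mem_insert]
      omega
    rw [this, Finset.sum_insert (by simp)]
  have hkey := dd_spec i (i + 1) g
  rw [hgf] at hkey
  rw [← hg, Yop_apply, Yop_apply, map_sub, map_add, map_add, hs1, hs2, hs3]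
  simp only [map_smul]
  rw [hdel, ← hg]
  push_cast
  rw [add_smul, one_smul]
  linear_combination (-1 : MvPolynomial ℕ K) * hkey

end JSup
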