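import Pool.Agent.Helper204.JS.Defs

set_option linter.unusedSectionVars false

open MvPolynomial Finset

noncomputable section

namespace JSup
variable {K : Type} [Field K] [CharZero K] [Par K]


/-- HINT: pure counting with filters on `range` and `Ioo`; all entries after `l` vanish and `η l ≥ 1`. In
`star l η` the entries `η_0..η_{l-1}` are shifted to positions `1..l` and `η_l - 1` is put at position 0. -/
theorem yv_star (N l : ℕ) (hl : l < N) (η : ℕ →₀ ℕ) (h1 : η l ≠ 0) (h0 : ∀ k, l < k → η k = 0) :
    (∀ i, i < l → (yv N (star l η) (i + 1) : K) = yv N η i) ∧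
    ((yv N (star l η) 0 : K) + al = kap l η) ∧
    ((yv N η l : K) = kap l η) ∧
    (∀ k, l < k → k < N → (yv N η k : K) = - (k : K)) ∧
    (∀ k, l < k → k < N → (yv N (star l η) k : K) = - (k : K)) := by
  have hs0 : star l η 0 = η l - 1 := by rw [star_apply]; simp
  have hs1 : ∀ k, k < l → star l η (k + 1) = η k := by
    intro k hk
    rw [star_apply]
    have : k + 1 ≤ l := hk
    simp [this]
  have hs2 : ∀ k, l < k → star l η k = 0 := by
    intro k hk
    rw [star_apply]
    have h2 : k ≠ 0 := by omega
    have h3 : ¬ k ≤ l := by omega
    simp [h2, h3]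
  refine ⟨?_, ?_, ?_, ?_, ?_⟩
  · intro i hi
    have hA : (((Ioo (i + 1) N).filter (fun j => star l η (i + 1) < star l η j))).card =
        ((Ioo i l).filter (fun j => η i < η j)).card := by
      have : (Ioo (i + 1) N).filter (fun j => star l η (i + 1) < star l η j) =
          ((Ioo i l).filter (fun j => η i < η j)).image (fun j => j + 1) := by
        ext j
        simp only [mem_filter, mem_Ioo, mem_image, hs1 i hi]
        constructor
        · rintro ⟨⟨ha, hb⟩, hc⟩
          have hjl : j ≤ l := by
            by_contra h
            rw [hs2 j (by omega)] at hc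
            omega
          obtain ⟨j', rfl⟩ : ∃ j', j = j' + 1 := ⟨j - 1, by omega⟩
          rw [hs1 j' (by omega)] at hc
          exact ⟨j', ⟨⟨by omega, by omega⟩, hc⟩, rfl⟩
        · rintro ⟨j', ⟨⟨ha, hb⟩, hc⟩, rfl⟩
          refine ⟨⟨by omega, by omega⟩, ?_⟩
          rw [hs1 j' (by omega)]
          exact hc
      rw [this, card_image_of_injective _ (add_left_injective 1)]
    have hB : ((Ioo i N).filter (fun j => η i < η j)).card =
        ((Ioo i l).filter (fun j => η i < η j)).card + (if η i < η l then 1 else 0) := by
      have : (Ioo i N).filter (fun j => η i < η j) =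
          (Ioo i l).filter (fun j => η i < η j) ∪ ({l} : Finset ℕ).filter (fun j => η i < η j) := by
        ext j
        simp only [mem_filter, mem_Ioo, mem_union, mem_singleton]
        constructor
        · rintro ⟨⟨ha, hb⟩, hc⟩
          by_cases hjl : j < l
          · exact Or.inl ⟨⟨ha, hjl⟩, hc⟩
          · by_cases hjl2 : j = l
            · exact Or.inr ⟨hjl2, hc⟩
            · rw [h0 j (by omega)] at hc
              omega
        · rintro (⟨⟨ha, hb⟩, hc⟩ | ⟨rfl, hc⟩)
          · exact ⟨⟨ha, by omega⟩, hc⟩
          · exact ⟨⟨hi, hl⟩, hc⟩
      rw [this, card_union_of_disjoint]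
      · congr 1
        rw [filter_singleton]
        split_ifs <;> simp
      · rw [disjoint_left]
        intro j hj hj2
        simp only [mem_filter, mem_Ioo, mem_singleton] at hj hj2
        omega
    have hC : ((range (i + 1)).filter (fun j => star l η (i + 1) ≤ star l η j)).card =
        ((range i).filter (fun j => η i ≤ η j)).card + (if η i < η l then 1 else 0) := by
      rw [card_filter, card_filter, sum_range_succ', hs0, hs1 i hi]
      congr 1
      · apply sum_congr rfl
        intro j hj
        simp only [mem_range] at hj
        rw [hs1 j (by omega)]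
      · have : (η i ≤ η l - 1) ↔ (η i < η l) := by omega
        simp only [this]
    unfold yv
    rw [hA, hB, hC, hs1 i hi]
    push_cast
    ring
  · have hD : ((Ioo 0 N).filter (fun j => star l η 0 < star l η j)).card =
        ((range l).filter (fun j => η l ≤ η j)).card := by
      have : (Ioo 0 N).filter (fun j => star l η 0 < star l η j) =
          ((range l).filter (fun j => η l ≤ η j)).image (fun j => j + 1) := by
        ext j
        simp only [mem_filter, mem_Ioo, mem_image, mem_range, hs0]
        constructor
        · rintro ⟨⟨ha, hb⟩, hc⟩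
          have hjl : j ≤ l := by
            by_contra h
            rw [hs2 j (by omega)] at hc
            omega
          obtain ⟨j', rfl⟩ : ∃ j', j = j' + 1 := ⟨j - 1, by omega⟩
          rw [hs1 j' (by omega)] at hc
          exact ⟨j', ⟨by omega, by omega⟩, rfl⟩
        · rintro ⟨j', ⟨hb, hc⟩, rfl⟩
          refine ⟨⟨by omega, by omega⟩, ?_⟩
          rw [hs1 j' (by omega)]
          omega
      rw [this, card_image_of_injective _ (add_left_injective 1)]
    unfold yv kap
    rw [hD, hs0, Nat.cast_sub (by omega)]
    simp
    ring
  · have hE : (Ioo l N).filter (fun j => η l < η j) = ∅ := by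
      rw [filter_eq_empty_iff]
      intro j hj
      simp only [mem_Ioo] at hj
      rw [h0 j hj.1]
      omega
    unfold yv kap
    rw [hE]
    simp
  · intro k hk hkN
    have hE : (Ioo k N).filter (fun j => η k < η j) = ∅ := by
      rw [filter_eq_empty_iff]
      intro j hj
      simp only [mem_Ioo] at hj
      rw [h0 j (by omega)]
      omega
    unfold yv
    rw [hE, h0 k hk]
    simp
  · intro k hk hkN
    have hE : (Ioo k N).filter (fun j => star l η k < star l η j) = ∅ := by
      rw [filter_eq_empty_iff]
      intro j hj
      simp only [mem_Ioo] at hj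
      rw [hs2 j (by omega)]
      omega
    unfold yv
    rw [hE, hs2 k hk]
    simp

end JSup
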