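import Pool.Agent.Helper204.JS.Defs
import Pool.Agent.Helper204.JS.P_swap_ee_succ
import Pool.Agent.Helper204.JS.P_swap_ee_lt
import Pool.Agent.Helper204.JS.P_swap_ee_gt
import Pool.Agent.Helper204.JS.P_Fp_sym
import Pool.Agent.Helper204.JS.P_Yop_ee_lt
import Pool.Agent.Helper204.JS.P_Yop_ee_eq
import Pool.Agent.Helper204.JS.P_Yop_swap
import Pool.Agent.Helper204.JS.P_yv_star

set_option linter.unusedSectionVars false

open MvPolynomial Finset

noncomputable section

namespace JSup
variable {K : Type} [Field K] [CharZero K] [Par K]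


theorem Yop_Fp_swsw (i j : ℕ) (g : MvPolynomial ℕ K) :
    rename (Equiv.swap i j) (rename (Equiv.swap i j) g) = g := by
  rw [rename_rename]
  have : (Equiv.swap i j : ℕ → ℕ) ∘ (Equiv.swap i j : ℕ → ℕ) = id := by
    funext k; simp
  rw [this, rename_id]
  rfl

theorem Yop_Fp_shift (N i : ℕ) (hi : i + 1 < N) (g : MvPolynomial ℕ K) :
    Yop N (i + 1) g = rename (Equiv.swap i (i + 1)) (Yop N i (rename (Equiv.swap i (i + 1)) g))
      - rename (Equiv.swap i (i + 1)) g := by
  rw [Yop_swap N i hi g, map_add, Yop_Fp_swsw, add_sub_cancel_right]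

theorem Yop_Fp_symswap {a b : ℕ} {f : MvPolynomial ℕ K} (hf : SymOn a b f) (i : ℕ) (h1 : a ≤ i)
    (h2 : i + 1 < b) : rename (Equiv.swap i (i + 1)) f = f := by
  refine hf _ fun k hk => Equiv.swap_apply_of_ne_of_ne ?_ ?_
  · omega
  · omega

theorem Yop_Fp_one (N i : ℕ) : Yop N i (1 : MvPolynomial ℕ K) = (-(i : K)) • (1 : MvPolynomial ℕ K) := by
  have hd : ∀ j, dd i j (1 : MvPolynomial ℕ K) = 0 := by
    intro j
    by_cases h : i = j
    · subst h; exact dd_self i 1
    · exact dd_unique h (by simp)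
  rw [Yop_apply]
  simp only [hd, mul_zero, Finset.sum_const_zero, add_zero]
  have : (pderiv i) (1 : MvPolynomial ℕ K) = 0 := Derivation.map_one_eq_zero _
  rw [this, mul_zero, smul_zero, zero_sub, neg_smul]

/-- HINT: `comp_induction`. Base: `Y_i 1 = -i`. Step: `f = Fp N (star l η)`, `F = Psi N l κ f =
κ' e_l f + Σ_{l<k<N} e_k f`, `κ' = κ + l + 1`; by induction `Y_i f = y_i(star) f` for all `i < N`; `f` and `F` are in
`SymOn (l+1) N` (`Fp_sym`). Case `i < l`: `Yop_ee_lt`. Case `i = l`: `Yop_ee_eq` gives `Y_l e_l f = κ e_l f +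
Σ_{k>l} e_k f`, `Yop_ee_lt` gives `Y_l e_k f = -(l+1) e_k f`; sum `= κ F` as `κ' - (l+1) = κ`. Case `i > l`: first
`i = l+1`: use `Y_{l+1} g = s_l Y_l (s_l g) - s_l g` (from `Yop_swap`), `s_l F = κ' e_{l+1} f + e_l f + S`,
`S = Σ_{k>l+1} e_k f` (`swap_ee_succ`, and `s_l e_k f = e_k s_{l+1} f = e_k f`); result `-(l+1) F`. For `i > l+1`
use inductively `Y_{i+1} g = s_i Y_i (s_i g) - s_i g` and `s_i F = F`. -/
theorem Yop_Fp (N : ℕ) (η : ℕ →₀ ℕ) (hη : ∀ k, N ≤ k → η k = 0) (i : ℕ) (hi : i < N) :
    Yop N i (Fp N η : MvPolynomial ℕ K) = (yv N η i : K) • Fp N η := by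
  revert hη i
  refine comp_induction (motive := fun η => (∀ k, N ≤ k → η k = 0) → ∀ i, i < N →
    Yop N i (Fp N η : MvPolynomial ℕ K) = (yv N η i : K) • Fp N η) ?_ ?_ η
  · intro _ i hi
    rw [Fp_zero, Yop_Fp_one]
    congr 1
    simp [yv]
  · intro l η hl h0 ih hη
    have hlN : l < N := by
      by_contra h
      exact hl (hη l (by omega))
    have hstar0 : ∀ k, l < k → star l η k = 0 := by
      intro k hk
      rw [star_apply, if_neg (by omega), if_neg (by omega)]
    obtain ⟨f, hf⟩ : ∃ f : MvPolynomial ℕ K, f = Fp N (star l η) := ⟨_, rfl⟩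
    have hY : ∀ i, i < N → Yop N i f = (yv N (star l η) i : K) • f := by
      rw [hf]; exact ih fun k hk => hstar0 k (by omega)
    have hfs : SymOn (l + 1) N f := by rw [hf]; exact Fp_sym N l (star l η) hstar0
    obtain ⟨F, hF⟩ : ∃ F : MvPolynomial ℕ K, F = Fp N η := ⟨_, rfl⟩
    have hFs : SymOn (l + 1) N F := by rw [hF]; exact Fp_sym N l η h0
    have hFe : F = ((kap l η : K) + l + 1) • ee l f + ∑ k ∈ Ioo l N, ee k f := by
      rw [hF, Fp_step N l η hl h0, Psi_apply, hf]
    obtain ⟨y1, y2, y3, y4, y5⟩ := yv_star (K := K) N l hlN η hl h0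
    rw [← hF]
    obtain ⟨κ, hκ⟩ : ∃ κ : K, κ = kap l η := ⟨_, rfl⟩
    rw [← hκ] at hFe y2 y3
    -- `Y_i e_j f` for `i < j`
    have hA : ∀ i j, i < j → j < N → Yop N i (ee j f) = (yv N (star l η) (i + 1) : K) • ee j f := by
      intro i j hij hj
      rw [Yop_ee_lt N i j hij hj f, hY (i + 1) (by omega), map_smul]
    have hB : Yop N l (ee l f) = κ • ee l f + ∑ k ∈ Ioo l N, ee k f := by
      rw [Yop_ee_eq N l hlN f hfs, hY 0 (by omega), ← add_smul, y2, map_smul]
    have hC : ∀ j, l < j → j < N → Yop N l (ee j f) = (-((l : K) + 1)) • ee j f := by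
      intro j h1 h2
      rw [hA l j h1 h2, y5 (l + 1) (by omega) (by omega)]
      push_cast
      rfl
    have hgt : ∀ d, l + 1 + d < N → Yop N (l + 1 + d) F = (-((l : K) + 1 + d)) • F := by
      intro d
      induction d with
      | zero =>
        intro hd
        have hd' : l + 1 < N := by omega
        obtain ⟨S, hS⟩ : ∃ S : MvPolynomial ℕ K, S = ∑ k ∈ Ioo (l + 1) N, ee k f := ⟨_, rfl⟩
        have hIoo : ∑ k ∈ Ioo l N, ee k f = ee (l + 1) f + S := by
          have : Ioo l N = insert (l + 1) (Ioo (l + 1) N) := by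
            ext k; simp only [mem_Ioo, mem_insert]; omega
          rw [this, Finset.sum_insert (by simp), hS]
        have hsS : rename (Equiv.swap l (l + 1)) S = S := by
          rw [hS, map_sum]
          refine Finset.sum_congr rfl fun k hk => ?_
          rw [mem_Ioo] at hk
          rw [swap_ee_lt l k hk.1 f, Yop_Fp_symswap hfs (l + 1) le_rfl (by omega)]
        have hYS : Yop N l S = (-((l : K) + 1)) • S := by
          rw [hS, map_sum, Finset.smul_sum]
          refine Finset.sum_congr rfl fun k hk => ?_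
          rw [mem_Ioo] at hk
          exact hC k (by omega) hk.2
        have hs0 : rename (Equiv.swap l (l + 1)) (ee l f) = ee (l + 1) f := swap_ee_succ l f
        have hs1 : rename (Equiv.swap l (l + 1)) (ee (l + 1) f) = ee l f := by
          rw [← hs0, Yop_Fp_swsw]
        have hsF : rename (Equiv.swap l (l + 1)) F = (κ + l + 1) • ee (l + 1) f + ee l f + S := by
          rw [hFe, hIoo, map_add, map_add, map_smul, hs0, hs1, hsS, ← add_assoc ((κ + (l : K) + 1) • (ee (l + 1)) f)]
        have e1 : Yop N (l + 1) F = (-((l : K) + 1)) • F := by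
          rw [Yop_Fp_shift N l hd' F, hsF]
          simp only [map_add, map_smul]
          rw [hB, hC (l + 1) (by omega) hd', hYS, hIoo]
          simp only [map_add, map_smul]
          rw [hs0, hs1, hsS, hFe, hIoo]
          module
        simpa using e1
      | succ d ihd =>
        intro hd
        have e1 := ihd (by omega)
        have e2 := Yop_Fp_symswap hFs (l + 1 + d) (by omega) (by omega)
        have e3 := Yop_Fp_shift N (l + 1 + d) (by omega) F
        rw [e2, e1, map_smul, e2] at e3
        have e4 : l + 1 + (d + 1) = l + 1 + d + 1 := by omega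
        rw [e4, e3]
        push_cast
        module
    intro i hi
    rcases lt_trichotomy i l with h | h | h
    · rw [← y1 i h, hFe, map_add, map_smul, map_sum, hA i l h hlN, smul_add, Finset.smul_sum]
      congr 1
      · rw [smul_comm]
      · refine Finset.sum_congr rfl fun k hk => ?_
        rw [mem_Ioo] at hk
        exact hA i k (by omega) hk.2
    · subst h
      rw [y3, hFe, map_add, map_smul, map_sum, hB]
      have : ∑ k ∈ Ioo i N, Yop N i (ee k f) = (-((i : K) + 1)) • ∑ k ∈ Ioo i N, ee k f := by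
        rw [Finset.smul_sum]
        refine Finset.sum_congr rfl fun k hk => ?_
        rw [mem_Ioo] at hk
        exact hC k hk.1 hk.2
      rw [this]
      module
    · rw [y4 i h hi]
      have e1 := hgt (i - (l + 1)) (by omega)
      have e2 : l + 1 + (i - (l + 1)) = i := by omega
      rw [e2] at e1
      rw [e1]
      congr 2
      have e3 : ((l + 1 + (i - (l + 1)) : ℕ) : K) = i := by rw [e2]
      rw [← e3]
      push_cast
      ring

end JSup
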