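import Pool.Agent.Helper204.JS.Defs

set_option linter.unusedSectionVars false

open MvPolynomial Finset

noncomputable section

namespace JSup
variable {K : Type} [Field K] [CharZero K] [Par K]


theorem es_A {R : Type} [AddCommMonoid R] (g : ℕ → ℕ → R) (N : ℕ) :
    ∑ i ∈ range (N + 1), ∑ j ∈ Ioo i (N + 1), g i j =
      ∑ i ∈ range N, ∑ j ∈ Ioo i N, g i j + ∑ i ∈ range N, g i N := by
  rw [Finset.sum_range_succ]
  have h0 : Ioo N (N + 1) = ∅ := by
    ext x; simp only [mem_Ioo, Finset.notMem_empty, iff_false]; omega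
  rw [h0, Finset.sum_empty, add_zero, ← Finset.sum_add_distrib]
  refine Finset.sum_congr rfl fun i hi => ?_
  rw [mem_range] at hi
  have h1 : Ioo i (N + 1) = insert N (Ioo i N) := by
    ext x; simp only [mem_Ioo, Finset.mem_insert]; omega
  rw [h1, Finset.sum_insert (by simp only [mem_Ioo]; omega), add_comm]

theorem es_B {R : Type} [AddCommMonoid R] (g : ℕ → ℕ → R) (N : ℕ) :
    ∑ i ∈ range (N + 1), ∑ j ∈ Ioo i (N + 1), g i j =
      ∑ i ∈ range N, ∑ j ∈ Ioo i N, g (i + 1) (j + 1) + ∑ j ∈ range N, g 0 (j + 1) := by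
  induction N with
  | zero =>
    have h0 : Ioo 0 (0 + 1) = ∅ := by
      ext x; simp only [mem_Ioo, Finset.notMem_empty, iff_false]; omega
    simp only [Finset.range_zero, Finset.sum_empty, Finset.sum_range_succ, h0, add_zero]
  | succ N ih =>
    rw [es_A g (N + 1), ih, es_A (fun i j => g (i + 1) (j + 1)) N, Finset.sum_range_succ' (fun i => g i (N + 1)),
      Finset.sum_range_succ (fun j => g 0 (j + 1))]
    simp only [add_assoc, add_left_comm, add_comm]

theorem es_C {R : Type} [AddCommMonoid R] (g : ℕ → ℕ → R) (M d : ℕ)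
    (h : ∀ i j, M ≤ j → g i j = 0) :
    ∑ i ∈ range (M + d), ∑ j ∈ Ioo i (M + d), g i j =
      ∑ i ∈ range M, ∑ j ∈ Ioo i M, g i j := by
  induction d with
  | zero => rfl
  | succ d ih =>
    have h2 : ∑ i ∈ range (M + d), g i (M + d) = 0 :=
      Finset.sum_eq_zero fun i _ => h i (M + d) (by omega)
    rw [← add_assoc, es_A, ih, h2, add_zero]

theorem es_D {R : Type} [AddCommMonoid R] (g : ℕ → R) (M N : ℕ) (hMN : M ≤ N)
    (h : ∀ j, M ≤ j → g j = 0) : ∑ i ∈ range N, g i = ∑ i ∈ range M, g i := by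
  symm
  apply Finset.sum_subset
  · intro x hx
    rw [mem_range] at hx ⊢
    omega
  · intro x _ hx
    rw [mem_range, not_lt] at hx
    exact h x hx

/-- HINT: `e(η) = e(η*) + 2 y_0(η*) + α + N - 1`. `Σ η_i²`: difference `2 η_l - 1`; `Σ min`: difference
`#{j < l : η_j ≥ η_l}`; `|η|`: difference 1; `y_0(η*) = α(η_l - 1) - #{j < l : η_j ≥ η_l}`. -/
theorem eM_star (N l : ℕ) (hl : l < N) (η : ℕ →₀ ℕ) (h1 : η l ≠ 0) (h0 : ∀ k, l < k → η k = 0) :
    (eM N η : K) = eM N (star l η) + 2 * yv N (star l η) 0 + (al + N - 1) := by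
  obtain ⟨d, hd⟩ : ∃ d, N = (l + 1) + d := ⟨N - (l + 1), by omega⟩
  have hs0 : star l η 0 = η l - 1 := by rw [star_apply]; simp
  have hs1 : ∀ k, k < l → star l η (k + 1) = η k := by
    intro k hk
    rw [star_apply]
    have h2 : k + 1 ≤ l := hk
    simp [h2]
  have hs2 : ∀ k, l < k → star l η k = 0 := by
    intro k hk
    rw [star_apply]
    have h2 : k ≠ 0 := by omega
    have h3 : ¬ k ≤ l := by omega
    simp [h2, h3]
  obtain ⟨c, hc⟩ : ∃ c, η l = c + 1 := ⟨η l - 1, by omega⟩
  rw [hc, Nat.add_sub_cancel] at hs0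
  -- squares
  have hsq : ∑ i ∈ range N, (η i : K) ^ 2 = ∑ i ∈ range N, (star l η i : K) ^ 2 + (2 * (c : K) + 1) := by
    rw [es_D (fun i => (η i : K) ^ 2) (l + 1) N (by omega) (fun j hj => by
        rw [h0 j (by omega)]; simp),
      es_D (fun i => (star l η i : K) ^ 2) (l + 1) N (by omega) (fun j hj => by
        rw [hs2 j (by omega)]; simp)]
    have e0 : ∑ k ∈ range l, (star l η (k + 1) : K) ^ 2 = ∑ k ∈ range l, (η k : K) ^ 2 :=
      Finset.sum_congr rfl fun k hk => by rw [hs1 k (mem_range.mp hk)]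
    rw [Finset.sum_range_succ, Finset.sum_range_succ', e0]
    rw [hc, hs0]
    push_cast
    ring
  have hone : ∑ i ∈ range N, (η i : K) = ∑ i ∈ range N, (star l η i : K) + 1 := by
    rw [es_D (fun i => (η i : K)) (l + 1) N (by omega) (fun j hj => by
        rw [h0 j (by omega)]; simp),
      es_D (fun i => (star l η i : K)) (l + 1) N (by omega) (fun j hj => by
        rw [hs2 j (by omega)]; simp)]
    have e0 : ∑ k ∈ range l, (star l η (k + 1) : K) = ∑ k ∈ range l, (η k : K) :=
      Finset.sum_congr rfl fun k hk => by rw [hs1 k (mem_range.mp hk)]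
    rw [Finset.sum_range_succ, Finset.sum_range_succ', e0]
    rw [hc, hs0]
    push_cast
    ring
  have hmin : ∑ i ∈ range N, ∑ j ∈ Ioo i N, ((min (η i) (η j) : ℕ) : K) =
      ∑ i ∈ range N, ∑ j ∈ Ioo i N, ((min (star l η i) (star l η j) : ℕ) : K) +
      (((range l).filter (fun k => c + 1 ≤ η k)).card : K) := by
    rw [hd, es_C (fun i j => ((min (η i) (η j) : ℕ) : K)) (l + 1) d (fun i j hj => by
        rw [h0 j (by omega)]; simp),
      es_C (fun i j => ((min (star l η i) (star l η j) : ℕ) : K)) (l + 1) d (fun i j hj => by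
        rw [hs2 j (by omega)]; simp)]
    rw [es_A, es_B]
    have e1 : ∑ i ∈ range l, ∑ j ∈ Ioo i l, ((min (star l η (i + 1)) (star l η (j + 1)) : ℕ) : K) =
        ∑ i ∈ range l, ∑ j ∈ Ioo i l, ((min (η i) (η j) : ℕ) : K) := by
      refine Finset.sum_congr rfl fun i hi => Finset.sum_congr rfl fun j hj => ?_
      rw [mem_range] at hi
      rw [mem_Ioo] at hj
      rw [hs1 i hi, hs1 j hj.2]
    have e2 : ∑ i ∈ range l, ((min (η i) (η l) : ℕ) : K) =
        ∑ j ∈ range l, ((min (star l η 0) (star l η (j + 1)) : ℕ) : K) +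
        (((range l).filter (fun k => c + 1 ≤ η k)).card : K) := by
      rw [Finset.card_filter, Nat.cast_sum, ← Finset.sum_add_distrib]
      refine Finset.sum_congr rfl fun i hi => ?_
      rw [mem_range] at hi
      rw [hs1 i hi, hs0, hc, ← Nat.cast_add]
      congr 1
      split_ifs <;> omega
    rw [e1, e2, add_assoc]
  have hy : (yv N (star l η) 0 : K) = al * (c : K) - (((range l).filter (fun k => c + 1 ≤ η k)).card : K) := by
    unfold yv
    rw [hs0]
    have e3 : (Ioo 0 N).filter (fun j => c < star l η j) =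
        ((range l).filter (fun k => c + 1 ≤ η k)).image Nat.succ := by
      ext j
      simp only [mem_filter, mem_Ioo, mem_image, mem_range]
      constructor
      · rintro ⟨⟨h2, h3⟩, h4⟩
        have h5 : j ≤ l := by
          by_contra h6
          rw [hs2 j (by omega)] at h4
          omega
        refine ⟨j - 1, ⟨by omega, ?_⟩, by omega⟩
        have h6 := hs1 (j - 1) (by omega)
        rw [Nat.sub_add_cancel h2] at h6
        rw [← h6]
        exact h4
      · rintro ⟨k, ⟨h2, h3⟩, rfl⟩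
        refine ⟨⟨Nat.succ_pos k, by omega⟩, ?_⟩
        rw [Nat.succ_eq_add_one, hs1 k h2]
        exact h3
    rw [e3, Finset.card_image_of_injective _ Nat.succ_injective]
    simp
  unfold eM
  rw [hsq, hone, hmin, hy]
  ring

end JSup
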