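import Pool.Agent.Helper204.JS.Defs
import Pool.Agent.Helper204.JS.P_Yop_Fp
import Pool.Agent.Helper204.JS.P_MM_ee
import Pool.Agent.Helper204.JS.P_eM_star

set_option linter.unusedSectionVars false

open MvPolynomial Finset

noncomputable section

namespace JSup
variable {K : Type} [Field K] [CharZero K] [Par K]


theorem TT_one (i j : ℕ) : TT i j (1 : MvPolynomial ℕ K) = 0 := by
  have hd : ∀ k : ℕ, del k (1 : MvPolynomial ℕ K) = 0 := by
    intro k
    rw [del_apply, pderiv_one, mul_zero]
  have hdd : dd i j (1 : MvPolynomial ℕ K) = 0 := by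
    by_cases h : i = j
    · subst h; rw [dd_self]
    · apply dd_unique h
      rw [mul_zero, map_one, sub_self]
  unfold TT
  simp only [LinearMap.add_apply, LinearMap.sub_apply, LinearMap.comp_apply, hd, hdd, map_zero,
    sub_zero, add_zero]

theorem MM_one (N : ℕ) : MM N (1 : MvPolynomial ℕ K) = 0 := by
  have hd : ∀ k : ℕ, del k (1 : MvPolynomial ℕ K) = 0 := by
    intro k
    rw [del_apply, pderiv_one, mul_zero]
  unfold MM
  simp only [LinearMap.add_apply, LinearMap.smul_apply, LinearMap.sum_apply, LinearMap.comp_apply,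
    hd, TT_one, map_zero, Finset.sum_const_zero, smul_zero, add_zero]

theorem eM_zero' (N : ℕ) : (eM N ((0 : ℕ →₀ ℕ) : ℕ → ℕ) : K) = 0 := by
  unfold eM
  simp

theorem MM_Fp (N : ℕ) (η : ℕ →₀ ℕ) (hη : ∀ k, N ≤ k → η k = 0) :
    MM N (Fp N η : MvPolynomial ℕ K) = (eM N η : K) • Fp N η := by
  revert hη
  induction η using comp_induction with
  | h0 =>
    intro _
    rw [Fp_zero, MM_one, eM_zero', zero_smul]
  | hs l η h1 h0 ih =>
    intro hη
    have hl : l < N := by
      by_contra h
      exact h1 (hη l (by omega))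
    have hstar : ∀ k, N ≤ k → star l η k = 0 := by
      intro k hk
      rw [star_apply]
      have hk0 : k ≠ 0 := by omega
      have hkl : ¬ k ≤ l := by omega
      rw [if_neg hk0, if_neg hkl]
    have ihM := ih hstar
    have hY := Yop_Fp (K := K) N (star l η) hstar 0 (by omega)
    have hE := eM_star (K := K) N l hl η h1 h0
    have key : ∀ j, j < N → MM N (ee j (Fp N (star l η) : MvPolynomial ℕ K))
        = (eM N η : K) • ee j (Fp N (star l η)) := by
      intro j hj
      rw [MM_ee N j hj, ihM, hY, smul_smul, ← add_smul, ← add_smul, map_smul, hE]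
    rw [Fp_step N l η h1 h0, Psi_apply, map_add, map_smul, map_sum, key l hl, smul_add, Finset.smul_sum,
      smul_comm]
    congr 1
    apply Finset.sum_congr rfl
    intro k hk
    exact key k (Finset.mem_Ioo.mp hk).2

end JSup
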