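import Pool.Agent.Helper204.JS.Defs
import Pool.Agent.Helper204.JS.Defs1

set_option linter.unusedSectionVars false

open MvPolynomial Finset

noncomputable section

namespace JSup
variable {K : Type} [Field K] [CharZero K] [Par K]



theorem perm_lt_iff (N : ℕ) (σ : Equiv.Perm ℕ) (hσ : ∀ k, N ≤ k → σ k = k) (i : ℕ) :
    i < N ↔ σ i < N := by
  constructor
  · intro h
    by_contra h2
    have h3 : N ≤ σ i := by omega
    have h4 := hσ _ h3
    have h5 : σ i = i := σ.injective h4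
    omega
  · intro h
    by_contra h2
    have h3 := hσ i (by omega)
    omega

theorem sum_perm_range {R : Type} [AddCommMonoid R] (N : ℕ) (σ : Equiv.Perm ℕ)
    (hσ : ∀ k, N ≤ k → σ k = k) (f : ℕ → R) :
    ∑ i ∈ range N, f (σ i) = ∑ i ∈ range N, f i := by
  refine Finset.sum_equiv σ (fun i => ?_) (fun i _ => rfl)
  rw [Finset.mem_range, Finset.mem_range]
  exact perm_lt_iff N σ hσ i

theorem two_mul_pairs {R : Type} [CommRing R] (N : ℕ) (f : ℕ → ℕ → R) (hf : ∀ i j, f i j = f j i) :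
    2 * ∑ i ∈ range N, ∑ j ∈ Ioo i N, f i j
      = ∑ i ∈ range N, ∑ j ∈ range N, f i j - ∑ i ∈ range N, f i i := by
  induction N with
  | zero => simp
  | succ N ih =>
    have h1 : ∀ i ∈ range N, ∑ j ∈ Ioo i (N + 1), f i j = ∑ j ∈ Ioo i N, f i j + f i N := by
      intro i hi
      rw [Finset.mem_range] at hi
      have h2 : Ioo i (N + 1) = insert N (Ioo i N) := by
        ext k
        simp only [Finset.mem_Ioo, Finset.mem_insert]
        omega
      rw [h2, Finset.sum_insert (by simp), add_comm]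
    have h3 : ∑ j ∈ Ioo N (N + 1), f N j = 0 := by
      apply Finset.sum_eq_zero
      intro j hj
      rw [Finset.mem_Ioo] at hj
      omega
    rw [Finset.sum_range_succ (fun i => ∑ j ∈ Ioo i (N + 1), f i j), h3,
      Finset.sum_congr rfl h1, Finset.sum_add_distrib, add_zero, mul_add, ih]
    rw [Finset.sum_range_succ (fun i => ∑ j ∈ range (N + 1), f i j),
      Finset.sum_range_succ (fun i => f i i)]
    have h4 : ∀ i, ∑ j ∈ range (N + 1), f i j = ∑ j ∈ range N, f i j + f i N :=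
      fun i => Finset.sum_range_succ _ _
    simp only [h4]
    rw [Finset.sum_add_distrib]
    have h5 : ∑ j ∈ range N, f N j = ∑ i ∈ range N, f i N :=
      Finset.sum_congr rfl (fun i _ => hf N i)
    rw [h5]
    ring

theorem sq_psm_perm (N : ℕ) (σ : Equiv.Perm ℕ) (hσ : ∀ k, N ≤ k → σ k = k) (ω : ℕ → ℕ) (t : ℕ) :
    sq N (ω ∘ σ) = sq N ω ∧ hth N t (ω ∘ σ) = hth N t ω ∧
    (eM N (ω ∘ σ) : K) = eM N ω := by
  refine ⟨?_, ?_, ?_⟩
  · exact sum_perm_range N σ hσ (fun i => (ω i) ^ 2)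
  · exact sum_perm_range N σ hσ (fun i => ω i - t)
  · unfold eM
    have h1 : ∑ i ∈ range N, (((ω ∘ σ) i : ℕ) : K) ^ 2 = ∑ i ∈ range N, (ω i : K) ^ 2 :=
      sum_perm_range N σ hσ (fun i => (ω i : K) ^ 2)
    have h2 : ∑ i ∈ range N, (((ω ∘ σ) i : ℕ) : K) = ∑ i ∈ range N, (ω i : K) :=
      sum_perm_range N σ hσ (fun i => (ω i : K))
    have h3 : 2 * ∑ i ∈ range N, ∑ j ∈ Ioo i N, ((min ((ω ∘ σ) i) ((ω ∘ σ) j) : ℕ) : K)
        = 2 * ∑ i ∈ range N, ∑ j ∈ Ioo i N, ((min (ω i) (ω j) : ℕ) : K) := by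
      rw [two_mul_pairs N (fun i j => ((min ((ω ∘ σ) i) ((ω ∘ σ) j) : ℕ) : K))
          (fun i j => by rw [min_comm]),
        two_mul_pairs N (fun i j => ((min (ω i) (ω j) : ℕ) : K))
          (fun i j => by rw [min_comm])]
      congr 1
      · have h4 : ∀ i, ∑ j ∈ range N, ((min ((ω ∘ σ) i) ((ω ∘ σ) j) : ℕ) : K)
            = ∑ j ∈ range N, ((min (ω (σ i)) (ω j) : ℕ) : K) := fun i =>
          sum_perm_range N σ hσ (fun j => ((min (ω (σ i)) (ω j) : ℕ) : K))
        simp only [h4]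
        exact sum_perm_range N σ hσ (fun i => ∑ j ∈ range N, ((min (ω i) (ω j) : ℕ) : K))
      · exact sum_perm_range N σ hσ (fun i => ((min (ω i) (ω i) : ℕ) : K))
    rw [h1, h2, h3]

end JSup
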