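import Pool.Agent.Helper204.JS.Defs
import Pool.Agent.Helper204.JS.Defs1

set_option linter.unusedSectionVars false

open MvPolynomial Finset

noncomputable section

namespace JSup
variable {K : Type} [Field K] [CharZero K] [Par K]



theorem yv_tilde_count (N k i : ℕ) (η : ℕ →₀ ℕ) (hi : i + k < N) :
    ((range i).filter (fun j => tilde N k η i ≤ tilde N k η j)).card +
      ((Ioo i N).filter (fun j => tilde N k η i < tilde N k η j)).card =
    ((range (k + i)).filter (fun j => η (k + i) ≤ η j)).card +
      ((Ioo (k + i) N).filter (fun j => η (k + i) < η j)).card := by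
  have hti : tilde N k η i = η (k + i) := by
    rw [tilde_apply, if_pos (by omega), Nat.add_comm]
  have hIoo : ∀ a : ℕ, Ioo a N = Ico (a + 1) N := by
    intro a; ext x; simp only [mem_Ioo, mem_Ico]; omega
  rw [hti, hIoo, hIoo]
  simp only [card_filter]
  have h1 : ∀ (f : ℕ → ℕ), ∑ j ∈ Ico (i + 1) N, f j =
      ∑ j ∈ range (N - k - (i + 1)), f (i + 1 + j) + ∑ j ∈ range k, f (N - k + j) := by
    intro f
    rw [← Finset.sum_Ico_consecutive f (show i + 1 ≤ N - k by omega) (show N - k ≤ N by omega),
      Finset.sum_Ico_eq_sum_range, Finset.sum_Ico_eq_sum_range]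
    have : N - (N - k) = k := by omega
    rw [this]
  have h2 : ∀ (f : ℕ → ℕ), ∑ j ∈ Ico (k + i + 1) N, f j =
      ∑ j ∈ range (N - k - (i + 1)), f (k + i + 1 + j) := by
    intro f
    rw [Finset.sum_Ico_eq_sum_range]
    have : N - (k + i + 1) = N - k - (i + 1) := by omega
    rw [this]
  rw [h1, h2, Finset.sum_range_add]
  have e1 : ∑ j ∈ range i, (if η (k + i) ≤ tilde N k η j then 1 else 0) =
      ∑ j ∈ range i, (if η (k + i) ≤ η (k + j) then 1 else 0) := by
    refine Finset.sum_congr rfl fun j hj => ?_
    have hj' := mem_range.1 hj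
    rw [tilde_apply, if_pos (show j < N - k by omega), Nat.add_comm j k]
  have e2 : ∑ j ∈ range (N - k - (i + 1)), (if η (k + i) < tilde N k η (i + 1 + j) then 1 else 0) =
      ∑ j ∈ range (N - k - (i + 1)), (if η (k + i) < η (k + i + 1 + j) then 1 else 0) := by
    refine Finset.sum_congr rfl fun j hj => ?_
    have hj' := mem_range.1 hj
    rw [tilde_apply, if_pos (show i + 1 + j < N - k by omega)]
    have : i + 1 + j + k = k + i + 1 + j := by omega
    rw [this]
  have e3 : ∑ j ∈ range k, (if η (k + i) < tilde N k η (N - k + j) then 1 else 0) =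
      ∑ j ∈ range k, (if η (k + i) ≤ η j then 1 else 0) := by
    refine Finset.sum_congr rfl fun j hj => ?_
    have hj' := mem_range.1 hj
    rw [tilde_apply, if_neg (show ¬ N - k + j < N - k by omega), if_pos (show N - k + j < N by omega)]
    have : N - k + j - (N - k) = j := by omega
    rw [this]
    simp only [Nat.lt_succ_iff]
  rw [e1, e2, e3]
  omega

/-- HINT: counting. -/
theorem yv_tilde (N k i : ℕ) (η : ℕ →₀ ℕ) (hi : i + k < N) :
    (yv N (tilde N k η) i : K) = yv N η (k + i) := by
  have h := yv_tilde_count N k i η hi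
  have h' := congrArg (fun n : ℕ => (n : K)) h
  simp only [Nat.cast_add] at h'
  have hti : tilde N k η i = η (k + i) := by
    rw [tilde_apply, if_pos (by omega), Nat.add_comm]
  unfold yv
  rw [sub_sub, sub_sub, h', hti]

end JSup
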