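import Pool.Agent.Helper204.JS.Defs
import Pool.Agent.Helper204.JS.Defs1
import Pool.Agent.Helper204.JS.P_Yop_Fp
import Pool.Agent.Helper204.JS.P_MM_rename
import Pool.Agent.Helper204.JS.P_MM_Fp
import Pool.Agent.Helper204.JS.P_II_eq
import Pool.Agent.Helper204.JS.P_sq_psm_perm
import Pool.Agent.Helper204.JS.P_II_rename
import Pool.Agent.Helper204.JS.P_MI_antis
import Pool.Agent.Helper204.JS.P_MI_symChain
import Pool.Agent.Helper204.JS.P_J_eq
import Pool.Agent.Helper204.JS.P_yv_tilde

set_option linter.unusedSectionVars false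

open MvPolynomial Finset

noncomputable section

namespace JSup
variable {K : Type} [Field K] [CharZero K] [Par K]



theorem eM_tilde_aux (N k : ℕ) (hk : k ≤ N) (η : ℕ →₀ ℕ) (hη : ∀ i, N ≤ i → η i = 0) :
    (eM N (tilde N k η) : K) = eM N (addOne k η) := by
  have h1 : (tilde N k η : ℕ → ℕ) = (addOne k η) ∘ (rot (N - k) k) := by
    funext i
    rw [Function.comp_apply, tilde_apply, rot_apply]
    unfold addOne
    by_cases h1 : i < N - k
    · have h2 : ¬ k + i < k := by omega
      rw [if_pos h1, if_pos h1, if_neg h2, add_comm]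
    · rw [if_neg h1, if_neg h1]
      by_cases h2 : i < N
      · have h3 : i < N - k + k := by omega
        have h4 : i - (N - k) < k := by omega
        rw [if_pos h2, if_pos h3, if_pos h4]
      · have h3 : ¬ i < N - k + k := by omega
        have h4 : ¬ i < k := by omega
        rw [if_neg h2, if_neg h3, if_neg h4, hη i (by omega)]
  have h2 := (sq_psm_perm (K := K) N (rot (N - k) k) (by
    intro i hi
    have h3 : ¬ i < N - k := by omega
    have h4 : ¬ i < N - k + k := by omega
    rw [rot_apply, if_neg h3, if_neg h4]) (addOne k η) 0).2.2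
  rw [h1, h2]

/-- HINT: `J_eq`, `MI_symChain`, `MM_rename`, `II_rename`, `MI_antis`, `MM_Fp`, `II_eq`, `Yop_Fp`, `yv_tilde`; and
`eM N (tilde N k η) = eM N (addOne k η)` by `sq_psm_perm` (`tilde N k η = addOne k η ∘ σ` with σ the rotation of
`[0,N)` by `k`). -/
theorem J_eigen (N k m : ℕ) (hN : k + m ≤ N) (η : ℕ →₀ ℕ) (hη : ∀ i, N ≤ i → η i = 0) :
    MM N (Jraw N k m η : MvPolynomial ℕ K) = (eM N (addOne k η) : K) • Jraw N k m η ∧
    II N m (Jraw N k m η : MvPolynomial ℕ K)
      = ((∑ i ∈ range m, yv N η (k + i) : K) + ((m.choose 2 : ℕ) : K)) • Jraw N k m η := by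
  obtain ⟨c, π, hπ1, hπ2, hJ⟩ := J_eq (K := K) N k m hN η hη
  have hη' : ∀ i, N ≤ i → tilde N k η i = 0 := by
    intro i hi
    rw [tilde_apply, if_neg (by omega), if_neg (by omega)]
  rw [hJ]
  constructor
  · rw [map_smul, (MI_symChain N m m k le_rfl (by omega) _).1, MM_rename N π hπ2,
      (MI_antis N m (by omega) _).1, MM_Fp N _ hη', map_smul, map_smul, map_smul,
      eM_tilde_aux N k (by omega) η hη, smul_comm]
  · have hII : II N m (Fp N (tilde N k η) : MvPolynomial ℕ K)
        = ((∑ i ∈ range m, yv N η (k + i) : K) + ((m.choose 2 : ℕ) : K)) • Fp N (tilde N k η) := by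
      rw [II_eq N m (by omega), add_smul]
      congr 1
      rw [Finset.sum_smul]
      apply Finset.sum_congr rfl
      intro i hi
      rw [Finset.mem_range] at hi
      rw [Yop_Fp N _ hη' i (by omega), yv_tilde N k i η (by omega)]
    rw [map_smul, (MI_symChain N m m k le_rfl (by omega) _).2,
      II_rename N m (by omega) π (fun i hi => by rw [hπ1 i hi]; exact hi) hπ2,
      (MI_antis N m (by omega) _).2, hII, map_smul, map_smul, map_smul, smul_comm]

end JSup
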