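import Pool.Agent.Helper204.JS.Defs

set_option linter.unusedSectionVars false

open MvPolynomial Finset

noncomputable section

namespace JSup
variable {K : Type} [Field K] [CharZero K] [Par K]


theorem FpH_varsLt_iff (N : ℕ) (f : MvPolynomial ℕ K) :
    VarsLt N f ↔ f ∈ MvPolynomial.supported K {k : ℕ | k < N} := by
  rw [MvPolynomial.mem_supported]
  rfl

theorem FpH_cyc_lt {N j k : ℕ} (hj : j < N) (hk : k < N) : cyc j k < N := by
  rw [cyc_apply]
  split_ifs <;> omega

theorem FpH_ee_vars {N j : ℕ} (hj : j < N) {f : MvPolynomial ℕ K}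
    (hf : f ∈ MvPolynomial.supported K {k : ℕ | k < N}) :
    ee j f ∈ MvPolynomial.supported K {k : ℕ | k < N} := by
  rw [ee_apply]
  refine mul_mem (MvPolynomial.X_mem_supported.mpr hj) ?_
  rw [MvPolynomial.mem_supported] at hf ⊢
  intro k hk
  have h1 := MvPolynomial.vars_rename (cyc j) f (by simpa using hk)
  rw [Finset.mem_image] at h1
  obtain ⟨a, ha, rfl⟩ := h1
  exact FpH_cyc_lt hj (hf (by simpa using ha))

theorem FpH_ee_homog {j n : ℕ} {f : MvPolynomial ℕ K} (hf : f.IsHomogeneous n) :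
    (ee j f).IsHomogeneous (n + 1) := by
  rw [ee_apply, add_comm n 1]
  exact (MvPolynomial.isHomogeneous_X K j).mul hf.rename_isHomogeneous

theorem FpH_smul_homog {n : ℕ} (c : K) {f : MvPolynomial ℕ K} (hf : f.IsHomogeneous n) :
    (c • f).IsHomogeneous n := by
  have h := (MvPolynomial.homogeneousSubmodule ℕ K n).smul_mem c
    ((MvPolynomial.mem_homogeneousSubmodule n f).mpr hf)
  exact (MvPolynomial.mem_homogeneousSubmodule n _).mp h

/-- HINT: `comp_induction`; `ee j` raises the degree by one. -/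
theorem Fp_homog (N : ℕ) (η : ℕ →₀ ℕ) (hη : ∀ k, N ≤ k → η k = 0) :
    (Fp N η : MvPolynomial ℕ K).IsHomogeneous (η.sum (fun _ n => n)) ∧ VarsLt N (Fp N η : MvPolynomial ℕ K) := by
  revert hη
  refine comp_induction (motive := fun η => (∀ k, N ≤ k → η k = 0) →
    (Fp N η : MvPolynomial ℕ K).IsHomogeneous (η.sum (fun _ n => n)) ∧
      VarsLt N (Fp N η : MvPolynomial ℕ K)) ?_ ?_ η
  · intro _
    rw [Fp_zero]
    refine ⟨?_, ?_⟩
    · simpa using MvPolynomial.isHomogeneous_one ℕ K
    · rw [FpH_varsLt_iff]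
      exact one_mem _
  · intro l η hl h0 ih hη
    have hlN : l < N := by
      by_contra h
      exact hl (hη l (by omega))
    have hst : ∀ k, N ≤ k → star l η k = 0 := by
      intro k hk
      rw [star_apply]
      have h1 : k ≠ 0 := by omega
      have h2 : ¬ k ≤ l := by omega
      simp [h1, h2]
    obtain ⟨ih1, ih2⟩ := ih hst
    rw [FpH_varsLt_iff] at ih2
    rw [Fp_step N l η hl h0, Psi_apply, ← star_sum l η hl h0, FpH_varsLt_iff]
    refine ⟨?_, ?_⟩
    · refine MvPolynomial.IsHomogeneous.add (FpH_smul_homog _ (FpH_ee_homog ih1)) ?_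
      exact MvPolynomial.IsHomogeneous.sum _ _ _ (fun k _ => FpH_ee_homog ih1)
    · refine add_mem (Subalgebra.smul_mem _ (FpH_ee_vars hlN ih2) _) ?_
      refine sum_mem (fun k hk => ?_)
      rw [Finset.mem_Ioo] at hk
      exact FpH_ee_vars hk.2 ih2

end JSup
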