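import Pool.Agent.Helper204.JS.Defs
import Pool.Agent.Helper204.JS.Defs1

set_option linter.unusedSectionVars false

open MvPolynomial Finset

noncomputable section

namespace JSup
variable {K : Type} [Field K] [CharZero K] [Par K]



theorem antis_swap_emb (a m : ℕ) (i' j' : Fin m) :
    emb a m (Equiv.swap i' j') = Equiv.swap (a + (i' : ℕ)) (a + (j' : ℕ)) := by
  ext k
  by_cases hk : k < a ∨ a + m ≤ k
  · rw [emb_out a m _ k hk, Equiv.swap_apply_of_ne_of_ne]
    · have := i'.2; omega
    · have := j'.2; omega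
  · obtain ⟨r, hr⟩ : ∃ r : Fin m, k = a + (r : ℕ) := ⟨⟨k - a, by omega⟩, by simp only; omega⟩
    subst hr
    rw [emb_in]
    by_cases h1 : r = i'
    · subst h1
      rw [Equiv.swap_apply_left, Equiv.swap_apply_left]
    · by_cases h2 : r = j'
      · subst h2
        rw [Equiv.swap_apply_right, Equiv.swap_apply_right]
      · rw [Equiv.swap_apply_of_ne_of_ne h1 h2, Equiv.swap_apply_of_ne_of_ne]
        · intro h
          apply h1
          ext
          omega
        · intro h
          apply h2
          ext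
          omega

theorem antis_swap_left (a m : ℕ) (s : Equiv.Perm (Fin m)) (hs : Equiv.Perm.sign s = -1)
    (f : MvPolynomial ℕ K) :
    rename (emb a m s) (antis a m f) = - antis a m f := by
  rw [antis_apply, map_sum]
  rw [← Equiv.sum_comp (Equiv.mulLeft s) (fun w : Equiv.Perm (Fin m) =>
    (((Equiv.Perm.sign w : ℤ)) : K) • rename (emb a m w) f), ← Finset.sum_neg_distrib]
  refine Finset.sum_congr rfl fun w _ => ?_
  rw [Equiv.coe_mulLeft, map_smul, rename_rename, Equiv.Perm.sign_mul, hs, map_mul,
    Equiv.Perm.coe_mul]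
  simp

theorem antis_swap_right (a m : ℕ) (s : Equiv.Perm (Fin m)) (hs : Equiv.Perm.sign s = -1)
    (f : MvPolynomial ℕ K) :
    antis a m (rename (emb a m s) f) = - antis a m f := by
  rw [antis_apply, antis_apply]
  rw [← Equiv.sum_comp (Equiv.mulRight s) (fun w : Equiv.Perm (Fin m) =>
    (((Equiv.Perm.sign w : ℤ)) : K) • rename (emb a m w) f), ← Finset.sum_neg_distrib]
  refine Finset.sum_congr rfl fun w _ => ?_
  rw [Equiv.coe_mulRight, rename_rename, Equiv.Perm.sign_mul, hs, map_mul,
    Equiv.Perm.coe_mul]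
  simp

/-- HINT: `emb a m (swap i' j') = swap (a+i') (a+j')`; reindex the sum by left / right multiplication. -/
theorem antis_swap (a m i j : ℕ) (hi : a ≤ i) (hij : i < j) (hj : j < a + m) (f : MvPolynomial ℕ K) :
    rename (Equiv.swap i j) (antis a m f) = - antis a m f ∧
    antis a m (rename (Equiv.swap i j) f) = - antis a m f ∧
    (rename (Equiv.swap i j) f = f → antis a m f = 0) := by
  obtain ⟨i', hi'⟩ : ∃ r : Fin m, i = a + (r : ℕ) := ⟨⟨i - a, by omega⟩, by simp only; omega⟩
  obtain ⟨j', hj'⟩ : ∃ r : Fin m, j = a + (r : ℕ) := ⟨⟨j - a, by omega⟩, by simp only; omega⟩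
  have hne : i' ≠ j' := by
    intro h
    rw [h] at hi'
    omega
  have hs : Equiv.Perm.sign (Equiv.swap i' j') = -1 := Equiv.Perm.sign_swap hne
  have he : Equiv.swap i j = emb a m (Equiv.swap i' j') := by
    rw [antis_swap_emb, hi', hj']
  have h1 : rename (Equiv.swap i j) (antis a m f) = - antis a m f := by
    rw [he]
    exact antis_swap_left a m _ hs f
  have h2 : antis a m (rename (Equiv.swap i j) f) = - antis a m f := by
    rw [he]
    exact antis_swap_right a m _ hs f
  refine ⟨h1, h2, ?_⟩
  intro hf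
  rw [hf] at h2
  exact self_eq_neg.mp h2

end JSup
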