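import Pool.Agent.Helper204.JS.Defs
import Pool.Agent.Helper204.JS.Defs1
import Pool.Agent.Helper204.JS.P_symOn_of_adj

set_option linter.unusedSectionVars false

open MvPolynomial Finset

noncomputable section

namespace JSup
variable {K : Type} [Field K] [CharZero K] [Par K]



theorem symStep_mem (p N : ℕ) (σ : Equiv.Perm ℕ) (hσ : ∀ k, (k < p ∨ N ≤ k) → σ k = k) (j : ℕ)
    (hj : j ∈ Ico p N) : σ j ∈ Ico p N := by
  by_contra h
  rw [mem_Ico] at hj h
  have h1 : σ (σ j) = σ j := hσ _ (by omega)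
  have h2 : σ j = j := σ.injective h1
  omega

/-- HINT: `symOn_of_adj`; for `s_i` with `i > p`: `s_i s_{pj} = s_{p, s_i j} s_i` and `s_i f = f`; for `i = p`:
`s_p s_{p,j}`: the terms `j = p` and `j = p+1` are exchanged, for `j > p+1`: `s_p s_{pj} = s_{pj} s_{p+1,j}` and
`s_{p+1,j} f = f`. -/
theorem symStep_sym (N p : ℕ) (hp : p < N) (f : MvPolynomial ℕ K) (hf : SymOn (p + 1) N f) :
    SymOn p N (symStep N p f) := by
  intro σ hσ
  rw [symStep_apply, map_sum]
  have hσs : ∀ k, (k < p ∨ N ≤ k) → σ.symm k = k := by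
    intro k hk
    rw [Equiv.symm_apply_eq]
    exact (hσ k hk).symm
  have hkey : ∀ j ∈ Ico p N,
      rename σ (rename (Equiv.swap p j) f) = rename (Equiv.swap p (σ j)) f := by
    intro j hj
    have hσj := symStep_mem p N σ hσ j hj
    obtain ⟨τ, hτ⟩ : ∃ τ : Equiv.Perm ℕ,
        τ = (Equiv.swap p j).trans (σ.trans (Equiv.swap p (σ j))) := ⟨_, rfl⟩
    have hτa : ∀ k, τ k = Equiv.swap p (σ j) (σ (Equiv.swap p j k)) := by
      intro k
      rw [hτ]
      rfl
    have hfix : rename τ f = f := by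
      refine hf τ fun k hk => ?_
      rw [hτa]
      rw [mem_Ico] at hj hσj
      by_cases hkp : k = p
      · rw [hkp, Equiv.swap_apply_left, Equiv.swap_apply_right]
      · have h1 : k ≠ j := by omega
        have h2 : k ≠ σ j := by omega
        rw [Equiv.swap_apply_of_ne_of_ne hkp h1, hσ k (by omega),
          Equiv.swap_apply_of_ne_of_ne hkp h2]
    have hcomp : (⇑(Equiv.swap p (σ j)) ∘ ⇑τ) = ⇑σ ∘ ⇑(Equiv.swap p j) := by
      funext k
      change Equiv.swap p (σ j) (τ k) = σ (Equiv.swap p j k)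
      rw [hτa, Equiv.swap_apply_self]
    calc rename σ (rename (Equiv.swap p j) f)
        = rename (⇑σ ∘ ⇑(Equiv.swap p j)) f := rename_rename _ _ f
      _ = rename (⇑(Equiv.swap p (σ j)) ∘ ⇑τ) f := by rw [hcomp]
      _ = rename (Equiv.swap p (σ j)) (rename τ f) := (rename_rename _ _ f).symm
      _ = rename (Equiv.swap p (σ j)) f := by rw [hfix]
  rw [Finset.sum_congr rfl hkey]
  refine Finset.sum_nbij' (fun j => σ j) (fun j => σ.symm j) (fun j hj => symStep_mem p N σ hσ j hj)
    (fun j hj => symStep_mem p N σ.symm hσs j hj) (fun j _ => σ.symm_apply_apply j)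
    (fun j _ => σ.apply_symm_apply j) (fun j _ => rfl)

end JSup
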