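import Pool.Agent.Helper204.JS.Defs
import Pool.Agent.Helper204.JS.Defs1
import Pool.Agent.Helper204.JS.P_symStep_sym

set_option linter.unusedSectionVars false

open MvPolynomial Finset

noncomputable section

namespace JSup
variable {K : Type} [Field K] [CharZero K] [Par K]



theorem symChain_sym (N p k : ℕ) (hp : p + k ≤ N) (f : MvPolynomial ℕ K) (hf : SymOn (p + k) N f) :
    SymOn p N (symChain N p k f) := by
  induction k generalizing p with
  | zero => exact hf
  | succ k ih =>
    have h1 : SymOn (p + 1) N (symChain N (p + 1) k f) := by
      apply ih (p + 1) (by omega)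
      have e : p + 1 + k = p + (k + 1) := by omega
      rw [e]
      exact hf
    exact symStep_sym N p (by omega) _ h1

end JSup
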