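import Pool.Agent.Helper204.JS.Defs
import Pool.Agent.Helper204.JS.Defs1
import Pool.Agent.Helper204.JS.P_Fp_sym
import Pool.Agent.Helper204.JS.P_Fp_homog
import Pool.Agent.Helper204.JS.P_antis_conj
import Pool.Agent.Helper204.JS.P_antis_mul
import Pool.Agent.Helper204.JS.P_antis_swap
import Pool.Agent.Helper204.JS.P_symChain_sym

set_option linter.unusedSectionVars false

open MvPolynomial Finset

noncomputable section

namespace JSup
variable {K : Type} [Field K] [CharZero K] [Par K]



/-- homogeneous of degree `d` in the first `N` variables. -/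
def jJW (K : Type) [Field K] (N d : ℕ) : Submodule K (MvPolynomial ℕ K) :=
  homogeneousSubmodule ℕ K d ⊓ Subalgebra.toSubmodule (supported K {k : ℕ | k < N})

theorem j_mem' (N d : ℕ) (f : MvPolynomial ℕ K) :
    f ∈ jJW K N d ↔ f.IsHomogeneous d ∧ f ∈ supported K {k : ℕ | k < N} := by
  unfold jJW
  rw [Submodule.mem_inf, mem_homogeneousSubmodule, Subalgebra.mem_toSubmodule]

theorem j_mem (N d : ℕ) (f : MvPolynomial ℕ K) :
    f ∈ jJW K N d ↔ f.IsHomogeneous d ∧ VarsLt N f := by
  rw [j_mem', mem_supported]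
  constructor
  · rintro ⟨h1, h2⟩
    exact ⟨h1, fun k hk => h2 hk⟩
  · rintro ⟨h1, h2⟩
    exact ⟨h1, fun k hk => h2 k hk⟩

theorem j_ren (N d : ℕ) (σ : Equiv.Perm ℕ) (hσ : ∀ k, N ≤ k → σ k = k) (f : MvPolynomial ℕ K)
    (hf : f ∈ jJW K N d) : rename σ f ∈ jJW K N d := by
  classical
  rw [j_mem] at hf ⊢
  refine ⟨hf.1.rename_isHomogeneous, ?_⟩
  intro k hk
  have h1 := vars_rename (σ : ℕ → ℕ) f hk
  obtain ⟨i, hi, rfl⟩ := Finset.mem_image.mp h1
  have h2 := hf.2 i hi
  by_contra h3
  have h4 := hσ (σ i) (by omega)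
  have h5 := σ.injective h4
  omega

theorem j_symStep (N p d : ℕ) (f : MvPolynomial ℕ K) (hf : f ∈ jJW K N d) :
    symStep N p f ∈ jJW K N d := by
  rw [symStep_apply]
  apply Submodule.sum_mem
  intro j hj
  rw [Finset.mem_Ico] at hj
  apply j_ren _ _ _ _ _ hf
  intro k hk
  exact Equiv.swap_apply_of_ne_of_ne (by omega) (by omega)

theorem j_symChain (N d : ℕ) : ∀ (k p : ℕ) (f : MvPolynomial ℕ K), f ∈ jJW K N d →
    symChain N p k f ∈ jJW K N d := by
  intro k
  induction k with
  | zero => intro p f h; simpa [symChain] using h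
  | succ k ih =>
    intro p f h
    exact j_symStep N p d _ (ih (p + 1) f h)

theorem j_antis (N d a m : ℕ) (h : a + m ≤ N) (f : MvPolynomial ℕ K) (hf : f ∈ jJW K N d) :
    antis a m f ∈ jJW K N d := by
  rw [antis_apply]
  apply Submodule.sum_mem
  intro w _
  apply Submodule.smul_mem
  apply j_ren _ _ _ _ _ hf
  intro k hk
  exact emb_out a m w k (Or.inr (by omega))

theorem j_prod (N k m : ℕ) (h : k + m ≤ N) :
    (∏ i ∈ range k, X (m + i) : MvPolynomial ℕ K) ∈ jJW K N k := by
  rw [j_mem']
  constructor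
  · have h1 := IsHomogeneous.prod (range k) (fun i => (X (m + i) : MvPolynomial ℕ K))
      (fun _ => 1) (fun i _ => isHomogeneous_X K (m + i))
    simpa using h1
  · apply Subalgebra.prod_mem
    intro i hi
    rw [Finset.mem_range] at hi
    apply X_mem_supported.mpr
    show m + i < N
    omega

theorem j_mul (N a b : ℕ) (f g : MvPolynomial ℕ K) (hf : f ∈ jJW K N a) (hg : g ∈ jJW K N b) :
    f * g ∈ jJW K N (a + b) := by
  rw [j_mem'] at hf hg ⊢
  exact ⟨hf.1.mul hg.1, Subalgebra.mul_mem _ hf.2 hg.2⟩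

theorem j_alt_symStep (N p m : ℕ) (hp : m ≤ p) (f : MvPolynomial ℕ K) (hf : AltOn 0 m f) :
    AltOn 0 m (symStep N p f) := by
  intro i j h0 hij hj
  rw [symStep_apply, map_sum, ← Finset.sum_neg_distrib]
  apply Finset.sum_congr rfl
  intro q hq
  rw [Finset.mem_Ico] at hq
  rw [rename_rename]
  have h1 : (Equiv.swap i j : ℕ → ℕ) ∘ (Equiv.swap p q) =
      (Equiv.swap p q : ℕ → ℕ) ∘ (Equiv.swap i j) := by
    funext x
    simp only [Function.comp_apply, Equiv.swap_apply_def]
    split_ifs <;> omega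
  rw [h1, ← rename_rename, hf i j h0 hij hj, map_neg]

theorem j_alt_symChain (N m : ℕ) : ∀ (k p : ℕ), m ≤ p → ∀ f : MvPolynomial ℕ K, AltOn 0 m f →
    AltOn 0 m (symChain N p k f) := by
  intro k
  induction k with
  | zero => intro p _ f h; simpa [symChain] using h
  | succ k ih =>
    intro p hp f h
    exact j_alt_symStep N p m hp _ (ih (p + 1) (by omega) f h)

theorem j_prod_ren (k m : ℕ) (σ : Equiv.Perm ℕ) (hσ : ∀ i, i < k → σ (m + i) = m + i) :
    rename σ (∏ i ∈ range k, X (m + i) : MvPolynomial ℕ K) = ∏ i ∈ range k, X (m + i) := by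
  rw [map_prod]
  apply Finset.prod_congr rfl
  intro i hi
  rw [Finset.mem_range] at hi
  rw [rename_X, hσ i hi]

theorem j_alt_base (N k m : ℕ) (c : K) (F : MvPolynomial ℕ K) :
    AltOn 0 m ((∏ i ∈ range k, X (m + i)) * rename (rot k m) (c • antis k m F)) := by
  intro i j h0 hij hj
  rw [map_mul, j_prod_ren k m (Equiv.swap i j)
    (fun x hx => Equiv.swap_apply_of_ne_of_ne (by omega) (by omega)), rename_rename]
  have h1 : (Equiv.swap i j : ℕ → ℕ) ∘ (rot k m) =
      (rot k m : ℕ → ℕ) ∘ (Equiv.swap (k + i) (k + j)) := by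
    funext x
    simp only [Function.comp_apply, Equiv.swap_apply_def, rot_apply]
    split_ifs <;> omega
  rw [h1, ← rename_rename, map_smul (rename (Equiv.swap (k + i) (k + j))),
    (antis_swap k m (k + i) (k + j) (by omega) (by omega) (by omega) F).1, smul_neg, map_neg,
    mul_neg]

theorem j_sym_base (N k m : ℕ) (c : K) (F : MvPolynomial ℕ K) (hF : SymOn (k + m) N F) :
    SymOn (m + k) N ((∏ i ∈ range k, X (m + i)) * rename (rot k m) (c • antis k m F)) := by
  intro σ hσ
  have hσ' : ∀ x, x < m + k → σ x = x := fun x hx => hσ x (Or.inl hx)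
  rw [map_mul, j_prod_ren k m σ (fun x hx => hσ' _ (by omega)), rename_rename]
  have h1 : (σ : ℕ → ℕ) ∘ (rot k m) = (rot k m : ℕ → ℕ) ∘ σ := by
    funext x
    simp only [Function.comp_apply]
    by_cases hx : x < m + k
    · rw [hσ' x hx]
      apply hσ'
      rw [rot_apply]
      split_ifs <;> omega
    · have h2 : ¬ σ x < m + k := by
        intro h3
        have h4 := σ.injective (hσ' _ h3)
        omega
      have h5 : rot k m x = x := by
        rw [rot_apply]; split_ifs <;> omega
      have h6 : rot k m (σ x) = σ x := by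
        rw [rot_apply]; split_ifs <;> omega
      rw [h5, h6]
  rw [h1, ← rename_rename, map_smul (rename σ),
    antis_conj k k m σ (fun i hi => hσ' _ (by omega)) F,
    hF σ (fun x hx => hσ x (by rcases hx with h | h <;> omega))]

/-- HINT: symmetry: `symChain_sym`; the argument of `symChain` is symmetric in positions `≥ k+m`: `Fp_sym` with
`l = k+m-1` (for `k+m = 0`: η = 0, `Fp_zero`), `antis` and `rename (rot k m)` commute with permutations of positions
`≥ k+m` (`antis_conj`), the monomial prefactor is invariant. Antisymmetry: `antis_swap`, `rot k m` maps `[k,k+m)` to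
`[0,m)` monotonically; `symStep N p`, `p ≥ m`, commutes with permutations of `[0,m)`. Degree and variables:
`Fp_homog`; `rename` by a permutation fixing `≥ N` preserves degree and `VarsLt`. -/
theorem J_inU (N k m : ℕ) (hN : k + m ≤ N) (η : ℕ →₀ ℕ) (h0 : ∀ i, k + m ≤ i → η i = 0) :
    AltOn 0 m (Jraw N k m η : MvPolynomial ℕ K) ∧ SymOn m N (Jraw N k m η : MvPolynomial ℕ K) ∧
    (Jraw N k m η : MvPolynomial ℕ K).IsHomogeneous (η.sum (fun _ n => n) + k) ∧
    VarsLt N (Jraw N k m η : MvPolynomial ℕ K) := by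
  have hη : ∀ i, N ≤ i → η i = 0 := fun i hi => h0 i (by omega)
  have hF : (Fp N η : MvPolynomial ℕ K) ∈ jJW K N (η.sum (fun _ n => n)) :=
    (j_mem _ _ _).mpr (Fp_homog N η hη)
  have hSym : SymOn (k + m) N (Fp N η : MvPolynomial ℕ K) := by
    rcases Nat.eq_zero_or_pos (k + m) with hz | hz
    · have : η = 0 := by
        ext i
        exact h0 i (by omega)
      rw [this, Fp_zero]
      intro σ _
      rw [map_one]
    · have h1 := Fp_sym (K := K) N (k + m - 1) η (fun i hi => h0 i (by omega))
      have h2 : k + m - 1 + 1 = k + m := by omega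
      rw [h2] at h1
      exact h1
  refine ⟨?_, ?_, ?_⟩
  · exact j_alt_symChain N m k m le_rfl _ (j_alt_base N k m _ _)
  · exact symChain_sym N m k (by omega) _ (j_sym_base N k m _ _ hSym)
  · rw [← j_mem]
    apply j_symChain
    rw [add_comm]
    apply j_mul
    · exact j_prod N k m hN
    · apply j_ren
      · intro x hx
        rw [rot_apply]
        split_ifs <;> omega
      · apply Submodule.smul_mem
        exact j_antis N _ k m hN _ hF

end JSup
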