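import Pool.Agent.Helper204.JS.Defs
import Pool.Agent.Helper204.JS.Defs1

set_option linter.unusedSectionVars false

open MvPolynomial Finset

noncomputable section

namespace JSup
variable {K : Type} [Field K] [CharZero K] [Par K]



/-- HINT: strict monotonicity of the key `(sq, Σ_{k≤N} psm k)` in lexicographic order. If `sq ω = sq ν` and all
partial sums are ≤ and their total is equal, then all partial sums are equal, so `ω = ν` on `[0,N)`. -/
theorem CLe_strict (N : ℕ) (ω ν : ℕ → ℕ) (h : CLe N ω ν) (hne : ∃ k, k < N ∧ ω k ≠ ν k) :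
    sq N ω < sq N ν ∨ (sq N ω = sq N ν ∧ ∑ k ∈ range (N + 1), psm k ω < ∑ k ∈ range (N + 1), psm k ν) := by
  rcases h.2 with h1 | ⟨h1, h2⟩
  · exact Or.inl h1
  · refine Or.inr ⟨h1, ?_⟩
    apply Finset.sum_lt_sum
    · intro k hk
      rw [mem_range] at hk
      exact h2 k (by omega)
    · by_contra hcon
      push Not at hcon
      obtain ⟨k, hk, hne⟩ := hne
      have e1 : psm k ω = psm k ν :=
        le_antisymm (h2 k (by omega)) (hcon k (mem_range.2 (by omega)))
      have e2 : psm (k + 1) ω = psm (k + 1) ν :=
        le_antisymm (h2 (k + 1) (by omega)) (hcon (k + 1) (mem_range.2 (by omega)))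
      simp only [psm, Finset.sum_range_succ] at e1 e2
      omega

end JSup
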