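import Pool.Agent.Helper204.JS.Defs
import Pool.Agent.Helper204.JS.Defs1

set_option linter.unusedSectionVars false

open MvPolynomial Finset

noncomputable section

namespace JSup
variable {K : Type} [Field K] [CharZero K] [Par K]



theorem CLe_trans (N : ℕ) (a b c : ℕ → ℕ) (h1 : CLe N a b) (h2 : CLe N b c) : CLe N a c := by
  refine ⟨fun t => (h1.1 t).trans (h2.1 t), ?_⟩
  rcases h1.2 with h | ⟨h, h'⟩
  · rcases h2.2 with g | ⟨g, _⟩
    · exact Or.inl (h.trans g)
    · exact Or.inl (g ▸ h)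
  · rcases h2.2 with g | ⟨g, g'⟩
    · exact Or.inl (h ▸ g)
    · exact Or.inr ⟨h.trans g, fun k hk => (h' k hk).trans (g' k hk)⟩

end JSup
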