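import Pool.Agent.Helper204.JS.Defs
import Pool.Agent.Helper204.JS.Defs1

set_option linter.unusedSectionVars false

open MvPolynomial Finset

noncomputable section

namespace JSup
variable {K : Type} [Field K] [CharZero K] [Par K]



theorem sum_two849 (N i j : ℕ) (hij : i < j) (hj : j < N) (ω ν : ℕ → ℕ)
    (hoff : ∀ k, k ≠ i → k ≠ j → ω k = ν k) (F : ℕ → ℕ) :
    ∑ k ∈ range N, F (ω k) + (F (ν i) + F (ν j)) =
      ∑ k ∈ range N, F (ν k) + (F (ω i) + F (ω j)) := by
  have hi : i ∈ range N := mem_range.mpr (hij.trans hj)
  have hj' : j ∈ (range N).erase i := mem_erase.mpr ⟨hij.ne', mem_range.mpr hj⟩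
  rw [← Finset.add_sum_erase _ _ hi, ← Finset.add_sum_erase _ _ hj',
    ← Finset.add_sum_erase (range N) (fun k => F (ν k)) hi,
    ← Finset.add_sum_erase ((range N).erase i) (fun k => F (ν k)) hj']
  have h1 : ∑ k ∈ ((range N).erase i).erase j, F (ω k) =
      ∑ k ∈ ((range N).erase i).erase j, F (ν k) := by
    refine Finset.sum_congr rfl fun k hk => ?_
    rw [mem_erase, mem_erase] at hk
    rw [hoff k hk.2.1 hk.1]
  rw [h1]
  ring

/-- HINT: two kinds of moves on positions `i < j < N`: squeeze (both new values strictly between) and moving the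
larger value to the right. `hth`: for each `t`, `(c-t)+(d-t) ≤ (a-t)+(b-t)` (truncated) when `c+d = a+b` and
`min ≤ c,d ≤ max`; `sq`: `c² + d² < a² + b²` for a strict squeeze, equality for the swap; partial sums: for the swap
with `ν_i > ν_j` the partial sums up to `k` with `i < k ≤ j` decrease by `ν_i - ν_j`, the others are equal. -/
theorem CLe_move (N i j : ℕ) (hij : i < j) (hj : j < N) (ω ν : ℕ → ℕ)
    (hoff : ∀ k, k ≠ i → k ≠ j → ω k = ν k) (hsum : ω i + ω j = ν i + ν j)
    (h : (min (ν i) (ν j) < ω i ∧ ω i < max (ν i) (ν j)) ∨ (ν j < ν i ∧ ω i = ν j)) :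
    CLe N ω ν := by
  constructor
  · intro t
    have h1 := sum_two849 N i j hij hj ω ν hoff (fun x => x - t)
    try simp only at h1
    have h2 : (ω i - t) + (ω j - t) ≤ (ν i - t) + (ν j - t) := by
      rcases h with ⟨ha, hb⟩ | ⟨ha, hb⟩
      · rcases le_total (ν i) (ν j) with hle | hle
        · rw [min_eq_left hle] at ha
          rw [max_eq_right hle] at hb
          omega
        · rw [min_eq_right hle] at ha
          rw [max_eq_left hle] at hb
          omega
      · omega
    unfold hth
    omega
  · have h1 := sum_two849 N i j hij hj ω ν hoff (fun x => x ^ 2)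
    try simp only at h1
    rcases h with ⟨ha, hb⟩ | ⟨ha, hb⟩
    · left
      have h2 : (ω i) ^ 2 + (ω j) ^ 2 < (ν i) ^ 2 + (ν j) ^ 2 := by
        rcases le_total (ν i) (ν j) with hle | hle
        · rw [min_eq_left hle] at ha
          rw [max_eq_right hle] at hb
          zify at *
          have h3 : (ω j : ℤ) = ν i + ν j - ω i := by linarith
          rw [h3]
          nlinarith [mul_pos (sub_pos.mpr ha) (sub_pos.mpr hb)]
        · rw [min_eq_right hle] at ha
          rw [max_eq_left hle] at hb
          zify at *
          have h3 : (ω j : ℤ) = ν i + ν j - ω i := by linarith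
          rw [h3]
          nlinarith [mul_pos (sub_pos.mpr ha) (sub_pos.mpr hb)]
      unfold sq
      omega
    · right
      have hb' : ω j = ν i := by omega
      constructor
      · unfold sq
        rw [hb, hb'] at h1
        omega
      · intro k _
        unfold psm
        rcases lt_or_ge j k with hjk | hjk
        · have h3 := sum_two849 k i j hij hjk ω ν hoff (fun x => x)
          try simp only at h3
          omega
        · refine Finset.sum_le_sum fun l hl => ?_
          have hl' : l < k := mem_range.mp hl
          by_cases hli : l = i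
          · rw [hli, hb]
            exact ha.le
          · rw [hoff l hli (by omega)]

end JSup
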