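import Pool.Agent.Helper204.JS.Defs
import Pool.Agent.Helper204.JS.Defs1

set_option linter.unusedSectionVars false

open MvPolynomial Finset

noncomputable section

namespace JSup
variable {K : Type} [Field K] [CharZero K] [Par K]



theorem ddm_tele (i j : ℕ) (hij : i ≠ j) (ν : ℕ →₀ ℕ) (a b : ℕ) (h : b ≤ a) :
    (X i - X j) * ∑ c ∈ range (a - b), (monomial ((ν.update i (a - 1 - c)).update j (b + c)) (1 : K)) =
      monomial ((ν.update i a).update j b) 1 - monomial ((ν.update i b).update j a) 1 := by
  have h1 : ∀ c ∈ range (a - b),
      (X i - X j) * (monomial ((ν.update i (a - 1 - c)).update j (b + c)) (1 : K)) =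
        monomial ((ν.update i (a - c)).update j (b + c)) (1 : K) -
          monomial ((ν.update i (a - (c + 1))).update j (b + (c + 1))) (1 : K) := by
    intro c hc
    rw [mem_range] at hc
    rw [sub_mul]
    congr 1
    · rw [X, monomial_mul, one_mul]
      refine congrArg (fun d => monomial d (1 : K)) ?_
      ext k
      rw [Finsupp.add_apply, Finsupp.update_apply, Finsupp.update_apply, Finsupp.update_apply,
        Finsupp.update_apply, Finsupp.single_apply]
      by_cases hk : k = j
      · subst hk
        simp [hij]
      · by_cases hk2 : k = i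
        · subst hk2
          simp only [if_true, hk, if_false]
          omega
        · simp [hk, hk2, Ne.symm hk2]
    · rw [X, monomial_mul, one_mul]
      refine congrArg (fun d => monomial d (1 : K)) ?_
      ext k
      rw [Finsupp.add_apply, Finsupp.update_apply, Finsupp.update_apply, Finsupp.update_apply,
        Finsupp.update_apply, Finsupp.single_apply]
      by_cases hk : k = j
      · subst hk
        simp only [if_true]
        omega
      · by_cases hk2 : k = i
        · subst hk2
          simp only [if_true, hk, if_false, Ne.symm hk]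
          omega
        · simp [hk, hk2, Ne.symm hk]
  rw [Finset.mul_sum, Finset.sum_congr rfl h1, Finset.sum_range_sub']
  rw [Nat.sub_sub_self h, Nat.add_sub_of_le h, Nat.sub_zero, Nat.add_zero]

/-- HINT: `dd_unique`; geometric sum `(x-y) Σ_{c<d} x^{d-1-c} y^c = x^d - y^d`. The second statement follows from the
first by symmetry or is proved in the same way. -/
theorem dd_monomial (i j : ℕ) (hij : i ≠ j) (ν : ℕ →₀ ℕ) :
    (ν j ≤ ν i → dd i j (monomial ν (1 : K))
      = ∑ c ∈ range (ν i - ν j), monomial ((ν.update i (ν i - 1 - c)).update j (ν j + c)) 1) ∧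
    (ν i ≤ ν j → dd i j (monomial ν (1 : K))
      = - ∑ c ∈ range (ν j - ν i), monomial ((ν.update i (ν j - 1 - c)).update j (ν i + c)) 1) := by
  have hself : (ν.update i (ν i)).update j (ν j) = ν := by
    ext k
    rw [Finsupp.update_apply, Finsupp.update_apply]
    by_cases hk : k = j
    · simp [hk]
    · by_cases hk2 : k = i
      · subst hk2; simp [hk]
      · simp [hk, hk2]
  have hswap : rename (Equiv.swap i j) (monomial ν (1 : K)) =
      monomial ((ν.update i (ν j)).update j (ν i)) (1 : K) := by
    rw [rename_monomial]
    refine congrArg (fun d => monomial d (1 : K)) ?_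
    ext k
    rw [Finsupp.mapDomain_equiv_apply, Equiv.symm_swap, Finsupp.update_apply, Finsupp.update_apply]
    by_cases hk : k = j
    · subst hk; simp
    · by_cases hk2 : k = i
      · subst hk2; simp [hk]
      · rw [Equiv.swap_apply_of_ne_of_ne hk2 hk]
        simp [hk, hk2]
  constructor
  · intro h
    apply dd_unique hij
    rw [ddm_tele i j hij ν (ν i) (ν j) h, hself, hswap]
  · intro h
    apply dd_unique hij
    rw [mul_neg, ddm_tele i j hij ν (ν j) (ν i) h, hself, hswap, neg_sub]

end JSup
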