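import Pool.Agent.Helper204.JS.Defs
import Pool.Agent.Helper204.JS.Defs1
import Pool.Agent.Helper204.JS.P_dd_monomial

set_option linter.unusedSectionVars false

open MvPolynomial Finset

noncomputable section

namespace JSup
variable {K : Type} [Field K] [CharZero K] [Par K]



theorem X_mul_mono918 (i j : ℕ) (hij : i ≠ j) (ν : ℕ →₀ ℕ) (a b : ℕ) :
    (X j : MvPolynomial ℕ K) * monomial ((ν.update i a).update j b) 1 =
      monomial ((ν.update i a).update j (b + 1)) 1 := by
  have key : Finsupp.single j 1 + (ν.update i a).update j b =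
      (ν.update i a).update j (b + 1) := by
    ext k
    by_cases hk : k = j
    · subst hk
      simp [add_comm]
    · simp [Finsupp.update_apply, Function.update_apply, hk, Finsupp.single_apply, Ne.symm hk]
  rw [X, monomial_mul, one_mul, key]

theorem upd_spec918 (i j : ℕ) (hij : i ≠ j) (ν : ℕ →₀ ℕ) (a b : ℕ) :
    ((ν.update i a).update j b) i = a ∧ ((ν.update i a).update j b) j = b ∧
    ∀ k, k ≠ i → k ≠ j → ((ν.update i a).update j b) k = ν k := by
  refine ⟨?_, ?_, ?_⟩
  · simp [Finsupp.update_apply, hij]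
  · simp [Finsupp.update_apply]
  · intro k h1 h2
    simp [Finsupp.update_apply, h1, h2]

/-- HINT: the operator `x_j ∂_{ij}` on `x^ν` (used for `j > i`), from `dd_monomial`. The exponents of `x_i` occurring are
`ν_j,…,ν_i - 1` (if `ν_i > ν_j`), `ν_i,…,ν_j-1` (if `ν_i < ν_j`, sign `-`). -/
theorem coeff_dd_gt (i j : ℕ) (hij : i ≠ j) (ν : ℕ →₀ ℕ) :
    coeff ν (X j * dd i j (monomial ν (1 : K))) = (if ν i < ν j then -1 else 0) ∧
    (∀ ω, coeff ω (X j * dd i j (monomial ν (1 : K))) ≠ 0 →
      (∀ k, k ≠ i → k ≠ j → ω k = ν k) ∧ ω i + ω j = ν i + ν j ∧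
      ((ν j < ν i ∧ ν j ≤ ω i ∧ ω i < ν i) ∨ (ν i < ν j ∧ ν i ≤ ω i ∧ ω i < ν j))) := by
  classical
  obtain ⟨hA, hB⟩ := dd_monomial (K := K) i j hij ν
  by_cases hle : ν j ≤ ν i
  · have hnot : ¬ ν i < ν j := by omega
    rw [hA hle, Finset.mul_sum]
    rw [Finset.sum_congr rfl fun c _ => X_mul_mono918 i j hij ν (ν i - 1 - c) (ν j + c)]
    constructor
    · rw [if_neg hnot, coeff_sum]
      refine Finset.sum_eq_zero fun c hc => ?_
      rw [coeff_monomial, if_neg]
      intro h
      have h1 := (upd_spec918 i j hij ν (ν i - 1 - c) (ν j + c + 1)).2.1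
      rw [h] at h1
      omega
    · intro ω hω
      rw [coeff_sum] at hω
      obtain ⟨c, hc, h1⟩ := Finset.exists_ne_zero_of_sum_ne_zero hω
      rw [coeff_monomial] at h1
      have h2 : (ν.update i (ν i - 1 - c)).update j (ν j + c + 1) = ω := by
        by_contra h3
        rw [if_neg h3] at h1
        exact h1 rfl
      obtain ⟨h3, h4, h5⟩ := upd_spec918 i j hij ν (ν i - 1 - c) (ν j + c + 1)
      rw [h2] at h3 h4 h5
      have hc' := Finset.mem_range.mp hc
      refine ⟨h5, by omega, Or.inl ⟨by omega, by omega, by omega⟩⟩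
  · have hlt : ν i < ν j := by omega
    rw [hB hlt.le, mul_neg, Finset.mul_sum]
    rw [Finset.sum_congr rfl fun c _ => X_mul_mono918 i j hij ν (ν j - 1 - c) (ν i + c)]
    constructor
    · rw [if_pos hlt, coeff_neg, coeff_sum]
      congr 1
      rw [Finset.sum_eq_single (ν j - ν i - 1)]
      · rw [coeff_monomial, if_pos]
        ext k
        obtain ⟨h3, h4, h5⟩ := upd_spec918 i j hij ν (ν j - 1 - (ν j - ν i - 1))
          (ν i + (ν j - ν i - 1) + 1)
        by_cases hk : k = i
        · subst hk
          rw [h3]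
          omega
        · by_cases hk2 : k = j
          · subst hk2
            rw [h4]
            omega
          · exact h5 k hk hk2
      · intro c hc hne
        rw [coeff_monomial, if_neg]
        intro h
        have h1 := (upd_spec918 i j hij ν (ν j - 1 - c) (ν i + c + 1)).2.1
        rw [h] at h1
        omega
      · intro h
        exfalso
        apply h
        rw [Finset.mem_range]
        omega
    · intro ω hω
      rw [coeff_neg, coeff_sum] at hω
      have hω' := neg_ne_zero.mp hω
      obtain ⟨c, hc, h1⟩ := Finset.exists_ne_zero_of_sum_ne_zero hω'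
      rw [coeff_monomial] at h1
      have h2 : (ν.update i (ν j - 1 - c)).update j (ν i + c + 1) = ω := by
        by_contra h3
        rw [if_neg h3] at h1
        exact h1 rfl
      obtain ⟨h3, h4, h5⟩ := upd_spec918 i j hij ν (ν j - 1 - c) (ν i + c + 1)
      rw [h2] at h3 h4 h5
      have hc' := Finset.mem_range.mp hc
      refine ⟨h5, by omega, Or.inr ⟨by omega, by omega, by omega⟩⟩

end JSup
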