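import Pool.Agent.Helper204.JS.Defs
import Pool.Agent.Helper204.JS.Defs1
import Pool.Agent.Helper204.JS.P_dd_monomial

set_option linter.unusedSectionVars false

open MvPolynomial Finset

noncomputable section

namespace JSup
variable {K : Type} [Field K] [CharZero K] [Par K]



theorem coeff_dd_lt_W (i j : ℕ) (hij : i ≠ j) (ν : ℕ →₀ ℕ) (a b : ℕ) :
    (Finsupp.single i 1 + (ν.update i a).update j b : ℕ →₀ ℕ) i = 1 + a ∧
    (Finsupp.single i 1 + (ν.update i a).update j b : ℕ →₀ ℕ) j = b ∧
    ∀ k, k ≠ i → k ≠ j → (Finsupp.single i 1 + (ν.update i a).update j b : ℕ →₀ ℕ) k = ν k := by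
  refine ⟨?_, ?_, ?_⟩
  · simp [Finsupp.coe_update, Function.update, hij]
  · simp [Finsupp.coe_update, Function.update, hij]
  · intro k h1 h2
    simp [Finsupp.coe_update, Function.update, h1, h2]

theorem coeff_dd_lt_sum (i : ℕ) (n : ℕ) (μ : ℕ → (ℕ →₀ ℕ)) (ω : ℕ →₀ ℕ) :
    coeff ω (X i * ∑ c ∈ range n, monomial (μ c) (1 : K))
      = ∑ c ∈ range n, if Finsupp.single i 1 + μ c = ω then (1 : K) else 0 := by
  rw [Finset.mul_sum, coeff_sum]
  refine Finset.sum_congr rfl (fun c _ => ?_)
  rw [X, monomial_mul, one_mul, coeff_monomial]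

/-- HINT: the operator `x_i ∂_{ij}` on `x^ν` (used for `j < i`), from `dd_monomial`. -/
theorem coeff_dd_lt (i j : ℕ) (hij : i ≠ j) (ν : ℕ →₀ ℕ) :
    coeff ν (X i * dd i j (monomial ν (1 : K))) = (if ν j < ν i then 1 else 0) ∧
    (∀ ω, coeff ω (X i * dd i j (monomial ν (1 : K))) ≠ 0 →
      (∀ k, k ≠ i → k ≠ j → ω k = ν k) ∧ ω i + ω j = ν i + ν j ∧
      ((ν j < ν i ∧ ν j < ω i ∧ ω i ≤ ν i) ∨ (ν i < ν j ∧ ν i < ω i ∧ ω i ≤ ν j))) := by
  rcases le_total (ν j) (ν i) with hle | hle
  · have h0 := (dd_monomial (K := K) i j hij ν).1 hle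
    rw [h0]
    constructor
    · rw [coeff_dd_lt_sum]
      by_cases hlt : ν j < ν i
      · rw [if_pos hlt, Finset.sum_eq_single 0]
        · rw [if_pos]
          obtain ⟨h1, h2, h3⟩ := coeff_dd_lt_W i j hij ν (ν i - 1 - 0) (ν j + 0)
          ext k
          by_cases hki : k = i
          · subst hki; rw [h1]; omega
          · by_cases hkj : k = j
            · subst hkj; rw [h2]; omega
            · exact h3 k hki hkj
        · intro c _ hc
          rw [if_neg]
          intro h
          obtain ⟨h1, h2, h3⟩ := coeff_dd_lt_W i j hij ν (ν i - 1 - c) (ν j + c)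
          rw [h] at h2
          omega
        · intro h
          exact absurd (Finset.mem_range.mpr (by omega)) h
      · rw [if_neg hlt]
        have : ν i - ν j = 0 := by omega
        rw [this]
        simp
    · intro ω hω
      rw [coeff_dd_lt_sum] at hω
      obtain ⟨c, hc, hc2⟩ := Finset.exists_ne_zero_of_sum_ne_zero hω
      rw [Finset.mem_range] at hc
      have hc3 : Finsupp.single i 1 + (ν.update i (ν i - 1 - c)).update j (ν j + c) = ω := by
        by_contra h
        exact hc2 (if_neg h)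
      obtain ⟨h1, h2, h3⟩ := coeff_dd_lt_W i j hij ν (ν i - 1 - c) (ν j + c)
      rw [hc3] at h1 h2 h3
      refine ⟨h3, by omega, Or.inl ⟨by omega, by omega, by omega⟩⟩
  · have h0 := (dd_monomial (K := K) i j hij ν).2 hle
    rw [h0, mul_neg]
    constructor
    · rw [coeff_neg, coeff_dd_lt_sum, if_neg (by omega), neg_eq_zero]
      apply Finset.sum_eq_zero
      intro c hc
      rw [Finset.mem_range] at hc
      rw [if_neg]
      intro h
      obtain ⟨h1, h2, h3⟩ := coeff_dd_lt_W i j hij ν (ν j - 1 - c) (ν i + c)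
      rw [h] at h1
      omega
    · intro ω hω
      rw [coeff_neg, neg_ne_zero, coeff_dd_lt_sum] at hω
      obtain ⟨c, hc, hc2⟩ := Finset.exists_ne_zero_of_sum_ne_zero hω
      rw [Finset.mem_range] at hc
      have hc3 : Finsupp.single i 1 + (ν.update i (ν j - 1 - c)).update j (ν i + c) = ω := by
        by_contra h
        exact hc2 (if_neg h)
      obtain ⟨h1, h2, h3⟩ := coeff_dd_lt_W i j hij ν (ν j - 1 - c) (ν i + c)
      rw [hc3] at h1 h2 h3
      refine ⟨h3, by omega, Or.inr ⟨by omega, by omega, by omega⟩⟩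

end JSup
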