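import Pool.Agent.Helper204.JS.Defs
import Pool.Agent.Helper204.JS.Defs1
import Pool.Agent.Helper204.JS.P_coeff_dd_gt
import Pool.Agent.Helper204.JS.P_coeff_dd_lt
import Pool.Agent.Helper204.JS.P_CLe_move

set_option linter.unusedSectionVars false

open MvPolynomial Finset

noncomputable section

namespace JSup
variable {K : Type} [Field K] [CharZero K] [Par K]



theorem ytri_card (i : ℕ) (ν : ℕ → ℕ) :
    (∑ j ∈ range i, (if ν j < ν i then (1 : K) else 0)) =
      (i : K) - (((range i).filter (fun j => ν i ≤ ν j)).card : K) := by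
  rw [Finset.sum_boole]
  have h1 := Finset.card_filter_add_card_filter_not (s := range i) (fun j => ν j < ν i)
  have h2 : (range i).filter (fun j => ¬ ν j < ν i) = (range i).filter (fun j => ν i ≤ ν j) := by
    apply Finset.filter_congr
    intro j _
    exact not_lt
  rw [h2, card_range] at h1
  rw [eq_sub_iff_add_eq]
  exact_mod_cast h1

theorem ytri_card2 (i N : ℕ) (ν : ℕ → ℕ) :
    (∑ j ∈ Ioo i N, (if ν i < ν j then (-1 : K) else 0)) =
      - (((Ioo i N).filter (fun j => ν i < ν j)).card : K) := by
  rw [← Finset.sum_boole, ← Finset.sum_neg_distrib]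
  apply Finset.sum_congr rfl
  intro j _
  split_ifs <;> simp

/-- HINT: `Yop_apply` on a monomial; `α δ_i` and `-i` are diagonal; for `j<i` use `coeff_dd_lt`, for `j>i`
`coeff_dd_gt`; the diagonal coefficients add up to `yv` (`(#{j<i : ν_j < ν_i}) - i = - #{j<i : ν_j ≥ ν_i}`); every
other monomial comes from a squeeze or from moving the larger entry to the right: `CLe_move` (with the roles
`min/max` of the two positions). -/
theorem Yop_tri (N i : ℕ) (hi : i < N) (ν : ℕ →₀ ℕ) :
    coeff ν (Yop N i (monomial ν (1 : K))) = yv N ν i ∧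
    (∀ ω : ℕ →₀ ℕ, ω ≠ ν → coeff ω (Yop N i (monomial ν (1 : K))) ≠ 0 →
      CLe N ω ν ∧ (∀ k, N ≤ k → ω k = ν k)) := by
  have hd : (X i : MvPolynomial ℕ K) * pderiv i (monomial ν (1 : K)) =
      monomial ν ((ν i : K)) := by
    rw [X_mul_pderiv_monomial, ← map_nsmul, nsmul_eq_mul, mul_one]
  have hexp : ∀ ω : ℕ →₀ ℕ, coeff ω (Yop N i (monomial ν (1 : K))) =
      al * coeff ω (monomial ν (ν i : K)) +
      ∑ j ∈ range i, coeff ω (X i * dd i j (monomial ν (1 : K))) +
      ∑ j ∈ Ioo i N, coeff ω (X j * dd i j (monomial ν (1 : K))) -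
      (i : K) * coeff ω (monomial ν (1 : K)) := by
    intro ω
    rw [Yop_apply, hd, coeff_sub, coeff_add, coeff_add, coeff_smul, coeff_smul, coeff_sum,
      coeff_sum, smul_eq_mul, smul_eq_mul]
  constructor
  · rw [hexp]
    have h1 : ∑ j ∈ range i, coeff ν (X i * dd i j (monomial ν (1 : K))) =
        ∑ j ∈ range i, (if ν j < ν i then (1 : K) else 0) := by
      apply Finset.sum_congr rfl
      intro j hj
      rw [mem_range] at hj
      exact (coeff_dd_lt i j (by omega) ν).1
    have h2 : ∑ j ∈ Ioo i N, coeff ν (X j * dd i j (monomial ν (1 : K))) =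
        ∑ j ∈ Ioo i N, (if ν i < ν j then (-1 : K) else 0) := by
      apply Finset.sum_congr rfl
      intro j hj
      rw [mem_Ioo] at hj
      exact (coeff_dd_gt i j (by omega) ν).1
    rw [h1, h2, ytri_card i (fun k => ν k), ytri_card2 i N (fun k => ν k), coeff_monomial,
      coeff_monomial, if_pos rfl, if_pos rfl]
    unfold yv
    ring
  · intro ω hω hne
    rw [hexp, coeff_monomial, coeff_monomial, if_neg (fun h => hω h.symm),
      if_neg (fun h => hω h.symm), mul_zero, mul_zero, zero_add, sub_zero] at hne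
    have hcase : (∃ j ∈ range i, coeff ω (X i * dd i j (monomial ν (1 : K))) ≠ 0) ∨
        ∃ j ∈ Ioo i N, coeff ω (X j * dd i j (monomial ν (1 : K))) ≠ 0 := by
      by_contra hcon
      push Not at hcon
      apply hne
      rw [Finset.sum_eq_zero hcon.1, Finset.sum_eq_zero hcon.2, add_zero]
    have hext : ∀ j, (∀ k, k ≠ i → k ≠ j → ω k = ν k) → ω i = ν i → ω j = ν j → False := by
      intro j h1 h2 h3
      apply hω
      ext k
      by_cases hk : k = i
      · rw [hk, h2]
      · by_cases hk' : k = j
        · rw [hk', h3]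
        · exact h1 k hk hk'
    rcases hcase with ⟨j, hj, hj2⟩ | ⟨j, hj, hj2⟩
    · rw [mem_range] at hj
      obtain ⟨h1, h2, h3⟩ := (coeff_dd_lt i j (by omega) ν).2 ω hj2
      refine ⟨?_, fun k hk => h1 k (by omega) (by omega)⟩
      apply CLe_move N j i hj hi ω ν (fun k hk hk' => h1 k hk' hk) (by omega)
      rcases h3 with ⟨h4, h5, h6⟩ | ⟨h4, h5, h6⟩
      · left
        have h7 : ω i ≠ ν i := fun e => hext j h1 e (by omega)
        rw [min_eq_left h4.le, max_eq_right h4.le]
        omega
      · by_cases h7 : ω i = ν j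
        · right; omega
        · left
          rw [min_eq_right h4.le, max_eq_left h4.le]
          omega
    · rw [mem_Ioo] at hj
      obtain ⟨h1, h2, h3⟩ := (coeff_dd_gt i j (by omega) ν).2 ω hj2
      refine ⟨?_, fun k hk => h1 k (by omega) (by omega)⟩
      apply CLe_move N i j hj.1 hj.2 ω ν h1 h2
      rcases h3 with ⟨h4, h5, h6⟩ | ⟨h4, h5, h6⟩
      · by_cases h7 : ω i = ν j
        · right; omega
        · left
          rw [min_eq_right h4.le, max_eq_left h4.le]
          omega
      · left
        have h7 : ω i ≠ ν i := fun e => hext j h1 e (by omega)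
        rw [min_eq_left h4.le, max_eq_right h4.le]
        omega

end JSup
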