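import Pool.Agent.Helper204.JS.Defs
import Pool.Agent.Helper204.JS.Defs1
import Pool.Agent.Helper204.JS.P_Yop_Fp
import Pool.Agent.Helper204.JS.P_Fp_homog
import Pool.Agent.Helper204.JS.P_CLe_trans
import Pool.Agent.Helper204.JS.P_Yop_tri
import Pool.Agent.Helper204.JS.P_CLe_strict

set_option linter.unusedSectionVars false

open MvPolynomial Finset

noncomputable section

namespace JSup
variable {K : Type} [Field K] [CharZero K] [Par K]



/-- HINT: `f = Fp N η`. Suppose some `ω` in the support is not `CLe N ω η`. Choose such `ω` with the key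
`(sq, Σ psm)` lexicographically maximal (support finite; variables `< N` by `Fp_homog`, so exponents vanish
beyond `N`). For `i < N`: coefficient of `x^ω` in `Y_i f = y_i(η) f` (`Yop_Fp`): `f = Σ_ν f_ν x^ν`, and a
contribution from `ν ≠ ω` has `CLe N ω ν` (`Yop_tri`), then `ν` has strictly larger key (`CLe_strict`) and
not `CLe N ν η` (else `CLe_trans`), contradiction with maximality; so `y_i(ω) f_ω = y_i(η) f_ω`, `y_i(ω) = y_i(η)`
for all `i < N`. Comparing coefficients of α (`Par.indep`) gives `ω i = η i`, so `ω = η`, but `CLe N η η`. -/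
theorem Fp_supp (N : ℕ) (η : ℕ →₀ ℕ) (hη : ∀ k, N ≤ k → η k = 0) (ω : ℕ →₀ ℕ)
    (h : coeff ω (Fp N η : MvPolynomial ℕ K) ≠ 0) : CLe N ω η := by
  classical
  by_contra hcon
  set f : MvPolynomial ℕ K := Fp N η with hf
  let key : (ℕ →₀ ℕ) → ℕ ×ₗ ℕ := fun ν => toLex (sq N ν, ∑ k ∈ range (N + 1), psm k ν)
  obtain ⟨ω₀, hω₀, hmax⟩ := Finset.exists_max_image (f.support.filter (fun ν : ℕ →₀ ℕ => ¬ CLe N (⇑ν) (⇑η))) key
    ⟨ω, by rw [Finset.mem_filter]; exact ⟨mem_support_iff.2 h, hcon⟩⟩
  rw [Finset.mem_filter] at hω₀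
  obtain ⟨hs, hn⟩ := hω₀
  have hyv : ∀ i, i < N → (yv N ω₀ i : K) = yv N η i := by
    intro i hi
    have e1 : coeff ω₀ (Yop N i f) = yv N η i * coeff ω₀ f := by
      rw [hf, Yop_Fp N η hη i hi, coeff_smul, smul_eq_mul]
    have e2 : Yop N i f = ∑ ν ∈ f.support, coeff ν f • Yop N i (monomial ν (1 : K)) := by
      conv_lhs => rw [f.as_sum]
      rw [map_sum]
      refine Finset.sum_congr rfl fun ν _ => ?_
      rw [← map_smul, smul_monomial, smul_eq_mul, mul_one]
    have e3 : coeff ω₀ (Yop N i f) = coeff ω₀ f * yv N ω₀ i := by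
      rw [e2, coeff_sum, Finset.sum_eq_single_of_mem ω₀ hs]
      · rw [coeff_smul, smul_eq_mul, (Yop_tri N i hi ω₀).1]
      · intro ν hν hne
        rw [coeff_smul, smul_eq_mul]
        by_contra h1
        have h2 : coeff ω₀ (Yop N i (monomial ν (1 : K))) ≠ 0 := fun h3 => h1 (by rw [h3, mul_zero])
        obtain ⟨h3, h4⟩ := (Yop_tri N i hi ν).2 ω₀ (Ne.symm hne) h2
        have h5 : ∃ k, k < N ∧ ω₀ k ≠ ν k := by
          by_contra h6
          push Not at h6
          apply hne
          ext k
          rcases Nat.lt_or_ge k N with hk | hk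
          · exact (h6 k hk).symm
          · exact (h4 k hk).symm
        have h6 := CLe_strict N ω₀ ν h3 h5
        have h7 : key ω₀ < key ν := by
          rw [Prod.Lex.toLex_lt_toLex]
          exact h6
        have h8 : CLe N ν η := by
          by_contra h9
          exact absurd (hmax ν (Finset.mem_filter.2 ⟨hν, h9⟩)) (not_le.2 h7)
        exact hn (CLe_trans N _ _ _ h3 h8)
    have h0 : coeff ω₀ f ≠ 0 := mem_support_iff.1 hs
    have e4 : coeff ω₀ f * yv N ω₀ i = coeff ω₀ f * yv N η i := by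
      rw [← e3, e1, mul_comm]
    exact mul_left_cancel₀ h0 e4
  have heq : ω₀ = η := by
    ext k
    rcases Nat.lt_or_ge k N with hk | hk
    · have h1 := hyv k hk
      unfold yv at h1
      have h2 := Par.indep (K := K) ((ω₀ k : ℤ) - (η k : ℤ))
        ((((range k).filter (fun j => η k ≤ η j)).card : ℤ) +
          (((Ioo k N).filter (fun j => η k < η j)).card : ℤ) -
          (((range k).filter (fun j => ω₀ k ≤ ω₀ j)).card : ℤ) -
          (((Ioo k N).filter (fun j => ω₀ k < ω₀ j)).card : ℤ)) (by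
          push_cast
          have h3 : (Par.al : K) = al := rfl
          rw [h3]
          linear_combination h1)
      omega
    · rw [hη k hk]
      by_contra h1
      have h2 : k ∈ f.vars := by
        rw [mem_vars]
        exact ⟨ω₀, hs, Finsupp.mem_support_iff.2 h1⟩
      have h3 := (Fp_homog (K := K) N η hη).2 k h2
      omega
  apply hn
  rw [heq]
  exact ⟨fun t => le_rfl, Or.inr ⟨rfl, fun k _ => le_rfl⟩⟩

end JSup
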