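import Pool.Agent.Helper204.JS.Defs
import Pool.Agent.Helper204.JS.Defs1

set_option linter.unusedSectionVars false

open MvPolynomial Finset

noncomputable section

namespace JSup
variable {K : Type} [Field K] [CharZero K] [Par K]



/-- HINT: `S` sorted increasingly dominates `0,1,…`; e.g. `Finset.orderEmbOfFin` with `i ≤ orderEmbOfFin i`, or induction
on `j` removing the maximum of `S` (which is `≥ j-1`). -/
theorem mono_sum_le (μ : ℕ → ℕ) (k : ℕ) (hμ : ∀ i j, i ≤ j → j < k → μ i ≤ μ j) (S : Finset ℕ)
    (hS : S ⊆ range k) : ∑ i ∈ range S.card, μ i ≤ ∑ i ∈ S, μ i := by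
  induction k generalizing S with
  | zero =>
    have : S = ∅ := by
      apply Finset.subset_empty.1
      simpa using hS
    subst this
    simp
  | succ k ih =>
    have hμ' : ∀ i j, i ≤ j → j < k → μ i ≤ μ j := fun i j h1 h2 => hμ i j h1 (by omega)
    by_cases hk : k ∈ S
    · have hS' : S.erase k ⊆ range k := by
        intro x hx
        have h1 := Finset.mem_erase.1 hx
        have h2 := Finset.mem_range.1 (hS h1.2)
        apply Finset.mem_range.2
        have h3 := h1.1
        omega
      have h1 := ih hμ' (S.erase k) hS'
      have hc : S.card = (S.erase k).card + 1 := (Finset.card_erase_add_one hk).symm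
      have h2 : (S.erase k).card ≤ k := by
        have := Finset.card_le_card hS'
        simpa using this
      rw [hc, Finset.sum_range_succ, ← Finset.sum_erase_add _ _ hk]
      have h3 := hμ (S.erase k).card k h2 (by omega)
      omega
    · apply ih hμ' S
      intro x hx
      have h2 := Finset.mem_range.1 (hS hx)
      apply Finset.mem_range.2
      have h3 : x ≠ k := fun h => hk (h ▸ hx)
      omega

end JSup
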