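import Pool.Agent.Helper204.JS.Defs
import Pool.Agent.Helper204.JS.Defs1
import Pool.Agent.Helper204.JS.P_Fp_supp
import Pool.Agent.Helper204.JS.P_mono_sum_le

set_option linter.unusedSectionVars false

open MvPolynomial Finset

noncomputable section

namespace JSup
variable {K : Type} [Field K] [CharZero K] [Par K]



/-- HINT: let `ω = σ·η`. `Fp_supp`: `CLe N ω η`; `sq N ω = sq N η` (σ permutes `[0,N)`), so all partial sums of `ω` are
`≤` those of `η`. On the other hand for `p ≤ k`, `psm p ω = Σ_{i<p} η (σ⁻¹ i)` is a sum of `η` over a `p`-subset of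
`[0,k)`, so `≥ psm p η` (`mono_sum_le`); for `k ≤ p ≤ k+m` in the same way (the first `k` entries have the same
sum, then subsets of `[k,k+m)`, shift the function by `k`). So all partial sums agree, `ω = η`. -/
theorem Fp_coeff_rearr (N k m : ℕ) (hN : k + m ≤ N) (η : ℕ →₀ ℕ) (h0 : ∀ i, k + m ≤ i → η i = 0)
    (h1 : ∀ i j, i ≤ j → j < k → η i ≤ η j) (h2 : ∀ i j, k ≤ i → i ≤ j → j < k + m → η i ≤ η j)
    (σ : Equiv.Perm ℕ) (hσ1 : ∀ i, i < k → σ i < k) (hσ2 : ∀ i, k ≤ i → i < k + m → k ≤ σ i ∧ σ i < k + m)
    (hσ3 : ∀ i, k + m ≤ i → σ i = i)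
    (h : coeff (Finsupp.equivMapDomain σ η) (Fp N η : MvPolynomial ℕ K) ≠ 0) :
    Finsupp.equivMapDomain σ η = η := by
  have hW : ∀ i, (Finsupp.equivMapDomain σ η) i = η (σ.symm i) := fun i => rfl
  have s1 : ∀ i, i < k → σ.symm i < k := by
    intro i hi
    by_contra hc
    by_cases hm : σ.symm i < k + m
    · have h5 := (hσ2 (σ.symm i) (by omega) hm).1
      rw [Equiv.apply_symm_apply] at h5
      omega
    · have h5 := hσ3 (σ.symm i) (by omega)
      rw [Equiv.apply_symm_apply] at h5
      omega
  have s2 : ∀ i, k ≤ i → i < k + m → k ≤ σ.symm i ∧ σ.symm i < k + m := by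
    intro i hi1 hi2
    constructor
    · by_contra hc
      have h5 := hσ1 (σ.symm i) (by omega)
      rw [Equiv.apply_symm_apply] at h5
      omega
    · by_contra hc
      have h5 := hσ3 (σ.symm i) (by omega)
      rw [Equiv.apply_symm_apply] at h5
      omega
  have s3 : ∀ i, k + m ≤ i → σ.symm i = i := fun i hi => (Equiv.symm_apply_eq σ).2 (hσ3 i hi).symm
  have hc := Fp_supp (K := K) N η (fun j hj => h0 j (by omega)) _ h
  have hsq : sq N (Finsupp.equivMapDomain σ η) = sq N η := by
    unfold sq
    refine Finset.sum_equiv σ.symm ?_ ?_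
    · intro i
      rw [mem_range, mem_range]
      constructor
      · intro hi
        by_cases h5 : i < k
        · have := s1 i h5
          omega
        · by_cases h6 : i < k + m
          · have := (s2 i (by omega) h6).2
            omega
          · rw [s3 i (by omega)]
            exact hi
      · intro hi
        by_contra h5
        rw [s3 i (by omega)] at hi
        exact h5 hi
    · intro i _
      rw [hW]
  have hle : ∀ p, p ≤ N → psm p (Finsupp.equivMapDomain σ η) ≤ psm p η := by
    rcases hc.2 with h5 | h5
    · omega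
    · exact h5.2
  have hge1 : ∀ p, p ≤ k → psm p η ≤ psm p (Finsupp.equivMapDomain σ η) := by
    intro p hp
    have h5 := mono_sum_le η k h1 ((range p).image σ.symm) (by
      intro j hj
      obtain ⟨i, hi, rfl⟩ := mem_image.1 hj
      have := mem_range.1 hi
      exact mem_range.2 (s1 i (by omega)))
    rw [card_image_of_injective _ σ.symm.injective, card_range,
      sum_image (fun a _ b _ hab => σ.symm.injective hab)] at h5
    exact h5
  have hge2 : ∀ q, q ≤ m → psm (k + q) η ≤ psm (k + q) (Finsupp.equivMapDomain σ η) := by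
    intro q hq
    have h5 := mono_sum_le (fun j => η (k + j)) m
      (fun i j hij hj => h2 (k + i) (k + j) (by omega) (by omega) (by omega))
      ((range q).image (fun i => σ.symm (k + i) - k)) (by
        intro j hj
        obtain ⟨i, hi, rfl⟩ := mem_image.1 hj
        have h6 := mem_range.1 hi
        have h7 := s2 (k + i) (by omega) (by omega)
        exact mem_range.2 (by omega))
    have hinj : Set.InjOn (fun i => σ.symm (k + i) - k) (range q : Set ℕ) := by
      intro i hi j hj hij
      have h6 := mem_range.1 (Finset.mem_coe.1 hi)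
      have h7 := mem_range.1 (Finset.mem_coe.1 hj)
      have h8 := s2 (k + i) (by omega) (by omega)
      have h9 := s2 (k + j) (by omega) (by omega)
      have h10 : σ.symm (k + i) - k = σ.symm (k + j) - k := hij
      have h11 : σ.symm (k + i) = σ.symm (k + j) := by omega
      have h12 := σ.symm.injective h11
      omega
    rw [card_image_of_injOn hinj, card_range, sum_image hinj] at h5
    have h6 : ∑ i ∈ range q, η (k + (σ.symm (k + i) - k)) = ∑ i ∈ range q, η (σ.symm (k + i)) := by
      refine sum_congr rfl fun i hi => ?_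
      have h7 := mem_range.1 hi
      have h8 := s2 (k + i) (by omega) (by omega)
      rw [show k + (σ.symm (k + i) - k) = σ.symm (k + i) by omega]
    have h7 := hge1 k le_rfl
    unfold psm at h7 ⊢
    rw [Finset.sum_range_add, Finset.sum_range_add]
    have h8 : ∑ i ∈ range q, (Finsupp.equivMapDomain σ η) (k + i) =
        ∑ i ∈ range q, η (σ.symm (k + i)) := rfl
    rw [h8, ← h6]
    exact add_le_add h7 h5
  have heq : ∀ p, p ≤ k + m → psm p (Finsupp.equivMapDomain σ η) = psm p η := by
    intro p hp
    refine le_antisymm (hle p (by omega)) ?_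
    by_cases hpk : p ≤ k
    · exact hge1 p hpk
    · have h5 := hge2 (p - k) (by omega)
      rw [show k + (p - k) = p by omega] at h5
      exact h5
  ext i
  by_cases hi : i < k + m
  · have e1 := heq i (by omega)
    have e2 := heq (i + 1) (by omega)
    unfold psm at e1 e2
    rw [sum_range_succ, sum_range_succ] at e2
    omega
  · rw [hW, s3 i (by omega)]

end JSup
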