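import Pool.Agent.Helper204.JS.Defs
import Pool.Agent.Helper204.JS.Defs1

set_option linter.unusedSectionVars false

open MvPolynomial Finset

noncomputable section

namespace JSup
variable {K : Type} [Field K] [CharZero K] [Par K]



/-- HINT: `ee j f = X j * rename (cyc j) f`; `coeff_X_mul'`, `coeff_rename_mapDomain`. -/
theorem coeff_ee (j : ℕ) (ω : ℕ →₀ ℕ) (f : MvPolynomial ℕ K) :
    (ω j = 0 → coeff ω (ee j f) = 0) ∧
    (ω j ≠ 0 → (∀ k, j < k → ω k = 0) → coeff ω (ee j f) = coeff (star j ω) f) := by
  classical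
  constructor
  · intro h
    rw [ee_apply, coeff_X_mul', if_neg]
    rw [Finsupp.mem_support_iff]
    exact fun h1 => h1 h
  · intro h h0
    rw [ee_apply, coeff_X_mul', if_pos (Finsupp.mem_support_iff.2 h)]
    have h1 : ω - Finsupp.single j 1 = (star j ω).mapDomain (cyc j) := by
      ext k
      obtain ⟨k', rfl⟩ := (cyc j).surjective k
      rw [Finsupp.mapDomain_apply (cyc j).injective, Finsupp.tsub_apply, star_apply, cyc_apply]
      by_cases hk : k' = 0
      · rw [if_pos hk, if_pos hk, Finsupp.single_eq_same]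
      · rw [if_neg hk, if_neg hk]
        by_cases hk2 : k' ≤ j
        · rw [if_pos hk2, if_pos hk2, Finsupp.single_eq_of_ne (by omega), Nat.sub_zero]
        · rw [if_neg hk2, if_neg hk2, h0 k' (by omega), Nat.zero_sub]
    rw [h1, coeff_rename_mapDomain _ (cyc j).injective]

end JSup
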