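import Pool.Agent.Helper204.JS.Defs
import Pool.Agent.Helper204.JS.Defs1

set_option linter.unusedSectionVars false

open MvPolynomial Finset

noncomputable section

namespace JSup
variable {K : Type} [Field K] [CharZero K] [Par K]



theorem card_last (l : ℕ) (p : ℕ → Prop) [DecidablePred p] :
    ((range (l + 1)).filter p).card = ((range l).filter p).card + if p l then 1 else 0 := by
  rw [Finset.card_filter, Finset.card_filter, Finset.sum_range_succ]

theorem card_first (l : ℕ) (p : ℕ → Prop) [DecidablePred p] :
    ((range (l + 1)).filter p).card =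
      ((range l).filter (fun k => p (k + 1))).card + if p 0 then 1 else 0 := by
  rw [Finset.card_filter, Finset.card_filter, Finset.sum_range_succ']

/-- the leg count of the box `(i,j)` -/
def lg (N : ℕ) (η : ℕ → ℕ) (i j : ℕ) : ℕ :=
  ((range i).filter (fun k => j ≤ η k ∧ η k < η i)).card
    + ((Ioo i N).filter (fun k => j < η k ∧ η k ≤ η i)).card

theorem lg_eq (N l : ℕ) (hl : l < N) (η : ℕ → ℕ) (h0 : ∀ k, l < k → η k = 0) (i j : ℕ)
    (hi : i ≤ l) : lg N η i j =
      ((range (l + 1)).filter (fun k => k < i ∧ j ≤ η k ∧ η k < η i)).card +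
      ((range (l + 1)).filter (fun k => i < k ∧ j < η k ∧ η k ≤ η i)).card := by
  unfold lg
  congr 2
  · ext k
    simp only [Finset.mem_filter, Finset.mem_range]
    constructor
    · rintro ⟨a, b, c⟩; exact ⟨by omega, a, b, c⟩
    · rintro ⟨a, b, c, d⟩; exact ⟨b, c, d⟩
  · ext k
    simp only [Finset.mem_filter, Finset.mem_range, Finset.mem_Ioo]
    constructor
    · rintro ⟨⟨a, b⟩, c, d⟩
      refine ⟨?_, a, c, d⟩
      by_contra hk
      have := h0 k (by omega)
      omega
    · rintro ⟨a, b, c, d⟩; exact ⟨⟨b, by omega⟩, c, d⟩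

theorem dEta_rows (N l : ℕ) (hl : l < N) (η : ℕ → ℕ) (h0 : ∀ k, l < k → η k = 0) :
    (dEta N η : K) = ∏ i ∈ range (l + 1), ∏ j ∈ range (η i),
      (al * ((η i - j : ℕ) : K) + 1 + (lg N η i j : K)) := by
  have e : ∀ i j, (al * ((η i - j : ℕ) : K) + 1
    + (((range i).filter (fun k => j ≤ η k ∧ η k < η i)).card : K)
    + (((Ioo i N).filter (fun k => j < η k ∧ η k ≤ η i)).card : K)) =
      (al * ((η i - j : ℕ) : K) + 1 + (lg N η i j : K)) := by
    intro i j
    unfold lg; push_cast; ring
  unfold dEta
  simp only [e]
  symm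
  apply Finset.prod_subset
  · intro i hi
    simp only [Finset.mem_range] at hi ⊢
    omega
  · intro i _ hi
    simp only [Finset.mem_range] at hi
    rw [h0 i (by omega)]
    simp

/-- HINT: the rows of `star l η`: row 0 has length `η_l - 1`, row `k+1` is row `k` of `η` (`k<l`). Row `l` of `η`: its box
`j = 0` gives `α η_l + 1 + #{k<l : η_k < η_l} = κ + l + 1`; its box `j+1` corresponds to the box `j` of row 0 of
`star l η` (the condition `j + 1 ≤ η_k < η_l`, `k < l`, becomes `j < η_k ≤ η_l - 1` at position `k+1 > 0`). For the row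
`k < l`: the pair with `l` contributes `j < η_l ≤ η_k` in `η` and `j ≤ η_l - 1 < η_k` in `star`: the same.
Rows beyond `l` are empty. -/
theorem dEta_star (N l : ℕ) (hl : l < N) (η : ℕ →₀ ℕ) (h1 : η l ≠ 0) (h0 : ∀ k, l < k → η k = 0) :
    (dEta N η : K) = (kap l η + l + 1) * dEta N (star l η) := by
  have s0 : ∀ k, l < k → star l η k = 0 := by
    intro k hk
    rw [star_apply]
    have h1 : k ≠ 0 := by omega
    have h2 : ¬ k ≤ l := by omega
    simp [h1, h2]
  have sz : star l η 0 = η l - 1 := by rw [star_apply]; simp
  have ss : ∀ k, k < l → star l η (k + 1) = η k := by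
    intro k hk
    rw [star_apply]
    have h2 : k + 1 ≤ l := hk
    simp [h2]
  rw [dEta_rows N l hl η h0, dEta_rows N l hl (star l η) s0, Finset.prod_range_succ,
    Finset.prod_range_succ']
  have r1 : ∏ i ∈ range l, ∏ j ∈ range (η i), (al * ((η i - j : ℕ) : K) + 1 + (lg N η i j : K)) =
      ∏ i ∈ range l, ∏ j ∈ range (star l η (i + 1)),
        (al * ((star l η (i + 1) - j : ℕ) : K) + 1 + (lg N (star l η) (i + 1) j : K)) := by
    refine Finset.prod_congr rfl fun i hi => ?_
    rw [Finset.mem_range] at hi
    rw [ss i hi]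
    refine Finset.prod_congr rfl fun j hj => ?_
    rw [Finset.mem_range] at hj
    have : lg N η i j = lg N (star l η) (i + 1) j := by
      rw [lg_eq N l hl η h0 i j hi.le, lg_eq N l hl (star l η) s0 (i + 1) j hi, card_last,
        card_last, card_first l (fun k => k < i + 1 ∧ j ≤ star l η k ∧ star l η k < star l η (i + 1)),
        card_first l (fun k => i + 1 < k ∧ j < star l η k ∧ star l η k ≤ star l η (i + 1))]
      have f1 : (range l).filter (fun k => k + 1 < i + 1 ∧ j ≤ star l η (k + 1) ∧
          star l η (k + 1) < star l η (i + 1)) =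
          (range l).filter (fun k => k < i ∧ j ≤ η k ∧ η k < η i) := by
        refine Finset.filter_congr fun k hk => ?_
        rw [Finset.mem_range] at hk
        rw [ss k hk, ss i hi]
        omega
      have f2 : (range l).filter (fun k => i + 1 < k + 1 ∧ j < star l η (k + 1) ∧
          star l η (k + 1) ≤ star l η (i + 1)) =
          (range l).filter (fun k => i < k ∧ j < η k ∧ η k ≤ η i) := by
        refine Finset.filter_congr fun k hk => ?_
        rw [Finset.mem_range] at hk
        rw [ss k hk, ss i hi]
        omega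
      rw [f1, f2, sz, ss i hi]
      have g1 : ¬ (l < i ∧ j ≤ η l ∧ η l < η i) := by omega
      have g2 : ¬ (i + 1 < 0 ∧ j < η l - 1 ∧ η l - 1 ≤ η i) := by omega
      rw [if_neg g1, if_neg g2]
      have g3 : (i < l ∧ j < η l ∧ η l ≤ η i) ↔ (0 < i + 1 ∧ j ≤ η l - 1 ∧ η l - 1 < η i) := by
        omega
      by_cases h : i < l ∧ j < η l ∧ η l ≤ η i
      · rw [if_pos h, if_pos (g3.mp h)]; omega
      · rw [if_neg h, if_neg (fun h' => h (g3.mpr h'))]
    rw [this]
  have r2 : ∏ j ∈ range (η l), (al * ((η l - j : ℕ) : K) + 1 + (lg N η l j : K)) =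
      (kap l η + l + 1) * ∏ j ∈ range (star l η 0),
        (al * ((star l η 0 - j : ℕ) : K) + 1 + (lg N (star l η) 0 j : K)) := by
    obtain ⟨m, hm⟩ : ∃ m, η l = m + 1 := ⟨η l - 1, by omega⟩
    rw [sz, hm, Nat.add_sub_cancel, Finset.prod_range_succ', mul_comm]
    congr 1
    · have c1 : lg N η l 0 + ((range l).filter (fun j => η l ≤ η j)).card = l := by
        rw [lg_eq N l hl η h0 l 0 le_rfl, card_last, card_last]
        have g1 : ¬ (l < l ∧ 0 ≤ η l ∧ η l < η l) := by omega
        have g2 : ¬ (l < l ∧ 0 < η l ∧ η l ≤ η l) := by omega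
        rw [if_neg g1, if_neg g2]
        have f2 : (range l).filter (fun k => l < k ∧ 0 < η k ∧ η k ≤ η l) = ∅ := by
          refine Finset.filter_false_of_mem fun k hk => ?_
          rw [Finset.mem_range] at hk
          omega
        have f1 : (range l).filter (fun k => k < l ∧ 0 ≤ η k ∧ η k < η l) =
            (range l).filter (fun k => ¬ (η l ≤ η k)) := by
          refine Finset.filter_congr fun k hk => ?_
          rw [Finset.mem_range] at hk
          omega
        rw [f1, f2, Finset.card_empty]
        have := Finset.card_filter_add_card_filter_not (s := range l) (fun k => η l ≤ η k)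
        rw [Finset.card_range] at this
        omega
      have c2 : (lg N η l 0 : K) = l - (((range l).filter (fun j => η l ≤ η j)).card : K) := by
        have : ((lg N η l 0 + ((range l).filter (fun j => η l ≤ η j)).card : ℕ) : K) = (l : K) := by
          rw [c1]
        push_cast at this
        rw [← this]; ring
      rw [c2]
      unfold kap
      rw [hm]
      simp only [Nat.sub_zero]
      ring
    · refine Finset.prod_congr rfl fun j hj => ?_
      rw [Finset.mem_range] at hj
      have e1 : m + 1 - (j + 1) = m - j := by omega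
      have e2 : lg N η l (j + 1) = lg N (star l η) 0 j := by
        rw [lg_eq N l hl η h0 l (j + 1) le_rfl, lg_eq N l hl (star l η) s0 0 j (Nat.zero_le _),
          card_last, card_last,
          card_first l (fun k => k < 0 ∧ j ≤ star l η k ∧ star l η k < star l η 0),
          card_first l (fun k => 0 < k ∧ j < star l η k ∧ star l η k ≤ star l η 0)]
        have g1 : ¬ (l < l ∧ j + 1 ≤ η l ∧ η l < η l) := by omega
        have g2 : ¬ (l < l ∧ j + 1 < η l ∧ η l ≤ η l) := by omega
        have g3 : ¬ (0 < 0 ∧ j ≤ star l η 0 ∧ star l η 0 < star l η 0) := by omega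
        have g4 : ¬ (0 < 0 ∧ j < star l η 0 ∧ star l η 0 ≤ star l η 0) := by omega
        rw [if_neg g1, if_neg g2, if_neg g3, if_neg g4]
        have f1 : (range l).filter (fun k => l < k ∧ j + 1 < η k ∧ η k ≤ η l) = ∅ := by
          refine Finset.filter_false_of_mem fun k hk => ?_
          rw [Finset.mem_range] at hk
          omega
        have f2 : (range l).filter (fun k => k + 1 < 0 ∧ j ≤ star l η (k + 1) ∧
            star l η (k + 1) < star l η 0) = ∅ := by
          refine Finset.filter_false_of_mem fun k hk => ?_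
          omega
        have f3 : (range l).filter (fun k => k < l ∧ j + 1 ≤ η k ∧ η k < η l) =
            (range l).filter (fun k => 0 < k + 1 ∧ j < star l η (k + 1) ∧
              star l η (k + 1) ≤ star l η 0) := by
          refine Finset.filter_congr fun k hk => ?_
          rw [Finset.mem_range] at hk
          rw [ss k hk, sz]
          omega
        rw [f1, f2, f3]
        simp
      rw [e1, e2]
  rw [r1, r2]
  ring

end JSup
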