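import Pool.Agent.Helper204.JS.Defs
import Pool.Agent.Helper204.JS.Defs1
import Pool.Agent.Helper204.JS.P_coeff_ee
import Pool.Agent.Helper204.JS.P_dEta_star

set_option linter.unusedSectionVars false

open MvPolynomial Finset

noncomputable section

namespace JSup
variable {K : Type} [Field K] [CharZero K] [Par K]



/-- HINT: `comp_induction` with `Fp_step`, `coeff_ee` (the terms `k > l` contribute 0), `dEta_star`. -/
theorem coeff_Fp_self (N : ℕ) (η : ℕ →₀ ℕ) (hη : ∀ k, N ≤ k → η k = 0) :
    coeff η (Fp N η : MvPolynomial ℕ K) = dEta N η := by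
  revert hη
  induction η using comp_induction with
  | h0 =>
    intro _
    rw [Fp_zero]
    simp [dEta]
  | hs l η hl h0 ih =>
    intro hη
    have hlN : l < N := by
      by_contra h
      exact hl (hη l (by omega))
    have hst : ∀ k, N ≤ k → star l η k = 0 := by
      intro k hk
      rw [star_apply, if_neg (by omega), if_neg (by omega)]
    rw [Fp_step N l η hl h0, Psi_apply, coeff_add, coeff_smul, coeff_sum,
      Finset.sum_eq_zero (fun k hk => (coeff_ee k η _).1 (h0 k (mem_Ioo.mp hk).1)),
      (coeff_ee l η _).2 hl h0, ih hst, dEta_star N l hlN η hl h0, add_zero, smul_eq_mul]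

end JSup
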