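import Pool.Agent.Helper204.JS.Defs
import Pool.Agent.Helper204.JS.Defs1

set_option linter.unusedSectionVars false

open MvPolynomial Finset

noncomputable section

namespace JSup
variable {K : Type} [Field K] [CharZero K] [Par K]



theorem coeff_antis_aux (σ : Equiv.Perm ℕ) (f : MvPolynomial ℕ K) (e : ℕ →₀ ℕ) :
    coeff e (rename σ f) = coeff (Finsupp.equivMapDomain σ⁻¹ e) f := by
  have h : e = Finsupp.mapDomain σ (Finsupp.equivMapDomain σ⁻¹ e) := by
    rw [← Finsupp.equivMapDomain_eq_mapDomain]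
    ext k
    rw [Finsupp.equivMapDomain_apply, Finsupp.equivMapDomain_apply]
    exact congrArg e (σ.apply_symm_apply k).symm
  conv_lhs => rw [h]
  exact coeff_rename_mapDomain σ σ.injective f _

theorem coeff_antis (k m : ℕ) (f : MvPolynomial ℕ K) (e : ℕ →₀ ℕ) :
    coeff e (antis k m f) = ∑ w : Equiv.Perm (Fin m), (((Equiv.Perm.sign w : ℤ)) : K) *
      coeff (Finsupp.equivMapDomain (emb k m w)⁻¹ e) f := by
  rw [antis_apply, coeff_sum]
  refine Finset.sum_congr rfl fun w _ => ?_
  rw [coeff_smul, coeff_antis_aux, smul_eq_mul]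

end JSup
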