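import Pool.Agent.Helper204.JS.Defs
import Pool.Agent.Helper204.JS.Defs1

set_option linter.unusedSectionVars false

open MvPolynomial Finset

noncomputable section

namespace JSup
variable {K : Type} [Field K] [CharZero K] [Par K]



theorem coeff_f0_s (k m : ℕ) : ∃ s : ℕ →₀ ℕ, (∀ j, s j = if m ≤ j ∧ j < k + m then 1 else 0) ∧
    (∏ i ∈ range k, X (m + i) : MvPolynomial ℕ K) = monomial s 1 := by
  induction k with
  | zero =>
    refine ⟨0, ?_, ?_⟩
    · intro j
      have : ¬ (m ≤ j ∧ j < 0 + m) := by omega
      simp [this]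
    · simp
  | succ k ih =>
    obtain ⟨s, hs, hp⟩ := ih
    refine ⟨s + Finsupp.single (m + k) 1, ?_, ?_⟩
    · intro j
      rw [Finsupp.add_apply, hs, Finsupp.single_apply]
      by_cases h1 : m + k = j
      · subst h1
        have h2 : ¬ (m ≤ m + k ∧ m + k < k + m) := by omega
        have h3 : m ≤ m + k ∧ m + k < k + 1 + m := by omega
        rw [if_neg h2, if_pos h3]
        simp
      · rw [if_neg h1]
        by_cases h2 : m ≤ j ∧ j < k + m
        · have h3 : m ≤ j ∧ j < k + 1 + m := by omega
          rw [if_pos h2, if_pos h3, add_zero]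
        · have h3 : ¬ (m ≤ j ∧ j < k + 1 + m) := by omega
          rw [if_neg h2, if_neg h3, add_zero]
    · rw [prod_range_succ, hp]
      rw [X, monomial_mul, mul_one]

/-- HINT: `e` is the exponent; a product of distinct variables divides: `coeff` is `coeff (e - Σ single)`; then
`coeff_rename_mapDomain` for the permutation `rot k m`. -/
theorem coeff_f0 (k m : ℕ) (g : MvPolynomial ℕ K) (e : ℕ →₀ ℕ) :
    ((∃ i, i < k ∧ e (m + i) = 0) → coeff e ((∏ i ∈ range k, X (m + i)) * rename (rot k m) g) = 0) ∧
    (∀ e' : ℕ →₀ ℕ, (∀ i, i < k → e (m + i) = e' i + 1) → (∀ i, i < m → e i = e' (k + i)) →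
      (∀ i, k + m ≤ i → e i = e' i) →
      coeff e ((∏ i ∈ range k, X (m + i)) * rename (rot k m) g) = coeff e' g) := by
  obtain ⟨s, hs, hp⟩ := coeff_f0_s (K := K) k m
  rw [hp, coeff_monomial_mul']
  constructor
  · rintro ⟨i, hi, h0⟩
    rw [if_neg]
    intro hle
    have h1 := hle (m + i)
    rw [hs, if_pos (by omega), h0] at h1
    omega
  · intro e' h1 h2 h3
    have hle : s ≤ e := by
      intro j
      rw [hs]
      by_cases hj : m ≤ j ∧ j < k + m
      · rw [if_pos hj]
        have h4 := h1 (j - m) (by omega)
        have h5 : m + (j - m) = j := by omega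
        rw [h5] at h4
        omega
      · rw [if_neg hj]
        exact Nat.zero_le _
    rw [if_pos hle, one_mul]
    have hE : e - s = Finsupp.mapDomain (rot k m) e' := by
      ext j
      rw [Finsupp.mapDomain_equiv_apply, rot_symm_apply, Finsupp.tsub_apply, hs]
      by_cases hj1 : j < m
      · rw [if_pos hj1, if_neg (by omega), h2 j hj1]
        rfl
      · rw [if_neg hj1]
        by_cases hj2 : j < k + m
        · rw [if_pos hj2, if_pos (by omega)]
          have h4 := h1 (j - m) (by omega)
          have h5 : m + (j - m) = j := by omega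
          rw [h5] at h4
          omega
        · rw [if_neg hj2, if_neg (by omega), h3 j (by omega)]
          rfl
    rw [hE]
    exact coeff_rename_mapDomain (rot k m) (rot k m).injective g e'

end JSup
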