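import Pool.Agent.Helper204.JS.Defs
import Pool.Agent.Helper204.JS.Defs1
import Pool.Agent.Helper204.JS.P_coeff_Fp_self
import Pool.Agent.Helper204.JS.P_Fp_coeff_rearr
import Pool.Agent.Helper204.JS.P_coeff_f0
import Pool.Agent.Helper204.JS.P_coeff_antis

set_option linter.unusedSectionVars false

open MvPolynomial Finset

noncomputable section

namespace JSup
variable {K : Type} [Field K] [CharZero K] [Par K]



/-- HINT: `coeff_f0` with `e' = η`; `coeff_antis`: the term `w` is nonzero only if `(emb k m w)⁻¹·η = η`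
(`Fp_coeff_rearr`), which forces `w = 1` because `η` is strictly increasing on the block; `coeff_Fp_self`. -/
theorem J_base (N k m : ℕ) (hN : k + m ≤ N) (η : ℕ →₀ ℕ) (h0 : ∀ i, k + m ≤ i → η i = 0)
    (h1 : ∀ i j, i ≤ j → j < k → η i ≤ η j) (h2 : ∀ i j, k ≤ i → i < j → j < k + m → η i < η j)
    (d : ℕ →₀ ℕ) (hd1 : ∀ i, i < m → d i = η (k + i)) (hd2 : ∀ i, i < k → d (m + i) = η i + 1)
    (hd3 : ∀ i, k + m ≤ i → d i = 0) :
    coeff d ((∏ i ∈ range k, X (m + i)) *
        rename (rot k m) ((cB N η k m : K)⁻¹ • antis k m (Fp N η : MvPolynomial ℕ K)))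
      = (cB N η k m : K)⁻¹ * dEta N η := by
  rw [(coeff_f0 k m _ d).2 η hd2 hd1 (fun i hi => by rw [hd3 i hi, h0 i hi]), coeff_smul,
    smul_eq_mul, coeff_antis]
  congr 1
  have h2' : ∀ i j, k ≤ i → i ≤ j → j < k + m → η i ≤ η j := by
    intro i j hi hij hj
    rcases hij.lt_or_eq with h | h
    · exact (h2 i j hi h hj).le
    · rw [h]
  rw [Finset.sum_eq_single 1]
  · have e1 : Finsupp.equivMapDomain (emb k m (1 : Equiv.Perm (Fin m)))⁻¹ η = η := by
      rw [map_one, inv_one]
      ext a
      rfl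
    rw [e1, coeff_Fp_self N η (fun k' hk' => h0 k' (by omega)), Equiv.Perm.sign_one]
    simp
  · intro w _ hw
    have hz : coeff (Finsupp.equivMapDomain (emb k m w)⁻¹ η) (Fp N η : MvPolynomial ℕ K) = 0 := by
      by_contra hne
      have hout : ∀ i, (i < k ∨ k + m ≤ i) → (emb k m w)⁻¹ i = i := by
        intro i hi
        rw [Equiv.Perm.inv_eq_iff_eq, emb_out k m w i hi]
      have hin : ∀ i : Fin m, (emb k m w)⁻¹ (k + (i : ℕ)) = k + ((w⁻¹ i : Fin m) : ℕ) := by
        intro i
        rw [← map_inv, emb_in]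
      have h3 := Fp_coeff_rearr N k m hN η h0 h1 h2' (emb k m w)⁻¹
        (fun i hi => by rw [hout i (Or.inl hi)]; exact hi)
        (fun i hi hi' => by
          obtain ⟨j, rfl⟩ : ∃ j : Fin m, i = k + (j : ℕ) := ⟨⟨i - k, by omega⟩, by
            show i = k + (i - k); omega⟩
          rw [hin j]
          have := (w⁻¹ j : Fin m).2
          omega)
        (fun i hi => hout i (Or.inr hi)) hne
      apply hw
      ext i
      have h4 := DFunLike.congr_fun h3 (k + (i : ℕ))
      rw [Finsupp.equivMapDomain_apply] at h4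
      have h5 : ((emb k m w)⁻¹).symm (k + (i : ℕ)) = k + ((w i : Fin m) : ℕ) := by
        show (emb k m w) (k + (i : ℕ)) = _
        exact emb_in k m w i
      rw [h5] at h4
      have h6 := (w i : Fin m).2
      have h7 := i.2
      rw [Equiv.Perm.one_apply]
      rcases lt_trichotomy ((w i : Fin m) : ℕ) (i : ℕ) with h | h | h
      · have := h2 (k + ((w i : Fin m) : ℕ)) (k + (i : ℕ)) (by omega) (by omega) (by omega)
        omega
      · exact h
      · have := h2 (k + (i : ℕ)) (k + ((w i : Fin m) : ℕ)) (by omega) (by omega) (by omega)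
        omega
    rw [hz, mul_zero]
  · intro h
    exact absurd (Finset.mem_univ _) h

end JSup
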