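import Pool.Agent.Helper204.JS.Defs
import Pool.Agent.Helper204.JS.Defs1
import Pool.Agent.Helper204.JS.P_Fp_coeff_rearr
import Pool.Agent.Helper204.JS.P_coeff_f0
import Pool.Agent.Helper204.JS.P_coeff_antis

set_option linter.unusedSectionVars false

open MvPolynomial Finset

noncomputable section

namespace JSup
variable {K : Type} [Field K] [CharZero K] [Par K]



/-- HINT: `f0 = (∏_{i<k} x_{m+i}) * rename (rot k m) (c_B⁻¹ • antis k m F_η)`. Let `e = σ·d` with `coeff e f0 ≠ 0`. By
`coeff_f0`, `e (m+i) ≠ 0` for `i<k`. `d` restricted to `[m,N)` has exactly `k` nonzero entries (positions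
`m..m+k-1`), `σ` permutes `[m,N)`, so `e` vanishes on `[m+k,N)`. Let `e'` be as in `coeff_f0`
(`e' i = e(m+i)-1`, `e'(k+i) = e i = d i = η (k+i)`, `0` beyond). `coeff e' (antis k m F_η) ≠ 0`, so by `coeff_antis`
some `ω = (emb k m w)⁻¹·e'` has `coeff ω F_η ≠ 0`; `ω = τ·η` for a permutation `τ` preserving `[0,k)`, `[k,k+m)` and
fixing the rest; `Fp_coeff_rearr` gives `ω = η`; so `e' i = η i` for `i<k`, i.e. `e (m+i) = d (m+i)`. -/
theorem J_cond (N k m : ℕ) (hN : k + m ≤ N) (η : ℕ →₀ ℕ) (h0 : ∀ i, k + m ≤ i → η i = 0)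
    (h1 : ∀ i j, i ≤ j → j < k → η i ≤ η j) (h2 : ∀ i j, k ≤ i → i < j → j < k + m → η i < η j)
    (d : ℕ →₀ ℕ) (hd1 : ∀ i, i < m → d i = η (k + i)) (hd2 : ∀ i, i < k → d (m + i) = η i + 1)
    (hd3 : ∀ i, k + m ≤ i → d i = 0) :
    ∀ σ : Equiv.Perm ℕ, (∀ i, (i < m ∨ N ≤ i) → σ i = i) →
      coeff (Finsupp.equivMapDomain σ d) ((∏ i ∈ range k, X (m + i)) *
        rename (rot k m) ((cB N η k m : K)⁻¹ • antis k m (Fp N η : MvPolynomial ℕ K))) ≠ 0 →
      ∀ i, m ≤ i → i < m + k → (Finsupp.equivMapDomain σ d) i = d i := by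
  intro σ hσ hne
  have hσs : ∀ i, (i < m ∨ N ≤ i) → σ.symm i = i := by
    intro i hi
    rw [Equiv.symm_apply_eq]
    exact (hσ i hi).symm
  -- (c)
  have hc : ∀ i, i < k → (Finsupp.equivMapDomain σ d) (m + i) ≠ 0 := by
    intro i hi h0'
    exact hne ((coeff_f0 k m _ _).1 ⟨i, hi, h0'⟩)
  -- σ maps [m,m+k) onto itself
  have hsub : Finset.Ico m (m + k) ⊆ (Finset.Ico m (m + k)).image σ := by
    intro i hi
    rw [Finset.mem_Ico] at hi
    have h3 := hc (i - m) (by omega)
    rw [show m + (i - m) = i by omega, Finsupp.equivMapDomain_apply] at h3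
    rw [Finset.mem_image]
    refine ⟨σ.symm i, ?_, by simp⟩
    rw [Finset.mem_Ico]
    constructor
    · by_contra hlt
      push Not at hlt
      have h4 := hσ (σ.symm i) (Or.inl hlt)
      rw [Equiv.apply_symm_apply] at h4
      omega
    · by_contra hge
      push Not at hge
      exact h3 (hd3 _ (by omega))
  have heq : Finset.Ico m (m + k) = (Finset.Ico m (m + k)).image σ := by
    apply Finset.eq_of_subset_of_card_le hsub
    rw [Finset.card_image_of_injective _ σ.injective]
  have hσin : ∀ i, m ≤ i → i < m + k → m ≤ σ i ∧ σ i < m + k := by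
    intro i h3 h4
    have : σ i ∈ (Finset.Ico m (m + k)).image σ :=
      Finset.mem_image_of_mem _ (Finset.mem_Ico.mpr ⟨h3, h4⟩)
    rw [← heq, Finset.mem_Ico] at this
    exact this
  have hσsin : ∀ i, m ≤ i → i < m + k → m ≤ σ.symm i ∧ σ.symm i < m + k := by
    intro i h3 h4
    have h5 := hsub (Finset.mem_Ico.mpr ⟨h3, h4⟩)
    rw [Finset.mem_image] at h5
    obtain ⟨j, hj, hji⟩ := h5
    rw [← hji, Equiv.symm_apply_apply]
    exact Finset.mem_Ico.mp hj
  have hout : ∀ i, m + k ≤ i → m + k ≤ σ.symm i := by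
    intro i hi
    by_contra hlt
    push Not at hlt
    by_cases h3 : σ.symm i < m
    · have h4 := hσ (σ.symm i) (Or.inl h3)
      rw [Equiv.apply_symm_apply] at h4
      omega
    · have h4 := hσin (σ.symm i) (by omega) hlt
      rw [Equiv.apply_symm_apply] at h4
      omega
  -- ρ
  obtain ⟨ρ, hρ1, hρ2, hρ3, hρ4⟩ : ∃ ρ : Equiv.Perm ℕ, (∀ i, i < k → ρ i = σ.symm (m + i) - m) ∧
      (∀ i, k ≤ i → ρ i = i) ∧ (∀ i, i < k → ρ.symm i < k) ∧ (∀ i, k ≤ i → ρ.symm i = i) := by
    refine ⟨{ toFun := fun i => if i < k then σ.symm (m + i) - m else i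
              invFun := fun i => if i < k then σ (m + i) - m else i
              left_inv := ?_
              right_inv := ?_ }, ?_, ?_, ?_, ?_⟩
    · intro i
      by_cases hi : i < k
      · have h3 := hσsin (m + i) (by omega) (by omega)
        have h4 : σ.symm (m + i) - m < k := by omega
        simp only [hi, if_true, h4]
        rw [show m + (σ.symm (m + i) - m) = σ.symm (m + i) by omega, Equiv.apply_symm_apply]
        omega
      · simp [hi]
    · intro i
      by_cases hi : i < k
      · have h3 := hσin (m + i) (by omega) (by omega)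
        have h4 : σ (m + i) - m < k := by omega
        simp only [hi, if_true, h4]
        rw [show m + (σ (m + i) - m) = σ (m + i) by omega, Equiv.symm_apply_apply]
        omega
      · simp [hi]
    · intro i hi
      show (if i < k then σ.symm (m + i) - m else i) = _
      rw [if_pos hi]
    · intro i hi
      show (if i < k then σ.symm (m + i) - m else i) = _
      rw [if_neg (by omega)]
    · intro i hi
      show (if i < k then σ (m + i) - m else i) < k
      rw [if_pos hi]
      have h3 := hσin (m + i) (by omega) (by omega)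
      omega
    · intro i hi
      show (if i < k then σ (m + i) - m else i) = i
      rw [if_neg (by omega)]
  have he : ∀ i, i < k → (Finsupp.equivMapDomain σ d) (m + i) = η (ρ i) + 1 := by
    intro i hi
    rw [Finsupp.equivMapDomain_apply]
    have h3 := hσsin (m + i) (by omega) (by omega)
    have h4 : σ.symm (m + i) = m + ρ i := by
      rw [hρ1 i hi]; omega
    have h5 : ρ i < k := by
      rw [hρ1 i hi]; omega
    rw [h4, hd2 _ h5]
  have hcoef := (coeff_f0 k m ((cB N η k m : K)⁻¹ • antis k m (Fp N η : MvPolynomial ℕ K))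
    (Finsupp.equivMapDomain σ d)).2 (Finsupp.equivMapDomain ρ.symm η)
    (by
      intro i hi
      rw [he i hi, Finsupp.equivMapDomain_apply, Equiv.symm_symm])
    (by
      intro i hi
      rw [Finsupp.equivMapDomain_apply, Finsupp.equivMapDomain_apply, Equiv.symm_symm,
        hσs i (Or.inl hi), hρ2 (k + i) (by omega), hd1 i hi])
    (by
      intro i hi
      rw [Finsupp.equivMapDomain_apply, Finsupp.equivMapDomain_apply, Equiv.symm_symm,
        hρ2 i (by omega), h0 i hi]
      exact hd3 _ (by have := hout i (by omega); omega))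
  rw [hcoef, coeff_smul, coeff_antis, smul_eq_mul] at hne
  have hne2 := right_ne_zero_of_mul hne
  obtain ⟨w, -, hw⟩ := Finset.exists_ne_zero_of_sum_ne_zero hne2
  have hw2 := right_ne_zero_of_mul hw
  rw [← Finsupp.equivMapDomain_trans] at hw2
  have hinv : ∀ i, (emb k m w)⁻¹ i = emb k m w⁻¹ i := fun i => by rw [map_inv]
  have hτ := Fp_coeff_rearr N k m hN η h0 h1
    (fun i j hi hij hj => by
      rcases Nat.lt_or_ge i j with h | h
      · exact (h2 i j hi h hj).le
      · have : i = j := by omega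
        rw [this])
    (ρ.symm.trans (emb k m w)⁻¹)
    (by
      intro i hi
      rw [Equiv.trans_apply, hinv, emb_out k m w⁻¹ _ (Or.inl (hρ3 i hi))]
      exact hρ3 i hi)
    (by
      intro i hi1 hi2
      rw [Equiv.trans_apply, hinv, hρ4 i hi1]
      have h3 := emb_in k m w⁻¹ ⟨i - k, by omega⟩
      simp only [show k + (i - k) = i by omega] at h3
      rw [h3]
      have := (w⁻¹ ⟨i - k, by omega⟩).2
      constructor <;> omega)
    (by
      intro i hi
      rw [Equiv.trans_apply, hinv, hρ4 i (by omega), emb_out k m w⁻¹ _ (Or.inr (by omega))])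
    hw2
  intro i hi1 hi2
  have h3 := he (i - m) (by omega)
  rw [show m + (i - m) = i by omega] at h3
  have h4 := hd2 (i - m) (by omega)
  rw [show m + (i - m) = i by omega] at h4
  rw [h3, h4]
  have h5 := congrArg (fun f => f (i - m)) hτ
  simp only [Finsupp.equivMapDomain_apply] at h5
  have h6 : (ρ.symm.trans (emb k m w)⁻¹).symm (i - m) = ρ (i - m) := by
    show ρ ((emb k m w)⁻¹.symm (i - m)) = ρ (i - m)
    have h7 : (emb k m w)⁻¹.symm (i - m) = emb k m w (i - m) := rfl
    rw [h7, emb_out k m w _ (Or.inl (by omega))]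
  rw [h6] at h5
  rw [h5]

end JSup
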