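import Pool.Agent.Helper204.JS.Defs
import Pool.Agent.Helper204.JS.Defs1

set_option linter.unusedSectionVars false

open MvPolynomial Finset

noncomputable section

namespace JSup
variable {K : Type} [Field K] [CharZero K] [Par K]



theorem symStep_lead_aux (j p : ℕ) (d : ℕ →₀ ℕ) (f : MvPolynomial ℕ K) :
    coeff d (rename (Equiv.swap p j) f) = coeff (Finsupp.equivMapDomain (Equiv.swap p j) d) f := by
  have h := MvPolynomial.coeff_rename_mapDomain (Equiv.swap p j) (Equiv.swap p j).injective f
    (Finsupp.equivMapDomain (Equiv.swap p j) d)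
  have e : Finsupp.mapDomain (Equiv.swap p j) (Finsupp.equivMapDomain (Equiv.swap p j) d) = d := by
    rw [← Finsupp.equivMapDomain_eq_mapDomain, ← Finsupp.equivMapDomain_trans]
    have : (Equiv.swap p j).trans (Equiv.swap p j) = Equiv.refl ℕ := by
      ext x; simp
    rw [this, Finsupp.equivMapDomain_refl]
  rw [e] at h
  exact h

/-- HINT: `coeff d (rename (swap p j) f) = coeff (equivMapDomain (swap p j) d) f`. If this is nonzero then by
`hc` (with `σ = swap p j`, `i = p`) `d j = d p`, and then `equivMapDomain (swap p j) d = d`; conversely if `d j = d p`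
then it is `coeff d f`. For the first claim apply `hc` to `swap p j * σ`: positions `< p` are not moved by the swap. -/
theorem symStep_lead (N m p : ℕ) (hm : m ≤ p) (hp : p < N) (d : ℕ →₀ ℕ) (f : MvPolynomial ℕ K)
    (hc : ∀ σ : Equiv.Perm ℕ, (∀ i, (i < m ∨ N ≤ i) → σ i = i) →
      coeff (Finsupp.equivMapDomain σ d) f ≠ 0 →
      ∀ i, m ≤ i → i < p + 1 → (Finsupp.equivMapDomain σ d) i = d i) :
    (∀ σ : Equiv.Perm ℕ, (∀ i, (i < m ∨ N ≤ i) → σ i = i) →
      coeff (Finsupp.equivMapDomain σ d) (symStep N p f) ≠ 0 →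
      ∀ i, m ≤ i → i < p → (Finsupp.equivMapDomain σ d) i = d i) ∧
    coeff d (symStep N p f) = (((Ico p N).filter (fun j => d j = d p)).card : K) * coeff d f := by
  have hswap : ∀ (j : ℕ) (e : ℕ →₀ ℕ) (i : ℕ),
      Finsupp.equivMapDomain (Equiv.swap p j) e i = e (Equiv.swap p j i) := by
    intro j e i
    rw [Finsupp.equivMapDomain_apply, Equiv.symm_swap]
  have hcs : ∀ e : ℕ →₀ ℕ, coeff e (symStep N p f) =
      ∑ j ∈ Ico p N, coeff (Finsupp.equivMapDomain (Equiv.swap p j) e) f := by
    intro e
    rw [symStep_apply, coeff_sum]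
    exact Finset.sum_congr rfl fun j _ => symStep_lead_aux j p e f
  constructor
  · intro σ hσ hne i him hip
    rw [hcs] at hne
    obtain ⟨j, hj, hjne⟩ := Finset.exists_ne_zero_of_sum_ne_zero hne
    rw [Finset.mem_Ico] at hj
    rw [← Finsupp.equivMapDomain_trans] at hjne
    have h1 := hc (σ.trans (Equiv.swap p j)) ?_ hjne i him (by omega)
    · rw [Finsupp.equivMapDomain_trans, hswap, Equiv.swap_apply_of_ne_of_ne (by omega) (by omega)] at h1
      exact h1
    · intro x hx
      rw [Equiv.trans_apply, hσ x hx, Equiv.swap_apply_of_ne_of_ne (by omega) (by omega)]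
  · rw [hcs, Finset.card_filter]
    push_cast
    rw [Finset.sum_mul]
    refine Finset.sum_congr rfl fun j hj => ?_
    rw [Finset.mem_Ico] at hj
    by_cases h : d j = d p
    · rw [if_pos h, one_mul]
      congr 1
      ext i
      rw [hswap]
      by_cases h1 : i = p
      · rw [h1, Equiv.swap_apply_left, h]
      · by_cases h2 : i = j
        · rw [h2, Equiv.swap_apply_right, h]
        · rw [Equiv.swap_apply_of_ne_of_ne h1 h2]
    · rw [if_neg h, zero_mul]
      by_contra hne
      have h1 := hc (Equiv.swap p j) (fun x hx => Equiv.swap_apply_of_ne_of_ne (by omega) (by omega))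
        hne p hm (by omega)
      rw [hswap, Equiv.swap_apply_left] at h1
      exact h h1

end JSup
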