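import Pool.Agent.Helper204.JS.Defs
import Pool.Agent.Helper204.JS.Defs1
import Pool.Agent.Helper204.JS.P_symStep_lead

set_option linter.unusedSectionVars false

open MvPolynomial Finset

noncomputable section

namespace JSup
variable {K : Type} [Field K] [CharZero K] [Par K]



/-- HINT: induction on `k` with `symStep_lead`. -/
theorem symChain_lead (N m p k : ℕ) (hm : m ≤ p) (hp : p + k ≤ N) (d : ℕ →₀ ℕ) (f : MvPolynomial ℕ K)
    (hc : ∀ σ : Equiv.Perm ℕ, (∀ i, (i < m ∨ N ≤ i) → σ i = i) →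
      coeff (Finsupp.equivMapDomain σ d) f ≠ 0 →
      ∀ i, m ≤ i → i < p + k → (Finsupp.equivMapDomain σ d) i = d i) :
    (∀ σ : Equiv.Perm ℕ, (∀ i, (i < m ∨ N ≤ i) → σ i = i) →
      coeff (Finsupp.equivMapDomain σ d) (symChain N p k f) ≠ 0 →
      ∀ i, m ≤ i → i < p → (Finsupp.equivMapDomain σ d) i = d i) ∧
    coeff d (symChain N p k f)
      = ((∏ q ∈ Ico p (p + k), ((Ico q N).filter (fun j => d j = d q)).card : ℕ) : K) * coeff d f := by
  induction k generalizing p with
  | zero =>
    refine ⟨hc, ?_⟩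
    show coeff d f = _
    rw [Nat.add_zero, Ico_self, prod_empty, Nat.cast_one, one_mul]
  | succ k ih =>
    have h1 : p + 1 + k = p + (k + 1) := by omega
    obtain ⟨hA, hB⟩ := ih (p + 1) (by omega) (by omega) (by rw [h1]; exact hc)
    obtain ⟨hC, hD⟩ := symStep_lead N m p hm (by omega) d (symChain N (p + 1) k f) hA
    refine ⟨hC, ?_⟩
    have h2 : symChain N p (k + 1) f = symStep N p (symChain N (p + 1) k f) := rfl
    rw [h2, hD, hB, h1, prod_eq_prod_Ico_succ_bot (show p < p + (k + 1) by omega), Nat.cast_mul,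
      mul_assoc]

end JSup
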