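import Pool.Agent.Helper204.JS.Defs
import Pool.Agent.Helper204.JS.Defs1
import Pool.Agent.Helper204.JS.P_symChain_lead
import Pool.Agent.Helper204.JS.P_J_cond
import Pool.Agent.Helper204.JS.P_J_base

set_option linter.unusedSectionVars false

open MvPolynomial Finset

noncomputable section

namespace JSup
variable {K : Type} [Field K] [CharZero K] [Par K]



theorem J_lead (N k m : ℕ) (hN : k + m ≤ N) (η : ℕ →₀ ℕ) (h0 : ∀ i, k + m ≤ i → η i = 0)
    (h1 : ∀ i j, i ≤ j → j < k → η i ≤ η j) (h2 : ∀ i j, k ≤ i → i < j → j < k + m → η i < η j)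
    (d : ℕ →₀ ℕ) (hd1 : ∀ i, i < m → d i = η (k + i)) (hd2 : ∀ i, i < k → d (m + i) = η i + 1)
    (hd3 : ∀ i, k + m ≤ i → d i = 0) :
    coeff d (Jraw N k m η : MvPolynomial ℕ K)
      = ((∏ p ∈ Ico m (m + k), ((Ico p N).filter (fun j => d j = d p)).card : ℕ) : K)
        * ((cB N η k m : K)⁻¹ * dEta N η) := by
  unfold Jraw
  rw [(symChain_lead N m m k le_rfl (by omega) d _ (J_cond N k m hN η h0 h1 h2 d hd1 hd2 hd3)).2,
    J_base N k m hN η h0 h1 h2 d hd1 hd2 hd3]

end JSup
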