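import Pool.Agent.Helper204.JS.Defs
import Pool.Agent.Helper204.JS.Defs1
import Pool.Agent.Helper204.JS.P_Fp_homog
import Pool.Agent.Helper204.JS.P_Fp_supp
import Pool.Agent.Helper204.JS.P_coeff_ee
import Pool.Agent.Helper204.JS.P_tilde_star
import Pool.Agent.Helper204.JS.P_Fp_tilde

set_option linter.unusedSectionVars false

open MvPolynomial Finset

noncomputable section

namespace JSup
variable {K : Type} [Field K] [CharZero K] [Par K]



theorem aux_vanish (N : ℕ) (η : ℕ →₀ ℕ) (hη : ∀ i, N ≤ i → η i = 0) (ω : ℕ →₀ ℕ)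
    (h : coeff ω (Fp N η : MvPolynomial ℕ K) ≠ 0) : ∀ i, N ≤ i → ω i = 0 := by
  intro i hi
  by_contra hne
  have h1 := (Fp_homog (K := K) N η hη).2 i ?_
  · omega
  · rw [mem_vars_iff_mem_support]
    exact ⟨ω, MvPolynomial.mem_support_iff.2 h, Finsupp.mem_support_iff.2 hne⟩

theorem aux_tilde_zero (N : ℕ) (ω : ℕ →₀ ℕ) (hω : ∀ i, N ≤ i → ω i = 0) : tilde N 0 ω = ω := by
  ext i
  rw [tilde_apply]
  by_cases h : i < N - 0
  · rw [if_pos h, add_zero]
  · rw [if_neg h, if_neg (by omega), hω i (by omega)]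

theorem aux_tilde_vanish (N k : ℕ) (ω : ℕ →₀ ℕ) : ∀ i, N ≤ i → tilde N k ω i = 0 := by
  intro i hi
  rw [tilde_apply, if_neg (by omega), if_neg (by omega)]

theorem aux_coeff_tilde (N k : ℕ) (hk : k ≤ N) (ω : ℕ →₀ ℕ) (hω : ∀ i, N ≤ i → ω i = 0)
    (f : MvPolynomial ℕ K) :
    coeff (tilde N k ω) (((ee (N - 1) : Module.End K (MvPolynomial ℕ K)) ^ k) f) = coeff ω f := by
  induction k with
  | zero =>
    rw [aux_tilde_zero N ω hω, pow_zero]
    rfl
  | succ k ih =>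
    obtain ⟨h1, h2, h3⟩ := tilde_star N k (by omega) ω hω
    rw [pow_succ']
    show coeff (tilde N (k + 1) ω) (ee (N - 1)
      (((ee (N - 1) : Module.End K (MvPolynomial ℕ K)) ^ k) f)) = _
    rw [(coeff_ee (N - 1) (tilde N (k + 1) ω) _).2 h2
      (fun i hi => aux_tilde_vanish N (k + 1) ω i (by omega)), h1]
    exact ih (by omega)

theorem aux_hth_tilde (N k : ℕ) (hk : k ≤ N) (ω : ℕ →₀ ℕ) (t : ℕ) :
    hth N t (tilde N k ω) = hth N t (addOne k ω) := by
  obtain ⟨m, rfl⟩ : ∃ m, N = m + k := ⟨N - k, by omega⟩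
  unfold hth
  rw [Finset.sum_range_add]
  have h2 : ∑ i ∈ range (m + k), (addOne k ω i - t) =
      ∑ i ∈ range k, (addOne k ω i - t) + ∑ i ∈ range m, (addOne k ω (k + i) - t) := by
    rw [add_comm m k, Finset.sum_range_add]
  rw [h2, add_comm]
  congr 1
  · refine Finset.sum_congr rfl fun i hi => ?_
    rw [Finset.mem_range] at hi
    rw [tilde_apply, if_neg (by omega), if_pos (by omega)]
    unfold addOne
    rw [if_pos hi]
    congr 3
    omega
  · refine Finset.sum_congr rfl fun i hi => ?_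
    rw [Finset.mem_range] at hi
    rw [tilde_apply, if_pos (by omega)]
    unfold addOne
    rw [if_neg (by omega), add_comm i k]

/-- HINT: if `coeff ω (Fp N η) ≠ 0` then `coeff (tilde N k ω) (Fp N (tilde N k η)) ≠ 0` (by `Fp_tilde` and
`coeff_ee`/`ee_iter`: `(ee (N-1))^k x^ω = x^{tilde N k ω}`, injective on monomials; `ω` vanishes beyond `N` by
`Fp_homog`), so `CLe` by `Fp_supp`; and `hth N t (tilde N k ω) = hth N t (addOne k ω)` (reindex the sum). -/
theorem Fp_supp_shift (N k : ℕ) (hk : k ≤ N) (η : ℕ →₀ ℕ) (hη : ∀ i, N ≤ i → η i = 0) (ω : ℕ →₀ ℕ)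
    (h : coeff ω (Fp N η : MvPolynomial ℕ K) ≠ 0) (t : ℕ) :
    hth N t (addOne k ω) ≤ hth N t (addOne k η) := by
  have hω := aux_vanish N η hη ω h
  obtain ⟨c, hc, hF⟩ := Fp_tilde (K := K) N k hk η hη
  have h1 : coeff (tilde N k ω) (Fp N (tilde N k η) : MvPolynomial ℕ K) ≠ 0 := by
    rw [hF, coeff_smul, aux_coeff_tilde N k hk ω hω, smul_eq_mul]
    exact mul_ne_zero hc h
  have h2 := Fp_supp N (tilde N k η) (aux_tilde_vanish N k η) (tilde N k ω) h1
  have h3 := h2.1 t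
  rw [aux_hth_tilde N k hk ω t, aux_hth_tilde N k hk η t] at h3
  exact h3

end JSup
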