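import Pool.Agent.Helper204.JS.Defs
import Pool.Agent.Helper204.JS.Defs1

set_option linter.unusedSectionVars false

open MvPolynomial Finset

noncomputable section

namespace JSup
variable {K : Type} [Field K] [CharZero K] [Par K]



/-- HINT: induction on `k`; a nonzero coefficient of a sum has a nonzero summand; compose the swaps. -/
theorem symChain_supp (N m p k : ℕ) (hm : m ≤ p) (hp : p + k ≤ N) (d : ℕ →₀ ℕ) (f : MvPolynomial ℕ K)
    (h : coeff d (symChain N p k f) ≠ 0) :
    ∃ σ : Equiv.Perm ℕ, (∀ i, (i < m ∨ N ≤ i) → σ i = i) ∧ coeff (Finsupp.equivMapDomain σ d) f ≠ 0 := by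
  induction k generalizing p d with
  | zero =>
    refine ⟨Equiv.refl ℕ, fun i _ => rfl, ?_⟩
    rw [Finsupp.equivMapDomain_refl]
    exact h
  | succ k ih =>
    have h1 : symChain N p (k + 1) f = symStep N p (symChain N (p + 1) k f) := rfl
    rw [h1, symStep_apply, coeff_sum] at h
    obtain ⟨j, hj, hj2⟩ := Finset.exists_ne_zero_of_sum_ne_zero h
    rw [Finset.mem_Ico] at hj
    have h2 : d = Finsupp.mapDomain (Equiv.swap p j) (Finsupp.equivMapDomain (Equiv.swap p j) d) := by
      rw [Finsupp.equivMapDomain_eq_mapDomain, ← Finsupp.mapDomain_comp]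
      have : (⇑(Equiv.swap p j) ∘ ⇑(Equiv.swap p j)) = id := by
        funext i
        exact Equiv.swap_apply_self p j i
      rw [this, Finsupp.mapDomain_id]
    rw [h2, coeff_rename_mapDomain _ (Equiv.injective _)] at hj2
    obtain ⟨σ, hσ1, hσ2⟩ := ih (p + 1) (by omega) (by omega) _ hj2
    refine ⟨(Equiv.swap p j).trans σ, ?_, ?_⟩
    · intro i hi
      rw [Equiv.trans_apply, Equiv.swap_apply_of_ne_of_ne (by omega) (by omega)]
      exact hσ1 i hi
    · rw [Finsupp.equivMapDomain_trans]
      exact hσ2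

end JSup
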