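import Pool.Agent.Helper204.JS.Defs
import Pool.Agent.Helper204.JS.Defs1
import Pool.Agent.Helper204.JS.P_Fp_supp_shift
import Pool.Agent.Helper204.JS.P_sq_psm_perm
import Pool.Agent.Helper204.JS.P_symChain_supp
import Pool.Agent.Helper204.JS.P_coeff_f0
import Pool.Agent.Helper204.JS.P_coeff_antis

set_option linter.unusedSectionVars false

open MvPolynomial Finset

noncomputable section

namespace JSup
variable {K : Type} [Field K] [CharZero K] [Par K]



theorem hth_comp_aux (N : ℕ) (σ : Equiv.Perm ℕ) (hσ : ∀ k, N ≤ k → σ k = k) (f g : ℕ → ℕ) (t : ℕ)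
    (h : ∀ i, g i = f (σ i)) : hth N t g = hth N t f := by
  have h1 : g = f ∘ σ := funext h
  rw [h1]
  have : CharZero ℚ := inferInstance
  unfold hth
  refine Finset.sum_nbij' (fun i => σ i) (fun i => σ.symm i) ?_ ?_ ?_ ?_ ?_
  · intro i hi
    simp only [mem_range] at hi ⊢
    by_contra hc
    have h2 := hσ (σ i) (by omega)
    have h3 := σ.injective h2
    omega
  · intro i hi
    simp only [mem_range] at hi ⊢
    by_contra hc
    have h2 := hσ (σ.symm i) (by omega)
    rw [Equiv.apply_symm_apply] at h2
    omega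
  · intro i _; simp
  · intro i _; simp
  · intro i _; rfl

/-- HINT: `symChain_supp` gives `σ` fixing `[0,m)` and `[N,∞)` with `e1 = σ·e` in the support of
`(∏ x_{m+i}) * rename rot (c⁻¹ • antis k m F_η)`; by `coeff_f0` with `e1'` (`e1' i = e1(m+i)-1`, `e1'(k+i) = e1 i`) and
`coeff_antis` there is `w` with `ω = (emb k m w)⁻¹·e1'` in the support of `F_η`. Now `hth N t e = hth N t e1 =
hth N t (addOne k e1') = hth N t (addOne k ω)` and `hth N t (addOne m e) = hth N t (addOne m e1) =
hth N t (addOne (k+m) e1') = hth N t (addOne (k+m) ω)` (each time the two functions differ by a permutation of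
`[0,N)`, `sq_psm_perm`), and `Fp_supp_shift` with `k` and with `k+m`. -/
theorem J_supp (N k m : ℕ) (hN : k + m ≤ N) (η : ℕ →₀ ℕ) (hη : ∀ i, N ≤ i → η i = 0) (e : ℕ →₀ ℕ)
    (h : coeff e (Jraw N k m η : MvPolynomial ℕ K) ≠ 0) (t : ℕ) :
    hth N t e ≤ hth N t (addOne k η) ∧ hth N t (addOne m e) ≤ hth N t (addOne (k + m) η) := by
  unfold Jraw at h
  obtain ⟨σ, hσ, h1⟩ := symChain_supp N m m k le_rfl (by omega) e _ h
  set e1 : ℕ →₀ ℕ := Finsupp.equivMapDomain σ e with he1
  have he1a : ∀ i, e1 i = e (σ.symm i) := fun i => Finsupp.equivMapDomain_apply _ _ _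
  set g : MvPolynomial ℕ K := (cB N η k m : K)⁻¹ • antis k m (Fp N η) with hg
  have hf0 := coeff_f0 k m g e1
  have hpos : ∀ i, i < k → e1 (m + i) ≠ 0 := by
    intro i hi h0
    exact h1 (hf0.1 ⟨i, hi, h0⟩)
  let e1' : ℕ →₀ ℕ := Finsupp.onFinset (range (k + m) ∪ e1.support)
    (fun j => if j < k then e1 (m + j) - 1 else if j < k + m then e1 (j - k) else e1 j) (by
      intro j hj
      simp only [mem_union, mem_range]
      by_cases hj1 : j < k + m
      · exact Or.inl hj1
      · right
        have h2 : ¬ j < k := by omega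
        rw [if_neg h2, if_neg hj1] at hj
        exact Finsupp.mem_support_iff.mpr hj)
  have he1' : ∀ j, e1' j = if j < k then e1 (m + j) - 1 else if j < k + m then e1 (j - k) else e1 j :=
    fun j => rfl
  have h2 : coeff e1 ((∏ i ∈ range k, X (m + i)) * rename (rot k m) g) = coeff e1' g := by
    apply hf0.2 e1'
    · intro i hi
      rw [he1', if_pos hi]
      have := hpos i hi
      omega
    · intro i hi
      rw [he1', if_neg (by omega), if_pos (by omega)]
      congr 1
      omega
    · intro i hi
      rw [he1', if_neg (by omega), if_neg (by omega)]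
  rw [h2, hg, coeff_smul] at h1
  have h3 : coeff e1' (antis k m (Fp N η : MvPolynomial ℕ K)) ≠ 0 := right_ne_zero_of_mul h1
  rw [coeff_antis] at h3
  obtain ⟨w, -, hw⟩ := Finset.exists_ne_zero_of_sum_ne_zero h3
  have h4 := right_ne_zero_of_mul hw
  set ω : ℕ →₀ ℕ := Finsupp.equivMapDomain (emb k m w)⁻¹ e1' with hω
  have hωa : ∀ i, ω i = e1' (emb k m w i) := by
    intro i
    rw [hω, Finsupp.equivMapDomain_apply]
    rfl
  -- facts on the permutations
  have hσs : ∀ i, (i < m ∨ N ≤ i) → σ.symm i = i := by
    intro i hi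
    rw [Equiv.symm_apply_eq]
    exact (hσ i hi).symm
  have hσm : ∀ i, m ≤ i → m ≤ σ.symm i := by
    intro i hi
    by_contra hc
    have h5 := hσ (σ.symm i) (Or.inl (by omega))
    rw [Equiv.apply_symm_apply] at h5
    omega
  have hrot : ∀ i, N ≤ i → rot k m i = i := by
    intro i hi
    rw [rot_apply, if_neg (by omega), if_neg (by omega)]
  have hemb1 : ∀ i, i < k → emb k m w i = i := fun i hi => emb_out k m w i (Or.inl hi)
  have hemb3 : ∀ i, k + m ≤ i → emb k m w i = i := fun i hi => emb_out k m w i (Or.inr hi)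
  have hemb2 : ∀ i, k ≤ i → i < k + m → k ≤ emb k m w i ∧ emb k m w i < k + m := by
    intro i hi1 hi2
    obtain ⟨j, rfl⟩ : ∃ j, i = k + j := ⟨i - k, by omega⟩
    have h5 := emb_in k m w ⟨j, by omega⟩
    simp only at h5
    rw [h5]
    have := (w ⟨j, by omega⟩).2
    omega
  have hembN : ∀ i, N ≤ i → emb k m w i = i := fun i hi => hemb3 i (by omega)
  -- chain 1
  have a1 : hth N t e1 = hth N t e :=
    hth_comp_aux N σ.symm (fun i hi => hσs i (Or.inr hi)) e e1 t he1a
  have a2 : hth N t (addOne k e1') = hth N t e1 := by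
    apply hth_comp_aux N (rot k m) hrot
    intro i
    unfold addOne
    rw [he1', rot_apply]
    by_cases hi : i < k
    · rw [if_pos hi, if_pos hi, if_pos hi]
      have := hpos i hi
      omega
    · rw [if_neg hi, if_neg hi, if_neg hi]
      by_cases hi2 : i < k + m
      · rw [if_pos hi2, if_pos hi2]
      · rw [if_neg hi2, if_neg hi2]
  have a3 : hth N t (addOne k ω) = hth N t (addOne k e1') := by
    apply hth_comp_aux N (emb k m w) hembN
    intro i
    unfold addOne
    rw [hωa]
    by_cases hi : i < k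
    · rw [if_pos hi, hemb1 i hi, if_pos hi]
    · rw [if_neg hi]
      by_cases hi2 : i < k + m
      · rw [if_neg (by have := hemb2 i (by omega) hi2; omega)]
      · rw [if_neg (by rw [hemb3 i (by omega)]; exact hi)]
  -- chain 2
  have b1 : hth N t (addOne m e1) = hth N t (addOne m e) := by
    apply hth_comp_aux N σ.symm (fun i hi => hσs i (Or.inr hi))
    intro i
    unfold addOne
    rw [he1a]
    by_cases hi : i < m
    · rw [if_pos hi, hσs i (Or.inl hi), if_pos hi]
    · rw [if_neg hi, if_neg (by have := hσm i (by omega); omega)]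
  have b2 : hth N t (addOne (k + m) e1') = hth N t (addOne m e1) := by
    apply hth_comp_aux N (rot k m) hrot
    intro i
    unfold addOne
    rw [he1', rot_apply]
    by_cases hi : i < k
    · rw [if_pos hi, if_pos hi, if_pos (by omega), if_neg (by omega)]
      have := hpos i hi
      omega
    · by_cases hi2 : i < k + m
      · simp only [hi, hi2, if_true, if_false]
        rw [if_pos (by omega)]
      · simp only [hi, hi2, if_false]
        rw [if_neg (by omega)]
  have b3 : hth N t (addOne (k + m) ω) = hth N t (addOne (k + m) e1') := by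
    apply hth_comp_aux N (emb k m w) hembN
    intro i
    unfold addOne
    rw [hωa]
    by_cases hi : i < k
    · rw [hemb1 i hi]
    · by_cases hi2 : i < k + m
      · rw [if_pos hi2, if_pos (by have := hemb2 i (by omega) hi2; omega)]
      · rw [if_neg hi2, if_neg (by rw [hemb3 i (by omega)]; exact hi2)]
  constructor
  · rw [← a1, ← a2, ← a3]
    exact Fp_supp_shift N k (by omega) η hη ω h4 t
  · rw [← b1, ← b2, ← b3]
    exact Fp_supp_shift N (k + m) hN η hη ω h4 t

end JSup
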