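import Pool.Agent.Helper204.JS.Defs
import Pool.Agent.Helper204.JS.Defs1

set_option linter.unusedSectionVars false

open MvPolynomial Finset

noncomputable section

namespace JSup
variable {K : Type} [Field K] [CharZero K] [Par K]



/-- HINT: each factor `1 - y_i + y_j` has the form `(η_j - η_i) α + integer` with `η_j ≠ η_i`: nonzero by `Par.indep`. -/
theorem cB_ne (N a m : ℕ) (η : ℕ →₀ ℕ) (hinj : ∀ i j, a ≤ i → i < j → j < a + m → η i ≠ η j) :
    (cB N η a m : K) ≠ 0 := by
  unfold cB
  rw [Finset.prod_ne_zero_iff]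
  intro p hp
  rw [Finset.mem_filter, Finset.mem_product, Finset.mem_range, Finset.mem_range] at hp
  obtain ⟨⟨h1, h2⟩, h3⟩ := hp
  have hne : η (a + p.1) ≠ η (a + p.2) := hinj _ _ (by omega) (by omega) (by omega)
  intro h0
  have h4 : (((η (a + p.2) : ℤ) - (η (a + p.1) : ℤ) : ℤ) : K) * Par.al +
      ((1 + (((range (a + p.1)).filter (fun j => η (a + p.1) ≤ η j)).card : ℤ)
        + (((Ioo (a + p.1) N).filter (fun j => η (a + p.1) < η j)).card : ℤ)
        - (((range (a + p.2)).filter (fun j => η (a + p.2) ≤ η j)).card : ℤ)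
        - (((Ioo (a + p.2) N).filter (fun j => η (a + p.2) < η j)).card : ℤ) : ℤ) : K) = 0 := by
    rw [← h0]
    unfold yv al
    push_cast
    ring
  have h5 := Par.indep (K := K) _ _ h4
  apply hne
  omega

end JSup
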