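import Mathlib

set_option linter.unusedSectionVars false

open MvPolynomial Finset

noncomputable section

namespace JSup

/-- a field with a parameter `α` such that `aα + b = 0` (`a b` integers) only for `a = 0`. -/
class Par (K : Type) [Field K] where
  al : K
  indep : ∀ a b : ℤ, (a : K) * al + (b : K) = 0 → a = 0

variable {K : Type} [Field K] [CharZero K] [Par K]

/-- the parameter `α`. -/
def al : K := Par.al

/-- the ring `ℤ[α]` inside `K`. -/
def ZA (K : Type) [Field K] [Par K] : Subalgebra ℤ K := Algebra.adjoin ℤ {(al : K)}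

/-- all coefficients lie in `ℤ[α]`. -/
def Itg (f : MvPolynomial ℕ K) : Prop := ∀ d, MvPolynomial.coeff d f ∈ ZA K

/-- `f` involves only the variables `x_0,…,x_{N-1}`. -/
def VarsLt (N : ℕ) (f : MvPolynomial ℕ K) : Prop := ∀ k ∈ f.vars, k < N

theorem dd_exists {R : Type} [CommRing R] (i j : ℕ) (f : MvPolynomial ℕ R) :
    ∃ g : MvPolynomial ℕ R, f - rename (Equiv.swap i j) f = (X i - X j) * g := by
  induction f using MvPolynomial.induction_on with
  | C a => exact ⟨0, by simp⟩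
  | add p q hp hq =>
    obtain ⟨g, hg⟩ := hp
    obtain ⟨h, hh⟩ := hq
    refine ⟨g + h, ?_⟩
    rw [map_add, mul_add, ← hg, ← hh]; ring
  | mul_X p k hp =>
    obtain ⟨g, hg⟩ := hp
    have key : ∃ u : MvPolynomial ℕ R, (X k : MvPolynomial ℕ R) - X (Equiv.swap i j k) = (X i - X j) * u := by
      by_cases h1 : k = i
      · subst h1; exact ⟨1, by simp⟩
      · by_cases h2 : k = j
        · subst h2; exact ⟨-1, by simp⟩
        · exact ⟨0, by simp [Equiv.swap_apply_of_ne_of_ne h1 h2]⟩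
    obtain ⟨u, hu⟩ := key
    refine ⟨g * X k + rename (Equiv.swap i j) p * u, ?_⟩
    have h3 : rename (Equiv.swap i j) (p * X k) = rename (Equiv.swap i j) p * X (Equiv.swap i j k) := by
      simp
    rw [h3, mul_add, ← mul_assoc, ← hg]
    have h4 : (X i - X j) * (rename (Equiv.swap i j) p * u) = rename (Equiv.swap i j) p * (X k - X (Equiv.swap i j k)) := by
      rw [hu]; ring
    rw [h4]; ring

theorem X_sub_ne {R : Type} [CommRing R] [Nontrivial R] {i j : ℕ} (h : i ≠ j) :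
    (X i - X j : MvPolynomial ℕ R) ≠ 0 := by
  intro h0
  exact h (X_injective (sub_eq_zero.mp h0))

/-- divided difference `∂_{ij} f = (f - s_{ij} f)/(x_i - x_j)` (`0` for `i = j`). -/
def dd (i j : ℕ) : MvPolynomial ℕ K →ₗ[K] MvPolynomial ℕ K :=
  if h : i = j then 0 else
  { toFun := fun f => Classical.choose (dd_exists i j f)
    map_add' := by
      intro f g
      apply mul_left_cancel₀ (X_sub_ne (R := K) h)
      rw [← Classical.choose_spec (dd_exists i j (f + g)), mul_add, ← Classical.choose_spec (dd_exists i j f),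
        ← Classical.choose_spec (dd_exists i j g), map_add]; ring
    map_smul' := by
      intro c f
      apply mul_left_cancel₀ (X_sub_ne (R := K) h)
      rw [← Classical.choose_spec (dd_exists i j (c • f)), RingHom.id_apply, mul_smul_comm,
        ← Classical.choose_spec (dd_exists i j f), map_smul, smul_sub] }

theorem dd_spec (i j : ℕ) (f : MvPolynomial ℕ K) :
    (X i - X j) * dd i j f = f - rename (Equiv.swap i j) f := by
  by_cases h : i = j
  · subst h; simp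
  · unfold dd; rw [dif_neg h]; exact (Classical.choose_spec (dd_exists i j f)).symm

theorem dd_unique {i j : ℕ} (h : i ≠ j) {f g : MvPolynomial ℕ K}
    (hg : (X i - X j) * g = f - rename (Equiv.swap i j) f) : dd i j f = g :=
  mul_left_cancel₀ (X_sub_ne (R := K) h) (by rw [dd_spec, hg])

@[simp] theorem dd_self (i : ℕ) (f : MvPolynomial ℕ K) : dd i i f = 0 := by
  unfold dd; simp

/-- multiplication by `x_i`. -/
def mX (i : ℕ) : MvPolynomial ℕ K →ₗ[K] MvPolynomial ℕ K := LinearMap.mulLeft K (X i)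

@[simp] theorem mX_apply (i : ℕ) (f : MvPolynomial ℕ K) : mX i f = X i * f := rfl

/-- `δ_i = x_i ∂/∂x_i`. -/
def del (i : ℕ) : MvPolynomial ℕ K →ₗ[K] MvPolynomial ℕ K := (mX i) ∘ₗ (pderiv i).toLinearMap

@[simp] theorem del_apply (i : ℕ) (f : MvPolynomial ℕ K) : del i f = X i * pderiv i f := rfl

/-- the Cherednik operator (indices `0 ≤ i < N`):
`Y_i = α δ_i + Σ_{j<i} x_i ∂_{ij} + Σ_{i<j<N} x_j ∂_{ij} - i`. -/
def Yop (N i : ℕ) : MvPolynomial ℕ K →ₗ[K] MvPolynomial ℕ K :=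
  (al : K) • del i + ∑ j ∈ range i, (mX i) ∘ₗ (dd i j) + ∑ j ∈ Ioo i N, (mX j) ∘ₗ (dd i j)
    - (i : K) • LinearMap.id

theorem Yop_apply (N i : ℕ) (f : MvPolynomial ℕ K) :
    Yop N i f = (al : K) • (X i * pderiv i f) + ∑ j ∈ range i, X i * dd i j f
      + ∑ j ∈ Ioo i N, X j * dd i j f - (i : K) • f := by
  simp [Yop, LinearMap.sum_apply]

/-- the cycle `0 ↦ j`, `k ↦ k-1` for `1 ≤ k ≤ j`, `k ↦ k` for `k > j`. -/
def cyc (j : ℕ) : Equiv.Perm ℕ where
  toFun k := if k = 0 then j else if k ≤ j then k - 1 else k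
  invFun k := if k = j then 0 else if k < j then k + 1 else k
  left_inv k := by
    by_cases h1 : k = 0
    · simp [h1]
    · by_cases h2 : k ≤ j
      · have h3 : k - 1 ≠ j := by omega
        have h4 : k - 1 < j := by omega
        simp only [h1, h2, if_true, if_false, h3, h4]; omega
      · have h3 : k ≠ j := by omega
        have h4 : ¬ k < j := by omega
        simp [h1, h2, h3, h4]
  right_inv k := by
    by_cases h1 : k = j
    · simp [h1]
    · by_cases h2 : k < j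
      · have h3 : k + 1 ≠ 0 := by omega
        have h4 : k + 1 ≤ j := by omega
        simp only [h1, h2, if_true, if_false, h3, h4]; omega
      · have h3 : k ≠ 0 := by omega
        have h4 : ¬ k ≤ j := by omega
        simp [h1, h2, h3, h4]

theorem cyc_apply (j k : ℕ) : cyc j k = if k = 0 then j else if k ≤ j then k - 1 else k := rfl

theorem cyc_symm_apply (j k : ℕ) : (cyc j).symm k = if k = j then 0 else if k < j then k + 1 else k := rfl

/-- `e_j f = x_j f(x_j, x_0, …, x_{j-1}, x_{j+1}, …)`. -/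
def ee (j : ℕ) : MvPolynomial ℕ K →ₗ[K] MvPolynomial ℕ K :=
  (mX j) ∘ₗ (rename (cyc j) : MvPolynomial ℕ K →ₐ[K] MvPolynomial ℕ K).toLinearMap

theorem ee_apply (j : ℕ) (f : MvPolynomial ℕ K) : ee j f = X j * rename (cyc j) f := rfl

/-- `Ψ_A^ℓ = (A + ℓ + 1) e_ℓ + Σ_{ℓ<k<N} e_k`. -/
def Psi (N l : ℕ) (A : K) : MvPolynomial ℕ K →ₗ[K] MvPolynomial ℕ K :=
  (A + l + 1) • ee l + ∑ k ∈ Ioo l N, ee k

theorem Psi_apply (N l : ℕ) (A : K) (f : MvPolynomial ℕ K) :
    Psi N l A f = (A + l + 1) • ee l f + ∑ k ∈ Ioo l N, ee k f := by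
  simp [Psi, LinearMap.sum_apply]

/-- the eigenvalue `y_i(η) = α η_i - #{j < i : η_j ≥ η_i} - #{i < j < N : η_j > η_i}`. -/
def yv (N : ℕ) (η : ℕ →₀ ℕ) (i : ℕ) : K :=
  al * (η i : K) - (((range i).filter (fun j => η i ≤ η j)).card : K)
    - (((Ioo i N).filter (fun j => η i < η j)).card : K)

/-- `κ_ℓ(η) = α η_ℓ - #{j < ℓ : η_j ≥ η_ℓ}`. -/
def kap (l : ℕ) (η : ℕ →₀ ℕ) : K :=
  al * (η l : K) - (((range l).filter (fun j => η l ≤ η j)).card : K)

/-- `η^* = (η_ℓ - 1, η_0, …, η_{ℓ-1}, 0, …)`. -/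
def star (l : ℕ) (η : ℕ →₀ ℕ) : ℕ →₀ ℕ :=
  Finsupp.onFinset (range (l + 1)) (fun k => if k = 0 then η l - 1 else if k ≤ l then η (k - 1) else 0)
    (by
      intro k hk
      simp only [mem_range]
      by_contra h
      apply hk
      have h1 : k ≠ 0 := by omega
      have h2 : ¬ k ≤ l := by omega
      simp [h1, h2])

theorem star_apply (l : ℕ) (η : ℕ →₀ ℕ) (k : ℕ) :
    star l η k = if k = 0 then η l - 1 else if k ≤ l then η (k - 1) else 0 := rfl

theorem star_sum (l : ℕ) (η : ℕ →₀ ℕ) (hl : η l ≠ 0) (h0 : ∀ k, l < k → η k = 0) :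
    (star l η).sum (fun _ n => n) + 1 = η.sum (fun _ n => n) := by
  have h1 : (star l η).sum (fun _ n => n) = ∑ k ∈ range (l + 1), star l η k := by
    rw [Finsupp.sum_of_support_subset (s := range (l+1))]
    · intro k hk
      simp only [Finsupp.mem_support_iff, star_apply] at hk
      simp only [mem_range]
      by_contra h
      apply hk
      have h1 : k ≠ 0 := by omega
      have h2 : ¬ k ≤ l := by omega
      simp [h1, h2]
    · simp
  have h2 : η.sum (fun _ n => n) = ∑ k ∈ range (l + 1), η k := by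
    rw [Finsupp.sum_of_support_subset (s := range (l+1))]
    · intro k hk
      simp only [Finsupp.mem_support_iff] at hk
      simp only [mem_range]
      by_contra h
      exact hk (h0 k (by omega))
    · simp
  rw [h1, h2, Finset.sum_range_succ', Finset.sum_range_succ]
  have h3 : ∑ k ∈ range l, star l η (k + 1) = ∑ k ∈ range l, η k := by
    apply Finset.sum_congr rfl
    intro k hk
    simp only [mem_range] at hk
    rw [star_apply]
    have : k + 1 ≤ l := hk
    simp [this]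
  rw [h3, star_apply]
  simp only [if_true]
  omega

/-- the last index with nonzero entry (`0` if there is none). -/
def lastNZ (η : ℕ →₀ ℕ) : ℕ := η.support.sup id

theorem lastNZ_spec (η : ℕ →₀ ℕ) (h : η ≠ 0) : η (lastNZ η) ≠ 0 ∧ ∀ k, lastNZ η < k → η k = 0 := by
  have hne : η.support.Nonempty := by
    rwa [Finsupp.support_nonempty_iff]
  constructor
  · obtain ⟨i, hi, hmax⟩ := Finset.exists_mem_eq_sup η.support hne id
    rw [lastNZ, hmax]; simpa using hi
  · intro k hk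
    by_contra h1
    have : k ≤ lastNZ η := Finset.le_sup (f := id) (Finsupp.mem_support_iff.mpr h1)
    omega

theorem lastNZ_eq (l : ℕ) (η : ℕ →₀ ℕ) (hl : η l ≠ 0) (h0 : ∀ k, l < k → η k = 0) : lastNZ η = l := by
  have hne : η ≠ 0 := by
    intro h; apply hl; rw [h]; rfl
  obtain ⟨h1, h2⟩ := lastNZ_spec η hne
  rcases lt_trichotomy (lastNZ η) l with h | h | h
  · exact absurd (h2 l h) hl
  · exact h
  · exact absurd (h0 _ h) h1

/-- the normalised nonsymmetric Jack polynomial `F_η` in `N` variables, by its recursion. -/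
def Fp (N : ℕ) (η : ℕ →₀ ℕ) : MvPolynomial ℕ K :=
  if h : η = 0 then 1
  else Psi N (lastNZ η) (kap (lastNZ η) η) (Fp N (star (lastNZ η) η))
termination_by η.sum (fun _ n => n)
decreasing_by
  have := star_sum (lastNZ η) η (lastNZ_spec η h).1 (lastNZ_spec η h).2
  omega

theorem Fp_zero (N : ℕ) : (Fp N 0 : MvPolynomial ℕ K) = 1 := by
  rw [Fp]; simp

theorem Fp_step (N l : ℕ) (η : ℕ →₀ ℕ) (hl : η l ≠ 0) (h0 : ∀ k, l < k → η k = 0) :
    (Fp N η : MvPolynomial ℕ K) = Psi N l (kap l η) (Fp N (star l η)) := by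
  have hne : η ≠ 0 := by
    intro h; apply hl; rw [h]; rfl
  rw [Fp, dif_neg hne, lastNZ_eq l η hl h0]

/-- induction principle along the recursion of `Fp`. -/
theorem comp_induction {motive : (ℕ →₀ ℕ) → Prop} (h0 : motive 0)
    (hs : ∀ (l : ℕ) (η : ℕ →₀ ℕ), η l ≠ 0 → (∀ k, l < k → η k = 0) → motive (star l η) → motive η)
    (η : ℕ →₀ ℕ) : motive η := by
  induction hn : η.sum (fun _ n => n) using Nat.strong_induction_on generalizing η with
  | _ n ih =>
    by_cases h : η = 0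
    · rw [h]; exact h0
    · obtain ⟨h1, h2⟩ := lastNZ_spec η h
      refine hs (lastNZ η) η h1 h2 (ih _ ?_ _ rfl)
      have := star_sum (lastNZ η) η h1 h2
      omega

/-- invariance under all permutations of the variables `x_a,…,x_{b-1}`. -/
def SymOn (a b : ℕ) (f : MvPolynomial ℕ K) : Prop :=
  ∀ σ : Equiv.Perm ℕ, (∀ k, (k < a ∨ b ≤ k) → σ k = k) → rename σ f = f

/-- antisymmetry under transpositions of the variables `x_a,…,x_{b-1}`. -/
def AltOn (a b : ℕ) (f : MvPolynomial ℕ K) : Prop :=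
  ∀ i j, a ≤ i → i < j → j < b → rename (Equiv.swap i j) f = - f

/-- the pair operator `T_ij`; `(x_i-x_j)² T_ij f = (x_i²-x_j²)(δ_i-δ_j) f - 2 x_i x_j (f - s_ij f)`. -/
def TT (i j : ℕ) : MvPolynomial ℕ K →ₗ[K] MvPolynomial ℕ K :=
  (del i - del j) ∘ₗ (mX j ∘ₗ dd i j) + (mX j ∘ₗ dd i j) ∘ₗ (del i - del j) + (del i - del j)

/-- `M = α Σ δ_i² + Σ_{i<j} T_ij`. -/
def MM (N : ℕ) : MvPolynomial ℕ K →ₗ[K] MvPolynomial ℕ K :=
  (al : K) • ∑ i ∈ range N, (del i ∘ₗ del i) + ∑ i ∈ range N, ∑ j ∈ Ioo i N, TT i j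

/-- `I = α Σ_{i<m} δ_i + Σ_{i<m≤j<N} x_j ∂_{ij}`. -/
def II (N m : ℕ) : MvPolynomial ℕ K →ₗ[K] MvPolynomial ℕ K :=
  (al : K) • ∑ i ∈ range m, del i + ∑ i ∈ range m, ∑ j ∈ Ico m N, (mX j ∘ₗ dd i j)

/-- permutations of `{0,…,m-1}` acting on the positions `a,…,a+m-1`. -/
def emb (a m : ℕ) : Equiv.Perm (Fin m) →* Equiv.Perm ℕ :=
  Equiv.Perm.viaEmbeddingHom ⟨fun i : Fin m => a + (i : ℕ), fun i j h => by
    ext; simpa using h⟩

theorem emb_in (a m : ℕ) (w : Equiv.Perm (Fin m)) (i : Fin m) : emb a m w (a + (i : ℕ)) = a + (w i : ℕ) :=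
  Equiv.Perm.viaEmbedding_apply w ⟨fun i : Fin m => a + (i : ℕ), _⟩ i

theorem emb_out (a m : ℕ) (w : Equiv.Perm (Fin m)) (k : ℕ) (hk : k < a ∨ a + m ≤ k) : emb a m w k = k := by
  refine Equiv.Perm.viaEmbedding_apply_of_notMem w ⟨fun i : Fin m => a + (i : ℕ), _⟩ k ?_
  rintro ⟨i, hi⟩
  have := i.2
  have h2 : a + (i : ℕ) = k := hi
  omega

/-- antisymmetriser over the positions `a,…,a+m-1`. -/
def antis (a m : ℕ) : MvPolynomial ℕ K →ₗ[K] MvPolynomial ℕ K :=
  ∑ w : Equiv.Perm (Fin m), (((Equiv.Perm.sign w : ℤ)) : K) •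
    (rename (emb a m w) : MvPolynomial ℕ K →ₐ[K] MvPolynomial ℕ K).toLinearMap

theorem antis_apply (a m : ℕ) (f : MvPolynomial ℕ K) :
    antis a m f = ∑ w : Equiv.Perm (Fin m), (((Equiv.Perm.sign w : ℤ)) : K) • rename (emb a m w) f := by
  simp [antis, LinearMap.sum_apply]

/-- `c_B(η) = ∏_{i<j in B} (1 - y_i(η) + y_j(η))`, `B = {a,…,a+m-1}`. -/
def cB (N : ℕ) (η : ℕ →₀ ℕ) (a m : ℕ) : K :=
  ∏ p ∈ (range m ×ˢ range m).filter (fun p => p.1 < p.2), (1 - yv N η (a + p.1) + yv N η (a + p.2))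

/-- `Σ_{p ≤ j < N} s_{pj} f`. -/
def symStep (N p : ℕ) : MvPolynomial ℕ K →ₗ[K] MvPolynomial ℕ K :=
  ∑ j ∈ Ico p N, (rename (Equiv.swap p j) : MvPolynomial ℕ K →ₐ[K] MvPolynomial ℕ K).toLinearMap

theorem symStep_apply (N p : ℕ) (f : MvPolynomial ℕ K) :
    symStep N p f = ∑ j ∈ Ico p N, rename (Equiv.swap p j) f := by
  simp [symStep, LinearMap.sum_apply]

/-- `symChain N p k = symStep p ∘ symStep (p+1) ∘ … ∘ symStep (p+k-1)`. -/
def symChain (N : ℕ) : ℕ → ℕ → MvPolynomial ℕ K →ₗ[K] MvPolynomial ℕ K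
  | _, 0 => LinearMap.id
  | p, k + 1 => symStep N p ∘ₗ symChain N (p + 1) k

/-- threshold sums `h_t(ω) = Σ_{i<N} (ω_i - t)_+`. -/
def hth (N t : ℕ) (ω : ℕ → ℕ) : ℕ := ∑ i ∈ range N, (ω i - t)

/-- sum of squares. -/
def sq (N : ℕ) (ω : ℕ → ℕ) : ℕ := ∑ i ∈ range N, (ω i) ^ 2

/-- partial sums. -/
def psm (k : ℕ) (ω : ℕ → ℕ) : ℕ := ∑ i ∈ range k, ω i

/-- the order on compositions used for triangularity. -/
def CLe (N : ℕ) (ω η : ℕ → ℕ) : Prop :=
  (∀ t, hth N t ω ≤ hth N t η) ∧ (sq N ω < sq N η ∨ (sq N ω = sq N η ∧ ∀ k, k ≤ N → psm k ω ≤ psm k η))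

/-- eigenvalue of `M`: `α Σ η_i² - 2 Σ_{i<j} min(η_i,η_j) + (N-1)|η|`. -/
def eM (N : ℕ) (η : ℕ → ℕ) : K :=
  al * ∑ i ∈ range N, (η i : K) ^ 2 - 2 * ∑ i ∈ range N, ∑ j ∈ Ioo i N, ((min (η i) (η j) : ℕ) : K)
    + ((N : K) - 1) * ∑ i ∈ range N, (η i : K)

/-- product over the boxes of the diagram of `η`: `d_η = ∏_{(i,j)} (α(a+1) + l + 1)`. -/
def dEta (N : ℕ) (η : ℕ → ℕ) : K :=
  ∏ i ∈ range N, ∏ j ∈ range (η i), (al * ((η i - j : ℕ) : K) + 1
    + (((range i).filter (fun k => j ≤ η k ∧ η k < η i)).card : K)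
    + (((Ioo i N).filter (fun k => j < η k ∧ η k ≤ η i)).card : K))

end JSup
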