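import Pool.Agent.Helper204.JS.StmtA

open MvPolynomial Finset

noncomputable section

namespace JSup

section

/-- the superspace `F[x_1,…,x_N] ⊗ Λ(θ_1,…,θ_N)`: the exterior algebra, over the polynomial ring
`F[x_1,…,x_N]`, of the free module with basis `θ_1,…,θ_N`. -/
abbrev Superspace (F : Type) [Field F] (N : ℕ) : Type :=
  ExteriorAlgebra (MvPolynomial (Fin N) F) (Fin N → MvPolynomial (Fin N) F)

variable {F : Type} [Field F] {N : ℕ}

/-- the commuting variable `x_i`. -/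
def sx (i : Fin N) : Superspace F N := algebraMap (MvPolynomial (Fin N) F) _ (X i)

/-- the anticommuting variable `θ_i`. -/
def th (i : Fin N) : Superspace F N := ExteriorAlgebra.ι (MvPolynomial (Fin N) F) (Pi.single i 1)

/-- the monomial `m_Λ = |Aut(Λ^s)|⁻¹ Σ_σ σ(θ_1⋯θ_m x_1^{Λ_1}⋯x_N^{Λ_N})`. -/
def mono (F : Type) [Field F] (N : ℕ) {n m : ℕ} (L : SuperPartition n m) : Superspace F N :=
  ((autL N L : F)⁻¹) • ∑ σ : Equiv.Perm (Fin N),
    (((List.finRange N).take m).map (fun i => th (F := F) (σ i))).prod *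
      ((List.finRange N).map (fun i => sx (σ i) ^ L.part i)).prod

/-- `\tilde p_r = Σ_i θ_i x_i^r`. -/
def ptil (F : Type) [Field F] (N r : ℕ) : Superspace F N := ∑ i : Fin N, th i * sx i ^ r

/-- `p_s = Σ_i x_i^s`. -/
def ppow (F : Type) [Field F] (N s : ℕ) : Superspace F N := ∑ i : Fin N, sx i ^ s

/-- `p_Λ = \tilde p_{Λ_1}⋯\tilde p_{Λ_m} p_{Λ_{m+1}}⋯p_{Λ_ℓ}`. -/
def pLam (F : Type) [Field F] (N : ℕ) {n m : ℕ} (L : SuperPartition n m) : Superspace F N :=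
  (L.a.map (ptil F N)).prod * (L.s.map (ppow F N)).prod

/-- MAIN STATEMENT -/
def MainStatement : Prop :=
  ∀ (n m N : ℕ), 1 ≤ m → n + m ≤ N →
  ∀ B : LinearMap.BilinForm (RatFunc ℚ) (Superspace (RatFunc ℚ) N),
  (∀ L W : SuperPartition n m, B (pLam _ N L) (pLam _ N W) =
    if L = W then (-1) ^ (m.choose 2) * (RatFunc.X : RatFunc ℚ) ^ (m + L.s.length) * (zLam L.s : RatFunc ℚ) else 0) →
  ∀ c : SuperPartition n m → SuperPartition n m →₀ RatFunc ℚ,
  (∀ L, c L L = 1) → (∀ L W, c L W ≠ 0 → W ≤ L) →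
  (∀ L W, L ≠ W → B ((c L).sum fun G r => r • mono _ N G) ((c W).sum fun G r => r • mono _ N G) = 0) →
  ∀ L W, vLam (RatFunc.X : RatFunc ℚ) L * c L W ∈ Algebra.adjoin ℤ {(RatFunc.X : RatFunc ℚ)}

end

end JSup
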