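import Pool.Agent.Helper204.JS.Defs1
import Pool.Agent.Helper204.JS.Stmt

set_option linter.unusedSectionVars false

open MvPolynomial Finset

noncomputable section

namespace JSup

variable {K : Type} [Field K] [CharZero K] [Par K]

/-! ### Fock space -/

/-- weight of an exponent: `∏_k (α k)^{d(p_k)} d(p_k)!`. Variables: `inl i` is `t_i`, `inr k` is `p_k`. -/
def fw (d : (ℕ ⊕ ℕ) →₀ ℕ) : K :=
  d.prod (fun v c => Sum.elim (fun _ => (1 : K)) (fun k => (al * (k : K)) ^ c * (c.factorial : K)) v)

/-- evaluation `t_i ↦ x_i`, `p_k ↦ Σ_{j<N} x_j^k`. -/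
def ev (N : ℕ) : MvPolynomial (ℕ ⊕ ℕ) K →ₐ[K] MvPolynomial ℕ K :=
  aeval (Sum.elim (fun i => X i) (fun k => ∑ j ∈ range N, X j ^ k))

/-- admissible exponents: only `t_i` with `i < m` and `p_k` with `k ≥ 1`, total weight `n`. -/
def Adm (m n : ℕ) (d : (ℕ ⊕ ℕ) →₀ ℕ) : Prop :=
  (∀ i, m ≤ i → d (Sum.inl i) = 0) ∧ d (Sum.inr 0) = 0 ∧
  d.sum (fun v c => Sum.elim (fun _ => c) (fun k => k * c) v) = n

/-- action of a permutation of `ℕ` on the `t`-variables. -/
def tperm (σ : Equiv.Perm ℕ) : Equiv.Perm (ℕ ⊕ ℕ) := Equiv.sumCongr σ (Equiv.refl ℕ)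

/-- the space `U`: antisymmetric in `x_0..x_{m-1}`, symmetric in `x_m..x_{N-1}`, homogeneous of degree `n`. -/
def InU (N m n : ℕ) (f : MvPolynomial ℕ K) : Prop :=
  AltOn 0 m f ∧ SymOn m N f ∧ f.IsHomogeneous n ∧ VarsLt N f

/-! ### superpartitions and compositions -/

/-- exponent vector `(Λ^a increasing | Λ^s increasing | 0 …)`. -/
def dOf {n m : ℕ} (L : SuperPartition n m) : ℕ →₀ ℕ :=
  Finsupp.onFinset (range (L.a.length + L.s.length)) (fun i => (L.a.reverse ++ L.s.reverse).getD i 0)
    (by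
      intro i hi
      simp only [mem_range]
      by_contra h
      apply hi
      apply List.getD_eq_default
      simp only [List.length_append, List.length_reverse]
      omega)

theorem dOf_apply {n m : ℕ} (L : SuperPartition n m) (i : ℕ) :
    dOf L i = (L.a.reverse ++ L.s.reverse).getD i 0 := rfl

/-- composition `(Λ^s - 1 increasing | Λ^a increasing | 0 …)`. -/
def etaOf {n m : ℕ} (L : SuperPartition n m) : ℕ →₀ ℕ :=
  Finsupp.onFinset (range (L.s.length + L.a.length))
    (fun i => ((L.s.reverse.map (fun v => v - 1)) ++ L.a.reverse).getD i 0)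
    (by
      intro i hi
      simp only [mem_range]
      by_contra h
      apply hi
      apply List.getD_eq_default
      simp only [List.length_append, List.length_reverse, List.length_map]
      omega)

theorem etaOf_apply {n m : ℕ} (L : SuperPartition n m) (i : ℕ) :
    etaOf L i = ((L.s.reverse.map (fun v => v - 1)) ++ L.a.reverse).getD i 0 := rfl


/-- number of entries in `[lo, hi)`. -/
def nI (l : List ℕ) (lo hi : ℕ) : ℕ := (l.filter (fun p => lo ≤ p ∧ p < hi)).length

/-- `Σ_r r · l_r`. -/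
def nn (l : List ℕ) : ℕ := ∑ r ∈ range l.length, r * l.getD r 0

/-- `Σ_{i<j} min(l_i, l_j)`. -/
def pm : List ℕ → ℕ
  | [] => 0
  | x :: t => (t.map (fun y => min x y)).sum + pm t

/-- number of pairs (fermionic part `p`, bosonic part `v`) with `v > p`. -/
def crossN {n m : ℕ} (L : SuperPartition n m) : ℕ :=
  (L.a.map (fun p => (L.s.filter (fun v => p < v)).length)).sum

/-- eigenvalue of `II`: `α |Λ^a| - #{(p,v) : v > p}`. -/
def iM {n m : ℕ} (L : SuperPartition n m) : K := al * (L.a.sum : K) - (crossN L : K)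

end JSup
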