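import Pool.Agent.Helper204.JS.Defs2

set_option linter.unusedSectionVars false

open MvPolynomial Finset

noncomputable section

namespace JSup

variable {K : Type} [Field K] [CharZero K] [Par K]

/-- the diagonal form on the Fock space. -/
def form : MvPolynomial (ℕ ⊕ ℕ) K →ₗ[K] MvPolynomial (ℕ ⊕ ℕ) K →ₗ[K] K :=
  (basisMonomials (ℕ ⊕ ℕ) K).constr K (fun d => (fw d : K) • MvPolynomial.lcoeff K d)

/-- multiplication by `t_i^c`. -/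
def mt (i c : ℕ) : MvPolynomial (ℕ ⊕ ℕ) K →ₗ[K] MvPolynomial (ℕ ⊕ ℕ) K := LinearMap.mulLeft K (X (Sum.inl i) ^ c)

/-- multiplication by `p_k`. -/
def mp (k : ℕ) : MvPolynomial (ℕ ⊕ ℕ) K →ₗ[K] MvPolynomial (ℕ ⊕ ℕ) K := LinearMap.mulLeft K (X (Sum.inr k))

/-- `∂/∂p_k`. -/
def dp (k : ℕ) : MvPolynomial (ℕ ⊕ ℕ) K →ₗ[K] MvPolynomial (ℕ ⊕ ℕ) K := (pderiv (Sum.inr k)).toLinearMap

/-- `θ_i = t_i ∂/∂t_i`. -/
def tht (i : ℕ) : MvPolynomial (ℕ ⊕ ℕ) K →ₗ[K] MvPolynomial (ℕ ⊕ ℕ) K :=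
  LinearMap.mulLeft K (X (Sum.inl i)) ∘ₗ (pderiv (Sum.inl i)).toLinearMap

/-- `τ_i^c`: lowers the exponent of `t_i` by `c` (kills monomials of smaller `t_i`-degree). -/
def tau (i c : ℕ) : MvPolynomial (ℕ ⊕ ℕ) K →ₗ[K] MvPolynomial (ℕ ⊕ ℕ) K :=
  (basisMonomials (ℕ ⊕ ℕ) K).constr K
    (fun d => if c ≤ d (Sum.inl i) then monomial (d - Finsupp.single (Sum.inl i) c) (1 : K) else 0)

@[simp] theorem mt_apply (i c : ℕ) (G : MvPolynomial (ℕ ⊕ ℕ) K) : mt i c G = X (Sum.inl i) ^ c * G := rfl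
@[simp] theorem mp_apply (k : ℕ) (G : MvPolynomial (ℕ ⊕ ℕ) K) : mp k G = X (Sum.inr k) * G := rfl
@[simp] theorem dp_apply (k : ℕ) (G : MvPolynomial (ℕ ⊕ ℕ) K) : dp k G = pderiv (Sum.inr k) G := rfl
@[simp] theorem tht_apply (i : ℕ) (G : MvPolynomial (ℕ ⊕ ℕ) K) :
    tht i G = X (Sum.inl i) * pderiv (Sum.inl i) G := rfl

theorem tau_monomial (i c : ℕ) (d : (ℕ ⊕ ℕ) →₀ ℕ) (a : K) :
    tau i c (monomial d a) = if c ≤ d (Sum.inl i) then monomial (d - Finsupp.single (Sum.inl i) c) a else 0 := by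
  have h1 : (monomial d a : MvPolynomial (ℕ ⊕ ℕ) K) = a • basisMonomials (ℕ ⊕ ℕ) K d := by
    rw [coe_basisMonomials, smul_monomial, smul_eq_mul, mul_one]
  rw [h1, map_smul, tau, Module.Basis.constr_basis]
  split_ifs
  · rw [smul_monomial, smul_eq_mul, mul_one]
  · simp

theorem form_monomial (d e : (ℕ ⊕ ℕ) →₀ ℕ) (a b : K) :
    form (monomial d a) (monomial e b) = if d = e then fw d * a * b else 0 := by
  have h1 : (monomial d a : MvPolynomial (ℕ ⊕ ℕ) K) = a • basisMonomials (ℕ ⊕ ℕ) K d := by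
    rw [coe_basisMonomials, smul_monomial, smul_eq_mul, mul_one]
  rw [h1, map_smul, form, Module.Basis.constr_basis]
  simp only [LinearMap.smul_apply, smul_eq_mul, MvPolynomial.lcoeff_apply, coeff_monomial]
  by_cases h : d = e
  · subst h; simp; ring
  · rw [if_neg (fun h' => h h'.symm), if_neg h]; simp

/-- `𝓘 = (α-1) Σθ_i + α Σ k t_i^k ∂_k + Σ p_k τ_i^k + C(m,2)`. -/
def FI (m D : ℕ) : MvPolynomial (ℕ ⊕ ℕ) K →ₗ[K] MvPolynomial (ℕ ⊕ ℕ) K :=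
  ((al : K) - 1) • ∑ i ∈ range m, tht i
    + ∑ i ∈ range m, ∑ k ∈ Icc 1 D, (((al : K) * (k : K)) • (mt i k ∘ₗ dp k) + mp k ∘ₗ tau i k)
    + ((m.choose 2 : ℕ) : K) • LinearMap.id

/-- `𝓜`. -/
def FM (N m D : ℕ) : MvPolynomial (ℕ ⊕ ℕ) K →ₗ[K] MvPolynomial (ℕ ⊕ ℕ) K :=
  ((al : K) - 1) • (∑ i ∈ range m, tht i ∘ₗ tht i + ∑ k ∈ Icc 1 D, ((k : K) ^ 2) • (mp k ∘ₗ dp k))
    + (N : K) • (∑ i ∈ range m, tht i + ∑ k ∈ Icc 1 D, (k : K) • (mp k ∘ₗ dp k))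
    + (2 : K) • ∑ i ∈ range m, ∑ k ∈ Icc 1 D,
        (((al : K) * (k : K)) • (mt i k ∘ₗ tht i ∘ₗ dp k) + mp k ∘ₗ tht i ∘ₗ tau i k)
    + ∑ k ∈ Icc 1 D, ∑ l ∈ Icc 1 D, (((al : K) * (k : K) * (l : K)) • (mp (k + l) ∘ₗ dp k ∘ₗ dp l)
        + ((k : K) + (l : K)) • (mp k ∘ₗ mp l ∘ₗ dp (k + l)))

/-- all exponents of `G` are admissible. -/
def AdmP (m n : ℕ) (G : MvPolynomial (ℕ ⊕ ℕ) K) : Prop := ∀ d ∈ G.support, Adm m n d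

/-- `G` is alternating in `t_0..t_{m-1}`. -/
def AltT (m : ℕ) (G : MvPolynomial (ℕ ⊕ ℕ) K) : Prop :=
  ∀ w : Equiv.Perm (Fin m), rename (tperm (emb 0 m w)) G = (((Equiv.Perm.sign w : ℤ)) : K) • G

/-- antisymmetriser on the Fock space. -/
def antT (m : ℕ) : MvPolynomial (ℕ ⊕ ℕ) K →ₗ[K] MvPolynomial (ℕ ⊕ ℕ) K :=
  ∑ w : Equiv.Perm (Fin m), (((Equiv.Perm.sign w : ℤ)) : K) •
    (rename (tperm (emb 0 m w)) : MvPolynomial (ℕ ⊕ ℕ) K →ₐ[K] MvPolynomial (ℕ ⊕ ℕ) K).toLinearMap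

theorem antT_apply (m : ℕ) (G : MvPolynomial (ℕ ⊕ ℕ) K) :
    antT m G = ∑ w : Equiv.Perm (Fin m), (((Equiv.Perm.sign w : ℤ)) : K) • rename (tperm (emb 0 m w)) G := by
  simp [antT, LinearMap.sum_apply]

end JSup
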