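import Pool.Agent.Helper204.JS.Defs3

set_option linter.unusedSectionVars false

open MvPolynomial Finset

noncomputable section

namespace JSup

variable {K : Type} [Field K] [CharZero K] [Par K]

/-- restriction to the variables `x_0,…,x_{N-1}` (the others are set to 0). -/
def restr (N : ℕ) : MvPolynomial ℕ K →ₐ[K] MvPolynomial (Fin N) K :=
  aeval (fun i => if h : i < N then X ⟨i, h⟩ else 0)

/-- `θ_{σ 0} ⋯ θ_{σ (m-1)}`. -/
def thp (N m : ℕ) (σ : Equiv.Perm (Fin N)) : Superspace K N :=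
  (((List.finRange N).take m).map (fun i => th (F := K) (σ i))).prod

/-- `Θ(f) = Σ_σ θ_{σ 0} ⋯ θ_{σ (m-1)} σ(f)`. -/
def Th (N m : ℕ) : MvPolynomial ℕ K →ₗ[K] Superspace K N :=
  ∑ σ : Equiv.Perm (Fin N), (LinearMap.mulLeft K (thp N m σ)) ∘ₗ
    ((Algebra.linearMap (MvPolynomial (Fin N) K) (Superspace K N)).restrictScalars K) ∘ₗ
    ((rename σ : MvPolynomial (Fin N) K →ₐ[K] MvPolynomial (Fin N) K).toLinearMap) ∘ₗ (restr N).toLinearMap

theorem Th_apply (N m : ℕ) (f : MvPolynomial ℕ K) :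
    Th N m f = ∑ σ : Equiv.Perm (Fin N), thp N m σ *
      algebraMap (MvPolynomial (Fin N) K) (Superspace K N) (rename σ (restr N f)) := by
  simp [Th, LinearMap.sum_apply]

/-- exponent vector of `x^Λ` (parts in the order of the problem). -/
def partF {n m : ℕ} (L : SuperPartition n m) : ℕ →₀ ℕ :=
  Finsupp.onFinset (range (L.a.length + L.s.length)) (fun i => L.part i)
    (by
      intro i hi
      simp only [mem_range]
      by_contra h
      apply hi
      apply List.getD_eq_default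
      simp only [List.length_append]
      omega)

theorem partF_apply {n m : ℕ} (L : SuperPartition n m) (i : ℕ) : partF L i = L.part i := rfl

/-- `Σ_{w ∈ S_m, u ∈ S_{N-m}} sgn(w) (w × u) f`. -/
def ysym (N m : ℕ) : MvPolynomial ℕ K →ₗ[K] MvPolynomial ℕ K :=
  ∑ w : Equiv.Perm (Fin m), ∑ u : Equiv.Perm (Fin (N - m)), (((Equiv.Perm.sign w : ℤ)) : K) •
    (rename (emb 0 m w * emb m (N - m) u : Equiv.Perm ℕ) : MvPolynomial ℕ K →ₐ[K] MvPolynomial ℕ K).toLinearMap

theorem ysym_apply (N m : ℕ) (f : MvPolynomial ℕ K) :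
    ysym N m f = ∑ w : Equiv.Perm (Fin m), ∑ u : Equiv.Perm (Fin (N - m)), (((Equiv.Perm.sign w : ℤ)) : K) •
      rename (emb 0 m w * emb m (N - m) u : Equiv.Perm ℕ) f := by
  simp [ysym, LinearMap.sum_apply]

end JSup
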