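import Pool.Agent.Helper204.JS.Stmt
import Pool.Agent.Helper204.JS.Defs
import Pool.Agent.Helper204.JS.Defs1
import Pool.Agent.Helper204.JS.Defs2
import Pool.Agent.Helper204.JS.Defs3

set_option linter.unusedSectionVars false

open MvPolynomial Finset

noncomputable section

namespace JSup
variable {K : Type} [Field K] [CharZero K] [Par K]



theorem bff_bil (B : MvPolynomial (ℕ ⊕ ℕ) K →ₗ[K] MvPolynomial (ℕ ⊕ ℕ) K →ₗ[K] K)
    (F G : MvPolynomial (ℕ ⊕ ℕ) K) :
    B F G = ∑ d ∈ F.support, ∑ e ∈ G.support,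
      coeff d F * (coeff e G * B (monomial d (1:K)) (monomial e (1:K))) := by
  have hF : F = ∑ d ∈ F.support, coeff d F • monomial d (1:K) := by
    conv_lhs => rw [F.as_sum]
    refine Finset.sum_congr rfl fun d _ => ?_
    rw [smul_monomial, smul_eq_mul, mul_one]
  have hG : G = ∑ d ∈ G.support, coeff d G • monomial d (1:K) := by
    conv_lhs => rw [G.as_sum]
    refine Finset.sum_congr rfl fun d _ => ?_
    rw [smul_monomial, smul_eq_mul, mul_one]
  have e1 : B F G = ∑ d ∈ F.support, coeff d F * B (monomial d (1:K)) G := by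
    conv_lhs => rw [hF]
    rw [map_sum, LinearMap.sum_apply]
    refine Finset.sum_congr rfl fun d _ => ?_
    rw [map_smul, LinearMap.smul_apply, smul_eq_mul]
  rw [e1]
  refine Finset.sum_congr rfl fun d _ => ?_
  have e2 : B (monomial d (1:K)) G = ∑ e ∈ G.support, coeff e G *
      B (monomial d (1:K)) (monomial e (1:K)) := by
    conv_lhs => rw [hG]
    rw [map_sum]
    refine Finset.sum_congr rfl fun e _ => ?_
    rw [map_smul, smul_eq_mul]
  rw [e2, Finset.mul_sum]

theorem bff_ext (B1 B2 : MvPolynomial (ℕ ⊕ ℕ) K →ₗ[K] MvPolynomial (ℕ ⊕ ℕ) K →ₗ[K] K)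
    (F G : MvPolynomial (ℕ ⊕ ℕ) K)
    (h : ∀ d ∈ F.support, ∀ e ∈ G.support,
      B1 (monomial d (1:K)) (monomial e (1:K)) = B2 (monomial d (1:K)) (monomial e (1:K))) :
    B1 F G = B2 F G := by
  rw [bff_bil B1, bff_bil B2]
  refine Finset.sum_congr rfl fun d hd => Finset.sum_congr rfl fun e he => ?_
  rw [h d hd e he]

theorem bff_fw (σ : Equiv.Perm ℕ) (d : (ℕ ⊕ ℕ) →₀ ℕ) :
    (fw (Finsupp.equivMapDomain (tperm σ) d) : K) = fw d := by
  unfold fw
  rw [Finsupp.equivMapDomain_eq_mapDomain, Finsupp.prod_mapDomain_index_inj (tperm σ).injective]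
  unfold Finsupp.prod
  refine Finset.prod_congr rfl fun v _ => ?_
  cases v with
  | inl i => rfl
  | inr k => rfl

theorem bff_mon (m : ℕ) (d e : (ℕ ⊕ ℕ) →₀ ℕ) :
    form (antT m (monomial d (1:K))) (monomial e (1:K)) =
      ∑ w : Equiv.Perm (Fin m), (((Equiv.Perm.sign w : ℤ)) : K) *
          (if e = Finsupp.equivMapDomain (tperm (emb 0 m w)) d then fw d else 0) := by
  rw [antT_apply, map_sum, LinearMap.sum_apply]
  refine Finset.sum_congr rfl fun w _ => ?_
  rw [map_smul, LinearMap.smul_apply, smul_eq_mul, rename_monomial,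
    ← Finsupp.equivMapDomain_eq_mapDomain, form_monomial, bff_fw, mul_one, mul_one]
  congr 1
  by_cases h : Finsupp.equivMapDomain (tperm (emb 0 m w)) d = e
  · rw [if_pos h, if_pos h.symm]
  · rw [if_neg h, if_neg (fun h' => h h'.symm)]

/-- HINT: write `F = Σ_d F_d x^d`, `G = Σ_e G_e x^e` over the supports (all admissible), use `hB` and bilinearity;
`antT m (monomial d 1) = Σ_w sgn w • monomial (equivMapDomain (tperm (emb 0 m w)) d) 1`, and
`fw (equivMapDomain (tperm σ) d) = fw d`; `form_monomial`. -/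
theorem Bf_form (N m n : ℕ) (Bf : MvPolynomial ℕ K →ₗ[K] MvPolynomial ℕ K →ₗ[K] K) (C : K)
    (hB : ∀ d e : (ℕ ⊕ ℕ) →₀ ℕ, Adm m n d → Adm m n e →
      Bf (ev N (monomial d 1)) (ev N (monomial e 1)) =
        C * ∑ w : Equiv.Perm (Fin m), (((Equiv.Perm.sign w : ℤ)) : K) *
          (if e = Finsupp.equivMapDomain (tperm (emb 0 m w)) d then fw d else 0))
    (F G : MvPolynomial (ℕ ⊕ ℕ) K) (hF : AdmP m n F) (hG : AdmP m n G) :
    Bf (ev N F) (ev N G) = C * form (antT m F) G := by
  have h := bff_ext (Bf.compl₁₂ (ev N).toLinearMap (ev N).toLinearMap)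
    (C • (form ∘ₗ antT m)) F G ?_
  · simpa using h
  · intro d hd e he
    have h1 := hB d e (hF d hd) (hG e he)
    rw [← bff_mon] at h1
    simpa using h1

end JSup
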