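import Pool.Agent.Helper204.JS.Stmt
import Pool.Agent.Helper204.JS.Defs
import Pool.Agent.Helper204.JS.Defs1
import Pool.Agent.Helper204.JS.Defs2
import Pool.Agent.Helper204.JS.Defs3

set_option linter.unusedSectionVars false

open MvPolynomial Finset

noncomputable section

namespace JSup
variable {K : Type} [Field K] [CharZero K] [Par K]



theorem j18555_bil_ext {A B : MvPolynomial (ℕ ⊕ ℕ) K →ₗ[K] MvPolynomial (ℕ ⊕ ℕ) K →ₗ[K] K}
    (h : ∀ d e, A (monomial d 1) (monomial e 1) = B (monomial d 1) (monomial e 1)) : A = B := by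
  refine (basisMonomials (ℕ ⊕ ℕ) K).ext fun d => (basisMonomials (ℕ ⊕ ℕ) K).ext fun e => ?_
  rw [coe_basisMonomials]
  exact h d e

/-- the local weight -/
def j18555_h (v : ℕ ⊕ ℕ) (c : ℕ) : K :=
  match v with
  | Sum.inl _ => 1
  | Sum.inr k => ((al : K) * (k : K)) ^ c * (c.factorial : K)

theorem j18555_fw_eq (d : (ℕ ⊕ ℕ) →₀ ℕ) : (fw d : K) = d.prod j18555_h := by
  unfold fw
  congr 1
  funext v c
  rcases v with v | v
  · rfl
  · rfl

theorem j18555_h_zero (v : ℕ ⊕ ℕ) : (j18555_h v 0 : K) = 1 := by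
  rcases v with v | v <;> simp [j18555_h]

theorem j18555_fw_insert (d : (ℕ ⊕ ℕ) →₀ ℕ) (a : ℕ ⊕ ℕ) (c : ℕ) :
    (fw (Finsupp.single a c + d) : K) =
      ∏ v ∈ insert a d.support, j18555_h v ((Finsupp.single a c + d : (ℕ ⊕ ℕ) →₀ ℕ) v) := by
  classical
  rw [j18555_fw_eq]
  refine Finsupp.prod_of_support_subset _ ?_ _ fun v _ => j18555_h_zero v
  intro v hv
  rw [Finset.mem_insert]
  by_contra hc
  push Not at hc
  rw [Finsupp.mem_support_iff, Finsupp.add_apply, Finsupp.single_apply, if_neg (Ne.symm hc.1),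
    Finsupp.notMem_support_iff.1 hc.2] at hv
  exact hv rfl

theorem j18555_fw_insert0 (d : (ℕ ⊕ ℕ) →₀ ℕ) (a : ℕ ⊕ ℕ) :
    (fw d : K) = ∏ v ∈ insert a d.support, j18555_h v (d v) := by
  classical
  rw [j18555_fw_eq]
  exact Finsupp.prod_of_support_subset _ (Finset.subset_insert _ _) _ fun v _ => j18555_h_zero v

theorem j18555_fw_inr (d : (ℕ ⊕ ℕ) →₀ ℕ) (k : ℕ) :
    (fw (Finsupp.single (Sum.inr k) 1 + d) : K) =
      ((al : K) * k) * ((d (Sum.inr k) : K) + 1) * fw d := by
  classical
  rw [j18555_fw_insert, j18555_fw_insert0 d (Sum.inr k),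
    ← Finset.mul_prod_erase _ _ (Finset.mem_insert_self (Sum.inr k) d.support),
    ← Finset.mul_prod_erase _ (fun v => (j18555_h v (d v) : K))
      (Finset.mem_insert_self (Sum.inr k) d.support)]
  have e3 : ∏ v ∈ (insert (Sum.inr k) d.support).erase (Sum.inr k),
      (j18555_h v ((Finsupp.single (Sum.inr k) 1 + d : (ℕ ⊕ ℕ) →₀ ℕ) v) : K) =
      ∏ v ∈ (insert (Sum.inr k) d.support).erase (Sum.inr k), j18555_h v (d v) := by
    refine Finset.prod_congr rfl fun v hv => ?_
    rw [Finsupp.add_apply, Finsupp.single_apply, if_neg (Ne.symm (Finset.ne_of_mem_erase hv)),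
      zero_add]
  rw [e3]
  have e4 : (j18555_h (Sum.inr k)
      ((Finsupp.single (Sum.inr k) 1 + d : (ℕ ⊕ ℕ) →₀ ℕ) (Sum.inr k)) : K) =
      ((al : K) * k) * ((d (Sum.inr k) : K) + 1) * j18555_h (Sum.inr k) (d (Sum.inr k)) := by
    rw [Finsupp.add_apply, Finsupp.single_eq_same, add_comm 1]
    simp only [j18555_h, Nat.factorial_succ, pow_succ]
    push_cast
    ring
  rw [e4]
  ring

theorem j18555_fw_inl (d : (ℕ ⊕ ℕ) →₀ ℕ) (i c : ℕ) :
    (fw (Finsupp.single (Sum.inl i) c + d) : K) = fw d := by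
  classical
  rw [j18555_fw_insert, j18555_fw_insert0 d (Sum.inl i)]
  refine Finset.prod_congr rfl fun v _ => ?_
  rcases v with v | v
  · simp only [j18555_h]
  · rw [Finsupp.add_apply, Finsupp.single_apply, if_neg (by simp), zero_add]

theorem j18555_fw_perm (d : (ℕ ⊕ ℕ) →₀ ℕ) (w : Equiv.Perm ℕ) :
    (fw (d.mapDomain (tperm w)) : K) = fw d := by
  rw [j18555_fw_eq, j18555_fw_eq, Finsupp.prod_mapDomain_index_inj (tperm w).injective]
  refine Finset.prod_congr rfl fun v _ => ?_
  rcases v with v | v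
  · simp [tperm, j18555_h]
  · simp [tperm, j18555_h]

theorem j18555_tperm_cancel (w : Equiv.Perm ℕ) (d : (ℕ ⊕ ℕ) →₀ ℕ) :
    (d.mapDomain (tperm w)).mapDomain (tperm w⁻¹) = d := by
  rw [← Finsupp.mapDomain_comp]
  have h1 : (⇑(tperm w⁻¹) ∘ ⇑(tperm w)) = id := by
    funext v
    rcases v with v | v
    · simp [tperm]
    · simp [tperm]
  rw [h1, Finsupp.mapDomain_id]

/-- HINT: by bilinearity (`MvPolynomial.induction_on'` / `LinearMap` ext on `basisMonomials`, or
`MvPolynomial.induction_on'''`) reduce to monomials and use `form_monomial`; `fw (d + single (inr k) 1) =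
fw d * (α k) * (d (inr k) + 1)`, `fw` does not depend on the `t`-exponents. For `mp`: if `p_k x^d = x^e` then
`∂_k x^e = e_k x^d`. `al ≠ 0`. -/
theorem form_adj (F G : MvPolynomial (ℕ ⊕ ℕ) K) :
    form F G = form G F ∧
    (∀ k, form (mp k F) G = ((al : K) * k) * form F (dp k G)) ∧
    (∀ i c, form (mt i c F) G = form F (tau i c G)) ∧
    (∀ i, form (tht i F) G = form F (tht i G)) ∧
    (∀ w : Equiv.Perm ℕ, form (rename (tperm w) F) G = form F (rename (tperm w⁻¹) G)) := by
  classical
  refine ⟨?_, fun k => ?_, fun i c => ?_, fun i => ?_, fun w => ?_⟩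
  · have h : (form : MvPolynomial (ℕ ⊕ ℕ) K →ₗ[K] MvPolynomial (ℕ ⊕ ℕ) K →ₗ[K] K) =
        LinearMap.flip form := by
      refine j18555_bil_ext fun d e => ?_
      rw [LinearMap.flip_apply, form_monomial, form_monomial]
      by_cases hde : d = e
      · subst hde; rfl
      · rw [if_neg hde, if_neg (Ne.symm hde)]
    calc form F G = LinearMap.flip form F G := by rw [← h]
      _ = form G F := LinearMap.flip_apply _ _ _
  · have h : (form ∘ₗ mp k : MvPolynomial (ℕ ⊕ ℕ) K →ₗ[K] MvPolynomial (ℕ ⊕ ℕ) K →ₗ[K] K) =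
        ((al : K) * k) • LinearMap.compl₂ form (dp k) := by
      refine j18555_bil_ext fun d e => ?_
      rw [LinearMap.comp_apply, LinearMap.smul_apply, LinearMap.smul_apply,
        LinearMap.compl₂_apply, mp_apply, dp_apply, pderiv_monomial]
      have e1 : (X (Sum.inr k) * monomial d 1 : MvPolynomial (ℕ ⊕ ℕ) K) =
          monomial (Finsupp.single (Sum.inr k) 1 + d) 1 := by
        rw [X, monomial_mul, one_mul]
      rw [e1, form_monomial, form_monomial]
      by_cases hde : Finsupp.single (Sum.inr k) 1 + d = e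
      · subst hde
        rw [if_pos rfl, if_pos (by rw [add_tsub_cancel_left]), j18555_fw_inr,
          Finsupp.add_apply, Finsupp.single_eq_same]
        push_cast
        rw [smul_eq_mul]
        ring
      · rw [if_neg hde]
        by_cases h2 : d = e - Finsupp.single (Sum.inr k) 1
        · rw [if_pos h2]
          have h3 : e (Sum.inr k) = 0 := by
            by_contra h4
            apply hde
            rw [h2]
            refine add_tsub_cancel_of_le ?_
            rw [Finsupp.single_le_iff]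
            exact Nat.one_le_iff_ne_zero.2 h4
          rw [h3]
          simp
        · rw [if_neg h2, smul_zero]
    calc form (mp k F) G = (form ∘ₗ mp k) F G := rfl
      _ = (((al : K) * k) • LinearMap.compl₂ form (dp k)) F G := by rw [h]
      _ = _ := rfl
  · have h : (form ∘ₗ mt i c : MvPolynomial (ℕ ⊕ ℕ) K →ₗ[K] MvPolynomial (ℕ ⊕ ℕ) K →ₗ[K] K) =
        LinearMap.compl₂ form (tau i c) := by
      refine j18555_bil_ext fun d e => ?_
      rw [LinearMap.comp_apply, LinearMap.compl₂_apply, mt_apply, tau_monomial]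
      have e1 : (X (Sum.inl i) ^ c * monomial d 1 : MvPolynomial (ℕ ⊕ ℕ) K) =
          monomial (Finsupp.single (Sum.inl i) c + d) 1 := by
        rw [X_pow_eq_monomial, monomial_mul, one_mul]
      rw [e1, form_monomial]
      by_cases hce : c ≤ e (Sum.inl i)
      · rw [if_pos hce, form_monomial]
        by_cases hde : Finsupp.single (Sum.inl i) c + d = e
        · subst hde
          rw [if_pos rfl, if_pos (by rw [add_tsub_cancel_left]), j18555_fw_inl]
        · rw [if_neg hde, if_neg]
          intro h2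
          apply hde
          rw [h2]
          refine add_tsub_cancel_of_le ?_
          rw [Finsupp.single_le_iff]
          exact hce
      · rw [if_neg hce, map_zero, if_neg]
        intro h2
        apply hce
        rw [← h2, Finsupp.add_apply, Finsupp.single_eq_same]
        exact Nat.le_add_right _ _
    calc form (mt i c F) G = (form ∘ₗ mt i c) F G := rfl
      _ = (LinearMap.compl₂ form (tau i c)) F G := by rw [h]
      _ = _ := rfl
  · have h : (form ∘ₗ tht i : MvPolynomial (ℕ ⊕ ℕ) K →ₗ[K] MvPolynomial (ℕ ⊕ ℕ) K →ₗ[K] K) =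
        LinearMap.compl₂ form (tht i) := by
      refine j18555_bil_ext fun d e => ?_
      rw [LinearMap.comp_apply, LinearMap.compl₂_apply, tht_apply, tht_apply,
        X_mul_pderiv_monomial, X_mul_pderiv_monomial, map_nsmul, map_nsmul,
        LinearMap.smul_apply, form_monomial]
      by_cases hde : d = e
      · subst hde; rfl
      · rw [if_neg hde, smul_zero, smul_zero]
    calc form (tht i F) G = (form ∘ₗ tht i) F G := rfl
      _ = (LinearMap.compl₂ form (tht i)) F G := by rw [h]
      _ = _ := rfl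
  · have h : (form ∘ₗ (rename (tperm w) : MvPolynomial (ℕ ⊕ ℕ) K →ₐ[K]
          MvPolynomial (ℕ ⊕ ℕ) K).toLinearMap :
          MvPolynomial (ℕ ⊕ ℕ) K →ₗ[K] MvPolynomial (ℕ ⊕ ℕ) K →ₗ[K] K) =
        LinearMap.compl₂ form (rename (tperm w⁻¹) : MvPolynomial (ℕ ⊕ ℕ) K →ₐ[K]
          MvPolynomial (ℕ ⊕ ℕ) K).toLinearMap := by
      refine j18555_bil_ext fun d e => ?_
      rw [LinearMap.comp_apply, LinearMap.compl₂_apply, AlgHom.toLinearMap_apply,
        AlgHom.toLinearMap_apply, rename_monomial, rename_monomial, form_monomial, form_monomial]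
      by_cases hde : d.mapDomain (tperm w) = e
      · subst hde
        rw [if_pos rfl, if_pos (j18555_tperm_cancel w d).symm, j18555_fw_perm]
      · rw [if_neg hde, if_neg]
        intro h2
        apply hde
        rw [h2]
        have h3 := j18555_tperm_cancel w⁻¹ e
        rwa [inv_inv] at h3
    calc form (rename (tperm w) F) G = (form ∘ₗ (rename (tperm w) : MvPolynomial (ℕ ⊕ ℕ) K →ₐ[K]
          MvPolynomial (ℕ ⊕ ℕ) K).toLinearMap) F G := rfl
      _ = (LinearMap.compl₂ form (rename (tperm w⁻¹) : MvPolynomial (ℕ ⊕ ℕ) K →ₐ[K]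
          MvPolynomial (ℕ ⊕ ℕ) K).toLinearMap) F G := by rw [h]
      _ = _ := rfl

end JSup
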