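import Pool.Agent.Helper204.JS.Stmt
import Pool.Agent.Helper204.JS.Defs
import Pool.Agent.Helper204.JS.Defs1
import Pool.Agent.Helper204.JS.Defs2
import Pool.Agent.Helper204.JS.Defs3
import Pool.Agent.Helper204.JS.P_form_adj

set_option linter.unusedSectionVars false

open MvPolynomial Finset

noncomputable section

namespace JSup
variable {K : Type} [Field K] [CharZero K] [Par K]



/-- HINT: symmetric versions obtained from `form_adj` with the arguments exchanged; `α k ≠ 0` for `k ≥ 1`
(`Par.indep`). -/
theorem form_adj2 (F G : MvPolynomial (ℕ ⊕ ℕ) K) :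
    (∀ k, 1 ≤ k → form (dp k F) G = ((al : K) * k)⁻¹ * form F (mp k G)) ∧
    (∀ i c, form (tau i c F) G = form F (mt i c G)) := by
  refine ⟨?_, ?_⟩
  · intro k hk
    have hne : (al : K) * (k : K) ≠ 0 := by
      intro h
      have h2 : ((k : ℤ) : K) * (Par.al : K) + ((0 : ℤ) : K) = 0 := by
        have h3 : (Par.al : K) * (k : K) = 0 := h
        push_cast
        rw [mul_comm, h3, add_zero]
      have := Par.indep (k : ℤ) 0 h2
      omega
    have h1 := (form_adj (K := K) G F).2.1 k
    have h2 := (form_adj (K := K) (mp k G) F).1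
    have h3 := (form_adj (K := K) (dp k F) G).1
    rw [h3, ← h2, h1, inv_mul_cancel_left₀ hne]
  · intro i c
    have h1 := (form_adj (K := K) G F).2.2.1 i c
    have h2 := (form_adj (K := K) (mt i c G) F).1
    have h3 := (form_adj (K := K) (tau i c F) G).1
    rw [h3, ← h2, h1]

end JSup
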