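import Pool.Agent.Helper204.JS.Stmt
import Pool.Agent.Helper204.JS.Defs
import Pool.Agent.Helper204.JS.Defs1
import Pool.Agent.Helper204.JS.Defs2
import Pool.Agent.Helper204.JS.Defs3
import Pool.Agent.Helper204.JS.P_form_adj
import Pool.Agent.Helper204.JS.P_form_adj2

set_option linter.unusedSectionVars false

open MvPolynomial Finset

noncomputable section

namespace JSup
variable {K : Type} [Field K] [CharZero K] [Par K]



/-- HINT: `(α k t_i^k ∂_k)† = p_k τ_i^k` and conversely, `θ_i† = θ_i`; use `form_adj`, `form_adj2` term by term.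
(`mt`, `mp`, `dp`, `tau`, `tht` with different variables commute where needed: `mt i k ∘ dp k = dp k ∘ mt i k`,
`mp k ∘ tau i k = tau i k ∘ mp k`.) -/
theorem FI_selfadj_al_ne : (al : K) ≠ 0 := by
  intro h
  have := (Par.indep (K := K) 1 0 (by
    have h2 : (Par.al : K) = 0 := h
    simp [h2]))
  exact one_ne_zero this

theorem FI_selfadj_apply (m D : ℕ) (F : MvPolynomial (ℕ ⊕ ℕ) K) :
    FI m D F = ((al : K) - 1) • ∑ i ∈ range m, tht i F
    + ∑ i ∈ range m, ∑ k ∈ Icc 1 D, (((al : K) * (k : K)) • (mt i k (dp k F)) + mp k (tau i k F))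
    + ((m.choose 2 : ℕ) : K) • F := by
  unfold FI
  simp only [LinearMap.add_apply, LinearMap.smul_apply, LinearMap.sum_apply, LinearMap.comp_apply,
    LinearMap.id_apply]

theorem FI_selfadj (m D : ℕ) (F G : MvPolynomial (ℕ ⊕ ℕ) K) : form (FI m D F) G = form F (FI m D G) := by
  rw [FI_selfadj_apply, FI_selfadj_apply]
  simp only [map_add, map_smul, map_sum, LinearMap.add_apply, LinearMap.smul_apply,
    LinearMap.sum_apply]
  congr 1
  congr 1
  · congr 1
    exact Finset.sum_congr rfl fun i _ => (form_adj F G).2.2.2.1 i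
  · refine Finset.sum_congr rfl fun i _ => Finset.sum_congr rfl fun k hk => ?_
    have hk1 : 1 ≤ k := (Finset.mem_Icc.1 hk).1
    have hk0 : (k : K) ≠ 0 := by
      have : k ≠ 0 := by omega
      exact_mod_cast this
    have hak : (al : K) * k ≠ 0 := mul_ne_zero FI_selfadj_al_ne hk0
    rw [(form_adj (dp k F) G).2.2.1 i k, (form_adj2 F (tau i k G)).1 k hk1,
      (form_adj (tau i k F) G).2.1 k, (form_adj2 F (dp k G)).2 i k]
    simp only [smul_eq_mul]
    rw [mul_inv_cancel_left₀ hak, add_comm]

end JSup
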