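import Pool.Agent.Helper204.JS.Stmt
import Pool.Agent.Helper204.JS.Defs
import Pool.Agent.Helper204.JS.Defs1
import Pool.Agent.Helper204.JS.Defs2
import Pool.Agent.Helper204.JS.Defs3
import Pool.Agent.Helper204.JS.P_form_adj
import Pool.Agent.Helper204.JS.P_form_adj2

set_option linter.unusedSectionVars false

open MvPolynomial Finset

noncomputable section

namespace JSup
variable {K : Type} [Field K] [CharZero K] [Par K]



/-- HINT: `θ_i²` and `p_k ∂_k` are self-adjoint; `(α k t_i^k θ_i ∂_k)† = p_k θ_i τ_i^k`;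
`(α k l p_{k+l} ∂_k ∂_l)† = (k+l) p_k p_l ∂_{k+l}` (k, l ≥ 1). Use `form_adj`, `form_adj2`; operators acting on different
variables commute. -/
theorem FM_selfadj_al_ne : (al : K) ≠ 0 := by
  intro h
  have := (Par.indep (K := K) 1 0 (by
    have h2 : (Par.al : K) = 0 := h
    simp [h2]))
  exact one_ne_zero this

theorem FM_selfadj_apply (N m D : ℕ) (F : MvPolynomial (ℕ ⊕ ℕ) K) :
    FM N m D F = ((al : K) - 1) • (∑ i ∈ range m, tht i (tht i F)
        + ∑ k ∈ Icc 1 D, ((k : K) ^ 2) • (mp k (dp k F)))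
    + (N : K) • (∑ i ∈ range m, tht i F + ∑ k ∈ Icc 1 D, (k : K) • (mp k (dp k F)))
    + (2 : K) • ∑ i ∈ range m, ∑ k ∈ Icc 1 D,
        (((al : K) * (k : K)) • (mt i k (tht i (dp k F))) + mp k (tht i (tau i k F)))
    + ∑ k ∈ Icc 1 D, ∑ l ∈ Icc 1 D, (((al : K) * (k : K) * (l : K)) • (mp (k + l) (dp k (dp l F)))
        + ((k : K) + (l : K)) • (mp k (mp l (dp (k + l) F)))) := by
  unfold FM
  simp only [LinearMap.add_apply, LinearMap.smul_apply, LinearMap.sum_apply, LinearMap.comp_apply]

theorem FM_selfadj (N m D : ℕ) (F G : MvPolynomial (ℕ ⊕ ℕ) K) : form (FM N m D F) G = form F (FM N m D G) := by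
  have hne : ∀ k ∈ Icc 1 D, (k : K) ≠ 0 := by
    intro k hk
    have hk1 : 1 ≤ k := (Finset.mem_Icc.1 hk).1
    have : k ≠ 0 := by omega
    exact_mod_cast this
  have hA : ∀ i, form (tht i F) G = form F (tht i G) := (form_adj F G).2.2.2.1
  have hA2 : ∀ i, form (tht i (tht i F)) G = form F (tht i (tht i G)) := by
    intro i
    rw [(form_adj (tht i F) G).2.2.2.1 i, (form_adj F (tht i G)).2.2.2.1 i]
  have hB : ∀ k ∈ Icc 1 D, form (mp k (dp k F)) G = form F (mp k (dp k G)) := by
    intro k hk
    have hak : (al : K) * k ≠ 0 := mul_ne_zero FM_selfadj_al_ne (hne k hk)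
    rw [(form_adj (dp k F) G).2.1 k, (form_adj2 F (dp k G)).1 k (Finset.mem_Icc.1 hk).1,
      mul_inv_cancel_left₀ hak]
  have hC : ∀ i, ∀ k ∈ Icc 1 D, ((al : K) * k) * form (mt i k (tht i (dp k F))) G
      = form F (mp k (tht i (tau i k G))) := by
    intro i k hk
    have hak : (al : K) * k ≠ 0 := mul_ne_zero FM_selfadj_al_ne (hne k hk)
    rw [(form_adj (tht i (dp k F)) G).2.2.1 i k, (form_adj (dp k F) (tau i k G)).2.2.2.1 i,
      (form_adj2 F (tht i (tau i k G))).1 k (Finset.mem_Icc.1 hk).1,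
      mul_inv_cancel_left₀ hak]
  have hD : ∀ i, ∀ k ∈ Icc 1 D, form (mp k (tht i (tau i k F))) G
      = ((al : K) * k) * form F (mt i k (tht i (dp k G))) := by
    intro i k hk
    rw [(form_adj (tht i (tau i k F)) G).2.1 k, (form_adj (tau i k F) (dp k G)).2.2.2.1 i,
      (form_adj2 F (tht i (dp k G))).2 i k]
  have hE : ∀ k ∈ Icc 1 D, ∀ l ∈ Icc 1 D,
      ((al : K) * k * l) * form (mp (k + l) (dp k (dp l F))) G
      = ((k : K) + l) * form F (mp k (mp l (dp (k + l) G))) := by
    intro k hk l hl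
    have hk1 := (Finset.mem_Icc.1 hk).1
    have hl1 := (Finset.mem_Icc.1 hl).1
    have ha := FM_selfadj_al_ne (K := K)
    have hk0 := hne k hk
    have hl0 := hne l hl
    rw [(form_adj (dp k (dp l F)) G).2.1 (k + l), (form_adj2 (dp l F) (dp (k + l) G)).1 k hk1,
      (form_adj2 F (mp k (dp (k + l) G))).1 l hl1]
    have hc : mp l (mp k (dp (k + l) G)) = mp k (mp l (dp (k + l) G)) := by
      simp only [mp_apply]; ring
    rw [hc]
    push_cast
    field_simp
  have hF : ∀ k ∈ Icc 1 D, ∀ l ∈ Icc 1 D,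
      ((k : K) + l) * form (mp k (mp l (dp (k + l) F))) G
      = ((al : K) * k * l) * form F (mp (k + l) (dp l (dp k G))) := by
    intro k hk l hl
    have hk1 := (Finset.mem_Icc.1 hk).1
    have hl1 := (Finset.mem_Icc.1 hl).1
    have ha := FM_selfadj_al_ne (K := K)
    have hk0 := hne k hk
    have hl0 := hne l hl
    have hkl0 : (k : K) + l ≠ 0 := by
      have : ((k + l : ℕ) : K) ≠ 0 := by
        have : k + l ≠ 0 := by omega
        exact_mod_cast this
      simpa using this
    rw [(form_adj (mp l (dp (k + l) F)) G).2.1 k, (form_adj (dp (k + l) F) (dp k G)).2.1 l,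
      (form_adj2 F (dp l (dp k G))).1 (k + l) (by omega)]
    push_cast
    field_simp
  rw [FM_selfadj_apply, FM_selfadj_apply]
  simp only [map_add, map_smul, map_sum, LinearMap.add_apply, LinearMap.smul_apply,
    LinearMap.sum_apply, smul_eq_mul]
  congr 1
  · congr 1
    · congr 1
      · congr 1
        congr 1
        · exact Finset.sum_congr rfl fun i _ => hA2 i
        · exact Finset.sum_congr rfl fun k hk => by rw [hB k hk]
      · congr 1
        congr 1
        · exact Finset.sum_congr rfl fun i _ => hA i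
        · exact Finset.sum_congr rfl fun k hk => by rw [hB k hk]
    · congr 1
      refine Finset.sum_congr rfl fun i _ => Finset.sum_congr rfl fun k hk => ?_
      rw [hC i k hk, hD i k hk, add_comm]
  · simp only [Finset.sum_add_distrib]
    rw [add_comm]
    congr 1
    · rw [Finset.sum_comm]
      refine Finset.sum_congr rfl fun k hk => Finset.sum_congr rfl fun l hl => ?_
      rw [hF l hl k hk, add_comm l k]
      ring
    · exact Finset.sum_congr rfl fun k hk => Finset.sum_congr rfl fun l hl => hE k hk l hl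

end JSup
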