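import Pool.Agent.Helper204.JS.Defs
import Pool.Agent.Helper204.JS.P_swap_ee_succ
import Pool.Agent.Helper204.JS.P_ee_sym_swap

set_option linter.unusedSectionVars false

open MvPolynomial Finset

noncomputable section

namespace JSup
variable {K : Type} [Field K] [CharZero K] [Par K]


/-- permutations with `0 ↦ u`, `1 ↦ v`, `k ↦ k-2` for `2 ≤ k ≤ l`, fixing all `k ≥ N` -/
def PxTau (N l u v : ℕ) (τ : Equiv.Perm ℕ) : Prop :=
  τ 0 = u ∧ τ 1 = v ∧ (∀ k, 2 ≤ k → k ≤ l → τ k = k - 2) ∧ ∀ k, N ≤ k → τ k = k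

open Classical in
/-- `P(u,v)` -/
def PxP (N l : ℕ) (f : MvPolynomial ℕ K) (u v : ℕ) : MvPolynomial ℕ K :=
  if h : ∃ τ, PxTau N l u v τ then X u * X v * rename h.choose f else 0

theorem PxTau_uniq {N l u v : ℕ} {f : MvPolynomial ℕ K} (hf : SymOn (l + 1) N f)
    {τ τ' : Equiv.Perm ℕ} (h : PxTau N l u v τ) (h' : PxTau N l u v τ') :
    rename τ f = rename τ' f := by
  have h1 : rename (τ⁻¹ * τ' : Equiv.Perm ℕ) f = f := by
    apply hf
    intro k hk
    rw [Equiv.Perm.mul_apply, Equiv.Perm.inv_eq_iff_eq]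
    rcases hk with hk | hk
    · rcases Nat.lt_or_ge k 2 with h2 | h2
      · interval_cases k
        · rw [h.1, h'.1]
        · rw [h.2.1, h'.2.1]
      · rw [h.2.2.1 k h2 (by omega), h'.2.2.1 k h2 (by omega)]
    · rw [h.2.2.2 k hk, h'.2.2.2 k hk]
  conv_lhs => rw [← h1]
  rw [rename_rename, ← Equiv.Perm.coe_mul, mul_inv_cancel_left]

theorem PxP_eq {N l u v : ℕ} {f : MvPolynomial ℕ K} (hf : SymOn (l + 1) N f)
    {τ : Equiv.Perm ℕ} (h : PxTau N l u v τ) : PxP N l f u v = X u * X v * rename τ f := by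
  have hex : ∃ τ, PxTau N l u v τ := ⟨τ, h⟩
  unfold PxP
  rw [dif_pos hex, PxTau_uniq hf hex.choose_spec h]

theorem PxP_not {N l u v : ℕ} {f : MvPolynomial ℕ K}
    (h : ¬ ∃ τ, PxTau N l u v τ) : PxP N l f u v = 0 := by
  unfold PxP
  rw [dif_neg h]

theorem PxP_ee {N l : ℕ} (hl1 : 1 ≤ l) {f : MvPolynomial ℕ K} (hf : SymOn (l + 1) N f)
    (j k : ℕ) (hj : l ≤ j) (hjN : j < N) (hk : l ≤ k) (hkN : k < N) :
    ee j (ee k f) = PxP N l f (cyc j k) j := by
  have h : PxTau N l (cyc j k) j (cyc j * cyc k) := by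
    refine ⟨?_, ?_, ?_, ?_⟩
    · rw [Equiv.Perm.mul_apply, cyc_apply k 0, if_pos rfl]
    · rw [Equiv.Perm.mul_apply, cyc_apply k 1, if_neg (by omega), if_pos (by omega),
        cyc_apply, if_pos (by omega)]
    · intro m h2 hm
      rw [Equiv.Perm.mul_apply, cyc_apply k m, if_neg (by omega), if_pos (by omega),
        cyc_apply, if_neg (by omega), if_pos (by omega)]
      omega
    · intro m hm
      rw [Equiv.Perm.mul_apply, cyc_apply k m, if_neg (by omega), if_neg (by omega),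
        cyc_apply, if_neg (by omega), if_neg (by omega)]
  rw [PxP_eq hf h, ee_apply, ee_apply, map_mul, rename_X, rename_rename, Equiv.Perm.coe_mul]
  ring

theorem PxP_sum {N l : ℕ} (_hl1 : 1 ≤ l) (F : ℕ → MvPolynomial ℕ K) (k : ℕ) (hk : l < k)
    (hkN : k < N) :
    ∑ k' ∈ Ioo l N, F (cyc k k') = F l + ∑ y ∈ (Ioo l N).erase k, F y := by
  have hnot : l ∉ (Ioo l N).erase k := by simp
  rw [← Finset.sum_insert hnot]
  apply Finset.sum_bij (fun k' _ => cyc k k')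
  · intro a ha
    rw [Finset.mem_Ioo] at ha
    simp only [cyc_apply, Finset.mem_insert, Finset.mem_erase, Finset.mem_Ioo]
    split_ifs <;> omega
  · intro a _ b _ h
    exact (cyc k).injective h
  · intro b hb
    simp only [Finset.mem_insert, Finset.mem_erase, Finset.mem_Ioo] at hb
    refine ⟨(cyc k).symm b, ?_, (cyc k).apply_symm_apply b⟩
    rw [Finset.mem_Ioo, cyc_symm_apply]
    split_ifs <;> omega
  · intro a _
    rfl

theorem PxP_Psi {N l : ℕ} (hl1 : 1 ≤ l) (hlN : l < N) (A B : K) {f : MvPolynomial ℕ K}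
    (hf : SymOn (l + 1) N f) :
    Psi N l A (Psi N l B f) = ((A + l + 1) * (B + l + 1)) • PxP N l f (l - 1) l
      + (A + l + 1) • ∑ y ∈ Ioo l N, PxP N l f y l
      + (B + l + 1) • ∑ y ∈ Ioo l N, PxP N l f (l - 1) y
      + ∑ y ∈ Ioo l N, PxP N l f l y
      + ∑ k ∈ Ioo l N, ∑ y ∈ (Ioo l N).erase k, PxP N l f y k := by
  rw [Psi_apply N l B f, Psi_apply]
  simp only [map_add, map_smul, map_sum]
  have e1 : ee l (ee l f) = PxP N l f (l - 1) l := by
    rw [PxP_ee hl1 hf l l le_rfl hlN le_rfl hlN, cyc_apply, if_neg (by omega), if_pos le_rfl]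
  have e2 : ∑ x ∈ Ioo l N, ee l (ee x f) = ∑ y ∈ Ioo l N, PxP N l f y l := by
    apply Finset.sum_congr rfl
    intro y hy
    rw [Finset.mem_Ioo] at hy
    rw [PxP_ee hl1 hf l y le_rfl hlN (by omega) hy.2, cyc_apply, if_neg (by omega),
      if_neg (by omega)]
  have e3 : ∑ x ∈ Ioo l N, ee x (ee l f) = ∑ y ∈ Ioo l N, PxP N l f (l - 1) y := by
    apply Finset.sum_congr rfl
    intro y hy
    rw [Finset.mem_Ioo] at hy
    rw [PxP_ee hl1 hf y l (by omega) hy.2 le_rfl hlN, cyc_apply, if_neg (by omega),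
      if_pos (by omega)]
  have e4 : ∑ x ∈ Ioo l N, ∑ x' ∈ Ioo l N, ee x (ee x' f) = ∑ y ∈ Ioo l N, PxP N l f l y
      + ∑ k ∈ Ioo l N, ∑ y ∈ (Ioo l N).erase k, PxP N l f y k := by
    rw [← Finset.sum_add_distrib]
    apply Finset.sum_congr rfl
    intro k hk
    rw [Finset.mem_Ioo] at hk
    rw [← PxP_sum hl1 (fun y => PxP N l f y k) k hk.1 hk.2]
    apply Finset.sum_congr rfl
    intro k' hk'
    rw [Finset.mem_Ioo] at hk'
    rw [PxP_ee hl1 hf k k' (by omega) hk.2 (by omega) hk'.2]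
  rw [e1, e2]
  have e3' : ∑ x ∈ Ioo l N, (B + l + 1) • ee x (ee l f) =
      (B + l + 1) • ∑ y ∈ Ioo l N, PxP N l f (l - 1) y := by
    rw [← Finset.smul_sum, e3]
  rw [Finset.sum_add_distrib, e3', e4]
  module

theorem PxP_swap01 {N l : ℕ} (hl1 : 1 ≤ l) (hlN : l < N) {f : MvPolynomial ℕ K}
    (hf : SymOn (l + 1) N f) (hg : SymOn (l + 1) N (rename (Equiv.swap 0 1) f)) (u v : ℕ) :
    PxP N l (rename (Equiv.swap 0 1) f) u v = PxP N l f v u := by
  have key : ∀ {u v : ℕ} {τ : Equiv.Perm ℕ}, PxTau N l u v τ →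
      PxTau N l v u (τ * Equiv.swap 0 1) := by
    intro u v τ h
    refine ⟨?_, ?_, ?_, ?_⟩
    · rw [Equiv.Perm.mul_apply, Equiv.swap_apply_left, h.2.1]
    · rw [Equiv.Perm.mul_apply, Equiv.swap_apply_right, h.1]
    · intro k h2 hk
      rw [Equiv.Perm.mul_apply, Equiv.swap_apply_of_ne_of_ne (by omega) (by omega),
        h.2.2.1 k h2 hk]
    · intro k hk
      rw [Equiv.Perm.mul_apply, Equiv.swap_apply_of_ne_of_ne (by omega) (by omega),
        h.2.2.2 k hk]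
  by_cases hex : ∃ τ, PxTau N l u v τ
  · obtain ⟨τ, h⟩ := hex
    rw [PxP_eq hg h, PxP_eq hf (key h), rename_rename, Equiv.Perm.coe_mul]
    ring
  · rw [PxP_not hex, PxP_not]
    rintro ⟨τ, h⟩
    exact hex ⟨_, key h⟩

theorem PxP_swapL {N l : ℕ} (hl1 : 1 ≤ l) (hlN : l < N) {f : MvPolynomial ℕ K}
    (hf : SymOn (l + 1) N f) (u v : ℕ) :
    rename (Equiv.swap (l - 1) l) (PxP N l f u v) =
      PxP N l f (Equiv.swap (l - 1) l u) (Equiv.swap (l - 1) l v) := by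
  have key : ∀ {u v : ℕ} {τ : Equiv.Perm ℕ}, PxTau N l u v τ →
      PxTau N l (Equiv.swap (l - 1) l u) (Equiv.swap (l - 1) l v)
        (Equiv.swap (l - 1) l * τ) := by
    intro u v τ h
    refine ⟨?_, ?_, ?_, ?_⟩
    · rw [Equiv.Perm.mul_apply, h.1]
    · rw [Equiv.Perm.mul_apply, h.2.1]
    · intro k h2 hk
      rw [Equiv.Perm.mul_apply, h.2.2.1 k h2 hk,
        Equiv.swap_apply_of_ne_of_ne (by omega) (by omega)]
    · intro k hk
      rw [Equiv.Perm.mul_apply, h.2.2.2 k hk,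
        Equiv.swap_apply_of_ne_of_ne (by omega) (by omega)]
  by_cases hex : ∃ τ, PxTau N l u v τ
  · obtain ⟨τ, h⟩ := hex
    rw [PxP_eq hf h, PxP_eq hf (key h), map_mul, map_mul, rename_X, rename_X, rename_rename,
      Equiv.Perm.coe_mul]
  · rw [PxP_not hex, PxP_not, map_zero]
    rintro ⟨τ, h⟩
    apply hex
    have := key h
    rw [Equiv.swap_apply_self, Equiv.swap_apply_self] at this
    exact ⟨_, this⟩

theorem PxP_symOn {N l : ℕ} (hl1 : 1 ≤ l) {f : MvPolynomial ℕ K}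
    (hf : SymOn (l + 1) N f) : SymOn (l + 1) N (rename (Equiv.swap 0 1) f) := by
  intro σ hσ
  have h0 : σ 0 = 0 := hσ 0 (Or.inl (by omega))
  have h1 : σ 1 = 1 := hσ 1 (Or.inl (by omega))
  have h2 : σ * Equiv.swap 0 1 = Equiv.swap 0 1 * σ := by
    rw [Equiv.mul_swap_eq_swap_mul, h0, h1]
  rw [rename_rename, ← Equiv.Perm.coe_mul, h2, Equiv.Perm.coe_mul, ← rename_rename, hf σ hσ]

theorem PxP_comm (N l : ℕ) (F : ℕ → ℕ → MvPolynomial ℕ K) :
    ∑ k ∈ Ioo l N, ∑ y ∈ (Ioo l N).erase k, F k y =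
      ∑ k ∈ Ioo l N, ∑ y ∈ (Ioo l N).erase k, F y k := by
  apply Finset.sum_comm'
  intro x y
  simp only [Finset.mem_erase, Finset.mem_Ioo]
  constructor
  · rintro ⟨h1, h2, h3⟩
    exact ⟨⟨fun h => h2 h.symm, h1⟩, h3⟩
  · rintro ⟨⟨h1, h2⟩, h3⟩
    exact ⟨h2, fun h => h1 h.symm, h3⟩

/-- HINT: write `A' = A+l+1`, `B' = B+l+1`, and for distinct `u,v` in `{l-1, l, …, N-1}` let
`P(u,v) = x_u x_v · rename τ f` where `τ` is any permutation with `0 ↦ u`, `1 ↦ v`, `k ↦ k-2` for `2 ≤ k ≤ l`, and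
fixing all `k ≥ N` (well defined since `f` is symmetric in positions `> l`; two such `τ` differ by a permutation of
the positions `l+1..N-1`). For `k > l`: `e_l e_l f = P(l-1,l)`, `e_l e_k f = P(k,l)`, `e_k e_l f = P(l-1,k)`,
`e_k e_{k'} f = P(k'-1,k)` if `k' ≤ k` (here `k'-1` runs over `l..k-1`), `= P(k',k)` if `k' > k`. Hence
`Ψ_A Ψ_B f = A'B' P(l-1,l) + A' Σ_y P(y,l) + B' Σ_y P(l-1,y) + Σ_y P(l,y) + Σ_{y≠y'} P(y,y')`, `y,y' > l`.
`P(u,v)(s_0 f) = P(v,u) f`, and `swap (l-1) l` applied to `P(u,v)` exchanges the labels `l-1, l`. Now compare both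
sides: the difference is `Σ_y P(l-1,y) (Δ + B' - A') + Σ_y P(y,l) (A' - Δ - B') = 0`, `Δ = A - B`. -/
theorem Psi_exchange (N l : ℕ) (hl1 : 1 ≤ l) (hlN : l < N) (A B : K) (f : MvPolynomial ℕ K)
    (hf : SymOn (l + 1) N f) :
    (A - B) • rename (Equiv.swap (l - 1) l) (Psi N l A (Psi N l B f)) + Psi N l A (Psi N l B f)
      = Psi N l B (Psi N l A ((A - B) • rename (Equiv.swap 0 1) f + f)) := by
  have hg := PxP_symOn hl1 hf
  rw [map_add, map_add, map_smul, map_smul, PxP_Psi hl1 hlN A B hf, PxP_Psi hl1 hlN B A hf,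
    PxP_Psi hl1 hlN B A hg]
  simp only [PxP_swap01 hl1 hlN hf hg, map_add, map_smul, map_sum, PxP_swapL hl1 hlN hf,
    Equiv.swap_apply_left, Equiv.swap_apply_right]
  rw [PxP_comm N l (fun k y => PxP N l f k y)]
  have f1 : ∑ y ∈ Ioo l N, PxP N l f (Equiv.swap (l - 1) l y) (l - 1) =
      ∑ y ∈ Ioo l N, PxP N l f y (l - 1) := by
    apply Finset.sum_congr rfl
    intro y hy
    rw [Finset.mem_Ioo] at hy
    rw [Equiv.swap_apply_of_ne_of_ne (by omega) (by omega)]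
  have f2 : ∑ y ∈ Ioo l N, PxP N l f l (Equiv.swap (l - 1) l y) =
      ∑ y ∈ Ioo l N, PxP N l f l y := by
    apply Finset.sum_congr rfl
    intro y hy
    rw [Finset.mem_Ioo] at hy
    rw [Equiv.swap_apply_of_ne_of_ne (by omega) (by omega)]
  have f3 : ∑ y ∈ Ioo l N, PxP N l f (l - 1) (Equiv.swap (l - 1) l y) =
      ∑ y ∈ Ioo l N, PxP N l f (l - 1) y := by
    apply Finset.sum_congr rfl
    intro y hy
    rw [Finset.mem_Ioo] at hy
    rw [Equiv.swap_apply_of_ne_of_ne (by omega) (by omega)]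
  have f4 : ∑ k ∈ Ioo l N, ∑ y ∈ (Ioo l N).erase k,
      PxP N l f (Equiv.swap (l - 1) l y) (Equiv.swap (l - 1) l k) =
      ∑ k ∈ Ioo l N, ∑ y ∈ (Ioo l N).erase k, PxP N l f y k := by
    apply Finset.sum_congr rfl
    intro k hk
    apply Finset.sum_congr rfl
    intro y hy
    rw [Finset.mem_Ioo] at hk
    rw [Finset.mem_erase, Finset.mem_Ioo] at hy
    rw [Equiv.swap_apply_of_ne_of_ne (by omega) (by omega),
      Equiv.swap_apply_of_ne_of_ne (by omega) (by omega)]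
  rw [f1, f2, f3, f4]
  module

end JSup
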