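import Pool.Agent.Helper204.JS.Defs

set_option linter.unusedSectionVars false

open MvPolynomial Finset

noncomputable section

namespace JSup
variable {K : Type} [Field K] [CharZero K] [Par K]


/-- HINT: counting; for `η (l-1) > η l > 0` with zeros after `l`; `ζ = s_{l-1} η`.
`κ_l(η) = y_l(η) =: B`, `κ_l(η^*) = κ_l(ζ) = y_{l-1}(η) =: A`, `κ_l(ζ^*) = B`, and
`y_0(η^{**}) - y_1(η^{**}) = A - B`. -/
theorem kap_pair (N l : ℕ) (hl1 : 1 ≤ l) (hlN : l < N) (η : ℕ →₀ ℕ) (h : η l < η (l - 1)) (hpos : η l ≠ 0)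
    (h0 : ∀ k, l < k → η k = 0) :
    (kap l η : K) = yv N η l ∧
    (kap l (star l η) : K) = yv N η (l - 1) ∧
    (kap l (Finsupp.equivMapDomain (Equiv.swap (l - 1) l) η) : K) = yv N η (l - 1) ∧
    (kap l (star l (Finsupp.equivMapDomain (Equiv.swap (l - 1) l) η)) : K) = yv N η l ∧
    (yv N (star l (star l η)) 0 : K) - yv N (star l (star l η)) 1 = yv N η (l - 1) - yv N η l := by
  obtain ⟨m, rfl⟩ : ∃ m, l = m + 1 := ⟨l - 1, by omega⟩
  simp only [Nat.add_sub_cancel] at *
  set ζ := Finsupp.equivMapDomain (Equiv.swap m (m + 1)) η with hζ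
  have z1 : ζ (m + 1) = η m := by
    rw [hζ, Finsupp.equivMapDomain_apply, Equiv.symm_swap, Equiv.swap_apply_right]
  have z2 : ζ m = η (m + 1) := by
    rw [hζ, Finsupp.equivMapDomain_apply, Equiv.symm_swap, Equiv.swap_apply_left]
  have z3 : ∀ j < m, ζ j = η j := by
    intro j hj
    rw [hζ, Finsupp.equivMapDomain_apply, Equiv.symm_swap,
      Equiv.swap_apply_of_ne_of_ne (by omega) (by omega)]
  have hs : ∀ θ : ℕ →₀ ℕ, star (m + 1) θ 0 = θ (m + 1) - 1 ∧
      (∀ j, j ≤ m → star (m + 1) θ (j + 1) = θ j) ∧ (∀ k, m + 1 < k → star (m + 1) θ k = 0) := by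
    intro θ
    refine ⟨?_, ?_, ?_⟩
    · rw [star_apply, if_pos rfl]
    · intro j hj
      rw [star_apply, if_neg (by omega), if_pos (by omega), Nat.add_sub_cancel]
    · intro k hk
      rw [star_apply, if_neg (by omega), if_neg (by omega)]
  obtain ⟨a, ha⟩ : ∃ a : ℕ, a = ∑ j ∈ range m, if η m ≤ η j then 1 else 0 := ⟨_, rfl⟩
  obtain ⟨b, hb⟩ : ∃ b : ℕ, b = ∑ j ∈ range m, if η (m + 1) ≤ η j then 1 else 0 := ⟨_, rfl⟩
  have c1 : ((range (m + 1)).filter (fun j => η (m + 1) ≤ η j)).card = b + 1 := by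
    rw [Finset.card_filter, Finset.sum_range_succ, if_pos h.le, hb]
  have c2 : ((Ioo (m + 1) N).filter (fun j => η (m + 1) < η j)).card = 0 := by
    rw [Finset.card_eq_zero, Finset.filter_eq_empty_iff]
    intro j hj
    rw [mem_Ioo] at hj
    rw [h0 j hj.1]
    omega
  have c3 : ((range m).filter (fun j => η m ≤ η j)).card = a := by
    rw [Finset.card_filter, ha]
  have c4 : ((Ioo m N).filter (fun j => η m < η j)).card = 0 := by
    rw [Finset.card_eq_zero, Finset.filter_eq_empty_iff]
    intro j hj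
    rw [mem_Ioo] at hj
    rcases Nat.lt_or_ge (m + 1) j with h1 | h1
    · rw [h0 j h1]
      omega
    · have : j = m + 1 := by omega
      rw [this]
      omega
  have c5 : ((range (m + 1)).filter
      (fun j => star (m + 1) η (m + 1) ≤ star (m + 1) η j)).card = a := by
    rw [Finset.card_filter, Finset.sum_range_succ', (hs η).2.1 m le_rfl, (hs η).1,
      if_neg (by omega), add_zero, ha]
    apply Finset.sum_congr rfl
    intro j hj
    rw [mem_range] at hj
    rw [(hs η).2.1 j (by omega)]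
  have c6 : ((range (m + 1)).filter (fun j => ζ (m + 1) ≤ ζ j)).card = a := by
    rw [Finset.card_filter, Finset.sum_range_succ, z1, z2, if_neg (by omega), add_zero, ha]
    apply Finset.sum_congr rfl
    intro j hj
    rw [mem_range] at hj
    rw [z3 j hj]
  have c7 : ((range (m + 1)).filter
      (fun j => star (m + 1) ζ (m + 1) ≤ star (m + 1) ζ j)).card = b + 1 := by
    rw [Finset.card_filter, Finset.sum_range_succ', (hs ζ).2.1 m le_rfl, (hs ζ).1, z2, z1,
      if_pos (by omega), hb]
    congr 1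
    apply Finset.sum_congr rfl
    intro j hj
    rw [mem_range] at hj
    rw [(hs ζ).2.1 j (by omega), z3 j hj]
  set σ := star (m + 1) (star (m + 1) η) with hσ
  have t0 : σ 0 = η m - 1 := by
    rw [hσ, (hs _).1, (hs η).2.1 m le_rfl]
  have t1 : σ 1 = η (m + 1) - 1 := by
    have := (hs (star (m + 1) η)).2.1 0 (Nat.zero_le _)
    rw [zero_add] at this
    rw [hσ, this, (hs η).1]
  have t2 : ∀ j < m, σ (2 + j) = η j := by
    intro j hj
    rw [show 2 + j = (j + 1) + 1 by omega, hσ, (hs _).2.1 (j + 1) (by omega),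
      (hs η).2.1 j (by omega)]
  have t3 : ∀ k, m + 1 < k → σ k = 0 := (hs (star (m + 1) η)).2.2
  have c9 : ((Ioo 0 N).filter (fun j => σ 0 < σ j)).card = a := by
    have e : (Ioo 0 N).filter (fun j => σ 0 < σ j) =
        (Ico 2 (m + 2)).filter (fun j => σ 0 < σ j) := by
      ext j
      simp only [mem_filter, mem_Ioo, mem_Ico]
      constructor
      · rintro ⟨⟨h1, h2⟩, h3⟩
        refine ⟨⟨?_, ?_⟩, h3⟩
        · by_contra h4
          have : j = 1 := by omega
          rw [this, t0, t1] at h3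
          omega
        · by_contra h4
          rw [t3 j (by omega)] at h3
          omega
      · rintro ⟨⟨h1, h2⟩, h3⟩
        exact ⟨⟨by omega, by omega⟩, h3⟩
    rw [e, Finset.card_filter, Finset.sum_Ico_eq_sum_range, Nat.add_sub_cancel, ha]
    apply Finset.sum_congr rfl
    intro j hj
    rw [mem_range] at hj
    rw [t2 j hj, t0]
    congr 1
    apply propext
    omega
  have c10 : ((range 1).filter (fun j => σ 1 ≤ σ j)).card = 1 := by
    rw [Finset.card_filter, Finset.sum_range_one, t0, t1, if_pos (by omega)]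
  have c11 : ((Ioo 1 N).filter (fun j => σ 1 < σ j)).card = b := by
    have e : (Ioo 1 N).filter (fun j => σ 1 < σ j) =
        (Ico 2 (m + 2)).filter (fun j => σ 1 < σ j) := by
      ext j
      simp only [mem_filter, mem_Ioo, mem_Ico]
      constructor
      · rintro ⟨⟨h1, h2⟩, h3⟩
        refine ⟨⟨by omega, ?_⟩, h3⟩
        by_contra h4
        rw [t3 j (by omega)] at h3
        omega
      · rintro ⟨⟨h1, h2⟩, h3⟩
        exact ⟨⟨by omega, by omega⟩, h3⟩
    rw [e, Finset.card_filter, Finset.sum_Ico_eq_sum_range, Nat.add_sub_cancel, hb]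
    apply Finset.sum_congr rfl
    intro j hj
    rw [mem_range] at hj
    rw [t2 j hj, t1]
    congr 1
    apply propext
    omega
  refine ⟨?_, ?_, ?_, ?_, ?_⟩
  · unfold kap yv
    rw [c1, c2]
    simp
  · unfold kap yv
    rw [c5, c3, c4, (hs η).2.1 m le_rfl]
    simp
  · unfold kap yv
    rw [c6, c3, c4, z1]
    simp
  · unfold kap yv
    rw [c7, c1, c2, (hs ζ).2.1 m le_rfl, z2]
    simp
  · unfold yv
    rw [c9, c10, c11, c3, c4, c1, c2, t0, t1, Nat.cast_sub (by omega : 1 ≤ η m),
      Nat.cast_sub (by omega : 1 ≤ η (m + 1))]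
    simp only [Finset.range_zero, Finset.filter_empty, Finset.card_empty]
    push_cast
    ring

end JSup
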