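import Pool.Agent.Helper204.JS.Defs

set_option linter.unusedSectionVars false

open MvPolynomial Finset

noncomputable section

namespace JSup
variable {K : Type} [Field K] [CharZero K] [Par K]


/-- HINT: ext, `star_apply`, `Finsupp.equivMapDomain_apply`, case split / omega. -/
theorem star_swap (i l : ℕ) (η : ℕ →₀ ℕ) :
    (i + 1 < l → star l (Finsupp.equivMapDomain (Equiv.swap i (i + 1)) η)
        = Finsupp.equivMapDomain (Equiv.swap (i + 1) (i + 2)) (star l η)) ∧
    (1 ≤ l → star l (star l (Finsupp.equivMapDomain (Equiv.swap (l - 1) l) η))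
        = Finsupp.equivMapDomain (Equiv.swap 0 1) (star l (star l η))) ∧
    ((∀ k, l < k → η k = 0) →
      star (l + 1) (Finsupp.equivMapDomain (Equiv.swap l (l + 1)) η) = star l η) := by
  refine ⟨?_, ?_, ?_⟩
  · intro h
    ext k
    simp only [star_apply, Finsupp.equivMapDomain_apply, Equiv.symm_swap, Equiv.swap_apply_def]
    rcases Nat.eq_zero_or_pos k with rfl | hk
    · have h1 : ¬ (0 = i + 1) := by omega
      have h2 : ¬ (0 = i + 2) := by omega
      have h3 : ¬ (l = i) := by omega
      have h4 : ¬ (l = i + 1) := by omega
      simp only [h1, h2, h3, h4, if_true, if_false]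
    · have hk0 : k ≠ 0 := by omega
      by_cases hkl : k ≤ l
      · by_cases h1 : k = i + 1
        · have h2 : k - 1 = i := by omega
          have h3 : i + 2 ≠ 0 := by omega
          have h4 : i + 2 ≤ l := by omega
          rw [if_neg hk0, if_pos hkl, if_pos h2, if_pos h1, if_neg h3, if_pos h4]
          rfl
        · by_cases h2 : k = i + 2
          · have h3 : k - 1 ≠ i := by omega
            have h4 : k - 1 = i + 1 := by omega
            have h5 : i + 1 ≠ 0 := by omega
            have h6 : i + 1 ≤ l := by omega
            rw [if_neg hk0, if_pos hkl, if_neg h3, if_pos h4, if_neg h1, if_pos h2, if_neg h5,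
              if_pos h6]
            rfl
          · have h3 : k - 1 ≠ i := by omega
            have h4 : k - 1 ≠ i + 1 := by omega
            rw [if_neg hk0, if_pos hkl, if_neg h3, if_neg h4, if_neg h1, if_neg h2, if_neg hk0,
              if_pos hkl]
      · have h1 : k ≠ i + 1 := by omega
        have h2 : k ≠ i + 2 := by omega
        rw [if_neg hk0, if_neg hkl, if_neg h1, if_neg h2, if_neg hk0, if_neg hkl]
  · intro h
    ext k
    simp only [star_apply, Finsupp.equivMapDomain_apply, Equiv.symm_swap, Equiv.swap_apply_def]
    by_cases hk0 : k = 0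
    · subst hk0
      have h1 : l ≠ 0 := by omega
      have h3 : l - 1 ≤ l := by omega
      simp [h1, h]
    · by_cases hk1 : k = 1
      · subst hk1
        have h1 : l ≠ 0 := by omega
        have h2 : ¬ (l = l - 1) := by omega
        simp [h1, h, h2]
      · by_cases hkl : k ≤ l
        · have h1 : k - 1 ≠ 0 := by omega
          have h2 : k - 1 ≤ l := by omega
          have h3 : ¬ (k - 1 - 1 = l - 1) := by omega
          have h4 : ¬ (k - 1 - 1 = l) := by omega
          simp [hk0, hk1, hkl, h1, h2, h3, h4]
        · simp [hk0, hk1, hkl]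
  · intro h
    ext k
    simp only [star_apply, Finsupp.equivMapDomain_apply, Equiv.symm_swap, Equiv.swap_apply_def]
    by_cases hk0 : k = 0
    · subst hk0
      have h2 : ¬ (l + 1 = l) := by omega
      simp
    · by_cases hkl : k ≤ l
      · have h1 : k ≤ l + 1 := by omega
        have h2 : ¬ (k - 1 = l) := by omega
        have h3 : ¬ (k - 1 = l + 1) := by omega
        simp [hk0, hkl, h1, h2, h3]
      · by_cases hkl1 : k = l + 1
        · subst hkl1
          simp [h (l + 1) (by omega)]
        · have h1 : ¬ k ≤ l + 1 := by omega
          simp [hk0, hkl, h1]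

end JSup
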