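import Pool.Agent.Helper204.JS.Defs

set_option linter.unusedSectionVars false

open MvPolynomial Finset

noncomputable section

namespace JSup
variable {K : Type} [Field K] [CharZero K] [Par K]


theorem j16048_app (η : ℕ →₀ ℕ) (i k : ℕ) :
    Finsupp.equivMapDomain (Equiv.swap i (i + 1)) η k = η (Equiv.swap i (i + 1) k) := by
  rw [Finsupp.equivMapDomain_apply, Equiv.symm_swap]

theorem j16048_i (η : ℕ →₀ ℕ) (i : ℕ) :
    Finsupp.equivMapDomain (Equiv.swap i (i + 1)) η i = η (i + 1) := by
  rw [j16048_app, Equiv.swap_apply_left]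

theorem j16048_i1 (η : ℕ →₀ ℕ) (i : ℕ) :
    Finsupp.equivMapDomain (Equiv.swap i (i + 1)) η (i + 1) = η i := by
  rw [j16048_app, Equiv.swap_apply_right]

theorem j16048_o (η : ℕ →₀ ℕ) (i : ℕ) {k : ℕ} (h1 : k ≠ i) (h2 : k ≠ i + 1) :
    Finsupp.equivMapDomain (Equiv.swap i (i + 1)) η k = η k := by
  rw [j16048_app, Equiv.swap_apply_of_ne_of_ne h1 h2]

theorem j16048_card (η : ℕ →₀ ℕ) (i : ℕ) (S : Finset ℕ) (hS : i ∈ S ↔ i + 1 ∈ S) (P : ℕ → Prop)
    [DecidablePred P] :
    (S.filter (fun k => P (Finsupp.equivMapDomain (Equiv.swap i (i + 1)) η k))).card =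
      (S.filter (fun k => P (η k))).card := by
  refine Finset.card_equiv (Equiv.swap i (i + 1)) fun k => ?_
  rw [Finset.mem_filter, Finset.mem_filter, j16048_app]
  have : k ∈ S ↔ Equiv.swap i (i + 1) k ∈ S := by
    by_cases h1 : k = i
    · subst h1
      rw [Equiv.swap_apply_left]
      exact hS
    · by_cases h2 : k = i + 1
      · subst h2
        rw [Equiv.swap_apply_right]
        exact hS.symm
      · rw [Equiv.swap_apply_of_ne_of_ne h1 h2]
  rw [this]

theorem j16048_r (i : ℕ) (P : ℕ → Prop) [DecidablePred P] :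
    ((range (i + 1)).filter P).card = ((range i).filter P).card + (if P i then 1 else 0) := by
  rw [Finset.range_add_one, Finset.filter_insert]
  split_ifs
  · rw [Finset.card_insert_of_notMem]
    intro h
    exact absurd (Finset.mem_range.1 (Finset.mem_filter.1 h).1) (lt_irrefl _)
  · rw [add_zero]

theorem j16048_l (i N : ℕ) (hi : i + 1 < N) (P : ℕ → Prop) [DecidablePred P] :
    ((Ioo i N).filter P).card =
      ((Ioo (i + 1) N).filter P).card + (if P (i + 1) then 1 else 0) := by
  have : Ioo i N = insert (i + 1) (Ioo (i + 1) N) := by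
    ext k
    rw [Finset.mem_insert, Finset.mem_Ioo, Finset.mem_Ioo]
    omega
  rw [this, Finset.filter_insert]
  split_ifs
  · rw [Finset.card_insert_of_notMem]
    intro h
    exact absurd (Finset.mem_Ioo.1 (Finset.mem_filter.1 h).1).1 (lt_irrefl _)
  · rw [add_zero]

theorem j16048_ne (a m : ℤ) (hab : a ≠ 0) (x : K) (hx : x = (a : K) * al + (m : K)) : x ≠ 0 := by
  intro h0
  rw [hx] at h0
  exact hab (Par.indep a m h0)

/-- HINT: counting. `η' = s_i η`, `η i > η (i+1)`. -/
theorem yv_swap (N i : ℕ) (hi : i + 1 < N) (η : ℕ →₀ ℕ) (h : η (i + 1) < η i) :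
    (yv N (Finsupp.equivMapDomain (Equiv.swap i (i + 1)) η) i : K) = yv N η (i + 1) ∧
    (yv N (Finsupp.equivMapDomain (Equiv.swap i (i + 1)) η) (i + 1) : K) = yv N η i ∧
    (∀ j, j ≠ i → j ≠ i + 1 → j < N →
      (yv N (Finsupp.equivMapDomain (Equiv.swap i (i + 1)) η) j : K) = yv N η j) ∧
    (yv N η i : K) - yv N η (i + 1) ≠ 0 ∧
    (yv N η i : K) - yv N η (i + 1) + 1 ≠ 0 ∧
    1 - ((yv N η i : K) - yv N η (i + 1)) ≠ 0 := by
  have hdiff : ∃ m : ℤ, (yv N η i : K) - yv N η (i + 1) =
      (((η i : ℤ) - (η (i + 1) : ℤ) : ℤ) : K) * al + (m : K) := by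
    refine ⟨-(((range i).filter (fun j => η i ≤ η j)).card : ℤ)
      - (((Ioo i N).filter (fun j => η i < η j)).card : ℤ)
      + (((range (i + 1)).filter (fun j => η (i + 1) ≤ η j)).card : ℤ)
      + (((Ioo (i + 1) N).filter (fun j => η (i + 1) < η j)).card : ℤ), ?_⟩
    unfold yv
    push_cast
    ring
  obtain ⟨m, hm⟩ := hdiff
  have hne : (η i : ℤ) - (η (i + 1) : ℤ) ≠ 0 := by omega
  refine ⟨?_, ?_, ?_, ?_, ?_, ?_⟩
  · unfold yv
    rw [j16048_i, j16048_l i N hi, j16048_r, j16048_i1, if_pos h, if_pos h.le]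
    have e1 : (range i).filter (fun j => η (i + 1) ≤
        Finsupp.equivMapDomain (Equiv.swap i (i + 1)) η j) =
        (range i).filter (fun j => η (i + 1) ≤ η j) := by
      refine Finset.filter_congr fun k hk => ?_
      have := Finset.mem_range.1 hk
      rw [j16048_o η i (by omega) (by omega)]
    have e2 : (Ioo (i + 1) N).filter (fun j => η (i + 1) <
        Finsupp.equivMapDomain (Equiv.swap i (i + 1)) η j) =
        (Ioo (i + 1) N).filter (fun j => η (i + 1) < η j) := by
      refine Finset.filter_congr fun k hk => ?_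
      have := Finset.mem_Ioo.1 hk
      rw [j16048_o η i (by omega) (by omega)]
    rw [e1, e2]
    push_cast
    ring
  · unfold yv
    rw [j16048_i1, j16048_l i N hi, j16048_r, j16048_i, if_neg (not_lt.2 h.le),
      if_neg (not_le.2 h), add_zero, add_zero]
    have e1 : (range i).filter (fun j => η i ≤
        Finsupp.equivMapDomain (Equiv.swap i (i + 1)) η j) =
        (range i).filter (fun j => η i ≤ η j) := by
      refine Finset.filter_congr fun k hk => ?_
      have := Finset.mem_range.1 hk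
      rw [j16048_o η i (by omega) (by omega)]
    have e2 : (Ioo (i + 1) N).filter (fun j => η i <
        Finsupp.equivMapDomain (Equiv.swap i (i + 1)) η j) =
        (Ioo (i + 1) N).filter (fun j => η i < η j) := by
      refine Finset.filter_congr fun k hk => ?_
      have := Finset.mem_Ioo.1 hk
      rw [j16048_o η i (by omega) (by omega)]
    rw [e1, e2]
  · intro j h1 h2 h3
    unfold yv
    rw [j16048_o η i h1 h2]
    have e1 := j16048_card η i (range j) (by
      rw [Finset.mem_range, Finset.mem_range]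
      omega) (fun x => η j ≤ x)
    have e2 := j16048_card η i (Ioo j N) (by
      rw [Finset.mem_Ioo, Finset.mem_Ioo]
      omega) (fun x => η j < x)
    rw [e1, e2]
  · exact j16048_ne _ m hne _ hm
  · refine j16048_ne _ (m + 1) hne _ ?_
    rw [hm]
    push_cast
    ring
  · refine j16048_ne (-((η i : ℤ) - (η (i + 1) : ℤ))) (1 - m) (by omega) _ ?_
    rw [hm]
    push_cast
    ring

end JSup
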