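import Pool.Agent.Helper204.JS.Defs
import Pool.Agent.Helper204.JS.P_swap_ee_succ
import Pool.Agent.Helper204.JS.P_swap_ee_lt
import Pool.Agent.Helper204.JS.P_swap_ee_gt
import Pool.Agent.Helper204.JS.P_Fp_sym
import Pool.Agent.Helper204.JS.P_yv_star
import Pool.Agent.Helper204.JS.P_Psi_exchange
import Pool.Agent.Helper204.JS.P_star_swap
import Pool.Agent.Helper204.JS.P_yv_swap
import Pool.Agent.Helper204.JS.P_kap_pair

set_option linter.unusedSectionVars false

open MvPolynomial Finset

noncomputable section

namespace JSup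
variable {K : Type} [Field K] [CharZero K] [Par K]


theorem Fp_exchange_Psi_rename (N l i : ℕ) (hil : i + 1 < l) (A : K) (f : MvPolynomial ℕ K) :
    rename (Equiv.swap i (i + 1)) (Psi N l A f) = Psi N l A (rename (Equiv.swap (i + 1) (i + 2)) f) := by
  rw [Psi_apply, Psi_apply, map_add, map_smul, map_sum, swap_ee_lt i l hil]
  congr 1
  apply Finset.sum_congr rfl
  intro k hk
  rw [Finset.mem_Ioo] at hk
  exact swap_ee_lt i k (by omega) f

theorem Fp_exchange_kap_swap (i l : ℕ) (hil : i + 1 < l) (η : ℕ →₀ ℕ) :
    (kap l (Finsupp.equivMapDomain (Equiv.swap i (i + 1)) η) : K) = kap l η := by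
  unfold kap
  have h1 : ∀ j, (Finsupp.equivMapDomain (Equiv.swap i (i + 1)) η) j = η (Equiv.swap i (i + 1) j) := by
    intro j
    rw [Finsupp.equivMapDomain_apply, Equiv.symm_swap]
  have h2 : (Finsupp.equivMapDomain (Equiv.swap i (i + 1)) η) l = η l := by
    rw [h1, Equiv.swap_apply_of_ne_of_ne (by omega) (by omega)]
  rw [h2]
  congr 2
  apply Finset.card_bij' (fun j _ => Equiv.swap i (i + 1) j) (fun j _ => Equiv.swap i (i + 1) j)
  · intro j hj
    rw [Finset.mem_filter, Finset.mem_range] at hj ⊢
    refine ⟨?_, ?_⟩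
    · rw [Equiv.swap_apply_def]
      split_ifs <;> omega
    · rw [← h1]; exact hj.2
  · intro j hj
    rw [Finset.mem_filter, Finset.mem_range] at hj ⊢
    refine ⟨?_, ?_⟩
    · rw [Equiv.swap_apply_def]
      split_ifs <;> omega
    · rw [h1, Equiv.swap_apply_self]; exact hj.2
  · intro j _
    exact Equiv.swap_apply_self _ _ _
  · intro j _
    exact Equiv.swap_apply_self _ _ _

theorem Fp_exchange_kap_succ (l : ℕ) (η : ℕ →₀ ℕ) (hl : η l ≠ 0) (h0 : η (l + 1) = 0) :
    (kap (l + 1) (Finsupp.equivMapDomain (Equiv.swap l (l + 1)) η) : K) = kap l η := by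
  unfold kap
  have h1 : ∀ j, (Finsupp.equivMapDomain (Equiv.swap l (l + 1)) η) j = η (Equiv.swap l (l + 1) j) := by
    intro j
    rw [Finsupp.equivMapDomain_apply, Equiv.symm_swap]
  have h2 : (Finsupp.equivMapDomain (Equiv.swap l (l + 1)) η) (l + 1) = η l := by
    rw [h1, Equiv.swap_apply_right]
  rw [h2]
  congr 2
  congr 1
  ext j
  rw [Finset.mem_filter, Finset.mem_range, Finset.mem_filter, Finset.mem_range, h1]
  constructor
  · rintro ⟨a, b⟩
    rcases Nat.lt_or_ge j l with h | h
    · rw [Equiv.swap_apply_of_ne_of_ne (by omega) (by omega)] at b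
      exact ⟨h, b⟩
    · exfalso
      have : j = l := by omega
      subst this
      rw [Equiv.swap_apply_left, h0] at b
      omega
  · rintro ⟨a, b⟩
    refine ⟨by omega, ?_⟩
    rw [Equiv.swap_apply_of_ne_of_ne (by omega) (by omega)]
    exact b

/-- HINT: strong induction on `|η|` (or `comp_induction` twice; better: strong induction on the sum
`η.sum (fun _ n => n)`, `star_sum`). Let `l` be the last nonzero index, `ζ = s_i η`, `Δ = y_i - y_{i+1}`.
(a) `i+1 < l`: `ζ` has the same last nonzero index and the same κ; `star_swap` (first part), induction hypothesis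
for `star l η` at position `i+1` (Δ is the same by `yv_star`), apply `Psi N l κ` (linear) and
`s_i Ψ = Ψ s_{i+1}` (`swap_ee_lt` for every `e_j`, `j ≥ l`).
(b) `i+1 = l`: `F_η = Ψ_B Ψ_A F_{η**}`, `F_ζ = Ψ_A Ψ_B F_{s_0 η**}` (`kap_pair`, `star_swap` second part, `Fp_step`
twice), `Psi_exchange` for `f = F_{s_0 η**}` (in `SymOn (l+1) N` by `Fp_sym`), induction hypothesis for `η**` at
position 0: `(Δ+1) F_{η**} = Δ s_0 F_{s_0 η**} + F_{s_0 η**}`.
(c) `i = l` (`η_{l+1} = 0`): `ζ` has last nonzero index `l+1`, `star (l+1) ζ = star l η` (`star_swap` third part), the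
same κ = A, `f = F_{η*}`, `Δ = A + l + 1`, `F_η = Δ e_l f + e_{l+1} f + S`, `F_ζ = (Δ+1) e_{l+1} f + S`,
`S = Σ_{k>l+1} e_k f`; `s_l e_{l+1} f = e_l f`, `s_l e_k f = e_k f` (`k > l+1`). Both sides agree.
(d) `i > l` impossible. -/
theorem Fp_exchange (N i : ℕ) (hi : i + 1 < N) (η : ℕ →₀ ℕ) (hη : ∀ k, N ≤ k → η k = 0) (h : η (i + 1) < η i) :
    ((yv N η i : K) - yv N η (i + 1) + 1) • (Fp N η : MvPolynomial ℕ K)
      = ((yv N η i : K) - yv N η (i + 1)) •
          rename (Equiv.swap i (i + 1)) (Fp N (Finsupp.equivMapDomain (Equiv.swap i (i + 1)) η))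
        + Fp N (Finsupp.equivMapDomain (Equiv.swap i (i + 1)) η) := by
  have hmain : ∀ (n i : ℕ) (_ : i + 1 < N) (η : ℕ →₀ ℕ) (_ : ∀ k, N ≤ k → η k = 0) (_ : η (i + 1) < η i)
      (_ : η.sum (fun _ n => n) = n),
      ((yv N η i : K) - yv N η (i + 1) + 1) • (Fp N η : MvPolynomial ℕ K)
      = ((yv N η i : K) - yv N η (i + 1)) •
          rename (Equiv.swap i (i + 1)) (Fp N (Finsupp.equivMapDomain (Equiv.swap i (i + 1)) η))
        + Fp N (Finsupp.equivMapDomain (Equiv.swap i (i + 1)) η) := by
    intro n
    induction n using Nat.strong_induction_on with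
    | _ n ih =>
      intro i hi η hη h hn
      have hne : η ≠ 0 := by
        intro h'
        rw [h'] at h
        exact absurd h (by simp)
      obtain ⟨l, hl⟩ : ∃ l, l = lastNZ η := ⟨_, rfl⟩
      obtain ⟨h1, h0⟩ := lastNZ_spec η hne
      rw [← hl] at h1 h0
      have hlN : l < N := by
        by_contra hc
        exact h1 (hη l (by omega))
      have hil : i ≤ l := by
        by_contra hc
        have := h0 i (by omega)
        omega
      have hap : ∀ (a b : ℕ) (ζ : ℕ →₀ ℕ) (j : ℕ),
          (Finsupp.equivMapDomain (Equiv.swap a b) ζ) j = ζ (Equiv.swap a b j) := by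
        intro a b ζ j
        rw [Finsupp.equivMapDomain_apply, Equiv.symm_swap]
      have hss := star_sum l η h1 h0
      have hstarN : ∀ k, l < k → star l η k = 0 := by
        intro k hk
        rw [star_apply, if_neg (by omega), if_neg (by omega)]
      obtain ⟨q1, q2, q3, q4, q5⟩ := yv_star (K := K) N l hlN η h1 h0
      rcases Nat.lt_trichotomy (i + 1) l with hc | hc | hc
      · -- case (a)
        have hz1 : (Finsupp.equivMapDomain (Equiv.swap i (i + 1)) η) l ≠ 0 := by
          rw [hap, Equiv.swap_apply_of_ne_of_ne (by omega) (by omega)]; exact h1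
        have hz0 : ∀ k, l < k → (Finsupp.equivMapDomain (Equiv.swap i (i + 1)) η) k = 0 := by
          intro k hk
          rw [hap, Equiv.swap_apply_of_ne_of_ne (by omega) (by omega)]; exact h0 k hk
        rw [Fp_step N l η h1 h0, Fp_step N l _ hz1 hz0, Fp_exchange_kap_swap i l hc η,
          (star_swap i l η).1 hc, Fp_exchange_Psi_rename N l i hc, ← map_smul, ← map_smul, ← map_add]
        congr 1
        have hs1 : star l η (i + 1) = η i := by
          rw [star_apply, if_neg (by omega), if_pos (by omega)]; rfl
        have hs2 : star l η (i + 1 + 1) = η (i + 1) := by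
          rw [star_apply, if_neg (by omega), if_pos (by omega)]; rfl
        have := ih ((star l η).sum (fun _ n => n)) (by omega) (i + 1) (by omega) (star l η)
          (fun k hk => hstarN k (by omega)) (by rw [hs1, hs2]; exact h) rfl
        rw [q1 i (by omega), q1 (i + 1) hc] at this
        exact this
      · -- case (b)
        have hl1 : 1 ≤ l := by omega
        have hi' : i = l - 1 := by omega
        have hll : l - 1 + 1 = l := by omega
        rw [hi'] at h ⊢
        rw [hll] at h ⊢
        obtain ⟨k1, k2, k3, k4, k5⟩ := kap_pair (K := K) N l hl1 hlN η h h1 h0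
        have hzl : ∀ k, l < k → (Finsupp.equivMapDomain (Equiv.swap (l - 1) l) η) k = 0 := by
          intro k hk
          rw [hap, Equiv.swap_apply_of_ne_of_ne (by omega) (by omega)]; exact h0 k hk
        have hz1 : (Finsupp.equivMapDomain (Equiv.swap (l - 1) l) η) l ≠ 0 := by
          rw [hap, Equiv.swap_apply_right]; omega
        have hsl : star l η l = η (l - 1) := by
          rw [star_apply, if_neg (by omega), if_pos le_rfl]
        have hsl1 : star l η l ≠ 0 := by rw [hsl]; omega
        have hszl : star l (Finsupp.equivMapDomain (Equiv.swap (l - 1) l) η) l = η l := by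
          rw [star_apply, if_neg (by omega), if_pos le_rfl, hap, Equiv.swap_apply_left]
        have hszl1 : star l (Finsupp.equivMapDomain (Equiv.swap (l - 1) l) η) l ≠ 0 := by
          rw [hszl]; exact h1
        have hstarzN : ∀ k, l < k → star l (Finsupp.equivMapDomain (Equiv.swap (l - 1) l) η) k = 0 := by
          intro k hk
          rw [star_apply, if_neg (by omega), if_neg (by omega)]
        have hss0 : ∀ k, l < k → star l (star l η) k = 0 := by
          intro k hk
          rw [star_apply, if_neg (by omega), if_neg (by omega)]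
        rw [Fp_step N l η h1 h0, Fp_step N l (star l η) hsl1 hstarN, Fp_step N l _ hz1 hzl,
          Fp_step N l _ hszl1 hstarzN, k1, k2, k3, k4, (star_swap i l η).2.1 hl1]
        have hsum2 := star_sum l (star l η) hsl1 hstarN
        have e0 : star l (star l η) 0 = η (l - 1) - 1 := by
          rw [star_apply, if_pos rfl, hsl]
        have e1 : star l (star l η) (0 + 1) = η l - 1 := by
          rw [star_apply, if_neg (by omega), if_pos (by omega)]
          show star l η 0 = _
          rw [star_apply, if_pos rfl]
        have hih := ih ((star l (star l η)).sum (fun _ n => n)) (by omega) 0 (by omega) (star l (star l η))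
          (fun k hk => hss0 k (by omega)) (by rw [e0, e1]; omega) rfl
        have k5' : (yv N (star l (star l η)) 0 : K) - yv N (star l (star l η)) (0 + 1)
            = yv N η (l - 1) - yv N η l := k5
        rw [k5'] at hih
        have hih' : ((yv N η (l - 1) : K) - yv N η l + 1) • (Fp N (star l (star l η)) : MvPolynomial ℕ K)
            = ((yv N η (l - 1) : K) - yv N η l) • rename (Equiv.swap 0 1)
              (Fp N (Finsupp.equivMapDomain (Equiv.swap 0 1) (star l (star l η))))
              + Fp N (Finsupp.equivMapDomain (Equiv.swap 0 1) (star l (star l η))) := hih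
        have hsym : SymOn (l + 1) N
            (Fp N (Finsupp.equivMapDomain (Equiv.swap 0 1) (star l (star l η))) : MvPolynomial ℕ K) := by
          apply Fp_sym
          intro k hk
          rw [hap, Equiv.swap_apply_of_ne_of_ne (by omega) (by omega)]
          exact hss0 k hk
        have hPE := Psi_exchange N l hl1 hlN (yv N η (l - 1) : K) (yv N η l) _ hsym
        rw [← hih'] at hPE
        rw [map_smul, map_smul] at hPE
        exact hPE.symm
      · -- case (c)
        have hli : i = l := by omega
        rw [hli] at h hi ⊢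
        have hz : η (l + 1) = 0 := h0 (l + 1) (by omega)
        have hz1 : (Finsupp.equivMapDomain (Equiv.swap l (l + 1)) η) (l + 1) ≠ 0 := by
          rw [hap, Equiv.swap_apply_right]; exact h1
        have hz0 : ∀ k, l + 1 < k → (Finsupp.equivMapDomain (Equiv.swap l (l + 1)) η) k = 0 := by
          intro k hk
          rw [hap, Equiv.swap_apply_of_ne_of_ne (by omega) (by omega)]; exact h0 k (by omega)
        rw [Fp_step N l η h1 h0, Fp_step N (l + 1) _ hz1 hz0, Fp_exchange_kap_succ l η h1 hz,
          (star_swap i l η).2.2 h0, q3, q4 (l + 1) (by omega) hi]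
        have hsym : SymOn (l + 1) N (Fp N (star l η) : MvPolynomial ℕ K) := Fp_sym N l (star l η) hstarN
        obtain ⟨f, hf⟩ : ∃ f, f = (Fp N (star l η) : MvPolynomial ℕ K) := ⟨_, rfl⟩
        rw [← hf] at hsym ⊢
        have hIoo : Ioo l N = insert (l + 1) (Ioo (l + 1) N) := by
          ext k
          rw [Finset.mem_insert, Finset.mem_Ioo, Finset.mem_Ioo]
          omega
        have hnot : (l + 1) ∉ Ioo (l + 1) N := by
          rw [Finset.mem_Ioo]; omega
        rw [Psi_apply, Psi_apply, hIoo, Finset.sum_insert hnot]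
        have hS : rename (Equiv.swap l (l + 1)) (∑ k ∈ Ioo (l + 1) N, ee k f) = ∑ k ∈ Ioo (l + 1) N, ee k f := by
          rw [map_sum]
          apply Finset.sum_congr rfl
          intro k hk
          rw [Finset.mem_Ioo] at hk
          rw [swap_ee_lt l k hk.1]
          congr 1
          apply hsym
          intro m hm
          rw [Equiv.swap_apply_of_ne_of_ne (by omega) (by omega)]
        have hE : rename (Equiv.swap l (l + 1)) (ee (l + 1) f) = ee l f := by
          rw [← swap_ee_succ, rename_rename]
          have : (Equiv.swap l (l + 1) : ℕ → ℕ) ∘ (Equiv.swap l (l + 1) : ℕ → ℕ) = id := by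
            funext x
            exact Equiv.swap_apply_self _ _ _
          rw [this, rename_id]
          rfl
        rw [map_add, map_smul, hS, hE]
        obtain ⟨S, hSS⟩ : ∃ S, S = ∑ k ∈ Ioo (l + 1) N, ee k f := ⟨_, rfl⟩
        rw [← hSS]
        simp only [smul_add, smul_smul, Nat.cast_add, Nat.cast_one, add_smul, sub_smul, neg_smul, one_smul,
          sub_neg_eq_add, add_mul, mul_add, sub_mul, mul_sub, neg_mul, mul_neg, one_mul, mul_one]
        module
  exact hmain _ i hi η hη h rfl

end JSup
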