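import Pool.Agent.Helper204.JS.Defs
import Pool.Agent.Helper204.JS.Defs1
import Pool.Agent.Helper204.JS.P_yv_star
import Pool.Agent.Helper204.JS.P_Yop_Fp

set_option linter.unusedSectionVars false

open MvPolynomial Finset

noncomputable section

namespace JSup
variable {K : Type} [Field K] [CharZero K] [Par K]



/-- HINT: `Fp_step`, `Psi_apply`, `Phat_apply`, `Yop_Fp` for `star l η` at `i = 0`, `yv_star` (`y_0(η*) + α = κ`). -/
theorem Fp_hat (N l : ℕ) (hl : l < N) (η : ℕ →₀ ℕ) (h1 : η l ≠ 0) (h0 : ∀ k, l < k → η k = 0) :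
    (Fp N η : MvPolynomial ℕ K) = Phat N l (Fp N (star l η)) := by
  have hstar : ∀ k, N ≤ k → star l η k = 0 := by
    intro k hk
    rw [star_apply, if_neg (by omega), if_neg (by omega)]
  obtain ⟨_, e, _⟩ := yv_star (K := K) N l hl η h1 h0
  rw [Fp_step N l η h1 h0, Psi_apply, Phat_apply, Yop_Fp N (star l η) hstar 0 (by omega),
    ← add_smul, map_smul, ← e]
  congr 2
  ring

end JSup
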