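import Pool.Agent.Helper204.JS.Defs
import Pool.Agent.Helper204.JS.Defs1

set_option linter.unusedSectionVars false

open MvPolynomial Finset

noncomputable section

namespace JSup
variable {K : Type} [Field K] [CharZero K] [Par K]



theorem starIter_apply (l t : ℕ) (ht : t ≤ l + 1) (η : ℕ →₀ ℕ) (h0 : ∀ k, l < k → η k = 0) (k : ℕ) :
    ((star l)^[t] η) k = if k < t then η (l + 1 - t + k) - 1 else if k ≤ l then η (k - t) else 0 := by
  induction t generalizing k with
  | zero =>
    rw [Function.iterate_zero, id_eq, if_neg (Nat.not_lt_zero k), Nat.sub_zero]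
    by_cases hk : k ≤ l
    · rw [if_pos hk]
    · rw [if_neg hk]
      exact h0 k (by omega)
  | succ t ih =>
    have ih' := ih (by omega)
    rw [Function.iterate_succ_apply', star_apply]
    by_cases hk0 : k = 0
    · subst hk0
      rw [if_pos rfl, if_pos (Nat.succ_pos t), ih' l, if_neg (by omega), if_pos le_rfl]
      congr 2
      omega
    · rw [if_neg hk0]
      by_cases hkl : k ≤ l
      · rw [if_pos hkl, ih' (k - 1)]
        by_cases hkt : k < t + 1
        · rw [if_pos hkt, if_pos (by omega)]
          congr 2
          omega
        · rw [if_neg hkt, if_neg (by omega), if_pos (by omega), if_pos hkl]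
          congr 1
          omega
      · rw [if_neg hkl, if_neg (by omega), if_neg hkl]

end JSup
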