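import Pool.Agent.Helper204.JS.Defs
import Pool.Agent.Helper204.JS.Defs1
import Pool.Agent.Helper204.JS.P_starIter_apply
import Pool.Agent.Helper204.JS.P_Fp_hat

set_option linter.unusedSectionVars false

open MvPolynomial Finset

noncomputable section

namespace JSup
variable {K : Type} [Field K] [CharZero K] [Par K]



theorem Fp_hat_iter (N a m l : ℕ) (h : a + m = l + 1) (hl : l < N) (η : ℕ →₀ ℕ)
    (h0 : ∀ k, l < k → η k = 0) (hpos : ∀ k, a ≤ k → k ≤ l → η k ≠ 0) :
    (Fp N η : MvPolynomial ℕ K) = ((Phat N l : Module.End K (MvPolynomial ℕ K)) ^ m) (Fp N ((star l)^[m] η)) := by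
  have key : ∀ t : ℕ, t ≤ m → (Fp N η : MvPolynomial ℕ K) =
      ((Phat N l : Module.End K (MvPolynomial ℕ K)) ^ t) (Fp N ((star l)^[t] η)) := by
    intro t
    induction t with
    | zero =>
      intro _
      simp
    | succ t ih =>
      intro ht
      rw [ih (by omega)]
      have h1 : ((star l)^[t] η) l ≠ 0 := by
        rw [starIter_apply l t (by omega) η h0 l]
        have e1 : ¬ l < t := by omega
        rw [if_neg e1, if_pos le_rfl]
        exact hpos _ (by omega) (by omega)
      have h2 : ∀ k, l < k → ((star l)^[t] η) k = 0 := by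
        intro k hk
        rw [starIter_apply l t (by omega) η h0 k]
        have e1 : ¬ k < t := by omega
        have e2 : ¬ k ≤ l := by omega
        rw [if_neg e1, if_neg e2]
      rw [Fp_hat N l hl _ h1 h2, Function.iterate_succ_apply', pow_succ]
      rfl
  exact key m le_rfl

end JSup
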