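import Pool.Agent.Helper204.JS.Stmt
import Pool.Agent.Helper204.JS.Defs
import Pool.Agent.Helper204.JS.Defs1
import Pool.Agent.Helper204.JS.Defs2
import Pool.Agent.Helper204.JS.Defs3

set_option linter.unusedSectionVars false

open MvPolynomial Finset

noncomputable section

namespace JSup
variable {K : Type} [Field K] [CharZero K] [Par K]



theorem psum_swap (N i j k : ℕ) (hiN : i < N) (hjN : j < N) :
    rename (Equiv.swap i j) (∑ l ∈ range N, (X l : MvPolynomial ℕ K) ^ k) = ∑ l ∈ range N, X l ^ k := by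
  rw [map_sum]
  refine Finset.sum_equiv (Equiv.swap i j) ?_ ?_
  · intro l
    rw [mem_range, mem_range]
    by_cases h1 : l = i
    · rw [h1, Equiv.swap_apply_left]
      exact ⟨fun _ => hjN, fun _ => hiN⟩
    · by_cases h2 : l = j
      · rw [h2, Equiv.swap_apply_right]
        exact ⟨fun _ => hiN, fun _ => hjN⟩
      · rw [Equiv.swap_apply_of_ne_of_ne h1 h2]
  · intro l _
    rw [map_pow, rename_X]

theorem ev_inl (N k : ℕ) : ev N (X (Sum.inl k) : MvPolynomial (ℕ ⊕ ℕ) K) = X k := by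
  unfold ev
  rw [aeval_X]
  rfl

theorem ev_inr (N k : ℕ) : ev N (X (Sum.inr k) : MvPolynomial (ℕ ⊕ ℕ) K) = ∑ l ∈ range N, X l ^ k := by
  unfold ev
  rw [aeval_X]
  rfl

theorem adm_vars {m n : ℕ} {G : MvPolynomial (ℕ ⊕ ℕ) K} (hG : AdmP m n G) (j : ℕ) (hj : m ≤ j) :
    Sum.inl j ∉ G.vars := by
  intro h
  obtain ⟨d, hd, hdj⟩ := (mem_vars_iff_mem_support _).1 h
  exact (Finsupp.mem_support_iff.1 hdj) ((hG d hd).1 j hj)

theorem ev_rename_swap (N i j : ℕ) (hiN : i < N) (hjN : j < N) (G : MvPolynomial (ℕ ⊕ ℕ) K) :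
    rename (Equiv.swap i j) (ev N G) = ev N (rename (tperm (Equiv.swap i j)) G) := by
  have h : (rename (Equiv.swap i j) : MvPolynomial ℕ K →ₐ[K] MvPolynomial ℕ K).comp (ev N)
      = (ev N).comp (rename (tperm (Equiv.swap i j)) :
        MvPolynomial (ℕ ⊕ ℕ) K →ₐ[K] MvPolynomial (ℕ ⊕ ℕ) K) := by
    apply MvPolynomial.algHom_ext
    intro v
    rw [AlgHom.comp_apply, AlgHom.comp_apply, rename_X]
    cases v with
    | inl k =>
      have e1 : tperm (Equiv.swap i j) (Sum.inl k) = Sum.inl (Equiv.swap i j k) := rfl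
      rw [e1, ev_inl, ev_inl, rename_X]
    | inr k =>
      have e1 : tperm (Equiv.swap i j) (Sum.inr k) = Sum.inr k := rfl
      rw [e1, ev_inr, psum_swap N i j k hiN hjN]
  exact congrArg (fun f : MvPolynomial (ℕ ⊕ ℕ) K →ₐ[K] MvPolynomial ℕ K => f G) h

theorem emb_swap (m i j : ℕ) (hi : i < m) (hj : j < m) :
    emb 0 m (Equiv.swap ⟨i, hi⟩ ⟨j, hj⟩) = Equiv.swap i j := by
  ext k
  by_cases hk : k < m
  · have h1 := emb_in 0 m (Equiv.swap ⟨i, hi⟩ ⟨j, hj⟩) ⟨k, hk⟩
    simp only [Nat.zero_add] at h1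
    rw [h1]
    by_cases h2 : k = i
    · subst h2
      rw [Equiv.swap_apply_left, Equiv.swap_apply_left]
    · by_cases h3 : k = j
      · subst h3
        rw [Equiv.swap_apply_right, Equiv.swap_apply_right]
      · rw [Equiv.swap_apply_of_ne_of_ne h2 h3, Equiv.swap_apply_of_ne_of_ne]
        · intro h
          exact h2 (Fin.mk.inj_iff.1 h)
        · intro h
          exact h3 (Fin.mk.inj_iff.1 h)
  · rw [emb_out 0 m _ k (Or.inr (by omega)), Equiv.swap_apply_of_ne_of_ne (by omega) (by omega)]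

theorem alt_swap {m i j : ℕ} (hij : i ≠ j) (hi : i < m) (hj : j < m) {G : MvPolynomial (ℕ ⊕ ℕ) K}
    (hG : AltT m G) : rename (tperm (Equiv.swap i j)) G = -G := by
  have h := hG (Equiv.swap ⟨i, hi⟩ ⟨j, hj⟩)
  rw [emb_swap m i j hi hj, Equiv.Perm.sign_swap (fun h => hij (Fin.mk.inj_iff.1 h))] at h
  rw [h]
  simp

/-- HINT: `swap i j (ev N G) = ev N (rename (tperm (swap i j)) G)` (power sums are symmetric, `i j < N`). If `t_j` does not
occur in `G` (`j ≥ m`) then substituting `t_i := t_j` is the renaming. If `G` is alternating and `i ≠ j < m` then the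
substitution `s` satisfies `s (rename swap G) = s G`, and `rename swap G = -G`, so `s G = 0`. -/
theorem subst_cases (N m n i j : ℕ) (hiN : i < N) (hjN : j < N) (hij : i ≠ j) (G : MvPolynomial (ℕ ⊕ ℕ) K)
    (hG : AdmP m n G) :
    (m ≤ j → ev N (aeval (fun v => if v = Sum.inl i then X (Sum.inl j) else X v) G)
      = rename (Equiv.swap i j) (ev N G)) ∧
    (i < m → j < m → AltT m G →
      aeval (fun v => if v = Sum.inl i then X (Sum.inl j) else X v) G = (0 : MvPolynomial (ℕ ⊕ ℕ) K)) ∧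
    (i < m → j < m → AltT m G → rename (Equiv.swap i j) (ev N G) = - ev N G) ∧
    (m ≤ i → m ≤ j → rename (Equiv.swap i j) (ev N G) = ev N G) := by
  refine ⟨?_, ?_, ?_, ?_⟩
  · intro hj
    have hvar := adm_vars hG j hj
    have key := MvPolynomial.hom_congr_vars (p₁ := G) (p₂ := G)
      (f₁ := (((ev N).comp (aeval (fun v : ℕ ⊕ ℕ => if v = Sum.inl i then
        (X (Sum.inl j) : MvPolynomial (ℕ ⊕ ℕ) K) else X v)) :
          MvPolynomial (ℕ ⊕ ℕ) K →ₐ[K] MvPolynomial ℕ K) : MvPolynomial (ℕ ⊕ ℕ) K →+* MvPolynomial ℕ K))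
      (f₂ := (((rename (Equiv.swap i j) : MvPolynomial ℕ K →ₐ[K] MvPolynomial ℕ K).comp (ev N) :
          MvPolynomial (ℕ ⊕ ℕ) K →ₐ[K] MvPolynomial ℕ K) : MvPolynomial (ℕ ⊕ ℕ) K →+* MvPolynomial ℕ K))
      ?_ ?_ rfl
    · exact key
    · ext a
      simp
    · intro v hv _
      show ev N (aeval (fun v : ℕ ⊕ ℕ => if v = Sum.inl i then
        (X (Sum.inl j) : MvPolynomial (ℕ ⊕ ℕ) K) else X v) (X v)) = rename (Equiv.swap i j) (ev N (X v))
      rw [aeval_X]
      cases v with
      | inl k =>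
        by_cases hk : k = i
        · rw [hk, if_pos rfl, ev_inl, ev_inl, rename_X, Equiv.swap_apply_left]
        · have hkj : k ≠ j := by
            rintro rfl
            exact hvar hv
          rw [if_neg (fun h => hk (Sum.inl.inj h)), ev_inl, rename_X,
            Equiv.swap_apply_of_ne_of_ne hk hkj]
      | inr k =>
        rw [if_neg (by simp), ev_inr, psum_swap N i j k hiN hjN]
  · intro hi hj hA
    have h1 := alt_swap hij hi hj hA
    have h2 : aeval (fun v : ℕ ⊕ ℕ => if v = Sum.inl i then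
        (X (Sum.inl j) : MvPolynomial (ℕ ⊕ ℕ) K) else X v) (rename (tperm (Equiv.swap i j)) G)
        = aeval (fun v : ℕ ⊕ ℕ => if v = Sum.inl i then
        (X (Sum.inl j) : MvPolynomial (ℕ ⊕ ℕ) K) else X v) G := by
      have h : (aeval (fun v : ℕ ⊕ ℕ => if v = Sum.inl i then
          (X (Sum.inl j) : MvPolynomial (ℕ ⊕ ℕ) K) else X v)).comp
          (rename (tperm (Equiv.swap i j)) : MvPolynomial (ℕ ⊕ ℕ) K →ₐ[K] MvPolynomial (ℕ ⊕ ℕ) K)
          = aeval (fun v : ℕ ⊕ ℕ => if v = Sum.inl i then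
          (X (Sum.inl j) : MvPolynomial (ℕ ⊕ ℕ) K) else X v) := by
        apply MvPolynomial.algHom_ext
        intro v
        rw [AlgHom.comp_apply, rename_X, aeval_X, aeval_X]
        cases v with
        | inl k =>
          have e1 : tperm (Equiv.swap i j) (Sum.inl k) = Sum.inl (Equiv.swap i j k) := rfl
          rw [e1]
          by_cases hk : k = i
          · rw [hk, Equiv.swap_apply_left, if_neg (fun h => hij (Sum.inl.inj h).symm), if_pos rfl]
          · by_cases hkj : k = j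
            · rw [hkj, Equiv.swap_apply_right, if_pos rfl, if_neg (fun h => hij (Sum.inl.inj h).symm)]
            · rw [Equiv.swap_apply_of_ne_of_ne hk hkj]
        | inr k =>
          have e1 : tperm (Equiv.swap i j) (Sum.inr k) = Sum.inr k := rfl
          rw [e1]
      exact congrArg (fun f : MvPolynomial (ℕ ⊕ ℕ) K →ₐ[K] MvPolynomial (ℕ ⊕ ℕ) K => f G) h
    rw [h1, map_neg] at h2
    have h3 : (2 : MvPolynomial (ℕ ⊕ ℕ) K) * aeval (fun v : ℕ ⊕ ℕ => if v = Sum.inl i then
        (X (Sum.inl j) : MvPolynomial (ℕ ⊕ ℕ) K) else X v) G = 0 := by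
      linear_combination -h2
    rcases mul_eq_zero.1 h3 with h4 | h4
    · exact absurd h4 two_ne_zero
    · exact h4
  · intro hi hj hA
    rw [ev_rename_swap N i j hiN hjN, alt_swap hij hi hj hA, map_neg]
  · intro hi hj
    have hvi := adm_vars hG i hi
    have hvj := adm_vars hG j hj
    have key := MvPolynomial.hom_congr_vars (p₁ := G) (p₂ := G)
      (f₁ := (((rename (Equiv.swap i j) : MvPolynomial ℕ K →ₐ[K] MvPolynomial ℕ K).comp (ev N) :
          MvPolynomial (ℕ ⊕ ℕ) K →ₐ[K] MvPolynomial ℕ K) : MvPolynomial (ℕ ⊕ ℕ) K →+* MvPolynomial ℕ K))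
      (f₂ := ((ev N : MvPolynomial (ℕ ⊕ ℕ) K →ₐ[K] MvPolynomial ℕ K) :
          MvPolynomial (ℕ ⊕ ℕ) K →+* MvPolynomial ℕ K))
      ?_ ?_ rfl
    · exact key
    · ext a
      simp
    · intro v hv _
      show rename (Equiv.swap i j) (ev N (X v)) = ev N (X v)
      cases v with
      | inl k =>
        have hki : k ≠ i := by
          rintro rfl
          exact hvi hv
        have hkj : k ≠ j := by
          rintro rfl
          exact hvj hv
        rw [ev_inl, rename_X, Equiv.swap_apply_of_ne_of_ne hki hkj]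
      | inr k =>
        rw [ev_inr, psum_swap N i j k hiN hjN]

end JSup
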