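import Pool.Agent.Helper204.JS.Stmt
import Pool.Agent.Helper204.JS.Defs
import Pool.Agent.Helper204.JS.Defs1
import Pool.Agent.Helper204.JS.Defs2
import Pool.Agent.Helper204.JS.Defs3

set_option linter.unusedSectionVars false

open MvPolynomial Finset

noncomputable section

namespace JSup
variable {K : Type} [Field K] [CharZero K] [Par K]



theorem sd_S {R : Type} [CommRing R] (x y : R) (s : ℕ) :
    (x - y) * ∑ c ∈ Icc 1 s, y ^ c * x ^ (s - c) = y * (x ^ s - y ^ s) := by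
  induction s with
  | zero => simp
  | succ s ih =>
    have e : ∑ c ∈ Icc 1 (s + 1), y ^ c * x ^ (s + 1 - c) = x * ∑ c ∈ Icc 1 s, y ^ c * x ^ (s - c) + y ^ (s + 1) := by
      rw [Finset.sum_Icc_succ_top (by omega), Finset.mul_sum]
      congr 1
      · apply Finset.sum_congr rfl
        intro c hc
        have hc2 := (Finset.mem_Icc.mp hc).2
        rw [show s + 1 - c = (s - c) + 1 by omega, pow_succ]; ring
      · simp
    rw [e, mul_add, mul_left_comm, ih]; ring

theorem sd_T {R : Type} [CommRing R] (x y : R) (s : ℕ) :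
    (x - y) ^ 2 * ∑ c ∈ Icc 1 s, y ^ c * (((s - c : ℕ) : R) * x ^ (s - c))
      = (s : R) * x ^ s * y * (x - y) - x * y * (x ^ s - y ^ s) := by
  induction s with
  | zero => simp
  | succ s ih =>
    have e : ∑ c ∈ Icc 1 (s + 1), y ^ c * (((s + 1 - c : ℕ) : R) * x ^ (s + 1 - c))
        = x * ∑ c ∈ Icc 1 s, y ^ c * (((s - c : ℕ) : R) * x ^ (s - c)) + x * ∑ c ∈ Icc 1 s, y ^ c * x ^ (s - c) := by
      rw [Finset.sum_Icc_succ_top (by omega), Finset.mul_sum, Finset.mul_sum, ← Finset.sum_add_distrib]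
      have e0 : y ^ (s + 1) * (((s + 1 - (s + 1) : ℕ) : R) * x ^ (s + 1 - (s + 1))) = 0 := by simp
      rw [e0, add_zero]
      apply Finset.sum_congr rfl
      intro c hc
      have hc2 := (Finset.mem_Icc.mp hc).2
      rw [show s + 1 - c = (s - c) + 1 by omega, pow_succ]; push_cast; ring
    have h1 := sd_S x y s
    rw [e]
    calc (x - y) ^ 2 * (x * ∑ c ∈ Icc 1 s, y ^ c * (((s - c : ℕ) : R) * x ^ (s - c)) + x * ∑ c ∈ Icc 1 s, y ^ c * x ^ (s - c))
        = x * ((x - y) ^ 2 * ∑ c ∈ Icc 1 s, y ^ c * (((s - c : ℕ) : R) * x ^ (s - c)))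
          + x * (x - y) * ((x - y) * ∑ c ∈ Icc 1 s, y ^ c * x ^ (s - c)) := by ring
      _ = _ := by rw [ih, h1]; push_cast; ring

theorem sd_tht (i k : ℕ) (Q : MvPolynomial (ℕ ⊕ ℕ) K) (hQ : pderiv (Sum.inl i) Q = 0) :
    tht i (X (Sum.inl i) ^ k * Q) = (k : MvPolynomial (ℕ ⊕ ℕ) K) * (X (Sum.inl i) ^ k * Q) := by
  rw [tht_apply, Derivation.leibniz, hQ, Derivation.leibniz_pow, pderiv_X_self]
  rcases k with _ | k
  · simp
  · simp only [smul_eq_mul, nsmul_eq_mul, mul_zero, zero_add, Nat.add_sub_cancel, mul_one]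
    rw [pow_succ]; ring

theorem sd_ev (N i k : ℕ) (Q : MvPolynomial (ℕ ⊕ ℕ) K) :
    ev N (X (Sum.inl i) ^ k * Q) = X i ^ k * ev N Q := by
  simp [ev]

theorem sd_mono (i : ℕ) (d : (ℕ ⊕ ℕ) →₀ ℕ) (a : K) (k : ℕ) :
    (monomial (Finsupp.single (Sum.inl i) k + d.erase (Sum.inl i)) a : MvPolynomial (ℕ ⊕ ℕ) K)
      = X (Sum.inl i) ^ k * monomial (d.erase (Sum.inl i)) a := by
  rw [X_pow_eq_monomial, monomial_mul, one_mul]

theorem sd_tau (i c : ℕ) (d : (ℕ ⊕ ℕ) →₀ ℕ) (a : K) :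
    tau i c (monomial d a) = if c ≤ d (Sum.inl i) then
      X (Sum.inl i) ^ (d (Sum.inl i) - c) * monomial (d.erase (Sum.inl i)) a else 0 := by
  rw [tau_monomial]
  split_ifs with h
  · rw [← sd_mono]
    congr 2
    ext v
    by_cases hv : v = Sum.inl i
    · subst hv; simp
    · simp [Finsupp.erase_ne hv, Finsupp.single_eq_of_ne hv]
  · rfl

theorem sd_sub (i j k : ℕ) (d : (ℕ ⊕ ℕ) →₀ ℕ) (a : K) :
    aeval (fun v => if v = Sum.inl i then X (Sum.inl j) else X v)
      (X (Sum.inl i) ^ k * monomial (d.erase (Sum.inl i)) a : MvPolynomial (ℕ ⊕ ℕ) K)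
      = (X (Sum.inl j) ^ k * monomial (d.erase (Sum.inl i)) a : MvPolynomial (ℕ ⊕ ℕ) K) := by
  rw [map_mul, map_pow, aeval_X, if_pos rfl]
  congr 1
  rw [aeval_monomial, monomial_eq (s := d.erase (Sum.inl i))]
  congr 1
  apply Finsupp.prod_congr
  intro v hv
  have : v ≠ Sum.inl i := by
    rintro rfl
    simp at hv
  rw [if_neg this]

theorem sd_sum {R : Type} [CommRing R] (n s : ℕ) (hs : s ≤ n) (f : ℕ → R) :
    ∑ c ∈ Icc 1 n, (if c ≤ s then f c else 0) = ∑ c ∈ Icc 1 s, f c := by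
  rw [← Finset.sum_filter]
  congr 1
  ext c
  simp only [Finset.mem_filter, Finset.mem_Icc]
  omega

/-- HINT: on monomials: `G = t_i^a h`, `h` free of `t_i`. First: `(x - y) Σ_{c=1}^{a} x^{a-c} y^c = y (x^a - y^a)`. Second:
`(x-y)² [a x^a + 2 Σ_{c=1}^{a-1} (a-c) x^{a-c} y^c] = (x² - y²) a x^a - 2 x y (x^a - y^a)`
(`x = x_i`, `y = x_j`). The exponent of `t_i` is at most `n`; terms with `c ≥ a` in the second sum vanish. -/
theorem subst_def (N m n i j : ℕ) (hij : i ≠ j) (G : MvPolynomial (ℕ ⊕ ℕ) K) (hG : AdmP m n G) :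
    (X i - X j) * (∑ c ∈ Icc 1 n, X j ^ c * ev N (tau i c G))
      = X j * (ev N G - ev N (aeval (fun v => if v = Sum.inl i then X (Sum.inl j) else X v) G)) ∧
    (X i - X j) ^ 2 * (ev N (tht i G) + 2 * ∑ c ∈ Icc 1 n, X j ^ c * ev N (tht i (tau i c G)))
      = (X i ^ 2 - X j ^ 2) * ev N (tht i G)
        - 2 * X i * X j *
          (ev N G - ev N (aeval (fun v => if v = Sum.inl i then X (Sum.inl j) else X v) G)) := by
  classical
  set sb : MvPolynomial (ℕ ⊕ ℕ) K →ₐ[K] MvPolynomial (ℕ ⊕ ℕ) K :=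
    aeval (fun v => if v = Sum.inl i then X (Sum.inl j) else X v) with hsb
  let P : MvPolynomial (ℕ ⊕ ℕ) K → Prop := fun G =>
    (X i - X j) * (∑ c ∈ Icc 1 n, X j ^ c * ev N (tau i c G)) = X j * (ev N G - ev N (sb G)) ∧
    (X i - X j) ^ 2 * (ev N (tht i G) + 2 * ∑ c ∈ Icc 1 n, X j ^ c * ev N (tht i (tau i c G)))
      = (X i ^ 2 - X j ^ 2) * ev N (tht i G) - 2 * X i * X j * (ev N G - ev N (sb G))
  have P0 : P 0 := by
    constructor
    · simp only [map_zero, mul_zero, Finset.sum_const_zero, sub_zero]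
    · simp only [map_zero, mul_zero, Finset.sum_const_zero, sub_zero, add_zero]
  have Padd : ∀ G1 G2, P G1 → P G2 → P (G1 + G2) := by
    rintro G1 G2 ⟨a1, a2⟩ ⟨b1, b2⟩
    constructor
    · simp only [map_add, mul_add, Finset.sum_add_distrib]
      rw [mul_add] at *
      linear_combination a1 + b1
    · simp only [map_add, mul_add, Finset.sum_add_distrib]
      linear_combination a2 + b2
  have key : ∀ d : (ℕ ⊕ ℕ) →₀ ℕ, d (Sum.inl i) ≤ n → ∀ a : K, P (monomial d a) := by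
    intro d hd a
    set s := d (Sum.inl i) with hs
    set Q : MvPolynomial (ℕ ⊕ ℕ) K := monomial (d.erase (Sum.inl i)) a with hQ
    have hQd : pderiv (Sum.inl i) Q = 0 := by
      rw [hQ, pderiv_monomial]; simp
    have hm : (monomial d a : MvPolynomial (ℕ ⊕ ℕ) K) = X (Sum.inl i) ^ s * Q := by
      rw [hQ, ← sd_mono, hs, Finsupp.single_add_erase]
    have htau : ∀ c, tau i c (monomial d a) = if c ≤ s then X (Sum.inl i) ^ (s - c) * Q else 0 :=
      fun c => sd_tau i c d a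
    have hsub : sb (monomial d a) = X (Sum.inl j) ^ s * Q := by
      rw [hm, hsb, hQ, sd_sub]
    have e1 : ∑ c ∈ Icc 1 n, (X j : MvPolynomial ℕ K) ^ c * ev N (tau i c (monomial d a))
        = (∑ c ∈ Icc 1 s, (X j : MvPolynomial ℕ K) ^ c * X i ^ (s - c)) * ev N Q := by
      rw [← sd_sum n s hd, Finset.sum_mul]
      apply Finset.sum_congr rfl
      intro c _
      rw [htau]
      split_ifs
      · rw [sd_ev]; ring
      · simp
    have e2 : ∑ c ∈ Icc 1 n, (X j : MvPolynomial ℕ K) ^ c * ev N (tht i (tau i c (monomial d a)))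
        = (∑ c ∈ Icc 1 s, (X j : MvPolynomial ℕ K) ^ c * (((s - c : ℕ) : MvPolynomial ℕ K) * X i ^ (s - c))) * ev N Q := by
      rw [← sd_sum n s hd, Finset.sum_mul]
      apply Finset.sum_congr rfl
      intro c _
      rw [htau]
      split_ifs
      · rw [sd_tht i _ Q hQd, map_mul, map_natCast, sd_ev]; ring
      · simp only [map_zero, mul_zero, zero_mul]
    have e3 : ev N (monomial d a) = X i ^ s * ev N Q := by rw [hm, sd_ev]
    have e4 : ev N (sb (monomial d a)) = X j ^ s * ev N Q := by rw [hsub, sd_ev]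
    have e5 : ev N (tht i (monomial d a)) = (s : MvPolynomial ℕ K) * X i ^ s * ev N Q := by
      rw [hm, sd_tht i _ Q hQd, map_mul, map_natCast, sd_ev]; ring
    have hS := sd_S (X i : MvPolynomial ℕ K) (X j) s
    have hT := sd_T (X i : MvPolynomial ℕ K) (X j) s
    refine ⟨?_, ?_⟩
    · rw [e1, e3, e4]
      linear_combination (ev N Q) * hS
    · rw [e2, e3, e4, e5]
      linear_combination 2 * (ev N Q) * hT
  have hfin : P G := by
    rw [← G.support_sum_monomial_coeff]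
    apply Finset.sum_induction _ P Padd P0
    intro d hd
    apply key
    have h3 := (hG d hd).2.2
    by_cases h0 : d (Sum.inl i) = 0
    · omega
    · rw [← h3, Finsupp.sum]
      exact Finset.single_le_sum (f := fun v => Sum.elim (fun _ => d v) (fun k => k * d v) v)
        (fun v _ => Nat.zero_le _) (Finsupp.mem_support_iff.mpr h0)
  exact hfin

end JSup
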