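import Pool.Agent.Helper204.JS.Stmt
import Pool.Agent.Helper204.JS.Defs
import Pool.Agent.Helper204.JS.Defs1
import Pool.Agent.Helper204.JS.Defs2
import Pool.Agent.Helper204.JS.Defs3
import Pool.Agent.Helper204.JS.P_subst_def
import Pool.Agent.Helper204.JS.P_subst_cases

set_option linter.unusedSectionVars false

open MvPolynomial Finset

noncomputable section

namespace JSup
variable {K : Type} [Field K] [CharZero K] [Par K]



/-- HINT: `dd_spec`, `subst_def`, `subst_cases`: cancel `x_i - x_j`. -/
theorem dd_ev (N m n i j : ℕ) (hi : i < m) (hj : m ≤ j) (hjN : j < N) (G : MvPolynomial (ℕ ⊕ ℕ) K)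
    (hG : AdmP m n G) :
    X j * dd i j (ev N G) = ∑ c ∈ Icc 1 n, X j ^ c * ev N (tau i c G) := by
  have hij : i ≠ j := by omega
  apply mul_left_cancel₀ (X_sub_ne (R := K) hij)
  have h1 := (subst_def N m n i j hij G hG).1
  have h2 := (subst_cases N m n i j (by omega) hjN hij G hG).1 hj
  rw [h1, h2, ← dd_spec]
  ring

end JSup
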