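import Pool.Agent.Helper204.JS.Stmt
import Pool.Agent.Helper204.JS.Defs
import Pool.Agent.Helper204.JS.Defs1
import Pool.Agent.Helper204.JS.Defs2
import Pool.Agent.Helper204.JS.Defs3

set_option linter.unusedSectionVars false

open MvPolynomial Finset

noncomputable section

namespace JSup
variable {K : Type} [Field K] [CharZero K] [Par K]



theorem del_ev_R_mul (i n : ℕ) (x y : MvPolynomial (ℕ ⊕ ℕ) K) :
    (tht i (x * y) + ∑ k ∈ Icc 1 n, (k : K) • mt i k (dp k (x * y)))
      = (tht i x + ∑ k ∈ Icc 1 n, (k : K) • mt i k (dp k x)) * y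
        + x * (tht i y + ∑ k ∈ Icc 1 n, (k : K) • mt i k (dp k y)) := by
  simp only [tht_apply, mt_apply, dp_apply]
  rw [add_mul, mul_add, Finset.sum_mul, Finset.mul_sum]
  have h1 : X (Sum.inl i) * (pderiv (Sum.inl i)) (x * y)
      = X (Sum.inl i) * (pderiv (Sum.inl i)) x * y + x * (X (Sum.inl i) * (pderiv (Sum.inl i)) y) := by
    rw [Derivation.leibniz]; simp only [smul_eq_mul]; ring
  have h2 : ∀ k : ℕ, (k : K) • (X (Sum.inl i) ^ k * (pderiv (Sum.inr k)) (x * y) : MvPolynomial (ℕ ⊕ ℕ) K)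
      = ((k : K) • (X (Sum.inl i) ^ k * (pderiv (Sum.inr k)) x)) * y
        + x * ((k : K) • (X (Sum.inl i) ^ k * (pderiv (Sum.inr k)) y)) := by
    intro k
    rw [Derivation.leibniz]; simp only [smul_eq_mul, smul_mul_assoc, mul_smul_comm, ← smul_add]
    congr 1; ring
  rw [h1]
  simp only [h2, Finset.sum_add_distrib]
  ring

theorem del_ev_D_mul (N i : ℕ) (x y : MvPolynomial (ℕ ⊕ ℕ) K) :
    del i (ev N (x * y)) = del i (ev N x) * ev N y + ev N x * del i (ev N y) := by
  rw [map_mul]
  simp only [del_apply]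
  rw [Derivation.leibniz]; simp only [smul_eq_mul]; ring

theorem del_ev_supp (N n i : ℕ) (hi : i < N) (G : MvPolynomial (ℕ ⊕ ℕ) K)
    (hG : G ∈ MvPolynomial.supported K {v : ℕ ⊕ ℕ | ∀ k, v = Sum.inr k → 1 ≤ k ∧ k ≤ n}) :
    del i (ev N G) = ev N (tht i G + ∑ k ∈ Icc 1 n, (k : K) • mt i k (dp k G)) := by
  unfold MvPolynomial.supported at hG
  induction hG using Algebra.adjoin_induction with
  | mem x hx =>
    obtain ⟨v, hv, rfl⟩ := hx
    rcases v with j | k
    · have h0 : ∀ k ∈ Icc 1 n, (k : K) • mt i k (dp k (X (Sum.inl j) : MvPolynomial (ℕ ⊕ ℕ) K)) = 0 := by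
        intro k _
        simp [pderiv_X]
      rw [Finset.sum_eq_zero h0, add_zero]
      have hev : (ev N (X (Sum.inl j)) : MvPolynomial ℕ K) = X j := by simp [ev]
      rw [hev]
      by_cases hij : j = i
      · subst hij
        simp [ev]
      · have h1 : pderiv i (X j : MvPolynomial ℕ K) = 0 := pderiv_X_of_ne hij
        have h2 : pderiv (Sum.inl i) (X (Sum.inl j) : MvPolynomial (ℕ ⊕ ℕ) K) = 0 :=
          pderiv_X_of_ne (by simpa using hij)
        rw [del_apply, tht_apply, h1, h2, mul_zero, mul_zero, map_zero]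
    · obtain ⟨hk1, hkn⟩ := hv k rfl
      have h0 : tht i (X (Sum.inr k) : MvPolynomial (ℕ ⊕ ℕ) K) = 0 := by
        simp [pderiv_X]
      rw [h0, zero_add]
      rw [Finset.sum_eq_single k]
      · have h1 : (ev N (X (Sum.inr k)) : MvPolynomial ℕ K) = ∑ j ∈ range N, X j ^ k := by
          simp [ev]
        rw [h1, del_apply, map_sum, Finset.sum_eq_single i]
        · rw [Derivation.leibniz_pow]
          simp only [pderiv_X_self, mt_apply, dp_apply, mul_one, smul_eq_mul, map_smul, map_pow, ev, aeval_X,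
            Sum.elim_inl]
          obtain ⟨k', rfl⟩ : ∃ k', k = k' + 1 := ⟨k - 1, by omega⟩
          simp only [Nat.add_sub_cancel, nsmul_eq_mul, MvPolynomial.smul_eq_C_mul, map_natCast]
          ring
        · intro j _ hj
          rw [Derivation.leibniz_pow, pderiv_X_of_ne hj]
          simp
        · intro h
          exact absurd (Finset.mem_range.2 hi) h
      · intro l _ hl
        have : pderiv (Sum.inr l) (X (Sum.inr k) : MvPolynomial (ℕ ⊕ ℕ) K) = 0 := by
          apply pderiv_X_of_ne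
          intro h
          exact hl (by simpa using h.symm)
        simp [this]
      · intro h
        exact absurd (Finset.mem_Icc.2 ⟨hk1, hkn⟩) h
  | algebraMap r =>
    simp only [del_apply, tht_apply, mt_apply, dp_apply, MvPolynomial.algebraMap_eq, pderiv_C,
      mul_zero, smul_zero, Finset.sum_const_zero, add_zero, map_zero]
    have : (ev N (C r) : MvPolynomial ℕ K) = C r := by
      simp [ev]
    rw [this, pderiv_C, mul_zero]
  | add x y _ _ hx hy =>
    have h1 : tht i (x + y) + ∑ k ∈ Icc 1 n, (k : K) • mt i k (dp k (x + y))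
        = (tht i x + ∑ k ∈ Icc 1 n, (k : K) • mt i k (dp k x))
          + (tht i y + ∑ k ∈ Icc 1 n, (k : K) • mt i k (dp k y)) := by
      simp only [map_add, smul_add, Finset.sum_add_distrib]
      abel
    rw [h1, map_add, map_add, map_add, hx, hy]
  | mul x y _ _ hx hy =>
    rw [del_ev_D_mul, del_ev_R_mul, map_add, map_mul, map_mul, hx, hy]

/-- HINT: chain rule: both sides are derivation-like and agree on generators; or check on monomials;
`δ_i (Σ_j x_j^k) = k x_i^k` for `i < N`. For admissible `G` the `p_k` with `k > n` or `k = 0` do not occur. -/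
theorem del_ev (N m n i : ℕ) (hi : i < N) (G : MvPolynomial (ℕ ⊕ ℕ) K) (hG : AdmP m n G) :
    del i (ev N G) = ev N (tht i G + ∑ k ∈ Icc 1 n, (k : K) • mt i k (dp k G)) := by
  apply del_ev_supp N n i hi G
  rw [MvPolynomial.mem_supported]
  intro v hv
  rw [Finset.mem_coe, MvPolynomial.mem_vars] at hv
  obtain ⟨d, hd, hvd⟩ := hv
  obtain ⟨_, h0, hs⟩ := hG d hd
  intro k hk
  subst hk
  rw [Finsupp.mem_support_iff] at hvd
  have hk0 : k ≠ 0 := by
    rintro rfl
    exact hvd h0
  refine ⟨by omega, ?_⟩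
  have h1 : k * d (Sum.inr k) ≤ n := by
    rw [← hs, Finsupp.sum]
    exact Finset.single_le_sum (f := fun v => Sum.elim (fun _ => d v) (fun k => k * d v) v)
      (fun _ _ => Nat.zero_le _) (Finsupp.mem_support_iff.2 hvd)
  have h2 : 1 ≤ d (Sum.inr k) := Nat.one_le_iff_ne_zero.2 hvd
  nlinarith

end JSup
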