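import Pool.Agent.Helper204.JS.Stmt
import Pool.Agent.Helper204.JS.Defs
import Pool.Agent.Helper204.JS.Defs1
import Pool.Agent.Helper204.JS.Defs2
import Pool.Agent.Helper204.JS.Defs3

set_option linter.unusedSectionVars false

open MvPolynomial Finset

noncomputable section

namespace JSup
variable {K : Type} [Field K] [CharZero K] [Par K]



theorem tts_tht_monomial (i : ℕ) (d : (ℕ ⊕ ℕ) →₀ ℕ) (a : K) :
    tht i (monomial d a) = ((d (Sum.inl i) : ℕ) : K) • (monomial d a : MvPolynomial (ℕ ⊕ ℕ) K) := by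
  rw [tht_apply, X_mul_pderiv_monomial, Nat.cast_smul_eq_nsmul]

theorem tts_mt_monomial (i c : ℕ) (d : (ℕ ⊕ ℕ) →₀ ℕ) (a : K) (h : c ≤ d (Sum.inl i)) :
    mt i c (monomial (d - Finsupp.single (Sum.inl i) c) a) = (monomial d a : MvPolynomial (ℕ ⊕ ℕ) K) := by
  have h' : Finsupp.single (Sum.inl i) c ≤ d := by
    rw [Finsupp.single_le_iff]
    exact h
  rw [mt_apply, X_pow_eq_monomial, monomial_mul, one_mul, add_tsub_cancel_of_le h']

theorem tts_sum_one (D n : ℕ) (h : D ≤ n) : ∑ c ∈ Icc 1 n, (if c ≤ D then (1 : K) else 0) = (D : K) := by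
  rw [← Finset.sum_filter]
  have : (Icc 1 n).filter (fun c => c ≤ D) = Icc 1 D := by
    ext c
    simp only [mem_filter, mem_Icc]
    omega
  rw [this]
  simp

theorem tts_sum_c (D : ℕ) : 2 * ∑ c ∈ Icc 1 D, (c : K) = (D : K) * (D + 1) := by
  induction D with
  | zero => simp
  | succ D ih =>
    rw [Finset.sum_Icc_succ_top (by omega), mul_add, ih]
    push_cast
    ring

theorem tts_sum_two (D n : ℕ) (h : D ≤ n) :
    2 * ∑ c ∈ Icc 1 n, (if c ≤ D then (D : K) - (c : K) else 0) = (D : K) * (D : K) - (D : K) := by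
  rw [← Finset.sum_filter]
  have : (Icc 1 n).filter (fun c => c ≤ D) = Icc 1 D := by
    ext c
    simp only [mem_filter, mem_Icc]
    omega
  rw [this, Finset.sum_sub_distrib, mul_sub, tts_sum_c]
  simp only [sum_const, Nat.card_Icc, Nat.add_sub_cancel, nsmul_eq_mul]
  ring

theorem tts_monomial (n i : ℕ) (d : (ℕ ⊕ ℕ) →₀ ℕ) (a : K) (hd : d (Sum.inl i) ≤ n) :
    ∑ c ∈ Icc 1 n, mt i c (tau i c (monomial d a)) = tht i (monomial d a) ∧
    (2 : K) • ∑ c ∈ Icc 1 n, mt i c (tht i (tau i c (monomial d a))) =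
      tht i (tht i (monomial d a)) - tht i (monomial d a) := by
  have h1 : ∀ c, mt i c (tau i c (monomial d a)) =
      (if c ≤ d (Sum.inl i) then (1 : K) else 0) • (monomial d a : MvPolynomial (ℕ ⊕ ℕ) K) := by
    intro c
    rw [tau_monomial]
    split_ifs with h
    · rw [tts_mt_monomial i c d a h, one_smul]
    · rw [map_zero, zero_smul]
  have h2 : ∀ c, mt i c (tht i (tau i c (monomial d a))) =
      (if c ≤ d (Sum.inl i) then ((d (Sum.inl i) : ℕ) : K) - (c : K) else 0) •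
        (monomial d a : MvPolynomial (ℕ ⊕ ℕ) K) := by
    intro c
    rw [tau_monomial]
    split_ifs with h
    · rw [tts_tht_monomial, map_smul, tts_mt_monomial i c d a h]
      congr 1
      rw [Finsupp.tsub_apply, Finsupp.single_eq_same, Nat.cast_sub h]
    · rw [map_zero, map_zero, zero_smul]
  constructor
  · rw [Finset.sum_congr rfl (fun c _ => h1 c), ← Finset.sum_smul, tts_sum_one _ _ hd, tts_tht_monomial]
  · rw [Finset.sum_congr rfl (fun c _ => h2 c), ← Finset.sum_smul, smul_smul, tts_sum_two _ _ hd,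
      tts_tht_monomial, map_smul, tts_tht_monomial, smul_smul, ← sub_smul]

theorem tts_adm {m n : ℕ} {d : (ℕ ⊕ ℕ) →₀ ℕ} (h : Adm m n d) (i : ℕ) : d (Sum.inl i) ≤ n := by
  obtain ⟨-, -, h3⟩ := h
  by_cases h0 : d (Sum.inl i) = 0
  · omega
  · rw [← h3]
    have hm : Sum.inl i ∈ d.support := Finsupp.mem_support_iff.mpr h0
    have := Finset.single_le_sum (f := fun v => Sum.elim (fun _ => d v) (fun k => k * d v) v)
      (fun v _ => Nat.zero_le _) hm
    exact this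

/-- HINT: on monomials: `Σ_{c=1}^{a} t^c τ^c t^a = a t^a`, `Σ_{c=1}^{a} t^c θ τ^c t^a = (Σ_{c=1}^{a} (a-c)) t^a = a(a-1)/2 t^a`
(the exponent of `t_i` is at most `n`). -/
theorem tau_tht_sum (m n i : ℕ) (G : MvPolynomial (ℕ ⊕ ℕ) K) (hG : AdmP m n G) :
    ∑ c ∈ Icc 1 n, mt i c (tau i c G) = tht i G ∧
    (2 : K) • ∑ c ∈ Icc 1 n, mt i c (tht i (tau i c G)) = tht i (tht i G) - tht i G := by
  have hG' : ∀ d ∈ G.support, d (Sum.inl i) ≤ n := fun d hd => tts_adm (hG d hd) i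
  clear hG
  set A : MvPolynomial (ℕ ⊕ ℕ) K →ₗ[K] MvPolynomial (ℕ ⊕ ℕ) K := ∑ c ∈ Icc 1 n, mt i c ∘ₗ tau i c with hA
  set B : MvPolynomial (ℕ ⊕ ℕ) K →ₗ[K] MvPolynomial (ℕ ⊕ ℕ) K :=
    (2 : K) • ∑ c ∈ Icc 1 n, mt i c ∘ₗ tht i ∘ₗ tau i c with hB
  have hA1 : ∀ H, A H = ∑ c ∈ Icc 1 n, mt i c (tau i c H) := by
    intro H
    rw [hA, LinearMap.sum_apply]
    rfl
  have hB1 : ∀ H, B H = (2 : K) • ∑ c ∈ Icc 1 n, mt i c (tht i (tau i c H)) := by
    intro H
    rw [hB, LinearMap.smul_apply, LinearMap.sum_apply]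
    rfl
  set C : MvPolynomial (ℕ ⊕ ℕ) K →ₗ[K] MvPolynomial (ℕ ⊕ ℕ) K := tht i ∘ₗ tht i - tht i with hC
  have hC1 : ∀ H, C H = tht i (tht i H) - tht i H := fun H => rfl
  rw [← hA1, ← hB1, ← hC1]
  have e : G = ∑ d ∈ G.support, monomial d (coeff d G) := (support_sum_monomial_coeff G).symm
  constructor
  · rw [e, map_sum, map_sum]
    apply Finset.sum_congr rfl
    intro d hd
    rw [hA1]
    exact (tts_monomial n i d _ (hG' d hd)).1
  · rw [e, map_sum, map_sum]
    apply Finset.sum_congr rfl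
    intro d hd
    rw [hB1, hC1]
    exact (tts_monomial n i d _ (hG' d hd)).2

end JSup
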