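import Pool.Agent.Helper204.JS.Stmt
import Pool.Agent.Helper204.JS.Defs
import Pool.Agent.Helper204.JS.Defs1
import Pool.Agent.Helper204.JS.Defs2
import Pool.Agent.Helper204.JS.Defs3
import Pool.Agent.Helper204.JS.P_del_ev
import Pool.Agent.Helper204.JS.P_tau_tht_sum
import Pool.Agent.Helper204.JS.P_subst_def
import Pool.Agent.Helper204.JS.P_subst_cases
import Pool.Agent.Helper204.JS.P_dd_ev

set_option linter.unusedSectionVars false

open MvPolynomial Finset

noncomputable section

namespace JSup
variable {K : Type} [Field K] [CharZero K] [Par K]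



theorem II_ev (N m n : ℕ) (hm : m ≤ N) (G : MvPolynomial (ℕ ⊕ ℕ) K) (hG : AdmP m n G) (hA : AltT m G) :
    II N m (ev N G) = ev N (FI m n G) := by
  have evt : ∀ (i c : ℕ), (ev N (X (Sum.inl i) ^ c) : MvPolynomial ℕ K) = X i ^ c := by
    intro i c; simp [ev]
  have evp : ∀ c : ℕ, (ev N (X (Sum.inr c)) : MvPolynomial ℕ K) = ∑ j ∈ range N, X j ^ c := by
    intro c; simp [ev]
  obtain ⟨S, hS⟩ : ∃ S : ℕ → ℕ → MvPolynomial ℕ K,
      ∀ i j, S i j = ∑ c ∈ Icc 1 n, X j ^ c * ev N (tau i c G) := ⟨_, fun _ _ => rfl⟩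
  have hSii : ∀ i, S i i = ev N (tht i G) := by
    intro i
    rw [← (tau_tht_sum m n i G hG).1, map_sum, hS]
    refine Finset.sum_congr rfl fun c _ => ?_
    rw [mt_apply, map_mul, evt]
  have hSij : ∀ i j, i < m → j < m → i ≠ j → S i j + S j i = - ev N G := by
    intro i j hi hj hij
    apply mul_left_cancel₀ (X_sub_ne (R := K) hij)
    have h1 := (subst_def N m n i j hij G hG).1
    have h2 := (subst_def N m n j i hij.symm G hG).1
    have z1 := (subst_cases N m n i j (by omega) (by omega) hij G hG).2.1 hi hj hA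
    have z2 := (subst_cases N m n j i (by omega) (by omega) hij.symm G hG).2.1 hj hi hA
    rw [z1, map_zero, sub_zero] at h1
    rw [z2, map_zero, sub_zero] at h2
    rw [← hS] at h1 h2
    have e1 : (X i - X j) * S i j = X j * ev N G := h1
    have e2 : (X j - X i) * S j i = X i * ev N G := h2
    have : (X i - X j) * (S i j + S j i) = (X i - X j) * S i j - (X j - X i) * S j i := by ring
    rw [this, e1, e2]; ring
  have hD : ∑ i ∈ range m, ∑ j ∈ range m, S i j =
      ∑ i ∈ range m, ev N (tht i G) - ((m.choose 2 : ℕ) : K) • ev N G := by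
    have h2 : (2 : K) ≠ 0 := two_ne_zero
    apply smul_right_injective _ h2
    show (2 : K) • ∑ i ∈ range m, ∑ j ∈ range m, S i j =
      (2 : K) • (∑ i ∈ range m, ev N (tht i G) - ((m.choose 2 : ℕ) : K) • ev N G)
    have e1 : (2 : K) • ∑ i ∈ range m, ∑ j ∈ range m, S i j =
        ∑ i ∈ range m, ∑ j ∈ range m, (S i j + S j i) := by
      have e0 : ∑ i ∈ range m, ∑ j ∈ range m, S j i = ∑ i ∈ range m, ∑ j ∈ range m, S i j :=
        Finset.sum_comm
      simp only [Finset.sum_add_distrib]
      rw [e0, two_smul]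
    have e2 : ∀ i ∈ range m, ∑ j ∈ range m, (S i j + S j i) =
        (2 : K) • ev N (tht i G) + ev N G - (m : K) • ev N G := by
      intro i hi
      have e3 : ∀ j ∈ range m, S i j + S j i =
          (if i = j then (2 : K) • ev N (tht i G) + ev N G else 0) - ev N G := by
        intro j hj
        by_cases h : i = j
        · subst h
          rw [if_pos rfl, hSii, two_smul]; ring
        · rw [if_neg h, hSij i j (mem_range.1 hi) (mem_range.1 hj) h]; ring
      rw [Finset.sum_congr rfl e3, Finset.sum_sub_distrib, Finset.sum_ite_eq, if_pos hi,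
        Finset.sum_const, card_range]
      congr 1
      exact (Nat.cast_smul_eq_nsmul K m (ev N G)).symm
    rw [e1, Finset.sum_congr rfl e2, Finset.sum_sub_distrib, Finset.sum_add_distrib,
      Finset.sum_const, Finset.sum_const, card_range, Nat.cast_choose_two, smul_sub,
      ← Finset.smul_sum, smul_smul, ← Nat.cast_smul_eq_nsmul K m (ev N G),
      ← Nat.cast_smul_eq_nsmul K m ((m : K) • ev N G), smul_smul]
    have : (2 : K) * ((m : K) * ((m : K) - 1) / 2) = (m : K) * (m : K) - (m : K) := by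
      field_simp
    rw [this, sub_smul]
    abel
  have hL : II N m (ev N G) = (al : K) • ∑ i ∈ range m, del i (ev N G)
      + ∑ i ∈ range m, ∑ j ∈ Ico m N, X j * dd i j (ev N G) := by
    simp [II, LinearMap.sum_apply]
  have h1 : ∑ i ∈ range m, del i (ev N G) = ∑ i ∈ range m, ev N (tht i G)
      + ∑ i ∈ range m, ∑ k ∈ Icc 1 n, (k : K) • ev N (mt i k (dp k G)) := by
    rw [← Finset.sum_add_distrib]
    refine Finset.sum_congr rfl fun i hi => ?_
    rw [del_ev N m n i (by have := mem_range.1 hi; omega) G hG, map_add, map_sum]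
    congr 1
    refine Finset.sum_congr rfl fun k _ => ?_
    rw [map_smul]
  have h2 : ∑ i ∈ range m, ∑ j ∈ Ico m N, X j * dd i j (ev N G) =
      ∑ i ∈ range m, ∑ c ∈ Icc 1 n, ev N (mp c (tau i c G)) -
        ∑ i ∈ range m, ∑ j ∈ range m, S i j := by
    rw [← Finset.sum_sub_distrib]
    refine Finset.sum_congr rfl fun i hi => ?_
    have e1 : ∑ j ∈ Ico m N, X j * dd i j (ev N G) = ∑ j ∈ Ico m N, S i j := by
      refine Finset.sum_congr rfl fun j hj => ?_
      rw [hS]
      exact dd_ev N m n i j (mem_range.1 hi) (Finset.mem_Ico.1 hj).1 (Finset.mem_Ico.1 hj).2 G hG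
    have e2 : ∑ j ∈ range N, S i j = ∑ c ∈ Icc 1 n, ev N (mp c (tau i c G)) := by
      simp only [hS]
      rw [Finset.sum_comm]
      refine Finset.sum_congr rfl fun c _ => ?_
      rw [mp_apply, map_mul, evp, Finset.sum_mul]
    have e3 : ∑ j ∈ range m, S i j + ∑ j ∈ Ico m N, S i j = ∑ j ∈ range N, S i j :=
      Finset.sum_range_add_sum_Ico _ hm
    rw [e1, ← e2, ← e3]; ring
  rw [hL, h1, h2, hD]
  have hR : ev N (FI m n G) = ((al : K) - 1) • ∑ i ∈ range m, ev N (tht i G)
      + ∑ i ∈ range m, ∑ k ∈ Icc 1 n, (((al : K) * (k : K)) • ev N (mt i k (dp k G))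
        + ev N (mp k (tau i k G)))
      + ((m.choose 2 : ℕ) : K) • ev N G := by
    unfold FI
    simp only [LinearMap.add_apply, LinearMap.smul_apply, LinearMap.sum_apply, LinearMap.comp_apply,
      LinearMap.id_apply, map_add, map_sum, map_smul]
  rw [hR]
  simp only [Finset.sum_add_distrib, Finset.sum_sub_distrib, smul_add, sub_smul, one_smul,
    Finset.smul_sum, smul_smul]
  abel

end JSup
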