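import Pool.Agent.Helper204.JS.Defs

set_option linter.unusedSectionVars false

open MvPolynomial Finset

noncomputable section

namespace JSup
variable {K : Type} [Field K] [CharZero K] [Par K]


/-- HINT: `Itg f` says all coefficients lie in the subalgebra `ZA K`. Clean way for products:
`coeff_mul` is a finite sum of products. For rename by a permutation use `coeff_rename_mapDomain`
(injective) and the fact that every exponent is `mapDomain σ` of something (σ bijective), or `rename_eq`. -/
theorem itg_basic :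
    (Itg (0 : MvPolynomial ℕ K)) ∧ (Itg (1 : MvPolynomial ℕ K)) ∧
    (∀ i : ℕ, Itg (X i : MvPolynomial ℕ K)) ∧
    (∀ f g : MvPolynomial ℕ K, Itg f → Itg g → Itg (f + g)) ∧
    (∀ f g : MvPolynomial ℕ K, Itg f → Itg g → Itg (f - g)) ∧
    (∀ f : MvPolynomial ℕ K, Itg f → Itg (-f)) ∧
    (∀ f g : MvPolynomial ℕ K, Itg f → Itg g → Itg (f * g)) ∧
    (∀ (c : K) (f : MvPolynomial ℕ K), c ∈ ZA K → Itg f → Itg (c • f)) ∧
    (∀ (σ : Equiv.Perm ℕ) (f : MvPolynomial ℕ K), Itg f → Itg (rename σ f)) ∧
    (∀ (ι : Type) (s : Finset ι) (g : ι → MvPolynomial ℕ K), (∀ i ∈ s, Itg (g i)) → Itg (∑ i ∈ s, g i)) := by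
  classical
  refine ⟨?_, ?_, ?_, ?_, ?_, ?_, ?_, ?_, ?_, ?_⟩
  · intro d
    rw [coeff_zero]
    exact (ZA K).zero_mem
  · intro d
    rw [coeff_one]
    split_ifs
    · exact (ZA K).one_mem
    · exact (ZA K).zero_mem
  · intro i d
    rw [coeff_X']
    split_ifs
    · exact (ZA K).one_mem
    · exact (ZA K).zero_mem
  · intro f g hf hg d
    rw [coeff_add]
    exact (ZA K).add_mem (hf d) (hg d)
  · intro f g hf hg d
    rw [coeff_sub]
    exact (ZA K).sub_mem (hf d) (hg d)
  · intro f hf d
    rw [coeff_neg]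
    exact (ZA K).neg_mem (hf d)
  · intro f g hf hg d
    rw [coeff_mul]
    exact (ZA K).sum_mem fun x _ => (ZA K).mul_mem (hf _) (hg _)
  · intro c f hc hf d
    rw [coeff_smul, smul_eq_mul]
    exact (ZA K).mul_mem hc (hf d)
  · intro σ f hf d
    have h1 : d = Finsupp.mapDomain σ (Finsupp.mapDomain σ.symm d) := by
      rw [← Finsupp.mapDomain_comp]
      have h2 : (σ ∘ σ.symm : ℕ → ℕ) = id := by
        funext x
        exact σ.apply_symm_apply x
      rw [h2, Finsupp.mapDomain_id]
    rw [h1, coeff_rename_mapDomain σ σ.injective]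
    exact hf _
  · intro ι s g hg d
    rw [coeff_sum]
    exact (ZA K).sum_mem fun i hi => hg i hi d

end JSup
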