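import Pool.Agent.Helper204.JS.Defs

set_option linter.unusedSectionVars false

open MvPolynomial Finset

noncomputable section

namespace JSup
variable {K : Type} [Field K] [CharZero K] [Par K]


/-- HINT: if `f` has coefficients in the subring `ZA K` then `f = map ι f₀` with `f₀` over `ZA K` (e.g.
`MvPolynomial.mem_range_map_iff_coeffs_subset` or build `f₀` by hand); apply `dd_exists` over `ZA K` to get
`f₀ - s f₀ = (X i - X j) * g₀`, map it to `K` (`map_rename`) and use `dd_unique`: `dd i j f = map ι g₀`. -/
theorem itg_dd (i j : ℕ) (f : MvPolynomial ℕ K) (hf : Itg f) : Itg (dd i j f) := by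
  by_cases h : i = j
  · subst h
    rw [dd_self]
    intro d
    rw [MvPolynomial.coeff_zero]
    exact (ZA K).zero_mem
  · obtain ⟨f0, hf0⟩ : ∃ f0 : MvPolynomial ℕ (ZA K),
        MvPolynomial.map (algebraMap (ZA K) K) f0 = f := by
      refine ⟨∑ d ∈ f.support, MvPolynomial.monomial d (⟨MvPolynomial.coeff d f, hf d⟩ : ZA K), ?_⟩
      rw [map_sum]
      conv_rhs => rw [MvPolynomial.as_sum f]
      apply Finset.sum_congr rfl
      intro d _
      rw [MvPolynomial.map_monomial]
      rfl
    obtain ⟨g0, hg0⟩ := dd_exists i j f0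
    have h1 : dd i j f = MvPolynomial.map (algebraMap (ZA K) K) g0 := by
      apply dd_unique h
      have h2 := congrArg (MvPolynomial.map (algebraMap (ZA K) K)) hg0
      rw [map_sub, map_mul, map_sub, MvPolynomial.map_X, MvPolynomial.map_X,
        MvPolynomial.map_rename, hf0] at h2
      exact h2.symm
    rw [h1]
    intro d
    rw [MvPolynomial.coeff_map]
    exact (MvPolynomial.coeff d g0).2

end JSup
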