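import Pool.Agent.Helper204.JS.Defs
import Pool.Agent.Helper204.JS.P_itg_basic
import Pool.Agent.Helper204.JS.P_itg_dd

set_option linter.unusedSectionVars false

open MvPolynomial Finset

noncomputable section

namespace JSup
variable {K : Type} [Field K] [CharZero K] [Par K]


theorem itg_al : (al : K) ∈ ZA K := Algebra.subset_adjoin rfl

theorem itg_nat (n : ℕ) : (n : K) ∈ ZA K := natCast_mem (ZA K) n

theorem itg_monomial (d : ℕ →₀ ℕ) (c : K) (hc : c ∈ ZA K) : Itg (monomial d c) := by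
  classical
  intro e
  rw [coeff_monomial]
  split_ifs
  · exact hc
  · exact (ZA K).zero_mem

theorem itg_pderiv (i : ℕ) (f : MvPolynomial ℕ K) (hf : Itg f) : Itg (pderiv i f) := by
  obtain ⟨h0, h1, hX, hadd, hsub, hneg, hmul, hsmul, hren, hsum⟩ := itg_basic (K := K)
  have h : pderiv i f = ∑ d ∈ f.support, pderiv i (monomial d (coeff d f)) := by
    conv_lhs => rw [f.as_sum]
    rw [map_sum]
  rw [h]
  refine hsum (ℕ →₀ ℕ) f.support _ fun d _ => ?_
  rw [pderiv_monomial]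
  exact itg_monomial _ _ ((ZA K).mul_mem (hf d) (itg_nat _))

/-- HINT: from `itg_basic`, `itg_dd`; `pderiv`: `coeff_pderiv`-like formula, or write f as a sum of monomials
(the derivative of `monomial d c` is `monomial (d - single i 1) (c * d i)`); naturals and `al` lie in `ZA K`. -/
theorem itg_ops (N : ℕ) :
    (∀ (i : ℕ) (f : MvPolynomial ℕ K), Itg f → Itg (Yop N i f)) ∧
    (∀ (i : ℕ) (f : MvPolynomial ℕ K), Itg f → Itg (ee i f)) ∧
    (∀ (l : ℕ) (A : K) (f : MvPolynomial ℕ K), A ∈ ZA K → Itg f → Itg (Psi N l A f)) ∧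
    (∀ (a m : ℕ) (f : MvPolynomial ℕ K), Itg f → Itg (antis a m f)) ∧
    (∀ (p : ℕ) (f : MvPolynomial ℕ K), Itg f → Itg (symStep N p f)) ∧
    (∀ (l : ℕ) (η : ℕ →₀ ℕ), (kap l η : K) ∈ ZA K) ∧
    (∀ (i : ℕ) (η : ℕ →₀ ℕ), (yv N η i : K) ∈ ZA K) := by
  obtain ⟨h0, h1, hX, hadd, hsub, hneg, hmul, hsmul, hren, hsum⟩ := itg_basic (K := K)
  have hee : ∀ (i : ℕ) (f : MvPolynomial ℕ K), Itg f → Itg (ee i f) := by
    intro i f hf
    rw [ee_apply]
    exact hmul _ _ (hX i) (hren _ _ hf)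
  refine ⟨?_, hee, ?_, ?_, ?_, ?_, ?_⟩
  · intro i f hf
    rw [Yop_apply]
    refine hsub _ _ (hadd _ _ (hadd _ _ ?_ ?_) ?_) ?_
    · exact hsmul _ _ itg_al (hmul _ _ (hX i) (itg_pderiv i f hf))
    · exact hsum ℕ _ _ fun j _ => hmul _ _ (hX i) (itg_dd i j f hf)
    · exact hsum ℕ _ _ fun j _ => hmul _ _ (hX j) (itg_dd i j f hf)
    · exact hsmul _ _ (itg_nat i) hf
  · intro l A f hA hf
    rw [Psi_apply]
    refine hadd _ _ (hsmul _ _ ?_ (hee l f hf)) (hsum ℕ _ _ fun k _ => hee k f hf)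
    exact (ZA K).add_mem ((ZA K).add_mem hA (itg_nat l)) (ZA K).one_mem
  · intro a m f hf
    rw [antis_apply]
    refine hsum (Equiv.Perm (Fin m)) _ _ fun w _ => hsmul _ _ ?_ (hren _ _ hf)
    exact intCast_mem (ZA K) _
  · intro p f hf
    rw [symStep_apply]
    exact hsum ℕ _ _ fun j _ => hren _ _ hf
  · intro l η
    unfold kap
    exact (ZA K).sub_mem ((ZA K).mul_mem itg_al (itg_nat _)) (itg_nat _)
  · intro i η
    unfold yv
    exact (ZA K).sub_mem ((ZA K).sub_mem ((ZA K).mul_mem itg_al (itg_nat _)) (itg_nat _))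
      (itg_nat _)

end JSup
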