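import Pool.Agent.Helper204.JS.Defs
import Pool.Agent.Helper204.JS.Defs1

set_option linter.unusedSectionVars false

open MvPolynomial Finset

noncomputable section

namespace JSup
variable {K : Type} [Field K] [CharZero K] [Par K]



theorem antis_small (a : ℕ) (f : MvPolynomial ℕ K) : antis a 0 f = f ∧ antis a 1 f = f := by
  have key : ∀ m, Subsingleton (Equiv.Perm (Fin m)) → antis a m f = f := by
    intro m hm
    rw [antis_apply]
    have h1 : (Finset.univ : Finset (Equiv.Perm (Fin m))) = {1} := by
      ext w; simp [Subsingleton.elim w 1]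
    rw [h1, Finset.sum_singleton, map_one, map_one]
    have h2 : (⇑(1 : Equiv.Perm ℕ) : ℕ → ℕ) = id := rfl
    rw [h2, rename_id_apply]
    simp
  exact ⟨key 0 inferInstance, key 1 inferInstance⟩

end JSup
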