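import Pool.Agent.Helper204.JS.Defs
import Pool.Agent.Helper204.JS.Defs1
import Pool.Agent.Helper204.JS.P_antis_conj
import Pool.Agent.Helper204.JS.P_antis_mul

set_option linter.unusedSectionVars false

open MvPolynomial Finset

noncomputable section

namespace JSup
variable {K : Type} [Field K] [CharZero K] [Par K]



/-- HINT: `antis_conj` with `σ = cyc j` (maps `a+1+i` to `a+i` for `i<m`), `antis_mul` with `g = X j`. -/
theorem antis_ee (a m j : ℕ) (h : a + m ≤ j) (f : MvPolynomial ℕ K) :
    antis a m (ee j f) = ee j (antis (a + 1) m f) := by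
  have h1 : ∀ w : Equiv.Perm (Fin m),
      rename (emb a m w) (X j : MvPolynomial ℕ K) = X j := by
    intro w
    rw [rename_X, emb_out a m w j (Or.inr h)]
  have h2 : ∀ i, i < m → cyc j (a + 1 + i) = a + i := by
    intro i hi
    rw [cyc_apply, if_neg (by omega), if_pos (by omega)]
    omega
  rw [ee_apply, ee_apply, antis_mul a m (X j) _ h1, antis_conj (a + 1) a m (cyc j) h2]

end JSup
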