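import Pool.Agent.Helper204.JS.Defs
import Pool.Agent.Helper204.JS.Defs1
import Pool.Agent.Helper204.JS.P_antis_ee

set_option linter.unusedSectionVars false

open MvPolynomial Finset

noncomputable section

namespace JSup
variable {K : Type} [Field K] [CharZero K] [Par K]



theorem antis_Psi (N a m l : ℕ) (A : K) (h : a + m ≤ l) (f : MvPolynomial ℕ K) :
    antis a m (Psi N l A f) = Psi N l A (antis (a + 1) m f) := by
  rw [Psi_apply, Psi_apply, map_add, map_smul, map_sum, antis_ee a m l h]
  congr 1
  apply Finset.sum_congr rfl
  intro k hk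
  rw [Finset.mem_Ioo] at hk
  exact antis_ee a m k (by omega) f

end JSup
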