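import Pool.Agent.Helper204.JS.Defs
import Pool.Agent.Helper204.JS.Defs1
import Pool.Agent.Helper204.JS.P_yv_star

set_option linter.unusedSectionVars false

open MvPolynomial Finset

noncomputable section

namespace JSup
variable {K : Type} [Field K] [CharZero K] [Par K]



theorem cB_star1 (N a m l : ℕ) (h : a + m ≤ l) (hl : l < N) (η : ℕ →₀ ℕ) (h1 : η l ≠ 0)
    (h0 : ∀ k, l < k → η k = 0) : (cB N (star l η) (a + 1) m : K) = cB N η a m := by
  have hy := (yv_star (K := K) N l hl η h1 h0).1
  unfold cB
  refine Finset.prod_congr rfl ?_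
  intro p hp
  simp only [mem_filter, mem_product, mem_range] at hp
  have e1 : a + 1 + p.1 = (a + p.1) + 1 := by ring
  have e2 : a + 1 + p.2 = (a + p.2) + 1 := by ring
  rw [e1, e2, hy (a + p.1) (by omega), hy (a + p.2) (by omega)]

end JSup
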