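import Pool.Agent.Helper204.JS.Defs
import Pool.Agent.Helper204.JS.Defs1
import Pool.Agent.Helper204.JS.P_itg_basic
import Pool.Agent.Helper204.JS.P_itg_ops
import Pool.Agent.Helper204.JS.P_antis_Psi
import Pool.Agent.Helper204.JS.P_cB_star1

set_option linter.unusedSectionVars false

open MvPolynomial Finset

noncomputable section

namespace JSup
variable {K : Type} [Field K] [CharZero K] [Par K]



/-- HINT: `Fp_step`, `antis_Psi`, `cB_star1`, linearity, `itg_ops`. -/
theorem case1 (N a m l : ℕ) (h : a + m ≤ l) (hl : l < N) (η : ℕ →₀ ℕ) (h1 : η l ≠ 0)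
    (h0 : ∀ k, l < k → η k = 0)
    (ih : Itg ((cB N (star l η) (a + 1) m : K)⁻¹ • antis (a + 1) m (Fp N (star l η) : MvPolynomial ℕ K))) :
    Itg ((cB N η a m : K)⁻¹ • antis a m (Fp N η : MvPolynomial ℕ K)) := by
  rw [Fp_step N l η h1 h0, antis_Psi N a m l _ h, ← cB_star1 N a m l h hl η h1 h0, ← map_smul]
  exact (itg_ops (K := K) N).2.2.1 l _ _ ((itg_ops (K := K) N).2.2.2.2.2.1 l η) ih

end JSup
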