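import Pool.Agent.Helper204.JS.Defs
import Pool.Agent.Helper204.JS.Defs1
import Pool.Agent.Helper204.JS.P_yv_swap
import Pool.Agent.Helper204.JS.P_Fp_exchange

set_option linter.unusedSectionVars false

open MvPolynomial Finset

noncomputable section

namespace JSup
variable {K : Type} [Field K] [CharZero K] [Par K]



/-- HINT: solve the relation `(Δ+1) F_η = Δ s F_{sη} + F_{sη}` (`Fp_exchange`) for `s F_η` and `s F_{sη}`
(apply `rename s`, an involution, to the relation; `Δ ≠ 0`, `Δ+1 ≠ 0` by `yv_swap`). -/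
theorem exch_solve (N i : ℕ) (hi : i + 1 < N) (η : ℕ →₀ ℕ) (hη : ∀ k, N ≤ k → η k = 0) (h : η (i + 1) < η i) :
    rename (Equiv.swap i (i + 1)) (Fp N η : MvPolynomial ℕ K)
      = ((yv N η i : K) - yv N η (i + 1))⁻¹ • Fp N η
        + (((yv N η i : K) - yv N η (i + 1) - 1) * ((yv N η i : K) - yv N η (i + 1))⁻¹) •
            Fp N (Finsupp.equivMapDomain (Equiv.swap i (i + 1)) η) ∧
    rename (Equiv.swap i (i + 1)) (Fp N (Finsupp.equivMapDomain (Equiv.swap i (i + 1)) η) : MvPolynomial ℕ K)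
      = (((yv N η i : K) - yv N η (i + 1) + 1) * ((yv N η i : K) - yv N η (i + 1))⁻¹) • Fp N η
        - ((yv N η i : K) - yv N η (i + 1))⁻¹ • Fp N (Finsupp.equivMapDomain (Equiv.swap i (i + 1)) η) := by
  obtain ⟨-, -, -, hD0, hD1, -⟩ := yv_swap (K := K) N i hi η h
  have hex := Fp_exchange (K := K) N i hi η hη h
  obtain ⟨D, hD⟩ : ∃ D : K, D = (yv N η i : K) - yv N η (i + 1) := ⟨_, rfl⟩
  obtain ⟨F, hF⟩ : ∃ F : MvPolynomial ℕ K, F = Fp N η := ⟨_, rfl⟩
  obtain ⟨G, hG⟩ : ∃ G : MvPolynomial ℕ K,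
    G = Fp N (Finsupp.equivMapDomain (Equiv.swap i (i + 1)) η) := ⟨_, rfl⟩
  rw [← hD, ← hF, ← hG] at hex ⊢
  rw [← hD] at hD0 hD1
  have hinv : ∀ p : MvPolynomial ℕ K,
      rename (Equiv.swap i (i + 1)) (rename (Equiv.swap i (i + 1)) p) = p := by
    intro p
    rw [rename_rename]
    have : (⇑(Equiv.swap i (i + 1)) ∘ ⇑(Equiv.swap i (i + 1))) = id := by
      funext x
      simp
    rw [this, rename_id_apply]
  have hex2 := congrArg (rename (Equiv.swap i (i + 1))) hex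
  rw [map_add, map_smul, map_smul, hinv] at hex2
  obtain ⟨sF, hsF⟩ : ∃ p, p = rename (Equiv.swap i (i + 1)) F := ⟨_, rfl⟩
  obtain ⟨sG, hsG⟩ : ∃ p, p = rename (Equiv.swap i (i + 1)) G := ⟨_, rfl⟩
  rw [← hsF, ← hsG] at hex2 ⊢
  rw [← hsG] at hex
  have h2 : sG = ((D + 1) * D⁻¹) • F - D⁻¹ • G := by
    have h3 : D • sG = (D + 1) • F - G := by rw [hex]; abel
    have h4 : sG = D⁻¹ • (D • sG) := by rw [smul_smul, inv_mul_cancel₀ hD0, one_smul]
    rw [h4, h3, smul_sub, smul_smul, mul_comm]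
  refine ⟨?_, h2⟩
  have h4 : sF = (D + 1)⁻¹ • ((D + 1) • sF) := by rw [smul_smul, inv_mul_cancel₀ hD1, one_smul]
  rw [h4, hex2, h2]
  match_scalars <;> field_simp
  ring

end JSup
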