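import Pool.Agent.Helper204.JS.Defs
import Pool.Agent.Helper204.JS.Defs1
import Pool.Agent.Helper204.JS.P_starIter_apply

set_option linter.unusedSectionVars false

open MvPolynomial Finset

noncomputable section

namespace JSup
variable {K : Type} [Field K] [CharZero K] [Par K]



theorem yv_count_aux (N : ℕ) (ω : ℕ →₀ ℕ) (i : ℕ) (hi : i < N) :
    ((range i).filter (fun j => ω i ≤ ω j)).card + ((Ioo i N).filter (fun j => ω i < ω j)).card =
      ((range N).filter (fun j => (j < i ∧ ω i ≤ ω j) ∨ (i < j ∧ ω i < ω j))).card := by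
  rw [← Finset.card_union_of_disjoint]
  · congr 1
    ext j
    simp only [mem_union, mem_filter, mem_range, mem_Ioo]
    constructor
    · rintro (⟨h1, h2⟩ | ⟨⟨h1, h2⟩, h3⟩)
      · exact ⟨by omega, Or.inl ⟨h1, h2⟩⟩
      · exact ⟨h2, Or.inr ⟨h1, h3⟩⟩
    · rintro ⟨h1, ⟨h2, h3⟩ | ⟨h2, h3⟩⟩
      · exact Or.inl ⟨h2, h3⟩
      · exact Or.inr ⟨⟨h2, h1⟩, h3⟩
  · rw [Finset.disjoint_left]
    intro j h1 h2
    simp only [mem_filter, mem_range, mem_Ioo] at h1 h2
    omega

/-- HINT: counting, `starIter_apply`. -/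
theorem yv_starIter (N l t : ℕ) (hl : l < N) (ht : t ≤ l + 1) (η : ℕ →₀ ℕ) (h0 : ∀ k, l < k → η k = 0)
    (hpos : ∀ k, l + 1 - t ≤ k → k ≤ l → η k ≠ 0) (k : ℕ) (hk : k < t) :
    (yv N ((star l)^[t] η) k : K) = yv N η (l + 1 - t + k) - al := by
  obtain ⟨a, ha⟩ : ∃ a, a = l + 1 - t := ⟨_, rfl⟩
  rw [← ha]
  have hat : a + t = l + 1 := by omega
  obtain ⟨ω, hω⟩ : ∃ ω, ω = (star l)^[t] η := ⟨_, rfl⟩
  rw [← hω]
  have hv : ∀ j, ω j = if j < t then η (a + j) - 1 else if j ≤ l then η (j - t) else 0 := by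
    intro j
    rw [hω, starIter_apply l t ht η h0 j, ← ha]
  have hp0 : ∀ j, j < t → η (a + j) ≠ 0 := fun j hj => hpos _ (by omega) (by omega)
  obtain ⟨π, hπ⟩ : ∃ π : ℕ → ℕ, ∀ j, π j = if j < t then a + j else if j ≤ l then j - t else j :=
    ⟨_, fun _ => rfl⟩
  obtain ⟨ρ, hρ⟩ : ∃ ρ : ℕ → ℕ, ∀ m, ρ m = if m < a then m + t else if m ≤ l then m - a else m :=
    ⟨_, fun _ => rfl⟩
  have hρπ : ∀ j, ρ (π j) = j := by
    intro j
    rw [hρ, hπ]
    split_ifs <;> omega
  have hπρ : ∀ j, π (ρ j) = j := by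
    intro j
    rw [hρ, hπ]
    split_ifs <;> omega
  have hπN : ∀ j, j < N → π j < N := by
    intro j hj
    rw [hπ]
    split_ifs <;> omega
  have hρN : ∀ j, j < N → ρ j < N := by
    intro j hj
    rw [hρ]
    split_ifs <;> omega
  have e1 : ω k = η (a + k) - 1 := by rw [hv, if_pos hk]
  have e2 := hp0 k hk
  have key : ∀ j, ((j < k ∧ ω k ≤ ω j) ∨ (k < j ∧ ω k < ω j)) ↔
      ((π j < a + k ∧ η (a + k) ≤ η (π j)) ∨ (a + k < π j ∧ η (a + k) < η (π j))) := by
    intro j
    by_cases h1 : j < t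
    · have e3 : ω j = η (a + j) - 1 := by rw [hv, if_pos h1]
      have e4 := hp0 j h1
      have e5 : π j = a + j := by rw [hπ, if_pos h1]
      rw [e1, e3, e5]
      omega
    · by_cases h2 : j ≤ l
      · have e3 : ω j = η (j - t) := by rw [hv, if_neg h1, if_pos h2]
        have e5 : π j = j - t := by rw [hπ, if_neg h1, if_pos h2]
        rw [e1, e3, e5]
        omega
      · have e3 : ω j = 0 := by rw [hv, if_neg h1, if_neg h2]
        have e5 : π j = j := by rw [hπ, if_neg h1, if_neg h2]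
        have e6 : η j = 0 := h0 j (by omega)
        rw [e1, e3, e5, e6]
        omega
  have hcard : ((range N).filter (fun j => (j < k ∧ ω k ≤ ω j) ∨ (k < j ∧ ω k < ω j))).card =
      ((range N).filter (fun j => (j < a + k ∧ η (a + k) ≤ η j) ∨ (a + k < j ∧ η (a + k) < η j))).card := by
    refine Finset.card_nbij' π ρ ?_ ?_ (fun j _ => hρπ j) (fun j _ => hπρ j)
    · intro j hj
      simp only [Finset.coe_filter, Set.mem_setOf_eq, mem_range, mem_filter] at hj ⊢
      exact ⟨hπN j hj.1, (key j).1 hj.2⟩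
    · intro j hj
      simp only [Finset.coe_filter, Set.mem_setOf_eq, mem_range, mem_filter] at hj ⊢
      refine ⟨hρN j hj.1, (key (ρ j)).2 ?_⟩
      rw [hπρ]
      exact hj.2
  rw [← yv_count_aux N ω k (by omega), ← yv_count_aux N η (a + k) (by omega)] at hcard
  have hcK : (((range k).filter (fun j => ω k ≤ ω j)).card : K) + (((Ioo k N).filter (fun j => ω k < ω j)).card : K)
      = (((range (a + k)).filter (fun j => η (a + k) ≤ η j)).card : K)
        + (((Ioo (a + k) N).filter (fun j => η (a + k) < η j)).card : K) := by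
    exact_mod_cast hcard
  have hcast : ((ω k : ℕ) : K) = (η (a + k) : K) - 1 := by
    rw [e1, Nat.cast_pred (Nat.pos_of_ne_zero e2)]
  unfold yv
  rw [hcast]
  linear_combination -hcK

end JSup
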