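import Pool.Agent.Helper204.JS.Defs
import Pool.Agent.Helper204.JS.Defs1
import Pool.Agent.Helper204.JS.P_yv_swap
import Pool.Agent.Helper204.JS.P_Fp_exchange
import Pool.Agent.Helper204.JS.P_starIter_apply
import Pool.Agent.Helper204.JS.P_yv_starIter
import Pool.Agent.Helper204.JS.P_exch_solve

set_option linter.unusedSectionVars false

open MvPolynomial Finset

noncomputable section

namespace JSup
variable {K : Type} [Field K] [CharZero K] [Par K]



theorem LS_adj_ss (i : ℕ) (η : ℕ →₀ ℕ) :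
    Finsupp.equivMapDomain (Equiv.swap i (i + 1))
      (Finsupp.equivMapDomain (Equiv.swap i (i + 1)) η) = η := by
  ext k
  rw [Finsupp.equivMapDomain_apply, Finsupp.equivMapDomain_apply]
  simp

theorem LS_adj_hi (i k : ℕ) (η : ℕ →₀ ℕ) (h1 : k ≠ i) (h2 : k ≠ i + 1) :
    Finsupp.equivMapDomain (Equiv.swap i (i + 1)) η k = η k := by
  rw [Finsupp.equivMapDomain_apply, Equiv.symm_swap, Equiv.swap_apply_of_ne_of_ne h1 h2]

theorem LS_adj_l (i : ℕ) (η : ℕ →₀ ℕ) :
    Finsupp.equivMapDomain (Equiv.swap i (i + 1)) η i = η (i + 1) := by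
  rw [Finsupp.equivMapDomain_apply, Equiv.symm_swap, Equiv.swap_apply_left]

theorem LS_adj_r (i : ℕ) (η : ℕ →₀ ℕ) :
    Finsupp.equivMapDomain (Equiv.swap i (i + 1)) η (i + 1) = η i := by
  rw [Finsupp.equivMapDomain_apply, Equiv.symm_swap, Equiv.swap_apply_right]

/-- both cases of the exchange relation, coefficients through `d = y_i - y_{i+1}` -/
theorem LS_adj_gt (N i : ℕ) (hi : i + 1 < N) (η : ℕ →₀ ℕ) (hη : ∀ k, N ≤ k → η k = 0)
    (h : η (i + 1) < η i) (d : K) (hd : (yv N η i : K) - yv N η (i + 1) = d) :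
    rename (Equiv.swap i (i + 1)) (Fp N η : MvPolynomial ℕ K)
      = d⁻¹ • Fp N η + ((d - 1) * d⁻¹) •
            Fp N (Finsupp.equivMapDomain (Equiv.swap i (i + 1)) η) := by
  have := (exch_solve (K := K) N i hi η hη h).1
  rw [hd] at this
  exact this

theorem LS_adj_lt (N i : ℕ) (hi : i + 1 < N) (η : ℕ →₀ ℕ) (hη : ∀ k, N ≤ k → η k = 0)
    (h : η i < η (i + 1)) (d : K) (hd : (yv N η (i + 1) : K) - yv N η i = d) :
    rename (Equiv.swap i (i + 1)) (Fp N η : MvPolynomial ℕ K)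
      = (- d⁻¹) • Fp N η + ((d + 1) * d⁻¹) •
            Fp N (Finsupp.equivMapDomain (Equiv.swap i (i + 1)) η) := by
  have hζ : ∀ k, N ≤ k → Finsupp.equivMapDomain (Equiv.swap i (i + 1)) η k = 0 := by
    intro k hk
    rw [LS_adj_hi i k η (by omega) (by omega)]
    exact hη k hk
  have hlt : Finsupp.equivMapDomain (Equiv.swap i (i + 1)) η (i + 1) <
      Finsupp.equivMapDomain (Equiv.swap i (i + 1)) η i := by
    rw [LS_adj_l, LS_adj_r]; exact h
  have h1 := (exch_solve (K := K) N i hi _ hζ hlt).2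
  have h2 := yv_swap (K := K) N i hi _ hlt
  rw [LS_adj_ss] at h1 h2
  rw [← h2.1, ← h2.2.1, hd] at h1
  rw [h1, neg_smul]
  abel

/-- HINT: `ζ = w·η` (block entries of `η` permuted, still distinct and nonzero), `ζ' = (star l)^[m] ζ`. Let
`L = (Phat N l)^m`; `Fp N ζ = L (Fp N ζ')` and the same for `s_{a+i} ζ` and `s_i ζ'` (`Fp_hat_iter`, `starIter_perm`).
`exch_solve` expresses `s_{a+i} F_ζ` through `F_ζ, F_{s ζ}` with coefficients depending only on
`Δ = y_{a+i}(ζ) - y_{a+i+1}(ζ)` (or on that of `s ζ` if `ζ_{a+i} < ζ_{a+i+1}`), and in the same way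
`s_i F_{ζ'}` through `F_{ζ'}, F_{s_i ζ'}` with the same coefficients (`yv_starIter`: differences of `y` agree). -/
theorem LS_adj (N a m l : ℕ) (h : a + m = l + 1) (hl : l < N) (η : ℕ →₀ ℕ)
    (h0 : ∀ k, l < k → η k = 0) (hpos : ∀ k, a ≤ k → k ≤ l → η k ≠ 0)
    (hinj : ∀ i j, a ≤ i → i < j → j < a + m → η i ≠ η j) (i : ℕ) (hi : i + 1 < m) :
    ∃ c1 c2 : K,
      rename (Equiv.swap (a + i) (a + i + 1)) (Fp N η : MvPolynomial ℕ K)
        = c1 • Fp N η + c2 • Fp N (Finsupp.equivMapDomain (Equiv.swap (a + i) (a + i + 1)) η) ∧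
      rename (Equiv.swap i (i + 1)) (Fp N ((star l)^[m] η) : MvPolynomial ℕ K)
        = c1 • Fp N ((star l)^[m] η)
          + c2 • Fp N (Finsupp.equivMapDomain (Equiv.swap i (i + 1)) ((star l)^[m] η)) := by
  have e1 : l + 1 - m = a := by omega
  have hml : m ≤ l + 1 := by omega
  have hηN : ∀ k, N ≤ k → η k = 0 := fun k hk => h0 k (by omega)
  have hη'N : ∀ k, N ≤ k → ((star l)^[m] η) k = 0 := by
    intro k hk
    rw [starIter_apply l m hml η h0 k, if_neg (by omega), if_neg (by omega)]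
  have hval : ∀ k, k < m → ((star l)^[m] η) k = η (a + k) - 1 := by
    intro k hk
    rw [starIter_apply l m hml η h0 k, if_pos hk, e1]
  have hy : ∀ k, k < m → (yv N ((star l)^[m] η) k : K) = yv N η (a + k) - al := by
    intro k hk
    have := yv_starIter (K := K) N l m hl hml η h0 (by rw [e1]; exact hpos) k hk
    rw [e1] at this
    exact this
  have hp1 : η (a + i) ≠ 0 := hpos _ (by omega) (by omega)
  have hp2 : η (a + i + 1) ≠ 0 := hpos _ (by omega) (by omega)
  have hne : η (a + i) ≠ η (a + i + 1) := hinj _ _ (by omega) (by omega) (by omega)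
  have hv1 := hval i (by omega)
  have hv2 := hval (i + 1) hi
  have hy1 := hy i (by omega)
  have hy2 := hy (i + 1) hi
  rw [← add_assoc] at hv2 hy2
  rcases lt_or_gt_of_ne hne with hlt | hgt
  · refine ⟨_, _, LS_adj_lt N (a + i) (by omega) η hηN hlt _ rfl, ?_⟩
    exact LS_adj_lt N i (by omega) _ hη'N (by rw [hv1, hv2]; omega) _ (by rw [hy1, hy2]; ring)
  · refine ⟨_, _, LS_adj_gt N (a + i) (by omega) η hηN hgt _ rfl, ?_⟩
    exact LS_adj_gt N i (by omega) _ hη'N (by rw [hv1, hv2]; omega) _ (by rw [hy1, hy2]; ring)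

end JSup
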