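import Pool.Agent.Helper204.JS.Defs
import Pool.Agent.Helper204.JS.Defs1
import Pool.Agent.Helper204.JS.P_starIter_apply

set_option linter.unusedSectionVars false

open MvPolynomial Finset

noncomputable section

namespace JSup
variable {K : Type} [Field K] [CharZero K] [Par K]



private theorem emb_symm_in' (a m : ℕ) (w : Equiv.Perm (Fin m)) (k : ℕ) (hk : k < m) :
    (emb a m w).symm (a + k) = a + ((w.symm ⟨k, hk⟩ : Fin m) : ℕ) := by
  rw [Equiv.symm_apply_eq, emb_in]
  simp

private theorem emb_symm_out' (a m : ℕ) (w : Equiv.Perm (Fin m)) (k : ℕ) (hk : k < a ∨ a + m ≤ k) :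
    (emb a m w).symm k = k := by
  rw [Equiv.symm_apply_eq, emb_out a m w k hk]

theorem starIter_perm (a m l : ℕ) (h : a + m = l + 1) (η : ℕ →₀ ℕ) (h0 : ∀ k, l < k → η k = 0)
    (w : Equiv.Perm (Fin m)) :
    (star l)^[m] (Finsupp.equivMapDomain (emb a m w) η)
      = Finsupp.equivMapDomain (emb 0 m w) ((star l)^[m] η) := by
  have h0' : ∀ k, l < k → (Finsupp.equivMapDomain (emb a m w) η) k = 0 := by
    intro k hk
    rw [Finsupp.equivMapDomain_apply, emb_symm_out' a m w k (Or.inr (by omega))]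
    exact h0 k hk
  ext k
  rw [starIter_apply l m (by omega) _ h0', Finsupp.equivMapDomain_apply (emb 0 m w)]
  by_cases h1 : k < m
  · have e1 : l + 1 - m + k = a + k := by omega
    rw [if_pos h1, e1, Finsupp.equivMapDomain_apply, emb_symm_in' a m w k h1]
    have e2 : (emb 0 m w).symm k = ((w.symm ⟨k, h1⟩ : Fin m) : ℕ) := by
      have := emb_symm_in' 0 m w k h1
      simpa using this
    rw [e2, starIter_apply l m (by omega) _ h0, if_pos (w.symm ⟨k, h1⟩).2]
    have e3 : l + 1 - m + ((w.symm ⟨k, h1⟩ : Fin m) : ℕ) = a + ((w.symm ⟨k, h1⟩ : Fin m) : ℕ) := by omega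
    rw [e3]
  · rw [if_neg h1, emb_symm_out' 0 m w k (Or.inr (by omega)), starIter_apply l m (by omega) _ h0,
      if_neg h1]
    by_cases h2 : k ≤ l
    · rw [if_pos h2, if_pos h2, Finsupp.equivMapDomain_apply,
        emb_symm_out' a m w (k - m) (Or.inl (by omega))]
    · rw [if_neg h2, if_neg h2]

end JSup
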