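import Pool.Agent.Helper204.JS.Defs
import Pool.Agent.Helper204.JS.Defs1
import Pool.Agent.Helper204.JS.P_starIter_apply
import Pool.Agent.Helper204.JS.P_Fp_hat_iter
import Pool.Agent.Helper204.JS.P_starIter_perm
import Pool.Agent.Helper204.JS.P_LS_adj

set_option linter.unusedSectionVars false

open MvPolynomial Finset

noncomputable section

namespace JSup
variable {K : Type} [Field K] [CharZero K] [Par K]



theorem LS_emb_swap (a m : ℕ) (i : ℕ) (hi : i + 1 < m) :
    emb a m (Equiv.swap ⟨i, by omega⟩ ⟨i + 1, hi⟩) = Equiv.swap (a + i) (a + i + 1) := by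
  ext k
  by_cases hk : k < a ∨ a + m ≤ k
  · rw [emb_out a m _ k hk, Equiv.swap_apply_of_ne_of_ne (by omega) (by omega)]
  · push Not at hk
    obtain ⟨j, rfl⟩ := Nat.exists_eq_add_of_le hk.1
    have hj : j < m := by omega
    have h1 := emb_in a m (Equiv.swap ⟨i, by omega⟩ ⟨i + 1, hi⟩) ⟨j, hj⟩
    simp only at h1
    rw [h1]
    by_cases e1 : j = i
    · subst e1
      rw [Equiv.swap_apply_left, Equiv.swap_apply_left]
      simp only
      omega
    · by_cases e2 : j = i + 1
      · subst e2
        rw [Equiv.swap_apply_right]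
        rw [show a + (i + 1) = a + i + 1 by omega, Equiv.swap_apply_right]
      · rw [Equiv.swap_apply_of_ne_of_ne, Equiv.swap_apply_of_ne_of_ne (by omega) (by omega)]
        · intro hc
          exact e1 (congrArg Fin.val hc)
        · intro hc
          exact e2 (congrArg Fin.val hc)

theorem LS_emb_symm_in (a m : ℕ) (u : Equiv.Perm (Fin m)) (i : Fin m) :
    (emb a m u).symm (a + (i : ℕ)) = a + (u.symm i : ℕ) := by
  rw [Equiv.symm_apply_eq, emb_in, Equiv.apply_symm_apply]

theorem LS_emb_symm_out (a m : ℕ) (u : Equiv.Perm (Fin m)) (k : ℕ) (hk : k < a ∨ a + m ≤ k) :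
    (emb a m u).symm k = k := by
  rw [Equiv.symm_apply_eq, emb_out a m u k hk]

theorem LS_aux (N a m l : ℕ) (h : a + m = l + 1) (hl : l < N) (η : ℕ →₀ ℕ)
    (h0 : ∀ k, l < k → η k = 0) (hpos : ∀ k, a ≤ k → k ≤ l → η k ≠ 0)
    (hinj : ∀ i j, a ≤ i → i < j → j < a + m → η i ≠ η j) (w : Equiv.Perm (Fin m)) :
    ∀ u : Equiv.Perm (Fin m), rename (emb a m w) (Fp N (Finsupp.equivMapDomain (emb a m u) η) : MvPolynomial ℕ K)
      = ((Phat N l : Module.End K (MvPolynomial ℕ K)) ^ m)
        (rename (emb 0 m w) (Fp N (Finsupp.equivMapDomain (emb 0 m u) ((star l)^[m] η)))) := by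
  have hin : ∀ (u : Equiv.Perm (Fin m)) (i : Fin m),
      (Finsupp.equivMapDomain (emb a m u) η) (a + (i : ℕ)) = η (a + (u.symm i : ℕ)) := by
    intro u i
    rw [Finsupp.equivMapDomain_apply, LS_emb_symm_in]
  have hu0 : ∀ (u : Equiv.Perm (Fin m)) k, l < k → (Finsupp.equivMapDomain (emb a m u) η) k = 0 := by
    intro u k hk
    rw [Finsupp.equivMapDomain_apply, LS_emb_symm_out a m u k (Or.inr (by omega))]
    exact h0 k hk
  have hupos : ∀ (u : Equiv.Perm (Fin m)) k, a ≤ k → k ≤ l → (Finsupp.equivMapDomain (emb a m u) η) k ≠ 0 := by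
    intro u k hk1 hk2
    obtain ⟨j, rfl⟩ := Nat.exists_eq_add_of_le hk1
    have hj : j < m := by omega
    have h1 := hin u ⟨j, hj⟩
    simp only at h1
    rw [h1]
    have := (u.symm ⟨j, hj⟩).2
    exact hpos _ (by omega) (by omega)
  have hne : ∀ i j : Fin m, i ≠ j → η (a + (i : ℕ)) ≠ η (a + (j : ℕ)) := by
    intro i j hij
    have hi := i.2
    have hj := j.2
    rcases lt_or_gt_of_ne hij with h1 | h1
    · have h2 : (i : ℕ) < j := h1
      exact hinj _ _ (by omega) (by omega) (by omega)
    · have h2 : (j : ℕ) < i := h1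
      exact (hinj _ _ (by omega) (by omega) (by omega)).symm
  have huinj : ∀ (u : Equiv.Perm (Fin m)) i j, a ≤ i → i < j → j < a + m →
      (Finsupp.equivMapDomain (emb a m u) η) i ≠ (Finsupp.equivMapDomain (emb a m u) η) j := by
    intro u i j hi hij hj
    obtain ⟨i', rfl⟩ := Nat.exists_eq_add_of_le hi
    obtain ⟨j', rfl⟩ := Nat.exists_eq_add_of_le (show a ≤ j by omega)
    have hi' : i' < m := by omega
    have hj' : j' < m := by omega
    have h1 := hin u ⟨i', hi'⟩
    have h2 := hin u ⟨j', hj'⟩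
    simp only at h1 h2
    rw [h1, h2]
    apply hne
    intro hc
    have := u.symm.injective hc
    have := congrArg Fin.val this
    simp only at this
    omega
  rcases m with _ | n
  · intro u
    have hw : w = 1 := Subsingleton.elim _ _
    subst hw
    rw [map_one, map_one]
    have hr : ∀ p : MvPolynomial ℕ K, rename ((1 : Equiv.Perm ℕ) : ℕ → ℕ) p = p := by
      intro p
      exact MvPolynomial.rename_id_apply p
    rw [hr, hr]
    have hit := Fp_hat_iter (K := K) N a 0 l h hl (Finsupp.equivMapDomain (emb a 0 u) η) (hu0 u) (hupos u)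
    rw [hit, starIter_perm a 0 l h η h0 u]
  · have hw : w ∈ Submonoid.closure (Set.range fun i : Fin n => Equiv.swap i.castSucc i.succ) := by
      rw [Equiv.Perm.mclosure_swap_castSucc_succ]
      trivial
    induction hw using Submonoid.closure_induction_right with
    | one =>
      intro u
      rw [map_one, map_one]
      have hr : ∀ p : MvPolynomial ℕ K, rename ((1 : Equiv.Perm ℕ) : ℕ → ℕ) p = p := by
        intro p
        exact MvPolynomial.rename_id_apply p
      rw [hr, hr]
      have hit := Fp_hat_iter (K := K) N a (n + 1) l h hl (Finsupp.equivMapDomain (emb a (n + 1) u) η)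
        (hu0 u) (hupos u)
      rw [hit, starIter_perm a (n + 1) l h η h0 u]
    | mul_right w _ s hs ih =>
      obtain ⟨i, rfl⟩ := hs
      intro u
      have hi : (i : ℕ) + 1 < n + 1 := by have := i.2; omega
      have hsw : Equiv.swap i.castSucc i.succ =
          (Equiv.swap ⟨(i : ℕ), by omega⟩ ⟨(i : ℕ) + 1, hi⟩ : Equiv.Perm (Fin (n + 1))) := rfl
      have hea : emb a (n + 1) (Equiv.swap i.castSucc i.succ) = Equiv.swap (a + i) (a + i + 1) := by
        rw [hsw, LS_emb_swap]
      have he0 : emb 0 (n + 1) (Equiv.swap i.castSucc i.succ) = Equiv.swap (i : ℕ) (i + 1) := by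
        rw [hsw, LS_emb_swap, zero_add]
      obtain ⟨c1, c2, k1, k2⟩ := LS_adj (K := K) N a (n + 1) l h hl
        (Finsupp.equivMapDomain (emb a (n + 1) u) η) (hu0 u) (hupos u) (huinj u) i hi
      rw [starIter_perm a (n + 1) l h η h0 u] at k2
      have t1 : Finsupp.equivMapDomain (Equiv.swap (a + (i:ℕ)) (a + i + 1)) (Finsupp.equivMapDomain (emb a (n + 1) u) η)
          = Finsupp.equivMapDomain (emb a (n + 1) (Equiv.swap i.castSucc i.succ * u)) η := by
        rw [← hea, map_mul, ← Finsupp.equivMapDomain_trans]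
        rfl
      have t2 : Finsupp.equivMapDomain (Equiv.swap (i:ℕ) (i + 1)) (Finsupp.equivMapDomain (emb 0 (n + 1) u) ((star l)^[n + 1] η))
          = Finsupp.equivMapDomain (emb 0 (n + 1) (Equiv.swap i.castSucc i.succ * u)) ((star l)^[n + 1] η) := by
        rw [← he0, map_mul, ← Finsupp.equivMapDomain_trans]
        rfl
      rw [t1] at k1
      rw [t2] at k2
      have r1 : ∀ p : MvPolynomial ℕ K, rename (emb a (n + 1) (w * Equiv.swap i.castSucc i.succ)) p =
          rename (emb a (n + 1) w) (rename (Equiv.swap (a + (i:ℕ)) (a + i + 1)) p) := by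
        intro p
        rw [rename_rename, map_mul, hea]
        rfl
      have r2 : ∀ p : MvPolynomial ℕ K, rename (emb 0 (n + 1) (w * Equiv.swap i.castSucc i.succ)) p =
          rename (emb 0 (n + 1) w) (rename (Equiv.swap (i:ℕ) (i + 1)) p) := by
        intro p
        rw [rename_rename, map_mul, he0]
        rfl
      rw [r1, r2, k1, k2, map_add, map_smul, map_smul, map_add, map_smul, map_smul, map_add, map_smul,
        map_smul, ih, ih]

/-- HINT: prove by induction over the submonoid closure of the adjacent transpositions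
(`Equiv.Perm.mclosure_swap_castSucc_succ`, `Submonoid.closure_induction_right` style) the statement
`Q w : ∀ u : Perm (Fin m), rename (emb a m w) (Fp N (u·η)) = L (rename (emb 0 m w) (Fp N (u·η')))`,
`u·η = equivMapDomain (emb a m u) η`, `η' = (star l)^[m] η`, `u·η' = (star l)^[m] (u·η)` (`starIter_perm`),
`L = (Phat N l)^m`. `Q 1` is `Fp_hat_iter`. `Q w → Q (w s_i)`: `rename (w s_i) F = rename w (s_i F)` and use `LS_adj`
for `u·η` on both sides (linearity). -/
theorem LS (N a m l : ℕ) (h : a + m = l + 1) (hl : l < N) (η : ℕ →₀ ℕ)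
    (h0 : ∀ k, l < k → η k = 0) (hpos : ∀ k, a ≤ k → k ≤ l → η k ≠ 0)
    (hinj : ∀ i j, a ≤ i → i < j → j < a + m → η i ≠ η j) (w : Equiv.Perm (Fin m)) :
    rename (emb a m w) (Fp N η : MvPolynomial ℕ K)
      = ((Phat N l : Module.End K (MvPolynomial ℕ K)) ^ m) (rename (emb 0 m w) (Fp N ((star l)^[m] η))) := by
  have h1 := LS_aux (K := K) N a m l h hl η h0 hpos hinj w 1
  rw [map_one, map_one] at h1
  have e : ∀ z : ℕ →₀ ℕ, Finsupp.equivMapDomain (1 : Equiv.Perm ℕ) z = z := by
    intro z
    ext x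
    rfl
  rw [e, e] at h1
  exact h1

end JSup
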