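import Pool.Agent.Helper204.JS.Defs
import Pool.Agent.Helper204.JS.Defs1
import Pool.Agent.Helper204.JS.P_yv_starIter

set_option linter.unusedSectionVars false

open MvPolynomial Finset

noncomputable section

namespace JSup
variable {K : Type} [Field K] [CharZero K] [Par K]



theorem cB_starIter (N a m l : ℕ) (h : a + m = l + 1) (hl : l < N) (η : ℕ →₀ ℕ)
    (h0 : ∀ k, l < k → η k = 0) (hpos : ∀ k, a ≤ k → k ≤ l → η k ≠ 0) :
    (cB N ((star l)^[m] η) 0 m : K) = cB N η a m := by
  unfold cB
  apply Finset.prod_congr rfl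
  intro p hp
  rw [Finset.mem_filter, Finset.mem_product, Finset.mem_range, Finset.mem_range] at hp
  have ha : l + 1 - m = a := by omega
  have hp' : ∀ k, l + 1 - m ≤ k → k ≤ l → η k ≠ 0 := by rw [ha]; exact hpos
  have e1 : (yv N ((star l)^[m] η) (0 + p.1) : K) = yv N η (a + p.1) - al := by
    rw [Nat.zero_add, yv_starIter N l m hl (by omega) η h0 hp' p.1 hp.1.1, ha]
  have e2 : (yv N ((star l)^[m] η) (0 + p.2) : K) = yv N η (a + p.2) - al := by
    rw [Nat.zero_add, yv_starIter N l m hl (by omega) η h0 hp' p.2 hp.1.2, ha]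
  rw [e1, e2]
  ring

end JSup
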