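import Pool.Agent.Helper204.JS.Defs
import Pool.Agent.Helper204.JS.Defs1
import Pool.Agent.Helper204.JS.P_itg_basic
import Pool.Agent.Helper204.JS.P_itg_ops

set_option linter.unusedSectionVars false

open MvPolynomial Finset

noncomputable section

namespace JSup
variable {K : Type} [Field K] [CharZero K] [Par K]



theorem itg_Phat (N l : ℕ) (f : MvPolynomial ℕ K) (hf : Itg f) : Itg (Phat N l f) := by
  obtain ⟨_, _, _, hadd, _, _, _, hsmul, _, hsum⟩ := itg_basic (K := K)
  obtain ⟨hY, hee, _⟩ := itg_ops (K := K) N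
  rw [Phat_apply]
  have hal : (al : K) ∈ ZA K := Algebra.subset_adjoin (Set.mem_singleton _)
  have hA : ((al : K) + l + 1) ∈ ZA K :=
    Subalgebra.add_mem _ (Subalgebra.add_mem _ hal (natCast_mem _ l)) (one_mem _)
  apply hadd
  · exact hee l _ (hadd _ _ (hY 0 f hf) (hsmul _ f hA hf))
  · exact hsum ℕ _ _ (fun i _ => hee i f hf)

end JSup
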