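import Pool.Agent.Helper204.JS.Defs
import Pool.Agent.Helper204.JS.Defs1
import Pool.Agent.Helper204.JS.P_itg_basic
import Pool.Agent.Helper204.JS.P_antis_conj
import Pool.Agent.Helper204.JS.P_cB_starIter
import Pool.Agent.Helper204.JS.P_itg_Phat
import Pool.Agent.Helper204.JS.P_LS

set_option linter.unusedSectionVars false

open MvPolynomial Finset

noncomputable section

namespace JSup
variable {K : Type} [Field K] [CharZero K] [Par K]



theorem itg_Phat_pow (N l m : ℕ) (f : MvPolynomial ℕ K) (hf : Itg f) :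
    Itg (((Phat N l : Module.End K (MvPolynomial ℕ K)) ^ m) f) := by
  induction m with
  | zero => simpa using hf
  | succ m ih =>
    rw [pow_succ', Module.End.mul_apply]
    exact itg_Phat N l _ ih

/-- HINT: expand `antis a m (Fp N η)` as a sum, use `LS` for every term: it equals `L (antis 0 m (Fp N η'))`,
`L = (Phat N l)^m` linear and integrality preserving (`itg_Phat`), `cB_starIter`. -/
theorem case2a (N a m l : ℕ) (h : a + m = l + 1) (hl : l < N) (η : ℕ →₀ ℕ)
    (h0 : ∀ k, l < k → η k = 0) (hpos : ∀ k, a ≤ k → k ≤ l → η k ≠ 0)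
    (hinj : ∀ i j, a ≤ i → i < j → j < a + m → η i ≠ η j)
    (ih : Itg ((cB N ((star l)^[m] η) 0 m : K)⁻¹ •
      antis 0 m (Fp N ((star l)^[m] η) : MvPolynomial ℕ K))) :
    Itg ((cB N η a m : K)⁻¹ • antis a m (Fp N η : MvPolynomial ℕ K)) := by
  have hA : antis a m (Fp N η : MvPolynomial ℕ K) =
      ((Phat N l : Module.End K (MvPolynomial ℕ K)) ^ m)
        (antis 0 m (Fp N ((star l)^[m] η))) := by
    rw [antis_apply, antis_apply, map_sum]
    apply Finset.sum_congr rfl
    intro w _
    rw [map_smul, LS N a m l h hl η h0 hpos hinj w]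
  rw [hA, ← cB_starIter N a m l h hl η h0 hpos, ← map_smul]
  exact itg_Phat_pow N l m _ ih

end JSup
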