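import Pool.Agent.Helper204.JS.Defs
import Pool.Agent.Helper204.JS.Defs1
import Pool.Agent.Helper204.JS.P_cyc_pow
import Pool.Agent.Helper204.JS.P_ee_iter

set_option linter.unusedSectionVars false

open MvPolynomial Finset

noncomputable section

namespace JSup
variable {K : Type} [Field K] [CharZero K] [Par K]



/-- HINT: `ee_iter`, `cyc_pow`: `(cyc l)^p` maps `l ↦ l - p` (p ≤ l) and fixes `l+1`; the monomial prefactor does not
involve `x_{l-p}, x_{l+1}`. -/
theorem ee_iter_swap (l p : ℕ) (hp : p ≤ l) (g : MvPolynomial ℕ K) :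
    rename (Equiv.swap (l - p) (l + 1)) (((ee l : Module.End K (MvPolynomial ℕ K)) ^ p) g)
      = ((ee l : Module.End K (MvPolynomial ℕ K)) ^ p) (rename (Equiv.swap l (l + 1)) g) := by
  have hp1 : p ≤ l + 1 := by omega
  have e1 : ((cyc l) ^ p : Equiv.Perm ℕ) l = l - p := by
    rw [cyc_pow l p hp1 l, if_neg (by omega), if_pos le_rfl]
  have e2 : ((cyc l) ^ p : Equiv.Perm ℕ) (l + 1) = l + 1 := by
    rw [cyc_pow l p hp1 (l + 1), if_neg (by omega), if_neg (by omega)]
  have e3 : Equiv.swap (l - p) (l + 1) * ((cyc l) ^ p : Equiv.Perm ℕ) =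
      ((cyc l) ^ p : Equiv.Perm ℕ) * Equiv.swap l (l + 1) := by
    rw [Equiv.mul_swap_eq_swap_mul, e1, e2]
  rw [ee_iter l p hp1, ee_iter l p hp1, map_mul, map_prod, rename_rename, rename_rename,
    ← Equiv.Perm.coe_mul, ← Equiv.Perm.coe_mul, e3]
  congr 1
  refine prod_congr rfl fun i hi => ?_
  rw [mem_Ico] at hi
  rw [rename_X, Equiv.swap_apply_of_ne_of_ne (by omega) (by omega)]

end JSup
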