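import Pool.Agent.Helper204.JS.Defs
import Pool.Agent.Helper204.JS.Defs1
import Pool.Agent.Helper204.JS.P_swap_ee_succ
import Pool.Agent.Helper204.JS.P_swap_ee_lt
import Pool.Agent.Helper204.JS.P_antis_swap
import Pool.Agent.Helper204.JS.P_ee_iter_swap

set_option linter.unusedSectionVars false

open MvPolynomial Finset

noncomputable section

namespace JSup
variable {K : Type} [Field K] [CharZero K] [Par K]



/-- HINT: `Psi N l A h = (A+l+1) e_l h + e_{l+1} h + Σ_{k>l+1} e_k h`. With `E = (ee l)^p`, by `ee_iter_swap`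
`E (e_{l+1} h) = E (s_{l,l+1} e_l h) = s_{(l-p,l+1)} E e_l h` (`swap_ee_succ`), so `antis` of it is minus that of
`E e_l h = (ee l)^(p+1) h`; for `k > l+1`: `s_{l,l+1} (e_k h) = e_k (s_{l+1,l+2} h) = e_k h` (`swap_ee_lt`, `h` symmetric
in positions `> l`), so `E e_k h` is invariant under `swap (l-p) (l+1)` and is killed (`antis_swap`). Here `l-p` and
`l+1` both lie in the block `[a, a+m+1) = [a, l+2)` since `p < m`, `a + m = l + 1`. -/
theorem antis_ee_Psi (N a m l p : ℕ) (h : a + m = l + 1) (hp : p < m) (hN : l + 1 < N) (A : K)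
    (f : MvPolynomial ℕ K) (hf : SymOn (l + 1) N f) :
    antis a (m + 1) (((ee l : Module.End K (MvPolynomial ℕ K)) ^ p) (Psi N l A f))
      = (A + l) • antis a (m + 1) (((ee l : Module.End K (MvPolynomial ℕ K)) ^ (p + 1)) f) := by
  have hpl : p ≤ l := by omega
  have hi : a ≤ l - p := by omega
  have hij : l - p < l + 1 := by omega
  have hj : l + 1 < a + (m + 1) := by omega
  set E : Module.End K (MvPolynomial ℕ K) := (ee l : Module.End K (MvPolynomial ℕ K)) ^ p with hE
  have hpow : ((ee l : Module.End K (MvPolynomial ℕ K)) ^ (p + 1)) f = E (ee l f) := by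
    rw [pow_succ]; rfl
  have h1 : antis a (m + 1) (E (ee (l + 1) f)) = - antis a (m + 1) (E (ee l f)) := by
    rw [← swap_ee_succ, hE, ← ee_iter_swap l p hpl]
    exact (antis_swap a (m + 1) (l - p) (l + 1) hi hij hj _).2.1
  have h2 : ∀ k ∈ Ioo (l + 1) N, antis a (m + 1) (E (ee k f)) = 0 := by
    intro k hk
    rw [mem_Ioo] at hk
    have hs : rename (Equiv.swap (l + 1) (l + 2)) f = f := by
      refine hf _ fun k' hk' => ?_
      refine Equiv.swap_apply_of_ne_of_ne ?_ ?_ <;> omega
    have h3 : rename (Equiv.swap l (l + 1)) (ee k f) = ee k f := by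
      rw [swap_ee_lt l k hk.1, hs]
    refine (antis_swap a (m + 1) (l - p) (l + 1) hi hij hj _).2.2 ?_
    rw [hE, ee_iter_swap l p hpl, h3]
  have h4 : Ioo l N = insert (l + 1) (Ioo (l + 1) N) := by
    ext x
    simp only [mem_Ioo, mem_insert]
    omega
  have h5 : (l + 1) ∉ Ioo (l + 1) N := by simp
  rw [hpow, Psi_apply, h4, sum_insert h5, map_add, map_add, map_add, map_add, h1, map_smul, map_smul,
    map_sum, map_sum, sum_eq_zero h2, add_zero]
  rw [← sub_eq_add_neg]
  nth_rewrite 2 [← one_smul K (antis a (m + 1) (E (ee l f)))]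
  rw [← sub_smul]
  congr 1
  ring
end JSup
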