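import Pool.Agent.Helper204.JS.Defs
import Pool.Agent.Helper204.JS.Defs1
import Pool.Agent.Helper204.JS.P_starIter_apply

set_option linter.unusedSectionVars false

open MvPolynomial Finset

noncomputable section

namespace JSup
variable {K : Type} [Field K] [CharZero K] [Par K]



theorem kapsi_card (N l t : ℕ) (hl : l < N) (ht : t ≤ l) (η : ℕ → ℕ) (ζ : ℕ → ℕ)
    (h0 : ∀ k, l < k → η k = 0) (hp : η (l - t) ≠ 0)
    (hζ : ∀ k, ζ k = if k < t then η (l + 1 - t + k) - 1 else if k ≤ l then η (k - t) else 0) :
    ((range l).filter (fun j => ζ l ≤ ζ j)).card =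
      ((range (l - t)).filter (fun j => η (l - t) ≤ η j)).card +
      ((Ioo (l - t) N).filter (fun j => η (l - t) < η j)).card := by
  have hζl : ζ l = η (l - t) := by
    rw [hζ, if_neg (by omega), if_pos le_rfl]
  have hlt : ∀ j, j < t → ζ j = η (l + 1 - t + j) - 1 := fun j hj => by rw [hζ, if_pos hj]
  have hge : ∀ j, t ≤ j → j < l → ζ j = η (j - t) := fun j hj hjl => by
    rw [hζ, if_neg (by omega), if_pos hjl.le]
  rw [← Finset.card_union_of_disjoint]
  · refine Finset.card_nbij' (fun j => if j < t then l + 1 - t + j else j - t)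
      (fun k => if k < l - t then k + t else k - (l + 1 - t)) ?_ ?_ ?_ ?_
    · intro j hj
      simp only [Finset.coe_filter, Finset.mem_range, Set.mem_ofPred_eq] at hj
      obtain ⟨hj1, hj2⟩ := hj
      simp only [Finset.coe_union, Finset.coe_filter, Finset.mem_range, Finset.mem_Ioo,
        Set.mem_union, Set.mem_ofPred_eq]
      by_cases h : j < t
      · rw [if_pos h]
        rw [hζl, hlt j h] at hj2
        right
        omega
      · rw [if_neg h]
        rw [hζl, hge j (by omega) hj1] at hj2
        left
        omega
    · intro k hk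
      simp only [Finset.coe_union, Finset.coe_filter, Finset.mem_range, Finset.mem_Ioo,
        Set.mem_union, Set.mem_ofPred_eq] at hk
      simp only [Finset.coe_filter, Finset.mem_range, Set.mem_ofPred_eq]
      rcases hk with ⟨h1, h2⟩ | ⟨⟨h1, h1'⟩, h2⟩
      · rw [if_pos h1]
        refine ⟨by omega, ?_⟩
        rw [hζl, hge _ (by omega) (by omega), Nat.add_sub_cancel]
        exact h2
      · rw [if_neg (by omega)]
        have hkl : k ≤ l := by
          by_contra hkl
          rw [h0 k (by omega)] at h2
          omega
        refine ⟨by omega, ?_⟩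
        rw [hζl, hlt _ (by omega)]
        have e : l + 1 - t + (k - (l + 1 - t)) = k := by omega
        rw [e]
        omega
    · intro j hj
      simp only [Finset.coe_filter, Finset.mem_range, Set.mem_ofPred_eq] at hj
      simp only
      by_cases h : j < t
      · rw [if_pos h, if_neg (by omega)]
        omega
      · rw [if_neg h, if_pos (by omega)]
        omega
    · intro k hk
      simp only [Finset.coe_union, Finset.coe_filter, Finset.mem_range, Finset.mem_Ioo,
        Set.mem_union, Set.mem_ofPred_eq] at hk
      simp only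
      rcases hk with ⟨h1, h2⟩ | ⟨⟨h1, h1'⟩, h2⟩
      · have e1 : (if k < l - t then k + t else k - (l + 1 - t)) = k + t := if_pos h1
        rw [e1, if_neg (by omega)]
        omega
      · have hkl : k ≤ l := by
          by_contra hkl
          rw [h0 k (by omega)] at h2
          omega
        have e1 : (if k < l - t then k + t else k - (l + 1 - t)) = k - (l + 1 - t) :=
          if_neg (by omega)
        rw [e1, if_pos (by omega)]
        omega
  · rw [Finset.disjoint_left]
    intro k hk hk'
    rw [Finset.mem_filter, Finset.mem_range] at hk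
    rw [Finset.mem_filter, Finset.mem_Ioo] at hk'
    omega

/-- HINT: counting, `starIter_apply`. -/
theorem kap_starIter (N l t : ℕ) (hl : l < N) (ht : t ≤ l) (η : ℕ →₀ ℕ) (h0 : ∀ k, l < k → η k = 0)
    (hpos : ∀ k, l - t ≤ k → k ≤ l → η k ≠ 0) :
    (kap l ((star l)^[t] η) : K) = yv N η (l - t) := by
  have hζ := starIter_apply l t (by omega) η h0
  have h1 := kapsi_card N l t hl ht η ((star l)^[t] η) h0 (hpos (l - t) le_rfl (by omega)) hζ
  have h2 : ((star l)^[t] η) l = η (l - t) := by
    rw [hζ, if_neg (by omega), if_pos le_rfl]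
  unfold kap yv
  rw [h1, h2]
  push_cast
  ring

end JSup
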