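import Pool.Agent.Helper204.JS.Defs
import Pool.Agent.Helper204.JS.Defs1
import Pool.Agent.Helper204.JS.P_Fp_sym
import Pool.Agent.Helper204.JS.P_antis_ee_Psi
import Pool.Agent.Helper204.JS.P_starIter_apply
import Pool.Agent.Helper204.JS.P_kap_starIter

set_option linter.unusedSectionVars false

open MvPolynomial Finset

noncomputable section

namespace JSup
variable {K : Type} [Field K] [CharZero K] [Par K]



theorem antis_Fp_zero (N a m l : ℕ) (h : a + m = l + 1) (hN : l + 1 < N) (η : ℕ →₀ ℕ)
    (h0 : ∀ k, l < k → η k = 0) (hpos : ∀ k, a ≤ k → k ≤ l → η k ≠ 0) :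
    antis a (m + 1) (Fp N η : MvPolynomial ℕ K)
      = (∏ t ∈ range m, ((yv N η (l - t) : K) + l)) •
        antis a (m + 1) (((ee l : Module.End K (MvPolynomial ℕ K)) ^ m) (Fp N ((star l)^[m] η))) := by
  have key : ∀ p, p ≤ m → antis a (m + 1) (Fp N η : MvPolynomial ℕ K)
      = (∏ t ∈ range p, ((yv N η (l - t) : K) + l)) •
        antis a (m + 1) (((ee l : Module.End K (MvPolynomial ℕ K)) ^ p)
          (Fp N ((star l)^[p] η))) := by
    intro p
    induction p with
    | zero =>
      intro _
      rw [Finset.range_zero, Finset.prod_empty, one_smul, pow_zero, Module.End.one_apply]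
      rfl
    | succ p ih =>
      intro hp
      obtain ⟨ζ, hζ⟩ : ∃ ζ, ζ = (star l)^[p] η := ⟨_, rfl⟩
      have hζk : ∀ k, ζ k = if k < p then η (l + 1 - p + k) - 1 else if k ≤ l then η (k - p) else 0 := by
        intro k
        rw [hζ]
        exact starIter_apply l p (by omega) η h0 k
      have hζl : ζ l ≠ 0 := by
        rw [hζk, if_neg (by omega), if_pos le_rfl]
        exact hpos (l - p) (by omega) (by omega)
      have hζ0 : ∀ k, l < k → ζ k = 0 := by
        intro k hk
        rw [hζk, if_neg (by omega), if_neg (by omega)]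
      have hkap : (kap l ζ : K) = yv N η (l - p) := by
        rw [hζ]
        exact kap_starIter N l p (by omega) (by omega) η h0
          (fun k hk1 hk2 => hpos k (by omega) hk2)
      have hstep := Fp_step (K := K) N l ζ hζl hζ0
      have hsym : SymOn (l + 1) N (Fp N (star l ζ) : MvPolynomial ℕ K) := by
        apply Fp_sym
        intro k hk
        rw [star_apply, if_neg (by omega), if_neg (by omega)]
      have hanti := antis_ee_Psi (K := K) N a m l p h (by omega) hN (kap l ζ) (Fp N (star l ζ)) hsym
      rw [ih (by omega), ← hζ, hstep, hanti, hkap, Finset.prod_range_succ, smul_smul,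
        Function.iterate_succ_apply', ← hζ]
  exact key m le_rfl

end JSup
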