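import Pool.Agent.Helper204.JS.Defs
import Pool.Agent.Helper204.JS.Defs1
import Pool.Agent.Helper204.JS.P_antis_conj
import Pool.Agent.Helper204.JS.P_antis_mul
import Pool.Agent.Helper204.JS.P_cyc_pow
import Pool.Agent.Helper204.JS.P_ee_iter

set_option linter.unusedSectionVars false

open MvPolynomial Finset

noncomputable section

namespace JSup
variable {K : Type} [Field K] [CharZero K] [Par K]



/-- HINT: `ee_iter`, `cyc_pow` (`(cyc l)^m (0+k) = a+k` for `k<m` as `l+1-m = a`), `antis_conj`, and `antis_mul`: the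
prefactor is `∏_{i ∈ [a, a+m)} x_i`, invariant under `emb a m w`. -/
theorem antis_ee_iter (a m l : ℕ) (h : a + m = l + 1) (f : MvPolynomial ℕ K) :
    antis a m (((ee l : Module.End K (MvPolynomial ℕ K)) ^ m) f)
      = ((ee l : Module.End K (MvPolynomial ℕ K)) ^ m) (antis 0 m f) := by
  have hm : m ≤ l + 1 := by omega
  have ha : l + 1 - m = a := by omega
  rw [ee_iter l m hm, ee_iter l m hm, antis_mul]
  · congr 1
    rw [antis_conj 0 a m ((cyc l) ^ m)]
    intro i hi
    rw [cyc_pow l m hm, if_pos (by omega), ha, Nat.zero_add]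
  · intro w
    rw [map_prod]
    simp only [rename_X]
    have hIco : Ico (l + 1 - m) (l + 1) = Ico a (a + m) := by rw [ha, h]
    rw [hIco]
    refine Finset.prod_equiv (emb a m w) ?_ ?_
    · intro i
      by_cases hi : a ≤ i ∧ i < a + m
      · obtain ⟨j, hj⟩ : ∃ j : Fin m, i = a + (j : ℕ) := ⟨⟨i - a, by omega⟩, by simp; omega⟩
        rw [hj, emb_in, Finset.mem_Ico, Finset.mem_Ico]
        have := (w j).2
        have := j.2
        constructor <;> intro _ <;> omega
      · rw [emb_out a m w i (by omega)]
    · intro i _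
      rfl

end JSup
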