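import Pool.Agent.Helper204.JS.Defs
import Pool.Agent.Helper204.JS.Defs1

set_option linter.unusedSectionVars false

open MvPolynomial Finset

noncomputable section

namespace JSup
variable {K : Type} [Field K] [CharZero K] [Par K]



/-- the coset decomposition with respect to the last element -/
def cosP (m : ℕ) : Option (Fin m) × Equiv.Perm (Fin m) ≃ Equiv.Perm (Fin (m + 1)) :=
  Equiv.Perm.decomposeOption.symm.trans (finSuccEquivLast (n := m)).permCongr.symm

theorem cosP_apply (m : ℕ) (o : Option (Fin m)) (u : Equiv.Perm (Fin m)) (j : Fin (m + 1)) :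
    cosP m (o, u) j = finSuccEquivLast.symm
      (Equiv.swap none o (Equiv.optionCongr u (finSuccEquivLast j))) := by
  simp [cosP, Equiv.permCongr_symm]

theorem cosP_sign_none (m : ℕ) (u : Equiv.Perm (Fin m)) :
    Equiv.Perm.sign (cosP m (none, u)) = Equiv.Perm.sign u := by
  simp [cosP, Equiv.permCongr_symm]

theorem cosP_sign_some (m : ℕ) (i : Fin m) (u : Equiv.Perm (Fin m)) :
    Equiv.Perm.sign (cosP m (some i, u)) = - Equiv.Perm.sign u := by
  simp [cosP, Equiv.permCongr_symm, Equiv.Perm.sign_swap]

theorem emb_cosP_none (a m : ℕ) (u : Equiv.Perm (Fin m)) :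
    emb a (m + 1) (cosP m (none, u)) = emb a m u := by
  ext k
  by_cases hk : k < a ∨ a + (m + 1) ≤ k
  · rw [emb_out a (m + 1) _ k hk, emb_out a m _ k (by omega)]
  · push Not at hk
    obtain ⟨j, rfl⟩ : ∃ j : Fin (m + 1), k = a + (j : ℕ) :=
      ⟨⟨k - a, by omega⟩, by simp only; omega⟩
    rw [emb_in, cosP_apply]
    induction j using Fin.lastCases with
    | last =>
      rw [emb_out a m _ _ (by right; simp)]
      simp
    | cast j =>
      have := emb_in a m u j
      simp only [Fin.val_castSucc]
      rw [this]
      simp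

theorem emb_cosP_some (a m : ℕ) (i : Fin m) (u : Equiv.Perm (Fin m)) :
    emb a (m + 1) (cosP m (some i, u)) = Equiv.swap (a + (i : ℕ)) (a + m) * emb a m u := by
  ext k
  rw [Equiv.Perm.mul_apply]
  by_cases hk : k < a ∨ a + (m + 1) ≤ k
  · rw [emb_out a (m + 1) _ k hk, emb_out a m _ k (by omega), Equiv.swap_apply_of_ne_of_ne]
    · have := i.2; omega
    · omega
  · push Not at hk
    obtain ⟨j, rfl⟩ : ∃ j : Fin (m + 1), k = a + (j : ℕ) :=
      ⟨⟨k - a, by omega⟩, by simp only; omega⟩
    rw [emb_in, cosP_apply]
    induction j using Fin.lastCases with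
    | last =>
      rw [emb_out a m _ _ (by right; simp)]
      simp
    | cast j =>
      have h := emb_in a m u j
      simp only [Fin.val_castSucc]
      rw [h, finSuccEquivLast_castSucc, Equiv.optionCongr_apply, Option.map_some]
      by_cases hij : u j = i
      · rw [hij, Equiv.swap_apply_right, Equiv.swap_apply_left]
        simp
      · rw [Equiv.swap_apply_of_ne_of_ne (by simp) (by simpa using hij),
          Equiv.swap_apply_of_ne_of_ne]
        · simp
        · intro h'
          apply hij
          apply Fin.ext
          omega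
        · have := (u j).2
          omega

theorem antis_succ (a m : ℕ) (f : MvPolynomial ℕ K) :
    antis a (m + 1) f = antis a m f - ∑ i ∈ range m, rename (Equiv.swap (a + i) (a + m)) (antis a m f) := by
  rw [antis_apply a (m + 1), ← Equiv.sum_comp (cosP m), Fintype.sum_prod_type, Fintype.sum_option,
    sub_eq_add_neg, Finset.sum_range, ← Finset.sum_neg_distrib]
  congr 1
  · rw [antis_apply]
    refine Finset.sum_congr rfl fun u _ => ?_
    rw [emb_cosP_none, cosP_sign_none]
  · refine Finset.sum_congr rfl fun i _ => ?_
    rw [antis_apply, map_sum, ← Finset.sum_neg_distrib]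
    refine Finset.sum_congr rfl fun u _ => ?_
    rw [emb_cosP_some, cosP_sign_some, map_smul, rename_rename, Equiv.Perm.coe_mul]
    push_cast
    rw [neg_smul]

end JSup
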