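import Pool.Agent.Helper204.JS.Defs
import Pool.Agent.Helper204.JS.Defs1

set_option linter.unusedSectionVars false

open MvPolynomial Finset

noncomputable section

namespace JSup
variable {K : Type} [Field K] [CharZero K] [Par K]



theorem aux_cB_prod {K : Type} [Field K] (n : ℕ) (f : ℕ → ℕ → K) :
    ∏ p ∈ (range n ×ˢ range n).filter (fun p => p.1 < p.2), f p.1 p.2 =
      ∏ j ∈ range n, ∏ i ∈ range j, f i j := by
  rw [Finset.prod_filter, Finset.prod_product_right]
  refine Finset.prod_congr rfl fun j hj => ?_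
  rw [← Finset.prod_filter]
  refine Finset.prod_congr ?_ fun i _ => rfl
  ext i
  simp only [mem_filter, mem_range] at hj ⊢
  omega

/-- HINT: for the block `[a,a+m]` with last entry `0`, zeros after it: `y_{a+m}(η) = -(a+m)`; so
`c_{m+1} = c_m · ∏_{i<m} (1 - y_{a+i} - (a+m))` (split the product over pairs). -/
theorem cB_succ (N a m : ℕ) (hN : a + m < N) (η : ℕ →₀ ℕ) (h0 : ∀ k, a + m ≤ k → η k = 0) :
    (cB N η a (m + 1) : K) = cB N η a m * ∏ i ∈ range m, (1 - yv N η (a + i) - ((a + m : ℕ) : K)) := by
  have hy : (yv N η (a + m) : K) = - ((a + m : ℕ) : K) := by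
    unfold yv
    have h1 : (range (a + m)).filter (fun j => η (a + m) ≤ η j) = range (a + m) := by
      apply Finset.filter_true_of_mem
      intro j _
      rw [h0 _ le_rfl]
      exact Nat.zero_le _
    have h2 : (Ioo (a + m) N).filter (fun j => η (a + m) < η j) = ∅ := by
      apply Finset.filter_false_of_mem
      intro j hj
      rw [mem_Ioo] at hj
      rw [h0 j hj.1.le]
      exact Nat.not_lt_zero _
    rw [h1, h2, h0 _ le_rfl]
    simp
  have hc : ∀ n, (cB N η a n : K) = ∏ j ∈ range n, ∏ i ∈ range j,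
      (1 - yv N η (a + i) + yv N η (a + j)) := by
    intro n
    unfold cB
    exact aux_cB_prod n (fun i j => 1 - yv N η (a + i) + yv N η (a + j))
  rw [hc, hc, Finset.prod_range_succ, hy]
  simp only [sub_eq_add_neg]

end JSup
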