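import Pool.Agent.Helper204.JS.Defs
import Pool.Agent.Helper204.JS.Defs1
import Pool.Agent.Helper204.JS.P_itg_basic
import Pool.Agent.Helper204.JS.P_itg_ops
import Pool.Agent.Helper204.JS.P_antis_succ
import Pool.Agent.Helper204.JS.P_antis_ee_iter
import Pool.Agent.Helper204.JS.P_cB_starIter
import Pool.Agent.Helper204.JS.P_cB_succ
import Pool.Agent.Helper204.JS.P_antis_Fp_zero

set_option linter.unusedSectionVars false

open MvPolynomial Finset

noncomputable section

namespace JSup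
variable {K : Type} [Field K] [CharZero K] [Par K]



theorem case2b_iter (l m : ℕ) (g : MvPolynomial ℕ K) (hg : Itg g) :
    Itg (((ee l : Module.End K (MvPolynomial ℕ K)) ^ m) g) := by
  induction m generalizing g with
  | zero => simpa using hg
  | succ m ih =>
    rw [pow_succ, Module.End.mul_apply]
    exact ih _ ((itg_ops 0).2.1 l g hg)

theorem case2b_prod (N a m l : ℕ) (h : a + m = l + 1) (η : ℕ →₀ ℕ) :
    ∏ t ∈ range m, ((yv N η (l - t) : K) + l)
      = (-1) ^ m * ∏ i ∈ range m, (1 - yv N η (a + i) - ((a + m : ℕ) : K)) := by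
  rw [← Finset.prod_range_reflect (fun i => 1 - (yv N η (a + i) : K) - ((a + m : ℕ) : K)) m]
  have e : (-1 : K) ^ m = ∏ _t ∈ range m, (-1 : K) := by simp
  rw [e, ← Finset.prod_mul_distrib]
  apply Finset.prod_congr rfl
  intro t ht
  rw [Finset.mem_range] at ht
  have e1 : a + (m - 1 - t) = l - t := by omega
  rw [e1, h]
  push_cast
  ring

/-- HINT: `antis_Fp_zero`; by `antis_succ` and `antis_ee_iter`,
`antis a (m+1) (E f) = E (antis 0 m f) - Σ_{i<m} s_{a+i,a+m} (E (antis 0 m f))` with `E = (ee l)^m`,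
`f = Fp N ((star l)^[m] η)`; and `cB N η a (m+1) = cB N η a m · ∏_{i<m} (1 - y_{a+i} - (a+m))` (`cB_succ`),
`cB N η a m = cB N ((star l)^[m] η) 0 m` (`cB_starIter`), where
`∏_{t<m} (y_{l-t} + l) = (-1)^m ∏_{i<m} (1 - y_{a+i} - (a+m))` (reverse the product, `a + m = l + 1`). So the whole
is `± (E g - Σ s (E g))` with `g = c⁻¹ • antis 0 m f` integral by `ih` (the product is nonzero unless the
statement is trivially true: if it vanishes then `cB⁻¹ = 0`). -/
theorem case2b (N a m l : ℕ) (h : a + m = l + 1) (hN : l + 1 < N) (η : ℕ →₀ ℕ)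
    (h0 : ∀ k, l < k → η k = 0) (hpos : ∀ k, a ≤ k → k ≤ l → η k ≠ 0)
    (ih : Itg ((cB N ((star l)^[m] η) 0 m : K)⁻¹ •
      antis 0 m (Fp N ((star l)^[m] η) : MvPolynomial ℕ K))) :
    Itg ((cB N η a (m + 1) : K)⁻¹ • antis a (m + 1) (Fp N η : MvPolynomial ℕ K)) := by
  obtain ⟨i0, i1, iX, iadd, isub, ineg, imul, ismul, iren, isum⟩ := itg_basic (K := K)
  rw [cB_starIter N a m l h (by omega) η h0 hpos] at ih
  rw [antis_Fp_zero N a m l h hN η h0 hpos, antis_succ, antis_ee_iter a m l h,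
    cB_succ N a m (by omega) η (fun k hk => h0 k (by omega)), case2b_prod N a m l h η]
  by_cases hP : (∏ i ∈ range m, (1 - (yv N η (a + i) : K) - ((a + m : ℕ) : K))) = 0
  · rw [hP, mul_zero, inv_zero, zero_smul]
    exact i0
  · have hI := case2b_iter l m _ ih
    have hJ := isub _ _ hI (isum ℕ (range m) (fun i => rename (Equiv.swap (a + i) (a + m))
      (((ee l : Module.End K (MvPolynomial ℕ K)) ^ m) ((cB N η a m : K)⁻¹ •
      antis 0 m (Fp N ((star l)^[m] η) : MvPolynomial ℕ K)))) (fun i _ => iren _ _ hI))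
    have hm : ((-1 : K)) ^ m ∈ ZA K := (ZA K).pow_mem ((ZA K).neg_mem (ZA K).one_mem) m
    have hL := ismul _ _ hm hJ
    have e : ((cB N η a m * ∏ i ∈ range m, (1 - (yv N η (a + i) : K) - ((a + m : ℕ) : K))) : K)⁻¹ *
        ((-1) ^ m * ∏ i ∈ range m, (1 - (yv N η (a + i) : K) - ((a + m : ℕ) : K)))
        = (-1) ^ m * (cB N η a m)⁻¹ := by
      rw [mul_inv]
      field_simp
    rw [smul_smul, e, mul_smul, smul_sub, Finset.smul_sum]
    simp only [map_smul] at hL
    exact hL

end JSup
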