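import Pool.Agent.Helper204.JS.Defs
import Pool.Agent.Helper204.JS.P_itg_basic
import Pool.Agent.Helper204.JS.P_itg_ops

set_option linter.unusedSectionVars false

open MvPolynomial Finset

noncomputable section

namespace JSup
variable {K : Type} [Field K] [CharZero K] [Par K]


theorem itg_Fp (N : ℕ) (η : ℕ →₀ ℕ) : Itg (Fp N η : MvPolynomial ℕ K) := by
  induction η using comp_induction with
  | h0 => rw [Fp_zero]; exact (itg_basic (K := K)).2.1
  | hs l η hl h0 ih =>
    rw [Fp_step N l η hl h0]
    exact (itg_ops (K := K) N).2.2.1 l _ _ ((itg_ops (K := K) N).2.2.2.2.2.1 l η) ih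

end JSup
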