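import Pool.Agent.Helper204.JS.Defs
import Pool.Agent.Helper204.JS.Defs1
import Pool.Agent.Helper204.JS.P_yv_swap
import Pool.Agent.Helper204.JS.P_Fp_exchange
import Pool.Agent.Helper204.JS.P_antis_swap
import Pool.Agent.Helper204.JS.P_cB_ne

set_option linter.unusedSectionVars false

open MvPolynomial Finset

noncomputable section

namespace JSup
variable {K : Type} [Field K] [CharZero K] [Par K]



theorem h400_prod (m i : ℕ) (hi : i + 1 < m) (G : ℕ → ℕ → K) :
    ∏ p ∈ ((range m ×ˢ range m).filter (fun p => p.1 < p.2)).erase (i, i + 1),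
      G (Equiv.swap i (i + 1) p.1) (Equiv.swap i (i + 1) p.2)
    = ∏ p ∈ ((range m ×ˢ range m).filter (fun p => p.1 < p.2)).erase (i, i + 1), G p.1 p.2 := by
  have key : ∀ p ∈ ((range m ×ˢ range m).filter (fun p : ℕ × ℕ => p.1 < p.2)).erase (i, i + 1),
      (Equiv.swap i (i + 1) p.1, Equiv.swap i (i + 1) p.2) ∈
        ((range m ×ˢ range m).filter (fun p => p.1 < p.2)).erase (i, i + 1) := by
    rintro ⟨j, k⟩ hp
    simp only [mem_erase, mem_filter, mem_product, mem_range, ne_eq, Prod.mk.injEq] at hp ⊢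
    obtain ⟨hne, ⟨hj, hk⟩, hjk⟩ := hp
    rw [Equiv.swap_apply_def, Equiv.swap_apply_def]
    split_ifs <;> omega
  refine Finset.prod_nbij' (fun p => (Equiv.swap i (i + 1) p.1, Equiv.swap i (i + 1) p.2))
    (fun p => (Equiv.swap i (i + 1) p.1, Equiv.swap i (i + 1) p.2)) key key ?_ ?_ ?_
  · intro p _
    simp
  · intro p _
    simp
  · intro p _
    rfl

theorem h400_oa_lt (N a m i : ℕ) (hN : a + m ≤ N) (η : ℕ →₀ ℕ) (hη : ∀ k, N ≤ k → η k = 0)
    (hi : i + 1 < m) (hlt : η (a + i + 1) < η (a + i)) :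
    (cB N (Finsupp.equivMapDomain (Equiv.swap (a + i) (a + i + 1)) η) a m : K)⁻¹ •
        antis a m (Fp N (Finsupp.equivMapDomain (Equiv.swap (a + i) (a + i + 1)) η))
      = (cB N η a m : K)⁻¹ • antis a m (Fp N η : MvPolynomial ℕ K) := by
  obtain ⟨hy1, hy2, hy3, hne0, hne1, hne2⟩ := yv_swap (K := K) N (a + i) (by omega) η hlt
  have hex := Fp_exchange (K := K) N (a + i) (by omega) η hη hlt
  obtain ⟨-, hs2, -⟩ := antis_swap a m (a + i) (a + i + 1) (by omega) (by omega) (by omega)
    (Fp N (Finsupp.equivMapDomain (Equiv.swap (a + i) (a + i + 1)) η) : MvPolynomial ℕ K)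
  have hA := congrArg (antis a m) hex
  rw [map_smul, map_add, map_smul, hs2] at hA
  -- the product identity
  have hYs : ∀ j, j < m → (yv N (Finsupp.equivMapDomain (Equiv.swap (a + i) (a + i + 1)) η) (a + j)
      : K) = yv N η (a + Equiv.swap i (i + 1) j) := by
    intro j hj
    rw [Equiv.swap_apply_def]
    split_ifs with h1 h2
    · rw [h1, hy1]; rfl
    · rw [h2]
      exact hy2
    · exact hy3 (a + j) (by omega) (by omega) (by omega)
  have hmem : (i, i + 1) ∈ (range m ×ˢ range m).filter (fun p : ℕ × ℕ => p.1 < p.2) := by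
    simp only [mem_filter, mem_product, mem_range]
    omega
  have hcη : (cB N η a m : K) = (1 - ((yv N η (a + i) : K) - yv N η (a + i + 1))) *
      ∏ p ∈ ((range m ×ˢ range m).filter (fun p => p.1 < p.2)).erase (i, i + 1),
        (1 - (yv N η (a + p.1) : K) + yv N η (a + p.2)) := by
    unfold cB
    rw [← Finset.mul_prod_erase _ _ hmem]
    congr 1
    have : a + (i + 1) = a + i + 1 := by omega
    show (1 - (yv N η (a + i) : K) + yv N η (a + (i + 1))) = _
    rw [this]
    ring
  have hcη' : (cB N (Finsupp.equivMapDomain (Equiv.swap (a + i) (a + i + 1)) η) a m : K) =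
      ((yv N η (a + i) : K) - yv N η (a + i + 1) + 1) *
      ∏ p ∈ ((range m ×ˢ range m).filter (fun p => p.1 < p.2)).erase (i, i + 1),
        (1 - (yv N η (a + p.1) : K) + yv N η (a + p.2)) := by
    rw [← h400_prod m i hi (fun j k => 1 - (yv N η (a + j) : K) + yv N η (a + k))]
    unfold cB
    rw [← Finset.mul_prod_erase _ _ hmem]
    congr 1
    · show (1 - (yv N (Finsupp.equivMapDomain (Equiv.swap (a + i) (a + i + 1)) η) (a + i) : K) +
        yv N (Finsupp.equivMapDomain (Equiv.swap (a + i) (a + i + 1)) η) (a + i + 1)) = _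
      rw [hy1, hy2]
      ring
    · apply Finset.prod_congr rfl
      rintro ⟨j, k⟩ hp
      simp only [mem_erase, mem_filter, mem_product, mem_range, ne_eq, Prod.mk.injEq] at hp
      obtain ⟨hne, ⟨hj, hk⟩, hjk⟩ := hp
      show (1 - (yv N (Finsupp.equivMapDomain (Equiv.swap (a + i) (a + i + 1)) η) (a + j) : K) +
        yv N (Finsupp.equivMapDomain (Equiv.swap (a + i) (a + i + 1)) η) (a + k)) = _
      rw [hYs j hj, hYs k hk]
  rw [hcη, hcη']
  generalize (∏ p ∈ ((range m ×ˢ range m).filter (fun p => p.1 < p.2)).erase (i, i + 1),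
        (1 - (yv N η (a + p.1) : K) + yv N η (a + p.2))) = P
  generalize (antis a m (Fp N (Finsupp.equivMapDomain (Equiv.swap (a + i) (a + i + 1)) η) :
    MvPolynomial ℕ K)) = A' at hA ⊢
  generalize (antis a m (Fp N η : MvPolynomial ℕ K)) = A at hA ⊢
  generalize (yv N η (a + i) : K) - yv N η (a + i + 1) = D at hA hne0 hne1 hne2 ⊢
  have h5 : (1 - D) • A' = (D + 1) • A := by
    rw [hA]
    module
  have h6 : A' = ((1 - D)⁻¹ * (D + 1)) • A := by
    rw [mul_smul, ← h5, smul_smul, inv_mul_cancel₀ hne2, one_smul]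
  rw [h6, smul_smul]
  congr 1
  rw [mul_inv, mul_inv]
  field_simp

/-- HINT: apply `antis a m` to `Fp_exchange`: `(1+Δ) 𝔸 F_η = (1-Δ) 𝔸 F_{sη}` (`antis_swap`), and
`(1+Δ) c(η) = (1-Δ) c(sη)`: in `c(η)` the factor of the pair `(i,i+1)` is `1-Δ`, in `c(sη)` it is `1+Δ`, the other
factors are permuted (`yv_swap`). Nonvanishing: `yv_swap`, `cB_ne`. -/
theorem order_adj (N a m i : ℕ) (hN : a + m ≤ N) (η : ℕ →₀ ℕ) (hη : ∀ k, N ≤ k → η k = 0)
    (hinj : ∀ i j, a ≤ i → i < j → j < a + m → η i ≠ η j) (hi : i + 1 < m) :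
    (cB N (Finsupp.equivMapDomain (Equiv.swap (a + i) (a + i + 1)) η) a m : K)⁻¹ •
        antis a m (Fp N (Finsupp.equivMapDomain (Equiv.swap (a + i) (a + i + 1)) η))
      = (cB N η a m : K)⁻¹ • antis a m (Fp N η : MvPolynomial ℕ K) := by
  have hne : η (a + i) ≠ η (a + i + 1) := hinj (a + i) (a + i + 1) (by omega) (by omega) (by omega)
  rcases lt_or_gt_of_ne hne with hlt | hlt
  · have hback : Finsupp.equivMapDomain (Equiv.swap (a + i) (a + i + 1))
        (Finsupp.equivMapDomain (Equiv.swap (a + i) (a + i + 1)) η) = η := by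
      ext k
      rw [Finsupp.equivMapDomain_apply, Finsupp.equivMapDomain_apply, Equiv.symm_swap,
        Equiv.swap_apply_self]
    have h := h400_oa_lt (K := K) N a m i hN
      (Finsupp.equivMapDomain (Equiv.swap (a + i) (a + i + 1)) η)
      (by
        intro k hk
        rw [Finsupp.equivMapDomain_apply, Equiv.symm_swap,
          Equiv.swap_apply_of_ne_of_ne (by omega) (by omega)]
        exact hη k hk) hi
      (by
        rw [Finsupp.equivMapDomain_apply, Finsupp.equivMapDomain_apply, Equiv.symm_swap,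
          Equiv.swap_apply_left, Equiv.swap_apply_right]
        exact hlt)
    rw [hback] at h
    exact h.symm
  · exact h400_oa_lt N a m i hN η hη hi hlt

end JSup
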