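import Pool.Agent.Helper204.JS.Defs
import Pool.Agent.Helper204.JS.Defs1
import Pool.Agent.Helper204.JS.P_order_adj

set_option linter.unusedSectionVars false

open MvPolynomial Finset

noncomputable section

namespace JSup
variable {K : Type} [Field K] [CharZero K] [Par K]



theorem order_indep_swap (a n : ℕ) (i : Fin n) :
    emb a (n + 1) (Equiv.swap i.castSucc i.succ) = Equiv.swap (a + (i : ℕ)) (a + (i : ℕ) + 1) := by
  ext k
  by_cases hk : k < a ∨ a + (n + 1) ≤ k
  · rw [emb_out _ _ _ _ hk, Equiv.swap_apply_of_ne_of_ne]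
    · have := i.2
      omega
    · have := i.2
      omega
  · push Not at hk
    obtain ⟨j, hj⟩ : ∃ j : Fin (n + 1), k = a + (j : ℕ) := ⟨⟨k - a, by omega⟩, by simp; omega⟩
    rw [hj, emb_in, Equiv.swap_apply_def, Equiv.swap_apply_def]
    simp only [Fin.ext_iff]
    split_ifs <;> simp_all <;> omega

theorem order_indep_symm (a m : ℕ) (w : Equiv.Perm (Fin m)) (k : ℕ) :
    (emb a m w).symm k = emb a m w⁻¹ k := by
  rw [map_inv]
  rfl

theorem order_indep_aux (N a m : ℕ) (hN : a + m ≤ N) (w : Equiv.Perm (Fin m)) :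
    ∀ η : ℕ →₀ ℕ, (∀ k, N ≤ k → η k = 0) →
    (∀ i j, a ≤ i → i < j → j < a + m → η i ≠ η j) →
    (cB N (Finsupp.equivMapDomain (emb a m w) η) a m : K)⁻¹ •
        antis a m (Fp N (Finsupp.equivMapDomain (emb a m w) η))
      = (cB N η a m : K)⁻¹ • antis a m (Fp N η : MvPolynomial ℕ K) := by
  have hone : ∀ η : ℕ →₀ ℕ, Finsupp.equivMapDomain (emb a m 1) η = η := by
    intro η
    rw [map_one]
    exact Finsupp.equivMapDomain_refl η
  rcases m with _ | n
  · intro η _ _
    rw [Subsingleton.elim w 1, hone]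
  · have hw : w ∈ Submonoid.closure (Set.range fun i : Fin n ↦ Equiv.swap i.castSucc i.succ) := by
      rw [Equiv.Perm.mclosure_swap_castSucc_succ]
      trivial
    induction hw using Submonoid.closure_induction with
    | mem x hx =>
      obtain ⟨i, rfl⟩ := hx
      intro η hη hinj
      have h1 := order_adj (K := K) N a (n + 1) (i : ℕ) hN η hη hinj (by have := i.2; omega)
      rw [order_indep_swap]
      exact h1
    | one =>
      intro η _ _
      rw [hone]
    | mul x y _ _ hx hy =>
      intro η hη hinj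
      have h1 : Finsupp.equivMapDomain (emb a (n + 1) (x * y)) η =
          Finsupp.equivMapDomain (emb a (n + 1) x) (Finsupp.equivMapDomain (emb a (n + 1) y) η) := by
        rw [map_mul, ← Finsupp.equivMapDomain_trans]
        rfl
      rw [h1, hx, hy η hη hinj]
      · intro k hk
        rw [Finsupp.equivMapDomain_apply, order_indep_symm, emb_out _ _ _ _ (Or.inr (by omega))]
        exact hη k hk
      · intro i j hi hij hj
        rw [Finsupp.equivMapDomain_apply, Finsupp.equivMapDomain_apply, order_indep_symm,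
          order_indep_symm]
        obtain ⟨i', hi'⟩ : ∃ i' : Fin (n + 1), i = a + (i' : ℕ) :=
          ⟨⟨i - a, by omega⟩, by simp; omega⟩
        obtain ⟨j', hj'⟩ : ∃ j' : Fin (n + 1), j = a + (j' : ℕ) :=
          ⟨⟨j - a, by omega⟩, by simp; omega⟩
        rw [hi', hj', emb_in, emb_in]
        have hne : y⁻¹ i' ≠ y⁻¹ j' := by
          intro h
          have := y⁻¹.injective h
          rw [Fin.ext_iff] at this
          omega
        have hne' : ((y⁻¹ i' : Fin (n + 1)) : ℕ) ≠ ((y⁻¹ j' : Fin (n + 1)) : ℕ) := by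
          intro h
          exact hne (Fin.ext h)
        have hli := (y⁻¹ i').2
        have hlj := (y⁻¹ j').2
        rcases lt_or_gt_of_ne hne' with h | h
        · exact hinj _ _ (by omega) (by omega) (by omega)
        · exact (hinj _ _ (by omega) (by omega) (by omega)).symm

/-- HINT: `order_adj` and `Equiv.Perm.mclosure_swap_castSucc_succ`. -/
theorem order_indep (N a m : ℕ) (hN : a + m ≤ N) (η : ℕ →₀ ℕ) (hη : ∀ k, N ≤ k → η k = 0)
    (hinj : ∀ i j, a ≤ i → i < j → j < a + m → η i ≠ η j) (w : Equiv.Perm (Fin m)) :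
    (cB N (Finsupp.equivMapDomain (emb a m w) η) a m : K)⁻¹ •
        antis a m (Fp N (Finsupp.equivMapDomain (emb a m w) η))
      = (cB N η a m : K)⁻¹ • antis a m (Fp N η : MvPolynomial ℕ K) :=
  order_indep_aux N a m hN w η hη hinj

end JSup
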