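import Pool.Agent.Helper204.JS.Defs
import Pool.Agent.Helper204.JS.Defs1
import Pool.Agent.Helper204.JS.P_starIter_apply

set_option linter.unusedSectionVars false

open MvPolynomial Finset

noncomputable section

namespace JSup
variable {K : Type} [Field K] [CharZero K] [Par K]



/-- HINT: `star_sum` iterated. -/
theorem starIter_sum (l t : ℕ) (ht : t ≤ l + 1) (η : ℕ →₀ ℕ) (h0 : ∀ k, l < k → η k = 0)
    (hpos : ∀ k, l + 1 - t ≤ k → k ≤ l → η k ≠ 0) :
    ((star l)^[t] η).sum (fun _ n => n) + t = η.sum (fun _ n => n) := by
  induction t with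
  | zero => simp
  | succ t ih =>
    have ih' := ih (by omega) (fun k hk hkl => hpos k (by omega) hkl)
    rw [Function.iterate_succ_apply']
    set ζ := (star l)^[t] η with hζ
    have hl : ζ l ≠ 0 := by
      rw [hζ, starIter_apply l t (by omega) η h0 l, if_neg (by omega), if_pos le_rfl]
      exact hpos _ (by omega) (by omega)
    have hz : ∀ k, l < k → ζ k = 0 := by
      intro k hk
      rw [hζ, starIter_apply l t (by omega) η h0 k, if_neg (by omega), if_neg (by omega)]
    have := star_sum l ζ hl hz
    omega

end JSup
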