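import Pool.Agent.Helper204.JS.Defs
import Pool.Agent.Helper204.JS.Defs1
import Pool.Agent.Helper204.JS.P_itg_Fp
import Pool.Agent.Helper204.JS.P_antis_small
import Pool.Agent.Helper204.JS.P_starIter_apply
import Pool.Agent.Helper204.JS.P_starIter_sum
import Pool.Agent.Helper204.JS.P_order_indep
import Pool.Agent.Helper204.JS.P_case1
import Pool.Agent.Helper204.JS.P_case2a
import Pool.Agent.Helper204.JS.P_case2b

set_option linter.unusedSectionVars false

open MvPolynomial Finset

noncomputable section

namespace JSup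
variable {K : Type} [Field K] [CharZero K] [Par K]



theorem thmII_small (N : ℕ) (η : ℕ →₀ ℕ) (a m : ℕ) (hm : m ≤ 1) :
    Itg ((cB N η a m : K)⁻¹ • antis a m (Fp N η : MvPolynomial ℕ K)) := by
  have hc : (cB N η a m : K) = 1 := by
    unfold cB
    apply Finset.prod_eq_one
    intro p hp
    exfalso
    rw [mem_filter, mem_product, mem_range, mem_range] at hp
    omega
  rw [hc, inv_one, one_smul]
  have h : m = 0 ∨ m = 1 := by omega
  rcases h with rfl | rfl
  · rw [(antis_small a _).1]; exact itg_Fp N η
  · rw [(antis_small a _).2]; exact itg_Fp N η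

theorem thmII_perm_sum (σ : Equiv.Perm ℕ) (η : ℕ →₀ ℕ) :
    (Finsupp.equivMapDomain σ η).sum (fun _ n => n) = η.sum (fun _ n => n) := by
  rw [Finsupp.equivMapDomain_eq_mapDomain]
  exact Finsupp.sum_mapDomain_index (fun _ => rfl) (fun _ _ _ => rfl)

/-- the statement for `η` -/
def thmII_P (K : Type) [Field K] [CharZero K] [Par K] (N : ℕ) (η : ℕ →₀ ℕ) : Prop :=
  (∀ k, N ≤ k → η k = 0) → ∀ a m : ℕ, a + m ≤ N →
    (∀ i j, a ≤ i → i < j → j < a + m → η i ≠ η j) →
    Itg ((cB N η a m : K)⁻¹ • antis a m (Fp N η : MvPolynomial ℕ K))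

theorem thmII_last (N : ℕ) (η : ℕ →₀ ℕ)
    (IH : ∀ ξ : ℕ →₀ ℕ, ξ.sum (fun _ n => n) < η.sum (fun _ n => n) → thmII_P K N ξ)
    (hη : ∀ k, N ≤ k → η k = 0) (a m : ℕ) (hm : 1 ≤ m) (hN : a + (m + 1) ≤ N)
    (hinj : ∀ i j, a ≤ i → i < j → j < a + (m + 1) → η i ≠ η j) (hz : η (a + m) = 0)
    (hz' : ∀ k, a + m < k → η k = 0) :
    Itg ((cB N η a (m + 1) : K)⁻¹ • antis a (m + 1) (Fp N η : MvPolynomial ℕ K)) := by
  have hpos : ∀ k, a ≤ k → k < a + m → η k ≠ 0 := by
    intro k h1 h2 h3
    exact hinj k (a + m) h1 h2 (by omega) (by rw [h3, hz])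
  obtain ⟨l, hl⟩ : ∃ l, a + m = l + 1 := ⟨a + m - 1, by omega⟩
  have h0 : ∀ k, l < k → η k = 0 := by
    intro k hk
    rcases Nat.lt_or_ge (a + m) k with h | h
    · exact hz' k h
    · have : k = a + m := by omega
      rw [this, hz]
  have hml : m ≤ l + 1 := by omega
  have hpos' : ∀ k, l + 1 - m ≤ k → k ≤ l → η k ≠ 0 := fun k h1 h2 => hpos k (by omega) (by omega)
  have hsum := starIter_sum l m hml η h0 hpos'
  have happ := starIter_apply l m hml η h0
  refine case2b N a m l hl (by omega) η h0 (fun k h1 h2 => hpos k h1 (by omega)) ?_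
  refine IH _ (by omega) ?_ 0 m (by omega) ?_
  · intro k hk
    rw [happ, if_neg (by omega), if_neg (by omega)]
  · intro i j _ hij hj
    rw [happ, happ, if_pos (by omega), if_pos (by omega)]
    have e1 : l + 1 - m + i = a + i := by omega
    have e2 : l + 1 - m + j = a + j := by omega
    rw [e1, e2]
    have h1 := hpos (a + i) (by omega) (by omega)
    have h2 := hpos (a + j) (by omega) (by omega)
    have h3 := hinj (a + i) (a + j) (by omega) (by omega) (by omega)
    omega

theorem thmII_main (N : ℕ) (η : ℕ →₀ ℕ)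
    (IH : ∀ ξ : ℕ →₀ ℕ, ξ.sum (fun _ n => n) < η.sum (fun _ n => n) → thmII_P K N ξ) :
    thmII_P K N η := by
  intro hη a m hN hinj
  by_cases hm : m ≤ 1
  · exact thmII_small N η a m hm
  have hne : η ≠ 0 := by
    intro h
    apply hinj a (a + 1) le_rfl (by omega) (by omega)
    rw [h]; rfl
  obtain ⟨hl, h0⟩ := lastNZ_spec η hne
  generalize lastNZ η = l at hl h0
  have hlN : l < N := by
    by_contra h
    exact hl (hη l (by omega))
  by_cases hal : a + m ≤ l
  · refine case1 N a m l hal hlN η hl h0 ?_
    have hs := star_sum l η hl h0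
    refine IH _ (by omega) ?_ (a + 1) m (by omega) ?_
    · intro k hk
      rw [star_apply, if_neg (by omega), if_neg (by omega)]
    · intro i j hi hij hj
      rw [star_apply, star_apply, if_neg (by omega), if_pos (by omega), if_neg (by omega),
        if_pos (by omega)]
      exact hinj (i - 1) (j - 1) (by omega) (by omega) (by omega)
  have hafter : ∀ k, a + m ≤ k → η k = 0 := fun k hk => h0 k (by omega)
  by_cases hzero : ∃ z, a ≤ z ∧ z < a + m ∧ η z = 0
  · obtain ⟨z, hz1, hz2, hz3⟩ := hzero
    obtain ⟨m', rfl⟩ : ∃ m', m = m' + 1 := ⟨m - 1, by omega⟩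
    let i0 : Fin (m' + 1) := ⟨z - a, by omega⟩
    let w : Equiv.Perm (Fin (m' + 1)) := Equiv.swap i0 (Fin.last m')
    have hord := order_indep (K := K) N a (m' + 1) hN η hη hinj w
    rw [← hord]
    have hsymm : ∀ k, (Finsupp.equivMapDomain (emb a (m' + 1) w) η) k =
        η (emb a (m' + 1) w k) := by
      intro k
      have e1 : (emb a (m' + 1) w).symm = emb a (m' + 1) w⁻¹ := (map_inv (emb a (m' + 1)) w).symm
      have e2 : w⁻¹ = w := Equiv.swap_inv _ _
      rw [Finsupp.equivMapDomain_apply, e1, e2]
    have hin : ∀ k, a ≤ k → k < a + (m' + 1) → ∃ t : Fin (m' + 1), k = a + (t : ℕ) := by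
      intro k h1 h2
      exact ⟨⟨k - a, by omega⟩, by simp; omega⟩
    have hinj' : ∀ s t : Fin (m' + 1), s ≠ t → η (a + (s : ℕ)) ≠ η (a + (t : ℕ)) := by
      intro s t hst
      rcases lt_trichotomy (s : ℕ) (t : ℕ) with h | h | h
      · exact hinj _ _ (by omega) (by omega) (by omega)
      · exact absurd (Fin.ext h) hst
      · exact (hinj _ _ (by omega) (by omega) (by omega)).symm
    apply thmII_last N _ _ _ a m' (by omega) hN
    · intro i j hi hij hj
      obtain ⟨s, rfl⟩ := hin i hi (by omega)
      obtain ⟨t, rfl⟩ := hin j (by omega) hj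
      rw [hsymm, hsymm, emb_in, emb_in]
      apply hinj'
      intro h
      have : s = t := w.injective h
      rw [this] at hij
      exact lt_irrefl _ hij
    · have e : a + m' = a + ((Fin.last m' : Fin (m' + 1)) : ℕ) := by simp
      rw [hsymm, e, emb_in]
      have e2 : w (Fin.last m') = i0 := Equiv.swap_apply_right _ _
      rw [e2]
      have e3 : a + (i0 : ℕ) = z := by
        show a + (z - a) = z
        omega
      rw [e3, hz3]
    · intro k hk
      rw [hsymm, emb_out _ _ _ _ (Or.inr (by omega))]
      exact hafter k (by omega)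
    · intro ξ hξ
      rw [thmII_perm_sum] at hξ
      exact IH ξ hξ
    · intro k hk
      rw [hsymm, emb_out _ _ _ _ (Or.inr (by omega))]
      exact hafter k (by omega)
  · push Not at hzero
    have hlam : a + m = l + 1 := by
      have h1 : ¬ l < a + m - 1 := by
        intro h
        exact hzero (a + m - 1) (by omega) (by omega) (h0 _ h)
      omega
    have hpos : ∀ k, a ≤ k → k ≤ l → η k ≠ 0 := fun k h1 h2 => hzero k h1 (by omega)
    have hml : m ≤ l + 1 := by omega
    have hsum := starIter_sum l m hml η h0 (fun k h1 h2 => hpos k (by omega) h2)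
    have happ := starIter_apply l m hml η h0
    refine case2a N a m l hlam hlN η h0 hpos hinj ?_
    refine IH _ (by omega) ?_ 0 m (by omega) ?_
    · intro k hk
      rw [happ, if_neg (by omega), if_neg (by omega)]
    · intro i j _ hij hj
      rw [happ, happ, if_pos (by omega), if_pos (by omega)]
      have e1 : l + 1 - m + i = a + i := by omega
      have e2 : l + 1 - m + j = a + j := by omega
      rw [e1, e2]
      have h1 := hpos (a + i) (by omega) (by omega)
      have h2 := hpos (a + j) (by omega) (by omega)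
      have h3 := hinj (a + i) (a + j) (by omega) (by omega) (by omega)
      omega

theorem thmII_all (N : ℕ) : ∀ (s : ℕ) (η : ℕ →₀ ℕ), η.sum (fun _ n => n) = s → thmII_P K N η := by
  intro s
  induction s using Nat.strong_induction_on with
  | _ s ih =>
    intro η hs
    apply thmII_main
    intro ξ hξ
    exact ih _ (by rw [← hs]; exact hξ) ξ rfl

/-- HINT: strong induction on `|η| = η.sum (fun _ n => n)`, for all `a m`. If `m ≤ 1`: `cB = 1` (empty product),
`antis_small`, `itg_Fp`. Let `m ≥ 2`; then `η ≠ 0`; `l` = last nonzero index (`lastNZ_spec`). If `a + m ≤ l`: `case1`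
(distinctness for `star l η` on the shifted block, `star_sum`). Otherwise at most one block entry is 0, so all
entries after the block are 0 and the block has at most one zero. If no zero: `l = a+m-1`, `case2a`
(`(star l)^[m] η` has entries `η_{a+k} - 1` at `k < m`: distinct; `starIter_sum`). If the entry `a+j` is zero: let
`w = swap j (m-1)` and replace `η` by `w·η = equivMapDomain (emb a m w) η` (`order_indep`; same sum), whose block has
its zero in the last position; then `case2b` with `m-1` in place of `m`, `l = a+m-2`. -/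
theorem thmII (N : ℕ) (η : ℕ →₀ ℕ) (hη : ∀ k, N ≤ k → η k = 0) (a m : ℕ) (hN : a + m ≤ N)
    (hinj : ∀ i j, a ≤ i → i < j → j < a + m → η i ≠ η j) :
    Itg ((cB N η a m : K)⁻¹ • antis a m (Fp N η : MvPolynomial ℕ K)) :=
  thmII_all N _ η rfl hη a m hN hinj

end JSup
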