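import Pool.Agent.Helper204.JS.Defs
import Pool.Agent.Helper204.JS.Defs1
import Pool.Agent.Helper204.JS.P_itg_basic
import Pool.Agent.Helper204.JS.P_itg_ops
import Pool.Agent.Helper204.JS.P_thmII

set_option linter.unusedSectionVars false

open MvPolynomial Finset

noncomputable section

namespace JSup
variable {K : Type} [Field K] [CharZero K] [Par K]



/-- HINT: `thmII`, `itg_basic`, `itg_ops`, induction on the length of `symChain`. -/
theorem J_itg (N k m : ℕ) (hN : k + m ≤ N) (η : ℕ →₀ ℕ) (hη : ∀ i, N ≤ i → η i = 0)
    (hinj : ∀ i j, k ≤ i → i < j → j < k + m → η i ≠ η j) : Itg (Jraw N k m η : MvPolynomial ℕ K) := by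
  obtain ⟨h0, h1, hX, hadd, hsub, hneg, hmul, hsmul, hren, hsum⟩ := itg_basic (K := K)
  have hchain : ∀ (q p : ℕ) (f : MvPolynomial ℕ K), Itg f → Itg (symChain N p q f) := by
    intro q
    induction q with
    | zero => intro p f hf; simpa [symChain] using hf
    | succ q ih =>
      intro p f hf
      have h := (itg_ops (K := K) N).2.2.2.2.1 p _ (ih (p + 1) f hf)
      simpa [symChain] using h
  unfold Jraw
  apply hchain
  apply hmul
  · have hp : ∀ q : ℕ, Itg (∏ i ∈ range q, X (m + i) : MvPolynomial ℕ K) := by
      intro q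
      induction q with
      | zero => simpa using h1
      | succ q ih => rw [Finset.prod_range_succ]; exact hmul _ _ ih (hX _)
    exact hp k
  · exact hren _ _ (thmII N η hη k m hN hinj)

end JSup
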