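import Pool.Agent.Helper204.JS.Stmt
import Pool.Agent.Helper204.JS.Defs
import Pool.Agent.Helper204.JS.Defs1
import Pool.Agent.Helper204.JS.Defs2
import Pool.Agent.Helper204.JS.Defs3
import Pool.Agent.Helper204.JS.Defs4

set_option linter.unusedSectionVars false

open MvPolynomial Finset

noncomputable section

namespace JSup
variable {K : Type} [Field K] [CharZero K] [Par K]


theorem tf_one (N m : ℕ) (hm : m ≤ N) (σ : Equiv.Perm (Fin N)) :
    (thp N m σ : Superspace K N) = ExteriorAlgebra.ιMulti (MvPolynomial (Fin N) K) m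
      (fun i : Fin m => Pi.single (σ (Fin.castLE hm i)) (1 : MvPolynomial (Fin N) K)) := by
  rw [ExteriorAlgebra.ιMulti_apply]
  unfold thp
  congr 1
  apply List.ext_getElem
  · simp [hm]
  · intro i h1 h2
    simp only [List.getElem_map, List.getElem_take, List.getElem_finRange, List.getElem_ofFn]
    rfl

/-- HINT: `thp N m σ = ιMulti (fun i : Fin m => Pi.single (σ (castLE i)) 1)` (`ExteriorAlgebra.ιMulti_apply`,
`List.ofFn`), alternating. -/
theorem thp_facts (N m : ℕ) (hm : m ≤ N) (σ : Equiv.Perm (Fin N)) :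
    (thp N m σ : Superspace K N) = ExteriorAlgebra.ιMulti (MvPolynomial (Fin N) K) m
      (fun i : Fin m => Pi.single (σ (Fin.castLE hm i)) (1 : MvPolynomial (Fin N) K)) ∧
    (∀ i j : Fin N, i < j → (j : ℕ) < m → (thp N m (σ * Equiv.swap i j) : Superspace K N) = - thp N m σ) ∧
    (∀ i j : Fin N, m ≤ (i : ℕ) → i < j → (thp N m (σ * Equiv.swap i j) : Superspace K N) = thp N m σ) := by
  refine ⟨tf_one N m hm σ, ?_, ?_⟩
  · intro i j hij hj
    have hi : (i : ℕ) < m := lt_trans hij hj
    have hne : (⟨i, hi⟩ : Fin m) ≠ ⟨j, hj⟩ := by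
      intro h
      have := congrArg Fin.val h
      exact (ne_of_lt hij) (Fin.ext this)
    rw [tf_one N m hm, tf_one N m hm, ← AlternatingMap.map_swap _ _ hne]
    congr 1
    funext k
    simp only [Function.comp, Equiv.Perm.mul_apply]
    congr 2
    have hinj : Function.Injective (Fin.castLE hm) := Fin.castLE_injective hm
    by_cases h1 : k = ⟨i, hi⟩
    · subst h1
      rw [Equiv.swap_apply_left]
      exact Equiv.swap_apply_left i j
    · by_cases h2 : k = ⟨j, hj⟩
      · subst h2
        rw [Equiv.swap_apply_right]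
        exact Equiv.swap_apply_right i j
      · rw [Equiv.swap_apply_of_ne_of_ne h1 h2, Equiv.swap_apply_of_ne_of_ne]
        · intro h; apply h1; apply hinj; rw [h]; rfl
        · intro h; apply h2; apply hinj; rw [h]; rfl
  · intro i j hi hij
    rw [tf_one N m hm, tf_one N m hm]
    congr 1
    funext k
    simp only [Equiv.Perm.mul_apply]
    congr 2
    have hk : (Fin.castLE hm k : ℕ) < m := k.2
    have hij' : (i : ℕ) < j := hij
    apply Equiv.swap_apply_of_ne_of_ne
    · intro h; rw [h] at hk; omega
    · intro h; rw [h] at hk; omega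

end JSup
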