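import Pool.Agent.Helper204.JS.Stmt
import Pool.Agent.Helper204.JS.Defs
import Pool.Agent.Helper204.JS.Defs1
import Pool.Agent.Helper204.JS.Defs2
import Pool.Agent.Helper204.JS.Defs3
import Pool.Agent.Helper204.JS.Defs4
import Pool.Agent.Helper204.JS.P_thp_facts

set_option linter.unusedSectionVars false

open MvPolynomial Finset

noncomputable section

namespace JSup
variable {K : Type} [Field K] [CharZero K] [Par K]



theorem thpw_exists (N m : ℕ) (hm : m ≤ N) (g : Fin m → Fin N) (hg : Function.Injective g) :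
    ∃ σ0 : Equiv.Perm (Fin N), ∀ i, σ0 (Fin.castLE hm i) = g i := by
  classical
  let e : {x // x ∈ Set.range (Fin.castLE hm)} ≃ {x // x ∈ Set.range g} :=
    (Equiv.ofInjective _ (Fin.castLE_injective hm)).symm.trans (Equiv.ofInjective g hg)
  refine ⟨e.extendSubtype, fun i => ?_⟩
  rw [Equiv.extendSubtype_apply_of_mem e _ ⟨i, rfl⟩]
  show ((Equiv.ofInjective g hg) ((Equiv.ofInjective _ (Fin.castLE_injective hm)).symm
    ⟨Fin.castLE hm i, ⟨i, rfl⟩⟩) : Fin N) = g i
  rw [Equiv.ofInjective_symm_apply]; rfl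

theorem thpw_fix (N m : ℕ) (hm : m ≤ N) :
    (Finset.univ.filter fun τ : Equiv.Perm (Fin N) =>
      ∀ i : Fin m, τ (Fin.castLE hm i) = Fin.castLE hm i).card = (N - m).factorial := by
  classical
  have h1 : (Finset.univ.filter fun τ : Equiv.Perm (Fin N) =>
      ∀ i : Fin m, τ (Fin.castLE hm i) = Fin.castLE hm i) =
      (Finset.univ.filter fun τ : Equiv.Perm (Fin N) => ∀ a : Fin N, ¬ (m ≤ (a : ℕ)) → τ a = a) := by
    ext τ
    simp only [Finset.mem_filter, Finset.mem_univ, true_and]
    constructor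
    · intro h a ha
      have := h ⟨(a : ℕ), by omega⟩
      exact this
    · intro h i
      exact h _ (by simp)
  rw [h1, ← Fintype.card_subtype]
  have h2 := Fintype.card_congr (Equiv.Perm.subtypeEquivSubtypePerm (fun a : Fin N => m ≤ (a : ℕ)))
  rw [← h2, Fintype.card_perm]
  congr 1
  have h3 : Fintype.card {a : Fin N // m ≤ (a : ℕ)} = (Finset.univ.filter fun a : Fin N => m ≤ (a : ℕ)).card :=
    Fintype.card_subtype _
  rw [h3]
  have h4 : (Finset.univ.filter fun a : Fin N => m ≤ (a : ℕ)).card =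
      (Finset.Ico m N).card := by
    refine Finset.card_bij (fun a _ => (a : ℕ)) ?_ ?_ ?_
    · intro a ha
      rw [Finset.mem_filter] at ha
      rw [Finset.mem_Ico]
      exact ⟨ha.2, a.2⟩
    · intro a _ b _ h
      exact Fin.ext h
    · intro b hb
      rw [Finset.mem_Ico] at hb
      exact ⟨⟨b, hb.2⟩, by simp [hb.1], rfl⟩
  rw [h4, Nat.card_Ico]

theorem thpw_card (N m : ℕ) (hm : m ≤ N) (g : Fin m → Fin N) (hg : Function.Injective g) :
    (Finset.univ.filter fun σ : Equiv.Perm (Fin N) =>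
      (fun i : Fin m => σ (Fin.castLE hm i)) = g).card = (N - m).factorial := by
  classical
  obtain ⟨σ0, h0⟩ := thpw_exists N m hm g hg
  rw [← thpw_fix N m hm]
  refine Finset.card_bij (fun σ _ => σ0⁻¹ * σ) ?_ ?_ ?_
  · intro σ hσ
    rw [Finset.mem_filter] at hσ ⊢
    refine ⟨Finset.mem_univ _, fun i => ?_⟩
    rw [Equiv.Perm.mul_apply, Equiv.Perm.inv_eq_iff_eq, h0]
    exact congrFun hσ.2 i
  · intro σ _ τ _ h
    exact mul_left_cancel h
  · intro τ hτ
    rw [Finset.mem_filter] at hτ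
    refine ⟨σ0 * τ, ?_, by group⟩
    rw [Finset.mem_filter]
    refine ⟨Finset.mem_univ _, ?_⟩
    funext i
    rw [Equiv.Perm.mul_apply, hτ.2 i, h0]

theorem thpw_rename (N m : ℕ) (hm : m ≤ N) (b : Fin m → ℕ) (σ : Equiv.Perm (Fin N)) :
    rename σ (restr N (∏ i : Fin m, X (i : ℕ) ^ b i : MvPolynomial ℕ K)) =
      ∏ i : Fin m, (X (σ (Fin.castLE hm i)) : MvPolynomial (Fin N) K) ^ b i := by
  rw [map_prod, map_prod]
  refine Finset.prod_congr rfl fun i _ => ?_
  rw [map_pow, map_pow]
  congr 1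
  unfold restr
  rw [aeval_X, dif_pos (lt_of_lt_of_le i.2 hm), rename_X]
  rfl

theorem thpw_expand (N m : ℕ) (b : Fin m → ℕ) :
    ExteriorAlgebra.ιMulti (MvPolynomial (Fin N) K) m
      (fun i : Fin m => fun j : Fin N => (X j : MvPolynomial (Fin N) K) ^ b i) =
    ∑ g : Fin m → Fin N, (∏ i : Fin m, (X (g i) : MvPolynomial (Fin N) K) ^ b i) •
      ExteriorAlgebra.ιMulti (MvPolynomial (Fin N) K) m
        (fun i : Fin m => (Pi.single (g i) (1 : MvPolynomial (Fin N) K) : Fin N → MvPolynomial (Fin N) K)) := by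
  classical
  have h1 : (fun i : Fin m => fun j : Fin N => (X j : MvPolynomial (Fin N) K) ^ b i) =
      fun i : Fin m => ∑ j : Fin N, ((X j : MvPolynomial (Fin N) K) ^ b i) •
        (Pi.single j (1 : MvPolynomial (Fin N) K) : Fin N → MvPolynomial (Fin N) K) := by
    funext i
    funext j
    rw [Finset.sum_apply, Finset.sum_eq_single j]
    · simp
    · intro k _ hk
      rw [Pi.smul_apply, Pi.single_eq_of_ne (Ne.symm hk), smul_zero]
    · intro h; exact absurd (Finset.mem_univ _) h
  rw [h1]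
  have h2 := MultilinearMap.map_sum (ExteriorAlgebra.ιMulti (MvPolynomial (Fin N) K) (M := Fin N → MvPolynomial (Fin N) K) m).toMultilinearMap
    (α := fun _ : Fin m => Fin N) (g := fun (i : Fin m) (j : Fin N) => ((X j : MvPolynomial (Fin N) K) ^ b i) •
        (Pi.single j (1 : MvPolynomial (Fin N) K) : Fin N → MvPolynomial (Fin N) K))
  refine Eq.trans h2 (Finset.sum_congr rfl fun g _ => ?_)
  exact MultilinearMap.map_smul_univ _ _ _

/-- HINT: `ιMulti (fun i => (x_j^{b i})_j)` expanded by multilinearity is `Σ_{g : Fin m → Fin N} (∏ x_{g i}^{b i}) •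
ιMulti (single (g i) 1)`; non-injective `g` give 0; each injective `g` is the restriction of exactly `(N-m)!` permutations
`σ`. Compare with `Th_apply`, `thp_facts`. -/
theorem Th_power (N m : ℕ) (hm : m ≤ N) (b : Fin m → ℕ) :
    Th N m (∏ i : Fin m, X (i : ℕ) ^ b i : MvPolynomial ℕ K) = (((N - m).factorial : ℕ) : K) •
      ExteriorAlgebra.ιMulti (MvPolynomial (Fin N) K) m (fun i : Fin m => fun j : Fin N => (X j : MvPolynomial (Fin N) K) ^ b i) := by
  classical
  rw [Th_apply, thpw_expand, ← Finset.sum_fiberwise (Finset.univ : Finset (Equiv.Perm (Fin N)))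
    (fun σ => fun i : Fin m => σ (Fin.castLE hm i)), Finset.smul_sum]
  refine Finset.sum_congr rfl fun g _ => ?_
  have h1 : ∀ σ ∈ Finset.univ.filter (fun σ : Equiv.Perm (Fin N) =>
      (fun i : Fin m => σ (Fin.castLE hm i)) = g),
      (thp N m σ : Superspace K N) * algebraMap (MvPolynomial (Fin N) K) (Superspace K N)
        (rename σ (restr N (∏ i : Fin m, X (i : ℕ) ^ b i : MvPolynomial ℕ K))) =
      (∏ i : Fin m, (X (g i) : MvPolynomial (Fin N) K) ^ b i) •
      ExteriorAlgebra.ιMulti (MvPolynomial (Fin N) K) m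
        (fun i : Fin m => (Pi.single (g i) (1 : MvPolynomial (Fin N) K) : Fin N → MvPolynomial (Fin N) K)) := by
    intro σ hσ
    rw [Finset.mem_filter] at hσ
    have hg : ∀ i, σ (Fin.castLE hm i) = g i := fun i => congrFun hσ.2 i
    rw [thpw_rename N m hm, (thp_facts N m hm σ).1, Algebra.smul_def, ← Algebra.commutes]
    simp only [hg]
  rw [Finset.sum_congr rfl h1, Finset.sum_const]
  by_cases hg : Function.Injective g
  · rw [thpw_card N m hm g hg, Nat.cast_smul_eq_nsmul]
  · have h0 : ExteriorAlgebra.ιMulti (MvPolynomial (Fin N) K) m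
        (fun i : Fin m => (Pi.single (g i) (1 : MvPolynomial (Fin N) K) : Fin N → MvPolynomial (Fin N) K)) = 0 := by
      refine ExteriorAlgebra.ιMulti_eq_zero_of_not_inj fun h => hg fun i j hij => h ?_
      simp only [hij]
    rw [h0, smul_zero, smul_zero, smul_zero]

end JSup
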