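import Pool.Agent.Helper204.JS.Stmt
import Pool.Agent.Helper204.JS.Defs
import Pool.Agent.Helper204.JS.Defs1
import Pool.Agent.Helper204.JS.Defs2
import Pool.Agent.Helper204.JS.Defs3
import Pool.Agent.Helper204.JS.Defs4
import Pool.Agent.Helper204.JS.P_Th_power

set_option linter.unusedSectionVars false

open MvPolynomial Finset

noncomputable section

namespace JSup
variable {K : Type} [Field K] [CharZero K] [Par K]



theorem ev_monomial_adm (N m n : ℕ) (d : (ℕ ⊕ ℕ) →₀ ℕ) (hd : Adm m n d) :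
    ev N (monomial d (1 : K)) = (∏ k ∈ range (n + 1), (∑ j ∈ range N, X j ^ k) ^ d (Sum.inr k)) *
      (∏ i : Fin m, X (i : ℕ) ^ d (Sum.inl (i : ℕ)) : MvPolynomial ℕ K) := by
  obtain ⟨h1, h2, h3⟩ := hd
  have hs : d.support ⊆ (range m).disjSum (range (n + 1)) := by
    intro v hv
    rw [Finsupp.mem_support_iff] at hv
    rcases v with i | k
    · rw [Finset.inl_mem_disjSum, mem_range]
      by_contra hi
      exact hv (h1 i (by omega))
    · rw [Finset.inr_mem_disjSum, mem_range]
      have h4 : k * d (Sum.inr k) ≤ n := by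
        rw [← h3]
        exact Finset.single_le_sum
          (f := fun v => Sum.elim (fun _ => d v) (fun k => k * d v) v)
          (fun _ _ => Nat.zero_le _) (Finsupp.mem_support_iff.2 hv)
      have h5 : 1 ≤ d (Sum.inr k) := Nat.one_le_iff_ne_zero.2 hv
      nlinarith
  unfold ev
  rw [aeval_monomial, map_one, one_mul,
    Finsupp.prod_of_support_subset d hs _ (fun v _ => pow_zero _), Finset.prod_disjSum, mul_comm,
    Finset.prod_range (n := m)]
  rfl

theorem restr_psum (N k : ℕ) : restr N (∑ j ∈ range N, X j ^ k : MvPolynomial ℕ K) =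
    ∑ j : Fin N, X j ^ k := by
  rw [map_sum, Finset.sum_range]
  refine Finset.sum_congr rfl fun j _ => ?_
  rw [map_pow]
  unfold restr
  rw [aeval_X, dif_pos j.2]

theorem Th_symm_mul (N m : ℕ) (g f : MvPolynomial ℕ K)
    (hg : ∀ σ : Equiv.Perm (Fin N), rename σ (restr N g) = restr N g) :
    Th N m (g * f) = algebraMap (MvPolynomial (Fin N) K) (Superspace K N) (restr N g) *
      Th N m f := by
  rw [Th_apply, Th_apply, Finset.mul_sum]
  refine Finset.sum_congr rfl fun σ _ => ?_
  rw [map_mul, map_mul, map_mul, hg, ← mul_assoc, ← mul_assoc, Algebra.commutes]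

/-- HINT: `ev N (monomial d 1) = (∏_{i<m} x_i^{d(t_i)}) · ∏_k (Σ_{j<N} x_j^k)^{d(p_k)}`; the second factor `g` is symmetric, so
`Th (g * f) = algebraMap (restr N g) * Th f`; `Th_power`. -/
theorem Th_ev (N m n : ℕ) (hm : m ≤ N) (d : (ℕ ⊕ ℕ) →₀ ℕ) (hd : Adm m n d) :
    Th N m (ev N (monomial d (1 : K))) = (((N - m).factorial : ℕ) : K) •
      (algebraMap (MvPolynomial (Fin N) K) _ (∏ k ∈ range (n + 1), (∑ j : Fin N, X j ^ k) ^ d (Sum.inr k)) *
      ExteriorAlgebra.ιMulti (MvPolynomial (Fin N) K) m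
        (fun i : Fin m => fun j : Fin N => (X j : MvPolynomial (Fin N) K) ^ d (Sum.inl (i : ℕ)))) := by
  have hG : restr N (∏ k ∈ range (n + 1), (∑ j ∈ range N, X j ^ k) ^ d (Sum.inr k) :
      MvPolynomial ℕ K) = ∏ k ∈ range (n + 1), (∑ j : Fin N, X j ^ k) ^ d (Sum.inr k) := by
    rw [map_prod]
    refine Finset.prod_congr rfl fun k _ => ?_
    rw [map_pow, restr_psum]
  rw [ev_monomial_adm N m n d hd, Th_symm_mul, hG, Th_power N m hm, mul_smul_comm]
  intro σ
  rw [hG, map_prod]
  refine Finset.prod_congr rfl fun k _ => ?_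
  rw [map_pow, map_sum]
  congr 1
  simp only [map_pow, rename_X]
  exact Equiv.sum_comp σ (fun j => (X j : MvPolynomial (Fin N) K) ^ k)

end JSup
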