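import Pool.Agent.Helper204.JS.Stmt
import Pool.Agent.Helper204.JS.Defs
import Pool.Agent.Helper204.JS.Defs1
import Pool.Agent.Helper204.JS.Defs2
import Pool.Agent.Helper204.JS.Defs3
import Pool.Agent.Helper204.JS.Defs4

set_option linter.unusedSectionVars false

open MvPolynomial Finset

noncomputable section

namespace JSup
variable {K : Type} [Field K] [CharZero K] [Par K]



/-- HINT: `th i * sx i ^ r = (X i ^ r) • ι (single i 1)`. The powers `ppow` are central: algebraMap of `Σ X i ^ s`. -/
theorem ptil_iota (N r : ℕ) :
    (ptil K N r : Superspace K N) = ExteriorAlgebra.ι (MvPolynomial (Fin N) K) (fun i => X i ^ r) ∧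
    (ppow K N r : Superspace K N) = algebraMap (MvPolynomial (Fin N) K) _ (∑ i, X i ^ r) := by
  constructor
  · have h1 : (fun i => X i ^ r : Fin N → MvPolynomial (Fin N) K) =
        ∑ i : Fin N, (X i ^ r : MvPolynomial (Fin N) K) •
          (Pi.single i 1 : Fin N → MvPolynomial (Fin N) K) := by
      funext j
      rw [Finset.sum_apply, Finset.sum_eq_single j]
      · simp
      · intro b _ hb
        simp [Pi.single_apply, hb.symm]
      · intro h
        exact absurd (Finset.mem_univ j) h
    rw [h1, map_sum]
    unfold ptil
    refine Finset.sum_congr rfl fun i _ => ?_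
    rw [map_smul, Algebra.smul_def]
    unfold th sx
    rw [← map_pow]
    exact (Algebra.commutes _ _).symm
  · unfold ppow sx
    rw [map_sum]
    refine Finset.sum_congr rfl fun i _ => ?_
    rw [map_pow]

end JSup
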