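import Pool.Agent.Helper204.JS.Stmt
import Pool.Agent.Helper204.JS.Defs
import Pool.Agent.Helper204.JS.Defs1
import Pool.Agent.Helper204.JS.Defs2
import Pool.Agent.Helper204.JS.Defs3
import Pool.Agent.Helper204.JS.Defs4
import Pool.Agent.Helper204.JS.P_ptil_iota

set_option linter.unusedSectionVars false

open MvPolynomial Finset

noncomputable section

namespace JSup
variable {K : Type} [Field K] [CharZero K] [Par K]



/-- HINT: `pLam = (∏ ptil a_i) (∏ ppow s_j)`; the list product of `ptil` over `L.a` is `ιMulti` of the vectors
(`ExteriorAlgebra.ιMulti_apply`), the `ppow` part is central. -/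
theorem pLam_eq (N n m : ℕ) (L : SuperPartition n m) :
    pLam K N L = algebraMap (MvPolynomial (Fin N) K) (Superspace K N)
        (∏ k ∈ range (n + 1), (∑ j : Fin N, X j ^ k) ^ L.s.count k) *
      ExteriorAlgebra.ιMulti (MvPolynomial (Fin N) K) m
        (fun i : Fin m => fun j : Fin N => (X j : MvPolynomial (Fin N) K) ^ L.part (i : ℕ)) := by
  have h1 : (L.a.map (ptil K N)).prod = ExteriorAlgebra.ιMulti (MvPolynomial (Fin N) K) m
      (fun i : Fin m => fun j : Fin N => (X j : MvPolynomial (Fin N) K) ^ L.part (i : ℕ)) := by
    rw [ExteriorAlgebra.ιMulti_apply]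
    congr 1
    apply List.ext_getElem
    · rw [List.length_map, List.length_ofFn, L.a_length]
    · intro i h1 h2
      rw [List.getElem_map, List.getElem_ofFn, (ptil_iota N _).1]
      have h3 : i < L.a.length := by
        rw [List.length_map] at h1
        exact h1
      have h4 : L.part i = L.a[i] := by
        unfold SuperPartition.part
        rw [List.getD_append _ _ _ _ h3, List.getD_eq_getElem _ _ h3]
      simp only [h4]
  have h2 : (L.s.map (ppow K N)).prod = algebraMap (MvPolynomial (Fin N) K) (Superspace K N)
        (∏ k ∈ range (n + 1), (∑ j : Fin N, X j ^ k) ^ L.s.count k) := by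
    have h3 : L.s.map (ppow K N) = (L.s.map (fun k : ℕ =>
        (∑ j : Fin N, X j ^ k : MvPolynomial (Fin N) K))).map
          (algebraMap (MvPolynomial (Fin N) K) (Superspace K N)) := by
      rw [List.map_map]
      apply List.map_congr_left
      intro k _
      rw [(ptil_iota N k).2]
      rfl
    rw [h3, ← map_list_prod, Finset.prod_list_map_count]
    congr 1
    apply Finset.prod_subset
    · intro k hk
      rw [List.mem_toFinset] at hk
      have h4 := List.single_le_sum (fun x _ => Nat.zero_le x) k hk
      have h5 := L.sum_eq
      rw [Finset.mem_range]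
      omega
    · intro k _ hk
      rw [List.mem_toFinset] at hk
      rw [List.count_eq_zero_of_not_mem hk, pow_zero]
  unfold pLam
  rw [h1, h2, Algebra.commutes]

end JSup
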