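import Pool.Agent.Helper204.JS.Stmt
import Pool.Agent.Helper204.JS.Defs
import Pool.Agent.Helper204.JS.Defs1
import Pool.Agent.Helper204.JS.Defs2
import Pool.Agent.Helper204.JS.Defs3
import Pool.Agent.Helper204.JS.Defs4
import Pool.Agent.Helper204.JS.P_Th_ev
import Pool.Agent.Helper204.JS.P_pLam_eq

set_option linter.unusedSectionVars false

open MvPolynomial Finset

noncomputable section

namespace JSup
variable {K : Type} [Field K] [CharZero K] [Par K]



theorem tec_sum (m n : ℕ) (d : (ℕ ⊕ ℕ) →₀ ℕ) (hd : Adm m n d) :
    (∀ k, n < k → d (Sum.inr k) = 0) ∧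
    ∑ i ∈ range m, d (Sum.inl i) + ∑ k ∈ range (n + 1), k * d (Sum.inr k) = n := by
  obtain ⟨h1, h2, h3⟩ := hd
  have hk : ∀ k, n < k → d (Sum.inr k) = 0 := by
    intro k hk
    by_contra hne
    have hmem : (Sum.inr k : ℕ ⊕ ℕ) ∈ d.support := Finsupp.mem_support_iff.2 hne
    have := Finset.single_le_sum (f := fun v => Sum.elim (fun _ => d v) (fun k => k * d v) v)
      (fun v _ => Nat.zero_le _) hmem
    have h4 : ∑ v ∈ d.support, Sum.elim (fun _ => d v) (fun k => k * d v) v = n := h3
    rw [h4] at this
    simp only [Sum.elim_inr] at this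
    have h5 : k * 1 ≤ k * d (Sum.inr k) := Nat.mul_le_mul_left k (by omega)
    omega
  refine ⟨hk, ?_⟩
  have hsub : d.support ⊆ (range m).disjSum (range (n + 1)) := by
    intro v hv
    rw [Finsupp.mem_support_iff] at hv
    rcases v with i | k
    · rw [Finset.inl_mem_disjSum, mem_range]
      by_contra hcon
      exact hv (h1 i (by omega))
    · rw [Finset.inr_mem_disjSum, mem_range]
      by_contra hcon
      exact hv (hk k (by omega))
  rw [Finsupp.sum_of_support_subset d hsub _ (by rintro (i | k) _ <;> simp), Finset.sum_disjSum] at h3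
  simpa using h3

/-- HINT: if `i ↦ d (inl i)`, `i<m`, is injective let `w` sort it decreasingly, `W.a` the sorted list, `W.s` the decreasing
list with `count k = d (inr k)`; then `Th_ev`, `pLam_eq` and `AlternatingMap.map_perm` give `Th = (N-m)! sgn w • pLam W`, with
`d (inl (w i)) = W.part i`. If not injective the alternating map vanishes (`AlternatingMap.map_eq_zero_of_eq`). -/
theorem Th_ev_class (N m n : ℕ) (hm : m ≤ N) (d : (ℕ ⊕ ℕ) →₀ ℕ) (hd : Adm m n d) :
    ((¬ Function.Injective (fun i : Fin m => d (Sum.inl (i : ℕ)))) ∧ Th N m (ev N (monomial d (1 : K))) = 0) ∨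
    ∃ (W : SuperPartition n m) (w : Equiv.Perm (Fin m)),
      (∀ i : Fin m, d (Sum.inl ((w i : Fin m) : ℕ)) = W.part (i : ℕ)) ∧ (∀ k, d (Sum.inr k) = W.s.count k) ∧
      Function.Injective (fun i : Fin m => d (Sum.inl (i : ℕ))) ∧
      Th N m (ev N (monomial d (1 : K))) =
        ((((N - m).factorial : ℕ) : K) * (((Equiv.Perm.sign w : ℤ)) : K)) • pLam K N W := by
  have hev := Th_ev (K := K) N m n hm d hd
  by_cases hinj : Function.Injective (fun i : Fin m => d (Sum.inl (i : ℕ)))
  · right
    obtain ⟨hk0, hsum⟩ := tec_sum m n d hd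
    set tv : Fin m → ℕ := fun i => d (Sum.inl (i : ℕ)) with htv
    set w : Equiv.Perm (Fin m) := Tuple.sort (fun i => OrderDual.toDual (tv i)) with hw
    have hmono : Antitone (tv ∘ w) := by
      intro i j hij
      exact Tuple.monotone_sort (fun i => OrderDual.toDual (tv i)) hij
    have hanti : StrictAnti (tv ∘ w) :=
      hmono.strictAnti_of_injective (hinj.comp w.injective)
    set D : Multiset ℕ := ∑ k ∈ range (n + 1), Multiset.replicate (d (Sum.inr k)) k with hD
    have hcount : ∀ k, D.count k = d (Sum.inr k) := by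
      intro k
      rw [hD, Multiset.count_sum']
      simp only [Multiset.count_replicate]
      by_cases hk : k < n + 1
      · rw [Finset.sum_eq_single k]
        · simp
        · intro b _ hb; rw [if_neg hb]
        · intro h; exact absurd (mem_range.2 hk) h
      · rw [hk0 k (by omega)]
        apply Finset.sum_eq_zero
        intro b hb
        rw [mem_range] at hb
        rw [if_neg (by omega)]
    have hDsum : D.sum = ∑ k ∈ range (n + 1), k * d (Sum.inr k) := by
      rw [hD, ← Multiset.coe_sumAddMonoidHom, map_sum]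
      refine Finset.sum_congr rfl fun k _ => ?_
      rw [Multiset.coe_sumAddMonoidHom, Multiset.sum_replicate, smul_eq_mul, mul_comm]
    set s : List ℕ := D.sort (· ≥ ·) with hs
    have hscount : ∀ k, s.count k = d (Sum.inr k) := by
      intro k
      rw [← Multiset.coe_count, hs, Multiset.sort_eq, hcount]
    have hssum : s.sum = ∑ k ∈ range (n + 1), k * d (Sum.inr k) := by
      rw [← Multiset.sum_coe, hs, Multiset.sort_eq, hDsum]
    let W : SuperPartition n m :=
      { a := List.ofFn (tv ∘ w)
        s := s
        a_strict := by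
          rw [List.pairwise_ofFn]
          intro i j hij
          exact hanti hij
        a_length := List.length_ofFn
        s_weak := Multiset.pairwise_sort _ _
        s_pos := by
          intro i hi
          have h1 : 0 < s.count i := List.count_pos_iff.2 hi
          rw [hscount] at h1
          rcases Nat.eq_zero_or_pos i with rfl | h
          · rw [hd.2.1] at h1; omega
          · exact h
        sum_eq := by
          rw [List.sum_ofFn, hssum]
          have : ∑ i, (tv ∘ w) i = ∑ i ∈ range m, d (Sum.inl i) := by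
            rw [Finset.sum_range]
            exact Equiv.sum_comp w tv
          rw [this, hsum] }
    have hpart : ∀ i : Fin m, tv (w i) = W.part (i : ℕ) := by
      intro i
      show tv (w i) = (List.ofFn (tv ∘ w) ++ s).getD (i : ℕ) 0
      have hl : (i : ℕ) < (List.ofFn (tv ∘ w)).length := by rw [List.length_ofFn]; exact i.2
      rw [List.getD_append _ _ _ _ hl, List.getD_eq_getElem _ _ hl, List.getElem_ofFn]
      rfl
    refine ⟨W, w, hpart, fun k => (hscount k).symm, hinj, ?_⟩
    rw [hev, pLam_eq (K := K) N n m W]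
    have h1 : ∀ k, W.s.count k = d (Sum.inr k) := hscount
    simp only [h1]
    have h2 : (fun i : Fin m => fun j : Fin N => (X j : MvPolynomial (Fin N) K) ^ W.part (i : ℕ)) =
        (fun i : Fin m => fun j : Fin N => (X j : MvPolynomial (Fin N) K) ^ d (Sum.inl (i : ℕ))) ∘ w := by
      funext i j
      rw [← hpart i]
      rfl
    rw [h2, AlternatingMap.map_perm]
    rcases Int.units_eq_one_or (Equiv.Perm.sign w) with h | h
    · rw [h]; simp
    · rw [h]; simp
  · left
    refine ⟨hinj, ?_⟩
    rw [hev]
    rw [Function.Injective] at hinj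
    push Not at hinj
    obtain ⟨i, j, hij, hne⟩ := hinj
    have h0 : ExteriorAlgebra.ιMulti (MvPolynomial (Fin N) K) m
        (fun i : Fin m => fun j : Fin N => (X j : MvPolynomial (Fin N) K) ^ d (Sum.inl (i : ℕ))) = 0 := by
      refine AlternatingMap.map_eq_zero_of_eq _ _ (i := i) (j := j) ?_ hne
      funext k
      show X k ^ d (Sum.inl (i : ℕ)) = X k ^ d (Sum.inl (j : ℕ))
      have : d (Sum.inl (i : ℕ)) = d (Sum.inl (j : ℕ)) := hij
      rw [this]
    rw [h0, mul_zero, smul_zero]

end JSup
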