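import Pool.Agent.Helper204.JS.Stmt
import Pool.Agent.Helper204.JS.Defs
import Pool.Agent.Helper204.JS.Defs1
import Pool.Agent.Helper204.JS.Defs2
import Pool.Agent.Helper204.JS.Defs3
import Pool.Agent.Helper204.JS.Defs4
import Pool.Agent.Helper204.JS.P_Th_ev_class

set_option linter.unusedSectionVars false

open MvPolynomial Finset

noncomputable section

namespace JSup
variable {K : Type} [Field K] [CharZero K] [Par K]



theorem hB_emb_apply (m : ℕ) (w : Equiv.Perm (Fin m)) (i : Fin m) :
    emb 0 m w (i : ℕ) = (w i : ℕ) := by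
  have h := emb_in 0 m w i
  rwa [zero_add, zero_add] at h

theorem hB_cond_iff {m n : ℕ} (d e : (ℕ ⊕ ℕ) →₀ ℕ) (hd : Adm m n d) (he : Adm m n e)
    (w : Equiv.Perm (Fin m)) :
    e = Finsupp.equivMapDomain (tperm (emb 0 m w)) d ↔
      (∀ i : Fin m, e (Sum.inl ((w i : Fin m) : ℕ)) = d (Sum.inl (i : ℕ))) ∧
        ∀ k, e (Sum.inr k) = d (Sum.inr k) := by
  have h1 : ∀ i : Fin m, (tperm (emb 0 m w)).symm (Sum.inl ((w i : Fin m) : ℕ))
      = Sum.inl (i : ℕ) := by
    intro i
    rw [Equiv.symm_apply_eq]
    show Sum.inl ((w i : Fin m) : ℕ) = Sum.inl (emb 0 m w (i : ℕ))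
    rw [hB_emb_apply]
  have h2 : ∀ k : ℕ, (tperm (emb 0 m w)).symm (Sum.inr k) = Sum.inr k := by
    intro k
    rw [Equiv.symm_apply_eq]
    rfl
  have h3 : ∀ j : ℕ, m ≤ j → (tperm (emb 0 m w)).symm (Sum.inl j) = Sum.inl j := by
    intro j hj
    rw [Equiv.symm_apply_eq]
    show Sum.inl j = Sum.inl (emb 0 m w j)
    rw [emb_out 0 m w j (Or.inr (by omega))]
  constructor
  · intro h
    refine ⟨fun i => ?_, fun k => ?_⟩
    · rw [h, Finsupp.equivMapDomain_apply, h1]
    · rw [h, Finsupp.equivMapDomain_apply, h2]
  · rintro ⟨ha, hb⟩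
    ext v
    rw [Finsupp.equivMapDomain_apply]
    rcases v with j | k
    · rcases Nat.lt_or_ge j m with hj | hj
      · have h4 := ha (w.symm ⟨j, hj⟩)
        have h5 := h1 (w.symm ⟨j, hj⟩)
        rw [Equiv.apply_symm_apply] at h4 h5
        rw [h5]
        exact h4
      · rw [h3 j hj, hd.1 j hj, he.1 j hj]
    · rw [h2, hb]

theorem hB_fw (d : (ℕ ⊕ ℕ) →₀ ℕ) (s : List ℕ) (h : ∀ k, d (Sum.inr k) = s.count k) :
    (fw d : K) = al ^ s.length * (zLam s : K) := by
  classical
  unfold fw Finsupp.prod
  rw [← Finset.prod_subset (s₁ := s.toFinset.map ⟨Sum.inr, Sum.inr_injective⟩)]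
  · rw [Finset.prod_map]
    refine (Finset.prod_congr rfl (g := fun k => (al : K) ^ s.count k *
      (((k ^ s.count k * (s.count k).factorial : ℕ)) : K)) ?_).trans ?_
    · intro k _
      show (al * (k : K)) ^ (d (Sum.inr k)) * ((d (Sum.inr k)).factorial : K) = _
      rw [h k, mul_pow]
      push_cast
      ring
    · rw [Finset.prod_mul_distrib, Finset.prod_pow_eq_pow_sum,
        List.sum_toFinset_count_eq_length, zLam, Nat.cast_prod]
  · intro v hv
    rw [Finset.mem_map] at hv
    obtain ⟨k, hk, rfl⟩ := hv
    rw [List.mem_toFinset] at hk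
    rw [Finsupp.mem_support_iff]
    show d (Sum.inr k) ≠ 0
    rw [h k]
    exact (List.count_pos_iff.mpr hk).ne'
  · intro v hv hv2
    rcases v with i | k
    · rfl
    · exfalso
      rw [Finsupp.mem_support_iff, h k] at hv
      apply hv2
      rw [Finset.mem_map]
      refine ⟨k, ?_, rfl⟩
      rw [List.mem_toFinset]
      by_contra hcon
      exact hv (List.count_eq_zero.mpr hcon)

theorem hB_part {n m : ℕ} (L : SuperPartition n m) (i : Fin m) :
    ∃ h : (i : ℕ) < L.a.length, L.part (i : ℕ) = L.a[(i : ℕ)] := by
  have h : (i : ℕ) < L.a.length := by rw [L.a_length]; exact i.2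
  refine ⟨h, ?_⟩
  unfold SuperPartition.part
  rw [List.getD_eq_getElem?_getD, List.getElem?_append_left h, List.getElem?_eq_getElem h]
  rfl

theorem hB_mem {n m : ℕ} (L : SuperPartition n m) (x : ℕ) :
    x ∈ L.a ↔ ∃ i : Fin m, L.part (i : ℕ) = x := by
  constructor
  · intro hx
    obtain ⟨i, hi, hx2⟩ := List.getElem_of_mem hx
    have hi2 : i < m := by rw [← L.a_length]; exact hi
    refine ⟨⟨i, hi2⟩, ?_⟩
    obtain ⟨h, hp⟩ := hB_part L ⟨i, hi2⟩
    rw [hp]
    exact hx2
  · rintro ⟨i, rfl⟩
    obtain ⟨h, hp⟩ := hB_part L i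
    rw [hp]
    exact List.getElem_mem h

theorem hB_ext {n m : ℕ} (L W : SuperPartition n m) (h1 : ∀ x, x ∈ L.a ↔ x ∈ W.a)
    (h2 : ∀ k, L.s.count k = W.s.count k) : L = W := by
  apply SuperPartition.ext
  · apply List.Perm.eq_of_pairwise (le := fun a b => a > b) _ L.a_strict W.a_strict
    · rw [List.perm_ext_iff_of_nodup]
      · exact h1
      · exact L.a_strict.imp (fun h => ne_of_gt h)
      · exact W.a_strict.imp (fun h => ne_of_gt h)
    · intro a b _ _ hab hba
      omega
  · apply List.Perm.eq_of_pairwise (le := fun a b => a ≥ b) _ L.s_weak W.s_weak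
    · rw [List.perm_iff_count]
      exact h2
    · intro a b _ _ hab hba
      omega

/-- HINT: `Th_ev_class` for `d` and `e`. If `d` (or `e`) is not injective on the `t`-part then the left side is 0 and so is the
signed sum on the right (if `d` is not injective pair `w` with `w * swap`; if `e` is not injective no term unless `d` is not
either). Otherwise: let `W_d, w_d`, `W_e, w_e`; `B (pLam W_d) (pLam W_e)` is nonzero only if `W_d = W_e`, and
`e = equivMapDomain (tperm (emb 0 m w)) d` for some (then unique) `w` iff `W_d = W_e`, with `w = w_e * w_d⁻¹`, sign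
`sgn w_e sgn w_d`; and `fw d = α^{length s} z_s`. So `C = (N-m)!² (-1)^(m choose 2) α^m`. -/
theorem hB_of_B (N n m : ℕ) (hm : m ≤ N) (B : LinearMap.BilinForm K (Superspace K N))
    (hB : ∀ L W : SuperPartition n m, B (pLam K N L) (pLam K N W) =
      if L = W then (-1) ^ (m.choose 2) * (al : K) ^ (m + L.s.length) * (zLam L.s : K) else 0)
    (d e : (ℕ ⊕ ℕ) →₀ ℕ) (hd : Adm m n d) (he : Adm m n e) :
    B (Th N m (ev N (monomial d 1))) (Th N m (ev N (monomial e 1))) =
      ((((N - m).factorial : ℕ) : K) ^ 2 * (-1) ^ (m.choose 2) * (al : K) ^ m) *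
        ∑ w : Equiv.Perm (Fin m), (((Equiv.Perm.sign w : ℤ)) : K) *
          (if e = Finsupp.equivMapDomain (tperm (emb 0 m w)) d then fw d else 0) := by
  classical
  rcases Th_ev_class (K := K) N m n hm d hd with ⟨hinj, hz⟩ | ⟨Wd, wd, hd1, hd2, hd3, hd4⟩
  · rw [hz, map_zero, LinearMap.zero_apply]
    have hsum : ∑ w : Equiv.Perm (Fin m), (((Equiv.Perm.sign w : ℤ)) : K) *
          (if e = Finsupp.equivMapDomain (tperm (emb 0 m w)) d then fw d else 0) = 0 := by
      rw [Function.Injective] at hinj
      push Not at hinj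
      obtain ⟨i, j, hij, hne⟩ := hinj
      apply Finset.sum_involution (fun w _ => w * Equiv.swap i j)
      · intro w _
        have h1 : (e = Finsupp.equivMapDomain (tperm (emb 0 m (w * Equiv.swap i j))) d)
            ↔ (e = Finsupp.equivMapDomain (tperm (emb 0 m w)) d) := by
          rw [hB_cond_iff d e hd he, hB_cond_iff d e hd he]
          apply and_congr_left
          intro _
          have h2 : ∀ l : Fin m, d (Sum.inl ((Equiv.swap i j l : Fin m) : ℕ))
              = d (Sum.inl (l : ℕ)) := by
            intro l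
            by_cases hl : l = i
            · rw [hl, Equiv.swap_apply_left]
              exact hij.symm
            · by_cases hl2 : l = j
              · rw [hl2, Equiv.swap_apply_right]
                exact hij
              · rw [Equiv.swap_apply_of_ne_of_ne hl hl2]
          constructor
          · intro h l
            have h3 := h (Equiv.swap i j l)
            rw [Equiv.Perm.mul_apply, Equiv.swap_apply_self, h2] at h3
            exact h3
          · intro h l
            rw [Equiv.Perm.mul_apply, h, h2]
        simp only [h1]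
        rw [Equiv.Perm.sign_mul, Equiv.Perm.sign_swap hne]
        push_cast
        ring
      · intro w _ _ hw
        have h1 : Equiv.swap i j = 1 := by
          exact mul_eq_left.mp hw
        have h2 : Equiv.swap i j i = i := by rw [h1]; rfl
        rw [Equiv.swap_apply_left] at h2
        exact hne h2.symm
      · intro w _
        exact Finset.mem_univ _
      · intro w _
        rw [mul_assoc, Equiv.swap_mul_self, mul_one]
    rw [hsum, mul_zero]
  · rcases Th_ev_class (K := K) N m n hm e he with ⟨hinj, hz⟩ | ⟨We, we, he1, he2, he3, he4⟩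
    · rw [hz, map_zero]
      have hsum : ∑ w : Equiv.Perm (Fin m), (((Equiv.Perm.sign w : ℤ)) : K) *
          (if e = Finsupp.equivMapDomain (tperm (emb 0 m w)) d then fw d else 0) = 0 := by
        apply Finset.sum_eq_zero
        intro w _
        rw [if_neg, mul_zero]
        intro hcon
        apply hinj
        rw [hB_cond_iff d e hd he] at hcon
        intro i j hij
        have h1 := hcon.1 (w.symm i)
        have h2 := hcon.1 (w.symm j)
        rw [Equiv.apply_symm_apply] at h1 h2
        have hij' : e (Sum.inl (i : ℕ)) = e (Sum.inl (j : ℕ)) := hij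
        rw [h1, h2] at hij'
        exact w.symm.injective (hd3 hij')
      rw [hsum, mul_zero]
    · rw [hd4, he4, map_smul, map_smul, LinearMap.smul_apply, hB, smul_eq_mul, smul_eq_mul]
      by_cases hW : Wd = We
      · rw [if_pos hW]
        subst hW
        have hterm : ∀ w : Equiv.Perm (Fin m),
            (e = Finsupp.equivMapDomain (tperm (emb 0 m w)) d) ↔ w = we * wd⁻¹ := by
          intro w
          rw [hB_cond_iff d e hd he]
          constructor
          · rintro ⟨h1, -⟩
            rw [eq_mul_inv_iff_mul_eq]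
            ext1 i
            have h2 := h1 (wd i)
            rw [hd1, ← he1] at h2
            exact he3 h2
          · intro hw
            refine ⟨fun i => ?_, fun k => by rw [hd2, he2]⟩
            have h1 := hd1 (wd⁻¹ i)
            rw [show wd (wd⁻¹ i) = i from wd.apply_symm_apply i] at h1
            rw [h1, hw, Equiv.Perm.mul_apply, he1]
        have hsum : ∑ w : Equiv.Perm (Fin m), (((Equiv.Perm.sign w : ℤ)) : K) *
            (if e = Finsupp.equivMapDomain (tperm (emb 0 m w)) d then fw d else 0)
            = (((Equiv.Perm.sign we : ℤ)) : K) * (((Equiv.Perm.sign wd : ℤ)) : K) * fw d := by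
          rw [Finset.sum_eq_single (we * wd⁻¹)]
          · rw [if_pos ((hterm _).mpr rfl), Equiv.Perm.sign_mul, Equiv.Perm.sign_inv]
            push_cast
            ring
          · intro w _ hw
            rw [if_neg (fun h => hw ((hterm w).mp h)), mul_zero]
          · intro h
            exact absurd (Finset.mem_univ _) h
        rw [hsum, hB_fw d Wd.s hd2, pow_add]
        ring
      · rw [if_neg hW, mul_zero, mul_zero]
        have hsum : ∑ w : Equiv.Perm (Fin m), (((Equiv.Perm.sign w : ℤ)) : K) *
            (if e = Finsupp.equivMapDomain (tperm (emb 0 m w)) d then fw d else 0) = 0 := by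
          apply Finset.sum_eq_zero
          intro w _
          rw [if_neg, mul_zero]
          intro hcon
          apply hW
          rw [hB_cond_iff d e hd he] at hcon
          apply hB_ext
          · intro x
            rw [hB_mem, hB_mem]
            constructor
            · rintro ⟨i, hi⟩
              refine ⟨we.symm (w (wd i)), ?_⟩
              rw [← he1, Equiv.apply_symm_apply, hcon.1, hd1, hi]
            · rintro ⟨i, hi⟩
              refine ⟨wd.symm (w.symm (we i)), ?_⟩
              rw [← hd1, Equiv.apply_symm_apply, ← hcon.1, Equiv.apply_symm_apply, he1, hi]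
          · intro k
            rw [← hd2, ← he2, hcon.2]
        rw [hsum, mul_zero]

end JSup
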