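import Pool.Agent.Helper204.JS.Stmt
import Pool.Agent.Helper204.JS.Defs
import Pool.Agent.Helper204.JS.Defs1
import Pool.Agent.Helper204.JS.Defs2
import Pool.Agent.Helper204.JS.Defs3

set_option linter.unusedSectionVars false

open MvPolynomial Finset

noncomputable section

namespace JSup
variable {K : Type} [Field K] [CharZero K] [Par K]



/-- weight of an exponent -/
def aoW (d : (ℕ ⊕ ℕ) →₀ ℕ) : ℕ := d.sum (fun v c => Sum.elim (fun _ => c) (fun k => k * c) v)

theorem aoW_add (d e : (ℕ ⊕ ℕ) →₀ ℕ) : aoW (d + e) = aoW d + aoW e := by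
  unfold aoW
  rw [Finsupp.sum_add_index']
  · intro v; cases v <;> simp
  · intro v b c; cases v
    · simp
    · simp [mul_add]

theorem aoW_single_inl (i c : ℕ) : aoW (Finsupp.single (Sum.inl i) c) = c := by
  unfold aoW
  rw [Finsupp.sum_single_index] <;> simp

theorem aoW_single_inr (k c : ℕ) : aoW (Finsupp.single (Sum.inr k) c) = k * c := by
  unfold aoW
  rw [Finsupp.sum_single_index] <;> simp

theorem aoW_sub_inl (d : (ℕ ⊕ ℕ) →₀ ℕ) (i c : ℕ) (h : c ≤ d (Sum.inl i)) :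
    aoW (d - Finsupp.single (Sum.inl i) c) + c = aoW d := by
  have h1 : (d - Finsupp.single (Sum.inl i) c) + Finsupp.single (Sum.inl i) c = d :=
    tsub_add_cancel_of_le (Finsupp.single_le_iff.2 h)
  conv_rhs => rw [← h1]
  rw [aoW_add, aoW_single_inl]

theorem aoW_sub_inr (d : (ℕ ⊕ ℕ) →₀ ℕ) (k c : ℕ) (h : c ≤ d (Sum.inr k)) :
    aoW (d - Finsupp.single (Sum.inr k) c) + k * c = aoW d := by
  have h1 : (d - Finsupp.single (Sum.inr k) c) + Finsupp.single (Sum.inr k) c = d :=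
    tsub_add_cancel_of_le (Finsupp.single_le_iff.2 h)
  conv_rhs => rw [← h1]
  rw [aoW_add, aoW_single_inr]

theorem aoAdm_iff (m n : ℕ) (d : (ℕ ⊕ ℕ) →₀ ℕ) :
    Adm m n d ↔ (∀ i, m ≤ i → d (Sum.inl i) = 0) ∧ d (Sum.inr 0) = 0 ∧ aoW d = n := Iff.rfl

theorem aoAdmP_zero (m n : ℕ) : AdmP m n (0 : MvPolynomial (ℕ ⊕ ℕ) K) := by
  intro d hd
  simp at hd

theorem aoAdmP_add {m n : ℕ} {p q : MvPolynomial (ℕ ⊕ ℕ) K} (hp : AdmP m n p) (hq : AdmP m n q) :
    AdmP m n (p + q) := by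
  classical
  intro d hd
  have h1 := MvPolynomial.support_add hd
  rcases Finset.mem_union.1 h1 with h | h
  · exact hp d h
  · exact hq d h

theorem aoAdmP_sum {ι : Type} {m n : ℕ} (s : Finset ι) (f : ι → MvPolynomial (ℕ ⊕ ℕ) K)
    (h : ∀ i ∈ s, AdmP m n (f i)) : AdmP m n (∑ i ∈ s, f i) := by
  classical
  induction s using Finset.induction_on with
  | empty => simpa using aoAdmP_zero m n
  | insert a s ha ih =>
    rw [Finset.sum_insert ha]
    exact aoAdmP_add (h a (Finset.mem_insert_self _ _))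
      (ih fun i hi => h i (Finset.mem_insert_of_mem hi))

theorem aoAdmP_monomial {m n : ℕ} {d : (ℕ ⊕ ℕ) →₀ ℕ} (h : Adm m n d) (a : K) :
    AdmP m n (monomial d a) := by
  intro d' hd'
  have h1 := MvPolynomial.support_monomial_subset hd'
  rw [Finset.mem_singleton] at h1
  rw [h1]
  exact h

theorem aoAdmP_map {m n n' : ℕ} {G : MvPolynomial (ℕ ⊕ ℕ) K} (hG : AdmP m n G)
    (T : MvPolynomial (ℕ ⊕ ℕ) K →ₗ[K] MvPolynomial (ℕ ⊕ ℕ) K)
    (hT : ∀ d (a : K), Adm m n d → AdmP m n' (T (monomial d a))) : AdmP m n' (T G) := by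
  rw [← MvPolynomial.support_sum_monomial_coeff G, map_sum]
  exact aoAdmP_sum _ _ fun d hd => hT d _ (hG d hd)

theorem aoMap_zero {m n : ℕ} {G : MvPolynomial (ℕ ⊕ ℕ) K} (hG : AdmP m n G)
    (T : MvPolynomial (ℕ ⊕ ℕ) K →ₗ[K] MvPolynomial (ℕ ⊕ ℕ) K)
    (hT : ∀ d (a : K), Adm m n d → T (monomial d a) = 0) : T G = 0 := by
  rw [← MvPolynomial.support_sum_monomial_coeff G, map_sum]
  exact Finset.sum_eq_zero fun d hd => hT d _ (hG d hd)

theorem aoTht_monomial (i : ℕ) (d : (ℕ ⊕ ℕ) →₀ ℕ) (a : K) :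
    tht i (monomial d a) = monomial d (a * (d (Sum.inl i) : K)) := by
  rw [tht_apply, pderiv_monomial]
  by_cases h : d (Sum.inl i) = 0
  · rw [h]
    simp
  · have h1 : Finsupp.single (Sum.inl i) 1 + (d - Finsupp.single (Sum.inl i) 1) = d :=
      add_tsub_cancel_of_le (Finsupp.single_le_iff.2 (Nat.one_le_iff_ne_zero.2 h))
    rw [X, monomial_mul, h1, one_mul]

theorem aoDp_monomial (k : ℕ) (d : (ℕ ⊕ ℕ) →₀ ℕ) (a : K) :
    dp k (monomial d a) = monomial (d - Finsupp.single (Sum.inr k) 1) (a * (d (Sum.inr k) : K)) := by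
  rw [dp_apply, pderiv_monomial]

theorem aoW_ge_inl (d : (ℕ ⊕ ℕ) →₀ ℕ) (i : ℕ) : d (Sum.inl i) ≤ aoW d := by
  have := aoW_sub_inl d i (d (Sum.inl i)) le_rfl
  omega

theorem aoW_ge_inr (d : (ℕ ⊕ ℕ) →₀ ℕ) (k : ℕ) (h : d (Sum.inr k) ≠ 0) : k ≤ aoW d := by
  have := aoW_sub_inr d k 1 (Nat.one_le_iff_ne_zero.2 h)
  omega

/-- HINT: on monomials: weights: `t_i` has weight 1, `p_k` has weight `k`. -/
theorem adm_ops (m n : ℕ) (G : MvPolynomial (ℕ ⊕ ℕ) K) (hG : AdmP m n G) :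
    (∀ i, m ≤ i → tht i G = 0) ∧ (∀ i c, m ≤ i → 1 ≤ c → tau i c G = 0) ∧ (∀ i c, n < c → tau i c G = 0) ∧
    (∀ k, n < k → dp k G = 0) ∧ dp 0 G = 0 ∧
    (∀ k l, n < k + l → dp k (dp l G) = 0) ∧
    (∀ i, AdmP m n (tht i G)) ∧ (∀ k, k ≤ n → AdmP m (n - k) (dp k G)) ∧
    (∀ i c, c ≤ n → AdmP m (n - c) (tau i c G)) ∧
    (∀ i c, i < m → AdmP m (n + c) (mt i c G)) ∧ (∀ k, 1 ≤ k → AdmP m (n + k) (mp k G)) ∧
    (∀ c : K, AdmP m n (c • G)) ∧ (∀ w : Equiv.Perm (Fin m), AdmP m n (rename (tperm (emb 0 m w)) G)) := by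
  have hdp0 : ∀ (n' : ℕ) (G' : MvPolynomial (ℕ ⊕ ℕ) K), AdmP m n' G' → ∀ k, n' < k →
      dp k G' = 0 := by
    intro n' G' hG' k hk
    refine aoMap_zero hG' _ fun d a hd => ?_
    obtain ⟨h1, h2, h3⟩ := (aoAdm_iff m n' d).1 hd
    rw [aoDp_monomial]
    have h4 : d (Sum.inr k) = 0 := by
      by_contra h5
      have := aoW_ge_inr d k h5
      omega
    rw [h4]
    simp
  have hdpA : ∀ k, k ≤ n → AdmP m (n - k) (dp k G) := by
    intro k hk
    refine aoAdmP_map hG _ fun d a hd => ?_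
    obtain ⟨h1, h2, h3⟩ := (aoAdm_iff m n d).1 hd
    rw [aoDp_monomial]
    by_cases h4 : d (Sum.inr k) = 0
    · rw [h4]
      simpa using aoAdmP_zero m (n - k)
    · refine aoAdmP_monomial ((aoAdm_iff _ _ _).2 ⟨?_, ?_, ?_⟩) _
      · intro i hi
        rw [Finsupp.tsub_apply, h1 i hi, zero_tsub]
      · rw [Finsupp.tsub_apply, h2, zero_tsub]
      · have := aoW_sub_inr d k 1 (Nat.one_le_iff_ne_zero.2 h4)
        omega
  refine ⟨?_, ?_, ?_, hdp0 n G hG, ?_, ?_, ?_, hdpA, ?_, ?_, ?_, ?_, ?_⟩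
  · intro i hi
    refine aoMap_zero hG _ fun d a hd => ?_
    rw [aoTht_monomial, hd.1 i hi]
    simp
  · intro i c hi hc
    refine aoMap_zero hG _ fun d a hd => ?_
    rw [tau_monomial, if_neg]
    rw [hd.1 i hi]
    omega
  · intro i c hc
    refine aoMap_zero hG _ fun d a hd => ?_
    rw [tau_monomial, if_neg]
    have h1 := aoW_ge_inl d i
    have h2 : aoW d = n := hd.2.2
    omega
  · refine aoMap_zero hG _ fun d a hd => ?_
    rw [aoDp_monomial, hd.2.1]
    simp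
  · intro k l hkl
    by_cases hl : l ≤ n
    · exact hdp0 (n - l) _ (hdpA l hl) k (by omega)
    · rw [hdp0 n G hG l (by omega), map_zero]
  · intro i
    refine aoAdmP_map hG _ fun d a hd => ?_
    rw [aoTht_monomial]
    exact aoAdmP_monomial hd _
  · intro i c hc
    refine aoAdmP_map hG _ fun d a hd => ?_
    obtain ⟨h1, h2, h3⟩ := (aoAdm_iff m n d).1 hd
    rw [tau_monomial]
    split_ifs with h4
    · refine aoAdmP_monomial ((aoAdm_iff _ _ _).2 ⟨?_, ?_, ?_⟩) _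
      · intro i hi
        rw [Finsupp.tsub_apply, h1 i hi, zero_tsub]
      · rw [Finsupp.tsub_apply, h2, zero_tsub]
      · have := aoW_sub_inl d i c h4
        omega
    · exact aoAdmP_zero _ _
  · intro i c hi
    refine aoAdmP_map hG _ fun d a hd => ?_
    obtain ⟨h1, h2, h3⟩ := (aoAdm_iff m n d).1 hd
    rw [mt_apply, X_pow_eq_monomial, monomial_mul]
    refine aoAdmP_monomial ((aoAdm_iff _ _ _).2 ⟨?_, ?_, ?_⟩) _
    · intro i' hi'
      have hne : (Sum.inl i : ℕ ⊕ ℕ) ≠ Sum.inl i' := by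
        intro h
        rw [Sum.inl.injEq] at h
        omega
      rw [Finsupp.add_apply, h1 i' hi', Finsupp.single_apply, if_neg hne]
    · rw [Finsupp.add_apply, h2, Finsupp.single_apply, if_neg (by simp)]
    · rw [aoW_add, aoW_single_inl, h3]
      omega
  · intro k hk
    refine aoAdmP_map hG _ fun d a hd => ?_
    obtain ⟨h1, h2, h3⟩ := (aoAdm_iff m n d).1 hd
    rw [mp_apply, X, monomial_mul]
    refine aoAdmP_monomial ((aoAdm_iff _ _ _).2 ⟨?_, ?_, ?_⟩) _
    · intro i' hi'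
      rw [Finsupp.add_apply, h1 i' hi', Finsupp.single_apply, if_neg (by simp)]
    · have hne : (Sum.inr k : ℕ ⊕ ℕ) ≠ Sum.inr 0 := by
        intro h
        rw [Sum.inr.injEq] at h
        omega
      rw [Finsupp.add_apply, h2, Finsupp.single_apply, if_neg hne]
    · rw [aoW_add, aoW_single_inr, h3]
      omega
  · intro c d hd
    exact hG d (MvPolynomial.support_smul hd)
  · intro w
    have hlin := aoAdmP_map hG
      (rename (tperm (emb 0 m w)) : MvPolynomial (ℕ ⊕ ℕ) K →ₐ[K] MvPolynomial (ℕ ⊕ ℕ) K).toLinearMap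
      (n' := n) ?_
    · exact hlin
    · intro d a hd
      obtain ⟨h1, h2, h3⟩ := (aoAdm_iff m n d).1 hd
      show AdmP m n (rename (tperm (emb 0 m w)) (monomial d a))
      rw [rename_monomial]
      have hinj : Function.Injective (tperm (emb 0 m w)) := Equiv.injective _
      refine aoAdmP_monomial ((aoAdm_iff _ _ _).2 ⟨?_, ?_, ?_⟩) _
      · intro i hi
        have hfix : tperm (emb 0 m w) (Sum.inl i) = Sum.inl i := by
          show (Sum.inl (emb 0 m w i) : ℕ ⊕ ℕ) = Sum.inl i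
          rw [emb_out 0 m w i (Or.inr (by omega))]
        rw [← hfix, Finsupp.mapDomain_apply hinj]
        exact h1 i hi
      · have hfix : tperm (emb 0 m w) (Sum.inr 0) = Sum.inr 0 := rfl
        rw [← hfix, Finsupp.mapDomain_apply hinj]
        exact h2
      · unfold aoW
        rw [Finsupp.sum_mapDomain_index]
        · rw [← h3]
          unfold aoW
          refine Finsupp.sum_congr fun v _ => ?_
          cases v <;> rfl
        · intro v; cases v <;> simp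
        · intro v b c; cases v
          · simp
          · simp [mul_add]

end JSup
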