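import Pool.Agent.Helper204.JS.Stmt
import Pool.Agent.Helper204.JS.Defs
import Pool.Agent.Helper204.JS.Defs1
import Pool.Agent.Helper204.JS.Defs2
import Pool.Agent.Helper204.JS.Defs3
import Pool.Agent.Helper204.JS.P_TT_spec
import Pool.Agent.Helper204.JS.P_del_ev
import Pool.Agent.Helper204.JS.P_adm_ops
import Pool.Agent.Helper204.JS.P_subst_def
import Pool.Agent.Helper204.JS.P_subst_cases

set_option linter.unusedSectionVars false

open MvPolynomial Finset

noncomputable section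

namespace JSup
variable {K : Type} [Field K] [CharZero K] [Par K]



theorem ttev_S {R : Type} [CommRing R] (x y : R) (k : ℕ) (hk : 1 ≤ k) :
    (x - y) * ∑ c ∈ Ico 1 k, x ^ c * y ^ (k - c) = x ^ k * y - x * y ^ k := by
  induction k, hk using Nat.le_induction with
  | base => simp
  | succ k hk ih =>
    rw [Finset.sum_Ico_succ_top hk]
    have h1 : ∑ c ∈ Ico 1 k, x ^ c * y ^ (k + 1 - c) = y * ∑ c ∈ Ico 1 k, x ^ c * y ^ (k - c) := by
      rw [Finset.mul_sum]
      apply Finset.sum_congr rfl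
      intro c hc
      rw [Finset.mem_Ico] at hc
      have h2 : k + 1 - c = (k - c) + 1 := by omega
      rw [h2, pow_succ]
      ring
    have h3 : k + 1 - k = 1 := by omega
    rw [h1, h3]
    linear_combination y * ih

theorem ttev_p {R : Type} [CommRing R] (x y : R) (k : ℕ) (hk : 1 ≤ k) :
    (x - y) ^ 2 * (x ^ k + y ^ k + 2 * ∑ c ∈ Ico 1 k, x ^ c * y ^ (k - c))
      = (x ^ 2 - y ^ 2) * (x ^ k - y ^ k) := by
  linear_combination 2 * (x - y) * ttev_S x y k hk

theorem ttev_subst (m n j : ℕ) (hj : m ≤ j) (v0 : MvPolynomial (ℕ ⊕ ℕ) K)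
    (G : MvPolynomial (ℕ ⊕ ℕ) K) (hG : AdmP m n G) :
    aeval (fun v => if v = Sum.inl j then v0 else X v) G = G := by
  conv_rhs => rw [← MvPolynomial.aeval_X_left_apply G]
  apply MvPolynomial.eval₂Hom_congr' rfl _ rfl
  intro v hv _
  rw [if_neg]
  intro hvj
  rw [hvj, MvPolynomial.mem_vars_iff_mem_support] at hv
  obtain ⟨d, hd, hd2⟩ := hv
  exact (Finsupp.mem_support_iff.mp hd2) ((hG d hd).1 j hj)

theorem ttev_X (N i : ℕ) : ev N (X (Sum.inl i) : MvPolynomial (ℕ ⊕ ℕ) K) = X i := by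
  simp [ev]

/-- HINT: cancel `(x_i - x_j)²`, use `TT_spec`, `del_ev`, `subst_def` (second part, for `(i,j)` and for `(j,i)`),
`subst_cases`. The `p`-part: `(x_i² - x_j²)(x_i^k - x_j^k) = (x_i - x_j)² (x_i^k + x_j^k + 2 Σ_{c=1}^{k-1} x_i^c x_j^{k-c})`.
Three cases: both `≥ m` (no `t_i`, `t_j`: everything except the p-part vanishes), exactly one `< m`, both `< m`
(alternating: `f - s f = 2 f`, both substitutions vanish). -/
theorem TT_ev (N m n i j : ℕ) (hiN : i < N) (hjN : j < N) (hij : i ≠ j) (G : MvPolynomial (ℕ ⊕ ℕ) K)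
    (hG : AdmP m n G) (hA : AltT m G) :
    TT i j (ev N G) =
      ∑ k ∈ Icc 1 n, (k : K) • ((X i ^ k + X j ^ k + 2 * ∑ c ∈ Ico 1 k, X i ^ c * X j ^ (k - c)) * ev N (dp k G))
      + ev N (tht i G) + ev N (tht j G)
      + 2 * ∑ c ∈ Icc 1 n, (X j ^ c * ev N (tht i (tau i c G)) + X i ^ c * ev N (tht j (tau j c G))) := by
  apply mul_left_cancel₀ (pow_ne_zero 2 (X_sub_ne (R := K) hij))
  have hS : ev N (aeval (fun v => if v = Sum.inl i then X (Sum.inl j) else X v) G)
      + ev N (aeval (fun v => if v = Sum.inl j then X (Sum.inl i) else X v) G)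
      = ev N G + rename (Equiv.swap i j) (ev N G) := by
    obtain ⟨a1, a2, a3, a4⟩ := subst_cases N m n i j hiN hjN hij G hG
    obtain ⟨b1, b2, b3, b4⟩ := subst_cases N m n j i hjN hiN hij.symm G hG
    rw [Equiv.swap_comm j i] at b1
    rcases Nat.lt_or_ge i m with hi | hi
    · rcases Nat.lt_or_ge j m with hj | hj
      · rw [a2 hi hj hA, b2 hj hi hA, a3 hi hj hA, map_zero]
        ring
      · rw [a1 hj, ttev_subst m n j hj _ G hG]
        ring
    · rcases Nat.lt_or_ge j m with hj | hj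
      · rw [b1 hi, ttev_subst m n i hi _ G hG]
      · rw [a1 hj, b1 hi, a4 hi hj]
  have hp : (X i - X j) ^ 2 * ∑ k ∈ Icc 1 n, (k : K) •
        ((X i ^ k + X j ^ k + 2 * ∑ c ∈ Ico 1 k, X i ^ c * X j ^ (k - c)) * ev N (dp k G))
      = (X i ^ 2 - X j ^ 2) * (∑ k ∈ Icc 1 n, (k : K) • (X i ^ k * ev N (dp k G))
        - ∑ k ∈ Icc 1 n, (k : K) • (X j ^ k * ev N (dp k G))) := by
    rw [← Finset.sum_sub_distrib, Finset.mul_sum, Finset.mul_sum]
    apply Finset.sum_congr rfl
    intro k hk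
    rw [Finset.mem_Icc] at hk
    rw [← smul_sub, mul_smul_comm, mul_smul_comm, ← mul_assoc, ttev_p _ _ k hk.1]
    congr 1
    ring
  have hdi : del i (ev N G) = ev N (tht i G)
      + ∑ k ∈ Icc 1 n, (k : K) • (X i ^ k * ev N (dp k G)) := by
    rw [del_ev N m n i hiN G hG, map_add, map_sum]
    congr 1
    apply Finset.sum_congr rfl
    intro k _
    rw [map_smul, mt_apply, map_mul, map_pow, ttev_X]
  have hdj : del j (ev N G) = ev N (tht j G)
      + ∑ k ∈ Icc 1 n, (k : K) • (X j ^ k * ev N (dp k G)) := by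
    rw [del_ev N m n j hjN G hG, map_add, map_sum]
    congr 1
    apply Finset.sum_congr rfl
    intro k _
    rw [map_smul, mt_apply, map_mul, map_pow, ttev_X]
  have key1 := (subst_def N m n i j hij G hG).2
  have key2 := (subst_def N m n j i hij.symm G hG).2
  rw [TT_spec hij, hdi, hdj, Finset.sum_add_distrib]
  linear_combination (-1 : MvPolynomial ℕ K) * hp - key1 - key2 - 2 * X i * X j * hS

end JSup
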