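import Pool.Agent.Helper204.JS.Stmt
import Pool.Agent.Helper204.JS.Defs
import Pool.Agent.Helper204.JS.Defs1
import Pool.Agent.Helper204.JS.Defs2
import Pool.Agent.Helper204.JS.Defs3

set_option linter.unusedSectionVars false

open MvPolynomial Finset

noncomputable section

namespace JSup
variable {K : Type} [Field K] [CharZero K] [Par K]



theorem psp_reflect {A : Type*} [CommRing A] (k : ℕ) (P Q : ℕ → A) :
    ∑ c ∈ Ico 1 k, Q c * P (k - c) = ∑ c ∈ Ico 1 k, P c * Q (k - c) := by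
  refine Finset.sum_nbij' (fun c => k - c) (fun c => k - c) ?_ ?_ ?_ ?_ ?_
  · intro c hc
    rw [Finset.mem_Ico] at hc ⊢
    omega
  · intro c hc
    rw [Finset.mem_Ico] at hc ⊢
    omega
  · intro c hc
    rw [Finset.mem_Ico] at hc
    omega
  · intro c hc
    rw [Finset.mem_Ico] at hc
    omega
  · intro c hc
    rw [Finset.mem_Ico] at hc
    have : k - (k - c) = c := by omega
    rw [this, mul_comm]

theorem psp_double {A : Type*} [CommRing A] (f : ℕ → ℕ → A) (N : ℕ) :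
    ∑ i ∈ range (N + 1), ∑ j ∈ Ioo i (N + 1), f i j =
      (∑ i ∈ range N, ∑ j ∈ Ioo i N, f i j) + ∑ i ∈ range N, f i N := by
  rw [Finset.sum_range_succ]
  have h1 : Ioo N (N + 1) = ∅ := by
    ext j
    simp only [Finset.mem_Ioo, Finset.notMem_empty, iff_false]
    omega
  rw [h1, Finset.sum_empty, add_zero, ← Finset.sum_add_distrib]
  refine Finset.sum_congr rfl fun i hi => ?_
  rw [Finset.mem_range] at hi
  have h2 : Ioo i (N + 1) = insert N (Ioo i N) := by
    ext j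
    simp only [Finset.mem_Ioo, Finset.mem_insert]
    omega
  rw [h2, Finset.sum_insert (by simp), add_comm]

theorem psp_aux {A : Type*} [CommRing A] (x : ℕ → A) (k : ℕ) (hk : 1 ≤ k) (N : ℕ) :
    ∑ i ∈ range N, ∑ j ∈ Ioo i N, (x i ^ k + x j ^ k + 2 * ∑ c ∈ Ico 1 k, x i ^ c * x j ^ (k - c))
      = ((N : A) - (k : A)) * (∑ j ∈ range N, x j ^ k)
        + ∑ c ∈ Ico 1 k, (∑ j ∈ range N, x j ^ c) * (∑ j ∈ range N, x j ^ (k - c)) := by
  induction N with
  | zero => simp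
  | succ N ih =>
    rw [psp_double (fun i j => x i ^ k + x j ^ k + 2 * ∑ c ∈ Ico 1 k, x i ^ c * x j ^ (k - c)), ih]
    set P : ℕ → A := fun c => ∑ j ∈ range N, x j ^ c with hP
    have e1 : ∀ c, ∑ j ∈ range (N + 1), x j ^ c = P c + x N ^ c := fun c =>
      Finset.sum_range_succ _ _
    have e2 : ∑ i ∈ range N, (x i ^ k + x N ^ k + 2 * ∑ c ∈ Ico 1 k, x i ^ c * x N ^ (k - c)) =
        P k + (N : A) * x N ^ k + 2 * ∑ c ∈ Ico 1 k, P c * x N ^ (k - c) := by
      rw [Finset.sum_add_distrib, Finset.sum_add_distrib, Finset.sum_const, Finset.card_range,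
        nsmul_eq_mul, ← Finset.mul_sum, Finset.sum_comm]
      congr 2
      refine Finset.sum_congr rfl fun c _ => ?_
      rw [hP, Finset.sum_mul]
    have e3 : ∑ c ∈ Ico 1 k, (∑ j ∈ range (N + 1), x j ^ c) * (∑ j ∈ range (N + 1), x j ^ (k - c)) =
        (∑ c ∈ Ico 1 k, P c * P (k - c)) + 2 * (∑ c ∈ Ico 1 k, P c * x N ^ (k - c)) +
          ((k : A) - 1) * x N ^ k := by
      have h1 : ∀ c ∈ Ico 1 k, (∑ j ∈ range (N + 1), x j ^ c) * (∑ j ∈ range (N + 1), x j ^ (k - c)) =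
          P c * P (k - c) + P c * x N ^ (k - c) + x N ^ c * P (k - c) + x N ^ k := by
        intro c hc
        rw [Finset.mem_Ico] at hc
        have h2 : x N ^ k = x N ^ c * x N ^ (k - c) := by
          rw [← pow_add]
          congr 1
          omega
        rw [e1, e1, h2]
        ring
      rw [Finset.sum_congr rfl h1, Finset.sum_add_distrib, Finset.sum_add_distrib,
        Finset.sum_add_distrib, Finset.sum_const, Nat.card_Ico, nsmul_eq_mul,
        psp_reflect k P (fun c => x N ^ c), Nat.cast_sub hk, Nat.cast_one]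
      ring
    rw [e2, e3, e1]
    push_cast
    ring

/-- HINT: `2 Σ_{i<j} Σ_c x_i^c x_j^{k-c} = Σ_c Σ_{i≠j} x_i^c x_j^{k-c} = Σ_{c=1}^{k-1} (p_c p_{k-c} - p_k)`. -/
theorem psum_pairs (N k : ℕ) (hk : 1 ≤ k) :
    ∑ i ∈ range N, ∑ j ∈ Ioo i N, ((X i : MvPolynomial ℕ K) ^ k + X j ^ k
        + 2 * ∑ c ∈ Ico 1 k, X i ^ c * X j ^ (k - c))
      = ((N : K) - (k : K)) • ev N (X (Sum.inr k) : MvPolynomial (ℕ ⊕ ℕ) K)
        + ∑ c ∈ Ico 1 k, ev N (X (Sum.inr c) * X (Sum.inr (k - c))) := by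
  have hev : ∀ c : ℕ, ev N (X (Sum.inr c) : MvPolynomial (ℕ ⊕ ℕ) K) =
      ∑ j ∈ range N, (X j : MvPolynomial ℕ K) ^ c := by
    intro c
    unfold ev
    rw [aeval_X]
    rfl
  rw [psp_aux (fun i => (X i : MvPolynomial ℕ K)) k hk N, hev, smul_eq_C_mul, map_sub,
    map_natCast, map_natCast]
  congr 1
  refine Finset.sum_congr rfl fun c _ => ?_
  rw [map_mul, hev, hev]

end JSup
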