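import Pool.Agent.Helper204.JS.Stmt
import Pool.Agent.Helper204.JS.Defs
import Pool.Agent.Helper204.JS.Defs1
import Pool.Agent.Helper204.JS.Defs2
import Pool.Agent.Helper204.JS.Defs3
import Pool.Agent.Helper204.JS.P_adm_ops
import Pool.Agent.Helper204.JS.P_tau_tht_sum
import Pool.Agent.Helper204.JS.P_TT_ev
import Pool.Agent.Helper204.JS.P_psum_pairs

set_option linter.unusedSectionVars false

open MvPolynomial Finset

noncomputable section

namespace JSup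
variable {K : Type} [Field K] [CharZero K] [Par K]



/-! helpers -/

theorem ts_pairs {V : Type} [AddCommGroup V] (N : ℕ) (g : ℕ → ℕ → V) :
    ∑ i ∈ range N, ∑ j ∈ Ioo i N, (g i j + g j i) =
      ∑ i ∈ range N, ∑ j ∈ range N, g i j - ∑ i ∈ range N, g i i := by
  induction N with
  | zero => simp
  | succ N ih =>
    have h1 : ∑ i ∈ range (N + 1), ∑ j ∈ Ioo i (N + 1), (g i j + g j i) =
        ∑ i ∈ range N, ∑ j ∈ Ioo i N, (g i j + g j i) + ∑ i ∈ range N, (g i N + g N i) := by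
      rw [sum_range_succ]
      have h0 : Ioo N (N + 1) = ∅ := by ext x; simp
      rw [h0, sum_empty, add_zero, ← sum_add_distrib]
      refine sum_congr rfl fun i hi => ?_
      have hi' := mem_range.1 hi
      have h2 : Ioo i (N + 1) = insert N (Ioo i N) := by
        ext x; simp only [mem_Ioo, mem_insert]; omega
      rw [h2, sum_insert (by simp), add_comm]
    rw [h1, ih]
    simp only [sum_range_succ, sum_add_distrib]
    abel

theorem ts_conv {V : Type} [AddCommGroup V] (n : ℕ) (f : ℕ → ℕ → V)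
    (hf : ∀ k l, n < k + l → f k l = 0) :
    ∑ k ∈ Icc 1 n, ∑ c ∈ Ico 1 k, f c (k - c) = ∑ k ∈ Icc 1 n, ∑ l ∈ Icc 1 n, f k l := by
  have h1 : ∑ k ∈ Icc 1 n, ∑ l ∈ Icc 1 n, f k l =
      ∑ p ∈ (Icc 1 n ×ˢ Icc 1 n).filter (fun p => p.1 + p.2 ≤ n), f p.1 p.2 := by
    rw [← sum_product', sum_filter]
    refine sum_congr rfl fun p _ => ?_
    split_ifs with h
    · rfl
    · exact hf _ _ (by omega)
  rw [h1, sum_sigma']
  refine sum_nbij' (fun x => (x.2, x.1 - x.2)) (fun p => ⟨p.1 + p.2, p.1⟩) ?_ ?_ ?_ ?_ ?_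
  · rintro ⟨k, c⟩ h
    simp only [mem_sigma, mem_Icc, mem_Ico, mem_filter, mem_product] at h ⊢
    omega
  · rintro ⟨k, c⟩ h
    simp only [mem_sigma, mem_Icc, mem_Ico, mem_filter, mem_product] at h ⊢
    omega
  · rintro ⟨k, c⟩ h
    simp only [mem_sigma, mem_Icc, mem_Ico] at h
    have : c + (k - c) = k := by omega
    simp [this]
  · rintro ⟨k, c⟩ h
    simp
  · rintro ⟨k, c⟩ h
    rfl

theorem ts_ev_mp (N k : ℕ) (H : MvPolynomial (ℕ ⊕ ℕ) K) :
    ev N (mp k H) = ev N (X (Sum.inr k)) * ev N H := by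
  rw [mp_apply, map_mul]

theorem ts_ev_mt (N i c : ℕ) (H : MvPolynomial (ℕ ⊕ ℕ) K) :
    ev N (mt i c H) = X i ^ c * ev N H := by
  rw [mt_apply, map_mul, map_pow]
  congr 2
  simp [ev]

theorem ts_ev_p (N k : ℕ) :
    ev N (X (Sum.inr k) : MvPolynomial (ℕ ⊕ ℕ) K) = ∑ j ∈ range N, X j ^ k := by
  simp [ev]

/-- HINT: `TT_ev`, `psum_pairs`; `Σ_{i<j} (ev θ_i G + ev θ_j G) = (N-1) Σ_{i<m} ev θ_i G`;
`Σ_{i<j<N} Σ_c (x_j^c ev(θ_i τ_i^c G) + x_i^c ev(θ_j τ_j^c G)) = Σ_{i<m} Σ_c (ev p_c - x_i^c) ev(θ_i τ_i^c G)` and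
`2 Σ_c x_i^c ev(θ_i τ_i^c G) = ev(θ_i² G - θ_i G)` (`tau_tht_sum`);
`Σ_{k ≤ n} k Σ_{c=1}^{k-1} p_c p_{k-c} ∂_k = Σ_{k,l ∈ [1,n]} (k+l) p_k p_l ∂_{k+l}` on `G` (`∂_{k+l} G = 0` if `k+l > n`). -/
theorem TTsum_ev (N m n : ℕ) (hm : m ≤ N) (G : MvPolynomial (ℕ ⊕ ℕ) K) (hG : AdmP m n G) (hA : AltT m G) :
    ∑ i ∈ range N, ∑ j ∈ Ioo i N, TT i j (ev N G) =
      ev N ((N : K) • (∑ i ∈ range m, tht i G + ∑ k ∈ Icc 1 n, (k : K) • mp k (dp k G))
        - (∑ i ∈ range m, tht i (tht i G) + ∑ k ∈ Icc 1 n, ((k : K) ^ 2) • mp k (dp k G))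
        + (2 : K) • ∑ i ∈ range m, ∑ k ∈ Icc 1 n, mp k (tht i (tau i k G))
        + ∑ k ∈ Icc 1 n, ∑ l ∈ Icc 1 n, ((k : K) + (l : K)) • mp k (mp l (dp (k + l) G))) := by
  obtain ⟨o1, o2, -, -, -, o6, -⟩ := adm_ops m n G hG
  have hdd : ∀ k, n < k → dp k G = 0 := (adm_ops m n G hG).2.2.2.1
  -- the terms
  have hTT : ∑ i ∈ range N, ∑ j ∈ Ioo i N, TT i j (ev N G) =
      ∑ i ∈ range N, ∑ j ∈ Ioo i N, (∑ k ∈ Icc 1 n, (k : K) • ((X i ^ k + X j ^ k +
        2 * ∑ c ∈ Ico 1 k, X i ^ c * X j ^ (k - c)) * ev N (dp k G)))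
      + ∑ i ∈ range N, ∑ j ∈ Ioo i N, (ev N (tht i G) + ev N (tht j G))
      + 2 * ∑ i ∈ range N, ∑ j ∈ Ioo i N, ((∑ c ∈ Icc 1 n, X j ^ c * ev N (tht i (tau i c G))) +
        (∑ c ∈ Icc 1 n, X i ^ c * ev N (tht j (tau j c G)))) := by
    rw [mul_sum, ← sum_add_distrib, ← sum_add_distrib]
    refine sum_congr rfl fun i hi => ?_
    rw [mul_sum, ← sum_add_distrib, ← sum_add_distrib]
    refine sum_congr rfl fun j hj => ?_
    have hi' := mem_range.1 hi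
    have hj' := mem_Ioo.1 hj
    rw [TT_ev N m n i j hi' hj'.2 (by omega) G hG hA, sum_add_distrib]
    abel
  -- first sum
  have hS1 : ∑ i ∈ range N, ∑ j ∈ Ioo i N, (∑ k ∈ Icc 1 n, (k : K) • ((X i ^ k + X j ^ k +
        2 * ∑ c ∈ Ico 1 k, X i ^ c * X j ^ (k - c)) * ev N (dp k G))) =
      ∑ k ∈ Icc 1 n, (k : K) • ((((N : K) - (k : K)) • ev N (X (Sum.inr k) : MvPolynomial (ℕ ⊕ ℕ) K)
        + ∑ c ∈ Ico 1 k, ev N (X (Sum.inr c) * X (Sum.inr (k - c)))) * ev N (dp k G)) := by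
    rw [sum_congr rfl (fun i _ => sum_comm), sum_comm]
    refine sum_congr rfl fun k hk => ?_
    rw [← psum_pairs N k (mem_Icc.1 hk).1, sum_mul, smul_sum]
    refine sum_congr rfl fun i _ => ?_
    rw [sum_mul, smul_sum]
  have hS2 : ∑ i ∈ range N, ∑ j ∈ Ioo i N, (ev N (tht i G) + ev N (tht j G)) =
      (N : K) • ∑ i ∈ range m, ev N (tht i G) - ∑ i ∈ range m, ev N (tht i G) := by
    rw [ts_pairs N (fun i _ => ev N (tht i G))]
    have h1 : ∑ i ∈ range N, ev N (tht i G) = ∑ i ∈ range m, ev N (tht i G) := by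
      symm
      refine sum_subset (range_subset_range.2 hm) fun i _ hi => ?_
      rw [o1 i (by simpa using hi), map_zero]
    have h2 : ∑ i ∈ range N, ∑ _j ∈ range N, ev N (tht i G) =
        (N : K) • ∑ i ∈ range N, ev N (tht i G) := by
      rw [smul_sum]
      refine sum_congr rfl fun i _ => ?_
      rw [sum_const, card_range, ← Nat.cast_smul_eq_nsmul K]
    rw [h2, h1]
  have hS3 : ∑ i ∈ range N, ∑ j ∈ Ioo i N, ((∑ c ∈ Icc 1 n, X j ^ c * ev N (tht i (tau i c G))) +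
        (∑ c ∈ Icc 1 n, X i ^ c * ev N (tht j (tau j c G)))) =
      ∑ i ∈ range m, ∑ c ∈ Icc 1 n, ev N (mp c (tht i (tau i c G))) -
      ∑ i ∈ range m, ∑ c ∈ Icc 1 n, ev N (mt i c (tht i (tau i c G))) := by
    rw [ts_pairs N (fun i j => ∑ c ∈ Icc 1 n, X j ^ c * ev N (tht i (tau i c G)))]
    have hz : ∀ i, m ≤ i → ∀ c ∈ Icc 1 n, tht i (tau i c G) = 0 := by
      intro i hi c hc
      rw [o2 i c hi (mem_Icc.1 hc).1, map_zero]
    have h1 : ∑ i ∈ range N, ∑ j ∈ range N, ∑ c ∈ Icc 1 n, X j ^ c * ev N (tht i (tau i c G)) =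
        ∑ i ∈ range m, ∑ c ∈ Icc 1 n, ev N (mp c (tht i (tau i c G))) := by
      have h2 : ∀ i ∈ range N, ∑ j ∈ range N, ∑ c ∈ Icc 1 n, X j ^ c * ev N (tht i (tau i c G)) =
          ∑ c ∈ Icc 1 n, ev N (mp c (tht i (tau i c G))) := by
        intro i _
        rw [sum_comm]
        refine sum_congr rfl fun c _ => ?_
        rw [ts_ev_mp, ts_ev_p, sum_mul]
      rw [sum_congr rfl h2]
      symm
      refine sum_subset (range_subset_range.2 hm) fun i _ hi => ?_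
      refine sum_eq_zero fun c hc => ?_
      rw [hz i (by simpa using hi) c hc, map_zero, map_zero]
    have h3 : ∑ i ∈ range N, ∑ c ∈ Icc 1 n, X i ^ c * ev N (tht i (tau i c G)) =
        ∑ i ∈ range m, ∑ c ∈ Icc 1 n, ev N (mt i c (tht i (tau i c G))) := by
      have h2 : ∀ i ∈ range N, ∑ c ∈ Icc 1 n, X i ^ c * ev N (tht i (tau i c G)) =
          ∑ c ∈ Icc 1 n, ev N (mt i c (tht i (tau i c G))) := by
        intro i _
        refine sum_congr rfl fun c _ => ?_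
        rw [ts_ev_mt]
      rw [sum_congr rfl h2]
      symm
      refine sum_subset (range_subset_range.2 hm) fun i _ hi => ?_
      refine sum_eq_zero fun c hc => ?_
      rw [hz i (by simpa using hi) c hc, map_zero, map_zero]
    rw [h1, h3]
  have hS4 : 2 * ∑ i ∈ range m, ∑ c ∈ Icc 1 n, ev N (mt i c (tht i (tau i c G))) =
      ∑ i ∈ range m, ev N (tht i (tht i G)) - ∑ i ∈ range m, ev N (tht i G) := by
    rw [mul_sum, ← sum_sub_distrib]
    refine sum_congr rfl fun i _ => ?_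
    have h1 := congrArg (ev N) (tau_tht_sum m n i G hG).2
    rw [map_smul, map_sub, map_sum] at h1
    rw [← h1, two_smul, two_mul]
  have hS5 : ∑ k ∈ Icc 1 n, (k : K) • ((∑ c ∈ Ico 1 k,
        ev N (X (Sum.inr c) * X (Sum.inr (k - c)))) * ev N (dp k G)) =
      ∑ k ∈ Icc 1 n, ∑ l ∈ Icc 1 n, ((k : K) + (l : K)) • ev N (mp k (mp l (dp (k + l) G))) := by
    rw [← ts_conv n (fun k l => ((k : K) + (l : K)) • ev N (mp k (mp l (dp (k + l) G))))]
    · refine sum_congr rfl fun k _ => ?_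
      rw [sum_mul, smul_sum]
      refine sum_congr rfl fun c hc => ?_
      have hc' := mem_Ico.1 hc
      have e1 : c + (k - c) = k := by omega
      have e2 : (c : K) + ((k - c : ℕ) : K) = (k : K) := by
        rw [← Nat.cast_add, e1]
      rw [e1, e2, ts_ev_mp, ts_ev_mp, map_mul, mul_assoc]
    · intro k l hkl
      rw [hdd (k + l) hkl]
      simp
  rw [hTT, hS1, hS2, hS3, mul_sub, hS4]
  have hsplit : ∑ k ∈ Icc 1 n, (k : K) • ((((N : K) - (k : K)) •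
        ev N (X (Sum.inr k) : MvPolynomial (ℕ ⊕ ℕ) K)
        + ∑ c ∈ Ico 1 k, ev N (X (Sum.inr c) * X (Sum.inr (k - c)))) * ev N (dp k G)) =
      (N : K) • ∑ k ∈ Icc 1 n, (k : K) • ev N (mp k (dp k G)) -
        ∑ k ∈ Icc 1 n, ((k : K) ^ 2) • ev N (mp k (dp k G)) +
      ∑ k ∈ Icc 1 n, (k : K) • ((∑ c ∈ Ico 1 k,
        ev N (X (Sum.inr c) * X (Sum.inr (k - c)))) * ev N (dp k G)) := by
    rw [smul_sum, ← sum_sub_distrib, ← sum_add_distrib]
    refine sum_congr rfl fun k _ => ?_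
    rw [add_mul, smul_add, ts_ev_mp, smul_mul_assoc, smul_smul, smul_smul, ← sub_smul]
    congr 2
    ring
  rw [hsplit, hS5]
  simp only [map_add, map_sub, map_smul, map_sum]
  rw [two_smul, two_mul, smul_add]
  abel

end JSup
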