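import Pool.Agent.Helper204.JS.Stmt
import Pool.Agent.Helper204.JS.Defs
import Pool.Agent.Helper204.JS.Defs1
import Pool.Agent.Helper204.JS.Defs2
import Pool.Agent.Helper204.JS.Defs3
import Pool.Agent.Helper204.JS.P_del_ev
import Pool.Agent.Helper204.JS.P_adm_ops

set_option linter.unusedSectionVars false

open MvPolynomial Finset

noncomputable section

namespace JSup
variable {K : Type} [Field K] [CharZero K] [Par K]



theorem q786_pd_comm {σ : Type} (i j : σ) (f : MvPolynomial σ K) :
    pderiv i (pderiv j f) = pderiv j (pderiv i f) := by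
  classical
  have h : ⁅(pderiv i : Derivation K (MvPolynomial σ K) (MvPolynomial σ K)),
      (pderiv j : Derivation K (MvPolynomial σ K) (MvPolynomial σ K))⁆ =
      (0 : Derivation K (MvPolynomial σ K) (MvPolynomial σ K)) := by
    apply MvPolynomial.derivation_ext
    intro k
    rw [Derivation.commutator_apply, pderiv_X, pderiv_X, Derivation.zero_apply]
    have h1 : ∀ (a b : σ), (pderiv a) (Pi.single (M := fun _ => MvPolynomial σ K) b 1 k) = 0 := by
      intro a b
      by_cases hb : k = b
      · subst hb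
        rw [Pi.single_eq_same]
        exact pderiv_one
      · rw [Pi.single_eq_of_ne hb, map_zero]
    rw [h1, h1, sub_zero]
  have h2 := congrArg (fun D : Derivation K (MvPolynomial σ K) (MvPolynomial σ K) => D f) h
  simp only [Derivation.commutator_apply, Derivation.zero_apply] at h2
  exact sub_eq_zero.1 h2

theorem q786_dp_tht (i k : ℕ) (G : MvPolynomial (ℕ ⊕ ℕ) K) :
    dp k (tht i G) = tht i (dp k G) := by
  have h : pderiv (Sum.inr k) (X (Sum.inl i) : MvPolynomial (ℕ ⊕ ℕ) K) = 0 :=
    pderiv_X_of_ne (by simp)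
  rw [dp_apply, tht_apply, tht_apply, dp_apply, pderiv_mul, h, zero_mul,
    zero_add, q786_pd_comm]

theorem q786_ev_mt (N i c : ℕ) (H : MvPolynomial (ℕ ⊕ ℕ) K) :
    ev N (mt i c H) = X i ^ c * ev N H := by
  rw [mt_apply, map_mul, map_pow]
  simp [ev]

theorem q786_ev_mp (N k : ℕ) (H : MvPolynomial (ℕ ⊕ ℕ) K) :
    ev N (mp k H) = (∑ j ∈ range N, X j ^ k) * ev N H := by
  rw [mp_apply, map_mul]
  simp [ev]

theorem q786_del_mul (i k : ℕ) (f : MvPolynomial ℕ K) :
    del i (X i ^ k * f) = (k : K) • (X i ^ k * f) + X i ^ k * del i f := by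
  rw [del_apply, del_apply, pderiv_mul, pderiv_pow, pderiv_X_self, mul_one]
  rcases k with _ | k
  · simp
  · rw [Nat.add_sub_cancel, pow_succ, MvPolynomial.smul_eq_C_mul]
    simp only [map_natCast]
    ring

/-- HINT: `del_ev` twice (`dp k G` is admissible of weight `n-k`, `mt i k (dp k G)` of weight `n` if `i<m`; for `i ≥ m` argue
with the same chain rule for `G` with the additional variable, or compute directly `δ_i (x_i^k ev(∂_k G)) = k x_i^k ev(∂_k G)
+ x_i^k δ_i ev(∂_k G)`). So `δ_i² ev G = ev(θ_i² G) + 2 Σ_k k x_i^k ev(θ_i ∂_k G) + Σ_k k² x_i^k ev(∂_k G) +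
Σ_{k,l} k l x_i^{k+l} ev(∂_k ∂_l G)`; sum over `i < N`; `θ_i G = 0` for `i ≥ m`; terms with `k + l > n` vanish. -/
theorem delsq_ev (N m n : ℕ) (hm : m ≤ N) (G : MvPolynomial (ℕ ⊕ ℕ) K) (hG : AdmP m n G) :
    ∑ i ∈ range N, del i (del i (ev N G)) =
      ev N (∑ i ∈ range m, tht i (tht i G) + (2 : K) • ∑ i ∈ range m, ∑ k ∈ Icc 1 n, (k : K) • mt i k (tht i (dp k G))
        + ∑ k ∈ Icc 1 n, ((k : K) ^ 2) • mp k (dp k G)
        + ∑ k ∈ Icc 1 n, ∑ l ∈ Icc 1 n, ((k : K) * (l : K)) • mp (k + l) (dp k (dp l G))) := by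
  obtain ⟨a1, a2, a3, a4, a5, a6, a7, a8, a9, a10, a11, a12, a13⟩ := adm_ops m n G hG
  have step : ∀ i ∈ range N, del i (del i (ev N G)) =
      ev N (tht i (tht i G)) + (2 : K) • ∑ k ∈ Icc 1 n, (k : K) • (X i ^ k * ev N (tht i (dp k G)))
        + ∑ k ∈ Icc 1 n, ((k : K) ^ 2) • (X i ^ k * ev N (dp k G))
        + ∑ k ∈ Icc 1 n, ∑ l ∈ Icc 1 n, ((k : K) * (l : K)) • (X i ^ (k + l) * ev N (dp k (dp l G))) := by
    intro i hi
    have hiN := mem_range.1 hi
    rw [del_ev N m n i hiN G hG, map_add, map_sum]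
    simp only [map_smul, q786_ev_mt, map_add, map_sum, q786_del_mul]
    rw [del_ev N m n i hiN (tht i G) (a7 i)]
    simp only [map_smul, q786_ev_mt, map_add, map_sum, q786_dp_tht]
    have e1 : ∀ k ∈ Icc 1 n, (k : K) • ((k : K) • (X i ^ k * ev N (dp k G))
          + X i ^ k * del i (ev N (dp k G))) =
        ((k : K) ^ 2) • (X i ^ k * ev N (dp k G)) + (k : K) • (X i ^ k * ev N (tht i (dp k G)))
          + ∑ l ∈ Icc 1 n, ((k : K) * (l : K)) • (X i ^ (k + l) * ev N (dp k (dp l G))) := by
      intro k hk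
      have hk' := mem_Icc.1 hk
      rw [del_ev N m (n - k) i hiN (dp k G) (a8 k hk'.2)]
      simp only [map_smul, q786_ev_mt, map_add, map_sum]
      have e2 : ∑ l ∈ Icc 1 (n - k), (l : K) • (X i ^ l * ev N (dp l (dp k G))) =
          ∑ l ∈ Icc 1 n, (l : K) • (X i ^ l * ev N (dp k (dp l G))) := by
        rw [← Finset.sum_subset (s₁ := Icc 1 (n - k)) (s₂ := Icc 1 n)]
        · apply Finset.sum_congr rfl
          intro l _
          rw [dp_apply, dp_apply, dp_apply, dp_apply, q786_pd_comm]
        · intro l hl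
          rw [mem_Icc] at hl ⊢
          omega
        · intro l hl hl'
          rw [mem_Icc] at hl hl'
          rw [a6 k l (by omega), map_zero, mul_zero, smul_zero]
      rw [e2, mul_add, smul_add, smul_add, smul_smul, ← pow_two, ← add_assoc, Finset.mul_sum,
        Finset.smul_sum]
      congr 1
      apply Finset.sum_congr rfl
      intro l _
      rw [mul_smul_comm, smul_smul, ← mul_assoc, ← pow_add]
    rw [Finset.sum_congr rfl e1]
    rw [Finset.sum_add_distrib, Finset.sum_add_distrib, two_smul]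
    abel
  rw [Finset.sum_congr rfl step]
  rw [Finset.sum_add_distrib, Finset.sum_add_distrib, Finset.sum_add_distrib]
  simp only [map_add, map_sum, map_smul, q786_ev_mt, q786_ev_mp]
  have hsub : range m ⊆ range N := range_subset_range.2 hm
  congr 1
  · congr 1
    · congr 1
      · symm
        apply Finset.sum_subset hsub
        intro i _ hi
        rw [mem_range, not_lt] at hi
        rw [a1 i hi, map_zero, map_zero]
      · rw [← Finset.smul_sum]
        congr 1
        symm
        apply Finset.sum_subset hsub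
        intro i _ hi
        rw [mem_range, not_lt] at hi
        apply Finset.sum_eq_zero
        intro k hk
        have hk' := mem_Icc.1 hk
        have h1 := (adm_ops m (n - k) (dp k G) (a8 k hk'.2)).1 i hi
        rw [h1, map_zero, mul_zero, smul_zero]
    · rw [Finset.sum_comm]
      apply Finset.sum_congr rfl
      intro k _
      rw [Finset.sum_mul, Finset.smul_sum]
  · rw [Finset.sum_comm]
    apply Finset.sum_congr rfl
    intro k _
    rw [Finset.sum_comm]
    apply Finset.sum_congr rfl
    intro l _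
    rw [Finset.sum_mul, Finset.smul_sum]

end JSup
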