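import Pool.Agent.Helper204.JS.Stmt
import Pool.Agent.Helper204.JS.Defs
import Pool.Agent.Helper204.JS.Defs1
import Pool.Agent.Helper204.JS.Defs2
import Pool.Agent.Helper204.JS.Defs3
import Pool.Agent.Helper204.JS.P_delsq_ev
import Pool.Agent.Helper204.JS.P_TTsum_ev

set_option linter.unusedSectionVars false

open MvPolynomial Finset

noncomputable section

namespace JSup
variable {K : Type} [Field K] [CharZero K] [Par K]



/-- HINT: add `al •` `delsq_ev` and `TTsum_ev`, compare with the definition of `FM`. -/
theorem MM_ev (N m n : ℕ) (hm : m ≤ N) (G : MvPolynomial (ℕ ⊕ ℕ) K) (hG : AdmP m n G) (hA : AltT m G) :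
    MM N (ev N G) = ev N (FM N m n G) := by
  have h1 := delsq_ev N m n hm G hG
  have h2 := TTsum_ev N m n hm G hG hA
  have h3 : MM N (ev N G) = (al : K) • (∑ i ∈ range N, del i (del i (ev N G))) +
      ∑ i ∈ range N, ∑ j ∈ Ioo i N, TT i j (ev N G) := by
    unfold MM
    simp only [LinearMap.add_apply, LinearMap.smul_apply, LinearMap.sum_apply,
      LinearMap.comp_apply]
  rw [h3, h1, h2, ← map_smul, ← map_add]
  congr 1
  unfold FM
  simp only [LinearMap.add_apply, LinearMap.smul_apply, LinearMap.sum_apply,
    LinearMap.comp_apply, Finset.sum_add_distrib, mul_smul, ← Finset.smul_sum, smul_add,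
    sub_smul, one_smul, LinearMap.sub_apply]

  module

end JSup
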