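import Pool.Agent.Helper204.JS.Stmt
import Pool.Agent.Helper204.JS.Defs
import Pool.Agent.Helper204.JS.Defs1
import Pool.Agent.Helper204.JS.Defs2
import Pool.Agent.Helper204.JS.Defs3

set_option linter.unusedSectionVars false

open MvPolynomial Finset

noncomputable section

namespace JSup
variable {K : Type} [Field K] [CharZero K] [Par K]



theorem adm_add (m n : ℕ) (F G : MvPolynomial (ℕ ⊕ ℕ) K) (hF : AdmP m n F) (hG : AdmP m n G) :
    AdmP m n (F + G) := by
  classical
  intro d hd
  rcases Finset.mem_union.1 (MvPolynomial.support_add hd) with h | h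
  · exact hF d h
  · exact hG d h

end JSup
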