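import Pool.Agent.Helper204.JS.Stmt
import Pool.Agent.Helper204.JS.Defs
import Pool.Agent.Helper204.JS.Defs1
import Pool.Agent.Helper204.JS.Defs2
import Pool.Agent.Helper204.JS.Defs3

set_option linter.unusedSectionVars false

open MvPolynomial Finset

noncomputable section

namespace JSup
variable {K : Type} [Field K] [CharZero K] [Par K]



theorem adm_sum (m n : ℕ) (ι : Type) (s : Finset ι) (F : ι → MvPolynomial (ℕ ⊕ ℕ) K)
    (hF : ∀ i ∈ s, AdmP m n (F i)) : AdmP m n (∑ i ∈ s, F i) := by
  intro d hd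
  rw [MvPolynomial.mem_support_iff, MvPolynomial.coeff_sum] at hd
  obtain ⟨i, hi, h⟩ := Finset.exists_ne_zero_of_sum_ne_zero hd
  exact hF i hi d (MvPolynomial.mem_support_iff.2 h)
end JSup
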