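import Pool.Agent.Helper204.JS.Stmt
import Pool.Agent.Helper204.JS.Defs
import Pool.Agent.Helper204.JS.Defs1
import Pool.Agent.Helper204.JS.Defs2
import Pool.Agent.Helper204.JS.Defs3
import Pool.Agent.Helper204.JS.P_adm_ops
import Pool.Agent.Helper204.JS.P_adm_add
import Pool.Agent.Helper204.JS.P_adm_sum

set_option linter.unusedSectionVars false

open MvPolynomial Finset

noncomputable section

namespace JSup
variable {K : Type} [Field K] [CharZero K] [Par K]



/-- HINT: every term of `FI`, `FM` preserves the weight and uses only `t_i`, `i<m`, and `p_k`, `k≥1`: `adm_ops`, `adm_add`,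
`adm_sum`. In terms like `p_{k+l} ∂_k ∂_l` with `k + l > n` the result is 0 (`adm_ops`). Zero is admissible. -/
theorem adm_FIFM (N m n : ℕ) (G : MvPolynomial (ℕ ⊕ ℕ) K) (hG : AdmP m n G) :
    AdmP m n (FI m n G) ∧ AdmP m n (FM N m n G) := by
  have smul : ∀ (c : K) (H : MvPolynomial (ℕ ⊕ ℕ) K), AdmP m n H → AdmP m n (c • H) := by
    intro c H hH
    obtain ⟨-, -, -, -, -, -, -, -, -, -, -, h, -⟩ := adm_ops m n H hH
    exact h c
  have zero : AdmP (K := K) m n 0 := by
    intro d hd; simp at hd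
  have add := fun (F H : MvPolynomial (ℕ ⊕ ℕ) K) => adm_add (K := K) m n F H
  have htht : ∀ (a : ℕ) (i : ℕ) (H : MvPolynomial (ℕ ⊕ ℕ) K), AdmP m a H → AdmP m a (tht i H) := by
    intro a i H hH
    obtain ⟨-, -, -, -, -, -, h, -⟩ := adm_ops m a H hH
    exact h i
  have hdp : ∀ (a k : ℕ) (H : MvPolynomial (ℕ ⊕ ℕ) K), AdmP m a H → k ≤ a → AdmP m (a - k) (dp k H) := by
    intro a k H hH hk
    obtain ⟨-, -, -, -, -, -, -, h, -⟩ := adm_ops m a H hH
    exact h k hk
  have htau : ∀ (a i c : ℕ) (H : MvPolynomial (ℕ ⊕ ℕ) K), AdmP m a H → c ≤ a → AdmP m (a - c) (tau i c H) := by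
    intro a i c H hH hc
    obtain ⟨-, -, -, -, -, -, -, -, h, -⟩ := adm_ops m a H hH
    exact h i c hc
  have hmt : ∀ (a i c : ℕ) (H : MvPolynomial (ℕ ⊕ ℕ) K), AdmP m a H → i < m → AdmP m (a + c) (mt i c H) := by
    intro a i c H hH hi
    obtain ⟨-, -, -, -, -, -, -, -, -, h, -⟩ := adm_ops m a H hH
    exact h i c hi
  have hmp : ∀ (a k : ℕ) (H : MvPolynomial (ℕ ⊕ ℕ) K), AdmP m a H → 1 ≤ k → AdmP m (a + k) (mp k H) := by
    intro a k H hH hk
    obtain ⟨-, -, -, -, -, -, -, -, -, -, h, -⟩ := adm_ops m a H hH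
    exact h k hk
  have hdp0 : ∀ k, n < k → dp k G = 0 := (adm_ops m n G hG).2.2.2.1
  have hdd0 : ∀ k l, n < k + l → dp k (dp l G) = 0 := (adm_ops m n G hG).2.2.2.2.2.1
  -- the elementary terms
  have T1 : ∀ i, i < m → ∀ k, 1 ≤ k → k ≤ n → AdmP m n (mt i k (dp k G)) := by
    intro i hi k hk hkn
    have := hmt (n - k) i k _ (hdp n k G hG hkn) hi
    rwa [Nat.sub_add_cancel hkn] at this
  have T2 : ∀ i, ∀ k, 1 ≤ k → k ≤ n → AdmP m n (mp k (tau i k G)) := by
    intro i k hk hkn
    have := hmp (n - k) k _ (htau n i k G hG hkn) hk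
    rwa [Nat.sub_add_cancel hkn] at this
  have T3 : ∀ k, 1 ≤ k → k ≤ n → AdmP m n (mp k (dp k G)) := by
    intro k hk hkn
    have := hmp (n - k) k _ (hdp n k G hG hkn) hk
    rwa [Nat.sub_add_cancel hkn] at this
  have T4 : ∀ i, i < m → ∀ k, 1 ≤ k → k ≤ n → AdmP m n (mt i k (tht i (dp k G))) := by
    intro i hi k hk hkn
    have := hmt (n - k) i k _ (htht _ i _ (hdp n k G hG hkn)) hi
    rwa [Nat.sub_add_cancel hkn] at this
  have T5 : ∀ i, ∀ k, 1 ≤ k → k ≤ n → AdmP m n (mp k (tht i (tau i k G))) := by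
    intro i k hk hkn
    have := hmp (n - k) k _ (htht _ i _ (htau n i k G hG hkn)) hk
    rwa [Nat.sub_add_cancel hkn] at this
  have T6 : ∀ k l, 1 ≤ k → 1 ≤ l → AdmP m n (mp (k + l) (dp k (dp l G))) := by
    intro k l hk hl
    by_cases h : k + l ≤ n
    · have h1 := hdp n l G hG (by omega)
      have h2 := hdp (n - l) k _ h1 (by omega)
      have h3 := hmp (n - l - k) (k + l) _ h2 (by omega)
      have h4 : n - l - k + (k + l) = n := by omega
      rwa [h4] at h3
    · rw [hdd0 k l (by omega), map_zero]; exact zero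
  have T7 : ∀ k l, 1 ≤ k → 1 ≤ l → AdmP m n (mp k (mp l (dp (k + l) G))) := by
    intro k l hk hl
    by_cases h : k + l ≤ n
    · have h1 := hdp n (k + l) G hG h
      have h2 := hmp _ l _ h1 hl
      have h3 := hmp _ k _ h2 hk
      have h4 : n - (k + l) + l + k = n := by omega
      rwa [h4] at h3
    · rw [hdp0 (k + l) (by omega), map_zero, map_zero]; exact zero
  constructor
  · simp only [FI, LinearMap.add_apply, LinearMap.smul_apply, LinearMap.sum_apply, LinearMap.comp_apply,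
      LinearMap.id_apply]
    refine add _ _ (add _ _ (smul _ _ (adm_sum m n _ _ _ ?_)) (adm_sum m n _ _ _ ?_)) (smul _ _ hG)
    · intro i hi
      exact htht n i G hG
    · intro i hi
      refine adm_sum m n _ _ _ ?_
      intro k hk
      rw [mem_range] at hi
      rw [mem_Icc] at hk
      exact add _ _ (smul _ _ (T1 i hi k hk.1 hk.2)) (T2 i k hk.1 hk.2)
  · simp only [FM, LinearMap.add_apply, LinearMap.smul_apply, LinearMap.sum_apply, LinearMap.comp_apply,
      LinearMap.id_apply]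
    refine add _ _ (add _ _ (add _ _ (smul _ _ (add _ _ (adm_sum m n _ _ _ ?_) (adm_sum m n _ _ _ ?_)))
      (smul _ _ (add _ _ (adm_sum m n _ _ _ ?_) (adm_sum m n _ _ _ ?_))))
      (smul _ _ (adm_sum m n _ _ _ ?_))) (adm_sum m n _ _ _ ?_)
    · intro i hi
      exact htht n i _ (htht n i G hG)
    · intro k hk
      rw [mem_Icc] at hk
      exact smul _ _ (T3 k hk.1 hk.2)
    · intro i hi
      exact htht n i G hG
    · intro k hk
      rw [mem_Icc] at hk
      exact smul _ _ (T3 k hk.1 hk.2)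
    · intro i hi
      refine adm_sum m n _ _ _ ?_
      intro k hk
      rw [mem_range] at hi
      rw [mem_Icc] at hk
      exact add _ _ (smul _ _ (T4 i hi k hk.1 hk.2)) (T5 i k hk.1 hk.2)
    · intro k hk
      refine adm_sum m n _ _ _ ?_
      intro l hl
      rw [mem_Icc] at hk hl
      exact add _ _ (smul _ _ (T6 k l hk.1 hl.1)) (smul _ _ (T7 k l hk.1 hl.1))

end JSup
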