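import Pool.Agent.Helper204.JS.Stmt
import Pool.Agent.Helper204.JS.Defs
import Pool.Agent.Helper204.JS.Defs1
import Pool.Agent.Helper204.JS.Defs2
import Pool.Agent.Helper204.JS.Defs3
import Pool.Agent.Helper204.JS.P_form_adj

set_option linter.unusedSectionVars false

open MvPolynomial Finset

noncomputable section

namespace JSup
variable {K : Type} [Field K] [CharZero K] [Par K]



theorem sgn_sq' (m : ℕ) (w : Equiv.Perm (Fin m)) :
    ((((Equiv.Perm.sign w : ℤ)) : K)) * ((((Equiv.Perm.sign w : ℤ)) : K)) = 1 := by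
  rcases Int.units_eq_one_or (Equiv.Perm.sign w) with h | h <;> rw [h] <;> simp

theorem tperm_comp' (σ τ : Equiv.Perm ℕ) :
    (tperm σ : (ℕ ⊕ ℕ) → (ℕ ⊕ ℕ)) ∘ (tperm τ) = tperm (σ * τ) := by
  funext v
  rcases v with i | k
  · rfl
  · rfl

theorem ev_rename' (N : ℕ) (σ : Equiv.Perm ℕ) (hσ : ∀ k, N ≤ k → σ k = k)
    (F : MvPolynomial (ℕ ⊕ ℕ) K) :
    ev N (rename (tperm σ) F) = rename σ (ev N F) := by
  have h : (ev N : MvPolynomial (ℕ ⊕ ℕ) K →ₐ[K] MvPolynomial ℕ K).comp (rename (tperm σ)) =
      (rename σ : MvPolynomial ℕ K →ₐ[K] MvPolynomial ℕ K).comp (ev N) := by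
    apply MvPolynomial.algHom_ext
    intro v
    rcases v with i | k
    · simp only [AlgHom.comp_apply, rename_X, ev, aeval_X]
      show (X (σ i) : MvPolynomial ℕ K) = rename σ (X i)
      rw [rename_X]
    · simp only [AlgHom.comp_apply, rename_X, ev, aeval_X]
      show Sum.elim (fun i => (X i : MvPolynomial ℕ K)) (fun k => ∑ j ∈ range N, X j ^ k)
        (tperm σ (Sum.inr k)) = rename σ (∑ j ∈ range N, X j ^ k)
      have h1 : tperm σ (Sum.inr k) = Sum.inr k := rfl
      rw [h1, Sum.elim_inr, map_sum]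
      symm
      apply Finset.sum_equiv σ
      · intro j
        rw [Finset.mem_range, Finset.mem_range]
        constructor
        · intro hj
          by_contra hcon
          have h2 := hσ (σ j) (by omega)
          have h3 : σ j = j := σ.injective h2
          omega
        · intro hj
          by_contra hcon
          have h2 := hσ j (by omega)
          omega
      · intro j _
        rw [map_pow, rename_X]
  exact AlgHom.congr_fun h F

theorem antT_facts (N m n : ℕ) (hm : m ≤ N) (F G : MvPolynomial (ℕ ⊕ ℕ) K) :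
    (AltT m F → antT m F = (m.factorial : K) • F) ∧
    form (antT m F) G = form F (antT m G) ∧
    AltT m (antT m F) ∧ (AdmP m n F → AdmP m n (antT m F)) ∧
    ev N (antT m F) = antis 0 m (ev N F) := by
  refine ⟨?_, ?_, ?_, ?_, ?_⟩
  · intro hF
    rw [antT_apply]
    have h1 : ∀ w : Equiv.Perm (Fin m), (((Equiv.Perm.sign w : ℤ)) : K) •
        rename (tperm (emb 0 m w)) F = F := by
      intro w
      rw [hF w, smul_smul, sgn_sq', one_smul]
    rw [Finset.sum_congr rfl (fun w _ => h1 w), Finset.sum_const, Finset.card_univ,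
      Fintype.card_perm, Fintype.card_fin, ← Nat.cast_smul_eq_nsmul K]
  · rw [antT_apply, antT_apply, map_sum, map_sum, LinearMap.sum_apply]
    apply Fintype.sum_equiv (Equiv.inv (Equiv.Perm (Fin m)))
    intro w
    rw [map_smul, LinearMap.smul_apply, map_smul, (form_adj F G).2.2.2.2 (emb 0 m w)]
    have h1 : (Equiv.inv (Equiv.Perm (Fin m))) w = w⁻¹ := rfl
    rw [h1, Equiv.Perm.sign_inv, map_inv]
  · intro w
    rw [antT_apply, map_sum, Finset.smul_sum]
    apply Fintype.sum_equiv (Equiv.mulLeft w)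
    intro v
    have h1 : (Equiv.mulLeft w) v = w * v := rfl
    rw [map_smul, rename_rename, tperm_comp', h1, Equiv.Perm.sign_mul, map_mul (emb 0 m), smul_smul,
      Units.val_mul, Int.cast_mul, ← mul_assoc, sgn_sq', one_mul]
  · intro hF d hd
    rw [MvPolynomial.mem_support_iff, antT_apply, MvPolynomial.coeff_sum] at hd
    obtain ⟨w, _, hw⟩ := Finset.exists_ne_zero_of_sum_ne_zero hd
    rw [MvPolynomial.coeff_smul] at hw
    have hw2 : MvPolynomial.coeff d (rename (tperm (emb 0 m w)) F) ≠ 0 := by
      intro h0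
      apply hw
      rw [h0, smul_zero]
    obtain ⟨u, hu, hu2⟩ := MvPolynomial.coeff_rename_ne_zero _ _ _ hw2
    obtain ⟨a1, a2, a3⟩ := hF u (MvPolynomial.mem_support_iff.mpr hu2)
    have hinj : Function.Injective (tperm (emb 0 m w)) := (tperm (emb 0 m w)).injective
    rw [← hu]
    refine ⟨?_, ?_, ?_⟩
    · intro i hi
      have h1 : Sum.inl i = tperm (emb 0 m w) (Sum.inl i) := by
        show Sum.inl i = Sum.inl (emb 0 m w i)
        rw [emb_out 0 m w i (Or.inr (by omega))]
      rw [h1, Finsupp.mapDomain_apply hinj]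
      exact a1 i hi
    · have h1 : (Sum.inr 0 : ℕ ⊕ ℕ) = tperm (emb 0 m w) (Sum.inr 0) := rfl
      rw [h1, Finsupp.mapDomain_apply hinj]
      exact a2
    · rw [Finsupp.sum_mapDomain_index_inj hinj, ← a3]
      apply Finsupp.sum_congr
      intro v _
      rcases v with i | k
      · rfl
      · rfl
  · rw [antT_apply, map_sum, antis_apply]
    apply Finset.sum_congr rfl
    intro w _
    rw [map_smul, ev_rename']
    intro k hk
    exact emb_out 0 m w k (Or.inr (by omega))

end JSup
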