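import Pool.Agent.Helper204.JS.Stmt
import Pool.Agent.Helper204.JS.Defs
import Pool.Agent.Helper204.JS.Defs1
import Pool.Agent.Helper204.JS.Defs2
import Pool.Agent.Helper204.JS.Defs3
import Pool.Agent.Helper204.JS.P_FI_selfadj
import Pool.Agent.Helper204.JS.P_FM_selfadj
import Pool.Agent.Helper204.JS.P_adm_FIFM
import Pool.Agent.Helper204.JS.P_II_ev
import Pool.Agent.Helper204.JS.P_MM_ev
import Pool.Agent.Helper204.JS.P_Bf_form
import Pool.Agent.Helper204.JS.P_antT_facts
import Pool.Agent.Helper204.JS.P_spanning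

set_option linter.unusedSectionVars false

open MvPolynomial Finset

noncomputable section

namespace JSup
variable {K : Type} [Field K] [CharZero K] [Par K]



/-- HINT: `f = ev F`, `g = ev G` (`spanning`). `Bf (MM f) g = Bf (ev (FM F)) (ev G) = C form (antT (FM F)) G =
C form (FM F) (antT G) = C m! form (FM F) G = C m! form F (FM G) = C form (antT F) (FM G) = Bf f (MM g)`; same for `II`. -/
theorem self_adjoint (N m n : ℕ) (hm : m ≤ N)
    (Bf : MvPolynomial ℕ K →ₗ[K] MvPolynomial ℕ K →ₗ[K] K) (C : K)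
    (hB : ∀ d e : (ℕ ⊕ ℕ) →₀ ℕ, Adm m n d → Adm m n e →
      Bf (ev N (monomial d 1)) (ev N (monomial e 1)) =
        C * ∑ w : Equiv.Perm (Fin m), (((Equiv.Perm.sign w : ℤ)) : K) *
          (if e = Finsupp.equivMapDomain (tperm (emb 0 m w)) d then fw d else 0))
    (f g : MvPolynomial ℕ K) (hf : InU N m n f) (hg : InU N m n g) :
    Bf (MM N f) g = Bf f (MM N g) ∧ Bf (II N m f) g = Bf f (II N m g) := by
  obtain ⟨F, rfl, hFa, hFA⟩ := spanning N m n hm f hf
  obtain ⟨G, rfl, hGa, hGA⟩ := spanning N m n hm g hg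
  obtain ⟨aF1, aF2⟩ := adm_FIFM N m n F hFa
  obtain ⟨aG1, aG2⟩ := adm_FIFM N m n G hGa
  have tF := (antT_facts N m n hm F F).1 hFA
  have tG := (antT_facts N m n hm G G).1 hGA
  constructor
  · rw [MM_ev N m n hm F hFa hFA, MM_ev N m n hm G hGa hGA,
      Bf_form N m n Bf C hB _ _ aF2 hGa, Bf_form N m n Bf C hB _ _ hFa aG2,
      (antT_facts N m n hm (FM N m n F) G).2.1, tG, tF]
    simp only [map_smul, LinearMap.smul_apply]
    rw [FM_selfadj]
  · rw [II_ev N m n hm F hFa hFA, II_ev N m n hm G hGa hGA,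
      Bf_form N m n Bf C hB _ _ aF1 hGa, Bf_form N m n Bf C hB _ _ hFa aG1,
      (antT_facts N m n hm (FI m n F) G).2.1, tG, tF]
    simp only [map_smul, LinearMap.smul_apply]
    rw [FI_selfadj]

end JSup
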