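import Pool.Agent.Helper204.JS.Stmt
import Pool.Agent.Helper204.JS.Defs
import Pool.Agent.Helper204.JS.Defs1
import Pool.Agent.Helper204.JS.Defs2

set_option linter.unusedSectionVars false

open MvPolynomial Finset

noncomputable section

namespace JSup
variable {K : Type} [Field K] [CharZero K] [Par K]



theorem pm_facts_cons (x : ℕ) (t : List ℕ) : pm (x :: t) = (t.map (fun y => min x y)).sum + pm t := rfl

theorem pm_facts_perm (l₁ l₂ : List ℕ) (h : l₁.Perm l₂) : pm l₁ = pm l₂ := by
  induction h with
  | nil => rfl
  | cons x h ih =>
    rw [pm_facts_cons, pm_facts_cons, ih, (h.map _).sum_eq]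
  | swap x y l =>
    simp only [pm_facts_cons, List.map_cons, List.sum_cons]
    rw [min_comm y x]
    omega
  | trans _ _ ih1 ih2 => exact ih1.trans ih2

theorem pm_facts_sum (t : List ℕ) (N : ℕ) (h : t.length ≤ N) (f : ℕ → ℕ) (hf : f 0 = 0) :
    ∑ r ∈ range N, f (t.getD r 0) = (t.map f).sum := by
  induction t generalizing N with
  | nil => simp [hf]
  | cons x t ih =>
    obtain ⟨M, rfl⟩ : ∃ M, N = M + 1 := ⟨N - 1, by simp only [List.length_cons] at h; omega⟩
    rw [Finset.sum_range_succ']
    simp only [List.getD_cons_succ, List.getD_cons_zero, List.map_cons, List.sum_cons]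
    rw [ih M (by simp only [List.length_cons] at h; omega)]
    omega

theorem pm_facts_nn_cons (x : ℕ) (t : List ℕ) : nn (x :: t) = nn t + t.sum := by
  unfold nn
  rw [List.length_cons, Finset.sum_range_succ']
  simp only [List.getD_cons_succ, List.getD_cons_zero, zero_mul, add_zero, add_mul, one_mul]
  rw [Finset.sum_add_distrib]
  have h := pm_facts_sum t t.length le_rfl (fun y => y) rfl
  simp only [List.map_id'] at h
  rw [h]

theorem pm_facts_two (l : List ℕ) (h : l.Pairwise (· ≥ ·)) : pm l = nn l := by
  induction l with
  | nil => simp [pm, nn]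
  | cons x t ih =>
    rw [List.pairwise_cons] at h
    rw [pm_facts_cons, pm_facts_nn_cons, ih h.2]
    have : t.map (fun y => min x y) = t := by
      conv_rhs => rw [← List.map_id t]
      apply List.map_congr_left
      intro y hy
      exact min_eq_right (h.1 y hy)
    rw [this]
    omega

theorem pm_facts_len_filter (p : ℕ) (s : List ℕ) :
    (s.map (fun v => min (p+1) v)).sum = (s.map (fun v => min p v)).sum
      + (s.filter (fun v => p < v)).length := by
  induction s with
  | nil => simp
  | cons v s ih =>
    simp only [List.map_cons, List.sum_cons, List.filter_cons]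
    rw [ih]
    by_cases hv : p < v
    · simp only [hv, decide_true, if_true, List.length_cons]
      rw [min_eq_left (by omega : p+1 ≤ v), min_eq_left (by omega : p ≤ v)]
      omega
    · simp only [hv, decide_false, Bool.false_eq_true, if_false]
      rw [min_eq_right (by omega : v ≤ p+1), min_eq_right (by omega : v ≤ p)]
      omega

theorem pm_facts_map_succ (p : ℕ) (a : List ℕ) :
    ((a.map (· + 1)).map (fun y => min (p+1) y)).sum = (a.map (fun y => min p y)).sum + a.length := by
  induction a with
  | nil => simp
  | cons q a ih =>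
    simp only [List.map_cons, List.sum_cons, List.length_cons]
    rw [ih]
    have : min (p+1) (q+1) = min p q + 1 := by omega
    omega

theorem pm_facts_three (a s : List ℕ) : pm (a.map (· + 1) ++ s) = pm (a ++ s) + a.length.choose 2
      + (a.map (fun p => (s.filter (fun v => p < v)).length)).sum := by
  induction a with
  | nil => simp
  | cons p a ih =>
    rw [List.map_cons, List.cons_append, List.cons_append, pm_facts_cons, pm_facts_cons, ih,
      List.map_append, List.map_append, List.sum_append, List.sum_append,
      pm_facts_map_succ, pm_facts_len_filter, List.length_cons, List.map_cons, List.sum_cons]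
    have h2 : (a.length + 1).choose 2 = a.length + a.length.choose 2 := by
      rw [Nat.choose_succ_succ' a.length 1, Nat.choose_one_right]
    rw [h2]
    omega

theorem pm_facts_four (l : List ℕ) : pm (l.filter (fun i => 0 < i)) = pm l := by
  have aux : ∀ (x : ℕ) (t : List ℕ), ((t.filter (fun i => 0 < i)).map (fun y => min x y)).sum
      = (t.map (fun y => min x y)).sum := by
    intro x t
    induction t with
    | nil => simp
    | cons y t ih =>
      rw [List.filter_cons]
      by_cases hy : 0 < y
      · simp only [hy, decide_true, if_true, List.map_cons, List.sum_cons, ih]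
      · have hy0 : y = 0 := by omega
        subst hy0
        simp only [lt_irrefl, decide_false, Bool.false_eq_true, if_false, List.map_cons,
          List.sum_cons, ih, Nat.min_zero, zero_add]
  induction l with
  | nil => rfl
  | cons x t ih =>
    rw [List.filter_cons]
    by_cases hx : 0 < x
    · simp only [hx, decide_true, if_true, pm_facts_cons, ih, aux]
    · have hx0 : x = 0 := by omega
      subst hx0
      simp only [lt_irrefl, decide_false, Bool.false_eq_true, if_false, pm_facts_cons, ih,
        Nat.zero_min]
      simp

theorem pm_facts_five (l : List ℕ) (N : ℕ) (h : l.length ≤ N) :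
      ∑ i ∈ range N, ∑ j ∈ Ioo i N, min (l.getD i 0) (l.getD j 0) = pm l := by
  have conv : ∀ (l : List ℕ) (N : ℕ), ∑ i ∈ range N, ∑ j ∈ Ioo i N, min (l.getD i 0) (l.getD j 0)
      = ∑ i ∈ range N, ∑ j ∈ range N, if i < j then min (l.getD i 0) (l.getD j 0) else 0 := by
    intro l N
    refine Finset.sum_congr rfl (fun i _ => ?_)
    rw [← Finset.sum_filter]
    refine Finset.sum_congr ?_ (fun _ _ => rfl)
    ext j
    simp only [Finset.mem_Ioo, Finset.mem_filter, Finset.mem_range]
    tauto
  rw [conv]
  induction l generalizing N with
  | nil => simp [pm]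
  | cons x t ih =>
    obtain ⟨M, rfl⟩ : ∃ M, N = M + 1 := ⟨N - 1, by simp only [List.length_cons] at h; omega⟩
    rw [Finset.sum_range_succ', pm_facts_cons, ← ih M (by simp only [List.length_cons] at h; omega),
      ← pm_facts_sum t M (by simp only [List.length_cons] at h; omega) (fun y => min x y) (by simp)]
    have e1 : ∑ k ∈ range M, ∑ j ∈ range (M + 1),
        (if k + 1 < j then min ((x :: t).getD (k+1) 0) ((x :: t).getD j 0) else 0)
        = ∑ i ∈ range M, ∑ j ∈ range M, if i < j then min (t.getD i 0) (t.getD j 0) else 0 := by
      refine Finset.sum_congr rfl (fun i _ => ?_)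
      rw [Finset.sum_range_succ']
      simp
    have e2 : ∑ j ∈ range (M + 1),
        (if 0 < j then min ((x :: t).getD 0 0) ((x :: t).getD j 0) else 0)
        = ∑ j ∈ range M, min x (t.getD j 0) := by
      rw [Finset.sum_range_succ']
      simp
    rw [e1, e2, add_comm]

/-- HINT: permutation invariance by `List.Perm.rec`; for decreasing `x :: t` one has `min x y = y` for `y ∈ t`, so
`pm (x::t) = t.sum + pm t` and `nn (x :: t) = nn t + t.sum`; the third part by induction on `a`
(`min (p+1) (q+1) = min p q + 1`, `min (p+1) v = min p v + [p < v]`); the fourth by induction (zeros contribute 0). -/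
theorem pm_facts :
    (∀ l₁ l₂ : List ℕ, l₁.Perm l₂ → pm l₁ = pm l₂) ∧
    (∀ l : List ℕ, l.Pairwise (· ≥ ·) → pm l = nn l) ∧
    (∀ a s : List ℕ, pm (a.map (· + 1) ++ s) = pm (a ++ s) + a.length.choose 2
      + (a.map (fun p => (s.filter (fun v => p < v)).length)).sum) ∧
    (∀ l : List ℕ, pm (l.filter (fun i => 0 < i)) = pm l) ∧
    (∀ (l : List ℕ) (N : ℕ), l.length ≤ N →
      ∑ i ∈ range N, ∑ j ∈ Ioo i N, min (l.getD i 0) (l.getD j 0) = pm l) :=
  ⟨pm_facts_perm, pm_facts_two, pm_facts_three, pm_facts_four, pm_facts_five⟩

end JSup
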