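import Pool.Agent.Helper204.JS.Stmt
import Pool.Agent.Helper204.JS.Defs
import Pool.Agent.Helper204.JS.Defs1
import Pool.Agent.Helper204.JS.Defs2

set_option linter.unusedSectionVars false

open MvPolynomial Finset

noncomputable section

namespace JSup
variable {K : Type} [Field K] [CharZero K] [Par K]



theorem star_facts_sum_filter (l : List ℕ) : (l.filter (fun i => 0 < i)).sum = l.sum := by
  induction l with
  | nil => rfl
  | cons x t ih =>
    by_cases hx : 0 < x
    · rw [List.filter_cons_of_pos (by simpa using hx), List.sum_cons, List.sum_cons, ih]
    · rw [List.filter_cons_of_neg (by simpa using hx), List.sum_cons, ih]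
      omega

theorem star_facts_le_sum (l : List ℕ) : ∀ p ∈ l, p ≤ l.sum := by
  induction l with
  | nil => intro p hp; simp at hp
  | cons x t ih =>
    intro p hp
    rw [List.sum_cons]
    rcases List.mem_cons.mp hp with rfl | h
    · omega
    · have := ih p h
      omega

theorem star_facts_map_sum (l : List ℕ) : (l.map (· + 1)).sum = l.sum + l.length := by
  induction l with
  | nil => rfl
  | cons x t ih => rw [List.map_cons, List.sum_cons, List.sum_cons, List.length_cons, ih]; ring

theorem star_facts_nI (l : List ℕ) (j n : ℕ) (h : ∀ p ∈ l, p ≤ n) :
    (l.filter (fun r => j < r)).length = nI l (j + 1) (n + 1) := by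
  unfold nI
  congr 1
  apply List.filter_congr
  intro p hp
  have := h p hp
  simp only [decide_eq_decide]
  omega

theorem star_facts_filter_filter (l : List ℕ) (j : ℕ) :
    ((l.filter (fun i => 0 < i)).filter (fun r => j < r)).length =
      (l.filter (fun r => j < r)).length := by
  rw [List.filter_filter]
  congr 1
  apply List.filter_congr
  intro p _
  by_cases h : j < p
  · have h2 : 0 < p := by omega
    simp [h, h2]
  · simp [h]

theorem star_facts_shift (l : List ℕ) (j : ℕ) :
    ((l.map (· + 1)).filter (fun r => j < r)).length =
      (l.filter (fun r => j < r)).length + l.count j := by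
  induction l with
  | nil => rfl
  | cons x t ih =>
    rw [List.map_cons, List.count_cons]
    rcases lt_trichotomy j x with h | h | h
    · rw [List.filter_cons_of_pos (by simp; omega), List.filter_cons_of_pos (by simpa using h),
        List.length_cons, List.length_cons, ih]
      have : ¬ (x = j) := by omega
      simp [this]
      omega
    · subst h
      rw [List.filter_cons_of_pos (by simp), List.filter_cons_of_neg (by simp),
        List.length_cons, ih]
      simp
      omega
    · rw [List.filter_cons_of_neg (by simp; omega), List.filter_cons_of_neg (by simp; omega), ih]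
      have : ¬ (x = j) := by omega
      simp [this]

/-- HINT: `List.perm_insertionSort`, `List.pairwise_insertionSort` (names may differ: sorted_insertionSort); `colLen` and
`count` are invariant under permutations of the list; `#{p + 1 > j} - #{p > j} = #{p = j}` and the entries of
`L.a` are distinct. -/
theorem star_facts {n m : ℕ} (L : SuperPartition n m) :
    L.star.Pairwise (· ≥ ·) ∧ L.ostar.Pairwise (· ≥ ·) ∧
    L.star.Perm ((L.a ++ L.s).filter (fun i => 0 < i)) ∧ L.ostar.Perm (L.a.map (· + 1) ++ L.s) ∧
    (∀ i ∈ L.star, 0 < i) ∧ (∀ i ∈ L.ostar, 0 < i) ∧ L.star.sum = n ∧ L.ostar.sum = n + m ∧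
    (∀ j, colLen L.star j = nI L.a (j + 1) (n + 1) + nI L.s (j + 1) (n + 1)) ∧
    (∀ j, colLen L.ostar j = colLen L.star j + (if j ∈ L.a then 1 else 0)) ∧
    (∀ v, 0 < v → L.star.count v = (if v ∈ L.a then 1 else 0) + L.s.count v) := by
  have hsp : L.star.Perm ((L.a ++ L.s).filter (fun i => 0 < i)) := List.perm_insertionSort _ _
  have hop : L.ostar.Perm (L.a.map (· + 1) ++ L.s) := List.perm_insertionSort _ _
  have hsum := L.sum_eq
  have hnd : L.a.Nodup := by
    have := L.a_strict
    exact this.imp (fun h => by omega)
  have hcol : ∀ j, colLen L.star j =
      (L.a.filter (fun r => j < r)).length + (L.s.filter (fun r => j < r)).length := by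
    intro j
    unfold colLen
    rw [(hsp.filter _).length_eq, star_facts_filter_filter, List.filter_append, List.length_append]
  refine ⟨List.pairwise_insertionSort _ _, List.pairwise_insertionSort _ _, hsp, hop, ?_, ?_, ?_, ?_,
    ?_, ?_, ?_⟩
  · intro i hi
    have := hsp.mem_iff.mp hi
    rw [List.mem_filter] at this
    simpa using this.2
  · intro i hi
    have := hop.mem_iff.mp hi
    rw [List.mem_append, List.mem_map] at this
    rcases this with ⟨x, _, rfl⟩ | h
    · omega
    · exact L.s_pos i h
  · rw [hsp.sum_eq, star_facts_sum_filter, List.sum_append, hsum]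
  · rw [hop.sum_eq, List.sum_append, star_facts_map_sum, L.a_length]
    omega
  · intro j
    rw [hcol, star_facts_nI L.a j n, star_facts_nI L.s j n]
    · intro p hp
      have := star_facts_le_sum L.s p hp
      omega
    · intro p hp
      have := star_facts_le_sum L.a p hp
      omega
  · intro j
    rw [hcol]
    unfold colLen
    rw [(hop.filter _).length_eq, List.filter_append, List.length_append, star_facts_shift,
      hnd.count]
    omega
  · intro v hv
    rw [hsp.count_eq, List.count_filter (by simpa using hv), List.count_append, hnd.count]

end JSup
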