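import Pool.Agent.Helper204.JS.Stmt
import Pool.Agent.Helper204.JS.Defs
import Pool.Agent.Helper204.JS.Defs1
import Pool.Agent.Helper204.JS.Defs2
import Pool.Agent.Helper204.JS.P_star_facts
import Pool.Agent.Helper204.JS.P_pm_facts

set_option linter.unusedSectionVars false

open MvPolynomial Finset

noncomputable section

namespace JSup
variable {K : Type} [Field K] [CharZero K] [Par K]



theorem eM_dOf_sum_getD (l : List ℕ) (N : ℕ) (h : l.length ≤ N) (f : ℕ → K) (hf : f 0 = 0) :
    ∑ i ∈ range N, f (l.getD i 0) = (l.map f).sum := by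
  induction l generalizing N with
  | nil => simp [hf]
  | cons x t ih =>
    obtain ⟨M, rfl⟩ : ∃ M, N = M + 1 := ⟨N - 1, by simp at h; omega⟩
    rw [Finset.sum_range_succ']
    simp only [List.getD_cons_succ, List.getD_cons_zero, List.map_cons, List.sum_cons]
    rw [ih M (by simp at h; omega)]
    ring

theorem eM_dOf_sum_filter (l : List ℕ) (f : ℕ → K) (hf : f 0 = 0) :
    ((l.filter (fun i => 0 < i)).map f).sum = (l.map f).sum := by
  induction l with
  | nil => simp
  | cons x t ih =>
    by_cases hx : 0 < x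
    · simp only [List.filter_cons, hx, decide_true, if_true, List.map_cons, List.sum_cons, ih]
    · have h0 : x = 0 := by omega
      subst h0
      simp only [List.filter_cons, lt_irrefl, decide_false, Bool.false_eq_true, if_false, List.map_cons,
        List.sum_cons, ih, hf, zero_add]

/-- HINT: `pm_facts`, `star_facts`; `dOf L i = (a.reverse ++ s.reverse).getD i 0`. -/
theorem eM_dOf (N n m : ℕ) (hN : n + m ≤ N) (L : SuperPartition n m) :
    (eM N (dOf L) : K) = al * ((L.star.map (fun x => x ^ 2)).sum : ℕ) - 2 * (nn L.star : K) + ((N : K) - 1) * n ∧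
    nn L.ostar = nn L.star + m.choose 2 + crossN L := by
  obtain ⟨hs1, hs2, hs3, hs4, hs5, hs6, hs7, hs8, -, -, -⟩ := star_facts L
  obtain ⟨hp1, hp2, hp3, hp4, hp5⟩ := pm_facts
  have hperm : (L.a.reverse ++ L.s.reverse).Perm (L.a ++ L.s) :=
    (List.reverse_perm L.a).append (List.reverse_perm L.s)
  have hpmstar : pm (L.a ++ L.s) = nn L.star := by
    rw [← hp4, ← hp1 _ _ hs3, hp2 _ hs1]
  have hlen : (L.a.reverse ++ L.s.reverse).length ≤ N := by
    have h1 : L.s.length ≤ L.s.sum := List.length_le_sum_of_one_le L.s (fun i hi => L.s_pos i hi)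
    have h2 := L.a_length
    have h3 := L.sum_eq
    simp only [List.length_append, List.length_reverse]
    omega
  have hsum : ∀ f : ℕ → K, f 0 = 0 → ∑ i ∈ range N, f (dOf L i) = (L.star.map f).sum := by
    intro f hf
    have h1 : ∑ i ∈ range N, f (dOf L i) = ∑ i ∈ range N, f ((L.a.reverse ++ L.s.reverse).getD i 0) := rfl
    rw [h1, eM_dOf_sum_getD _ N hlen f hf, (hperm.map f).sum_eq, ← eM_dOf_sum_filter (L.a ++ L.s) f hf,
      (hs3.map f).sum_eq]
  have hmin : ∑ i ∈ range N, ∑ j ∈ Ioo i N, ((min (dOf L i) (dOf L j) : ℕ) : K) = (nn L.star : K) := by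
    have h1 : ∑ i ∈ range N, ∑ j ∈ Ioo i N, (min (dOf L i) (dOf L j) : ℕ) = nn L.star := by
      have h2 := hp5 (L.a.reverse ++ L.s.reverse) N hlen
      rw [hp1 _ _ hperm, hpmstar] at h2
      exact h2
    rw [← h1]
    push_cast
    rfl
  have hsq := hsum (fun x => (x : K) ^ 2) (by simp)
  have hli := hsum (fun x => (x : K)) (by simp)
  constructor
  · unfold eM
    rw [hmin]
    have e1 : ∑ i ∈ range N, ((dOf L i : ℕ) : K) ^ 2 = (((L.star.map (fun x => x ^ 2)).sum : ℕ) : K) := by
      rw [hsq, Nat.cast_list_sum, List.map_map]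
      congr 1
      apply List.map_congr_left
      intro x _
      simp
    have e2 : ∑ i ∈ range N, ((dOf L i : ℕ) : K) = (n : K) := by
      rw [hli, ← Nat.cast_list_sum, hs7]
    rw [e1, e2]
  · have h1 : nn L.ostar = pm (L.a.map (· + 1) ++ L.s) := by
      rw [← hp2 _ hs2, hp1 _ _ hs4]
    rw [h1, hp3, hpmstar, L.a_length]
    rfl

end JSup
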