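import Pool.Agent.Helper204.JS.Stmt
import Pool.Agent.Helper204.JS.Defs
import Pool.Agent.Helper204.JS.Defs1
import Pool.Agent.Helper204.JS.Defs2

set_option linter.unusedSectionVars false

open MvPolynomial Finset

noncomputable section

namespace JSup
variable {K : Type} [Field K] [CharZero K] [Par K]



theorem nnd_take (l : List ℕ) (k : ℕ) : (l.take k).sum = ∑ r ∈ range k, l.getD r 0 := by
  induction l generalizing k with
  | nil => simp
  | cons x t ih =>
    cases k with
    | zero => simp
    | succ k =>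
      rw [List.take_succ_cons, List.sum_cons, Finset.sum_range_succ', ih]
      simp [add_comm]

theorem nnd_parts (g : ℕ → ℕ) (M : ℕ) :
    ∑ r ∈ range M, r * g r + ∑ k ∈ range M, ∑ r ∈ range (k + 1), g r =
      M * ∑ r ∈ range M, g r := by
  induction M with
  | zero => simp
  | succ M ih =>
    rw [Finset.sum_range_succ, Finset.sum_range_succ (fun k => ∑ r ∈ range (k + 1), g r),
      Finset.sum_range_succ g]
    have : (M + 1) * (∑ x ∈ range M, g x + g M) =
      M * ∑ x ∈ range M, g x + M * g M + (∑ x ∈ range M, g x + g M) := by ring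
    rw [this, ← ih]
    ring

theorem nnd_nn (l : List ℕ) (M : ℕ) (hM : l.length ≤ M) :
    nn l = ∑ r ∈ range M, r * l.getD r 0 := by
  unfold nn
  apply Finset.sum_subset
  · intro i hi
    rw [Finset.mem_range] at *
    omega
  · intro i _ hi
    rw [Finset.mem_range] at hi
    rw [List.getD_eq_default _ _ (by omega), mul_zero]

theorem nnd_sum (l : List ℕ) (M : ℕ) (hM : l.length ≤ M) :
    l.sum = ∑ r ∈ range M, l.getD r 0 := by
  rw [← nnd_take, List.take_of_length_le hM]

theorem nnd_all (l : List ℕ) (M : ℕ) (hM : l.length ≤ M) :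
    nn l + ∑ k ∈ range M, (l.take (k + 1)).sum = M * l.sum := by
  rw [nnd_nn l M hM, nnd_sum l M hM, ← nnd_parts]
  congr 1
  exact Finset.sum_congr rfl fun k _ => nnd_take l (k + 1)

theorem nnd_len (l₁ l₂ : List ℕ) (p2 : ∀ i ∈ l₂, 0 < i)
    (h : ∀ r, l₁.getD r 0 = l₂.getD r 0) : l₂.length ≤ l₁.length := by
  by_contra hlt
  push Not at hlt
  have h1 := h l₁.length
  rw [List.getD_eq_default _ _ le_rfl, List.getD_eq_getElem _ _ hlt] at h1
  have := p2 _ (List.getElem_mem hlt)
  omega

/-- HINT: with `S_k(l) = (l.take k).sum`: for any `M ≥ length`, `nn l = Σ_{k=1}^{M} (l.sum - S_k(l))`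
(summation by parts). So `Dom l₁ l₂` gives `nn l₂ ≤ nn l₁`, and equality forces all `S_k` equal, so all entries (padded
by 0) are equal, and since all entries are positive the lists are equal. -/
theorem nn_dom (l₁ l₂ : List ℕ) (h : Dom l₁ l₂) (p1 : ∀ i ∈ l₁, 0 < i) (p2 : ∀ i ∈ l₂, 0 < i) :
    nn l₂ ≤ nn l₁ ∧ (nn l₁ = nn l₂ → l₁ = l₂) := by
  obtain ⟨hs, hd⟩ := h
  set M := max l₁.length l₂.length with hM
  have a1 := nnd_all l₁ M (le_max_left _ _)
  have a2 := nnd_all l₂ M (le_max_right _ _)
  rw [hs] at a1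
  have hle : ∑ k ∈ range M, (l₁.take (k + 1)).sum ≤ ∑ k ∈ range M, (l₂.take (k + 1)).sum :=
    Finset.sum_le_sum fun k _ => hd (k + 1)
  refine ⟨by omega, fun he => ?_⟩
  have heq : ∑ k ∈ range M, (l₁.take (k + 1)).sum = ∑ k ∈ range M, (l₂.take (k + 1)).sum := by
    omega
  have hk := (Finset.sum_eq_sum_iff_of_le fun k _ => hd (k + 1)).1 heq
  have hk' : ∀ k ≤ M, (l₁.take k).sum = (l₂.take k).sum := by
    intro k hkM
    cases k with
    | zero => simp
    | succ k => exact hk k (Finset.mem_range.2 hkM)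
  have hg : ∀ r, l₁.getD r 0 = l₂.getD r 0 := by
    intro r
    rcases lt_or_ge r M with hr | hr
    · have b1 := hk' r hr.le
      have b2 := hk' (r + 1) hr
      rw [nnd_take, nnd_take, Finset.sum_range_succ, Finset.sum_range_succ] at b2
      rw [nnd_take, nnd_take] at b1
      omega
    · rw [List.getD_eq_default _ _ (by omega), List.getD_eq_default _ _ (by omega)]
  have hl : l₁.length = l₂.length :=
    le_antisymm (nnd_len l₂ l₁ p1 fun r => (hg r).symm) (nnd_len l₁ l₂ p2 hg)
  apply List.ext_getElem hl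
  intro i h1 h2
  have := hg i
  rwa [List.getD_eq_getElem _ _ h1, List.getD_eq_getElem _ _ h2] at this

end JSup
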