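import Pool.Agent.Helper204.JS.Stmt
import Pool.Agent.Helper204.JS.Defs
import Pool.Agent.Helper204.JS.Defs1
import Pool.Agent.Helper204.JS.Defs2
import Pool.Agent.Helper204.JS.P_star_facts

set_option linter.unusedSectionVars false

open MvPolynomial Finset

noncomputable section

namespace JSup
variable {K : Type} [Field K] [CharZero K] [Par K]



/-- HINT: `j ∈ L.a ↔ colLen L.ostar j = colLen L.star j + 1` (`star_facts`), so `L.a` and `W.a` have the same elements; both
are strictly decreasing, hence equal; then `L.s`, `W.s` are sorted and permutations of each other (cancel the positive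
entries of `a`), hence equal. -/
theorem sp_ext {n m : ℕ} (L W : SuperPartition n m) (h1 : L.star = W.star) (h2 : L.ostar = W.ostar) : L = W := by
  obtain ⟨_, _, _, p4, _, _, _, _, _, c10, _⟩ := star_facts L
  obtain ⟨_, _, _, q4, _, _, _, _, _, d10, _⟩ := star_facts W
  have hmem : ∀ j, j ∈ L.a ↔ j ∈ W.a := by
    intro j
    have e1 := c10 j
    have e2 := d10 j
    rw [h1, h2] at e1
    rw [e1] at e2
    by_cases ha : j ∈ L.a <;> by_cases hb : j ∈ W.a <;> simp [ha, hb] at e2 ⊢
  have hperm : L.a.Perm W.a :=
    (List.perm_ext_iff_of_nodup (L.a_strict.imp fun h => (ne_of_gt h))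
      (W.a_strict.imp fun h => (ne_of_gt h))).2 hmem
  have ha : L.a = W.a :=
    List.Perm.eq_of_pairwise (fun a b _ _ hab hba => absurd hab (not_lt_of_gt hba)) L.a_strict
      W.a_strict hperm
  have hs : L.s.Perm W.s := by
    have h3 : (L.a.map (· + 1) ++ L.s).Perm (W.a.map (· + 1) ++ W.s) :=
      (p4.symm.trans (by rw [h2])).trans q4
    rw [ha] at h3
    exact (List.perm_append_left_iff _).1 h3
  have hs' : L.s = W.s :=
    List.Perm.eq_of_pairwise (fun a b _ _ hab hba => le_antisymm hba hab) L.s_weak W.s_weak hs
  exact SuperPartition.ext ha hs'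

end JSup
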