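import Pool.Agent.Helper204.JS.Stmt
import Pool.Agent.Helper204.JS.Defs
import Pool.Agent.Helper204.JS.Defs1
import Pool.Agent.Helper204.JS.Defs2
import Pool.Agent.Helper204.JS.P_star_facts
import Pool.Agent.Helper204.JS.P_sp_ext
import Pool.Agent.Helper204.JS.P_nn_dom
import Pool.Agent.Helper204.JS.P_eM_dOf

set_option linter.unusedSectionVars false

open MvPolynomial Finset

noncomputable section

namespace JSup
variable {K : Type} [Field K] [CharZero K] [Par K]



theorem sep_indep (a b : ℤ) (h : (a : K) * al + (b : K) = 0) : b = 0 := by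
  have h1 : a = 0 := Par.indep a b h
  rw [h1, Int.cast_zero, zero_mul, zero_add] at h
  exact_mod_cast h

/-- HINT: if `W.star ≠ L.star` then `nn W.star > nn L.star` (`nn_dom`) and equality of `eM` would give
`a α + b = 0` with integers `a`, `b = -2 (nn W.star - nn L.star) ≠ 0`: `Par.indep` gives `a = 0`, then `b = 0`,
contradiction (`eM_dOf`). If `W.star = L.star` then `W.ostar ≠ L.ostar` (`sp_ext`), `nn W.ostar > nn L.ostar`, so
`crossN W > crossN L` and `iM W = iM L` gives the same contradiction. -/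
theorem sep (N n m : ℕ) (hN : n + m ≤ N) (L W : SuperPartition n m) (h : W ≤ L) (hne : W ≠ L) :
    (eM N (dOf W) : K) ≠ eM N (dOf L) ∨ (iM W : K) ≠ iM L := by
  obtain ⟨-, -, -, -, hLp, hLop, -, -, -, -, -⟩ := star_facts L
  obtain ⟨-, -, -, -, hWp, hWop, -, -, -, -, -⟩ := star_facts W
  obtain ⟨hd1, hd2⟩ : Dom W.star L.star ∧ Dom W.ostar L.ostar := h
  obtain ⟨e1, e2⟩ := eM_dOf (K := K) N n m hN L
  obtain ⟨f1, f2⟩ := eM_dOf (K := K) N n m hN W
  by_cases hs : W.star = L.star
  · right
    have ho : W.ostar ≠ L.ostar := fun ho => hne (sp_ext W L hs ho)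
    obtain ⟨g1, g2⟩ := nn_dom _ _ hd2 hWop hLop
    have g3 : nn L.ostar < nn W.ostar := lt_of_le_of_ne g1 fun h5 => ho (g2 h5.symm)
    have g4 : crossN L < crossN W := by
      rw [e2, f2, hs] at g3
      omega
    intro heq
    unfold iM at heq
    generalize W.a.sum = sW at heq
    generalize L.a.sum = sL at heq
    have h6 : (((sW : ℤ) - (sL : ℤ) : ℤ) : K) * al + (((crossN L : ℤ) - (crossN W : ℤ) : ℤ) : K) = 0 := by
      push_cast
      linear_combination heq
    have h7 := sep_indep _ _ h6
    omega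
  · left
    obtain ⟨g1, g2⟩ := nn_dom _ _ hd1 hWp hLp
    have g3 : nn L.star < nn W.star := lt_of_le_of_ne g1 fun h5 => hs (g2 h5.symm)
    intro heq
    rw [e1, f1] at heq
    generalize (W.star.map (fun x => x ^ 2)).sum = sW at heq
    generalize (L.star.map (fun x => x ^ 2)).sum = sL at heq
    have h6 : (((sW : ℤ) - (sL : ℤ) : ℤ) : K) * al
        + ((2 * (nn L.star : ℤ) - 2 * (nn W.star : ℤ) : ℤ) : K) = 0 := by
      push_cast
      linear_combination heq
    have h7 := sep_indep _ _ h6
    omega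

end JSup
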