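import Pool.Agent.Helper204.JS.Stmt
import Pool.Agent.Helper204.JS.Defs
import Pool.Agent.Helper204.JS.Defs1
import Pool.Agent.Helper204.JS.Defs2
import Pool.Agent.Helper204.JS.Defs3
import Pool.Agent.Helper204.JS.Defs4
import Pool.Agent.Helper204.JS.P_sep
import Pool.Agent.Helper204.JS.P_self_adjoint
import Pool.Agent.Helper204.JS.P_hB_of_B

set_option linter.unusedSectionVars false

open MvPolynomial Finset

noncomputable section

namespace JSup
variable {K : Type} [Field K] [CharZero K] [Par K]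



/-- HINT: `Bf f g = B (Th f) (Th g)` (compose `B` with `Th`), `hB_of_B`, `self_adjoint` for `f, g` in `U`:
`e_f Bf f g = Bf (MM f) g = Bf f (MM g) = e_g Bf f g`, same for `II`; one of the pairs of eigenvalues differs (`sep`). -/
theorem J_orth (N n m : ℕ) (hN : n + m ≤ N) (B : LinearMap.BilinForm K (Superspace K N))
    (hB : ∀ L W : SuperPartition n m, B (pLam K N L) (pLam K N W) =
      if L = W then (-1) ^ (m.choose 2) * (al : K) ^ (m + L.s.length) * (zLam L.s : K) else 0)
    (L W : SuperPartition n m) (h : W ≤ L) (hne : W ≠ L) (f g : MvPolynomial ℕ K)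
    (hf : InU N m n f) (hg : InU N m n g)
    (hf1 : MM N f = (eM N (dOf L) : K) • f) (hf2 : II N m f = (iM L : K) • f)
    (hg1 : MM N g = (eM N (dOf W) : K) • g) (hg2 : II N m g = (iM W : K) • g) :
    B (Th N m f) (Th N m g) = 0 := by
  have hm : m ≤ N := by omega
  let Bf : MvPolynomial ℕ K →ₗ[K] MvPolynomial ℕ K →ₗ[K] K := LinearMap.compl₁₂ B (Th N m) (Th N m)
  have hBf : ∀ p q, Bf p q = B (Th N m p) (Th N m q) := fun p q => rfl
  obtain ⟨h1, h2⟩ := self_adjoint N m n hm Bf
    ((((N - m).factorial : ℕ) : K) ^ 2 * (-1) ^ (m.choose 2) * (al : K) ^ m)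
    (fun d e hd he => hB_of_B N n m hm B hB d e hd he) f g hf hg
  rw [hf1, hg1, map_smul, map_smul, LinearMap.smul_apply, smul_eq_mul, smul_eq_mul] at h1
  rw [hf2, hg2, map_smul, map_smul, LinearMap.smul_apply, smul_eq_mul, smul_eq_mul] at h2
  rw [← hBf]
  by_contra hne0
  rcases sep (K := K) N n m hN L W h hne with h3 | h3
  · exact h3 (mul_right_cancel₀ hne0 h1).symm
  · exact h3 (mul_right_cancel₀ hne0 h2).symm

end JSup
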