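import Pool.Agent.Helper204.JS.Stmt
import Pool.Agent.Helper204.JS.Defs
import Pool.Agent.Helper204.JS.Defs1
import Pool.Agent.Helper204.JS.Defs2
import Pool.Agent.Helper204.JS.Defs3
import Pool.Agent.Helper204.JS.Defs4
import Pool.Agent.Helper204.JS.P_thp_facts

set_option linter.unusedSectionVars false

open MvPolynomial Finset

noncomputable section

namespace JSup
variable {K : Type} [Field K] [CharZero K] [Par K]



theorem Th_swap_restr (N i j : ℕ) (hi : i < N) (hj : j < N) (f : MvPolynomial ℕ K) :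
    restr N (rename (Equiv.swap i j) f) =
      rename (Equiv.swap (⟨i, hi⟩ : Fin N) ⟨j, hj⟩) (restr N f) := by
  have h : (restr (K := K) N).comp (rename (Equiv.swap i j)) =
      (rename (Equiv.swap (⟨i, hi⟩ : Fin N) ⟨j, hj⟩)).comp (restr N) := by
    apply MvPolynomial.algHom_ext
    intro k
    simp only [AlgHom.comp_apply, rename_X, restr, aeval_X]
    by_cases hk : k < N
    · rw [dif_pos hk, rename_X]
      by_cases h1 : k = i
      · subst h1
        rw [dif_pos (by rw [Equiv.swap_apply_left]; exact hj)]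
        simp
      · by_cases h2 : k = j
        · subst h2
          rw [dif_pos (by rw [Equiv.swap_apply_right]; exact hi)]
          simp
        · rw [dif_pos (by rw [Equiv.swap_apply_of_ne_of_ne h1 h2]; exact hk)]
          congr 1
          have e1 : Equiv.swap (⟨i, hi⟩ : Fin N) ⟨j, hj⟩ ⟨k, hk⟩ = ⟨k, hk⟩ :=
            Equiv.swap_apply_of_ne_of_ne (by simpa [Fin.ext_iff] using h1)
              (by simpa [Fin.ext_iff] using h2)
          rw [e1]
          apply Fin.ext
          exact Equiv.swap_apply_of_ne_of_ne h1 h2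
    · have h1 : k ≠ i := by omega
      have h2 : k ≠ j := by omega
      rw [dif_neg hk, dif_neg (by rw [Equiv.swap_apply_of_ne_of_ne h1 h2]; exact hk), map_zero]
  exact DFunLike.congr_fun h f

theorem Th_swap_aux (N m i j : ℕ) (hi : i < N) (hj : j < N) (f : MvPolynomial ℕ K) :
    Th N m (rename (Equiv.swap i j) f) = ∑ σ : Equiv.Perm (Fin N),
      thp N m (σ * Equiv.swap (⟨i, hi⟩ : Fin N) ⟨j, hj⟩) *
      algebraMap (MvPolynomial (Fin N) K) (Superspace K N) (rename σ (restr N f)) := by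
  rw [Th_apply, ← Equiv.sum_comp (Equiv.mulRight (Equiv.swap (⟨i, hi⟩ : Fin N) ⟨j, hj⟩))]
  refine Finset.sum_congr rfl fun σ _ => ?_
  rw [Equiv.coe_mulRight, Th_swap_restr N i j hi hj f, rename_rename]
  congr 3
  have h : (⇑(σ * Equiv.swap (⟨i, hi⟩ : Fin N) ⟨j, hj⟩) ∘
      ⇑(Equiv.swap (⟨i, hi⟩ : Fin N) ⟨j, hj⟩)) = ⇑σ := by
    funext k
    simp [Equiv.Perm.mul_apply]
  rw [h]

/-- HINT: reindex the sum over `σ` by `σ ↦ σ * swap`, `thp_facts`;
`restr N (rename (swap i j) f) = rename (swap ⟨i,_⟩ ⟨j,_⟩) (restr N f)` for `i, j < N`. -/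
theorem Th_swap (N m i j : ℕ) (hm : m ≤ N) (hij : i < j) (hj : j < N) (f : MvPolynomial ℕ K) :
    (j < m → Th N m (rename (Equiv.swap i j) f) = - Th N m f) ∧
    (m ≤ i → Th N m (rename (Equiv.swap i j) f) = Th N m f) := by
  have hi : i < N := by omega
  obtain ⟨-, h2, h3⟩ : _ ∧ _ ∧ _ := ⟨True.intro,
    fun (σ : Equiv.Perm (Fin N)) => (thp_facts (K := K) N m hm σ).2.1 ⟨i, hi⟩ ⟨j, hj⟩,
    fun (σ : Equiv.Perm (Fin N)) => (thp_facts (K := K) N m hm σ).2.2 ⟨i, hi⟩ ⟨j, hj⟩⟩
  refine ⟨fun hjm => ?_, fun him => ?_⟩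
  · rw [Th_swap_aux N m i j hi hj f, Th_apply, ← Finset.sum_neg_distrib]
    refine Finset.sum_congr rfl fun σ _ => ?_
    rw [h2 σ hij hjm, neg_mul]
  · rw [Th_swap_aux N m i j hi hj f, Th_apply]
    refine Finset.sum_congr rfl fun σ _ => ?_
    rw [h3 σ him hij]

end JSup
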