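import Pool.Agent.Helper204.JS.Stmt
import Pool.Agent.Helper204.JS.Defs
import Pool.Agent.Helper204.JS.Defs1
import Pool.Agent.Helper204.JS.Defs2
import Pool.Agent.Helper204.JS.Defs3
import Pool.Agent.Helper204.JS.Defs4
import Pool.Agent.Helper204.JS.P_Th_swap

set_option linter.unusedSectionVars false

open MvPolynomial Finset

noncomputable section

namespace JSup
variable {K : Type} [Field K] [CharZero K] [Par K]



theorem thp_emb_swap (a m : ℕ) (i j : Fin m) :
    emb a m (Equiv.swap i j) = Equiv.swap (a + (i : ℕ)) (a + (j : ℕ)) := by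
  have hi := i.2
  have hj := j.2
  ext k
  by_cases hk : a ≤ k ∧ k < a + m
  · obtain ⟨l, rfl⟩ : ∃ l : Fin m, k = a + (l : ℕ) := ⟨⟨k - a, by omega⟩, by simp only; omega⟩
    rw [emb_in, Equiv.swap_apply_def, Equiv.swap_apply_def]
    have e1 : (l = i) ↔ (a + (l:ℕ) = a + (i : ℕ)) := by
      rw [Fin.ext_iff]; omega
    have e2 : (l = j) ↔ (a + (l:ℕ) = a + (j : ℕ)) := by
      rw [Fin.ext_iff]; omega
    simp only [e1, e2]
    split_ifs <;> rfl
  · rw [emb_out a m _ k (by omega), Equiv.swap_apply_of_ne_of_ne (by omega) (by omega)]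

theorem thp_ren_mul (σ τ : Equiv.Perm ℕ) (f : MvPolynomial ℕ K) :
    rename (σ * τ : Equiv.Perm ℕ) f = rename σ (rename τ f) := by
  rw [rename_rename]
  rfl

theorem thp_ren_one (f : MvPolynomial ℕ K) : rename (1 : Equiv.Perm ℕ) f = f := by
  rw [Equiv.Perm.coe_one, rename_id]
  rfl

theorem thp_right (N m : ℕ) (hm : m ≤ N) (u : Equiv.Perm (Fin (N - m))) (f : MvPolynomial ℕ K) :
    Th N m (rename (emb m (N - m) u) f) = Th N m f := by
  induction u using Equiv.Perm.swap_induction_on with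
  | one => rw [map_one, thp_ren_one]
  | swap_mul u x y hxy ih =>
    have hx := x.2
    have hy := y.2
    have hne : (x : ℕ) ≠ (y : ℕ) := fun h => hxy (Fin.ext h)
    rw [map_mul, thp_ren_mul, thp_emb_swap]
    rcases lt_or_gt_of_ne hne with h | h
    · rw [(Th_swap N m (m + (x : ℕ)) (m + (y : ℕ)) hm (by omega) (by omega) _).2 (by omega), ih]
    · rw [Equiv.swap_comm,
        (Th_swap N m (m + (y : ℕ)) (m + (x : ℕ)) hm (by omega) (by omega) _).2 (by omega), ih]

theorem thp_left (N m : ℕ) (hm : m ≤ N) (w : Equiv.Perm (Fin m)) (f : MvPolynomial ℕ K) :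
    Th N m (rename (emb 0 m w) f) = (((Equiv.Perm.sign w : ℤ)) : K) • Th N m f := by
  induction w using Equiv.Perm.swap_induction_on with
  | one => rw [map_one, thp_ren_one, map_one]; simp
  | swap_mul w x y hxy ih =>
    have hx := x.2
    have hy := y.2
    have hne : (x : ℕ) ≠ (y : ℕ) := fun h => hxy (Fin.ext h)
    have hs : (((Equiv.Perm.sign (Equiv.swap x y * w) : ℤ)) : K) =
        -(((Equiv.Perm.sign w : ℤ)) : K) := by
      rw [Equiv.Perm.sign_mul, Equiv.Perm.sign_swap hxy]
      push_cast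
      ring
    rw [map_mul, thp_ren_mul, thp_emb_swap, hs, neg_smul, ← ih]
    rcases lt_or_gt_of_ne hne with h | h
    · exact (Th_swap N m (0 + (x : ℕ)) (0 + (y : ℕ)) hm (by omega) (by omega) _).1 (by omega)
    · rw [Equiv.swap_comm]
      exact (Th_swap N m (0 + (y : ℕ)) (0 + (x : ℕ)) hm (by omega) (by omega) _).1 (by omega)

/-- HINT: from `Th_swap`: permutations are products of transpositions. -/
theorem Th_perm (N m : ℕ) (hm : m ≤ N) (f : MvPolynomial ℕ K) (w : Equiv.Perm (Fin m))
    (u : Equiv.Perm (Fin (N - m))) :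
    Th N m (rename (emb 0 m w * emb m (N - m) u : Equiv.Perm ℕ) f) = (((Equiv.Perm.sign w : ℤ)) : K) • Th N m f := by
  rw [thp_ren_mul, thp_left N m hm, thp_right N m hm]

end JSup
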