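import Pool.Agent.Helper204.JS.Stmt
import Pool.Agent.Helper204.JS.Defs
import Pool.Agent.Helper204.JS.Defs1
import Pool.Agent.Helper204.JS.Defs2
import Pool.Agent.Helper204.JS.Defs3
import Pool.Agent.Helper204.JS.Defs4
import Pool.Agent.Helper204.JS.P_Th_swap
import Pool.Agent.Helper204.JS.P_Th_perm

set_option linter.unusedSectionVars false

open MvPolynomial Finset

noncomputable section

namespace JSup
variable {K : Type} [Field K] [CharZero K] [Par K]



theorem thm_getD_all0 (S : List ℕ) (h : ∀ v ∈ S, v = 0) (k : ℕ) : S.getD k 0 = 0 := by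
  rw [List.getD_eq_getElem?_getD]
  by_cases hk : k < S.length
  · rw [List.getElem?_eq_getElem hk, Option.getD_some]
    exact h _ (List.getElem_mem hk)
  · rw [List.getElem?_eq_none (not_lt.mp hk), Option.getD_none]

theorem thm_getD_filter : ∀ (S : List ℕ), S.Pairwise (· ≥ ·) → ∀ k,
    (S.filter (fun v => decide (0 < v))).getD k 0 = S.getD k 0
  | [], _, k => by simp
  | x :: t, h, k => by
    rw [List.pairwise_cons] at h
    by_cases hx : 0 < x
    · rw [List.filter_cons_of_pos (by simpa using hx)]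
      cases k with
      | zero => simp
      | succ k =>
        rw [List.getD_cons_succ, List.getD_cons_succ]
        exact thm_getD_filter t h.2 k
    · have hx0 : x = 0 := by omega
      have hall : ∀ v ∈ x :: t, v = 0 := by
        intro v hv
        rcases List.mem_cons.1 hv with h1 | h1
        · rw [h1, hx0]
        · have := h.1 v h1
          omega
      rw [thm_getD_all0 (x :: t) hall k]
      apply thm_getD_all0
      intro v hv
      exact hall v (List.mem_of_mem_filter hv)

theorem thm_sum_filter : ∀ (S : List ℕ), (S.filter (fun v => decide (0 < v))).sum = S.sum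
  | [] => by simp
  | x :: t => by
    by_cases hx : 0 < x
    · rw [List.filter_cons_of_pos (by simpa using hx), List.sum_cons, List.sum_cons,
        thm_sum_filter t]
    · have hx0 : x = 0 := by omega
      rw [List.filter_cons_of_neg (by simpa using hx), List.sum_cons, thm_sum_filter t, hx0,
        zero_add]

theorem thm_getD_ofFn {r : ℕ} (f : Fin r → ℕ) (k : ℕ) (hk : k < r) :
    (List.ofFn f).getD k 0 = f ⟨k, hk⟩ := by
  rw [List.getD_eq_getElem _ _ (by rw [List.length_ofFn]; exact hk), List.getElem_ofFn]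

theorem thm_getD_ofFn' {r : ℕ} (f : Fin r → ℕ) (k : ℕ) (hk : r ≤ k) :
    (List.ofFn f).getD k 0 = 0 := by
  apply List.getD_eq_default
  rw [List.length_ofFn]; exact hk

theorem thm_self_neg {V : Type} [AddCommGroup V] [Module K V] (x : V) (h : x = -x) : x = 0 := by
  have h2 : (2 : K) • x = 0 := by
    rw [two_smul]
    nth_rewrite 2 [h]
    rw [add_neg_cancel]
  rcases smul_eq_zero.mp h2 with h3 | h3
  · exact absurd h3 two_ne_zero
  · exact h3

theorem thm_sort (r : ℕ) (f : Fin r → ℕ) : ∃ w : Equiv.Perm (Fin r), Antitone (fun i => f (w i)) := by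
  refine ⟨Tuple.sort (fun i => OrderDual.toDual (f i)), ?_⟩
  intro i j hij
  exact Tuple.monotone_sort (fun i => OrderDual.toDual (f i)) hij

theorem thm_emb_inv (m k : ℕ) (w : Equiv.Perm (Fin m)) (hk : k < m) :
    emb 0 m w⁻¹ k = ((w⁻¹ ⟨k, hk⟩ : Fin m) : ℕ) := by
  have := emb_in 0 m w⁻¹ ⟨k, hk⟩
  simpa using this

/-- HINT: if `d` is not injective on `[0,m)` then `Th = 0` (`Th_swap` for the two equal positions: `Th = -Th`). Otherwise let `W`
have `a` = the values of `d` on `[0,m)` sorted decreasingly, `s` = the nonzero values of `d` on `[m,N)` sorted decreasingly;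
`partF W = equivMapDomain (emb 0 m w * emb m (N-m) u) d` for suitable `w`, `u`; `Th_perm`. -/
theorem Th_monomial (N n m : ℕ) (hN : n + m ≤ N) (d : ℕ →₀ ℕ) (h1 : ∀ k, N ≤ k → d k = 0)
    (h2 : d.sum (fun _ k => k) = n) :
    Th N m (monomial d (1 : K)) = 0 ∨
    ∃ (W : SuperPartition n m) (ε : K), Th N m (monomial d (1 : K)) = ε • Th N m (monomial (partF W) (1 : K)) := by
  have hmN : m ≤ N := by omega
  by_cases hinj : ∀ i j, i < j → j < m → d i ≠ d j
  swap
  · left
    push Not at hinj
    obtain ⟨i, j, hij, hjm, hd⟩ := hinj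
    have h3 := (Th_swap N m i j hmN hij (by omega) (monomial d (1 : K))).1 hjm
    have h4 : rename (Equiv.swap i j) (monomial d (1 : K)) = monomial d (1 : K) := by
      have h5 : Finsupp.mapDomain (Equiv.swap i j) d = d := by
        ext k
        obtain ⟨k, rfl⟩ := (Equiv.swap i j).surjective k
        rw [Finsupp.mapDomain_apply (Equiv.swap i j).injective]
        by_cases hk1 : k = i
        · rw [hk1, Equiv.swap_apply_left, hd]
        · by_cases hk2 : k = j
          · rw [hk2, Equiv.swap_apply_right, hd]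
          · rw [Equiv.swap_apply_of_ne_of_ne hk1 hk2]
      rw [rename_monomial, h5]
    rw [h4] at h3
    exact thm_self_neg (K := K) _ h3
  right
  obtain ⟨w, hw⟩ := thm_sort m (fun i => d i)
  obtain ⟨u, hu⟩ := thm_sort (N - m) (fun i => d (m + i))
  beta_reduce at hw hu
  have hwst : ∀ i j : Fin m, i < j → d (w j) < d (w i) := by
    intro i j hij
    have h3 := hw hij.le
    beta_reduce at h3
    refine lt_of_le_of_ne h3 ?_
    intro h4
    have hne : ((w i : Fin m) : ℕ) ≠ ((w j : Fin m) : ℕ) := by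
      intro h5
      exact hij.ne (w.injective (Fin.ext h5))
    rcases lt_or_gt_of_ne hne with h5 | h5
    · exact hinj _ _ h5 (w j).2 h4.symm
    · exact hinj _ _ h5 (w i).2 h4
  obtain ⟨S, hS⟩ : ∃ S : List ℕ, S = List.ofFn (fun i : Fin (N - m) => d (m + (u i : ℕ))) := ⟨_, rfl⟩
  have hSp : S.Pairwise (· ≥ ·) := by
    rw [hS, List.pairwise_ofFn]
    intro i j hij
    exact hu hij.le
  have hSsum : S.sum = ∑ i ∈ range (N - m), d (m + i) := by
    rw [hS, List.sum_ofFn, Finset.sum_range]
    exact Equiv.sum_comp u (fun i : Fin (N - m) => d (m + (i : ℕ)))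
  have hAsum : (List.ofFn (fun i : Fin m => d (w i : ℕ))).sum = ∑ i ∈ range m, d i := by
    rw [List.sum_ofFn, Finset.sum_range]
    exact Equiv.sum_comp w (fun i : Fin m => d (i : ℕ))
  have hdsum : ∑ i ∈ range m, d i + ∑ i ∈ range (N - m), d (m + i) = n := by
    have h5 : d.sum (fun _ n => n) = ∑ k ∈ range N, d k := by
      rw [Finsupp.sum_of_support_subset (s := range N)]
      · intro k hk
        simp only [Finsupp.mem_support_iff] at hk
        simp only [mem_range]
        by_contra h
        exact hk (h1 k (by omega))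
      · simp
    rw [← h2, h5]
    have h6 := Finset.sum_range_add d m (N - m)
    rw [show m + (N - m) = N by omega] at h6
    exact h6.symm
  obtain ⟨W, hWa, hWs⟩ : ∃ W : SuperPartition n m, W.a = List.ofFn (fun i : Fin m => d (w i : ℕ)) ∧
      W.s = S.filter (fun v => decide (0 < v)) := by
    refine ⟨⟨List.ofFn (fun i : Fin m => d (w i : ℕ)), S.filter (fun v => decide (0 < v)),
      ?_, ?_, ?_, ?_, ?_⟩, rfl, rfl⟩
    · rw [List.pairwise_ofFn]
      intro i j hij
      exact hwst i j hij
    · rw [List.length_ofFn]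
    · exact hSp.filter _
    · intro v hv
      have := (List.mem_filter.1 hv).2
      simpa using this
    · rw [thm_sum_filter, hAsum, hSsum, hdsum]
  have hpart1 : ∀ k (hk : k < m), partF W k = d (w ⟨k, hk⟩ : ℕ) := by
    intro k hk
    rw [partF_apply]
    unfold SuperPartition.part
    rw [List.getD_append _ _ _ _ (by rw [hWa, List.length_ofFn]; exact hk), hWa,
      thm_getD_ofFn _ k hk]
  have hpart2 : ∀ k, partF W (m + k) = S.getD k 0 := by
    intro k
    rw [partF_apply]
    unfold SuperPartition.part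
    rw [List.getD_append_right _ _ _ _ (by rw [hWa, List.length_ofFn]; omega), hWa,
      List.length_ofFn, hWs, thm_getD_filter S hSp, Nat.add_sub_cancel_left]
  have hmap : Finsupp.mapDomain (emb 0 m w⁻¹ * emb m (N - m) u⁻¹ : Equiv.Perm ℕ) d = partF W := by
    ext k
    obtain ⟨k, rfl⟩ := (emb 0 m w⁻¹ * emb m (N - m) u⁻¹ : Equiv.Perm ℕ).surjective k
    rw [Finsupp.mapDomain_apply (emb 0 m w⁻¹ * emb m (N - m) u⁻¹ : Equiv.Perm ℕ).injective]
    rw [Equiv.Perm.mul_apply]
    by_cases hk : k < m
    · rw [emb_out m (N - m) u⁻¹ k (Or.inl hk), thm_emb_inv m k w hk, hpart1 _ (Fin.is_lt _)]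
      rw [Fin.eta]
      have : w (w⁻¹ ⟨k, hk⟩) = ⟨k, hk⟩ := w.apply_symm_apply _
      rw [this]
    · by_cases hk2 : k < N
      · obtain ⟨i, rfl⟩ : ∃ i : Fin (N - m), k = m + (i : ℕ) := ⟨⟨k - m, by omega⟩, by
          show k = m + (k - m)
          omega⟩
        rw [emb_in m (N - m) u⁻¹ i, emb_out 0 m w⁻¹ _ (Or.inr (by omega)), hpart2, hS,
          thm_getD_ofFn _ _ (Fin.is_lt _), Fin.eta]
        have : u (u⁻¹ i) = i := u.apply_symm_apply _
        rw [this]
      · rw [emb_out m (N - m) u⁻¹ k (Or.inr (by omega)), emb_out 0 m w⁻¹ k (Or.inr (by omega))]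
        obtain ⟨i, rfl⟩ : ∃ i : ℕ, k = m + i := ⟨k - m, by omega⟩
        rw [hpart2, hS, thm_getD_ofFn' _ _ (by omega), h1 _ (by omega)]
  refine ⟨W, (((Equiv.Perm.sign w⁻¹ : ℤ)) : K), ?_⟩
  have h7 := Th_perm N m hmN (monomial d (1 : K)) w⁻¹ u⁻¹
  rw [rename_monomial, hmap] at h7
  rw [h7, smul_smul]
  have h8 : (((Equiv.Perm.sign w⁻¹ : ℤ)) : K) * (((Equiv.Perm.sign w⁻¹ : ℤ)) : K) = 1 := by
    rcases Int.units_eq_one_or (Equiv.Perm.sign w⁻¹) with h9 | h9 <;> rw [h9] <;> simp
  rw [h8, one_smul]

end JSup
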