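import Pool.Agent.Helper204.JS.Stmt
import Pool.Agent.Helper204.JS.Defs
import Pool.Agent.Helper204.JS.Defs1
import Pool.Agent.Helper204.JS.Defs2
import Pool.Agent.Helper204.JS.Defs3
import Pool.Agent.Helper204.JS.Defs4

set_option linter.unusedSectionVars false

open MvPolynomial Finset

noncomputable section

namespace JSup
variable {K : Type} [Field K] [CharZero K] [Par K]



theorem mono_Th_slen {n m : ℕ} (L : SuperPartition n m) : L.s.length ≤ n := by
  have h1 : L.s.length ≤ L.s.sum := List.length_le_sum_of_one_le L.s (fun i hi => L.s_pos i hi)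
  have h2 := L.sum_eq
  omega

theorem mono_Th_part {n m : ℕ} (N : ℕ) (hN : n + m ≤ N) (L : SuperPartition n m) (i : ℕ)
    (hi : N ≤ i) : partF L i = 0 := by
  rw [partF_apply, SuperPartition.part]
  apply List.getD_eq_default
  rw [List.length_append, L.a_length]
  have := mono_Th_slen L
  omega

theorem mono_Th_restr {n m : ℕ} (N : ℕ) (hN : n + m ≤ N) (L : SuperPartition n m) :
    restr N (monomial (partF L) (1 : K)) = ∏ i : Fin N, X i ^ L.part i := by
  rw [restr, aeval_monomial, map_one, one_mul]
  rw [Finsupp.prod_of_support_subset (s := range N)]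
  · rw [Finset.prod_range]
    refine Finset.prod_congr rfl fun i _ => ?_
    rw [dif_pos i.2, partF_apply]
  · intro i hi
    rw [Finset.mem_range]
    by_contra h
    exact (Finsupp.mem_support_iff.1 hi) (mono_Th_part N hN L i (not_lt.1 h))
  · intro i _
    exact pow_zero _

/-- HINT: `mono K N L = (autL N L)⁻¹ • Σ_σ thp σ * ∏_i sx (σ i) ^ part i` and `∏_i sx (σ i)^{part i}` (a list product of
commuting central elements over `List.finRange N`) is `algebraMap` of `rename σ (restr N (monomial (partF L) 1))`, because all
positions `i` with `part i ≠ 0` are `< m + L.s.length ≤ N`. (`L.s.length ≤ n` since all parts of `s` are `≥ 1`.) -/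
theorem mono_Th (N n m : ℕ) (hN : n + m ≤ N) (L : SuperPartition n m) :
    mono K N L = ((autL N L : K)⁻¹) • Th N m (monomial (partF L) (1 : K)) := by
  rw [mono, Th_apply]
  congr 1
  refine Finset.sum_congr rfl fun σ _ => ?_
  rw [mono_Th_restr N hN L, map_prod, Fin.prod_univ_def, map_list_prod, List.map_map]
  unfold thp
  congr 2
  refine List.map_congr_left fun i _ => ?_
  simp [sx]

end JSup
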