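import Pool.Agent.Helper204.JS.Stmt
import Pool.Agent.Helper204.JS.Defs
import Pool.Agent.Helper204.JS.Defs1
import Pool.Agent.Helper204.JS.Defs2
import Pool.Agent.Helper204.JS.Defs3
import Pool.Agent.Helper204.JS.Defs4
import Pool.Agent.Helper204.JS.P_thp_facts

set_option linter.unusedSectionVars false

open MvPolynomial Finset

noncomputable section

namespace JSup
variable {K : Type} [Field K] [CharZero K] [Par K]



/-- the splitting of the positions -/
def psi_exists_e (N m : ℕ) (hm : m ≤ N) : Fin m ⊕ Fin (N - m) ≃ Fin N :=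
  finSumFinEquiv.trans (finCongr (Nat.add_sub_cancel' hm))

theorem psi_exists_e_inl (N m : ℕ) (hm : m ≤ N) (i : Fin m) :
    psi_exists_e N m hm (Sum.inl i) = Fin.castLE hm i := by
  apply Fin.ext
  simp [psi_exists_e]

theorem psi_exists_e_inr (N m : ℕ) (hm : m ≤ N) (i : Fin (N - m)) :
    ((psi_exists_e N m hm (Sum.inr i) : Fin N) : ℕ) = m + i := by
  simp [psi_exists_e]

/-- the permutation given by a pair of permutations -/
def psi_exists_E (N m : ℕ) (hm : m ≤ N) (w : Equiv.Perm (Fin m)) (u : Equiv.Perm (Fin (N - m))) :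
    Equiv.Perm (Fin N) := (psi_exists_e N m hm).permCongr (Equiv.sumCongr w u)

theorem psi_exists_E_apply (N m : ℕ) (hm : m ≤ N) (w : Equiv.Perm (Fin m))
    (u : Equiv.Perm (Fin (N - m))) (x : Fin m ⊕ Fin (N - m)) :
    psi_exists_E N m hm w u (psi_exists_e N m hm x) =
      psi_exists_e N m hm (Equiv.sumCongr w u x) := by
  simp [psi_exists_E, Equiv.permCongr_apply]

theorem psi_exists_sum (N m : ℕ) (hm : m ≤ N) {A : Type*} [AddCommMonoid A]
    (g : Equiv.Perm (Fin N) → A) (w : Equiv.Perm (Fin m)) :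
    ∑ σ : Equiv.Perm (Fin N), (if ∀ i : Fin m, Fin.castLE hm i = σ (Fin.castLE hm (w i)) then g σ
      else 0) = ∑ u : Equiv.Perm (Fin (N - m)), g (psi_exists_E N m hm w⁻¹ u) := by
  classical
  rw [← Finset.sum_filter]
  symm
  refine Finset.sum_bij (fun u _ => psi_exists_E N m hm w⁻¹ u) ?_ ?_ ?_ ?_
  · intro u _
    rw [Finset.mem_filter]
    refine ⟨Finset.mem_univ _, fun i => ?_⟩
    rw [← psi_exists_e_inl N m hm, ← psi_exists_e_inl N m hm, psi_exists_E_apply]
    simp
  · intro u _ u' _ huu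
    ext i
    have h1 := congrArg (fun σ : Equiv.Perm (Fin N) => σ (psi_exists_e N m hm (Sum.inr i))) huu
    simp only [psi_exists_E_apply] at h1
    have h2 := (psi_exists_e N m hm).injective h1
    simp only [Equiv.sumCongr_apply, Sum.map_inr, Sum.inr.injEq] at h2
    rw [h2]
  · intro σ hσ
    rw [Finset.mem_filter] at hσ
    obtain ⟨-, hσ⟩ := hσ
    have h1 : ∀ i : Fin m, (psi_exists_e N m hm).symm.permCongr σ (Sum.inl i) =
        Sum.inl (w⁻¹ i) := by
      intro i
      rw [Equiv.permCongr_apply, Equiv.symm_symm, psi_exists_e_inl, Equiv.symm_apply_eq,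
        psi_exists_e_inl]
      have h2 := hσ (w⁻¹ i)
      have h7 : w (w⁻¹ i) = i := by simp
      rw [h7] at h2
      exact h2.symm
    have h3 : Set.MapsTo ((psi_exists_e N m hm).symm.permCongr σ) (Set.range Sum.inl)
        (Set.range Sum.inl) := by
      rintro _ ⟨i, rfl⟩
      exact ⟨_, (h1 i).symm⟩
    obtain ⟨⟨w', u'⟩, hwu⟩ := Equiv.Perm.mem_sumCongrHom_range_of_perm_mapsTo_inl h3
    rw [Equiv.Perm.sumCongrHom_apply] at hwu
    have h4 : w' = w⁻¹ := by
      ext i
      have h5 := h1 i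
      rw [← hwu] at h5
      simp only [Equiv.sumCongr_apply, Sum.map_inl, Sum.inl.injEq] at h5
      rw [h5]
    refine ⟨u', Finset.mem_univ _, ?_⟩
    have h6 : psi_exists_E N m hm w⁻¹ u' =
        (psi_exists_e N m hm).permCongr ((psi_exists_e N m hm).symm.permCongr σ) := by
      rw [← hwu, ← h4]
      rfl
    rw [h6]
    ext i
    simp [Equiv.permCongr_apply]
  · intro u _
    rfl

theorem psi_exists_rename (N m : ℕ) (hm : m ≤ N) (f : MvPolynomial ℕ K) (hf : VarsLt N f)
    (w : Equiv.Perm (Fin m)) (u : Equiv.Perm (Fin (N - m))) :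
    rename (Fin.val : Fin N → ℕ) (rename (psi_exists_E N m hm w u) (restr N f)) =
      rename (emb 0 m w * emb m (N - m) u : Equiv.Perm ℕ) f := by
  have h1 : ∀ i (hi : i < N), ((psi_exists_E N m hm w u ⟨i, hi⟩ : Fin N) : ℕ) =
      (emb 0 m w * emb m (N - m) u : Equiv.Perm ℕ) i := by
    intro i hi
    rw [Equiv.Perm.mul_apply]
    by_cases him : i < m
    · have e1 : (⟨i, hi⟩ : Fin N) = psi_exists_e N m hm (Sum.inl ⟨i, him⟩) := by
        rw [psi_exists_e_inl]
        rfl
      rw [e1, psi_exists_E_apply]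
      rw [emb_out m (N - m) u i (Or.inl him)]
      have e2 := emb_in 0 m w ⟨i, him⟩
      simp only [zero_add] at e2
      rw [e2]
      rw [Equiv.sumCongr_apply, Sum.map_inl, psi_exists_e_inl]
      rfl
    · have hi' : i - m < N - m := by omega
      have e1 : (⟨i, hi⟩ : Fin N) = psi_exists_e N m hm (Sum.inr ⟨i - m, hi'⟩) := by
        apply Fin.ext
        rw [psi_exists_e_inr]
        change i = m + (i - m)
        omega
      rw [e1, psi_exists_E_apply]
      have e2 := emb_in m (N - m) u ⟨i - m, hi'⟩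
      have e3 : m + (i - m) = i := by omega
      simp only [e3] at e2
      rw [e2]
      rw [Equiv.sumCongr_apply, Sum.map_inr, psi_exists_e_inr]
      rw [emb_out 0 m w _ (Or.inr (by omega))]
  rw [rename_rename]
  have h2 : (rename ((Fin.val : Fin N → ℕ) ∘ (psi_exists_E N m hm w u)) (restr N f) :
      MvPolynomial ℕ K) = aeval (fun i => if h : i < N then
        (X ((psi_exists_E N m hm w u ⟨i, h⟩ : Fin N) : ℕ) : MvPolynomial ℕ K) else 0) f := by
    unfold restr
    rw [← AlgHom.comp_apply]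
    congr 1
    apply MvPolynomial.algHom_ext
    intro i
    rw [AlgHom.comp_apply, aeval_X, aeval_X]
    split_ifs with h
    · rw [rename_X]
      rfl
    · rw [map_zero]
  rw [h2]
  have h3 : (rename (emb 0 m w * emb m (N - m) u : Equiv.Perm ℕ) f : MvPolynomial ℕ K) =
      aeval (fun i => (X ((emb 0 m w * emb m (N - m) u : Equiv.Perm ℕ) i) : MvPolynomial ℕ K)) f := by
    congr 1
    apply MvPolynomial.algHom_ext
    intro i
    rw [rename_X, aeval_X]
  rw [h3, aeval_def, aeval_def]
  refine eval₂Hom_congr' rfl (fun i hi _ => ?_) rfl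
  have hiN := hf i hi
  rw [dif_pos hiN, h1 i hiN]

/-- HINT: `φ = ExteriorAlgebra.liftAlternating (fun i => if h : i = m then (Matrix.detRowAlternating of the first m columns,
i.e. detRowAlternating.compLinearMap (LinearMap.funLeft _ _ (Fin.castLE hm))) else 0)`, an `R`-linear map
`Superspace K N → R`, `R = MvPolynomial (Fin N) K`; `φ (thp N m σ) = det (δ_{σ(i), j})_{i,j<m}`, which is `0` unless `σ` preserves
`{0..m-1}`, and then it is the sign of the restriction `w⁻¹`/`w` of `σ` (same sign). Those `σ` are exactly the products of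
`w ∈ S_m` and `u ∈ S_{N-m}`. `ψ = rename Fin.val ∘ φ` (scalars restricted to `K`). For `VarsLt N f`,
`rename Fin.val (rename σ (restr N f)) = rename (extension of σ) f`. -/
theorem psi_exists (N m : ℕ) (hm : m ≤ N) :
    ∃ ψ : Superspace K N →ₗ[K] MvPolynomial ℕ K, ∀ f : MvPolynomial ℕ K, VarsLt N f → ψ (Th N m f) = ysym N m f := by
  classical
  let D : (Fin N → MvPolynomial (Fin N) K) [⋀^Fin m]→ₗ[MvPolynomial (Fin N) K]
      MvPolynomial (Fin N) K :=
    Matrix.detRowAlternating.compLinearMap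
      (LinearMap.funLeft (MvPolynomial (Fin N) K) (MvPolynomial (Fin N) K) (Fin.castLE hm))
  let Fam : ∀ i : ℕ, (Fin N → MvPolynomial (Fin N) K) [⋀^Fin i]→ₗ[MvPolynomial (Fin N) K]
      MvPolynomial (Fin N) K := Pi.single m D
  let φ : Superspace K N →ₗ[MvPolynomial (Fin N) K] MvPolynomial (Fin N) K :=
    ExteriorAlgebra.liftAlternating Fam
  have hφ : ∀ σ : Equiv.Perm (Fin N), φ (thp N m σ) = ∑ w : Equiv.Perm (Fin m),
      (((Equiv.Perm.sign w : ℤ)) : MvPolynomial (Fin N) K) *
        (if ∀ i : Fin m, Fin.castLE hm i = σ (Fin.castLE hm (w i)) then 1 else 0) := by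
    intro σ
    rw [(thp_facts N m hm σ).1]
    have h1 : φ (ExteriorAlgebra.ιMulti (MvPolynomial (Fin N) K) m
        (fun i : Fin m => Pi.single (σ (Fin.castLE hm i)) (1 : MvPolynomial (Fin N) K))) =
        Fam m (fun i : Fin m => Pi.single (σ (Fin.castLE hm i)) (1 : MvPolynomial (Fin N) K)) :=
      ExteriorAlgebra.liftAlternating_apply_ιMulti Fam _
    rw [h1]
    have h2 : Fam m = D := Pi.single_eq_same (M := fun i : ℕ =>
      (Fin N → MvPolynomial (Fin N) K) [⋀^Fin i]→ₗ[MvPolynomial (Fin N) K]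
        MvPolynomial (Fin N) K) m D
    rw [h2]
    have h3 : D (fun i : Fin m => Pi.single (σ (Fin.castLE hm i)) (1 : MvPolynomial (Fin N) K)) =
        Matrix.det (Matrix.of fun i j : Fin m => (Pi.single (σ (Fin.castLE hm i))
          (1 : MvPolynomial (Fin N) K) : Fin N → MvPolynomial (Fin N) K) (Fin.castLE hm j)) := rfl
    rw [h3, Matrix.det_apply']
    refine Finset.sum_congr rfl fun w _ => ?_
    congr 1
    simp only [Matrix.of_apply, Pi.single_apply]
    rw [Finset.prod_ite_zero]
    simp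
  refine ⟨(rename (Fin.val : Fin N → ℕ) : MvPolynomial (Fin N) K →ₐ[K]
    MvPolynomial ℕ K).toLinearMap ∘ₗ (φ.restrictScalars K), ?_⟩
  intro f hf
  rw [Th_apply, map_sum]
  have h1 : ∀ σ : Equiv.Perm (Fin N), ((rename (Fin.val : Fin N → ℕ) : MvPolynomial (Fin N) K →ₐ[K]
      MvPolynomial ℕ K).toLinearMap ∘ₗ (φ.restrictScalars K)) (thp N m σ *
      algebraMap (MvPolynomial (Fin N) K) (Superspace K N) (rename σ (restr N f))) =
      ∑ w : Equiv.Perm (Fin m), (((Equiv.Perm.sign w : ℤ)) : K) •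
        (if ∀ i : Fin m, Fin.castLE hm i = σ (Fin.castLE hm (w i)) then
          rename (Fin.val : Fin N → ℕ) (rename σ (restr N f)) else 0) := by
    intro σ
    rw [LinearMap.comp_apply, LinearMap.restrictScalars_apply, ← Algebra.commutes,
      ← Algebra.smul_def, map_smul, hφ, AlgHom.toLinearMap_apply, smul_eq_mul, map_mul, map_sum,
      Finset.mul_sum]
    refine Finset.sum_congr rfl fun w _ => ?_
    rw [map_mul, map_intCast]
    have h2 : ∀ x : MvPolynomial ℕ K, (((Equiv.Perm.sign w : ℤ)) : K) • x =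
        (((Equiv.Perm.sign w : ℤ)) : MvPolynomial ℕ K) * x := by
      intro x
      rw [MvPolynomial.smul_eq_C_mul, map_intCast]
    rw [h2]
    split_ifs
    · rw [map_one]
      ring
    · rw [map_zero]
      ring
  simp only [h1]
  rw [Finset.sum_comm, ysym_apply]
  rw [← Equiv.sum_comp (Equiv.inv (Equiv.Perm (Fin m)))]
  refine Finset.sum_congr rfl fun w _ => ?_
  rw [← Finset.smul_sum, ← Finset.smul_sum]
  rw [psi_exists_sum N m hm (fun σ => rename (Fin.val : Fin N → ℕ) (rename σ (restr N f)))]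
  simp only [Equiv.inv_apply, inv_inv, Equiv.Perm.sign_inv]
  congr 1
  refine Finset.sum_congr rfl fun u _ => ?_
  exact psi_exists_rename N m hm f hf w u

end JSup
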