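import Pool.Agent.Helper204.JS.Stmt
import Pool.Agent.Helper204.JS.Defs
import Pool.Agent.Helper204.JS.Defs1
import Pool.Agent.Helper204.JS.Defs2
import Pool.Agent.Helper204.JS.Defs3
import Pool.Agent.Helper204.JS.Defs4

set_option linter.unusedSectionVars false

open MvPolynomial Finset

noncomputable section

namespace JSup
variable {K : Type} [Field K] [CharZero K] [Par K]



theorem yu_emb_swap (m : ℕ) (x y : Fin m) :
    emb 0 m (Equiv.swap x y) = Equiv.swap (x : ℕ) (y : ℕ) := by
  ext k
  by_cases hk : k < m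
  · have h1 := emb_in 0 m (Equiv.swap x y) ⟨k, hk⟩
    simp only [zero_add] at h1
    rw [h1]
    by_cases hx : (⟨k, hk⟩ : Fin m) = x
    · rw [hx, Equiv.swap_apply_left]
      have : k = (x : ℕ) := by rw [← hx]
      rw [this, Equiv.swap_apply_left]
    · by_cases hy : (⟨k, hk⟩ : Fin m) = y
      · rw [hy, Equiv.swap_apply_right]
        have : k = (y : ℕ) := by rw [← hy]
        rw [this, Equiv.swap_apply_right]
      · rw [Equiv.swap_apply_of_ne_of_ne hx hy, Equiv.swap_apply_of_ne_of_ne]
        · intro h; exact hx (Fin.ext h)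
        · intro h; exact hy (Fin.ext h)
  · rw [emb_out 0 m _ k (Or.inr (by omega)), Equiv.swap_apply_of_ne_of_ne]
    · have := x.2; omega
    · have := y.2; omega

theorem yu_alt (m : ℕ) (f : MvPolynomial ℕ K) (hf : AltOn 0 m f) (w : Equiv.Perm (Fin m)) :
    rename (emb 0 m w) f = (((Equiv.Perm.sign w : ℤ)) : K) • f := by
  induction w using Equiv.Perm.swap_induction_on with
  | one =>
    rw [map_one, Equiv.Perm.sign_one]
    simp only [Units.val_one, Int.cast_one, one_smul]
    have : ((1 : Equiv.Perm ℕ) : ℕ → ℕ) = id := rfl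
    rw [this, rename_id_apply]
  | swap_mul g x y hxy ih =>
    have hsw : rename (Equiv.swap (x : ℕ) (y : ℕ)) f = - f := by
      rcases lt_trichotomy (x : ℕ) (y : ℕ) with h | h | h
      · exact hf x y (Nat.zero_le _) h y.2
      · exact absurd (Fin.ext h) hxy
      · rw [Equiv.swap_comm]
        exact hf y x (Nat.zero_le _) h x.2
    rw [map_mul, yu_emb_swap]
    have h1 : rename ((Equiv.swap (x : ℕ) (y : ℕ) * emb 0 m g : Equiv.Perm ℕ)) f =
        rename (Equiv.swap (x : ℕ) (y : ℕ)) (rename (emb 0 m g) f) := by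
      rw [rename_rename]
      rfl
    rw [h1, ih, map_smul, hsw, Equiv.Perm.sign_mul, Equiv.Perm.sign_swap hxy]
    simp

/-- HINT: for `f` antisymmetric in `[0,m)` and symmetric in `[m,N)`: each term equals `f`. -/
theorem ysym_U (N m n : ℕ) (hm : m ≤ N) (f : MvPolynomial ℕ K) (hf : InU N m n f) :
    ysym N m f = ((m.factorial * (N - m).factorial : ℕ) : K) • f := by
  obtain ⟨hA, hS, -, -⟩ := hf
  rw [ysym_apply]
  have hterm : ∀ (w : Equiv.Perm (Fin m)) (u : Equiv.Perm (Fin (N - m))),
      (((Equiv.Perm.sign w : ℤ)) : K) •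
        rename (emb 0 m w * emb m (N - m) u : Equiv.Perm ℕ) f = f := by
    intro w u
    have h1 : rename ((emb 0 m w * emb m (N - m) u : Equiv.Perm ℕ)) f =
        rename (emb 0 m w) (rename (emb m (N - m) u) f) := by
      rw [rename_rename]
      rfl
    have h2 : rename (emb m (N - m) u) f = f := by
      apply hS
      intro k hk
      apply emb_out
      omega
    rw [h1, h2, yu_alt m f hA w, smul_smul]
    have h3 : (((Equiv.Perm.sign w : ℤ)) : K) * (((Equiv.Perm.sign w : ℤ)) : K) = 1 := by
      rw [← Int.cast_mul]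
      rcases Int.units_eq_one_or (Equiv.Perm.sign w) with h | h <;> rw [h] <;> simp
    rw [h3, one_smul]
  rw [Finset.sum_congr rfl fun w _ => Finset.sum_congr rfl fun u _ => hterm w u]
  rw [Finset.sum_const, Finset.sum_const, Finset.card_univ, Finset.card_univ,
    Fintype.card_perm, Fintype.card_perm, Fintype.card_fin, Fintype.card_fin, smul_smul,
    ← Nat.cast_smul_eq_nsmul K]

end JSup
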