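import Pool.Agent.Helper204.JS.Stmt
import Pool.Agent.Helper204.JS.Defs
import Pool.Agent.Helper204.JS.Defs1
import Pool.Agent.Helper204.JS.Defs2
import Pool.Agent.Helper204.JS.Defs3
import Pool.Agent.Helper204.JS.Defs4

set_option linter.unusedSectionVars false

open MvPolynomial Finset

noncomputable section

namespace JSup
variable {K : Type} [Field K] [CharZero K] [Par K]



theorem j19180_cnt (P : ℕ → Prop) [DecidablePred P] (l : List ℕ) :
    ((range l.length).filter (fun j => P (l.getD j 0))).card = (l.filter (fun v => P v)).length := by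
  induction l using List.reverseRecOn with
  | nil => simp
  | append_singleton l x ih =>
    rw [List.length_append, List.length_singleton, card_filter, sum_range_succ,
      List.filter_append, List.length_append, ← ih, card_filter]
    congr 1
    · apply Finset.sum_congr rfl
      intro j hj
      rw [mem_range] at hj
      rw [List.getD_append _ _ _ _ hj]
    · rw [List.getD_append_right _ _ _ _ le_rfl]
      by_cases h : P x <;> simp [h]

theorem j19180_card (s : List ℕ) (M k : ℕ) (hM : s.length ≤ M) (hpos : ∀ i ∈ s, 0 < i) :
    Fintype.card {a : Fin M // s.getD a 0 = k} = if k = 0 then M - s.length else s.count k := by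
  classical
  rw [Fintype.card_subtype]
  have h1 : (univ.filter (fun a : Fin M => s.getD a 0 = k)).card =
      ((range M).filter (fun j => s.getD j 0 = k)).card := by
    rw [card_filter, card_filter, Fin.sum_univ_eq_sum_range (fun j => if s.getD j 0 = k then 1 else 0)]
  have hge : ∀ j, j < s.length → 0 < s.getD j 0 := by
    intro j hj
    rw [List.getD_eq_getElem _ _ hj]
    exact hpos _ (List.getElem_mem _)
  rw [h1]
  by_cases hk : k = 0
  · rw [if_pos hk]
    have h2 : (range M).filter (fun j => s.getD j 0 = k) = Ico s.length M := by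
      ext j
      simp only [mem_filter, mem_range, mem_Ico]
      constructor
      · rintro ⟨hj, h⟩
        refine ⟨?_, hj⟩
        by_contra hcon
        have := hge j (by omega)
        omega
      · rintro ⟨h, hj⟩
        exact ⟨hj, by rw [List.getD_eq_default _ _ h, hk]⟩
    rw [h2, Nat.card_Ico]
  · rw [if_neg hk]
    have h2 : (range M).filter (fun j => s.getD j 0 = k) =
        (range s.length).filter (fun j => s.getD j 0 = k) := by
      ext j
      simp only [mem_filter, mem_range]
      constructor
      · rintro ⟨hj, h⟩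
        refine ⟨?_, h⟩
        by_contra hcon
        rw [List.getD_eq_default _ _ (by omega)] at h
        exact hk h.symm
      · rintro ⟨h, hj⟩
        exact ⟨by omega, hj⟩
    rw [h2, j19180_cnt (fun v => v = k) s, ← List.countP_eq_length_filter]
    rfl

section j19180
variable {n m : ℕ}

theorem j19180_part_lt (L : SuperPartition n m) {i : ℕ} (hi : i < m) :
    L.part i = L.a.getD i 0 := by
  unfold SuperPartition.part
  rw [List.getD_append _ _ _ _ (by rw [L.a_length]; exact hi)]

theorem j19180_part_ge (L : SuperPartition n m) (j : ℕ) : L.part (m + j) = L.s.getD j 0 := by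
  unfold SuperPartition.part
  rw [List.getD_append_right _ _ _ _ (by rw [L.a_length]; omega), L.a_length]
  congr 1
  omega

theorem j19180_slen (L : SuperPartition n m) : L.s.length ≤ n := by
  have h1 : L.s.length ≤ L.s.sum := List.length_le_sum_of_one_le _ (fun i hi => L.s_pos i hi)
  have h2 := L.sum_eq
  omega

theorem j19180_anti (L : SuperPartition n m) {i j : ℕ} (hij : i < j) (hj : j < m) :
    L.a.getD j 0 < L.a.getD i 0 := by
  have hl := L.a_length
  rw [List.getD_eq_getElem _ _ (by omega), List.getD_eq_getElem _ _ (by omega)]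
  exact (List.pairwise_iff_getElem.1 L.a_strict) i j (by omega) (by omega) hij

theorem j19180_santi (L : SuperPartition n m) {i j : ℕ} (hij : i ≤ j) :
    L.s.getD j 0 ≤ L.s.getD i 0 := by
  rcases Nat.lt_or_ge j L.s.length with hj | hj
  · rcases hij.eq_or_lt with h | h
    · rw [h]
    · rw [List.getD_eq_getElem _ _ hj, List.getD_eq_getElem _ _ (by omega)]
      exact (List.pairwise_iff_getElem.1 L.s_weak) i j (by omega) (by omega) h
  · rw [List.getD_eq_default _ _ hj]
    exact Nat.zero_le _

theorem j19180_sig1 (N : ℕ) (w : Equiv.Perm (Fin m)) (u : Equiv.Perm (Fin (N - m))) (i : Fin m) :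
    (emb 0 m w * emb m (N - m) u : Equiv.Perm ℕ) i = w i := by
  rw [Equiv.Perm.mul_apply, emb_out m (N - m) u i (Or.inl i.2)]
  have := emb_in 0 m w i
  rwa [zero_add, zero_add] at this

theorem j19180_sig2 (N : ℕ) (w : Equiv.Perm (Fin m)) (u : Equiv.Perm (Fin (N - m)))
    (j : Fin (N - m)) : (emb 0 m w * emb m (N - m) u : Equiv.Perm ℕ) (m + j) = m + u j := by
  rw [Equiv.Perm.mul_apply, emb_in m (N - m) u j, emb_out 0 m w _ (Or.inr (by omega))]

theorem j19180_sig3 (N : ℕ) (hm : m ≤ N) (w : Equiv.Perm (Fin m)) (u : Equiv.Perm (Fin (N - m)))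
    (k : ℕ) (hk : N ≤ k) : (emb 0 m w * emb m (N - m) u : Equiv.Perm ℕ) k = k := by
  rw [Equiv.Perm.mul_apply, emb_out m (N - m) u _ (Or.inr (by omega)),
    emb_out 0 m w _ (Or.inr (by omega))]

theorem j19180_perm_one (w : Equiv.Perm (Fin m)) (hw : StrictMono w) : w = 1 := by
  have h : (w.toOrderIso hw.monotone (by
      intro a b hab
      by_contra hcon
      have := hw (not_le.1 hcon)
      simp at this
      exact absurd hab (not_le.2 this)) : Fin m ≃o Fin m) = OrderIso.refl _ := Subsingleton.elim _ _
  ext i
  have := congrArg (fun f : Fin m ≃o Fin m => f i) h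
  exact congrArg Fin.val this

theorem j19180_cond (N : ℕ) (hN : n + m ≤ N) (W V : SuperPartition n m) (w : Equiv.Perm (Fin m))
    (u : Equiv.Perm (Fin (N - m))) :
    Finsupp.mapDomain (emb 0 m w * emb m (N - m) u : Equiv.Perm ℕ) (partF W) = partF V ↔
      (V = W ∧ w = 1 ∧ (fun j : Fin (N - m) => W.s.getD j 0) ∘ u = fun j : Fin (N - m) => W.s.getD j 0) := by
  constructor
  · intro h
    have h1 : ∀ k, W.part k = V.part ((emb 0 m w * emb m (N - m) u : Equiv.Perm ℕ) k) := by
      intro k
      rw [← partF_apply, ← partF_apply, ← h,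
        Finsupp.mapDomain_apply (emb 0 m w * emb m (N - m) u : Equiv.Perm ℕ).injective]
    have h2 : ∀ i : Fin m, W.a.getD i 0 = V.a.getD (w i) 0 := by
      intro i
      have := h1 i
      rwa [j19180_sig1, j19180_part_lt W i.2, j19180_part_lt V (w i).2] at this
    have h3 : ∀ j : Fin (N - m), W.s.getD j 0 = V.s.getD (u j) 0 := by
      intro j
      have := h1 (m + j)
      rwa [j19180_sig2, j19180_part_ge, j19180_part_ge] at this
    have hw : w = 1 := by
      apply j19180_perm_one
      intro i j hij
      by_contra hcon
      rw [not_lt] at hcon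
      have h4 := j19180_anti W (i := i) (j := j) hij j.2
      rw [h2, h2] at h4
      rcases hcon.eq_or_lt with h5 | h5
      · rw [h5] at h4; exact lt_irrefl _ h4
      · have h6 := j19180_anti V (i := (w j : ℕ)) (j := (w i : ℕ)) h5 (w i).2
        omega
    have h4 : (OrderDual.toDual ∘ (fun j : Fin (N - m) => V.s.getD j 0)) ∘ u =
        (OrderDual.toDual ∘ (fun j : Fin (N - m) => V.s.getD j 0)) ∘ (1 : Equiv.Perm (Fin (N - m))) := by
      apply Tuple.unique_monotone
      · intro i j hij
        show V.s.getD (u j) 0 ≤ V.s.getD (u i) 0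
        rw [← h3, ← h3]
        exact j19180_santi W hij
      · intro i j hij
        show V.s.getD j 0 ≤ V.s.getD i 0
        exact j19180_santi V hij
    have h5 : ∀ j : Fin (N - m), V.s.getD (u j) 0 = V.s.getD j 0 := by
      intro j
      exact congrFun h4 j
    have h6 : ∀ j : Fin (N - m), W.s.getD j 0 = V.s.getD j 0 := fun j => (h3 j).trans (h5 j)
    have hsW := j19180_slen W
    have hsV := j19180_slen V
    have hpos : ∀ (L : SuperPartition n m) (j : ℕ), j < L.s.length → 0 < L.s.getD j 0 := by
      intro L j hj
      rw [List.getD_eq_getElem _ _ hj]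
      exact L.s_pos _ (List.getElem_mem _)
    have hlen : V.s.length = W.s.length := by
      rcases lt_trichotomy V.s.length W.s.length with hlt | heq | hlt
      · have e1 := hpos W V.s.length hlt
        have e2 := h6 ⟨V.s.length, by omega⟩
        rw [List.getD_eq_default V.s _ (le_refl V.s.length)] at e2
        simp only at e2
        omega
      · exact heq
      · have e1 := hpos V W.s.length hlt
        have e2 := h6 ⟨W.s.length, by omega⟩
        rw [List.getD_eq_default W.s _ (le_refl W.s.length)] at e2
        simp only at e2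
        omega
    have hVW : V = W := by
      apply SuperPartition.ext
      · apply List.ext_getElem
        · rw [V.a_length, W.a_length]
        · intro i hi1 hi2
          have hi : i < m := by rw [V.a_length] at hi1; exact hi1
          have e := h2 ⟨i, hi⟩
          rw [hw] at e
          simp only [Equiv.Perm.coe_one, id_eq] at e
          rw [List.getD_eq_getElem _ _ hi2, List.getD_eq_getElem _ _ hi1] at e
          exact e.symm
      · apply List.ext_getElem hlen
        intro i hi1 hi2
        have e := h6 ⟨i, by omega⟩
        simp only at e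
        rw [List.getD_eq_getElem _ _ hi2, List.getD_eq_getElem _ _ hi1] at e
        exact e.symm
    refine ⟨hVW, hw, ?_⟩
    funext j
    show W.s.getD (u j) 0 = W.s.getD j 0
    rw [← hVW]
    exact h5 j
  · rintro ⟨rfl, rfl, hu⟩
    ext k
    obtain ⟨k', rfl⟩ := (emb 0 m (1 : Equiv.Perm (Fin m)) * emb m (N - m) u : Equiv.Perm ℕ).surjective k
    rw [Finsupp.mapDomain_apply
      (emb 0 m (1 : Equiv.Perm (Fin m)) * emb m (N - m) u : Equiv.Perm ℕ).injective,
      partF_apply, partF_apply]
    rcases Nat.lt_or_ge k' m with hk | hk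
    · have := j19180_sig1 N (1 : Equiv.Perm (Fin m)) u ⟨k', hk⟩
      simp only [Equiv.Perm.coe_one, id_eq] at this
      rw [this]
    · rcases Nat.lt_or_ge k' N with hk2 | hk2
      · obtain ⟨j, rfl⟩ : ∃ j, k' = m + j := ⟨k' - m, by omega⟩
        have := j19180_sig2 N (1 : Equiv.Perm (Fin m)) u ⟨j, by omega⟩
        simp only at this
        rw [this, j19180_part_ge, j19180_part_ge]
        exact (congrFun hu ⟨j, by omega⟩).symm
      · rw [j19180_sig3 N (by omega) _ _ _ hk2]

theorem j19180_aut (N : ℕ) (hN : n + m ≤ N) (W : SuperPartition n m) :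
    Fintype.card {u : Equiv.Perm (Fin (N - m)) // (fun j : Fin (N - m) => W.s.getD j 0) ∘ u =
      fun j : Fin (N - m) => W.s.getD j 0} = autL N W := by
  classical
  have hsW := j19180_slen W
  rw [DomMulAct.stabilizer_card']
  have h1 : ∏ i ∈ Finset.univ.image (fun j : Fin (N - m) => W.s.getD j 0),
      (Fintype.card ({a : Fin (N - m) // W.s.getD a 0 = i})).factorial =
      ∏ i ∈ insert 0 W.s.toFinset,
      (Fintype.card ({a : Fin (N - m) // W.s.getD a 0 = i})).factorial := by
    apply Finset.prod_subset
    · intro x hx
      rw [Finset.mem_image] at hx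
      obtain ⟨j, _, rfl⟩ := hx
      rw [Finset.mem_insert, List.mem_toFinset]
      rcases Nat.lt_or_ge (j : ℕ) W.s.length with h | h
      · right
        rw [List.getD_eq_getElem _ _ h]
        exact List.getElem_mem _
      · left
        exact List.getD_eq_default _ _ h
    · intro x _ hx
      have : IsEmpty {a : Fin (N - m) // W.s.getD a 0 = x} := by
        refine ⟨fun a => hx ?_⟩
        rw [Finset.mem_image]
        exact ⟨a.1, Finset.mem_univ _, a.2⟩
      rw [Fintype.card_eq_zero]
      rfl
  have h0 : (0 : ℕ) ∉ W.s.toFinset := by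
    rw [List.mem_toFinset]
    intro h
    exact absurd (W.s_pos 0 h) (lt_irrefl _)
  have h2 := h1
  rw [Finset.prod_insert h0, j19180_card W.s (N - m) 0 (by omega) W.s_pos, if_pos rfl] at h2
  unfold autL
  refine h2.trans ?_
  congr 1
  · congr 1
    omega
  · apply Finset.prod_congr rfl
    intro k hk
    rw [j19180_card W.s (N - m) k (by omega) W.s_pos, if_neg]
    rintro rfl
    exact h0 hk

end j19180

/-- HINT: the coefficient counts (with sign) the pairs `(w,u)` with `(w × u)·partF W = partF V`: this forces equal multisets of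
fermionic and of bosonic parts, so `V = W`, `w = 1` (distinct strictly decreasing entries), and `u` runs over the
stabiliser of `i ↦ W.part (m+i)`, `i < N-m`, of cardinality `∏` of the factorials of the multiplicities `= autL N W`
(`DomMulAct.stabilizer_card`-like lemmas or `Fintype.card` of `{u // f ∘ u = f}`; the zeros contribute
`(N - (m + s.length))!`). -/
theorem ysym_coeff (N n m : ℕ) (hN : n + m ≤ N) (W V : SuperPartition n m) :
    coeff (partF V) (ysym N m (monomial (partF W) (1 : K))) = if V = W then (autL N W : K) else 0 := by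
  classical
  rw [ysym_apply, coeff_sum]
  have h1 : ∀ w : Equiv.Perm (Fin m), coeff (partF V) (∑ u : Equiv.Perm (Fin (N - m)),
      (((Equiv.Perm.sign w : ℤ)) : K) •
        rename (emb 0 m w * emb m (N - m) u : Equiv.Perm ℕ) (monomial (partF W) (1 : K))) =
      ∑ u : Equiv.Perm (Fin (N - m)), (((Equiv.Perm.sign w : ℤ)) : K) *
        (if (V = W ∧ w = 1 ∧ (fun j : Fin (N - m) => W.s.getD j 0) ∘ u = fun j : Fin (N - m) => W.s.getD j 0)
          then 1 else 0) := by
    intro w
    rw [coeff_sum]
    apply Finset.sum_congr rfl
    intro u _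
    rw [coeff_smul, rename_monomial, coeff_monomial, smul_eq_mul]
    congr 1
    exact if_congr (j19180_cond N hN W V w u) rfl rfl
  rw [Finset.sum_congr rfl fun w _ => h1 w]
  by_cases hVW : V = W
  · rw [if_pos hVW]
    rw [Finset.sum_eq_single_of_mem (1 : Equiv.Perm (Fin m)) (Finset.mem_univ _)]
    · rw [← j19180_aut N hN W, Fintype.card_subtype, Finset.card_filter]
      push_cast
      apply Finset.sum_congr rfl
      intro u _
      simp [hVW]
    · intro w _ hw
      apply Finset.sum_eq_zero
      intro u _
      rw [if_neg (fun h => hw h.2.1), mul_zero]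
  · rw [if_neg hVW]
    apply Finset.sum_eq_zero
    intro w _
    apply Finset.sum_eq_zero
    intro u _
    rw [if_neg (fun h => hVW h.1), mul_zero]

end JSup
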