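import Pool.Agent.Helper204.JS.Stmt
import Pool.Agent.Helper204.JS.Defs
import Pool.Agent.Helper204.JS.Defs1
import Pool.Agent.Helper204.JS.Defs2
import Pool.Agent.Helper204.JS.Defs3
import Pool.Agent.Helper204.JS.Defs4
import Pool.Agent.Helper204.JS.P_mono_Th
import Pool.Agent.Helper204.JS.P_Th_monomial
import Pool.Agent.Helper204.JS.P_psi_exists
import Pool.Agent.Helper204.JS.P_ysym_U
import Pool.Agent.Helper204.JS.P_ysym_coeff

set_option linter.unusedSectionVars false

open MvPolynomial Finset

noncomputable section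

namespace JSup
variable {K : Type} [Field K] [CharZero K] [Par K]



theorem Th_expand_autL_ne {n m : ℕ} (N : ℕ) (L : SuperPartition n m) : (autL N L : K) ≠ 0 := by
  have : autL N L ≠ 0 := by
    unfold autL
    exact mul_ne_zero (Nat.factorial_ne_zero _) (Finset.prod_ne_zero_iff.2 fun k _ => Nat.factorial_ne_zero _)
  exact_mod_cast this

theorem Th_expand_len_le (l : List ℕ) (h : ∀ i ∈ l, 0 < i) : l.length ≤ l.sum := by
  induction l with
  | nil => simp
  | cons a t ih =>
    have h1 := h a (by simp)
    have h2 := ih fun i hi => h i (by simp [hi])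
    simp only [List.length_cons, List.sum_cons]
    omega

theorem Th_expand_vars (N n m : ℕ) (hN : n + m ≤ N) (L : SuperPartition n m) :
    VarsLt N (monomial (partF L) (1 : K)) := by
  intro k hk
  rw [vars_monomial one_ne_zero, Finsupp.mem_support_iff, partF_apply] at hk
  by_contra h
  apply hk
  unfold SuperPartition.part
  apply List.getD_eq_default
  rw [List.length_append]
  have h1 := Th_expand_len_le L.s L.s_pos
  have h2 := L.a_length
  have h3 := L.sum_eq
  omega

/-- HINT: `f = Σ_d f_d x^d`; by `Th_monomial` and `mono_Th`, `Th f = Σ_W r_W • mono W` for some `r` (finitely many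
superpartitions occur); apply `ψ` (`psi_exists`), `ysym_U`, `ysym_coeff` and compare the coefficient of
`partF V`: `m! (N-m)! f_{partF V} = r_V`. -/
theorem Th_expand (N n m : ℕ) (hN : n + m ≤ N) (f : MvPolynomial ℕ K) (hf : InU N m n f) :
    ∃ r : SuperPartition n m →₀ K, Th N m f = (r.sum fun W x => x • mono K N W) ∧
      ∀ V, r V = ((m.factorial * (N - m).factorial : ℕ) : K) * coeff (partF V) f := by
  obtain ⟨hf1, hf2, hf3, hf4⟩ := hf
  have hspan : Th N m f ∈ Submodule.span K (Set.range fun W : SuperPartition n m => mono K N W) := by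
    have hsum : Th N m f = ∑ d ∈ f.support, coeff d f • Th N m (monomial d (1 : K)) := by
      conv_lhs => rw [f.as_sum]
      rw [map_sum]
      refine Finset.sum_congr rfl fun d _ => ?_
      rw [← map_smul, smul_monomial, smul_eq_mul, mul_one]
    rw [hsum]
    refine Submodule.sum_mem _ fun d hd => Submodule.smul_mem _ _ ?_
    have h1 : ∀ k, N ≤ k → d k = 0 := by
      intro k hk
      by_contra h
      have h2 : k ∈ f.vars := (mem_vars_iff_mem_support k).2 ⟨d, hd, Finsupp.mem_support_iff.2 h⟩
      have := hf4 k h2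
      omega
    have h2 : d.sum (fun _ k => k) = n := by
      have h3 := hf3 (mem_support_iff.1 hd)
      rw [← h3, Finsupp.weight_apply]
      refine Finsupp.sum_congr fun x _ => ?_
      simp
    rcases Th_monomial (K := K) N n m hN d h1 h2 with h | ⟨W, ε, h⟩
    · rw [h]; exact Submodule.zero_mem _
    · rw [h]
      have h4 : Th N m (monomial (partF W) (1 : K)) = (autL N W : K) • mono K N W := by
        rw [mono_Th N n m hN W, smul_smul, mul_inv_cancel₀ (Th_expand_autL_ne N W), one_smul]
      rw [h4]
      exact Submodule.smul_mem _ _ (Submodule.smul_mem _ _ (Submodule.subset_span ⟨W, rfl⟩))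
  rw [Finsupp.mem_span_range_iff_exists_finsupp] at hspan
  obtain ⟨r, hr⟩ := hspan
  refine ⟨r, hr.symm, ?_⟩
  intro V
  obtain ⟨ψ, hψ⟩ := psi_exists (K := K) N m (by omega)
  have h1 := hψ f hf4
  rw [ysym_U N m n (by omega) f ⟨hf1, hf2, hf3, hf4⟩, ← hr, Finsupp.sum, map_sum] at h1
  have h2 := congrArg (coeff (partF V)) h1
  rw [coeff_sum, coeff_smul, smul_eq_mul] at h2
  rw [← h2]
  have h3 : ∀ W ∈ r.support, coeff (partF V) (ψ (r W • mono K N W)) = if V = W then r W else 0 := by
    intro W _
    rw [map_smul, mono_Th N n m hN W, map_smul, hψ _ (Th_expand_vars N n m hN W), coeff_smul,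
      coeff_smul, ysym_coeff N n m hN W V]
    by_cases h : V = W
    · simp only [h, if_true, smul_eq_mul]
      rw [inv_mul_cancel₀ (Th_expand_autL_ne N W), mul_one]
    · simp [h]
  rw [Finset.sum_congr rfl h3, Finset.sum_ite_eq]
  by_cases h : V ∈ r.support
  · rw [if_pos h]
  · rw [if_neg h]
    exact Finsupp.notMem_support_iff.1 h

end JSup
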