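import Pool.Agent.Helper204.JS.Stmt
import Pool.Agent.Helper204.JS.Defs
import Pool.Agent.Helper204.JS.Defs1
import Pool.Agent.Helper204.JS.Defs2
import Pool.Agent.Helper204.JS.Defs3

set_option linter.unusedSectionVars false

open MvPolynomial Finset

noncomputable section

namespace JSup
variable {K : Type} [Field K] [CharZero K] [Par K]



theorem alt_antis_emb_swap (m : ℕ) (x y : Fin m) :
    emb 0 m (Equiv.swap x y) = Equiv.swap (x : ℕ) (y : ℕ) := by
  ext k
  by_cases hk : k < m
  · have h1 := emb_in 0 m (Equiv.swap x y) ⟨k, hk⟩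
    simp only [zero_add] at h1
    rw [h1]
    by_cases hx : k = x
    · subst hx
      rw [Equiv.swap_apply_left]
      rw [Equiv.swap_apply_left]
    · by_cases hy : k = y
      · subst hy
        rw [Equiv.swap_apply_right]
        rw [Equiv.swap_apply_right]
      · rw [Equiv.swap_apply_of_ne_of_ne hx hy, Equiv.swap_apply_of_ne_of_ne]
        · intro h; exact hx (by rw [← h])
        · intro h; exact hy (by rw [← h])
  · rw [emb_out 0 m _ k (Or.inr (by omega)), Equiv.swap_apply_of_ne_of_ne]
    · intro h; exact hk (h ▸ x.2)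
    · intro h; exact hk (h ▸ y.2)

theorem alt_antis_aux (m : ℕ) (f : MvPolynomial ℕ K) (hf : AltOn 0 m f)
    (w : Equiv.Perm (Fin m)) :
    rename (emb 0 m w) f = (((Equiv.Perm.sign w : ℤ)) : K) • f := by
  induction w using Equiv.Perm.swap_induction_on with
  | one =>
    rw [map_one, Equiv.Perm.sign_one]
    simp [Equiv.Perm.coe_one]
  | swap_mul w x y hxy ih =>
    have h1 : rename (emb 0 m (Equiv.swap x y * w)) f
        = rename (Equiv.swap (x : ℕ) (y : ℕ)) (rename (emb 0 m w) f) := by
      rw [rename_rename, map_mul, alt_antis_emb_swap, Equiv.Perm.coe_mul]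
    have h2 : rename (Equiv.swap (x : ℕ) (y : ℕ)) f = - f := by
      rcases lt_trichotomy (x : ℕ) (y : ℕ) with h | h | h
      · exact hf _ _ (Nat.zero_le _) h y.2
      · exact absurd (Fin.ext h) hxy
      · rw [Equiv.swap_comm]
        exact hf _ _ (Nat.zero_le _) h x.2
    rw [h1, ih, map_smul, h2, Equiv.Perm.sign_mul, Equiv.Perm.sign_swap hxy]
    simp

/-- HINT: an `AltOn 0 m` polynomial satisfies `rename (emb 0 m w) f = sign w • f` (swaps generate,
`Equiv.Perm.swap_induction_on` or closure), so the antisymmetriser multiplies it by `m!`. -/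
theorem alt_antis (m : ℕ) (f : MvPolynomial ℕ K) (hf : AltOn 0 m f) :
    antis 0 m f = (m.factorial : K) • f := by
  rw [antis_apply]
  have h1 : ∀ w : Equiv.Perm (Fin m),
      (((Equiv.Perm.sign w : ℤ)) : K) • rename (emb 0 m w) f = f := by
    intro w
    rw [alt_antis_aux m f hf w, smul_smul, ← Int.cast_mul, ← Units.val_mul, Int.units_mul_self]
    simp
  rw [Finset.sum_congr rfl fun w _ => h1 w, Finset.sum_const, Finset.card_univ,
    Fintype.card_perm, Fintype.card_fin, Nat.cast_smul_eq_nsmul]

end JSup
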