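import Pool.Agent.Helper204.JS.Stmt
import Pool.Agent.Helper204.JS.Defs
import Pool.Agent.Helper204.JS.Defs1
import Pool.Agent.Helper204.JS.Defs2

set_option linter.unusedSectionVars false

open MvPolynomial Finset

noncomputable section

namespace JSup
variable {K : Type} [Field K] [CharZero K] [Par K]



theorem j17947_cnt (P : ℕ → Prop) [DecidablePred P] (l : List ℕ) :
    ((range l.length).filter (fun j => P (l.getD j 0))).card = (l.filter (fun v => P v)).length := by
  induction l using List.reverseRecOn with
  | nil => simp
  | append_singleton l x ih =>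
    rw [List.length_append, List.length_singleton, card_filter, sum_range_succ,
      List.filter_append, List.length_append, ← ih, card_filter]
    congr 1
    · apply Finset.sum_congr rfl
      intro j hj
      rw [mem_range] at hj
      rw [List.getD_append _ _ _ _ hj]
    · rw [List.getD_append_right _ _ _ _ le_rfl]
      by_cases h : P x <;> simp [h]

/-- HINT: counting: at the fermionic position `k+i` with `p = a.reverse_i` (`k = L.s.length`): positions `j<k` with
`s.reverse_j - 1 ≥ p` are the bosonic parts `v > p`; positions before in the block have smaller entries; positions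
after in the block have larger entries (`m-1-i` of them); zeros never count. -/
theorem yv_etaOf (N n m : ℕ) (hN : n + m ≤ N) (L : SuperPartition n m) (i : ℕ) (hi : i < m) :
    (yv N (etaOf L) (L.s.length + i) : K) =
      al * ((L.a.reverse.getD i 0 : ℕ) : K)
        - ((L.s.filter (fun v => L.a.reverse.getD i 0 < v)).length : K) - ((m - 1 - i : ℕ) : K) := by
  have hlenA : L.a.reverse.length = m := by rw [List.length_reverse, L.a_length]
  have hlenS : L.s.reverse.length = L.s.length := List.length_reverse
  have hk : L.s.length ≤ n := by
    have h1 : L.s.length ≤ L.s.sum := List.length_le_sum_of_one_le _ (fun i hi => L.s_pos i hi)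
    have h2 := L.sum_eq
    omega
  have e1 : ∀ j, etaOf L (L.s.length + j) = L.a.reverse.getD j 0 := by
    intro j
    rw [etaOf_apply, List.getD_append_right _ _ _ _ (by simp)]
    congr 1
    simp
  have e2 : ∀ j, j < L.s.length → etaOf L j = L.s.reverse.getD j 0 - 1 := by
    intro j hj
    rw [etaOf_apply, List.getD_append _ _ _ _ (by simpa using hj),
      List.getD_eq_getElem _ _ (by simpa using hj), List.getElem_map,
      List.getD_eq_getElem _ _ (by simpa using hj)]
  have hpw : L.a.reverse.Pairwise (· < ·) := by
    rw [List.pairwise_reverse]
    exact L.a_strict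
  have hmono : ∀ j1 j2, j1 < j2 → j2 < m → L.a.reverse.getD j1 0 < L.a.reverse.getD j2 0 := by
    intro j1 j2 h12 h2
    rw [List.getD_eq_getElem _ _ (by omega), List.getD_eq_getElem _ _ (by omega)]
    exact (List.pairwise_iff_getElem.1 hpw) j1 j2 (by omega) (by omega) h12
  have hSpos : ∀ j, j < L.s.length → 0 < L.s.reverse.getD j 0 := by
    intro j hj
    rw [List.getD_eq_getElem _ _ (by simpa using hj)]
    apply L.s_pos
    rw [← List.mem_reverse]
    exact List.getElem_mem _
  have c1 : ((range (L.s.length + i)).filter
      (fun j => etaOf L (L.s.length + i) ≤ etaOf L j)).card =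
      (L.s.filter (fun v => L.a.reverse.getD i 0 < v)).length := by
    have h1 : (range (L.s.length + i)).filter
        (fun j => etaOf L (L.s.length + i) ≤ etaOf L j) =
        (range L.s.length).filter (fun j => L.a.reverse.getD i 0 < L.s.reverse.getD j 0) := by
      ext j
      simp only [mem_filter, mem_range]
      rw [e1]
      constructor
      · rintro ⟨hj, hle⟩
        by_cases hjk : j < L.s.length
        · rw [e2 j hjk] at hle
          have := hSpos j hjk
          exact ⟨hjk, by omega⟩
        · obtain ⟨j', rfl⟩ : ∃ j', j = L.s.length + j' := ⟨j - L.s.length, by omega⟩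
          rw [e1] at hle
          have := hmono j' i (by omega) hi
          omega
      · rintro ⟨hj, hlt⟩
        refine ⟨by omega, ?_⟩
        rw [e2 j hj]
        omega
    have h2 := j17947_cnt (fun v => L.a.reverse.getD i 0 < v) L.s.reverse
    rw [hlenS, List.filter_reverse, List.length_reverse] at h2
    rw [h1]
    exact h2
  have c2 : ((Ioo (L.s.length + i) N).filter
      (fun j => etaOf L (L.s.length + i) < etaOf L j)).card = m - 1 - i := by
    have h1 : (Ioo (L.s.length + i) N).filter
        (fun j => etaOf L (L.s.length + i) < etaOf L j) =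
        Ioo (L.s.length + i) (L.s.length + m) := by
      ext j
      simp only [mem_filter, mem_Ioo]
      constructor
      · rintro ⟨⟨hj1, hj2⟩, hlt⟩
        refine ⟨hj1, ?_⟩
        by_contra hcon
        obtain ⟨j', rfl⟩ : ∃ j', j = L.s.length + j' := ⟨j - L.s.length, by omega⟩
        rw [e1 j', List.getD_eq_default _ _ (by omega)] at hlt
        omega
      · rintro ⟨hj1, hj2⟩
        obtain ⟨j', rfl⟩ : ∃ j', j = L.s.length + j' := ⟨j - L.s.length, by omega⟩
        refine ⟨⟨hj1, by omega⟩, ?_⟩
        rw [e1, e1]
        exact hmono i j' (by omega) (by omega)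
    rw [h1, Nat.card_Ioo]
    omega
  unfold yv
  rw [c1, c2, e1]

end JSup
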