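import Pool.Agent.Helper204.JS.Stmt
import Pool.Agent.Helper204.JS.Defs
import Pool.Agent.Helper204.JS.Defs1
import Pool.Agent.Helper204.JS.Defs2
import Pool.Agent.Helper204.JS.P_yv_etaOf

set_option linter.unusedSectionVars false

open MvPolynomial Finset

noncomputable section

namespace JSup
variable {K : Type} [Field K] [CharZero K] [Par K]



theorem cbs_len (l : List ℕ) (lo hi : ℕ) (h : lo ≤ hi) :
    (l.filter (fun v => lo < v)).length = nI l (lo + 1) (hi + 1)
      + (l.filter (fun v => hi < v)).length := by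
  unfold nI
  induction l with
  | nil => simp
  | cons x l ih =>
    simp only [List.filter_cons]
    by_cases h1 : lo < x
    · by_cases h2 : hi < x
      · have h3 : ¬ (lo + 1 ≤ x ∧ x < hi + 1) := by omega
        simp only [h1, h2, h3, decide_true, decide_false, if_true, List.length_cons, ih,
          Bool.false_eq_true, if_false]
        omega
      · have h3 : (lo + 1 ≤ x ∧ x < hi + 1) := by omega
        simp only [h1, h2, h3, decide_true, decide_false, if_true, List.length_cons, ih,
          Bool.false_eq_true, if_false, and_self]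
        omega
    · have h2 : ¬ hi < x := by omega
      have h3 : ¬ (lo + 1 ≤ x ∧ x < hi + 1) := by omega
      simp only [h1, h2, h3, decide_false, ih, Bool.false_eq_true, if_false]

theorem cbs_mono {n m : ℕ} (L : SuperPartition n m) (i j : ℕ) (hij : i < j) (hj : j < m) :
    L.a.reverse.getD i 0 < L.a.reverse.getD j 0 := by
  have hp : L.a.reverse.Pairwise (· < ·) := by
    rw [List.pairwise_reverse]
    exact L.a_strict
  have hl : L.a.reverse.length = m := by rw [List.length_reverse, L.a_length]
  have hi' : i < L.a.reverse.length := by omega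
  have hj' : j < L.a.reverse.length := by omega
  rw [List.getD_eq_getElem _ _ hi', List.getD_eq_getElem _ _ hj']
  exact (List.pairwise_iff_getElem.1 hp) i j hi' hj' hij

theorem cbs_lt_iff {n m : ℕ} (L : SuperPartition n m) (i j : ℕ) (hi : i < m) (hj : j < m) :
    L.a.reverse.getD i 0 < L.a.reverse.getD j 0 ↔ i < j := by
  constructor
  · intro h
    by_contra hn
    rcases Nat.lt_or_ge j i with h1 | h1
    · exact absurd (cbs_mono L j i h1 hi) (by omega)
    · have : i = j := by omega
      subst this
      omega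
  · intro h
    exact cbs_mono L i j h hj

theorem cbs_le_iff {n m : ℕ} (L : SuperPartition n m) (i j : ℕ) (hi : i < m) (hj : j < m) :
    L.a.reverse.getD i 0 ≤ L.a.reverse.getD j 0 ↔ i ≤ j := by
  rw [← not_lt, cbs_lt_iff L j i hj hi, not_lt]

theorem cbs_inj {n m : ℕ} (L : SuperPartition n m) :
    Set.InjOn (fun i => L.a.reverse.getD i 0) (range m : Finset ℕ) := by
  intro i hi j hj h
  rw [coe_range, Set.mem_Iio] at hi hj
  have h1 := (cbs_le_iff L i j hi hj).1 (le_of_eq h)
  have h2 := (cbs_le_iff L j i hj hi).1 (le_of_eq h.symm)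
  omega

theorem cbs_image {n m : ℕ} (L : SuperPartition n m) :
    L.a.toFinset = (range m).image (fun i => L.a.reverse.getD i 0) := by
  have hl : L.a.reverse.length = m := by rw [List.length_reverse, L.a_length]
  ext v
  rw [List.mem_toFinset, mem_image, ← List.mem_reverse]
  constructor
  · intro h
    obtain ⟨i, hi, rfl⟩ := List.getElem_of_mem h
    exact ⟨i, mem_range.2 (by omega), List.getD_eq_getElem _ _ hi⟩
  · rintro ⟨i, hi, rfl⟩
    have hi' : i < L.a.reverse.length := by rw [hl]; exact mem_range.1 hi
    rw [List.getD_eq_getElem _ _ hi']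
    exact List.getElem_mem hi'

theorem cbs_nodup {n m : ℕ} (L : SuperPartition n m) : L.a.Nodup :=
  L.a_strict.imp (fun h => ne_of_gt h)

theorem cbs_nI {n m : ℕ} (L : SuperPartition n m) (i j : ℕ) (hij : i < j) (hj : j < m) :
    nI L.a (L.a.reverse.getD i 0) (L.a.reverse.getD j 0) = j - i := by
  unfold nI
  rw [← List.toFinset_card_of_nodup ((cbs_nodup L).filter _), List.toFinset_filter, cbs_image,
    filter_image, card_image_of_injOn]
  · have : (range m).filter (fun r => decide (L.a.reverse.getD i 0 ≤ L.a.reverse.getD r 0 ∧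
        L.a.reverse.getD r 0 < L.a.reverse.getD j 0) = true) = Ico i j := by
      ext r
      simp only [mem_filter, mem_range, decide_eq_true_eq, mem_Ico]
      constructor
      · rintro ⟨hr, h1, h2⟩
        exact ⟨(cbs_le_iff L i r (by omega) hr).1 h1, (cbs_lt_iff L r j hr hj).1 h2⟩
      · rintro ⟨h1, h2⟩
        have hr : r < m := by omega
        exact ⟨hr, (cbs_le_iff L i r (by omega) hr).2 h1, (cbs_lt_iff L r j hr hj).2 h2⟩
    rw [this, Nat.card_Ico]
  · exact (cbs_inj L).mono (by
      intro x hx
      simp only [coe_filter, Set.mem_setOf_eq] at hx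
      exact hx.1)

theorem cbs_term (N n m : ℕ) (hN : n + m ≤ N) (L : SuperPartition n m) (i j : ℕ) (hij : i < j)
    (hj : j < m) :
    (1 - yv N (etaOf L) (L.s.length + i) + yv N (etaOf L) (L.s.length + j) : K) =
      al * ((L.a.reverse.getD j 0 - L.a.reverse.getD i 0 : ℕ) : K) + 1
        + (nI L.a (L.a.reverse.getD i 0) (L.a.reverse.getD j 0) : K)
        + (nI L.s (L.a.reverse.getD i 0 + 1) (L.a.reverse.getD j 0 + 1) : K) := by
  have hlt := cbs_mono L i j hij hj
  rw [yv_etaOf N n m hN L i (by omega), yv_etaOf N n m hN L j hj, cbs_nI L i j hij hj,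
    cbs_len L.s _ _ (le_of_lt hlt), Nat.cast_sub (le_of_lt hlt)]
  have h1 : ((m - 1 - i : ℕ) : K) = ((m - 1 - j : ℕ) : K) + ((j - i : ℕ) : K) := by
    rw [← Nat.cast_add]
    congr 1
    omega
  rw [h1]
  push_cast
  ring

/-- HINT: `yv_etaOf`. For `i < i' < m`, `q = a.reverse_i < p = a.reverse_{i'}`:
`1 - y_{k+i} + y_{k+i'} = 1 + α (p - q) + #{v : q < v ≤ p} + (i' - i)` and `i' - i = #{p' ∈ a : q ≤ p' < p} = nI a q p`.
The product over pairs becomes the product over `v = p ∈ a`, `j = q ∈ a`, `q < p`. -/
theorem cB_split (N n m : ℕ) (hN : n + m ≤ N) (L : SuperPartition n m) :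
    (cB N (etaOf L) L.s.length m : K) =
      ∏ v ∈ L.a.toFinset, ∏ j ∈ (range v).filter (fun j => j ∈ L.a),
        (al * ((v - j : ℕ) : K) + 1 + (nI L.a j v : K) + (nI L.s (j + 1) (v + 1) : K)) := by
  have e1 : ∀ v : ℕ, (range v).filter (fun j => j ∈ L.a) = L.a.toFinset.filter (fun j => j < v) := by
    intro v
    ext j
    simp only [mem_filter, mem_range, List.mem_toFinset]
    exact and_comm
  simp only [e1, prod_filter]
  unfold cB
  rw [prod_filter, prod_product, prod_comm, cbs_image, prod_image (cbs_inj L)]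
  refine prod_congr rfl fun j hj => ?_
  rw [prod_image (cbs_inj L)]
  refine prod_congr rfl fun i hi => ?_
  rw [mem_range] at hi hj
  by_cases hij : i < j
  · have hlt := cbs_mono L i j hij hj
    rw [if_pos hij, if_pos hlt]
    exact cbs_term N n m hN L i j hij hj
  · have hlt : ¬ L.a.reverse.getD i 0 < L.a.reverse.getD j 0 := fun h =>
      hij ((cbs_lt_iff L i j hi hj).1 h)
    rw [if_neg hij, if_neg hlt]

end JSup
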