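import Pool.Agent.Helper204.JS.Stmt
import Pool.Agent.Helper204.JS.Defs
import Pool.Agent.Helper204.JS.Defs1
import Pool.Agent.Helper204.JS.Defs2

set_option linter.unusedSectionVars false

open MvPolynomial Finset

noncomputable section

namespace JSup
variable {K : Type} [Field K] [CharZero K] [Par K]



theorem card_shift_aux (x : ℕ) (t : List ℕ) (i n c : ℕ) :
    ((Ioo (i + 1) (n + 1)).filter (fun j => (x :: t).getD j 0 = c)).card =
      ((Ioo i n).filter (fun j => t.getD j 0 = c)).card := by
  refine Finset.card_bij' (fun j _ => j - 1) (fun j _ => j + 1) ?_ ?_ ?_ ?_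
  · intro j hj
    simp only [Finset.mem_filter, Finset.mem_Ioo] at hj ⊢
    obtain ⟨⟨h1, h2⟩, h3⟩ := hj
    obtain ⟨k, rfl⟩ : ∃ k, j = k + 1 := ⟨j - 1, by omega⟩
    simp only [List.getD_cons_succ] at h3
    simp only [Nat.add_sub_cancel]
    exact ⟨⟨by omega, by omega⟩, h3⟩
  · intro j hj
    simp only [Finset.mem_filter, Finset.mem_Ioo] at hj ⊢
    obtain ⟨⟨h1, h2⟩, h3⟩ := hj
    refine ⟨⟨by omega, by omega⟩, ?_⟩
    simp only [List.getD_cons_succ]
    exact h3
  · intro j hj
    simp only [Finset.mem_filter, Finset.mem_Ioo] at hj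
    show j - 1 + 1 = j
    omega
  · intro j _
    show j + 1 - 1 = j
    omega

theorem card_count_aux (x : ℕ) (t : List ℕ) :
    ((range t.length).filter (fun j => t.getD j 0 = x)).card = t.count x := by
  induction t with
  | nil => simp
  | cons y t ih =>
    rw [Finset.card_filter, List.length_cons, Finset.sum_range_succ']
    simp only [List.getD_cons_succ, List.getD_cons_zero]
    rw [← Finset.card_filter, ih, List.count_cons]
    simp

theorem card_head_aux (x : ℕ) (t : List ℕ) :
    ((Ioo 0 (t.length + 1)).filter (fun j => (x :: t).getD j 0 = x)).card = t.count x := by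
  rw [← card_count_aux]
  refine Finset.card_bij' (fun j _ => j - 1) (fun j _ => j + 1) ?_ ?_ ?_ ?_
  · intro j hj
    simp only [Finset.mem_filter, Finset.mem_Ioo, Finset.mem_range] at hj ⊢
    obtain ⟨⟨h1, h2⟩, h3⟩ := hj
    obtain ⟨k, rfl⟩ : ∃ k, j = k + 1 := ⟨j - 1, by omega⟩
    simp only [List.getD_cons_succ] at h3
    simp only [Nat.add_sub_cancel]
    exact ⟨by omega, h3⟩
  · intro j hj
    simp only [Finset.mem_filter, Finset.mem_Ioo, Finset.mem_range] at hj ⊢
    obtain ⟨h1, h3⟩ := hj
    refine ⟨⟨by omega, by omega⟩, ?_⟩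
    simp only [List.getD_cons_succ]
    exact h3
  · intro j hj
    simp only [Finset.mem_filter, Finset.mem_Ioo] at hj
    show j - 1 + 1 = j
    omega
  · intro j _
    show j + 1 - 1 = j
    omega

/-- HINT: induction on `l = x :: t` with `x ≤` all of `t` (the first entry `x` has `#{j > 0 : l_j = x} = count x t`,
`Finset.prod_range_succ`; the others are unchanged). -/
theorem prod_sorted_inc {M : Type} [CommMonoid M] (l : List ℕ) (hl : l.Pairwise (· ≤ ·)) (g : ℕ → ℕ → M) :
    ∏ i ∈ range l.length, g (l.getD i 0) ((Ioo i l.length).filter (fun j => l.getD j 0 = l.getD i 0)).card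
      = ∏ v ∈ l.toFinset, ∏ q ∈ range (l.count v), g v q := by
  clear hl
  induction l with
  | nil => simp
  | cons x t ih =>
    rw [List.length_cons, Finset.prod_range_succ']
    simp only [List.getD_cons_succ, List.getD_cons_zero]
    have h1 : ∀ i, ((Ioo (i + 1) (t.length + 1)).filter
        (fun j => (x :: t).getD j 0 = t.getD i 0)).card =
        ((Ioo i t.length).filter (fun j => t.getD j 0 = t.getD i 0)).card := fun i =>
      card_shift_aux x t i t.length _
    simp only [h1, card_head_aux]
    rw [ih]
    have h2 : ∏ v ∈ t.toFinset, ∏ q ∈ range (t.count v), g v q =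
        ∏ v ∈ (x :: t).toFinset, ∏ q ∈ range (t.count v), g v q := by
      apply Finset.prod_subset
      · intro v hv
        rw [List.mem_toFinset] at hv ⊢
        exact List.mem_cons_of_mem x hv
      · intro v _ hv
        rw [List.mem_toFinset] at hv
        rw [List.count_eq_zero_of_not_mem hv]
        simp
    have h3 : g x (t.count x) = ∏ v ∈ (x :: t).toFinset, if v = x then g v (t.count v) else 1 := by
      rw [Finset.prod_ite_eq' (x :: t).toFinset x (fun v => g v (t.count v)), if_pos (by simp)]
    rw [h2, h3, ← Finset.prod_mul_distrib]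
    apply Finset.prod_congr rfl
    intro v _
    by_cases hv : v = x
    · subst hv
      rw [if_pos rfl, List.count_cons_self, Finset.prod_range_succ]
    · rw [if_neg hv, mul_one, List.count_cons_of_ne (Ne.symm hv)]

end JSup
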