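import Pool.Agent.Helper204.JS.Stmt
import Pool.Agent.Helper204.JS.Defs
import Pool.Agent.Helper204.JS.Defs1
import Pool.Agent.Helper204.JS.Defs2
import Pool.Agent.Helper204.JS.P_prod_sorted_inc

set_option linter.unusedSectionVars false

open MvPolynomial Finset

noncomputable section

namespace JSup
variable {K : Type} [Field K] [CharZero K] [Par K]



theorem len_le_sum849 (l : List ℕ) (h : ∀ i ∈ l, 0 < i) : l.length ≤ l.sum := by
  induction l with
  | nil => simp
  | cons x t ih =>
    have h1 := ih (fun i hi => h i (List.mem_cons_of_mem _ hi))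
    have h2 := h x List.mem_cons_self
    rw [List.length_cons, List.sum_cons]
    omega

theorem dOf_add849 {n m : ℕ} (L : SuperPartition n m) (i : ℕ) :
    dOf L (m + i) = L.s.reverse.getD i 0 := by
  have h1 : m + i = L.a.reverse.length + i := by rw [List.length_reverse, L.a_length]
  rw [dOf_apply, h1, List.getD_append_right _ _ _ _ (by omega), Nat.add_sub_cancel_left]

/-- HINT: `dOf L` on `[m, m+k)` is `s.reverse` (positive), `0` on `[m+k, N)`; `#{j ∈ [p,N) : d_j = d_p} = 1 +
#{j > p in the s-part : equal}`; shift indices by `m` and use `prod_sorted_inc` with `g v q = q + 1`. -/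
theorem cnt_split (N n m : ℕ) (hN : n + m ≤ N) (L : SuperPartition n m) :
    ∏ p ∈ Ico m (m + L.s.length), ((Ico p N).filter (fun j => dOf L j = dOf L p)).card
      = ∏ v ∈ L.s.toFinset, ∏ q ∈ range (L.s.count v), (q + 1) := by
  obtain ⟨t, ht⟩ : ∃ t, t = L.s.reverse := ⟨_, rfl⟩
  have htl : t.length = L.s.length := by rw [ht, List.length_reverse]
  have hts : t.Pairwise (· ≤ ·) := by
    rw [ht, List.pairwise_reverse]
    exact L.s_weak
  have hd : ∀ i, dOf L (m + i) = t.getD i 0 := by
    intro i
    rw [ht]
    exact dOf_add849 L i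
  have hpos : ∀ i, i < t.length → 0 < t.getD i 0 := by
    intro i hi
    rw [List.getD_eq_getElem _ _ hi]
    refine L.s_pos _ ?_
    have h1 : t[i] ∈ t := List.getElem_mem hi
    have h2 : ∀ x, x ∈ t → x ∈ L.s := by
      intro x hx
      rw [ht] at hx
      exact List.mem_reverse.mp hx
    exact h2 _ h1
  have hkN : m + t.length ≤ N := by
    have h1 := len_le_sum849 L.s L.s_pos
    have h2 := L.sum_eq
    omega
  have key := prod_sorted_inc (M := ℕ) t hts (fun _ q => q + 1)
  have hR : ∏ v ∈ L.s.toFinset, ∏ q ∈ range (L.s.count v), (q + 1) =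
      ∏ v ∈ t.toFinset, ∏ q ∈ range (t.count v), (q + 1) := by
    rw [ht, List.toFinset_reverse]
    simp only [List.count_reverse]
  rw [hR, ← key, ← htl, Finset.prod_Ico_eq_prod_range, Nat.add_sub_cancel_left]
  refine Finset.prod_congr rfl fun i hi => ?_
  have hi' : i < t.length := mem_range.mp hi
  have hset : (Ico (m + i) N).filter (fun j => dOf L j = dOf L (m + i)) =
      (insert i ((Ioo i t.length).filter (fun j => t.getD j 0 = t.getD i 0))).map
        (addLeftEmbedding m) := by
    ext j
    simp only [mem_filter, mem_Ico, mem_map, mem_insert, mem_Ioo, addLeftEmbedding_apply]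
    constructor
    · rintro ⟨⟨h1, h2⟩, h3⟩
      obtain ⟨j', rfl⟩ : ∃ j', j = m + j' := ⟨j - m, by omega⟩
      rw [hd, hd] at h3
      refine ⟨j', ?_, rfl⟩
      by_cases hj : j' = i
      · exact Or.inl hj
      · right
        have h4 : j' < t.length := by
          by_contra hcon
          rw [List.getD_eq_default _ _ (not_lt.mp hcon)] at h3
          have := hpos i hi'
          omega
        exact ⟨⟨by omega, h4⟩, h3⟩
    · rintro ⟨j', h1 | ⟨⟨h1, h2⟩, h3⟩, rfl⟩
      · rw [h1]
        exact ⟨⟨le_refl _, by omega⟩, rfl⟩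
      · rw [hd, hd]
        exact ⟨⟨by omega, by omega⟩, h3⟩
  rw [hset, Finset.card_map, Finset.card_insert_of_notMem (by simp)]

end JSup
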