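import Pool.Agent.Helper204.JS.Stmt
import Pool.Agent.Helper204.JS.Defs
import Pool.Agent.Helper204.JS.Defs1
import Pool.Agent.Helper204.JS.Defs2
import Pool.Agent.Helper204.JS.Defs3
import Pool.Agent.Helper204.JS.Defs4

set_option linter.unusedSectionVars false

open MvPolynomial Finset

noncomputable section

namespace JSup
variable {K : Type} [Field K] [CharZero K] [Par K]



theorem len_le_sum_258 (l : List ℕ) (h : ∀ i ∈ l, 0 < i) :
    l.length ≤ l.sum := by
  induction l with
  | nil => simp
  | cons a l ih =>
    have h1 := ih (fun i hi => h i (List.mem_cons_of_mem _ hi))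
    have h2 := h a List.mem_cons_self
    rw [List.length_cons, List.sum_cons]
    omega

/-- reversal of the `l` positions starting at `a` -/
def revOn258 : ℕ → ℕ → Equiv.Perm ℕ
  | _, 0 => 1
  | _, 1 => 1
  | a, l + 2 => Equiv.swap a (a + l + 1) * revOn258 (a + 1) l

theorem revOn258_apply (l : ℕ) : ∀ a i : ℕ,
    revOn258 a l i = if a ≤ i ∧ i < a + l then 2 * a + l - 1 - i else i := by
  induction l using Nat.twoStepInduction with
  | zero =>
    intro a i
    rw [if_neg (by omega)]
    rfl
  | one =>
    intro a i
    change i = _
    split_ifs with h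
    · omega
    · rfl
  | more l ih _ =>
    intro a i
    have h1 : revOn258 a (l + 2) i = Equiv.swap a (a + l + 1) (revOn258 (a + 1) l i) := rfl
    rw [h1, ih (a + 1) i]
    by_cases h : a + 1 ≤ i ∧ i < a + 1 + l
    · rw [if_pos h, if_pos (by omega), Equiv.swap_apply_of_ne_of_ne (by omega) (by omega)]
      omega
    · rw [if_neg h]
      by_cases h2 : i = a
      · subst h2
        rw [Equiv.swap_apply_left, if_pos (by omega)]
        omega
      · by_cases h3 : i = a + l + 1
        · subst h3
          rw [Equiv.swap_apply_right, if_pos (by omega)]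
          omega
        · rw [Equiv.swap_apply_of_ne_of_ne h2 h3, if_neg (by omega)]

theorem revOn258_alt (m : ℕ) (f : MvPolynomial ℕ K) (hf : AltOn 0 m f) (l : ℕ) :
    ∀ a : ℕ, a + l ≤ m → rename (revOn258 a l) f = (-1) ^ (l.choose 2) * f := by
  induction l using Nat.twoStepInduction with
  | zero =>
    intro a _
    have : (rename (revOn258 a 0) f : MvPolynomial ℕ K) = rename id f := rfl
    rw [this, rename_id_apply]
    simp
  | one =>
    intro a _
    have : (rename (revOn258 a 1) f : MvPolynomial ℕ K) = rename id f := rfl
    rw [this, rename_id_apply]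
    simp
  | more l ih _ =>
    intro a ha
    have h1 : (rename (revOn258 a (l + 2)) f : MvPolynomial ℕ K) =
        rename (Equiv.swap a (a + l + 1)) (rename (revOn258 (a + 1) l) f) := by
      rw [rename_rename]
      rfl
    rw [h1, ih (a + 1) (by omega), map_mul, map_pow, map_neg, map_one,
      hf a (a + l + 1) (Nat.zero_le _) (by omega) (by omega)]
    have h2 : (l + 2).choose 2 = l.choose 2 + 2 * l + 1 := by
      rw [Nat.choose_succ_succ' (l + 1) 1, Nat.choose_succ_succ' l 1]
      simp
      ring
    rw [h2, pow_succ, pow_add, pow_mul]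
    ring

theorem getD_rev258 (l : List ℕ) (i : ℕ) (h : i < l.length) :
    l.reverse.getD i 0 = l.getD (l.length - 1 - i) 0 := by
  rw [List.getD_eq_getElem _ _ (by simpa using h), List.getD_eq_getElem _ _ (by omega),
    List.getElem_reverse]

/-- HINT: `dOf V` is obtained from `partF V` by reversing the positions `[0,m)` (sign `(-1)^(m choose 2)`) and reversing
`[m, m+k)` (no sign). -/
theorem coeff_rev (N n m : ℕ) (hN : n + m ≤ N) (f : MvPolynomial ℕ K) (hf : InU N m n f) (V : SuperPartition n m) :
    coeff (partF V) f = (-1) ^ (m.choose 2) * coeff (dOf V) f := by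
  obtain ⟨hA, hS, _, _⟩ := hf
  have hk : V.s.length ≤ n := by
    have h1 : V.s.length ≤ V.s.sum := by
      have h2 := len_le_sum_258 V.s V.s_pos
      exact h2
    have := V.sum_eq
    omega
  have e1 : rename (revOn258 m V.s.length) f = f := by
    apply hS
    intro i hi
    rw [revOn258_apply, if_neg (by omega)]
  have e2 : rename (revOn258 0 m) f = (-1) ^ (m.choose 2) * f := revOn258_alt m f hA m 0 (by omega)
  have e3 : rename (revOn258 0 m * revOn258 m V.s.length : Equiv.Perm ℕ) f = (-1) ^ (m.choose 2) * f := by
    have : (rename (revOn258 0 m * revOn258 m V.s.length : Equiv.Perm ℕ) f : MvPolynomial ℕ K) =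
        rename (revOn258 0 m) (rename (revOn258 m V.s.length) f) := by
      rw [rename_rename]
      rfl
    rw [this, e1, e2]
  have hal : V.a.length = m := V.a_length
  have key : ∀ i, partF V ((revOn258 0 m * revOn258 m V.s.length : Equiv.Perm ℕ) i) = dOf V i := by
    intro i
    rw [partF_apply, dOf_apply]
    unfold SuperPartition.part
    rw [Equiv.Perm.mul_apply]
    by_cases h1 : i < m
    · have q1 : revOn258 m V.s.length i = i := by rw [revOn258_apply, if_neg (by omega)]
      have q2 : revOn258 0 m i = m - 1 - i := by
        rw [revOn258_apply, if_pos (by omega)]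
        omega
      rw [q1, q2, List.getD_append _ _ _ _ (by omega),
        List.getD_append _ _ _ _ (by simp; omega), getD_rev258 _ _ (by omega), hal]
    · by_cases h2 : i < m + V.s.length
      · have q1 : revOn258 m V.s.length i = m + (V.s.length - 1 - (i - m)) := by
          rw [revOn258_apply, if_pos (by omega)]
          omega
        have q2 : revOn258 0 m (m + (V.s.length - 1 - (i - m))) = m + (V.s.length - 1 - (i - m)) := by
          rw [revOn258_apply, if_neg (by omega)]
        rw [q1, q2, List.getD_append_right _ _ _ _ (by omega),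
          List.getD_append_right _ _ _ _ (by simp; omega), List.length_reverse, hal,
          getD_rev258 _ _ (by omega)]
        congr 1
        omega
      · have q1 : revOn258 m V.s.length i = i := by rw [revOn258_apply, if_neg (by omega)]
        have q2 : revOn258 0 m i = i := by rw [revOn258_apply, if_neg (by omega)]
        rw [q1, q2, List.getD_eq_default _ _ (by simp; omega),
          List.getD_eq_default _ _ (by simp; omega)]
  have hmap : partF V = (dOf V).mapDomain (revOn258 0 m * revOn258 m V.s.length : Equiv.Perm ℕ) := by
    ext j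
    obtain ⟨i, rfl⟩ := (revOn258 0 m * revOn258 m V.s.length : Equiv.Perm ℕ).surjective j
    rw [key, Finsupp.mapDomain_apply (revOn258 0 m * revOn258 m V.s.length : Equiv.Perm ℕ).injective]
  have h5 := coeff_rename_mapDomain (revOn258 0 m * revOn258 m V.s.length : Equiv.Perm ℕ)
    (revOn258 0 m * revOn258 m V.s.length : Equiv.Perm ℕ).injective f (dOf V)
  rw [← hmap, e3] at h5
  rw [← h5]
  have h6 : ((-1) ^ (m.choose 2) * f : MvPolynomial ℕ K) = C ((-1) ^ (m.choose 2)) * f := by
    simp
  rw [h6, coeff_C_mul, ← mul_assoc, ← mul_pow]
  simp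

end JSup
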