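import Pool.Agent.Helper204.JS.Stmt
import Pool.Agent.Helper204.JS.Defs
import Pool.Agent.Helper204.JS.Defs1
import Pool.Agent.Helper204.JS.Defs2

set_option linter.unusedSectionVars false

open MvPolynomial Finset

noncomputable section

namespace JSup
variable {K : Type} [Field K] [CharZero K] [Par K]



theorem ef_sum (l : List ℕ) : ∑ i ∈ range l.length, l.getD i 0 = l.sum := by
  induction l with
  | nil => rfl
  | cons x l ih =>
    rw [List.length_cons, Finset.sum_range_succ', List.sum_cons]
    simp only [List.getD_cons_succ, List.getD_cons_zero]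
    rw [ih, add_comm]

theorem ef_pred (l : List ℕ) (h : ∀ i ∈ l, 0 < i) :
    (l.map (fun v => v - 1)).sum + l.length = l.sum := by
  induction l with
  | nil => rfl
  | cons x l ih =>
    have h1 := ih (fun i hi => h i (List.mem_cons_of_mem _ hi))
    have h2 := h x List.mem_cons_self
    simp only [List.map_cons, List.sum_cons, List.length_cons]
    omega

theorem ef_e1 {n m : ℕ} (L : SuperPartition n m) (i : ℕ) (hi : i < L.s.length) :
    etaOf L i = L.s[L.s.length - 1 - i] - 1 := by
  rw [etaOf_apply, List.getD_append _ _ _ _ (by simpa using hi),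
    List.getD_eq_getElem _ _ (by simpa using hi), List.getElem_map, List.getElem_reverse]

theorem ef_e2 {n m : ℕ} (L : SuperPartition n m) (i : ℕ) (hi : i < L.a.length) :
    etaOf L (L.s.length + i) = L.a[L.a.length - 1 - i] := by
  rw [etaOf_apply, List.getD_append_right _ _ _ _ (by simp)]
  have h1 : L.s.length + i - (List.map (fun v => v - 1) L.s.reverse).length = i := by simp
  rw [h1, List.getD_eq_getElem _ _ (by simpa using hi), List.getElem_reverse]

theorem ef_d1 {n m : ℕ} (L : SuperPartition n m) (i : ℕ) (hi : i < L.a.length) :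
    dOf L i = L.a[L.a.length - 1 - i] := by
  rw [dOf_apply, List.getD_append _ _ _ _ (by simpa using hi),
    List.getD_eq_getElem _ _ (by simpa using hi), List.getElem_reverse]

theorem ef_d2 {n m : ℕ} (L : SuperPartition n m) (i : ℕ) (hi : i < L.s.length) :
    dOf L (L.a.length + i) = L.s[L.s.length - 1 - i] := by
  rw [dOf_apply, List.getD_append_right _ _ _ _ (by simp)]
  have h1 : L.a.length + i - L.a.reverse.length = i := by simp
  rw [h1, List.getD_eq_getElem _ _ (by simpa using hi), List.getElem_reverse]

/-- HINT: list lemmas for `getD` of `map`, `append`, `reverse`. `k = L.s.length ≤ n` since all parts of `s` are positive. -/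
theorem etaOf_facts (N n m : ℕ) (hN : n + m ≤ N) (L : SuperPartition n m) :
    L.s.length + m ≤ N ∧
    (∀ i, L.s.length + m ≤ i → etaOf L i = 0) ∧
    (∀ i j, i ≤ j → j < L.s.length → etaOf L i ≤ etaOf L j) ∧
    (∀ i j, L.s.length ≤ i → i < j → j < L.s.length + m → etaOf L i < etaOf L j) ∧
    (∀ i, i < m → dOf L i = etaOf L (L.s.length + i)) ∧
    (∀ i, i < L.s.length → dOf L (m + i) = etaOf L i + 1) ∧
    (∀ i, L.s.length + m ≤ i → dOf L i = 0) ∧
    (etaOf L).sum (fun _ n => n) + L.s.length = n := by
  have hm := L.a_length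
  have hsl : L.s.length ≤ L.s.sum := by
    have := ef_pred L.s L.s_pos
    omega
  have hsum := L.sum_eq
  have hs := List.pairwise_iff_getElem.1 L.s_weak
  have ha := List.pairwise_iff_getElem.1 L.a_strict
  refine ⟨by omega, ?_, ?_, ?_, ?_, ?_, ?_, ?_⟩
  · intro i hi
    rw [etaOf_apply, List.getD_eq_default]
    simp only [List.length_append, List.length_reverse, List.length_map]
    omega
  · intro i j hij hj
    rw [ef_e1 L i (by omega), ef_e1 L j hj]
    rcases eq_or_lt_of_le hij with h | h
    · subst h; exact le_rfl
    · have h1 := hs (L.s.length - 1 - j) (L.s.length - 1 - i) (by omega) (by omega) (by omega)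
      omega
  · intro i j hi hij hj
    obtain ⟨i', rfl⟩ : ∃ i', i = L.s.length + i' := ⟨i - L.s.length, by omega⟩
    obtain ⟨j', rfl⟩ : ∃ j', j = L.s.length + j' := ⟨j - L.s.length, by omega⟩
    rw [ef_e2 L i' (by omega), ef_e2 L j' (by omega)]
    exact ha (L.a.length - 1 - j') (L.a.length - 1 - i') (by omega) (by omega) (by omega)
  · intro i hi
    rw [ef_d1 L i (by omega), ef_e2 L i (by omega)]
  · intro i hi
    have h1 := ef_d2 L i hi
    rw [hm] at h1
    rw [h1, ef_e1 L i hi]
    have h2 := L.s_pos _ (List.getElem_mem (l := L.s) (n := L.s.length - 1 - i) (by omega))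
    omega
  · intro i hi
    rw [dOf_apply, List.getD_eq_default]
    simp only [List.length_append, List.length_reverse]
    omega
  · have h1 : (etaOf L).sum (fun _ n => n) =
        ((L.s.reverse.map (fun v => v - 1)) ++ L.a.reverse).sum := by
      unfold etaOf
      rw [Finsupp.onFinset_sum _ (fun _ => rfl), ← ef_sum]
      congr 1
      simp
    rw [h1, List.sum_append, List.sum_reverse, List.map_reverse, List.sum_reverse]
    have := ef_pred L.s L.s_pos
    omega

end JSup
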