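import Pool.Agent.Helper204.JS.Stmt
import Pool.Agent.Helper204.JS.Defs
import Pool.Agent.Helper204.JS.Defs1
import Pool.Agent.Helper204.JS.Defs2
import Pool.Agent.Helper204.JS.P_yv_etaOf

set_option linter.unusedSectionVars false

open MvPolynomial Finset

noncomputable section

namespace JSup
variable {K : Type} [Field K] [CharZero K] [Par K]



theorem iM_aux_list {M : Type*} [AddCommMonoid M] (f : ℕ → M) (l : List ℕ) :
    ∑ i ∈ range l.length, f (l.getD i 0) = (l.map f).sum := by
  induction l with
  | nil => simp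
  | cons x t ih =>
    rw [List.length_cons, Finset.sum_range_succ']
    simp only [List.getD_cons_succ, List.getD_cons_zero, List.map_cons, List.sum_cons]
    rw [ih, add_comm]

theorem iM_aux_choose (m : ℕ) : ∑ i ∈ range m, (m - 1 - i) = m.choose 2 := by
  rw [Finset.sum_range_reflect (fun i => i) m, Finset.sum_range_id, Nat.choose_two_right]

/-- HINT: `yv_etaOf`; `Σ_{i<m} (m-1-i) = m choose 2`. -/
theorem iM_eq (N n m : ℕ) (hN : n + m ≤ N) (L : SuperPartition n m) :
    (∑ i ∈ range m, yv N (etaOf L) (L.s.length + i) : K) + ((m.choose 2 : ℕ) : K) = iM L := by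
  have hlen : L.a.reverse.length = m := by rw [List.length_reverse, L.a_length]
  have h1 : (∑ i ∈ range m, yv N (etaOf L) (L.s.length + i) : K) =
      ∑ i ∈ range m, (al * ((L.a.reverse.getD i 0 : ℕ) : K)
        - ((L.s.filter (fun v => L.a.reverse.getD i 0 < v)).length : K) - ((m - 1 - i : ℕ) : K)) :=
    Finset.sum_congr rfl fun i hi => yv_etaOf N n m hN L i (Finset.mem_range.mp hi)
  have h2 : ∑ i ∈ range m, (L.a.reverse.getD i 0) = L.a.sum := by
    have := iM_aux_list (fun x => x) L.a.reverse
    rw [hlen] at this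
    rw [this]
    simp [List.sum_reverse]
  have h3 : ∑ i ∈ range m, (L.s.filter (fun v => L.a.reverse.getD i 0 < v)).length = crossN L := by
    have := iM_aux_list (fun p => (L.s.filter (fun v => p < v)).length) L.a.reverse
    rw [hlen] at this
    rw [this, List.map_reverse, List.sum_reverse]
    rfl
  rw [h1, Finset.sum_sub_distrib, Finset.sum_sub_distrib, ← Finset.mul_sum, ← Nat.cast_sum,
    ← Nat.cast_sum, ← Nat.cast_sum, h2, h3, iM_aux_choose, iM]
  ring

end JSup
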