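import Pool.Agent.Helper204.JS.Stmt
import Pool.Agent.Helper204.JS.Defs
import Pool.Agent.Helper204.JS.Defs1
import Pool.Agent.Helper204.JS.Defs2

set_option linter.unusedSectionVars false

open MvPolynomial Finset

noncomputable section

namespace JSup
variable {K : Type} [Field K] [CharZero K] [Par K]



theorem take_sum_le_thr (t : ℕ) : ∀ (l : List ℕ) (k : ℕ),
    (l.take k).sum ≤ k * t + (l.map (fun x => x - t)).sum := by
  intro l
  induction l with
  | nil => intro k; simp
  | cons x xs ih =>
    intro k
    cases k with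
    | zero => simp
    | succ k =>
      have := ih k
      simp only [List.take_succ_cons, List.sum_cons, List.map_cons]
      have h1 : x ≤ t + (x - t) := by omega
      have h2 : (k + 1) * t = k * t + t := by ring
      omega

theorem map_sub_sum_zero (b : ℕ) : ∀ l : List ℕ, (∀ y ∈ l, y ≤ b) → (l.map (fun x => x - b)).sum = 0 := by
  intro l
  induction l with
  | nil => intro _; simp
  | cons x xs ih =>
    intro h
    have h1 := h x (by simp)
    have h2 := ih (fun y hy => h y (by simp [hy]))
    simp only [List.map_cons, List.sum_cons]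
    omega

theorem exists_thr : ∀ (l : List ℕ), l.Pairwise (· ≥ ·) → ∀ (k b : ℕ), k ≤ l.length → (∀ y ∈ l, y ≤ b) →
    ∃ t ≤ b, k * t + (l.map (fun x => x - t)).sum ≤ (l.take k).sum := by
  intro l
  induction l with
  | nil =>
    intro _ k b hk _
    simp only [List.length_nil, Nat.le_zero] at hk
    subst hk
    exact ⟨b, le_refl _, by simp⟩
  | cons x xs ih =>
    intro hp k b hk hb
    cases k with
    | zero => exact ⟨b, le_refl _, by rw [map_sub_sum_zero b _ hb]; simp⟩
    | succ k =>
      rw [List.pairwise_cons] at hp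
      obtain ⟨t, ht, hle⟩ := ih hp.2 k x (by simpa using hk) (fun y hy => hp.1 y hy)
      refine ⟨t, ht.trans (hb x (by simp)), ?_⟩
      simp only [List.take_succ_cons, List.sum_cons, List.map_cons]
      have h2 : (k + 1) * t = k * t + t := by ring
      omega

/-- HINT: for `k = 0` trivial; if `k > l₂.length` then `(l₂.take k).sum = l₂.sum = l₁.sum ≥ (l₁.take k).sum`; otherwise let
`t = l₂.getD (k-1) 0`, the `k`-th largest: `(l₂.take k).sum = k t + Σ_{x ∈ l₂} (x - t)` (entries of the first `k` are `≥ t`, the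
others `≤ t`), and `(l₁.take k).sum ≤ k t + Σ_{x ∈ l₁.take k} (x - t) ≤ k t + Σ_{x ∈ l₁} (x - t)`. -/
theorem dom_of_thr (l₁ l₂ : List ℕ) (h2 : l₂.Pairwise (· ≥ ·)) (hs : l₁.sum = l₂.sum)
    (h : ∀ t, (l₁.map (fun x => x - t)).sum ≤ (l₂.map (fun x => x - t)).sum) : Dom l₁ l₂ := by
  refine ⟨hs, fun k => ?_⟩
  by_cases hk : k ≤ l₂.length
  · obtain ⟨t, -, ht⟩ := exists_thr l₂ h2 k l₂.sum hk (fun y hy => List.single_le_sum (by simp) y hy)
    exact (take_sum_le_thr t l₁ k).trans ((Nat.add_le_add_left (h t) _).trans ht)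
  · have h3 : l₂.take k = l₂ := List.take_of_length_le (by omega)
    rw [h3, ← hs]
    have h4 : (l₁.take k).sum + (l₁.drop k).sum = l₁.sum := by
      rw [← List.sum_append, List.take_append_drop]
    omega

end JSup
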