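import Pool.Agent.Helper204.JS.Stmt
import Pool.Agent.Helper204.JS.Defs
import Pool.Agent.Helper204.JS.Defs1
import Pool.Agent.Helper204.JS.Defs2
import Pool.Agent.Helper204.JS.P_star_facts

set_option linter.unusedSectionVars false

open MvPolynomial Finset

noncomputable section

namespace JSup
variable {K : Type} [Field K] [CharZero K] [Par K]



/-- HINT: `dOf L` on `[0, m)` is `a.reverse`, on `[m, m+k)` is `s.reverse`, then 0; sums over `range N` become sums of lists
(`m + k ≤ N` as `k ≤ n`); zeros contribute 0; permutation invariance of sums, `star_facts`. -/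
theorem hth_dOf (N n m t : ℕ) (hN : n + m ≤ N) (L : SuperPartition n m) :
    hth N t (dOf L) = (L.star.map (fun x => x - t)).sum ∧
    hth N t (addOne m (dOf L)) = (L.ostar.map (fun x => x - t)).sum := by
  obtain ⟨-, -, hps, hpo, -, -, -, -, -, -, -⟩ := star_facts L
  have hA : ∀ (l : List ℕ) (f : ℕ → ℕ) (M : ℕ), f 0 = 0 → l.length ≤ M →
      ∑ i ∈ range M, f (l.getD i 0) = (l.map f).sum := by
    intro l f
    induction l with
    | nil => intro M h0 _; simp [h0]
    | cons x l ih =>
      intro M h0 hM
      obtain ⟨M', rfl⟩ : ∃ M', M = M' + 1 := ⟨M - 1, by simp at hM; omega⟩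
      rw [Finset.sum_range_succ']
      simp only [List.getD_cons_succ, List.getD_cons_zero, List.map_cons, List.sum_cons]
      rw [ih M' h0 (by simpa using hM), add_comm]
  have hklen : L.s.length ≤ n := by
    have h1 : L.s.length ≤ L.s.sum := List.length_le_sum_of_one_le _ (fun i hi => L.s_pos i hi)
    have h2 := L.sum_eq
    omega
  have hal := L.a_length
  have hf0 : (fun x : ℕ => x - t) 0 = 0 := by simp
  have hfilt : ∀ l : List ℕ, ((l.filter (fun i => 0 < i)).map (fun x => x - t)).sum
      = (l.map (fun x => x - t)).sum := by
    intro l
    induction l with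
    | nil => rfl
    | cons x l ih =>
      by_cases hx : 0 < x
      · rw [List.filter_cons_of_pos (by simpa using hx)]
        simp only [List.map_cons, List.sum_cons, ih]
      · rw [List.filter_cons_of_neg (by simpa using hx)]
        have hx0 : x = 0 := by omega
        simp only [List.map_cons, List.sum_cons, ih, hx0]
        simp
  constructor
  · have h1 : ∀ i, dOf L i = (L.a.reverse ++ L.s.reverse).getD i 0 := fun i => rfl
    unfold hth
    simp only [h1]
    rw [hA _ (fun x => x - t) N hf0 (by simp; omega)]
    rw [(hps.map (fun x => x - t)).sum_eq, hfilt]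
    simp only [List.map_append, List.sum_append, List.map_reverse, List.sum_reverse]
  · have h1 : ∀ i, addOne m (dOf L) i = ((L.a.map (· + 1)).reverse ++ L.s.reverse).getD i 0 := by
      intro i
      unfold addOne
      have h2 : dOf L i = (L.a.reverse ++ L.s.reverse).getD i 0 := rfl
      rw [h2]
      by_cases hi : i < m
      · rw [if_pos hi, List.getD_append _ _ _ _ (by simp; omega), List.getD_append _ _ _ _ (by simp; omega)]
        rw [List.getD_eq_getElem _ _ (by simp; omega), List.getD_eq_getElem _ _ (by simp; omega)]
        simp
      · rw [if_neg hi, List.getD_append_right _ _ _ _ (by simp; omega),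
          List.getD_append_right _ _ _ _ (by simp; omega)]
        simp
    unfold hth
    simp only [h1]
    rw [hA _ (fun x => x - t) N hf0 (by simp; omega)]
    rw [(hpo.map (fun x => x - t)).sum_eq]
    simp only [List.map_append, List.sum_append, List.map_reverse, List.sum_reverse]

end JSup
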