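import Pool.Agent.Helper204.JS.Stmt
import Pool.Agent.Helper204.JS.Defs
import Pool.Agent.Helper204.JS.Defs1
import Pool.Agent.Helper204.JS.Defs2
import Pool.Agent.Helper204.JS.P_star_facts
import Pool.Agent.Helper204.JS.P_dom_of_thr
import Pool.Agent.Helper204.JS.P_hth_dOf

set_option linter.unusedSectionVars false

open MvPolynomial Finset

noncomputable section

namespace JSup
variable {K : Type} [Field K] [CharZero K] [Par K]



theorem le_of_hth (N n m : ℕ) (hN : n + m ≤ N) (L W : SuperPartition n m)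
    (h1 : ∀ t, hth N t (dOf W) ≤ hth N t (dOf L))
    (h2 : ∀ t, hth N t (addOne m (dOf W)) ≤ hth N t (addOne m (dOf L))) : W ≤ L := by
  obtain ⟨s1, s2, _, _, _, _, s7, s8, _⟩ := star_facts L
  obtain ⟨_, _, _, _, _, _, w7, w8, _⟩ := star_facts W
  refine ⟨dom_of_thr _ _ s1 (by rw [s7, w7]) fun t => ?_,
    dom_of_thr _ _ s2 (by rw [s8, w8]) fun t => ?_⟩
  · rw [← (hth_dOf N n m t hN W).1, ← (hth_dOf N n m t hN L).1]
    exact h1 t
  · rw [← (hth_dOf N n m t hN W).2, ← (hth_dOf N n m t hN L).2]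
    exact h2 t

end JSup
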