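import Pool.Agent.Helper204.JS.Stmt
import Pool.Agent.Helper204.JS.Defs
import Pool.Agent.Helper204.JS.Defs1
import Pool.Agent.Helper204.JS.Defs2
import Pool.Agent.Helper204.JS.Defs3
import Pool.Agent.Helper204.JS.Defs4
import Pool.Agent.Helper204.JS.P_cB_ne
import Pool.Agent.Helper204.JS.P_sq_psm_perm
import Pool.Agent.Helper204.JS.P_J_eigen
import Pool.Agent.Helper204.JS.P_J_inU
import Pool.Agent.Helper204.JS.P_J_itg
import Pool.Agent.Helper204.JS.P_J_lead
import Pool.Agent.Helper204.JS.P_J_supp
import Pool.Agent.Helper204.JS.P_vLam_eq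
import Pool.Agent.Helper204.JS.P_le_of_hth
import Pool.Agent.Helper204.JS.P_etaOf_facts
import Pool.Agent.Helper204.JS.P_iM_eq

set_option linter.unusedSectionVars false

open MvPolynomial Finset

noncomputable section

namespace JSup
variable {K : Type} [Field K] [CharZero K] [Par K]



/-- HINT: `k = L.s.length`, `η = etaOf L`, `J = Jraw N k m η`; `etaOf_facts` gives all hypotheses for `J_itg`, `J_inU`,
`J_eigen`, `J_lead` (with `d = dOf L`), `J_supp`. `eM N (addOne k η) = eM N (dOf L)`, `hth N t (addOne k η) = hth N t (dOf L)`,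
`hth N t (addOne (k+m) η) = hth N t (addOne m (dOf L))` since `dOf L = addOne k η ∘ σ` with `σ` the rotation
`i ↦ k+i (i<m), m+i ↦ i (i<k)` (`σ = (rot k m)⁻¹`) of `[0,k+m)` (`sq_psm_perm`). The II-eigenvalue is `iM L` (`iM_eq`). The
leading coefficient `cnt * (cB⁻¹ * dEta) = vLam` by `vLam_eq` and `cB_ne`. Support: `J_supp` + `le_of_hth`. -/
theorem core (N n m : ℕ) (hN : n + m ≤ N) (L : SuperPartition n m) :
    ∃ J : MvPolynomial ℕ K, Itg J ∧ InU N m n J ∧ MM N J = (eM N (dOf L) : K) • J ∧
      II N m J = (iM L : K) • J ∧ coeff (dOf L) J = vLam (al : K) L ∧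
      ∀ W : SuperPartition n m, coeff (dOf W) J ≠ 0 → W ≤ L := by
  obtain ⟨hkN, h0, h1, h2, hd1, hd2, hd3, hsum⟩ := etaOf_facts N n m hN L
  have hη : ∀ i, N ≤ i → etaOf L i = 0 := fun i hi => h0 i (hkN.trans hi)
  have hinj : ∀ i j, L.s.length ≤ i → i < j → j < L.s.length + m → etaOf L i ≠ etaOf L j :=
    fun i j a b c => (h2 i j a b c).ne
  have e1 : (dOf L : ℕ → ℕ) = addOne L.s.length (etaOf L) ∘ (rot L.s.length m).symm := by
    funext i
    rw [Function.comp_apply, rot_symm_apply]
    by_cases hi : i < m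
    · rw [if_pos hi, hd1 i hi]
      unfold addOne
      rw [if_neg (by omega)]
    · rw [if_neg hi]
      by_cases hi2 : i < L.s.length + m
      · rw [if_pos hi2]
        have h3 := hd2 (i - m) (by omega)
        rw [show m + (i - m) = i by omega] at h3
        rw [h3]
        unfold addOne
        rw [if_pos (by omega)]
      · rw [if_neg hi2, hd3 i (by omega)]
        unfold addOne
        rw [if_neg (by omega), h0 i (by omega)]
  have e2 : addOne m (dOf L : ℕ → ℕ) =
      addOne (L.s.length + m) (etaOf L) ∘ (rot L.s.length m).symm := by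
    funext i
    rw [Function.comp_apply, rot_symm_apply]
    by_cases hi : i < m
    · rw [if_pos hi]
      unfold addOne
      rw [if_pos hi, if_pos (by omega), hd1 i hi]
    · rw [if_neg hi]
      by_cases hi2 : i < L.s.length + m
      · rw [if_pos hi2]
        have h3 := hd2 (i - m) (by omega)
        rw [show m + (i - m) = i by omega] at h3
        unfold addOne
        rw [if_neg hi, if_pos (by omega), h3]
      · rw [if_neg hi2]
        unfold addOne
        rw [if_neg hi, if_neg (by omega), hd3 i (by omega), h0 i (by omega)]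
  have hfix : ∀ k, N ≤ k → (rot L.s.length m).symm k = k := by
    intro k hk
    rw [rot_symm_apply, if_neg (by omega), if_neg (by omega)]
  have eeM : (eM N (dOf L) : K) = eM N (addOne L.s.length (etaOf L)) := by
    rw [e1]
    exact (sq_psm_perm (K := K) N (rot L.s.length m).symm hfix _ 0).2.2
  have eh1 : ∀ t, hth N t (dOf L) = hth N t (addOne L.s.length (etaOf L)) := by
    intro t
    rw [e1]
    exact (sq_psm_perm (K := K) N (rot L.s.length m).symm hfix _ t).2.1
  have eh2 : ∀ t, hth N t (addOne m (dOf L)) = hth N t (addOne (L.s.length + m) (etaOf L)) := by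
    intro t
    rw [e2]
    exact (sq_psm_perm (K := K) N (rot L.s.length m).symm hfix _ t).2.1
  obtain ⟨hM, hI⟩ := J_eigen (K := K) N L.s.length m hkN (etaOf L) hη
  obtain ⟨hA, hS, hH, hV⟩ := J_inU (K := K) N L.s.length m hkN (etaOf L) h0
  rw [hsum] at hH
  refine ⟨Jraw N L.s.length m (etaOf L), J_itg N L.s.length m hkN (etaOf L) hη hinj,
    ⟨hA, hS, hH, hV⟩, ?_, ?_, ?_, ?_⟩
  · rw [hM, eeM]
  · rw [hI, iM_eq N n m hN L]
  · rw [J_lead N L.s.length m hkN (etaOf L) h0 h1 h2 (dOf L) hd1 hd2 hd3]
    have hc : (cB N (etaOf L) L.s.length m : K) ≠ 0 :=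
      cB_ne N L.s.length m (etaOf L) hinj
    have hv := vLam_eq (K := K) N n m hN L
    apply mul_right_cancel₀ hc
    rw [hv]
    field_simp
  · intro W hW
    apply le_of_hth N n m hN L W
    · intro t
      rw [eh1]
      exact (J_supp (K := K) N L.s.length m hkN (etaOf L) hη (dOf W) hW t).1
    · intro t
      rw [eh2]
      exact (J_supp (K := K) N L.s.length m hkN (etaOf L) hη (dOf W) hW t).2

end JSup
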