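import Pool.Agent.Helper204.JS.Stmt
import Pool.Agent.Helper204.JS.Defs
import Pool.Agent.Helper204.JS.Defs1
import Pool.Agent.Helper204.JS.Defs2
import Pool.Agent.Helper204.JS.P_prod_sorted_inc

set_option linter.unusedSectionVars false

open MvPolynomial Finset

noncomputable section

namespace JSup
variable {K : Type} [Field K] [CharZero K] [Par K]



theorem dEta_split_card (l : List ℕ) (P : ℕ → Prop) [DecidablePred P] :
    ((range l.length).filter (fun x => P (l.getD x 0))).card
      = (l.filter (fun x => decide (P x))).length := by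
  induction l with
  | nil => simp
  | cons a t ih =>
    rw [Finset.card_filter] at ih ⊢
    rw [List.length_cons, Finset.sum_range_succ']
    simp only [List.getD_cons_succ, List.getD_cons_zero]
    rw [ih, List.filter_cons]
    by_cases h : P a
    · simp [h]
    · simp [h]

theorem dEta_split_nI (l : List ℕ) (lo hi : ℕ) :
    ((range l.length).filter (fun x => lo ≤ l.getD x 0 ∧ l.getD x 0 < hi)).card = nI l lo hi := by
  have h := dEta_split_card l (fun p => lo ≤ p ∧ p < hi)
  rw [h]
  rfl

theorem dEta_split_rev (l : List ℕ) (lo hi : ℕ) : nI l.reverse lo hi = nI l lo hi := by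
  unfold nI
  rw [List.filter_reverse, List.length_reverse]

theorem dEta_split_add (P : ℕ → Prop) [DecidablePred P] (a b : ℕ) :
    ((range (a + b)).filter P).card
      = ((range a).filter P).card + ((range b).filter (fun x => P (a + x))).card := by
  simp only [Finset.card_filter]
  rw [Finset.sum_range_add]

theorem dEta_split_eta_lt {n m : ℕ} (L : SuperPartition n m) (i : ℕ) (hi : i < L.s.reverse.length) :
    etaOf L i = L.s.reverse.getD i 0 - 1 := by
  rw [etaOf_apply, List.getD_append _ _ _ _ (by simpa using hi)]
  rw [List.getD_eq_getElem _ _ (by simpa using hi), List.getD_eq_getElem _ _ hi]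
  simp

theorem dEta_split_eta_add {n m : ℕ} (L : SuperPartition n m) (i : ℕ) :
    etaOf L (L.s.reverse.length + i) = L.a.reverse.getD i 0 := by
  rw [etaOf_apply, List.getD_append_right _ _ _ _ (by simp)]
  simp

theorem dEta_split_S {n m : ℕ} (L : SuperPartition n m) (i j : ℕ) (hij : i < j)
    (hj : j < L.s.reverse.length) : L.s.reverse.getD i 0 ≤ L.s.reverse.getD j 0 := by
  have h : L.s.reverse.Pairwise (· ≤ ·) := by
    rw [List.pairwise_reverse]
    exact L.s_weak
  rw [List.getD_eq_getElem _ _ (hij.trans hj), List.getD_eq_getElem _ _ hj]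
  exact List.pairwise_iff_getElem.1 h i j _ _ hij

theorem dEta_split_A {n m : ℕ} (L : SuperPartition n m) (i j : ℕ) (hij : i < j)
    (hj : j < L.a.reverse.length) : L.a.reverse.getD i 0 < L.a.reverse.getD j 0 := by
  have h : L.a.reverse.Pairwise (· < ·) := by
    rw [List.pairwise_reverse]
    exact L.a_strict
  rw [List.getD_eq_getElem _ _ (hij.trans hj), List.getD_eq_getElem _ _ hj]
  exact List.pairwise_iff_getElem.1 h i j _ _ hij

theorem dEta_split_pos {n m : ℕ} (L : SuperPartition n m) (i : ℕ)
    (hi : i < L.s.reverse.length) : 0 < L.s.reverse.getD i 0 := by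
  rw [List.getD_eq_getElem _ _ hi]
  exact L.s_pos _ (List.mem_reverse.1 (List.getElem_mem _))

theorem dEta_split_len (l : List ℕ) (h : ∀ i ∈ l, 0 < i) : l.length ≤ l.sum := by
  induction l with
  | nil => simp
  | cons a t ih =>
    have h1 := ih fun i hi => h i (List.mem_cons_of_mem _ hi)
    have h2 := h a List.mem_cons_self
    rw [List.length_cons, List.sum_cons]
    omega

theorem dEta_split_row1 (N n m : ℕ) (hN : n + m ≤ N) (L : SuperPartition n m) (i j : ℕ)
    (hi : i < L.s.reverse.length) (hj : j < L.s.reverse.getD i 0 - 1) :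
    ((range i).filter (fun k => j ≤ etaOf L k ∧ etaOf L k < etaOf L i)).card
      = nI L.s (j + 1) (L.s.reverse.getD i 0) ∧
    ((Ioo i N).filter (fun k => j < etaOf L k ∧ etaOf L k ≤ etaOf L i)).card
      = ((Ioo i L.s.reverse.length).filter
          (fun k => L.s.reverse.getD k 0 = L.s.reverse.getD i 0)).card
        + nI L.a (j + 1) (L.s.reverse.getD i 0) := by
  have hei := dEta_split_eta_lt L i hi
  constructor
  · rw [← dEta_split_rev, ← dEta_split_nI]
    congr 1
    ext x
    simp only [mem_filter, mem_range]
    constructor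
    · rintro ⟨hx, h1, h2⟩
      have hx' : x < L.s.reverse.length := hx.trans hi
      rw [dEta_split_eta_lt L x hx'] at h1 h2
      rw [hei] at h2
      have := dEta_split_pos L x hx'
      refine ⟨hx', ?_, ?_⟩ <;> omega
    · rintro ⟨hx', h1, h2⟩
      have hx : x < i := by
        by_contra hx
        rcases Nat.lt_or_ge i x with h | h
        · have := dEta_split_S L i x h hx'
          omega
        · have : x = i := by omega
          subst this
          omega
      rw [dEta_split_eta_lt L x hx', hei]
      refine ⟨hx, ?_, ?_⟩ <;> omega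
  · have hlen : L.s.reverse.length + L.a.reverse.length ≤ N := by
      have h1 := dEta_split_len L.s L.s_pos
      have h2 := L.sum_eq
      have h3 := L.a_length
      simp only [List.length_reverse]
      omega
    have h1 : (Ioo i N).filter (fun k => j < etaOf L k ∧ etaOf L k ≤ etaOf L i)
        = (range (L.s.reverse.length + L.a.reverse.length)).filter
          (fun k => i < k ∧ j < etaOf L k ∧ etaOf L k ≤ etaOf L i) := by
      ext x
      simp only [mem_filter, mem_Ioo, mem_range]
      constructor
      · rintro ⟨⟨h1, h2⟩, h3, h4⟩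
        refine ⟨?_, h1, h3, h4⟩
        by_contra h5
        have h6 : etaOf L x = 0 := by
          obtain ⟨y, rfl⟩ : ∃ y, x = L.s.reverse.length + y := ⟨x - L.s.reverse.length, by omega⟩
          rw [dEta_split_eta_add, List.getD_eq_default]
          omega
        omega
      · rintro ⟨h1, h2, h3, h4⟩
        exact ⟨⟨h2, by omega⟩, h3, h4⟩
    rw [h1, dEta_split_add]
    congr 1
    · congr 1
      ext x
      simp only [mem_filter, mem_Ioo, mem_range]
      constructor
      · rintro ⟨h1, h2, h3, h4⟩
        have := dEta_split_S L i x h2 h1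
        have h5 := dEta_split_pos L x h1
        have h6 := dEta_split_pos L i hi
        rw [dEta_split_eta_lt L x h1, hei] at h4
        refine ⟨⟨h2, h1⟩, by omega⟩
      · rintro ⟨⟨h2, h1⟩, h3⟩
        rw [dEta_split_eta_lt L x h1, hei, h3]
        exact ⟨h1, h2, hj, le_rfl⟩
    · rw [← dEta_split_rev, ← dEta_split_nI]
      congr 1
      ext x
      simp only [mem_filter, mem_range]
      rw [dEta_split_eta_add, hei]
      have h6 := dEta_split_pos L i hi
      constructor
      · rintro ⟨h1, h2, h3, h4⟩
        refine ⟨h1, ?_, ?_⟩ <;> omega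
      · rintro ⟨h1, h2, h3⟩
        refine ⟨h1, ?_, ?_, ?_⟩ <;> omega

theorem dEta_split_row2 (N n m : ℕ) (L : SuperPartition n m) (i j : ℕ)
    (hi : i < L.a.reverse.length) (hj : j < L.a.reverse.getD i 0) :
    ((range (L.s.reverse.length + i)).filter (fun k => j ≤ etaOf L k ∧
        etaOf L k < etaOf L (L.s.reverse.length + i))).card
      = nI L.s (j + 1) (L.a.reverse.getD i 0 + 1) + nI L.a j (L.a.reverse.getD i 0) ∧
    ((Ioo (L.s.reverse.length + i) N).filter (fun k => j < etaOf L k ∧
        etaOf L k ≤ etaOf L (L.s.reverse.length + i))).card = 0 := by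
  have hei := dEta_split_eta_add L i
  constructor
  · rw [dEta_split_add]
    congr 1
    · rw [← dEta_split_rev, ← dEta_split_nI]
      congr 1
      ext x
      simp only [mem_filter, mem_range]
      constructor
      · rintro ⟨h1, h2, h3⟩
        have h5 := dEta_split_pos L x h1
        rw [dEta_split_eta_lt L x h1] at h2 h3
        rw [hei] at h3
        refine ⟨h1, ?_, ?_⟩ <;> omega
      · rintro ⟨h1, h2, h3⟩
        have h5 := dEta_split_pos L x h1
        rw [dEta_split_eta_lt L x h1, hei]
        refine ⟨h1, ?_, ?_⟩ <;> omega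
    · rw [← dEta_split_rev, ← dEta_split_nI]
      congr 1
      ext x
      simp only [mem_filter, mem_range]
      rw [hei, dEta_split_eta_add]
      constructor
      · rintro ⟨h1, h2, h3⟩
        exact ⟨h1.trans hi, h2, h3⟩
      · rintro ⟨h1, h2, h3⟩
        refine ⟨?_, h2, h3⟩
        by_contra hx
        rcases Nat.lt_or_ge i x with h | h
        · have := dEta_split_A L i x h h1
          omega
        · have : x = i := by omega
          subst this
          omega
  · rw [Finset.card_eq_zero, Finset.filter_eq_empty_iff]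
    intro x hx
    rw [mem_Ioo] at hx
    obtain ⟨y, rfl⟩ : ∃ y, x = L.s.reverse.length + y := ⟨x - L.s.reverse.length, by omega⟩
    rw [hei, dEta_split_eta_add]
    rintro ⟨h1, h2⟩
    by_cases hy : y < L.a.reverse.length
    · have := dEta_split_A L i y (by omega) hy
      omega
    · rw [List.getD_eq_default _ _ (by omega)] at h1
      omega

theorem dEta_split_nodup (l : List ℕ) (hl : l.Nodup) (f : ℕ → K) :
    ∏ i ∈ range l.length, f (l.getD i 0) = ∏ v ∈ l.toFinset, f v := by
  induction l with
  | nil => simp
  | cons a t ih =>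
    rw [List.nodup_cons] at hl
    rw [List.length_cons, Finset.prod_range_succ', List.toFinset_cons,
      Finset.prod_insert (by simpa using hl.1)]
    simp only [List.getD_cons_succ, List.getD_cons_zero]
    rw [ih hl.2, mul_comm]

/-- HINT: `η = etaOf L` has rows `i<k` (`k = L.s.length`): `s.reverse_i - 1` (increasing), rows `k+i`: `a.reverse_i`
(strictly increasing), zero beyond (also `k + m ≤ N` because each part of `s` is positive: `k ≤ n`). For row `i<k`, with
`v = s.reverse_i`, `j < v-1`: `#{i'<i : j ≤ η_{i'} < η_i} = #{i' < i : j < v_{i'} < v} = nI s (j+1) v`,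
`#{i'>i, i'<k : j < η_{i'} ≤ η_i} = #{i < i' < k : v_{i'} = v} =: q`, `#{p ∈ a : j < p ≤ v-1} = nI a (j+1) v`; then
`prod_sorted_inc` for `l = s.reverse`. For row `k+i` with `p = a.reverse_i`: `#{i'<k : j ≤ η_{i'} < p} =
#{v : j < v ≤ p} = nI s (j+1) (p+1)`, `#{i'<i : j ≤ p_{i'} < p} = nI a j p`, nothing after. -/
theorem dEta_split (N n m : ℕ) (hN : n + m ≤ N) (L : SuperPartition n m) :
    (dEta N (etaOf L) : K) =
      (∏ v ∈ L.a.toFinset, ∏ j ∈ range v,
        (al * ((v - j : ℕ) : K) + 1 + (nI L.a j v : K) + (nI L.s (j + 1) (v + 1) : K))) *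
      (∏ v ∈ L.s.toFinset, ∏ q ∈ range (L.s.count v), ∏ j ∈ range (v - 1),
        (al * ((v - 1 - j : ℕ) : K) + 1 + (nI L.a (j + 1) v : K) + (nI L.s (j + 1) v : K) + (q : K))) := by
  have hlen : L.s.reverse.length + L.a.reverse.length ≤ N := by
    have h1 := dEta_split_len L.s L.s_pos
    have h2 := L.sum_eq
    have h3 := L.a_length
    simp only [List.length_reverse]
    omega
  unfold dEta
  obtain ⟨c, hc⟩ : ∃ c, N = L.s.reverse.length + L.a.reverse.length + c :=
    ⟨N - (L.s.reverse.length + L.a.reverse.length), by omega⟩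
  have hr : range N = range (L.s.reverse.length + L.a.reverse.length + c) := by rw [← hc]
  rw [hr, Finset.prod_range_add, Finset.prod_range_add]
  have h3 : ∀ x ∈ range c, ∏ j ∈ range (etaOf L (L.s.reverse.length + L.a.reverse.length + x)),
      ((al : K) * ((etaOf L (L.s.reverse.length + L.a.reverse.length + x) - j : ℕ) : K) + 1
    + (((range (L.s.reverse.length + L.a.reverse.length + x)).filter (fun k => j ≤ etaOf L k ∧
        etaOf L k < etaOf L (L.s.reverse.length + L.a.reverse.length + x))).card : K)
    + (((Ioo (L.s.reverse.length + L.a.reverse.length + x) N).filter (fun k => j < etaOf L k ∧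
        etaOf L k ≤ etaOf L (L.s.reverse.length + L.a.reverse.length + x))).card : K)) = 1 := by
    intro x _
    have h6 : etaOf L (L.s.reverse.length + L.a.reverse.length + x) = 0 := by
      rw [add_assoc, dEta_split_eta_add, List.getD_eq_default]
      omega
    rw [h6]
    simp
  rw [Finset.prod_eq_one h3, mul_one, mul_comm]
  congr 1
  · have h4 : ∀ i ∈ range L.a.reverse.length,
      ∏ j ∈ range (etaOf L (L.s.reverse.length + i)),
      ((al : K) * ((etaOf L (L.s.reverse.length + i) - j : ℕ) : K) + 1
    + (((range (L.s.reverse.length + i)).filter (fun k => j ≤ etaOf L k ∧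
        etaOf L k < etaOf L (L.s.reverse.length + i))).card : K)
    + (((Ioo (L.s.reverse.length + i) N).filter (fun k => j < etaOf L k ∧
        etaOf L k ≤ etaOf L (L.s.reverse.length + i))).card : K))
      = (fun v => ∏ j ∈ range v,
        ((al : K) * ((v - j : ℕ) : K) + 1 + (nI L.a j v : K) + (nI L.s (j + 1) (v + 1) : K)))
        (L.a.reverse.getD i 0) := by
      intro i hi
      rw [mem_range] at hi
      simp only []
      rw [dEta_split_eta_add]
      refine Finset.prod_congr rfl fun j hj => ?_
      rw [mem_range] at hj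
      obtain ⟨h1, h2⟩ := dEta_split_row2 N n m L i j hi hj
      rw [dEta_split_eta_add] at h1 h2
      rw [h1, h2]
      push_cast
      ring
    have hnd : L.a.reverse.Nodup := by
      rw [List.nodup_reverse]
      exact L.a_strict.imp (fun h => ne_of_gt h)
    rw [Finset.prod_congr rfl h4, dEta_split_nodup L.a.reverse hnd (fun v => ∏ j ∈ range v,
        ((al : K) * ((v - j : ℕ) : K) + 1 + (nI L.a j v : K) + (nI L.s (j + 1) (v + 1) : K))),
      List.toFinset_reverse]
  · have h4 : ∀ i ∈ range L.s.reverse.length,
      ∏ j ∈ range (etaOf L i),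
      ((al : K) * ((etaOf L i - j : ℕ) : K) + 1
    + (((range i).filter (fun k => j ≤ etaOf L k ∧ etaOf L k < etaOf L i)).card : K)
    + (((Ioo i N).filter (fun k => j < etaOf L k ∧ etaOf L k ≤ etaOf L i)).card : K))
      = (fun v q => ∏ j ∈ range (v - 1),
        ((al : K) * ((v - 1 - j : ℕ) : K) + 1 + (nI L.a (j + 1) v : K) + (nI L.s (j + 1) v : K) + (q : K)))
        (L.s.reverse.getD i 0) ((Ioo i L.s.reverse.length).filter
          (fun k => L.s.reverse.getD k 0 = L.s.reverse.getD i 0)).card := by
      intro i hi
      rw [mem_range] at hi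
      simp only []
      rw [dEta_split_eta_lt L i hi]
      refine Finset.prod_congr rfl fun j hj => ?_
      rw [mem_range] at hj
      obtain ⟨h1, h2⟩ := dEta_split_row1 N n m hN L i j hi hj
      rw [dEta_split_eta_lt L i hi] at h1 h2
      rw [h1, h2]
      push_cast
      ring
    rw [Finset.prod_congr rfl h4]
    rw [prod_sorted_inc L.s.reverse (by rw [List.pairwise_reverse]; exact L.s_weak)
      (fun v q => ∏ j ∈ range (v - 1),
        ((al : K) * ((v - 1 - j : ℕ) : K) + 1 + (nI L.a (j + 1) v : K) + (nI L.s (j + 1) v : K) + (q : K)))]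
    rw [List.toFinset_reverse]
    simp only [List.count_reverse]
end JSup
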