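import Pool.Agent.Helper204.JS.Stmt
import Pool.Agent.Helper204.JS.Defs
import Pool.Agent.Helper204.JS.Defs1
import Pool.Agent.Helper204.JS.Defs2
import Pool.Agent.Helper204.JS.Defs3
import Pool.Agent.Helper204.JS.Defs4
import Pool.Agent.Helper204.JS.P_mono_Th
import Pool.Agent.Helper204.JS.P_psi_exists
import Pool.Agent.Helper204.JS.P_ysym_coeff

set_option linter.unusedSectionVars false

open MvPolynomial Finset

noncomputable section

namespace JSup
variable {K : Type} [Field K] [CharZero K] [Par K]



theorem varsLt_19181 (N n m : ℕ) (hN : n + m ≤ N) (W : SuperPartition n m) :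
    VarsLt N (monomial (partF W) (1 : K)) := by
  intro k hk
  rw [vars_monomial one_ne_zero, Finsupp.mem_support_iff] at hk
  by_contra hcon
  apply hk
  rw [partF_apply]
  unfold SuperPartition.part
  apply List.getD_eq_default
  rw [List.length_append, W.a_length]
  have h1 : W.s.length ≤ W.s.sum := List.length_le_sum_of_one_le _ fun i hi => W.s_pos i hi
  have h2 := W.sum_eq
  omega

theorem autL_ne_19181 (N n m : ℕ) (W : SuperPartition n m) : (autL N W : K) ≠ 0 := by
  have h : autL N W ≠ 0 := by
    unfold autL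
    exact mul_ne_zero (Nat.factorial_ne_zero _)
      (Finset.prod_ne_zero_iff.2 fun k _ => Nat.factorial_ne_zero _)
  exact_mod_cast h

/-- HINT: apply `ψ` of `psi_exists` and take coefficients: by `mono_Th`, `ysym_coeff`:
`coeff (partF V) (ψ (mono K N W)) = δ_{VW}` (`autL ≠ 0`). -/
theorem mono_indep (N n m : ℕ) (hN : n + m ≤ N) (r : SuperPartition n m →₀ K)
    (h : (r.sum fun W x => x • mono K N W) = 0) : r = 0 := by
  obtain ⟨ψ, hψ⟩ := psi_exists (K := K) N m (by omega)
  ext V
  have hval : ∀ W : SuperPartition n m, coeff (partF V) (ψ (mono K N W)) = if V = W then 1 else 0 := by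
    intro W
    rw [mono_Th N n m hN W, map_smul, hψ _ (varsLt_19181 N n m hN W), coeff_smul,
      ysym_coeff N n m hN W V]
    split_ifs
    · rw [smul_eq_mul, inv_mul_cancel₀ (autL_ne_19181 N n m W)]
    · rw [smul_zero]
  have h2 : coeff (partF V) (ψ (r.sum fun W x => x • mono K N W)) = 0 := by
    rw [h, map_zero, coeff_zero]
  rw [Finsupp.sum, map_sum, coeff_sum] at h2
  rw [Finsupp.zero_apply, ← h2]
  have h3 : ∀ W ∈ r.support, coeff (partF V) (ψ (r W • mono K N W)) = if V = W then r W else 0 := by
    intro W _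
    rw [map_smul, coeff_smul, hval, smul_eq_mul]
    split_ifs
    · rw [mul_one]
    · rw [mul_zero]
  rw [Finset.sum_congr rfl h3, Finset.sum_ite_eq]
  split_ifs with hV
  · rfl
  · exact Finsupp.notMem_support_iff.1 hV

end JSup
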