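import Pool.Agent.Helper204.JS.Stmt
import Pool.Agent.Helper204.JS.Defs
import Pool.Agent.Helper204.JS.Defs1
import Pool.Agent.Helper204.JS.Defs2
import Pool.Agent.Helper204.JS.Defs3

set_option linter.unusedSectionVars false

open MvPolynomial Finset

noncomputable section

namespace JSup
variable {K : Type} [Field K] [CharZero K] [Par K]



theorem j18594_esymm_mem (r : ℕ) :
    ∀ k : ℕ, esymm (Fin r) K k ∈
      Algebra.adjoin K (Set.range (fun k : ℕ => psum (Fin r) K (k + 1))) := by
  intro k
  induction k using Nat.strong_induction_on with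
  | _ k ih =>
    rcases Nat.eq_zero_or_pos k with hk | hk
    · subst hk
      rw [esymm_zero]
      exact Subalgebra.one_mem _
    · have h := MvPolynomial.mul_esymm_eq_sum (Fin r) K k
      have h1 : (k : MvPolynomial (Fin r) K) * esymm (Fin r) K k ∈
          Algebra.adjoin K (Set.range (fun k : ℕ => psum (Fin r) K (k + 1))) := by
        rw [h]
        apply Subalgebra.mul_mem
        · exact Subalgebra.pow_mem _ (Subalgebra.neg_mem _ (Subalgebra.one_mem _)) _
        · apply Subalgebra.sum_mem
          intro a ha
          rw [Finset.mem_filter, Finset.HasAntidiagonal.mem_antidiagonal] at ha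
          obtain ⟨ha1, ha2⟩ := ha
          apply Subalgebra.mul_mem
          · apply Subalgebra.mul_mem
            · exact Subalgebra.pow_mem _ (Subalgebra.neg_mem _ (Subalgebra.one_mem _)) _
            · exact ih _ ha2
          · apply Algebra.subset_adjoin
            refine ⟨a.2 - 1, ?_⟩
            have : a.2 - 1 + 1 = a.2 := by omega
            simp only [this]
      have hk0 : (k : K) ≠ 0 := by
        exact_mod_cast hk.ne'
      have h2 : esymm (Fin r) K k =
          ((k : K)⁻¹) • ((k : MvPolynomial (Fin r) K) * esymm (Fin r) K k) := by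
        have h3 : (k : MvPolynomial (Fin r) K) = C (k : K) := by simp
        rw [h3, ← smul_eq_C_mul, smul_smul, inv_mul_cancel₀ hk0, one_smul]
      rw [h2]
      exact Subalgebra.smul_mem _ h1 _

/-- HINT: symmetric polynomials are generated by the elementary ones (`MvPolynomial.esymmAlgHom_surjective` /
`esymmAlgEquiv`), and in characteristic 0 by Newton (`MvPolynomial.mul_esymm_eq_sum`) each `esymm (k)` (`k ≥ 1`) lies in the
algebra generated by the power sums `psum (j)`, `1 ≤ j ≤ k` (strong induction on `k`). -/
theorem psum_gen (r : ℕ) (g : MvPolynomial (Fin r) K) (hg : g.IsSymmetric) :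
    g ∈ Algebra.adjoin K (Set.range (fun k : ℕ => psum (Fin r) K (k + 1))) := by
  obtain ⟨p, hp⟩ := MvPolynomial.esymmAlgHom_surjective (σ := Fin r) (R := K) (n := r)
    (by simp) ⟨g, hg⟩
  have h1 : g = ((esymmAlgHom (Fin r) K r p : symmetricSubalgebra (Fin r) K) :
      MvPolynomial (Fin r) K) := by rw [hp]
  have h2 : g = aeval (fun i : Fin r ↦ esymm (Fin r) K (i + 1)) p := by
    rw [h1]
    exact esymmAlgHom_apply p
  rw [h2]
  clear h1 h2 hp
  induction p using MvPolynomial.induction_on with
  | C a =>
    rw [← algebraMap_eq, AlgHom.commutes]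
    exact Subalgebra.algebraMap_mem _ _
  | add p q hp hq =>
    rw [map_add]
    exact Subalgebra.add_mem _ hp hq
  | mul_X p i hp =>
    rw [map_mul, aeval_X]
    exact Subalgebra.mul_mem _ hp (j18594_esymm_mem r _)

end JSup
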