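import Pool.Agent.Helper204.JS.Stmt
import Pool.Agent.Helper204.JS.Defs
import Pool.Agent.Helper204.JS.Defs1
import Pool.Agent.Helper204.JS.Defs2
import Pool.Agent.Helper204.JS.Defs3
import Pool.Agent.Helper204.JS.P_psum_gen

set_option linter.unusedSectionVars false

open MvPolynomial Finset

noncomputable section

namespace JSup
variable {K : Type} [Field K] [CharZero K] [Par K]



/-- the target subalgebra -/
def spA (N m : ℕ) : Subalgebra K (MvPolynomial ℕ K) :=
  (MvPolynomial.supported K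
    {v : ℕ ⊕ ℕ | (∃ i, i < m ∧ v = Sum.inl i) ∨ (∃ k, 1 ≤ k ∧ v = Sum.inr k)}).map (ev N)

theorem spA_X (N m i : ℕ) (hi : i < m) : (X i : MvPolynomial ℕ K) ∈ spA (K := K) N m := by
  refine ⟨X (Sum.inl i), ?_, ?_⟩
  · show (X (Sum.inl i) : MvPolynomial (ℕ ⊕ ℕ) K) ∈ MvPolynomial.supported K _
    exact MvPolynomial.X_mem_supported.2 (Or.inl ⟨i, hi, rfl⟩)
  · show ev N (X (Sum.inl i)) = X i
    simp [ev]

theorem spA_p (N m k : ℕ) (hk : 1 ≤ k) :
    (∑ j ∈ range N, X j ^ k : MvPolynomial ℕ K) ∈ spA (K := K) N m := by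
  refine ⟨X (Sum.inr k), ?_, ?_⟩
  · show (X (Sum.inr k) : MvPolynomial (ℕ ⊕ ℕ) K) ∈ MvPolynomial.supported K _
    exact MvPolynomial.X_mem_supported.2 (Or.inr ⟨k, hk, rfl⟩)
  · show ev N (X (Sum.inr k)) = _
    simp [ev]

theorem spA_q (N m k : ℕ) (hm : m ≤ N) (hk : 1 ≤ k) :
    (∑ j ∈ Ico m N, X j ^ k : MvPolynomial ℕ K) ∈ spA (K := K) N m := by
  rw [Finset.sum_Ico_eq_sub _ hm]
  refine sub_mem (spA_p N m k hk) (sum_mem fun j hj => pow_mem (spA_X N m j (mem_range.1 hj)) k)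

theorem spA_sym (N m : ℕ) (hm : m ≤ N) (g : MvPolynomial (Fin (N - m)) K) (hg : g.IsSymmetric) :
    rename (fun j : Fin (N - m) => m + (j : ℕ)) g ∈ spA (K := K) N m := by
  have h1 := psum_gen (N - m) g hg
  have h2 : Algebra.adjoin K (Set.range (fun k : ℕ => psum (Fin (N - m)) K (k + 1))) ≤
      (spA (K := K) N m).comap (rename (fun j : Fin (N - m) => m + (j : ℕ))) := by
    refine Algebra.adjoin_le ?_
    rintro _ ⟨k, rfl⟩
    rw [SetLike.mem_coe, Subalgebra.mem_comap]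
    have h3 : rename (fun j : Fin (N - m) => m + (j : ℕ)) (psum (Fin (N - m)) K (k + 1)) =
        (∑ j ∈ Ico m N, X j ^ (k + 1) : MvPolynomial ℕ K) := by
      rw [psum, map_sum, Finset.sum_Ico_eq_sum_range, Finset.sum_range]
      refine Finset.sum_congr rfl fun j _ => ?_
      rw [map_pow, rename_X]
    rw [h3]
    exact spA_q N m (k + 1) hm (by omega)
  exact h2 h1

theorem spA_mono (N m : ℕ) (hm : m ≤ N) (w : Equiv.Perm (Fin (N - m))) (d : ℕ →₀ ℕ)
    (hd : ∀ i, N ≤ i → d i = 0) (c : K) :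
    rename (emb m (N - m) w) (monomial d c) = C c * ((∏ i ∈ range m, X i ^ d i) *
      rename (fun j : Fin (N - m) => m + (j : ℕ)) (rename w (∏ j : Fin (N - m), X j ^ d (m + (j : ℕ))))) := by
  rw [monomial_eq]
  have h1 : (d.prod fun n e => (X n : MvPolynomial ℕ K) ^ e) = ∏ i ∈ range N, X i ^ d i := by
    refine Finsupp.prod_of_support_subset d ?_ _ (by simp)
    intro i hi
    rw [mem_range]
    by_contra h
    exact (Finsupp.mem_support_iff.1 hi) (hd i (by omega))
  have h2 : ∏ i ∈ Ico m N, (X i : MvPolynomial ℕ K) ^ d i =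
      ∏ j : Fin (N - m), X (m + (j : ℕ)) ^ d (m + (j : ℕ)) := by
    rw [Finset.prod_Ico_eq_prod_range, Finset.prod_range]
  rw [h1, ← Finset.prod_range_mul_prod_Ico _ hm, h2]
  rw [map_mul, map_mul, map_prod, map_prod, map_prod, map_prod, rename_C]
  congr 1
  congr 1
  · refine Finset.prod_congr rfl fun i hi => ?_
    rw [map_pow, rename_X, emb_out m (N - m) w i (Or.inl (mem_range.1 hi))]
  · refine Finset.prod_congr rfl fun j _ => ?_
    rw [map_pow, map_pow, map_pow, rename_X, rename_X, rename_X, emb_in]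

/-- HINT: view `f` as a polynomial in `x_0..x_{m-1}` with coefficients in `K[x_m..x_{N-1}]`: `f = Σ_b x^b g_b`; symmetry of `f`
in `x_m..x_{N-1}` gives symmetry of each `g_b`, so `g_b` is a polynomial in `q_k = Σ_{m≤j<N} x_j^k` (`psum_gen`, rename
`Fin (N-m)` to `[m,N)`), and `q_k = p_k - Σ_{j<m} x_j^k`, `k ≥ 1`, is `ev N` of `X (inr k) - Σ_{j<m} X (inl j)^k`. (One way to
get the decomposition: `MvPolynomial.sumAlgEquiv` after renaming `Fin N ≃ Fin m ⊕ Fin (N-m)`; another: define, for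
`b : ℕ →₀ ℕ` supported on `[0,m)`, `g_b = Σ over exponents d of f with d|_{[0,m)} = b` of `f_d x^{d|_{[m,N)}}`.) -/
theorem span1 (N m : ℕ) (hm : m ≤ N) (f : MvPolynomial ℕ K) (h1 : SymOn m N f) (h2 : VarsLt N f) :
    ∃ G : MvPolynomial (ℕ ⊕ ℕ) K, ev N G = f ∧
      (∀ v ∈ G.vars, (∃ i, i < m ∧ v = Sum.inl i) ∨ (∃ k, 1 ≤ k ∧ v = Sum.inr k)) := by
  suffices h : f ∈ spA (K := K) N m by
    obtain ⟨G, hG, hGf⟩ := h
    refine ⟨G, hGf, fun v hv => ?_⟩
    exact (MvPolynomial.mem_supported.1 (show G ∈ MvPolynomial.supported K _ from hG)) hv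
  have hd : ∀ d ∈ f.support, ∀ i, N ≤ i → d i = 0 := by
    intro d hd i hi
    by_contra h
    have h3 : i ∈ f.vars := (MvPolynomial.mem_vars i).2 ⟨d, hd, Finsupp.mem_support_iff.2 h⟩
    exact absurd (h2 i h3) (by omega)
  have hfix : ∀ w : Equiv.Perm (Fin (N - m)), rename (emb m (N - m) w) f = f := by
    intro w
    apply h1
    intro k hk
    exact emb_out m (N - m) w k (by omega)
  have hcard : ((Fintype.card (Equiv.Perm (Fin (N - m))) : ℕ) : K) ≠ 0 := by
    rw [Nat.cast_ne_zero]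
    exact Fintype.card_ne_zero
  have hsum : f = ((Fintype.card (Equiv.Perm (Fin (N - m))) : ℕ) : K)⁻¹ •
      ∑ w : Equiv.Perm (Fin (N - m)), rename (emb m (N - m) w) f := by
    simp only [hfix]
    rw [Finset.sum_const, Finset.card_univ, ← Nat.cast_smul_eq_nsmul K, smul_smul,
      inv_mul_cancel₀ hcard, one_smul]
  rw [hsum]
  refine Subalgebra.smul_mem _ ?_ _
  have hexp : ∀ w : Equiv.Perm (Fin (N - m)), rename (emb m (N - m) w) f =
      ∑ d ∈ f.support, C (coeff d f) * ((∏ i ∈ range m, X i ^ d i) *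
      rename (fun j : Fin (N - m) => m + (j : ℕ)) (rename w (∏ j : Fin (N - m), X j ^ d (m + (j : ℕ))))) := by
    intro w
    conv_lhs => rw [f.as_sum, map_sum]
    exact Finset.sum_congr rfl fun d hds => spA_mono N m hm w d (hd d hds) _
  simp only [hexp]
  rw [Finset.sum_comm]
  refine sum_mem fun d _ => ?_
  rw [← Finset.mul_sum, ← Finset.mul_sum, ← map_sum]
  refine mul_mem ?_ (mul_mem ?_ ?_)
  · exact (spA (K := K) N m).algebraMap_mem (coeff d f)
  · exact prod_mem fun i hi => pow_mem (spA_X N m i (mem_range.1 hi)) _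
  · refine spA_sym N m hm _ ?_
    intro σ
    rw [map_sum]
    refine Fintype.sum_equiv (Equiv.mulLeft σ) _ _ fun w => ?_
    rw [rename_rename]
    rfl

end JSup
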