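import Pool.Agent.Helper204.JS.Stmt
import Pool.Agent.Helper204.JS.Defs
import Pool.Agent.Helper204.JS.Defs1
import Pool.Agent.Helper204.JS.Defs2
import Pool.Agent.Helper204.JS.Defs3
import Pool.Agent.Helper204.JS.P_span1

set_option linter.unusedSectionVars false

open MvPolynomial Finset

noncomputable section

namespace JSup
variable {K : Type} [Field K] [CharZero K] [Par K]



theorem span2_homog (N : ℕ) (d : (ℕ ⊕ ℕ) →₀ ℕ) (c : K) :
    (ev N (monomial d c) : MvPolynomial ℕ K).IsHomogeneous
      (d.sum (fun v c => Sum.elim (fun _ => c) (fun k => k * c) v)) := by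
  unfold ev
  rw [aeval_monomial]
  have h0 : (algebraMap K (MvPolynomial ℕ K) c).IsHomogeneous 0 := isHomogeneous_C _ _
  have h1 : (d.prod fun i k => (Sum.elim (fun i => (X i : MvPolynomial ℕ K))
      (fun k => ∑ j ∈ range N, X j ^ k) i) ^ k).IsHomogeneous
      (d.sum (fun v c => Sum.elim (fun _ => c) (fun k => k * c) v)) := by
    unfold Finsupp.prod Finsupp.sum
    refine IsHomogeneous.prod _ _ _ ?_
    intro v _
    rcases v with i | k
    · simp only [Sum.elim_inl]
      have := (isHomogeneous_X K i).pow (d (Sum.inl i))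
      rwa [one_mul] at this
    · simp only [Sum.elim_inr]
      refine IsHomogeneous.pow ?_ _
      refine IsHomogeneous.sum _ _ _ ?_
      intro j _
      have := (isHomogeneous_X K j).pow k
      rwa [one_mul] at this
  have h2 := h0.mul h1
  rwa [zero_add] at h2

/-- HINT: take `G` from `span1` and its weighted homogeneous component of weight `n` (weights `inl i ↦ 1`, `inr k ↦ k`):
`ev N (monomial d 1)` is homogeneous of degree the weight of `d`, so `ev N` of the weight-`n` part of `G` is the
homogeneous component of degree `n` of `f`, i.e. `f`. -/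
theorem span2 (N m n : ℕ) (hm : m ≤ N) (f : MvPolynomial ℕ K) (h1 : SymOn m N f) (h2 : VarsLt N f)
    (h3 : f.IsHomogeneous n) : ∃ G : MvPolynomial (ℕ ⊕ ℕ) K, ev N G = f ∧ AdmP m n G := by
  classical
  obtain ⟨G, hG, hv⟩ := span1 N m hm f h1 h2
  obtain ⟨wt, hwt⟩ : ∃ wt : ((ℕ ⊕ ℕ) →₀ ℕ) → ℕ, ∀ d, wt d =
    d.sum (fun v c => Sum.elim (fun _ => c) (fun k => k * c) v) := ⟨_, fun _ => rfl⟩
  have hhom : ∀ (d : (ℕ ⊕ ℕ) →₀ ℕ) (c : K),
      (ev N (monomial d c) : MvPolynomial ℕ K).IsHomogeneous (wt d) := by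
    intro d c
    rw [hwt]
    exact span2_homog N d c
  refine ⟨∑ d ∈ G.support with wt d = n, monomial d (coeff d G), ?_, ?_⟩
  · have e1 : f = homogeneousComponent n f := by
      rw [homogeneousComponent_of_mem h3, if_pos rfl]
    rw [e1, ← hG]
    conv_rhs => rw [G.as_sum]
    rw [map_sum, map_sum, map_sum, Finset.sum_filter]
    refine Finset.sum_congr rfl fun d _ => ?_
    rw [homogeneousComponent_of_mem (hhom d _)]
    by_cases h : wt d = n
    · rw [if_pos h, if_pos h.symm]
    · rw [if_neg h, if_neg (fun h' => h h'.symm)]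
  · intro d hd
    rw [mem_support_iff, coeff_sum] at hd
    obtain ⟨e, he, hne⟩ := Finset.exists_ne_zero_of_sum_ne_zero hd
    rw [coeff_monomial] at hne
    have hed : e = d := by
      by_contra hcon
      rw [if_neg hcon] at hne
      exact hne rfl
    subst hed
    obtain ⟨he1, he2⟩ := Finset.mem_filter.1 he
    have hvar : ∀ v, e v ≠ 0 → v ∈ G.vars := by
      intro v hv0
      rw [mem_vars]
      exact ⟨e, he1, Finsupp.mem_support_iff.2 hv0⟩
    refine ⟨?_, ?_, ?_⟩
    · intro i hi
      by_contra hcon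
      rcases hv _ (hvar _ hcon) with ⟨i', hi', h4⟩ | ⟨k, _, h4⟩
      · have := Sum.inl.inj h4
        omega
      · exact absurd h4 (by simp)
    · by_contra hcon
      rcases hv _ (hvar _ hcon) with ⟨i', hi', h4⟩ | ⟨k, hk, h4⟩
      · exact absurd h4 (by simp)
      · have := Sum.inr.inj h4
        omega
    · rw [← hwt]
      exact he2

end JSup
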