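import Pool.Agent.Helper204.JS.Stmt
import Pool.Agent.Helper204.JS.Defs
import Pool.Agent.Helper204.JS.Defs1
import Pool.Agent.Helper204.JS.Defs2
import Pool.Agent.Helper204.JS.Defs3
import Pool.Agent.Helper204.JS.P_antT_facts
import Pool.Agent.Helper204.JS.P_alt_antis
import Pool.Agent.Helper204.JS.P_span2

set_option linter.unusedSectionVars false

open MvPolynomial Finset

noncomputable section

namespace JSup
variable {K : Type} [Field K] [CharZero K] [Par K]



/-- HINT: `span2`, replace `G` by `(m!)⁻¹ • antT m G` (`antT_facts`, `alt_antis`). -/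
theorem spanning (N m n : ℕ) (hm : m ≤ N) (f : MvPolynomial ℕ K) (hf : InU N m n f) :
    ∃ G : MvPolynomial (ℕ ⊕ ℕ) K, ev N G = f ∧ AdmP m n G ∧ AltT m G := by
  obtain ⟨halt, hsym, hhom, hvars⟩ := hf
  obtain ⟨G, hG, hA⟩ := span2 N m n hm f hsym hvars hhom
  obtain ⟨_, _, h3, h4, h5⟩ := antT_facts N m n hm G G
  have hfac : (m.factorial : K) ≠ 0 := by
    exact_mod_cast Nat.factorial_ne_zero m
  refine ⟨(m.factorial : K)⁻¹ • antT m G, ?_, ?_, ?_⟩
  · rw [map_smul, h5, hG, alt_antis m f halt, smul_smul, inv_mul_cancel₀ hfac, one_smul]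
  · intro d hd
    apply h4 hA d
    rw [MvPolynomial.mem_support_iff] at hd ⊢
    intro h0
    apply hd
    rw [MvPolynomial.coeff_smul, h0, smul_zero]
  · intro w
    rw [map_smul, h3 w, smul_comm]

end JSup
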