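import Pool.Agent.Helper204.JS.Stmt
import Pool.Agent.Helper204.JS.Defs
import Pool.Agent.Helper204.JS.Defs1
import Pool.Agent.Helper204.JS.Defs2
import Pool.Agent.Helper204.JS.Defs3
import Pool.Agent.Helper204.JS.Defs4

set_option linter.unusedSectionVars false

open MvPolynomial Finset

noncomputable section

namespace JSup
variable {K : Type} [Field K] [CharZero K] [Par K]


theorem yi_emb_lt {a m N : ℕ} (h : a + m ≤ N) (w : Equiv.Perm (Fin m)) {k : ℕ} (hk : k < N) :
    emb a m w k < N := by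
  by_cases h1 : k < a ∨ a + m ≤ k
  · rw [emb_out a m w k h1]; exact hk
  · push Not at h1
    obtain ⟨i, rfl⟩ : ∃ i, k = a + i := ⟨k - a, by omega⟩
    have h2 := emb_in a m w ⟨i, by omega⟩
    have h3 := (w ⟨i, by omega⟩).isLt
    have h4 : emb a m w (a + i) = a + (w ⟨i, by omega⟩ : ℕ) := h2
    rw [h4]
    omega

theorem yi_emb_ge {a m : ℕ} (w : Equiv.Perm (Fin m)) {k : ℕ} (hk : a ≤ k) :
    a ≤ emb a m w k := by
  by_cases h1 : k < a ∨ a + m ≤ k
  · rw [emb_out a m w k h1]; exact hk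
  · push Not at h1
    obtain ⟨i, rfl⟩ : ∃ i, k = a + i := ⟨k - a, by omega⟩
    have h4 : emb a m w (a + i) = a + (w ⟨i, by omega⟩ : ℕ) := emb_in a m w ⟨i, by omega⟩
    rw [h4]
    omega

theorem yi_comm (m r : ℕ) (w : Equiv.Perm (Fin m)) (u : Equiv.Perm (Fin r)) :
    emb m r u * emb 0 m w = emb 0 m w * emb m r u := by
  ext k
  rw [Equiv.Perm.mul_apply, Equiv.Perm.mul_apply]
  rcases Nat.lt_or_ge k m with hk | hk
  · rw [emb_out m r u k (Or.inl hk), emb_out m r u _ (Or.inl (yi_emb_lt (by omega) w hk))]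
  · have h1 := yi_emb_ge (m := r) u hk
    rw [emb_out 0 m w k (Or.inr (by omega)), emb_out 0 m w _ (Or.inr (by omega))]

theorem yi_swap {m i j : ℕ} (hi : i < m) (hj : j < m) :
    emb 0 m (Equiv.swap ⟨i, hi⟩ ⟨j, hj⟩) = Equiv.swap i j := by
  ext k
  rcases Nat.lt_or_ge k m with hk | hk
  · have h4 : emb 0 m (Equiv.swap ⟨i, hi⟩ ⟨j, hj⟩) (0 + k) =
        0 + ((Equiv.swap (⟨i, hi⟩ : Fin m) ⟨j, hj⟩) ⟨k, hk⟩ : ℕ) := emb_in 0 m _ ⟨k, hk⟩
    rw [zero_add, zero_add] at h4
    rw [h4, Equiv.swap_apply_def, Equiv.swap_apply_def]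
    simp only [Fin.mk.injEq]
    split_ifs <;> rfl
  · rw [emb_out 0 m _ k (Or.inr (by omega)), Equiv.swap_apply_of_ne_of_ne (by omega) (by omega)]

theorem yi_in {a b : ℕ} (σ : Equiv.Perm ℕ) (hσ : ∀ k, (k < a ∨ b ≤ k) → σ k = k) {k : ℕ}
    (hk : a ≤ k ∧ k < b) : a ≤ σ k ∧ σ k < b := by
  by_contra hc
  have h1 : σ k < a ∨ b ≤ σ k := by omega
  have h2 := σ.injective (hσ _ h1)
  omega

theorem yi_exists {a b : ℕ} (σ : Equiv.Perm ℕ) (hσ : ∀ k, (k < a ∨ b ≤ k) → σ k = k) :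
    ∃ u : Equiv.Perm (Fin (b - a)), emb a (b - a) u = σ := by
  have hσ' : ∀ k, (k < a ∨ b ≤ k) → σ.symm k = k := fun k hk => by
    rw [Equiv.symm_apply_eq, hσ k hk]
  have hin : ∀ i : Fin (b - a), a ≤ σ (a + i) ∧ σ (a + i) < b := fun i =>
    yi_in σ hσ (by have := i.isLt; omega)
  have hin' : ∀ i : Fin (b - a), a ≤ σ.symm (a + i) ∧ σ.symm (a + i) < b := fun i =>
    yi_in σ.symm hσ' (by have := i.isLt; omega)
  let u : Equiv.Perm (Fin (b - a)) :=
    { toFun := fun i => ⟨σ (a + i) - a, by have := hin i; omega⟩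
      invFun := fun i => ⟨σ.symm (a + i) - a, by have := hin' i; omega⟩
      left_inv := fun i => by
        apply Fin.ext
        show σ.symm (a + (σ (a + i) - a)) - a = i
        have h1 : a + (σ (a + i) - a) = σ (a + i) := by have := hin i; omega
        rw [h1, Equiv.symm_apply_apply]
        omega
      right_inv := fun i => by
        apply Fin.ext
        show σ (a + (σ.symm (a + i) - a)) - a = i
        have h1 : a + (σ.symm (a + i) - a) = σ.symm (a + i) := by have := hin' i; omega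
        rw [h1, Equiv.apply_symm_apply]
        omega }
  refine ⟨u, ?_⟩
  ext k
  by_cases h1 : k < a ∨ b ≤ k
  · rw [hσ k h1, emb_out a (b - a) u k (by omega)]
  · obtain ⟨i, rfl⟩ : ∃ i, k = a + i := ⟨k - a, by omega⟩
    have h4 : emb a (b - a) u (a + i) = a + (u ⟨i, by omega⟩ : ℕ) := emb_in a (b - a) u ⟨i, by omega⟩
    rw [h4]
    show a + (σ (a + i) - a) = σ (a + i)
    have := yi_in σ hσ (k := a + i) (by omega)
    omega

theorem yi_rename (σ τ : Equiv.Perm ℕ) (f : MvPolynomial ℕ K) :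
    rename σ (rename τ f) = rename (σ * τ : Equiv.Perm ℕ) f := by
  rw [rename_rename]
  rfl

theorem yi_vars_rename {N : ℕ} (σ : Equiv.Perm ℕ) (hσ : ∀ k, k < N → σ k < N)
    {f : MvPolynomial ℕ K} (hf : VarsLt N f) : VarsLt N (rename σ f) := by
  classical
  intro k hk
  have h1 := vars_rename σ f hk
  rw [Finset.mem_image] at h1
  obtain ⟨l, hl, rfl⟩ := h1
  exact hσ l (hf l hl)

theorem yi_vars_smul {N : ℕ} (c : K) {f : MvPolynomial ℕ K} (hf : VarsLt N f) :
    VarsLt N (c • f) := by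
  classical
  intro k hk
  rw [MvPolynomial.smul_eq_C_mul] at hk
  have h1 := vars_mul _ _ hk
  rw [vars_C, Finset.empty_union] at h1
  exact hf k h1

theorem yi_vars_sum {N : ℕ} {ι : Type*} (s : Finset ι) (f : ι → MvPolynomial ℕ K)
    (hf : ∀ i ∈ s, VarsLt N (f i)) : VarsLt N (∑ i ∈ s, f i) := by
  classical
  intro k hk
  have h1 := vars_sum_subset s f hk
  rw [Finset.mem_biUnion] at h1
  obtain ⟨i, hi, h2⟩ := h1
  exact hf i hi k h2

theorem ysym_inU (N m n : ℕ) (hm : m ≤ N) (f : MvPolynomial ℕ K) (h1 : f.IsHomogeneous n) (h2 : VarsLt N f) :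
    InU N m n (ysym N m f) := by
  refine ⟨?_, ?_, ?_, ?_⟩
  · intro i j _ hij hj
    have hi : i < m := by omega
    rw [ysym_apply, map_sum, ← Finset.sum_neg_distrib, ← yi_swap hi hj]
    set s : Equiv.Perm (Fin m) := Equiv.swap ⟨i, hi⟩ ⟨j, hj⟩ with hs
    have hsign : Equiv.Perm.sign s = -1 := Equiv.Perm.sign_swap (by
      intro h
      have := congrArg Fin.val h
      simp only at this
      omega)
    refine Fintype.sum_equiv (Equiv.mulLeft s) _ _ fun w => ?_
    rw [map_sum, ← Finset.sum_neg_distrib]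
    refine Finset.sum_congr rfl fun u _ => ?_
    rw [map_smul, yi_rename, ← mul_assoc, ← map_mul, Equiv.coe_mulLeft, Equiv.Perm.sign_mul, hsign]
    simp
  · intro σ hσ
    obtain ⟨u0, rfl⟩ := yi_exists σ hσ
    rw [ysym_apply, map_sum]
    refine Finset.sum_congr rfl fun w _ => ?_
    rw [map_sum]
    refine Fintype.sum_equiv (Equiv.mulLeft u0) _ _ fun u => ?_
    rw [map_smul, yi_rename, ← mul_assoc, yi_comm, mul_assoc, ← map_mul, Equiv.coe_mulLeft]
  · rw [ysym_apply]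
    refine IsHomogeneous.sum _ _ _ fun w _ => IsHomogeneous.sum _ _ _ fun u _ => ?_
    exact (homogeneousSubmodule ℕ K n).smul_mem _ (h1.rename_isHomogeneous)
  · rw [ysym_apply]
    refine yi_vars_sum _ _ fun w _ => yi_vars_sum _ _ fun u _ => yi_vars_smul _ ?_
    refine yi_vars_rename _ (fun k hk => ?_) h2
    rw [Equiv.Perm.mul_apply]
    exact yi_emb_lt (by omega) w (yi_emb_lt (by omega) u hk)

end JSup
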