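import Pool.Agent.Helper204.JS.Stmt
import Pool.Agent.Helper204.JS.Defs
import Pool.Agent.Helper204.JS.Defs1
import Pool.Agent.Helper204.JS.Defs2
import Pool.Agent.Helper204.JS.Defs3
import Pool.Agent.Helper204.JS.Defs4
import Pool.Agent.Helper204.JS.P_spanning
import Pool.Agent.Helper204.JS.P_mono_Th
import Pool.Agent.Helper204.JS.P_Th_perm
import Pool.Agent.Helper204.JS.P_ysym_inU
import Pool.Agent.Helper204.JS.P_Th_ev_class

set_option linter.unusedSectionVars false

open MvPolynomial Finset

noncomputable section

namespace JSup
variable {K : Type} [Field K] [CharZero K] [Par K]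



theorem h170_sum_getD (l : List ℕ) : ∑ i ∈ range l.length, l.getD i 0 = l.sum := by
  induction l with
  | nil => simp
  | cons x l ih =>
    rw [List.length_cons, Finset.sum_range_succ', List.sum_cons]
    simp only [List.getD_cons_succ, List.getD_cons_zero]
    rw [ih, add_comm]

theorem h170_len_le (l : List ℕ) (h : ∀ i ∈ l, 0 < i) : l.length ≤ l.sum := by
  induction l with
  | nil => simp
  | cons x l ih =>
    rw [List.length_cons, List.sum_cons]
    have h1 := ih (fun i hi => h i (List.mem_cons_of_mem _ hi))
    have h2 := h x List.mem_cons_self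
    omega

theorem h170_partF_zero {n m : ℕ} (W : SuperPartition n m) (k : ℕ) (hk : n + m ≤ k) :
    partF W k = 0 := by
  rw [partF_apply]
  apply List.getD_eq_default
  rw [List.length_append, W.a_length]
  have h1 := h170_len_le W.s W.s_pos
  have h2 := W.sum_eq
  omega

theorem h170_partF_degree {n m : ℕ} (W : SuperPartition n m) : (partF W).degree = n := by
  have h1 : (partF W).support ⊆ range (W.a ++ W.s).length := by
    intro k hk
    rw [Finsupp.mem_support_iff, partF_apply] at hk
    rw [mem_range]
    by_contra h
    apply hk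
    apply List.getD_eq_default
    omega
  rw [Finsupp.degree_apply, Finset.sum_subset h1]
  · have h2 := h170_sum_getD (W.a ++ W.s)
    rw [List.sum_append, W.sum_eq] at h2
    exact h2
  · intro k _ hk
    rwa [Finsupp.notMem_support_iff] at hk

/-- HINT: `g = ysym N m (monomial (partF W) 1)` is in `U` (`ysym_inU`), `g = ev N G` with `G` admissible (`spanning`), so
`Th N m g = Σ_d G_d Th (ev (monomial d 1))` is a combination of `pLam`'s (`Th_ev_class`); on the other hand
`Th N m g = m! (N-m)! • Th N m (monomial (partF W) 1)` (`Th_perm`), which is a nonzero multiple of `mono K N W`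
(`mono_Th`). -/
theorem mono_span (N n m : ℕ) (hN : n + m ≤ N) (W : SuperPartition n m) :
    mono K N W ∈ Submodule.span K (Set.range (fun L : SuperPartition n m => pLam K N L)) := by
  classical
  have hm : m ≤ N := by omega
  have h1 : (monomial (partF W) (1 : K)).IsHomogeneous n := by
    apply isHomogeneous_monomial
    exact h170_partF_degree W
  have h2 : VarsLt N (monomial (partF W) (1 : K)) := by
    intro k hk
    rw [vars_monomial one_ne_zero, Finsupp.mem_support_iff] at hk
    by_contra hcon
    exact hk (h170_partF_zero W k (by omega))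
  have h3 := ysym_inU N m n hm _ h1 h2
  obtain ⟨G, hG1, hG2, -⟩ := spanning N m n hm _ h3
  have h4 : Th N m (ysym N m (monomial (partF W) (1 : K))) =
      (((m.factorial * (N - m).factorial : ℕ) : K)) • Th N m (monomial (partF W) (1 : K)) := by
    rw [ysym_apply, map_sum]
    have h5 : ∀ w : Equiv.Perm (Fin m), Th N m (∑ u : Equiv.Perm (Fin (N - m)),
        (((Equiv.Perm.sign w : ℤ)) : K) • rename (emb 0 m w * emb m (N - m) u : Equiv.Perm ℕ)
          (monomial (partF W) (1 : K))) =
        (((N - m).factorial : ℕ) : K) • Th N m (monomial (partF W) (1 : K)) := by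
      intro w
      rw [map_sum]
      have h6 : ∀ u : Equiv.Perm (Fin (N - m)), Th N m ((((Equiv.Perm.sign w : ℤ)) : K) •
          rename (emb 0 m w * emb m (N - m) u : Equiv.Perm ℕ) (monomial (partF W) (1 : K))) =
          Th N m (monomial (partF W) (1 : K)) := by
        intro u
        rw [map_smul, Th_perm N m hm, smul_smul]
        have h7 : (((Equiv.Perm.sign w : ℤ)) : K) * (((Equiv.Perm.sign w : ℤ)) : K) = 1 := by
          rw [← Int.cast_mul, ← Units.val_mul, Int.units_mul_self]
          simp
        rw [h7, one_smul]
      rw [Finset.sum_congr rfl (fun u _ => h6 u), Finset.sum_const, Finset.card_univ,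
        Fintype.card_perm, Fintype.card_fin, Nat.cast_smul_eq_nsmul]
    rw [Finset.sum_congr rfl (fun w _ => h5 w), Finset.sum_const, Finset.card_univ,
      Fintype.card_perm, Fintype.card_fin, ← Nat.cast_smul_eq_nsmul K, smul_smul, Nat.cast_mul]
  have h8 : Th N m (ysym N m (monomial (partF W) (1 : K))) ∈
      Submodule.span K (Set.range (fun L : SuperPartition n m => pLam K N L)) := by
    rw [← hG1, G.as_sum, map_sum, map_sum]
    apply Submodule.sum_mem
    intro d hd
    have h9 : (monomial d (coeff d G) : MvPolynomial (ℕ ⊕ ℕ) K) = coeff d G • monomial d (1 : K) := by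
      rw [smul_monomial, smul_eq_mul, mul_one]
    rw [h9, map_smul, map_smul]
    apply Submodule.smul_mem
    rcases Th_ev_class (K := K) N m n hm d (hG2 d hd) with ⟨-, h0⟩ | ⟨L, w, -, -, -, h0⟩
    · rw [h0]
      exact Submodule.zero_mem _
    · rw [h0]
      apply Submodule.smul_mem
      exact Submodule.subset_span ⟨L, rfl⟩
  rw [h4] at h8
  have h10 : (((m.factorial * (N - m).factorial : ℕ) : K)) ≠ 0 := by
    rw [Nat.cast_ne_zero]
    positivity
  have h11 := (Submodule.smul_mem_iff _ h10).1 h8
  rw [mono_Th N n m hN W]
  exact Submodule.smul_mem _ _ h11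

end JSup
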