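import Pool.Agent.Helper204.JS.Stmt
import Pool.Agent.Helper204.JS.Defs
import Pool.Agent.Helper204.JS.Defs1
import Pool.Agent.Helper204.JS.Defs2
import Pool.Agent.Helper204.JS.Defs3
import Pool.Agent.Helper204.JS.Defs4
import Pool.Agent.Helper204.JS.P_mono_Th
import Pool.Agent.Helper204.JS.P_Th_monomial
import Pool.Agent.Helper204.JS.P_Th_ev
import Pool.Agent.Helper204.JS.P_pLam_eq

set_option linter.unusedSectionVars false

open MvPolynomial Finset

noncomputable section

namespace JSup
variable {K : Type} [Field K] [CharZero K] [Par K]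



theorem sum_getD_append (a s : List ℕ) : ∑ i ∈ range a.length, (a ++ s).getD i 0 = a.sum := by
  induction a with
  | nil => simp
  | cons x t ih =>
    rw [List.length_cons, Finset.sum_range_succ', List.sum_cons]
    have h : ∀ i, (x :: t ++ s).getD (i + 1) 0 = (t ++ s).getD i 0 := by
      intro i; simp
    simp only [h]
    rw [ih]
    simp [add_comm]

/-- HINT: write `pLam K N W = ((N-m)!)⁻¹ • Th N m (ev N (monomial d 1))` with `d (inl i) = W.part i` (`i<m`),
`d (inr k) = W.s.count k` (`Th_ev`, `pLam_eq`); `ev N (monomial d 1)` is homogeneous of degree `n` in variables `< N`, expand in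
monomials, `Th_monomial`, `mono_Th`. -/
theorem pLam_span (N n m : ℕ) (hN : n + m ≤ N) (W : SuperPartition n m) :
    pLam K N W ∈ Submodule.span K (Set.range (fun L : SuperPartition n m => mono K N L)) := by
  have hm : m ≤ N := by omega
  have hla : W.a.length = m := W.a_length
  -- the exponent vector
  let f : ℕ →₀ ℕ := Finsupp.onFinset (range m) (fun i => if i < m then W.part i else 0) (by
    intro i hi
    rw [Finset.mem_range]
    by_contra h
    exact hi (if_neg h))
  let g : ℕ →₀ ℕ := Finsupp.onFinset W.s.toFinset (fun k => W.s.count k) (by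
    intro k hk
    rw [List.mem_toFinset]
    exact List.count_pos_iff.mp (Nat.pos_of_ne_zero hk))
  let d : (ℕ ⊕ ℕ) →₀ ℕ := Finsupp.sumElim f g
  have hdl : ∀ i, d (Sum.inl i) = if i < m then W.part i else 0 := fun i => rfl
  have hdr : ∀ k, d (Sum.inr k) = W.s.count k := fun k => rfl
  have hd : Adm m n d := by
    refine ⟨fun i hi => ?_, ?_, ?_⟩
    · rw [hdl, if_neg (by omega)]
    · rw [hdr]
      apply List.count_eq_zero_of_not_mem
      intro h
      have := W.s_pos 0 h
      omega
    · have e1 : d.sum (fun v c => Sum.elim (fun _ => c) (fun k => k * c) v)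
          = f.sum (fun _ c => c) + g.sum (fun k c => k * c) := by
        show (Finsupp.sumElim f g).sum _ = _
        rw [Finsupp.sum_sumElim]
        rfl
      rw [e1]
      have e2 : f.sum (fun _ c => c) = W.a.sum := by
        rw [Finsupp.onFinset_sum _ (fun _ => rfl)]
        rw [← sum_getD_append W.a W.s, hla]
        refine Finset.sum_congr rfl fun i hi => ?_
        rw [Finset.mem_range] at hi
        rw [if_pos hi]
        rfl
      have e3 : g.sum (fun k c => k * c) = W.s.sum := by
        rw [Finsupp.onFinset_sum _ (fun _ => by simp)]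
        rw [Finset.sum_list_count]
        refine Finset.sum_congr rfl fun k _ => ?_
        rw [smul_eq_mul, mul_comm]
      rw [e2, e3, W.sum_eq]
  have hTh := Th_ev (K := K) N m n hm d hd
  have hpl : Th N m (ev N (monomial d (1 : K))) = (((N - m).factorial : ℕ) : K) • pLam K N W := by
    rw [hTh, pLam_eq]
    congr 2
    congr 1
    funext i j
    rw [hdl, if_pos i.2]
  have hfac : (((N - m).factorial : ℕ) : K) ≠ 0 := Nat.cast_ne_zero.mpr (Nat.factorial_ne_zero _)
  have hpl2 : pLam K N W = ((((N - m).factorial : ℕ) : K))⁻¹ • Th N m (ev N (monomial d (1 : K))) := by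
    rw [hpl, smul_smul, inv_mul_cancel₀ hfac, one_smul]
  rw [hpl2]
  apply Submodule.smul_mem
  -- properties of the polynomial
  have hev : ev N (monomial d (1 : K)) = ∏ v ∈ d.support,
      (Sum.elim (fun i => X i) (fun k => ∑ j ∈ range N, X j ^ k) v : MvPolynomial ℕ K) ^ d v := by
    unfold ev
    rw [aeval_monomial, map_one, one_mul]
    rfl
  have hhom : (ev N (monomial d (1 : K))).IsHomogeneous n := by
    rw [hev, ← hd.2.2]
    apply IsHomogeneous.prod
    intro v _
    rcases v with i | k
    · have := (isHomogeneous_X K i).pow (d (Sum.inl i))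
      simpa using this
    · have h1 : (∑ j ∈ range N, (X j : MvPolynomial ℕ K) ^ k).IsHomogeneous k := by
        apply IsHomogeneous.sum
        intro j _
        exact isHomogeneous_X_pow j k
      exact h1.pow (d (Sum.inr k))
  have hvar : ev N (monomial d (1 : K)) ∈ supported K {k | k < N} := by
    rw [hev]
    apply Subalgebra.prod_mem
    intro v hv
    apply Subalgebra.pow_mem
    rcases v with i | k
    · have : d (Sum.inl i) ≠ 0 := Finsupp.mem_support_iff.mp hv
      rw [hdl] at this
      have hi : i < m := by
        by_contra h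
        exact this (if_neg h)
      show (X i : MvPolynomial ℕ K) ∈ _
      rw [X_mem_supported]
      show i < N
      omega
    · show (∑ j ∈ range N, (X j : MvPolynomial ℕ K) ^ k) ∈ _
      apply Subalgebra.sum_mem
      intro j hj
      apply Subalgebra.pow_mem
      rw [X_mem_supported]
      exact Finset.mem_range.mp hj
  obtain ⟨p, hp⟩ : ∃ p, p = ev N (monomial d (1 : K)) := ⟨_, rfl⟩
  rw [← hp] at hhom hvar ⊢
  rw [p.as_sum, map_sum]
  apply Submodule.sum_mem
  intro e he
  have h1 : (monomial e (coeff e p) : MvPolynomial ℕ K) = coeff e p • monomial e (1 : K) := by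
    rw [smul_monomial, smul_eq_mul, mul_one]
  rw [h1, map_smul]
  apply Submodule.smul_mem
  have hk : ∀ k, N ≤ k → e k = 0 := by
    intro k hk
    by_contra hne
    have h2 : k ∈ p.vars := (mem_vars k).mpr ⟨e, he, Finsupp.mem_support_iff.mpr hne⟩
    have h3 := (mem_supported.mp hvar) h2
    have h4 : k < N := h3
    omega
  have hsum : e.sum (fun _ k => k) = n := by
    have h2 := hhom (mem_support_iff.mp he)
    rw [Finsupp.weight_apply] at h2
    simpa using h2
  rcases Th_monomial (K := K) N n m hN e hk hsum with h0 | ⟨W', ε, h0⟩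
  · rw [h0]; exact Submodule.zero_mem _
  · rw [h0]
    apply Submodule.smul_mem
    have haut : ((autL N W' : ℕ) : K) ≠ 0 := by
      rw [Nat.cast_ne_zero]
      unfold autL
      apply mul_ne_zero (Nat.factorial_ne_zero _)
      rw [Finset.prod_ne_zero_iff]
      intro k _
      exact Nat.factorial_ne_zero _
    have h2 : Th N m (monomial (partF W') (1 : K)) = (autL N W' : K) • mono K N W' := by
      rw [mono_Th N n m hN W', smul_smul, mul_inv_cancel₀ haut, one_smul]
    rw [h2]
    apply Submodule.smul_mem
    exact Submodule.subset_span ⟨W', rfl⟩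

end JSup
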