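import Pool.Agent.Helper204.JS.Stmt
import Pool.Agent.Helper204.JS.Defs
import Pool.Agent.Helper204.JS.Defs1
import Pool.Agent.Helper204.JS.Defs2
import Pool.Agent.Helper204.JS.Defs3
import Pool.Agent.Helper204.JS.Defs4
import Pool.Agent.Helper204.JS.P_mono_indep
import Pool.Agent.Helper204.JS.P_mono_span
import Pool.Agent.Helper204.JS.P_pLam_span

set_option linter.unusedSectionVars false

open MvPolynomial Finset

noncomputable section

namespace JSup
variable {K : Type} [Field K] [CharZero K] [Par K]



theorem nondeg_al : (al : K) ≠ 0 := by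
  intro h
  have := Par.indep (K := K) 1 0 (by
    have h' : (Par.al : K) = 0 := h
    rw [h']; simp)
  exact one_ne_zero this

theorem nondeg_z {n m : ℕ} (L : SuperPartition n m) : ((zLam L.s : ℕ) : K) ≠ 0 := by
  rw [Nat.cast_ne_zero]
  unfold zLam
  rw [Finset.prod_ne_zero_iff]
  intro k hk
  rw [List.mem_toFinset] at hk
  have h1 := L.s_pos k hk
  exact mul_ne_zero (pow_ne_zero _ (by omega)) (Nat.factorial_ne_zero _)

/-- HINT: `x = Σ r_W mono W` lies in the span of the `pLam`'s (`mono_span`), `x = Σ a_L pLam L`; as the `pLam` are in the span of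
the `mono`'s (`pLam_span`), `B x (pLam L) = 0` for all `L`, i.e. `a_L ± α^… z = 0`, so all `a_L = 0` (`al ≠ 0`, `zLam ≠ 0`
because the parts are positive), `x = 0`; `mono_indep`. -/
theorem nondeg (N n m : ℕ) (hN : n + m ≤ N) (B : LinearMap.BilinForm K (Superspace K N))
    (hB : ∀ L W : SuperPartition n m, B (pLam K N L) (pLam K N W) =
      if L = W then (-1) ^ (m.choose 2) * (al : K) ^ (m + L.s.length) * (zLam L.s : K) else 0)
    (r : SuperPartition n m →₀ K)
    (h : ∀ W : SuperPartition n m, B (r.sum fun V x => x • mono K N V) (mono K N W) = 0) : r = 0 := by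
  obtain ⟨x, hx⟩ : ∃ x, x = r.sum fun V x => x • mono K N V := ⟨_, rfl⟩
  rw [← hx] at h
  have hmem : x ∈ Submodule.span K (Set.range (fun L : SuperPartition n m => pLam K N L)) := by
    rw [hx]
    unfold Finsupp.sum
    exact Submodule.sum_mem _ (fun W _ => Submodule.smul_mem _ _ (mono_span N n m hN W))
  obtain ⟨a, ha⟩ := (Finsupp.mem_span_range_iff_exists_finsupp).1 hmem
  have hzero : ∀ y ∈ Submodule.span K (Set.range (fun L : SuperPartition n m => mono K N L)),
      B x y = 0 := by
    intro y hy
    induction hy using Submodule.span_induction with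
    | mem y hy =>
      obtain ⟨W, rfl⟩ := hy
      exact h W
    | zero => simp
    | add y z _ _ h1 h2 => rw [map_add, h1, h2, add_zero]
    | smul c y _ h1 => rw [map_smul, h1, smul_zero]
  have ha0 : a = 0 := by
    ext L
    have h1 := hzero _ (pLam_span N n m hN L)
    rw [← ha] at h1
    unfold Finsupp.sum at h1
    rw [map_sum, LinearMap.sum_apply] at h1
    have h2 : ∀ W ∈ a.support, (B (a W • pLam K N W)) (pLam K N L) = if L = W then a W *
        ((-1) ^ (m.choose 2) * (al : K) ^ (m + W.s.length) * (zLam W.s : K)) else 0 := by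
      intro W _
      rw [map_smul, LinearMap.smul_apply, hB W L, smul_eq_mul]
      by_cases hWL : W = L
      · rw [if_pos hWL, if_pos hWL.symm]
      · rw [if_neg hWL, if_neg (fun h' => hWL h'.symm), mul_zero]
    rw [Finset.sum_congr rfl h2, Finset.sum_ite_eq a.support L] at h1
    by_cases hL : L ∈ a.support
    · rw [if_pos hL] at h1
      have h3 : (-1 : K) ^ (m.choose 2) * (al : K) ^ (m + L.s.length) * (zLam L.s : K) ≠ 0 :=
        mul_ne_zero (mul_ne_zero (pow_ne_zero _ (by simp)) (pow_ne_zero _ nondeg_al)) (nondeg_z L)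
      rcases mul_eq_zero.1 h1 with h4 | h4
      · simpa using h4
      · exact absurd h4 h3
    · simpa using hL
  have hx0 : x = 0 := by
    rw [← ha, ha0]
    simp
  apply mono_indep N n m hN r
  rw [← hx, hx0]

end JSup
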