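import Pool.Agent.Helper204.JS.Stmt
import Pool.Agent.Helper204.JS.Defs
import Pool.Agent.Helper204.JS.Defs1
import Pool.Agent.Helper204.JS.Defs2
import Pool.Agent.Helper204.JS.Defs3
import Pool.Agent.Helper204.JS.Defs4

set_option linter.unusedSectionVars false

open MvPolynomial Finset

noncomputable section

namespace JSup
variable {K : Type} [Field K] [CharZero K] [Par K]



theorem ou_mem {ι V : Type} [Finite ι] [PartialOrder ι] [AddCommGroup V] [Module K V]
    (mo : ι → V) (w : ι → ι →₀ K) (h1 : ∀ i, w i i ≠ 0) (h2 : ∀ i j, w i j ≠ 0 → j ≤ i) (i : ι) :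
    mo i ∈ Submodule.span K {x | ∃ j, j ≤ i ∧ x = (w j).sum fun k x => x • mo k} := by
  classical
  induction i using WellFoundedLT.induction with
  | ind i ih =>
    have e1 : w i i • mo i + ((w i).erase i).sum (fun k x => x • mo k)
        = (w i).sum (fun k x => x • mo k) :=
      Finsupp.add_sum_erase (w i) i (fun k x => x • mo k) (Finsupp.mem_support_iff.2 (h1 i))
    have e2 : mo i = (w i i)⁻¹ • ((w i).sum (fun k x => x • mo k)
        - ((w i).erase i).sum (fun k x => x • mo k)) := by
      rw [← e1, add_sub_cancel_right, inv_smul_smul₀ (h1 i)]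
    have e3 : ((w i).erase i).sum (fun k x => x • mo k) ∈
        Submodule.span K {x | ∃ j, j ≤ i ∧ x = (w j).sum fun k x => x • mo k} := by
      apply Submodule.sum_mem
      intro k hk
      rw [Finsupp.mem_support_iff] at hk
      have hki : k ≠ i := by
        rintro rfl
        exact hk Finsupp.erase_same
      rw [Finsupp.erase_ne hki] at hk
      apply Submodule.smul_mem
      have hle := h2 i k hk
      refine Submodule.span_mono ?_ (ih k (lt_of_le_of_ne hle hki))
      rintro x ⟨j, hj, rfl⟩
      exact ⟨j, hj.trans hle, rfl⟩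
    have e4 := Submodule.smul_mem (Submodule.span K
      {x | ∃ j, j ≤ i ∧ x = (w j).sum fun k x => x • mo k}) (w i i)⁻¹
      (Submodule.sub_mem _ (Submodule.subset_span ⟨i, le_rfl, rfl⟩) e3)
    rw [← e2] at e4
    exact e4

theorem ou_sum {ι V : Type} [Finite ι] [PartialOrder ι] [AddCommGroup V] [Module K V]
    (mo : ι → V) (w : ι → ι →₀ K) (h1 : ∀ i, w i i ≠ 0) (h2 : ∀ i j, w i j ≠ 0 → j ≤ i)
    (S : Set ι) (hS : ∀ k ∈ S, ∀ l, l ≤ k → l ∈ S) (r : ι →₀ K) (hr : ∀ k, r k ≠ 0 → k ∈ S) :
    (r.sum fun k x => x • mo k) ∈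
      Submodule.span K {x | ∃ j, j ∈ S ∧ x = (w j).sum fun k x => x • mo k} := by
  apply Submodule.sum_mem
  intro k hk
  rw [Finsupp.mem_support_iff] at hk
  apply Submodule.smul_mem
  refine Submodule.span_mono ?_ (ou_mem mo w h1 h2 k)
  rintro x ⟨j, hj, rfl⟩
  exact ⟨j, hS k (hr k hk) j hj, rfl⟩

theorem ou_main {ι V : Type} [Finite ι] [PartialOrder ι] [AddCommGroup V] [Module K V]
    (mo : ι → V)
    (B : V →ₗ[K] V →ₗ[K] K)
    (hnd : ∀ r : ι →₀ K, (∀ j, B (r.sum fun k x => x • mo k) (mo j) = 0) → r = 0)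
    (c v : ι → ι →₀ K) (hc1 : ∀ i, c i i = 1) (hc2 : ∀ i j, c i j ≠ 0 → j ≤ i)
    (hcO : ∀ i j, i ≠ j → B ((c i).sum fun k x => x • mo k) ((c j).sum fun k x => x • mo k) = 0)
    (hv1 : ∀ i, v i i ≠ 0) (hv2 : ∀ i j, v i j ≠ 0 → j ≤ i)
    (hvO : ∀ i j, j ≤ i → j ≠ i →
      B ((v i).sum fun k x => x • mo k) ((v j).sum fun k x => x • mo k) = 0) (i j : ι) :
    v i i * c i j = v i j := by
  have hc1' : ∀ i, c i i ≠ 0 := fun i => by rw [hc1 i]; exact one_ne_zero
  obtain ⟨r, hr⟩ : ∃ r : ι →₀ K, r = c i - (v i i)⁻¹ • v i := ⟨_, rfl⟩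
  have hrS : ∀ k, r k ≠ 0 → k ∈ {k | k < i} := by
    intro k hk
    have hki : k ≠ i := by
      rintro rfl
      apply hk
      rw [hr, Finsupp.sub_apply, Finsupp.smul_apply, smul_eq_mul, inv_mul_cancel₀ (hv1 k),
        hc1 k, sub_self]
    have hle : k ≤ i := by
      by_contra hnle
      apply hk
      have h1 : c i k = 0 := by
        by_contra h
        exact hnle (hc2 i k h)
      have h2 : v i k = 0 := by
        by_contra h
        exact hnle (hv2 i k h)
      rw [hr, Finsupp.sub_apply, Finsupp.smul_apply, smul_eq_mul, h1, h2, mul_zero, sub_zero]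
    exact lt_of_le_of_ne hle hki
  have hsum : (r.sum fun k x => x • mo k) = ((c i).sum fun k x => x • mo k)
      - (v i i)⁻¹ • ((v i).sum fun k x => x • mo k) := by
    have h0 : ∀ r : ι →₀ K, (r.sum fun k x => x • mo k) = Finsupp.linearCombination K mo r :=
      fun r => (Finsupp.linearCombination_apply K r).symm
    rw [h0, h0, h0, hr, map_sub, map_smul]
  -- orthogonality to all `P j`
  have hP : ∀ j, B (r.sum fun k x => x • mo k) ((c j).sum fun k x => x • mo k) = 0 := by
    intro j
    by_cases hji : j < i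
    · rw [hsum, map_sub, map_smul, LinearMap.sub_apply, LinearMap.smul_apply,
        hcO i j (ne_of_gt hji)]
      have hmem := ou_sum mo v hv1 hv2 {k | k ≤ j} (fun k hk l hl => le_trans hl hk) (c j)
        (fun k hk => hc2 j k hk)
      have hz : ∀ x ∈ Submodule.span K
          {x | ∃ l, l ∈ {k | k ≤ j} ∧ x = (v l).sum fun k x => x • mo k},
          B ((v i).sum fun k x => x • mo k) x = 0 := by
        intro x hx
        induction hx using Submodule.span_induction with
        | mem x hx =>
          obtain ⟨l, hl, rfl⟩ := hx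
          have hli : l < i := lt_of_le_of_lt hl hji
          exact hvO i l hli.le hli.ne
        | zero => rw [map_zero]
        | add x y _ _ hx hy => rw [map_add, hx, hy, add_zero]
        | smul a x _ hx => rw [map_smul, hx, smul_zero]
      rw [hz _ hmem, smul_zero, sub_zero]
    · have hmem := ou_sum mo c hc1' hc2 {k | k < i} (fun k hk l hl => lt_of_le_of_lt hl hk) r hrS
      have hz : ∀ x ∈ Submodule.span K
          {x | ∃ l, l ∈ {k | k < i} ∧ x = (c l).sum fun k x => x • mo k},
          B x ((c j).sum fun k x => x • mo k) = 0 := by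
        intro x hx
        induction hx using Submodule.span_induction with
        | mem x hx =>
          obtain ⟨l, hl, rfl⟩ := hx
          have hlj : l ≠ j := by
            rintro rfl
            exact hji hl
          exact hcO l j hlj
        | zero => rw [map_zero, LinearMap.zero_apply]
        | add x y _ _ hx hy => rw [map_add, LinearMap.add_apply, hx, hy, add_zero]
        | smul a x _ hx => rw [map_smul, LinearMap.smul_apply, hx, smul_zero]
      exact hz _ hmem
  have hmo : ∀ j, B (r.sum fun k x => x • mo k) (mo j) = 0 := by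
    intro j
    have hmem := ou_mem mo c hc1' hc2 j
    have hz : ∀ x ∈ Submodule.span K {x | ∃ l, l ≤ j ∧ x = (c l).sum fun k x => x • mo k},
        B (r.sum fun k x => x • mo k) x = 0 := by
      intro x hx
      induction hx using Submodule.span_induction with
      | mem x hx =>
        obtain ⟨l, _, rfl⟩ := hx
        exact hP l
      | zero => rw [map_zero]
      | add x y _ _ hx hy => rw [map_add, hx, hy, add_zero]
      | smul a x _ hx => rw [map_smul, hx, smul_zero]
    exact hz _ hmem
  have hr0 := hnd r hmo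
  have h1 : r j = 0 := by rw [hr0]; rfl
  rw [hr, Finsupp.sub_apply, Finsupp.smul_apply, smul_eq_mul, sub_eq_zero] at h1
  rw [h1, mul_inv_cancel_left₀ (hv1 i)]

/-- HINT: write `P i = Σ_j c i j • mo j`, `J i = Σ_j v i j • mo j`. (1) `B (P i) (P i) ≠ 0`: otherwise `P i` is orthogonal to all
`P j`, hence to all `mo j` (unitriangular inversion, `ι` finite, `le` a partial order), so `P i = 0` by `hnd`, contradicting
`c i i = 1`. (2) `D = P i - (v i i)⁻¹ • J i` is a combination of `mo j`, `j < i`, so `D = Σ_{j<i} d_j • P j`. For `j < i`: `P j` is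
a combination of `J k`, `k ≤ j`, so `B (J i) (P j) = 0`, and `B (P i) (P j) = 0`; so `0 = B D (P j) = d_j B (P j) (P j)`,
`d_j = 0`. So `D = 0`, compare coefficients (`hind`). Useful: well-founded induction on the finite partial order for
`mo j` is in the span of `P k`, `k ≤ j` and the same for `J`. -/
theorem orth_unique {ι V : Type} [Finite ι] [AddCommGroup V] [Module K V] (le : ι → ι → Prop)
    (hrefl : ∀ i, le i i) (htrans : ∀ i j k, le i j → le j k → le i k) (hanti : ∀ i j, le i j → le j i → i = j)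
    (mo : ι → V) (hind : ∀ r : ι →₀ K, (r.sum fun j x => x • mo j) = 0 → r = 0)
    (B : V →ₗ[K] V →ₗ[K] K)
    (hnd : ∀ r : ι →₀ K, (∀ j, B (r.sum fun k x => x • mo k) (mo j) = 0) → r = 0)
    (c v : ι → ι →₀ K) (hc1 : ∀ i, c i i = 1) (hc2 : ∀ i j, c i j ≠ 0 → le j i)
    (hcO : ∀ i j, i ≠ j → B ((c i).sum fun k x => x • mo k) ((c j).sum fun k x => x • mo k) = 0)
    (hv1 : ∀ i, v i i ≠ 0) (hv2 : ∀ i j, v i j ≠ 0 → le j i)
    (hvO : ∀ i j, le j i → j ≠ i → B ((v i).sum fun k x => x • mo k) ((v j).sum fun k x => x • mo k) = 0) :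
    ∀ i j, v i i * c i j = v i j := by
  letI : PartialOrder ι :=
    { le := le
      le_refl := hrefl
      le_trans := htrans
      le_antisymm := hanti }
  exact ou_main mo B hnd c v hc1 hc2 hcO hv1 hv2 hvO

end JSup
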