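import Pool.Agent.Helper204.JS.Stmt
import Pool.Agent.Helper204.JS.Defs
import Pool.Agent.Helper204.JS.Defs1
import Pool.Agent.Helper204.JS.Defs2
import Pool.Agent.Helper204.JS.P_star_facts
import Pool.Agent.Helper204.JS.P_sp_ext
import Pool.Agent.Helper204.JS.P_nn_dom

set_option linter.unusedSectionVars false

open MvPolynomial Finset

noncomputable section

namespace JSup
variable {K : Type} [Field K] [CharZero K] [Par K]



theorem Dom_refl' (l : List ℕ) : Dom l l := ⟨rfl, fun _ => le_rfl⟩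

theorem Dom_trans' {l₁ l₂ l₃ : List ℕ} (h : Dom l₁ l₂) (h' : Dom l₂ l₃) : Dom l₁ l₃ :=
  ⟨h.1.trans h'.1, fun k => (h.2 k).trans (h'.2 k)⟩

theorem Dom_antisymm' {l₁ l₂ : List ℕ} (h : Dom l₁ l₂) (h' : Dom l₂ l₁) (p1 : ∀ i ∈ l₁, 0 < i)
    (p2 : ∀ i ∈ l₂, 0 < i) : l₁ = l₂ := by
  have a1 := nn_dom l₁ l₂ h p1 p2
  have a2 := nn_dom l₂ l₁ h' p2 p1
  exact a1.2 (le_antisymm a2.1 a1.1)

theorem fin_lists' (k n : ℕ) : Set.Finite {l : List ℕ | l.length ≤ k ∧ ∀ x ∈ l, x ≤ n} := by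
  have h := (List.finite_length_le (Fin (n+1)) k).image (List.map Fin.val)
  refine h.subset ?_
  rintro l ⟨hl, hx⟩
  refine ⟨l.attach.map (fun x => ⟨x.1, Nat.lt_succ_of_le (hx x.1 x.2)⟩), ?_, ?_⟩
  · simpa using hl
  · rw [List.map_map]
    exact List.attach_map_subtype_val l

/-- HINT: `Dom` is reflexive and transitive; antisymmetry: `nn_dom` in both directions gives `star` and `ostar` equal,
then `sp_ext`. Finiteness: the parts are bounded by `n`, `a.length = m`, `s.length ≤ n`. -/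
theorem sp_order (n m : ℕ) :
    (∀ L : SuperPartition n m, L ≤ L) ∧
    (∀ L W V : SuperPartition n m, V ≤ W → W ≤ L → V ≤ L) ∧
    (∀ L W : SuperPartition n m, W ≤ L → L ≤ W → W = L) ∧
    Finite (SuperPartition n m) := by
  refine ⟨fun L => ⟨Dom_refl' _, Dom_refl' _⟩, ?_, ?_, ?_⟩
  · intro L W V h1 h2
    exact ⟨Dom_trans' h1.1 h2.1, Dom_trans' h1.2 h2.2⟩
  · intro L W h1 h2
    have fL := star_facts L
    have fW := star_facts W
    apply sp_ext
    · exact Dom_antisymm' h1.1 h2.1 fW.2.2.2.2.1 fL.2.2.2.2.1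
    · exact Dom_antisymm' h1.2 h2.2 fW.2.2.2.2.2.1 fL.2.2.2.2.2.1
  · have ha : ∀ L : SuperPartition n m, L.a ∈ {l : List ℕ | l.length ≤ m ∧ ∀ x ∈ l, x ≤ n} := by
      intro L
      refine ⟨L.a_length.le, fun x hx => ?_⟩
      have h1 : x ≤ L.a.sum := List.single_le_sum (fun y _ => Nat.zero_le y) x hx
      have h2 := L.sum_eq
      omega
    have hs : ∀ L : SuperPartition n m, L.s ∈ {l : List ℕ | l.length ≤ n ∧ ∀ x ∈ l, x ≤ n} := by
      intro L
      have h2 := L.sum_eq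
      refine ⟨?_, fun x hx => ?_⟩
      · have h3 : L.s.length ≤ L.s.sum := List.length_le_sum_of_one_le L.s (fun i hi => L.s_pos i hi)
        omega
      · have h1 : x ≤ L.s.sum := List.single_le_sum (fun y _ => Nat.zero_le y) x hx
        omega
    have f1 := (fin_lists' m n).to_subtype
    have f2 := (fin_lists' n n).to_subtype
    refine Finite.of_injective
      (fun L : SuperPartition n m => ((⟨L.a, ha L⟩, ⟨L.s, hs L⟩) :
        {l : List ℕ | l.length ≤ m ∧ ∀ x ∈ l, x ≤ n} × {l : List ℕ | l.length ≤ n ∧ ∀ x ∈ l, x ≤ n})) ?_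
    intro L W h
    simp only [Prod.mk.injEq, Subtype.mk.injEq] at h
    exact SuperPartition.ext h.1 h.2

end JSup
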