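import Pool.Agent.Helper204.JS.Stmt
import Pool.Agent.Helper204.JS.Defs
import Pool.Agent.Helper204.JS.Defs1
import Pool.Agent.Helper204.JS.Defs2

set_option linter.unusedSectionVars false

open MvPolynomial Finset

noncomputable section

namespace JSup
variable {K : Type} [Field K] [CharZero K] [Par K]



/-- HINT: from the definition: each factor is `α a + l + 1` with naturals `a, l`: nonzero (if `a ≠ 0` by `Par.indep`, if
`a = 0` it is a positive integer, `CharZero`). -/
theorem vLam_ne {n m : ℕ} (L : SuperPartition n m) : vLam (al : K) L ≠ 0 := by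
  rw [vLam, Finset.prod_ne_zero_iff]
  intro c _
  generalize arm L.ostar c = a
  generalize leg L.star c = l
  intro h0
  have h1 : ((a : ℤ) : K) * (Par.al : K) + (((l : ℤ) + 1 : ℤ) : K) = 0 := by
    push_cast
    have h2 : (al : K) * (a : K) + (l : K) + 1 = 0 := h0
    rw [al] at h2
    linear_combination h2
  have h3 : (a : ℤ) = 0 := Par.indep _ _ h1
  rw [h3] at h1
  have h4 : (((l : ℤ) + 1 : ℤ) : K) = 0 := by simpa using h1
  rw [Int.cast_eq_zero] at h4
  omega

end JSup
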