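import Pool.Agent.Helper204.JS.Stmt
import Pool.Agent.Helper204.JS.Defs
import Pool.Agent.Helper204.JS.Defs1
import Pool.Agent.Helper204.JS.Defs2
import Pool.Agent.Helper204.JS.Defs3
import Pool.Agent.Helper204.JS.Defs4
import Pool.Agent.Helper204.JS.P_vLam_ne
import Pool.Agent.Helper204.JS.P_sp_order
import Pool.Agent.Helper204.JS.P_core
import Pool.Agent.Helper204.JS.P_mono_indep
import Pool.Agent.Helper204.JS.P_Th_expand
import Pool.Agent.Helper204.JS.P_coeff_rev
import Pool.Agent.Helper204.JS.P_nondeg
import Pool.Agent.Helper204.JS.P_J_orth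
import Pool.Agent.Helper204.JS.P_orth_unique

set_option linter.unusedSectionVars false

open MvPolynomial Finset

noncomputable section

namespace JSup
variable {K : Type} [Field K] [CharZero K] [Par K]



/-- HINT: for each `L` take `J_L` from `core`; `v L W := coeff (dOf W) J_L` (finitely supported: `SuperPartition n m` is finite,
`sp_order`). By `Th_expand`, `coeff_rev`: `Th N m J_L = (m! (N-m)! (-1)^(m choose 2)) • (v L).sum (x • mono)`, nonzero scalar;
`orth_unique` with `le = (· ≤ ·)` (`sp_order`), `mo = mono K N`, `hind` = `mono_indep`, `hnd` = `nondeg`, `hvO` from `J_orth`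
(scalar pulled out), `hv1` from `vLam_ne`. Conclusion `vLam L * c L W = v L W ∈ ZA K` (`Itg`). -/
theorem final (N n m : ℕ) (hN : n + m ≤ N) (B : LinearMap.BilinForm K (Superspace K N))
    (hB : ∀ L W : SuperPartition n m, B (pLam K N L) (pLam K N W) =
      if L = W then (-1) ^ (m.choose 2) * (al : K) ^ (m + L.s.length) * (zLam L.s : K) else 0)
    (c : SuperPartition n m → SuperPartition n m →₀ K)
    (hc1 : ∀ L, c L L = 1) (hc2 : ∀ L W, c L W ≠ 0 → W ≤ L)
    (hcO : ∀ L W, L ≠ W → B ((c L).sum fun G r => r • mono K N G) ((c W).sum fun G r => r • mono K N G) = 0) :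
    ∀ L W, vLam (al : K) L * c L W ∈ ZA K := by
  obtain ⟨hrefl, htrans, hanti, hfin⟩ := sp_order n m
  choose J hItg hU hMM hII hcoef hsupp using
    fun L : SuperPartition n m => core (K := K) N n m hN L
  let v : SuperPartition n m → SuperPartition n m →₀ K := fun L =>
    Finsupp.ofSupportFinite (fun W => coeff (dOf W) (J L)) (Set.toFinite _)
  have hv : ∀ L W, v L W = coeff (dOf W) (J L) := fun L W => rfl
  let sc : K := ((m.factorial * (N - m).factorial : ℕ) : K) * (-1) ^ (m.choose 2)
  have hsc : sc ≠ 0 := by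
    apply mul_ne_zero
    · rw [Nat.cast_ne_zero]
      exact mul_ne_zero (Nat.factorial_ne_zero _) (Nat.factorial_ne_zero _)
    · exact pow_ne_zero _ (neg_ne_zero.2 one_ne_zero)
  have hTh : ∀ L, Th N m (J L) = sc • ((v L).sum fun W x => x • mono K N W) := by
    intro L
    obtain ⟨r, hr1, hr2⟩ := Th_expand N n m hN (J L) (hU L)
    have hr : r = sc • v L := by
      ext V
      rw [hr2 V, coeff_rev N n m hN (J L) (hU L) V, Finsupp.smul_apply, hv, smul_eq_mul]
      simp only [sc]
      ring
    rw [hr1, hr, Finsupp.sum_smul_index (fun i => by rw [zero_smul]), Finsupp.smul_sum]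
    simp only [mul_smul]
  have hvO : ∀ L W : SuperPartition n m, W ≤ L → W ≠ L →
      B ((v L).sum fun k x => x • mono K N k) ((v W).sum fun k x => x • mono K N k) = 0 := by
    intro L W h hne
    have h1 := J_orth N n m hN B hB L W h hne (J L) (J W) (hU L) (hU W) (hMM L) (hII L)
      (hMM W) (hII W)
    rw [hTh, hTh, map_smul, map_smul, LinearMap.smul_apply, smul_eq_mul, smul_eq_mul] at h1
    have h2 := (mul_eq_zero.1 h1).resolve_left hsc
    exact (mul_eq_zero.1 h2).resolve_left hsc
  have key := orth_unique (K := K) (ι := SuperPartition n m) (V := Superspace K N)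
    (fun W L => W ≤ L) hrefl (fun i j k h1 h2 => htrans k j i h1 h2)
    (fun i j h1 h2 => hanti j i h1 h2) (fun W => mono K N W)
    (fun r hr => mono_indep N n m hN r hr) B (fun r hr => nondeg N n m hN B hB r hr)
    c v hc1 hc2 hcO (fun L => by rw [hv, hcoef]; exact vLam_ne L) (fun L W h => hsupp L W h) hvO
  intro L W
  have h1 := key L W
  rw [hv, hcoef] at h1
  rw [h1, hv]
  exact hItg L _

end JSup
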