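import Pool.Agent.Helper204.JS.Stmt
import Pool.Agent.Helper204.JS.Defs
import Pool.Agent.Helper204.JS.Defs1
import Pool.Agent.Helper204.JS.Defs2
import Pool.Agent.Helper204.JS.Defs3
import Pool.Agent.Helper204.JS.Defs4
import Pool.Agent.Helper204.JS.P_final

set_option linter.unusedSectionVars false

open MvPolynomial Finset

noncomputable section

namespace JSup
variable {K : Type} [Field K] [CharZero K] [Par K]



theorem main_indep_aux (a b : ℤ) (h : (a : RatFunc ℚ) * RatFunc.X + (b : RatFunc ℚ) = 0) : a = 0 := by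
  have h1 : algebraMap (Polynomial ℚ) (RatFunc ℚ)
      (Polynomial.C (a : ℚ) * Polynomial.X + Polynomial.C (b : ℚ)) = 0 := by
    rw [map_add, map_mul, RatFunc.algebraMap_X, RatFunc.algebraMap_C, RatFunc.algebraMap_C]
    simpa using h
  have h2 : Polynomial.C (a : ℚ) * Polynomial.X + Polynomial.C (b : ℚ) = 0 :=
    (map_eq_zero_iff _ (RatFunc.algebraMap_injective ℚ)).1 h1
  have h3 := congrArg (fun p => Polynomial.coeff p 1) h2
  simp only [Polynomial.coeff_add, Polynomial.coeff_C_mul, Polynomial.coeff_X_one,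
    Polynomial.coeff_C_of_ne_zero one_ne_zero, Polynomial.coeff_zero, mul_one, add_zero] at h3
  exact_mod_cast h3

theorem main_adjoin_inst (i1 i2 : Algebra ℤ (RatFunc ℚ)) (x y : RatFunc ℚ)
    (h : y ∈ @Algebra.adjoin ℤ (RatFunc ℚ) _ _ i1 {x}) :
    y ∈ @Algebra.adjoin ℤ (RatFunc ℚ) _ _ i2 {x} := by
  have : i1 = i2 := Subsingleton.elim _ _
  subst this
  exact h

@[reducible] def main_par_inst : Par (RatFunc ℚ) := ⟨RatFunc.X, main_indep_aux⟩

/-- HINT: instance `Par (RatFunc ℚ)` with `al := RatFunc.X` (`a X + b = 0` in `ℚ(X)` forces `a = 0`: it is the image of the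
polynomial `C a * X + C b`), then `final`; `ZA (RatFunc ℚ)` unfolds to `Algebra.adjoin ℤ {RatFunc.X}`. Provide the instance as a
`def`/`letI` inside the proof. -/
theorem main : MainStatement := by
  unfold MainStatement
  intro n m N _ hN B hB c hc1 hc2 hcO L W
  have h := @final (RatFunc ℚ) _ _ main_par_inst N n m hN B hB c hc1 hc2 hcO L W
  exact main_adjoin_inst _ _ _ _ h

end JSup
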