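import Pool.Agent.Helper204.JS.Stmt
import Pool.Agent.Helper204.JS.Defs
import Pool.Agent.Helper204.JS.Defs1
import Pool.Agent.Helper204.JS.Defs2
import Pool.Agent.Helper204.JS.P_star_facts

set_option linter.unusedSectionVars false

open MvPolynomial Finset

noncomputable section

namespace JSup
variable {K : Type} [Field K] [CharZero K] [Par K]



theorem ostar_row_col (l : List ℕ) (hl : l.Pairwise (· ≥ ·)) (r j : ℕ) :
    j < l.getD r 0 ↔ r < colLen l j := by
  induction l generalizing r with
  | nil => simp [colLen]
  | cons x t ih =>
    rw [List.pairwise_cons] at hl
    have iht := ih hl.2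
    by_cases hx : j < x
    · have e : colLen (x :: t) j = colLen t j + 1 := by
        unfold colLen
        rw [List.filter_cons_of_pos (by simpa using hx)]
        rfl
      rw [e]
      cases r with
      | zero => simp [hx]
      | succ r =>
        rw [List.getD_cons_succ, iht r]
        omega
    · have e : colLen (x :: t) j = 0 := by
        unfold colLen
        rw [List.length_eq_zero_iff, List.filter_eq_nil_iff]
        intro y hy
        rcases List.mem_cons.1 hy with h | h
        · subst h; simpa using hx
        · have := hl.1 y h
          simp only [decide_eq_true_eq]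
          omega
      rw [e]
      constructor
      · intro h
        exfalso
        cases r with
        | zero => exact hx (by simpa using h)
        | succ r =>
          rw [List.getD_cons_succ, iht r] at h
          have h2 : colLen t j = 0 := by
            unfold colLen at e ⊢
            rw [List.filter_cons_of_neg (by simpa using hx)] at e
            exact e
          omega
      · intro h; omega

theorem ostar_row_cnt (l : List ℕ) (v : ℕ) :
    colLen l (v + 1) + l.count (v + 1) = colLen l v := by
  induction l with
  | nil => simp [colLen]
  | cons x t ih =>
    unfold colLen at ih ⊢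
    rw [List.filter_cons, List.filter_cons, List.count_cons]
    by_cases h1 : v + 1 < x
    · have h2 : v < x := by omega
      have h3 : ¬ (x == v + 1) = true := by simp; omega
      simp only [h1, h2, decide_true, if_true, h3, List.length_cons]
      simp
      omega
    · by_cases h2 : v < x
      · have h3 : x = v + 1 := by omega
        simp [h1, h2, h3]
        omega
      · have h3 : ¬ (x = v + 1) := by omega
        simp [h1, h2, h3]
        omega

/-- HINT: let `b r = star_r + (1 if r is the first row with value star_r and star_r ∈ a, else 0)` for `r < length`.
The list `(b r)_r ++ (if 0 ∈ a then [1] else [])` is decreasing and a permutation of `L.a.map (·+1) ++ L.s`, hence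
equals `L.ostar` (uniqueness of the sorted list, `List.Perm.eq_of_pairwise`/`eq_of_perm_of_sorted`). Alternatively use
column lengths: for a decreasing list `l`, `j < l.getD r 0 ↔ r < colLen l j`; then
`j < ostar_r ↔ r < colLen star j + [j ∈ a]`: so `ostar_r = star_r + 1` iff `r = colLen star (star_r)` (= number of
entries `> star_r`) and `star_r ∈ a`. -/
theorem ostar_row {n m : ℕ} (L : SuperPartition n m) (r : ℕ) (hr : r < L.star.length) :
    L.ostar.getD r 0 = L.star.getD r 0 +
      (if r = (L.star.filter (fun x => L.star.getD r 0 < x)).length ∧ L.star.getD r 0 ∈ L.a then 1 else 0) := by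
  obtain ⟨f1, f2, f3, f4, f5, f6, f7, f8, f9, f10, f11⟩ := star_facts L
  have hS := ostar_row_col L.star f1
  have hO := ostar_row_col L.ostar f2
  set s := L.star.getD r 0 with hs
  have hspos : 0 < s := by
    have : s = L.star[r] := by rw [hs]; exact List.getD_eq_getElem _ _ hr
    rw [this]
    exact f5 _ (List.getElem_mem hr)
  have hcs : colLen L.star s ≤ r := by
    by_contra hcon
    push Not at hcon
    have := (hS r s).2 hcon
    omega
  -- lower bound
  have h1 : s - 1 < L.ostar.getD r 0 := by
    rw [hO r (s - 1), f10]
    have := (hS r (s - 1)).1 (by omega)
    omega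
  -- upper bound
  have h2 : ¬ (s + 1 < L.ostar.getD r 0) := by
    rw [hO r (s + 1), f10]
    have h3 := ostar_row_cnt L.star s
    have h4 := f11 (s + 1) (by omega)
    rw [h4] at h3
    omega
  have h3 : s < L.ostar.getD r 0 ↔ (r = (L.star.filter (fun x => s < x)).length ∧ s ∈ L.a) := by
    rw [hO r s, f10]
    have e : colLen L.star s = (L.star.filter (fun x => s < x)).length := rfl
    rw [← e]
    by_cases ha : s ∈ L.a
    · rw [if_pos ha]
      constructor
      · intro h; exact ⟨by omega, ha⟩
      · rintro ⟨h, _⟩; omega
    · rw [if_neg ha]
      constructor
      · intro h; omega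
      · rintro ⟨_, h⟩; exact absurd h ha
  by_cases hc : r = (L.star.filter (fun x => s < x)).length ∧ s ∈ L.a
  · rw [if_pos hc]
    have := h3.2 hc
    omega
  · rw [if_neg hc]
    have : ¬ s < L.ostar.getD r 0 := fun h => hc (h3.1 h)
    omega

end JSup
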