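import Pool.Agent.Helper204.JS.Stmt
import Pool.Agent.Helper204.JS.Defs
import Pool.Agent.Helper204.JS.Defs1
import Pool.Agent.Helper204.JS.Defs2

set_option linter.unusedSectionVars false

open MvPolynomial Finset

noncomputable section

namespace JSup
variable {K : Type} [Field K] [CharZero K] [Par K]



/-- HINT: induction on `l = x :: t`, `x ≥` all of `t`. Row `r` of value `v` is number `q = r - #{entries > v}` among the
rows with value `v`. For `l = x :: t`: for `v < x` both `r` and `#{> v}` increase by one; for `v = x` the indices `q` of
the entries of `t` equal to `x` go from `0..c-1` to `1..c` and the new entry has `q = 0`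
(`Finset.prod_range_succ'`). -/
theorem prod_sorted_dec {M : Type} [CommMonoid M] (l : List ℕ) (hl : l.Pairwise (· ≥ ·)) (g : ℕ → ℕ → M) :
    ∏ r ∈ range l.length, g (l.getD r 0) (r - (l.filter (fun x => l.getD r 0 < x)).length)
      = ∏ v ∈ l.toFinset, ∏ q ∈ range (l.count v), g v q := by
  induction l generalizing g with
  | nil => simp
  | cons x t ih =>
    obtain ⟨hx, ht⟩ := List.pairwise_cons.mp hl
    have key := ih ht (fun v q => if v < x then g v q else g v (q + 1))
    rw [List.length_cons, Finset.prod_range_succ']
    have h0 : g ((x :: t).getD 0 0) (0 - ((x :: t).filter (fun y => (x :: t).getD 0 0 < y)).length) = g x 0 := by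
      simp
    rw [h0]
    have h1 : ∏ k ∈ range t.length, g ((x :: t).getD (k + 1) 0) (k + 1 - ((x :: t).filter (fun y => (x :: t).getD (k+1) 0 < y)).length)
        = ∏ r ∈ range t.length, (fun v q => if v < x then g v q else g v (q + 1)) (t.getD r 0) (r - (t.filter (fun x => t.getD r 0 < x)).length) := by
      apply Finset.prod_congr rfl
      intro r hr
      have hr' : r < t.length := Finset.mem_range.mp hr
      have hmem : t.getD r 0 ∈ t := by
        rw [List.getD_eq_getElem _ _ hr']; exact List.getElem_mem hr'
      have hle : t.getD r 0 ≤ x := hx _ hmem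
      have hcons : (x :: t).getD (r + 1) 0 = t.getD r 0 := by simp
      rw [hcons]
      by_cases hlt : t.getD r 0 < x
      · have hf : (x :: t).filter (fun y => t.getD r 0 < y) = x :: t.filter (fun y => t.getD r 0 < y) := by
          rw [List.filter_cons_of_pos]; simpa using hlt
        rw [hf, List.length_cons]
        simp only [hlt, if_true]
        congr 1; omega
      · have hf : (x :: t).filter (fun y => t.getD r 0 < y) = t.filter (fun y => t.getD r 0 < y) := by
          rw [List.filter_cons_of_neg]; simpa using hlt
        have he : t.getD r 0 = x := by omega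
        have hz : t.filter (fun y => t.getD r 0 < y) = [] := by
          rw [List.filter_eq_nil_iff]
          intro y hy
          have := hx y hy
          simp only [decide_eq_true_eq, not_lt]
          omega
        rw [hf, hz]
        simp only [hlt, if_false, List.length_nil]
        congr 1
    rw [h1, key]
    have h2 : ∀ f : ℕ → M, (x ∉ t → f x = 1) → ∏ v ∈ t.toFinset, f v = f x * ∏ v ∈ t.toFinset.erase x, f v := by
      intro f hf
      by_cases hxt : x ∈ t
      · rw [Finset.mul_prod_erase _ _ (List.mem_toFinset.mpr hxt)]
      · rw [hf hxt, one_mul, Finset.erase_eq_of_notMem]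
        simpa using hxt
    rw [h2 _ (by intro hxt; rw [List.count_eq_zero_of_not_mem hxt]; simp)]
    have h3 : ∏ v ∈ (x :: t).toFinset, ∏ q ∈ range ((x :: t).count v), g v q
        = (∏ q ∈ range ((x :: t).count x), g x q) * ∏ v ∈ t.toFinset.erase x, ∏ q ∈ range ((x :: t).count v), g v q := by
      rw [List.toFinset_cons, ← Finset.mul_prod_erase _ _ (Finset.mem_insert_self x t.toFinset),
        Finset.erase_insert_eq_erase]
    rw [h3, List.count_cons_self, Finset.prod_range_succ']
    have h4 : ∏ v ∈ t.toFinset.erase x, ∏ q ∈ range (t.count v), (fun v q => if v < x then g v q else g v (q + 1)) v q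
        = ∏ v ∈ t.toFinset.erase x, ∏ q ∈ range ((x :: t).count v), g v q := by
      apply Finset.prod_congr rfl
      intro v hv
      have hvx : v ≠ x := Finset.ne_of_mem_erase hv
      have hvt : v ∈ t := List.mem_toFinset.mp (Finset.mem_of_mem_erase hv)
      have hlt : v < x := lt_of_le_of_ne (hx v hvt) hvx
      rw [List.count_cons_of_ne (Ne.symm hvx)]
      simp [hlt]
    rw [h4]
    simp only [lt_irrefl, if_false]
    rw [mul_right_comm]

end JSup
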