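import Pool.Agent.Helper204.JS.Stmt
import Pool.Agent.Helper204.JS.Defs
import Pool.Agent.Helper204.JS.Defs1
import Pool.Agent.Helper204.JS.Defs2
import Pool.Agent.Helper204.JS.P_prod_sorted_dec
import Pool.Agent.Helper204.JS.P_star_facts
import Pool.Agent.Helper204.JS.P_ostar_row

set_option linter.unusedSectionVars false

open MvPolynomial Finset

noncomputable section

namespace JSup
variable {K : Type} [Field K] [CharZero K] [Par K]



theorem vs_nI_split (l : List ℕ) (x y z : ℕ) (h1 : x ≤ y) (h2 : y ≤ z) :
    nI l x z = nI l x y + nI l y z := by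
  unfold nI
  induction l with
  | nil => simp
  | cons w t ih =>
    simp only [List.filter_cons]
    by_cases hx : x ≤ w <;> by_cases hy : w < y <;> by_cases hz : w < z <;> by_cases hy2 : y ≤ w <;>
      simp [hx, hy, hz, hy2] at ih ⊢ <;> omega

theorem vs_nI_count (l : List ℕ) (v : ℕ) : nI l v (v + 1) = l.count v := by
  unfold nI
  induction l with
  | nil => simp
  | cons w t ih =>
    rw [List.filter_cons, List.count_cons]
    by_cases hw : w = v
    · subst hw
      simp only [le_refl, Nat.lt_succ_self, and_self, decide_true, if_true, List.length_cons,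
        beq_self_eq_true] at ih ⊢
      omega
    · have h1 : ¬ (v ≤ w ∧ w < v + 1) := by omega
      have h2 : (w == v) = false := by simp [hw]
      rw [h2]
      simp only [h1, decide_false, Bool.false_eq_true, if_false]
      omega

theorem vs_cnt_le (l : List ℕ) (hl : l.Pairwise (· ≥ ·)) (r : ℕ) (hr : r < l.length) :
    (l.filter (fun x => l.getD r 0 < x)).length ≤ r := by
  induction l generalizing r with
  | nil => simp
  | cons w t ih =>
    rw [List.pairwise_cons] at hl
    cases r with
    | zero =>
      have : (w :: t).filter (fun x => (w :: t).getD 0 0 < x) = [] := by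
        rw [List.filter_eq_nil_iff]
        intro y hy
        simp only [List.getD_cons_zero, decide_eq_true_eq, not_lt]
        rcases List.mem_cons.1 hy with h | h
        · exact h.le
        · exact hl.1 y h
      rw [this]; simp
    | succ r =>
      have hr' : r < t.length := by simpa using hr
      have := ih hl.2 r hr'
      simp only [List.getD_cons_succ]
      rw [List.filter_cons]
      split_ifs
      · simp only [List.length_cons]; omega
      · omega

theorem vs_getD_mem (l : List ℕ) (r : ℕ) (hr : r < l.length) : l.getD r 0 ∈ l := by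
  rw [List.getD_eq_getElem _ _ hr]; exact List.getElem_mem hr

theorem vs_lt_colLen (l : List ℕ) (hl : l.Pairwise (· ≥ ·)) (r : ℕ) (hr : r < l.length) (j : ℕ)
    (hj : j < l.getD r 0) : r < colLen l j := by
  unfold colLen
  induction l generalizing r with
  | nil => simp at hr
  | cons w t ih =>
    rw [List.pairwise_cons] at hl
    cases r with
    | zero =>
      simp only [List.getD_cons_zero] at hj
      rw [List.filter_cons]
      simp [hj]
    | succ r =>
      have hr' : r < t.length := by simpa using hr
      simp only [List.getD_cons_succ] at hj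
      have h1 := ih hl.2 r hr' hj
      have h2 : j < w := lt_of_lt_of_le hj (hl.1 _ (vs_getD_mem t r hr'))
      rw [List.filter_cons]
      simp only [h2, decide_true, if_true, List.length_cons]
      omega

/-- the row weight -/
def vsG (K : Type) [Field K] [CharZero K] [Par K] {n m : ℕ} (L : SuperPartition n m) (v q : ℕ) : K :=
  ∏ j ∈ (range v).filter (fun j => ¬ ((q = 0 ∧ v ∈ L.a) ∧ j ∈ L.a)),
    ((al : K) * ((v + (if q = 0 ∧ v ∈ L.a then 1 else 0) - (j + 1) : ℕ) : K)
      + ((nI L.a (j + 1) (v + 1) : K) + (nI L.s (j + 1) (v + 1) : K) - (q : K)))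

theorem vs_row {n m : ℕ} (L : SuperPartition n m) (r v c : ℕ)
    (hs7 : L.star.sum = n)
    (hs9 : ∀ j, colLen L.star j = nI L.a (j + 1) (n + 1) + nI L.s (j + 1) (n + 1))
    (hs10 : ∀ j, colLen L.ostar j = colLen L.star j + (if j ∈ L.a then 1 else 0))
    (hrow : L.ostar.getD r 0 = v + if r = c ∧ v ∈ L.a then 1 else 0)
    (hcnt : c ≤ r) (hvn : v ≤ n) (hcol : ∀ j < v, r < colLen L.star j) (hcl : c = colLen L.star v) :
    (∏ y ∈ range (L.star.sum + 1),
      if y < v ∧ ¬(v < L.ostar.getD r 0 ∧ colLen L.star y < colLen L.ostar y) then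
        (al : K) * ((arm L.ostar (r, y) : ℕ) : K) + ((leg L.star (r, y) : ℕ) : K) + 1
      else 1) = vsG K L v (r - c) := by
  rw [← Finset.prod_filter]
  unfold vsG
  have hclv := hs9 v
  have hq0 : (r - c = 0) ↔ r = c := by omega
  have hset : (range (L.star.sum + 1)).filter (fun j => j < v ∧
      ¬ (v < L.ostar.getD r 0 ∧ colLen L.star j < colLen L.ostar j)) =
      (range v).filter (fun j => ¬ ((r - c = 0 ∧ v ∈ L.a) ∧ j ∈ L.a)) := by
    ext j
    simp only [Finset.mem_filter, Finset.mem_range]
    rw [hs7, hs10 j, hrow, hq0]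
    have e1 : (v < v + if r = c ∧ v ∈ L.a then 1 else 0) ↔ (r = c ∧ v ∈ L.a) := by
      split_ifs with h
      · simp [h]
      · simp [h]
    have e2 : (colLen L.star j < colLen L.star j + if j ∈ L.a then 1 else 0) ↔ j ∈ L.a := by
      split_ifs with h
      · simp [h]
      · simp [h]
    rw [e1, e2]
    constructor
    · rintro ⟨_, h2, h3⟩; exact ⟨h2, h3⟩
    · rintro ⟨h2, h3⟩; exact ⟨by omega, h2, h3⟩
  rw [hset]
  apply Finset.prod_congr rfl
  intro j hj
  simp only [Finset.mem_filter, Finset.mem_range] at hj
  unfold arm leg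
  simp only
  have hE : (if r - c = 0 ∧ v ∈ L.a then 1 else 0) = (if r = c ∧ v ∈ L.a then 1 else 0) := by
    by_cases h1 : r = c
    · simp [h1]
    · have : ¬ (r - c = 0) := by omega
      simp [h1, this]
  rw [hrow, hE]
  have hcolj := hcol j hj.1
  have hj9 := hs9 j
  have hsa := vs_nI_split L.a (j + 1) (v + 1) (n + 1) (by omega) (by omega)
  have hss := vs_nI_split L.s (j + 1) (v + 1) (n + 1) (by omega) (by omega)
  have hnat : (colLen L.star j - (r + 1)) + 1 + (r - c) = nI L.a (j + 1) (v + 1) + nI L.s (j + 1) (v + 1) := by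
    omega
  have hK : ((colLen L.star j - (r + 1) : ℕ) : K) + 1 + ((r - c : ℕ) : K) =
      (nI L.a (j + 1) (v + 1) : K) + (nI L.s (j + 1) (v + 1) : K) := by
    exact_mod_cast congrArg (Nat.cast (R := K)) hnat
  rw [← hK]; ring

theorem vs_stepA {n m : ℕ} (L : SuperPartition n m) :
    vLam (al : K) L = ∏ r ∈ range L.star.length,
      vsG K L (L.star.getD r 0) (r - (L.star.filter (fun x => L.star.getD r 0 < x)).length) := by
  obtain ⟨hs1, hs2, hs3, hs4, hs5, hs6, hs7, hs8, hs9, hs10, hs11⟩ := star_facts L
  unfold vLam calB boxes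
  rw [Finset.filter_filter, Finset.prod_filter, Finset.prod_product]
  apply Finset.prod_congr rfl
  intro r hr
  rw [Finset.mem_range] at hr
  have hrow := ostar_row L r hr
  have hcnt := vs_cnt_le L.star hs1 r hr
  have hmem := vs_getD_mem L.star r hr
  have hvn : L.star.getD r 0 ≤ n := by
    exact le_trans (List.single_le_sum (by simp) _ hmem) hs7.le
  have hcol := vs_lt_colLen L.star hs1 r hr
  have hcl : (L.star.filter (fun x => L.star.getD r 0 < x)).length = colLen L.star (L.star.getD r 0) := rfl
  exact vs_row L r _ _ hs7 hs9 hs10 (by convert hrow) hcnt hvn hcol hcl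

theorem vs_stepB {n m : ℕ} (L : SuperPartition n m) (v : ℕ) (hv : 0 < v) :
    ∏ q ∈ range (L.star.count v), vsG K L v q =
      (if v ∈ L.a then (∏ j ∈ (range v).filter (fun j => j ∉ L.a),
        ((al : K) * ((v - j : ℕ) : K) + 1 + (nI L.a (j + 1) v : K) + (nI L.s (j + 1) (v + 1) : K))) else 1) *
      (∏ q ∈ range (L.s.count v), ∏ j ∈ range v,
        ((al : K) * ((v - 1 - j : ℕ) : K) + (nI L.a (j + 1) v : K) + (nI L.s (j + 1) (v + 1) : K) - (q : K))) := by
  obtain ⟨hs1, hs2, hs3, hs4, hs5, hs6, hs7, hs8, hs9, hs10, hs11⟩ := star_facts L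
  rw [hs11 v hv]
  have hnd : L.a.Nodup := L.a_strict.imp (fun {x y} h => ne_of_gt h)
  by_cases ha : v ∈ L.a
  · simp only [ha, if_true]
    have hn1 : ∀ j < v, (nI L.a (j + 1) (v + 1)) = nI L.a (j + 1) v + 1 := by
      intro j hj
      rw [vs_nI_split L.a (j + 1) v (v + 1) (by omega) (by omega), vs_nI_count,
        List.count_eq_one_of_mem hnd ha]
    rw [add_comm 1, Finset.prod_range_succ', mul_comm]
    congr 1
    · unfold vsG
      simp only [ha, and_self, if_true, true_and]
      apply Finset.prod_congr rfl
      intro j hj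
      simp only [Finset.mem_filter, Finset.mem_range] at hj
      rw [hn1 j hj.1]
      have : v + 1 - (j + 1) = v - j := by omega
      rw [this]; push_cast; ring
    · apply Finset.prod_congr rfl
      intro q hq
      unfold vsG
      simp only [Nat.add_eq_zero_iff, one_ne_zero, and_false, false_and, not_false_eq_true,
        Finset.filter_true, if_false, add_zero]
      apply Finset.prod_congr rfl
      intro j hj
      simp only [Finset.mem_range] at hj
      rw [hn1 j hj]
      have : v - (j + 1) = v - 1 - j := by omega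
      rw [this]; push_cast; ring
  · simp only [ha, if_false, zero_add, one_mul]
    have hn1 : ∀ j < v, (nI L.a (j + 1) (v + 1)) = nI L.a (j + 1) v := by
      intro j hj
      rw [vs_nI_split L.a (j + 1) v (v + 1) (by omega) (by omega), vs_nI_count,
        List.count_eq_zero_of_not_mem ha, add_zero]
    apply Finset.prod_congr rfl
    intro q hq
    unfold vsG
    simp only [ha, and_false, false_and, not_false_eq_true,
        Finset.filter_true, if_false, add_zero]
    apply Finset.prod_congr rfl
    intro j hj
    simp only [Finset.mem_range] at hj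
    rw [hn1 j hj]
    have : v - (j + 1) = v - 1 - j := by omega
    rw [this]; ring

/-- HINT: rewrite `∏ over calB L` as `∏ r<length, ∏ j<star_r with the condition` (a product over a filtered product
set). With `v = star_r`, `q = r - #{x ∈ star : x > v}`, `ostar_row`: arm `= v + ε - (j+1)` with `ε = [q = 0 ∧ v ∈ a]`;
the row contains a circle iff `q = 0 ∧ v ∈ a`, column `j` contains a circle iff `j ∈ a` (`star_facts`);
`leg + 1 = colLen star j - r = nI a (j+1) (v+1) + nI s (j+1) (v+1) - q` (here `j < v`, `r < colLen star j`). Then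
`prod_sorted_dec` with `g v q = ∏_{j<v, ¬((q=0 ∧ v∈a) ∧ j∈a)} (…)` and split: for `v ∈ a`, `v > 0`, the term `q = 0` is the
fermionic factor (`nI a (j+1) (v+1) = 1 + nI a (j+1) v` because `v ∈ a` and `a` has distinct entries), the remaining
`q = 1 + q'`, `q' < count v s`, are bosonic; for `v ∉ a` all `q < count v s` are bosonic. -/
theorem vLam_split {n m : ℕ} (L : SuperPartition n m) :
    vLam (al : K) L =
      (∏ v ∈ L.a.toFinset, ∏ j ∈ (range v).filter (fun j => j ∉ L.a),
        (al * ((v - j : ℕ) : K) + 1 + (nI L.a (j + 1) v : K) + (nI L.s (j + 1) (v + 1) : K))) *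
      (∏ v ∈ L.s.toFinset, ∏ q ∈ range (L.s.count v), ∏ j ∈ range v,
        (al * ((v - 1 - j : ℕ) : K) + (nI L.a (j + 1) v : K) + (nI L.s (j + 1) (v + 1) : K) - (q : K))) := by
  obtain ⟨hs1, hs2, hs3, hs4, hs5, hs6, hs7, hs8, hs9, hs10, hs11⟩ := star_facts L
  have hmem : ∀ v, v ∈ L.star ↔ ((v ∈ L.a ∨ v ∈ L.s) ∧ 0 < v) := by
    intro v
    rw [hs3.mem_iff, List.mem_filter, List.mem_append, decide_eq_true_eq]
  rw [vs_stepA, prod_sorted_dec L.star hs1 (vsG K L)]
  rw [Finset.prod_congr rfl (fun v hv => vs_stepB (K := K) L v (hs5 v (List.mem_toFinset.1 hv)))]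
  rw [Finset.prod_mul_distrib]
  congr 1
  · rw [← Finset.prod_filter]
    apply Finset.prod_subset
    · intro v hv
      rw [Finset.mem_filter] at hv
      exact List.mem_toFinset.2 hv.2
    · intro v hv hv2
      have hva := List.mem_toFinset.1 hv
      have hv0 : v = 0 := by
        by_contra hne
        apply hv2
        rw [Finset.mem_filter, List.mem_toFinset]
        exact ⟨(hmem v).2 ⟨Or.inl hva, Nat.pos_of_ne_zero hne⟩, hva⟩
      rw [hv0]; simp
  · symm
    apply Finset.prod_subset
    · intro v hv
      rw [List.mem_toFinset] at hv ⊢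
      exact (hmem v).2 ⟨Or.inr hv, L.s_pos v hv⟩
    · intro v hv hv2
      rw [List.mem_toFinset] at hv2
      rw [List.count_eq_zero_of_not_mem hv2]; simp

end JSup
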