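import Pool.Agent.Helper204.JS.Stmt
import Pool.Agent.Helper204.JS.Defs
import Pool.Agent.Helper204.JS.Defs1
import Pool.Agent.Helper204.JS.Defs2
import Pool.Agent.Helper204.JS.P_vLam_split
import Pool.Agent.Helper204.JS.P_dEta_split
import Pool.Agent.Helper204.JS.P_cB_split
import Pool.Agent.Helper204.JS.P_cnt_split

set_option linter.unusedSectionVars false

open MvPolynomial Finset

noncomputable section

namespace JSup
variable {K : Type} [Field K] [CharZero K] [Par K]



theorem vLam_eq_aux1 (l : List ℕ) (j v : ℕ) (h : j ∉ l) : nI l j v = nI l (j + 1) v := by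
  unfold nI
  congr 1
  apply List.filter_congr
  intro x hx
  have hne : x ≠ j := fun e => h (e ▸ hx)
  apply decide_eq_decide.mpr
  constructor <;> intro h1 <;> omega

theorem vLam_eq_aux2 (l : List ℕ) (j v : ℕ) (h : j < v) :
    nI l (j + 1) (v + 1) = nI l (j + 1) v + l.count v := by
  unfold nI
  induction l with
  | nil => simp
  | cons x t ih =>
    by_cases hx : x = v
    · subst hx
      have h1 : (j + 1 ≤ x ∧ x < x + 1) := by omega
      have h2 : ¬ (j + 1 ≤ x ∧ x < x) := by omega
      rw [List.filter_cons_of_pos (by simpa using h1), List.filter_cons_of_neg (by simpa using h2)]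
      rw [List.length_cons, List.count_cons_self, ih]
      omega
    · rw [List.count_cons_of_ne hx]
      by_cases h3 : (j + 1 ≤ x ∧ x < v)
      · have h4 : (j + 1 ≤ x ∧ x < v + 1) := by omega
        rw [List.filter_cons_of_pos (by simpa using h4), List.filter_cons_of_pos (by simpa using h3)]
        rw [List.length_cons, List.length_cons, ih]
        omega
      · have h4 : ¬ (j + 1 ≤ x ∧ x < v + 1) := by omega
        rw [List.filter_cons_of_neg (by simpa using h4), List.filter_cons_of_neg (by simpa using h3)]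
        exact ih

theorem vLam_eq_aux3 (l : List ℕ) (v : ℕ) : nI l v v = 0 := by
  unfold nI
  rw [List.length_eq_zero_iff, List.filter_eq_nil_iff]
  intro x _
  simp

/-- HINT: `vLam_split`, `dEta_split`, `cB_split`, `cnt_split`. Fermionic part: for each `v ∈ a` split `range v` into `j ∈ a` and
`j ∉ a`; for `j ∉ a`, `nI a j v = nI a (j+1) v`. Bosonic part, for each `v ∈ s` with `c = count v s`:
`nI s (j+1) (v+1) = nI s (j+1) v + c` (for `j < v`), reindex `q ↦ c-1-q` (`Finset.prod_range_reflect`):
`∏_q ∏_{j<v} (α(v-1-j) + nI a + nI s (j+1) v + 1 + q)`, and the factor `j = v-1` is `1 + q` (both `nI` vanish). -/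
theorem vLam_eq (N n m : ℕ) (hN : n + m ≤ N) (L : SuperPartition n m) :
    (vLam (al : K) L) * cB N (etaOf L) L.s.length m =
      ((∏ p ∈ Ico m (m + L.s.length), ((Ico p N).filter (fun j => dOf L j = dOf L p)).card : ℕ) : K)
        * dEta N (etaOf L) := by
  rw [vLam_split, dEta_split N n m hN, cB_split N n m hN, cnt_split N n m hN]
  have hferm : (∏ v ∈ L.a.toFinset, ∏ j ∈ range v,
        (al * ((v - j : ℕ) : K) + 1 + (nI L.a j v : K) + (nI L.s (j + 1) (v + 1) : K))) =
      (∏ v ∈ L.a.toFinset, ∏ j ∈ (range v).filter (fun j => j ∉ L.a),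
        (al * ((v - j : ℕ) : K) + 1 + (nI L.a (j + 1) v : K) + (nI L.s (j + 1) (v + 1) : K))) *
      (∏ v ∈ L.a.toFinset, ∏ j ∈ (range v).filter (fun j => j ∈ L.a),
        (al * ((v - j : ℕ) : K) + 1 + (nI L.a j v : K) + (nI L.s (j + 1) (v + 1) : K))) := by
    rw [← Finset.prod_mul_distrib]
    apply Finset.prod_congr rfl
    intro v _
    rw [← Finset.prod_filter_mul_prod_filter_not (range v) (fun j => j ∈ L.a), mul_comm]
    congr 1
    apply Finset.prod_congr rfl
    intro j hj
    rw [vLam_eq_aux1 L.a j v (Finset.mem_filter.mp hj).2]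
  have hbos : (∏ v ∈ L.s.toFinset, ∏ q ∈ range (L.s.count v), ∏ j ∈ range v,
        (al * ((v - 1 - j : ℕ) : K) + (nI L.a (j + 1) v : K) + (nI L.s (j + 1) (v + 1) : K) - (q : K))) =
      ((∏ v ∈ L.s.toFinset, ∏ q ∈ range (L.s.count v), (q + 1) : ℕ) : K) *
      (∏ v ∈ L.s.toFinset, ∏ q ∈ range (L.s.count v), ∏ j ∈ range (v - 1),
        (al * ((v - 1 - j : ℕ) : K) + 1 + (nI L.a (j + 1) v : K) + (nI L.s (j + 1) v : K) + (q : K))) := by
    push_cast
    rw [← Finset.prod_mul_distrib]
    apply Finset.prod_congr rfl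
    intro v hv
    have hvs : v ∈ L.s := by simpa using hv
    have hvp : 0 < v := L.s_pos v hvs
    obtain ⟨w, rfl⟩ : ∃ w, v = w + 1 := ⟨v - 1, by omega⟩
    rw [← Finset.prod_mul_distrib]
    rw [← Finset.prod_range_reflect]
    apply Finset.prod_congr rfl
    intro q hq
    have hq' : q < L.s.count (w + 1) := by simpa using hq
    rw [Finset.prod_range_succ]
    rw [mul_comm]
    have hcast : ((L.s.count (w + 1) - 1 - q : ℕ) : K) = (L.s.count (w + 1) : K) - 1 - (q : K) := by
      rw [Nat.cast_sub (by omega), Nat.cast_sub (by omega)]; simp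
    congr 1
    · rw [vLam_eq_aux2 L.s w (w + 1) (by omega), vLam_eq_aux3, vLam_eq_aux3, hcast]
      simp
      ring
    · simp only [Nat.add_sub_cancel]
      apply Finset.prod_congr rfl
      intro j hj
      have hj' : j < w := by simpa using hj
      rw [vLam_eq_aux2 L.s j (w + 1) (by omega), hcast]
      push_cast
      ring
  rw [hferm, hbos]
  ring

end JSup
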