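import Mathlib

open MvPolynomial Finset

noncomputable section

namespace JSup

section

/-- A superpartition `Λ = (Λ_1,…,Λ_m; Λ_{m+1},…,Λ_ℓ)` of degree `(n|m)`. -/
@[ext] structure SuperPartition (n m : ℕ) where
  /-- `Λ^a = (Λ_1,…,Λ_m)`, `Λ_1 > … > Λ_m ≥ 0` -/
  a : List ℕ
  /-- `Λ^s = (Λ_{m+1},…,Λ_ℓ)`, `Λ_{m+1} ≥ … ≥ Λ_ℓ > 0` -/
  s : List ℕ
  a_strict : a.Pairwise (· > ·)
  a_length : a.length = m
  s_weak : s.Pairwise (· ≥ ·)
  s_pos : ∀ i ∈ s, 0 < i
  sum_eq : a.sum + s.sum = n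

instance (n m : ℕ) : DecidableEq (SuperPartition n m) := Classical.decEq _

namespace SuperPartition

variable {n m : ℕ}

/-- `Λ_{i+1}` (with `Λ_i = 0` for `i > ℓ`). -/
def part (L : SuperPartition n m) (i : ℕ) : ℕ := (L.a ++ L.s).getD i 0

/-- `Λ^*`: all parts sorted in decreasing order, zeros dropped. -/
def star (L : SuperPartition n m) : List ℕ :=
  List.insertionSort (· ≥ ·) ((L.a ++ L.s).filter (fun i => 0 < i))

/-- `Λ^⊛`: the numbers `Λ_1+1,…,Λ_m+1,Λ_{m+1},…,Λ_ℓ` sorted in decreasing order. -/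
def ostar (L : SuperPartition n m) : List ℕ :=
  List.insertionSort (· ≥ ·) (L.a.map (· + 1) ++ L.s)

end SuperPartition

/-- dominance order on (decreasing lists representing) partitions of the same integer. -/
def Dom (l₁ l₂ : List ℕ) : Prop := l₁.sum = l₂.sum ∧ ∀ k, (l₁.take k).sum ≤ (l₂.take k).sum

instance (n m : ℕ) : LE (SuperPartition n m) := ⟨fun W L => Dom W.star L.star ∧ Dom W.ostar L.ostar⟩

/-- the length `λ'_{j+1}` of column `j+1` of the diagram of `λ`. -/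
def colLen (l : List ℕ) (j : ℕ) : ℕ := (l.filter (fun r => j < r)).length

/-- the boxes `(i+1,j+1)` of the Ferrers diagram of `λ`, numbered from `(0,0)`. -/
def boxes (l : List ℕ) : Finset (ℕ × ℕ) :=
  (range l.length ×ˢ range (l.sum + 1)).filter (fun c => c.2 < l.getD c.1 0)

/-- arm length `a_λ(s) = λ_i - j`. -/
def arm (l : List ℕ) (c : ℕ × ℕ) : ℕ := l.getD c.1 0 - (c.2 + 1)

/-- leg length `l_λ(s) = λ'_j - i`. -/
def leg (l : List ℕ) (c : ℕ × ℕ) : ℕ := colLen l c.2 - (c.1 + 1)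

/-- the set `BΛ` of the boxes of the diagram of `Λ` not lying in both a row containing a circle and a column
containing a circle. -/
def calB {n m : ℕ} (L : SuperPartition n m) : Finset (ℕ × ℕ) :=
  (boxes L.star).filter (fun c =>
    ¬ (L.star.getD c.1 0 < L.ostar.getD c.1 0 ∧ colLen L.star c.2 < colLen L.ostar c.2))

/-- `v_Λ(α) = ∏_{s ∈ BΛ} (α a_{Λ^⊛}(s) + l_{Λ^*}(s) + 1)`. -/
def vLam {F : Type} [Field F] (α : F) {n m : ℕ} (L : SuperPartition n m) : F :=
  ∏ c ∈ calB L, (α * (arm L.ostar c : F) + (leg L.star c : F) + 1)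

/-- `|Aut(Λ^s)|`: the number of permutations of the positions `m+1,…,N` fixing `(Λ_{m+1},…,Λ_N)`
(the zeros `Λ_{ℓ+1} = … = Λ_N = 0` included). -/
def autL {n m : ℕ} (N : ℕ) (L : SuperPartition n m) : ℕ :=
  (N - (m + L.s.length)).factorial * ∏ k ∈ L.s.toFinset, (L.s.count k).factorial

/-- `z_λ = ∏_k k^{n_λ(k)} n_λ(k)!`. -/
def zLam (l : List ℕ) : ℕ := ∏ k ∈ l.toFinset, k ^ l.count k * (l.count k).factorial

end

end JSup
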