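import Pool.Agent.Helper204.JS.StmtA

/-!
Superspace, monomials, power sums, scalar product, Jack superpolynomials. Superpartitions, their diagrams and
`v_Λ` are in `StmtA.lean`.
-/

open MvPolynomial Finset

noncomputable section

namespace JackSuper

open JSup

/-! ### Superspace over a commutative ring `R`: the exterior algebra on `θ_1,…,θ_N` over `R`

It is used for `R = F[x_1,…,x_N]`; `x : Fin N → R` are then the variables. -/

section superspace

/-- the exterior algebra over `R` of the free module with basis `θ_1,…,θ_N`. -/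
abbrev Ext (R : Type) [CommRing R] (N : ℕ) : Type := ExteriorAlgebra R (Fin N → R)

variable {R : Type} [CommRing R] {N n m : ℕ}

/-- the anticommuting variable `θ_i`. -/
def theta (i : Fin N) : Ext R N := ExteriorAlgebra.ι R (Pi.single i 1)

/-- the element `r ∈ R` (for example a polynomial in the commuting variables) as an element of superspace. -/
def scal (r : R) : Ext R N := algebraMap R (Ext R N) r

/-- `Σ_σ σ(θ_1⋯θ_m x_1^{Λ_1}⋯x_N^{Λ_N})`. -/
def symSum (x : Fin N → R) (L : SuperPartition n m) : Ext R N :=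
  ∑ σ : Equiv.Perm (Fin N), (((List.finRange N).take m).map (fun i => theta (σ i))).prod *
    ((List.finRange N).map (fun i => scal (x (σ i)) ^ L.part i)).prod

/-- `m_Λ = |Aut(Λ^s)|⁻¹ Σ_σ σ(θ_1⋯θ_m x_1^{Λ_1}⋯x_N^{Λ_N})`. -/
def mLam (F : Type) [Field F] [Algebra F R] (x : Fin N → R) (L : SuperPartition n m) :
    Ext R N :=
  ((autL N L : F)⁻¹) • symSum x L

/-- `\tilde p_r = Σ_i θ_i x_i^r`. -/
def ptilde (x : Fin N → R) (r : ℕ) : Ext R N := ∑ i : Fin N, theta i * scal (x i) ^ r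

/-- `p_s = Σ_i x_i^s`. -/
def ppower (x : Fin N → R) (s : ℕ) : Ext R N := ∑ i : Fin N, scal (x i) ^ s

/-- `p_Λ = \tilde p_{Λ_1}⋯\tilde p_{Λ_m} p_{Λ_{m+1}}⋯p_{Λ_ℓ}`. -/
def pLam (x : Fin N → R) (L : SuperPartition n m) : Ext R N :=
  (L.a.map (ptilde x)).prod * (L.s.map (ppower x)).prod

end superspace

/-! ### Scalar product and Jack superpolynomials -/

section forms

variable {F V : Type} [Field F] [AddCommGroup V] [Module F V] {n m : ℕ}

/-- `⟨p_Λ, p_Ω⟩ = (-1)^{m(m-1)/2} α^ℓ z_{Λ^s} δ_{ΛΩ}` with `ℓ = m + ℓ(Λ^s)`, for all `Λ, Ω` of degree `(n|m)`. -/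
def IsScalarProduct (α : F) (B : LinearMap.BilinForm F V) (p : SuperPartition n m → V) : Prop :=
  ∀ L W : SuperPartition n m, B (p L) (p W) =
    if L = W then (-1) ^ (m.choose 2) * α ^ (m + L.s.length) * (zLam L.s : F) else 0

/-- `Σ_Ω c_{ΛΩ} m_Ω`. -/
def comb (mo : SuperPartition n m → V) (c : SuperPartition n m → SuperPartition n m →₀ F)
    (L : SuperPartition n m) : V :=
  (c L).sum fun G r => r • mo G

/-- the defining properties of the Jack superpolynomials `P_Λ = Σ_Ω c_{ΛΩ} m_Ω` of degree `(n|m)`: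
`P_Λ = m_Λ + Σ_{Ω<Λ} c_{ΛΩ} m_Ω`, and the `P_Λ` are pairwise orthogonal. -/
structure IsJackFamily (B : LinearMap.BilinForm F V) (mo : SuperPartition n m → V)
    (c : SuperPartition n m → SuperPartition n m →₀ F) : Prop where
  diag : ∀ L, c L L = 1
  tri : ∀ L W, c L W ≠ 0 → W ≤ L
  orth : ∀ L W, L ≠ W → B (comb mo c L) (comb mo c W) = 0

end forms

/-- **Integrality of the coefficients of `J_Λ = v_Λ(α) P_Λ`, degree `(n|m)`.** For every bilinear form `B` with
`B(p_Λ, p_Ω) = (-1)^{m(m-1)/2} α^ℓ z_{Λ^s} δ_{ΛΩ}` and every family `P_Λ = Σ_Ω c_{ΛΩ} m_Ω` of Jack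
superpolynomials for `B`, all `v_{ΛΩ} = v_Λ(α) c_{ΛΩ}` lie in `ℤ[α]`. Superspace is the exterior algebra on
`θ_1,…,θ_N` over `R`, with commuting variables `x_1,…,x_N ∈ R`; it is used for `R = F[x_1,…,x_N]`. -/
def JackIntegral {F R : Type} [Field F] [CommRing R] [Algebra F R] {N : ℕ} (α : F) (x : Fin N → R)
    (n m : ℕ) : Prop :=
  ∀ B : LinearMap.BilinForm F (Ext R N), IsScalarProduct (n := n) (m := m) α B (pLam x) →
    ∀ c : SuperPartition n m → SuperPartition n m →₀ F, IsJackFamily B (mLam F x) c →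
      ∀ L W : SuperPartition n m, vLam α L * c L W ∈ Algebra.adjoin ℤ {α}

end JackSuper
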